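import Pool.Agent.KUR.Basic2

/-!
# KUR Asy: asymptotically free symmetries

Letters are `Sum.inl (k, p)` (an element `p ∈ P k` of trace 0) or `Sum.inr j` (the symmetry
`s_j(n) = a^(c j * n) * s₀ * (star a)^(c j * n)`); `a ∈ P j₁` is a unitary with `tr (a^n) = 0` for
`n ≥ 1`, `s₀ ∈ P j₂` a symmetry of trace 0, `j₁ ≠ j₂`, and `c : J → ℕ` injective, positive.

PROOF.  Let `A^z` for an integer `z` denote `a^z` or `(star a)^(-z)`: unitaries of `P j₁`, orthonormal
for the trace, so for every `x : M`: `tr (x * A^(z n)) → 0` whenever `z n` are integers with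
`|z n| → ∞` injectively, e.g. `z n = z * n` with `z ≠ 0` (Bessel: `∑_z |tr (x A^z)|^2 ≤ n2 x^2`,
`P2.inner_mk`, mathlib `Orthonormal.tendsto_...`/`Orthonormal.sum_inner_products_le`).
BASIC ESTIMATE: if `x_1 ⋯ x_L` (L ≥ 1) is a product with `x_i(n) ∈ P k_i`, `k_i ≠ k_{i+1}`, bounded
norms, and `tr x_i(n) → 0` for all i, then `tr (x_1(n) ⋯ x_L(n)) → 0`: write each `x_i` as
`(x_i - tr x_i) + tr x_i`; the fully centred product has trace 0 by freeness and every other term is a
bounded product times some `tr x_i(n) → 0`.
MAIN INDUCTION on the word `l` (from the right, i.e. `cons`): for every admissible word `l` the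
product `val_n l` can be written as `x_1(n) ⋯ x_L(n)` as in the basic estimate, with `L ≥ 1` if
`l ≠ []`, where moreover the head satisfies, according to the head of `l`:
 * `l = []`: `L = 0`;
 * head `inl (k, p)`, `k ≠ j₁`: `k_1 = k`, `x_1 = p`;
 * head `inl (j₁, p)`: `k_1 = j₁` and `tr (A^(-z n) x_1(n)) → 0` for every integer `z > 0`
   (`x_1 = p` or `x_1(n) = p A^(z' n)`, `z' > 0`: `tr (A^(-z n) p A^(z' n)) = tr (p A^((z'-z) n))` is
   `tr p = 0` or tends to 0), and `tr x_1(n) → 0`;
 * head `inr j`: `k_1 = j₁`, `x_1(n) = A^(c j n)`.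
Adding a letter in front:
 * `inl (k, p)`, `k ≠ j₁`, in front of anything: if the old head has `k_1 = k` the word would not be
   admissible (old head `inl (k, _)`), otherwise just prepend `p`;
 * `inl (j₁, p)` in front of `inr j ...`: replace `x_1 = A^(c j n)` by `p A^(c j n)` (trace → 0); in
   front of `inl (k, _)`, `k ≠ j₁`, or of `[]`: prepend `p`;
 * `inr j` in front of `l`: the new letters `A^(c j n)`, `s₀`, then `A^(- c j n)` times the old
   product: if `l = []` or the old head index is `≠ j₁`, prepend the letter `A^(- c j n)` (trace 0 for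
   n ≥ 1) as a separate letter; if the old head index is `j₁`, merge: `A^(- c j n) x_1(n)` whose trace
   tends to 0 (head `inl (j₁,_)`: by the invariant; head `inr j'`, `j' ≠ j`:
   `tr A^((c j' - c j) n) = 0`).
-/

open Filter Topology

namespace Pool.Agent.KUR

universe u
variable {M : Type u} [CStarAlgebra M] [TVN M]

/-- Value of a letter at stage `n`. -/
noncomputable def letter {J : Type*} (a s₀ : M) (c : J → ℕ) (n : ℕ) : (J × M) ⊕ J → M
  | Sum.inl p => p.2
  | Sum.inr j => a ^ (c j * n) * s₀ * (star a) ^ (c j * n)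

/-- Index of a letter. -/
def letterIdx {J : Type*} : (J × M) ⊕ J → J ⊕ J
  | Sum.inl p => Sum.inl p.1
  | Sum.inr j => Sum.inr j

/-- The unitary `a` as an element of the unitary group. -/
noncomputable def Asy_u (a : M) (ha : IsUn a) : unitary M := ⟨a, by
  rw [Unitary.mem_iff]; exact ha⟩

/-- Integer powers of `a`. -/
noncomputable def Asy_A (a : M) (ha : IsUn a) (z : ℤ) : M := ((Asy_u a ha ^ z : unitary M) : M)

theorem Asy_A_add {a : M} (ha : IsUn a) (z z' : ℤ) :
    Asy_A a ha (z + z') = Asy_A a ha z * Asy_A a ha z' := by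
  simp [Asy_A, zpow_add]

theorem Asy_A_zero {a : M} (ha : IsUn a) : Asy_A a ha 0 = 1 := by
  simp [Asy_A]

theorem Asy_A_nat {a : M} (ha : IsUn a) (n : ℕ) : Asy_A a ha (n : ℤ) = a ^ n := by
  simp [Asy_A, Asy_u]

theorem Asy_A_star {a : M} (ha : IsUn a) (z : ℤ) : star (Asy_A a ha z) = Asy_A a ha (-z) := by
  unfold Asy_A
  rw [zpow_neg, ← Unitary.star_eq_inv, Unitary.coe_star]

theorem Asy_A_neg {a : M} (ha : IsUn a) (n : ℕ) : Asy_A a ha (-(n : ℤ)) = (star a) ^ n := by
  rw [← Asy_A_star, Asy_A_nat, star_pow]

theorem Asy_A_un {a : M} (ha : IsUn a) (z : ℤ) : IsUn (Asy_A a ha z) := by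
  constructor
  · rw [Asy_A_star, ← Asy_A_add, neg_add_cancel, Asy_A_zero]
  · rw [Asy_A_star, ← Asy_A_add, add_neg_cancel, Asy_A_zero]

theorem Asy_A_mem {a : M} (ha : IsUn a) {S : StarSubalgebra ℂ M} (haS : a ∈ S) (z : ℤ) :
    Asy_A a ha z ∈ S := by
  rcases Int.eq_nat_or_neg z with ⟨n, rfl | rfl⟩
  · rw [Asy_A_nat]; exact pow_mem haS n
  · rw [Asy_A_neg]; exact pow_mem (star_mem haS) n

theorem Asy_A_tr {a : M} (ha : IsUn a) (hat : ∀ n : ℕ, 0 < n → tr (a ^ n) = 0) (z : ℤ)
    (hz : z ≠ 0) : tr (Asy_A a ha z) = 0 := by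
  rcases Int.eq_nat_or_neg z with ⟨n, rfl | rfl⟩
  · rw [Asy_A_nat]; exact hat n (by omega)
  · rw [Asy_A_neg, ← star_pow, tr_star, hat n (by omega), map_zero]

theorem Asy_orth {a : M} (ha : IsUn a) (hat : ∀ n : ℕ, 0 < n → tr (a ^ n) = 0) :
    Orthonormal ℂ (fun z : ℤ => P2.mk (Asy_A a ha z)) := by
  rw [orthonormal_iff_ite]
  intro i j
  rw [P2.inner_mk, Asy_A_star, ← Asy_A_add]
  split_ifs with h
  · rw [h, neg_add_cancel, Asy_A_zero, tr_one']
  · exact Asy_A_tr ha hat _ (by omega)

theorem Asy_lim {a : M} (ha : IsUn a) (hat : ∀ n : ℕ, 0 < n → tr (a ^ n) = 0) (x : M) (z : ℤ)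
    (hz : z ≠ 0) : Tendsto (fun n : ℕ => tr (x * Asy_A a ha (z * n))) atTop (𝓝 0) := by
  have h1 := (Asy_orth ha hat).inner_products_summable (x := P2.mk (star x))
  have h2 := h1.tendsto_cofinite_zero
  have hinj : Function.Injective (fun n : ℕ => z * (n : ℤ)) := by
    intro m n h
    have h' : z * (m : ℤ) = z * (n : ℤ) := h
    have := mul_left_cancel₀ hz h'
    exact_mod_cast this
  have h3 := h2.comp (hinj.tendsto_cofinite)
  rw [Nat.cofinite_eq_atTop] at h3
  have h4 : Tendsto (fun n : ℕ => ‖tr (x * Asy_A a ha (z * n))‖ ^ 2) atTop (𝓝 0) := by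
    refine h3.congr (fun n => ?_)
    simp only [Function.comp]
    rw [P2.inner_mk, ← norm_star (tr (x * _))]
    congr 2
    have e : star (Asy_A a ha (z * n)) * star x = star (x * Asy_A a ha (z * n)) := by
      rw [StarMul.star_mul]
    rw [e, tr_star]; rfl
  rw [tendsto_zero_iff_norm_tendsto_zero]
  have h5 := (Real.continuous_sqrt.tendsto 0).comp h4
  rw [Real.sqrt_zero] at h5
  refine h5.congr (fun n => ?_)
  simp [Real.sqrt_sq (norm_nonneg _)]

/-- Product of a list of sequences at stage `n`. -/
noncomputable def Asy_p {J : Type*} (w : List (J × (ℕ → M))) (n : ℕ) : M :=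
  (w.map (fun p => p.2 n)).prod

theorem Asy_p_bd {J : Type*} (w : List (J × (ℕ → M))) (hw : ∀ p ∈ w, ∃ C, ∀ n, ‖p.2 n‖ ≤ C) :
    ∃ C, 0 ≤ C ∧ ∀ n, ‖Asy_p w n‖ ≤ C := by
  induction w with
  | nil =>
    refine ⟨‖(1 : M)‖, norm_nonneg _, fun n => ?_⟩
    simp [Asy_p]
  | cons p w ih =>
    obtain ⟨C, hC0, hC⟩ := ih (fun q hq => hw q (List.mem_cons_of_mem _ hq))
    obtain ⟨D, hD⟩ := hw p List.mem_cons_self
    have hD0 : 0 ≤ D := (norm_nonneg _).trans (hD 0)
    refine ⟨D * C, mul_nonneg hD0 hC0, fun n => ?_⟩
    have e : Asy_p (p :: w) n = p.2 n * Asy_p w n := by simp [Asy_p]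
    rw [e]
    refine (norm_mul_le _ _).trans ?_
    exact mul_le_mul (hD n) (hC n) (norm_nonneg _) hD0

theorem Asy_basic {J : Type*} (P : J → StarSubalgebra ℂ M) (hP : FreeFam P)
    (w : List (J × (ℕ → M))) : ∀ v : List (J × (ℕ → M)),
    ((v ++ w).map Prod.fst).IsChain (fun p q => p ≠ q) → v ++ w ≠ [] →
    (∀ p ∈ v, ∀ n, p.2 n ∈ P p.1 ∧ tr (p.2 n) = 0) →
    (∀ p ∈ v, ∃ C, ∀ n, ‖p.2 n‖ ≤ C) →
    (∀ p ∈ w, ∀ n, p.2 n ∈ P p.1) → (∀ p ∈ w, ∃ C, ∀ n, ‖p.2 n‖ ≤ C) →
    (∀ p ∈ w, Tendsto (fun n => tr (p.2 n)) atTop (𝓝 0)) →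
    Tendsto (fun n => tr (Asy_p v n * Asy_p w n)) atTop (𝓝 0) := by
  induction w with
  | nil =>
    intro v hch hne hv _ _ _ _
    rw [List.append_nil] at hch hne
    refine tendsto_const_nhds.congr (fun n => ?_)
    have h1 := hP (v.map (fun p => (p.1, p.2 n))) (by simpa using hne) ⟨by
      rw [List.isChain_map] at hch ⊢
      exact hch, by
      intro p hp
      rw [List.mem_map] at hp
      obtain ⟨q, hq, rfl⟩ := hp
      exact hv q hq n⟩
    have e : wv (v.map (fun p => (p.1, p.2 n))) = Asy_p v n * Asy_p ([] : List (J × (ℕ → M))) n := by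
      simp [wv, Asy_p, Function.comp_def]
    rw [← e, h1]
  | cons p w ih =>
    intro v hch hne hv hvb hw hwb hwt
    obtain ⟨k, x⟩ := p
    have hxb := hwb (k, x) List.mem_cons_self
    obtain ⟨C, hC⟩ := hxb
    have hxt := hwt (k, x) List.mem_cons_self
    have hxm := hw (k, x) List.mem_cons_self
    -- the centred letter
    let y : ℕ → M := fun n => x n - tr (x n) • (1 : M)
    have hy0 : ∀ n, tr (y n) = 0 := by
      intro n
      show tr (x n - tr (x n) • (1 : M)) = 0
      rw [map_sub, map_smul, tr_one', smul_eq_mul, mul_one, sub_self]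
    have h1 := ih (v ++ [(k, y)]) (by simpa using hch) (by simp) (by
        intro q hq n
        rw [List.mem_append, List.mem_singleton] at hq
        rcases hq with hq | rfl
        · exact hv q hq n
        · exact ⟨sub_mem (hxm n) ((P k).smul_mem (one_mem _) _), hy0 n⟩) (by
        intro q hq
        rw [List.mem_append, List.mem_singleton] at hq
        rcases hq with hq | rfl
        · exact hvb q hq
        · refine ⟨C + C * ‖(1 : M)‖, fun n => ?_⟩
          refine (norm_sub_le _ _).trans (add_le_add (hC n) ?_)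
          rw [norm_smul]
          exact mul_le_mul_of_nonneg_right ((norm_tr_le _).trans (hC n)) (norm_nonneg _))
      (fun q hq => hw q (List.mem_cons_of_mem _ hq))
      (fun q hq => hwb q (List.mem_cons_of_mem _ hq))
      (fun q hq => hwt q (List.mem_cons_of_mem _ hq))
    obtain ⟨D, hD0, hD⟩ := Asy_p_bd v hvb
    obtain ⟨D', hD0', hD'⟩ := Asy_p_bd w (fun q hq => hwb q (List.mem_cons_of_mem _ hq))
    have h2 : Tendsto (fun n => tr (x n) * tr (Asy_p v n * Asy_p w n)) atTop (𝓝 0) := by
      rw [tendsto_zero_iff_norm_tendsto_zero]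
      have h3 : Tendsto (fun n => ‖tr (x n)‖ * (D * D')) atTop (𝓝 0) := by
        have := (tendsto_zero_iff_norm_tendsto_zero.1 hxt).mul_const (D * D')
        simpa using this
      refine squeeze_zero (fun n => norm_nonneg _) (fun n => ?_) h3
      rw [norm_mul]
      refine mul_le_mul_of_nonneg_left ?_ (norm_nonneg _)
      refine (norm_tr_le _).trans ((norm_mul_le _ _).trans ?_)
      exact mul_le_mul (hD n) (hD' n) (norm_nonneg _) hD0
    have h3 := h1.add h2
    rw [add_zero] at h3
    refine h3.congr (fun n => ?_)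
    have e1 : Asy_p (v ++ [(k, y)]) n = Asy_p v n * y n := by simp [Asy_p]
    have e2 : Asy_p ((k, x) :: w) n = x n * Asy_p w n := by simp [Asy_p]
    rw [e1, e2]
    have e3 : Asy_p v n * (x n * Asy_p w n) =
        Asy_p v n * y n * Asy_p w n + tr (x n) • (Asy_p v n * Asy_p w n) := by
      show _ = Asy_p v n * (x n - tr (x n) • (1 : M)) * Asy_p w n + _
      rw [mul_sub, sub_mul, mul_assoc, mul_smul_comm, mul_one, smul_mul_assoc]
      abel
    rw [e3, map_add, map_smul, smul_eq_mul]

/-- The head condition. -/
def Asy_HC {J : Type*} (j₁ : J) {a : M} (ha : IsUn a) (c : J → ℕ) :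
    List ((J × M) ⊕ J) → List (J × (ℕ → M)) → Prop
  | [], w => w = []
  | Sum.inl (k, _) :: _, w => ∃ x w', w = (k, x) :: w' ∧ (k = j₁ → ∀ z : ℤ, 0 < z →
      Tendsto (fun n : ℕ => tr (Asy_A a ha (-(z * n)) * x n)) atTop (𝓝 0))
  | Sum.inr j :: _, w => ∃ w', w = (j₁, fun n : ℕ => Asy_A a ha (c j * n)) :: w'

/-- A good representation of a word. -/
structure Asy_Rep {J : Type*} (P : J → StarSubalgebra ℂ M) (j₁ : J) {a : M} (ha : IsUn a) (s₀ : M)
    (c : J → ℕ) (l : List ((J × M) ⊕ J)) (w : List (J × (ℕ → M))) : Prop where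
  ch : (w.map Prod.fst).IsChain (fun p q => p ≠ q)
  mem : ∀ p ∈ w, ∀ n, p.2 n ∈ P p.1
  bd : ∀ p ∈ w, ∃ C, ∀ n, ‖p.2 n‖ ≤ C
  trl : ∀ p ∈ w, Tendsto (fun n => tr (p.2 n)) atTop (𝓝 0)
  val : ∀ n, (l.map (letter a s₀ c n)).prod = Asy_p w n
  hc : Asy_HC j₁ ha c l w

/-- Chain of indices in front of which an index may be put. -/
theorem Asy_ch_cons {J : Type*} {k : J} {x : ℕ → M} {w : List (J × (ℕ → M))}
    (h : (w.map Prod.fst).IsChain (fun p q => p ≠ q)) (hk : ∀ q w', w = q :: w' → k ≠ q.1) :
    (((k, x) :: w).map Prod.fst).IsChain (fun p q => p ≠ q) := by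
  cases w with
  | nil => simp
  | cons q w =>
    rw [List.map_cons, List.map_cons, List.isChain_cons_cons]
    exact ⟨hk q w rfl, by simpa using h⟩

theorem Asy_exists_rep {J : Type*} (P : J → StarSubalgebra ℂ M) {j₁ j₂ : J}
    (hj : j₁ ≠ j₂) {a s₀ : M} (ha : a ∈ P j₁) (hau : IsUn a) (hat : ∀ n : ℕ, 0 < n → tr (a ^ n) = 0)
    (hs : s₀ ∈ P j₂) (hs3 : tr s₀ = 0) (c : J → ℕ)
    (hc : Function.Injective c) (hc0 : ∀ j, 0 < c j) (l : List ((J × M) ⊕ J))
    (hch : l.IsChain (fun p q => letterIdx p ≠ letterIdx q))
    (hmem : ∀ k p, Sum.inl (k, p) ∈ l → p ∈ P k ∧ tr p = 0) :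
    ∃ w, Asy_Rep P j₁ hau s₀ c l w := by
  have hAn : ∀ z : ℤ, ‖Asy_A a hau z‖ ≤ 1 := fun z => (Asy_A_un hau z).norm_le_one
  have hAt : ∀ z : ℤ, z ≠ 0 → Tendsto (fun n : ℕ => tr (Asy_A a hau (z * n))) atTop (𝓝 0) := by
    intro z hz
    have := Asy_lim hau hat 1 z hz
    simpa using this
  induction l with
  | nil =>
    refine ⟨[], ⟨by simp, by simp, by simp, by simp, fun n => by simp [Asy_p], rfl⟩⟩
  | cons b l ih =>
    obtain ⟨w, hw⟩ := ih hch.tail (fun k p h => hmem k p (List.mem_cons_of_mem _ h))
    rcases b with ⟨k, p⟩ | j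
    · obtain ⟨hpk, hp0⟩ := hmem k p List.mem_cons_self
      by_cases hk : k = j₁
      · subst hk
        -- merge with a symmetry or prepend
        by_cases hinr : ∃ j l', l = Sum.inr j :: l'
        · obtain ⟨j, l', rfl⟩ := hinr
          obtain ⟨w', rfl⟩ := hw.hc
          refine ⟨(k, fun n => p * Asy_A a hau (c j * n)) :: w', ⟨?_, ?_, ?_, ?_, ?_, ?_⟩⟩
          · simpa using hw.ch
          · intro q hq n
            rw [List.mem_cons] at hq
            rcases hq with rfl | hq
            · exact mul_mem hpk (Asy_A_mem hau ha _)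
            · exact hw.mem q (List.mem_cons_of_mem _ hq) n
          · intro q hq
            rw [List.mem_cons] at hq
            rcases hq with rfl | hq
            · refine ⟨‖p‖ * 1, fun n => (norm_mul_le _ _).trans ?_⟩
              exact mul_le_mul_of_nonneg_left (hAn _) (norm_nonneg _)
            · exact hw.bd q (List.mem_cons_of_mem _ hq)
          · intro q hq
            rw [List.mem_cons] at hq
            rcases hq with rfl | hq
            · exact Asy_lim hau hat p (c j) (by have := hc0 j; omega)
            · exact hw.trl q (List.mem_cons_of_mem _ hq)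
          · intro n
            have h1 := hw.val n
            rw [List.map_cons, List.prod_cons, h1]
            simp [Asy_p, letter, mul_assoc]
          · refine ⟨_, _, rfl, fun _ z hz => ?_⟩
            have e : ∀ n : ℕ, tr (Asy_A a hau (-(z * n)) * (p * Asy_A a hau (c j * n))) =
                tr (p * Asy_A a hau ((c j - z) * n)) := by
              intro n
              rw [tr_mul_comm, mul_assoc, ← Asy_A_add]
              congr 3
              ring
            refine Tendsto.congr (fun n => (e n).symm) ?_
            by_cases hcz : (c j : ℤ) - z = 0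
            · rw [hcz]
              refine tendsto_const_nhds.congr (fun n => ?_)
              rw [zero_mul, Asy_A_zero, mul_one, hp0]
            · exact Asy_lim hau hat p _ hcz
        · -- prepend
          have hfst : ∀ q w', w = q :: w' → k ≠ q.1 := by
            intro q w' hqw
            cases l with
            | nil => have := hw.hc; rw [hqw] at this; cases this
            | cons b' l' =>
              rcases b' with ⟨k', p'⟩ | j'
              · obtain ⟨x, w'', hw'', -⟩ := hw.hc
                rw [List.isChain_cons_cons] at hch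
                have h1 : k ≠ k' := fun h => hch.1 (by simp [letterIdx, h])
                rw [hqw] at hw''
                have : q = (k', x) := by injection hw''
                rw [this]; exact h1
              · exact absurd ⟨j', l', rfl⟩ hinr
          refine ⟨(k, fun _ => p) :: w, ⟨Asy_ch_cons hw.ch hfst, ?_, ?_, ?_, ?_, ?_⟩⟩
          · intro q hq n
            rw [List.mem_cons] at hq
            rcases hq with rfl | hq
            · exact hpk
            · exact hw.mem q hq n
          · intro q hq
            rw [List.mem_cons] at hq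
            rcases hq with rfl | hq
            · exact ⟨‖p‖, fun n => le_rfl⟩
            · exact hw.bd q hq
          · intro q hq
            rw [List.mem_cons] at hq
            rcases hq with rfl | hq
            · refine tendsto_const_nhds.congr (fun n => ?_)
              exact hp0.symm
            · exact hw.trl q hq
          · intro n
            rw [List.map_cons, List.prod_cons, hw.val n]
            simp [Asy_p, letter]
          · refine ⟨_, _, rfl, fun _ z hz => ?_⟩
            have e : ∀ n : ℕ, tr (Asy_A a hau (-(z * n)) * p) =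
                tr (p * Asy_A a hau ((-z) * n)) := by
              intro n
              rw [tr_mul_comm]
              congr 3
              ring
            refine Tendsto.congr (fun n => (e n).symm) ?_
            exact Asy_lim hau hat p _ (by omega)
      · -- prepend
        have hfst : ∀ q w', w = q :: w' → k ≠ q.1 := by
          intro q w' hqw
          cases l with
          | nil => have := hw.hc; rw [hqw] at this; cases this
          | cons b' l' =>
            rcases b' with ⟨k', p'⟩ | j'
            · obtain ⟨x, w'', hw'', -⟩ := hw.hc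
              rw [List.isChain_cons_cons] at hch
              have h1 : k ≠ k' := fun h => hch.1 (by simp [letterIdx, h])
              rw [hqw] at hw''
              have : q = (k', x) := by injection hw''
              rw [this]; exact h1
            · obtain ⟨w'', hw''⟩ := hw.hc
              rw [hqw] at hw''
              have : q = (j₁, fun n : ℕ => Asy_A a hau (c j' * n)) := by injection hw''
              rw [this]; exact hk
        refine ⟨(k, fun _ => p) :: w, ⟨Asy_ch_cons hw.ch hfst, ?_, ?_, ?_, ?_, ?_⟩⟩
        · intro q hq n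
          rw [List.mem_cons] at hq
          rcases hq with rfl | hq
          · exact hpk
          · exact hw.mem q hq n
        · intro q hq
          rw [List.mem_cons] at hq
          rcases hq with rfl | hq
          · exact ⟨‖p‖, fun n => le_rfl⟩
          · exact hw.bd q hq
        · intro q hq
          rw [List.mem_cons] at hq
          rcases hq with rfl | hq
          · refine tendsto_const_nhds.congr (fun n => ?_)
            exact hp0.symm
          · exact hw.trl q hq
        · intro n
          rw [List.map_cons, List.prod_cons, hw.val n]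
          simp [Asy_p, letter]
        · exact ⟨_, _, rfl, fun h => absurd h hk⟩
    · have hcj : (c j : ℤ) ≠ 0 := by have := hc0 j; omega
      have hlet : ∀ n, letter a s₀ c n (Sum.inr j : (J × M) ⊕ J) =
          Asy_A a hau (c j * n) * s₀ * Asy_A a hau (-(c j * n)) := by
        intro n
        have e1 : ((c j : ℤ) * n) = ((c j * n : ℕ) : ℤ) := by push_cast; rfl
        rw [e1, Asy_A_nat, Asy_A_neg]
        rfl
      by_cases hmerge : ∃ x w', w = (j₁, x) :: w'
      · obtain ⟨x, w', rfl⟩ := hmerge
        -- merged letter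
        have hx : Tendsto (fun n : ℕ => tr (Asy_A a hau (-(c j * n)) * x n)) atTop (𝓝 0) := by
          cases l with
          | nil => have := hw.hc; cases this
          | cons b' l' =>
            rcases b' with ⟨k', p'⟩ | j'
            · obtain ⟨x', w'', hw'', hh⟩ := hw.hc
              have h0 : (j₁, x) = (k', x') := by injection hw''
              have h1 : j₁ = k' := congrArg Prod.fst h0
              have h2 : x = x' := congrArg Prod.snd h0
              rw [h2]
              exact hh h1.symm (c j) (by have := hc0 j; omega)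
            · obtain ⟨w'', hw''⟩ := hw.hc
              have h0 : (j₁, x) = (j₁, fun n : ℕ => Asy_A a hau (c j' * n)) := by injection hw''
              have h2 : x = fun n : ℕ => Asy_A a hau (c j' * n) := congrArg Prod.snd h0
              rw [List.isChain_cons_cons] at hch
              have h1 : j ≠ j' := fun h => hch.1 (by simp [letterIdx, h])
              have h3 : c j' ≠ c j := fun h => h1 (hc h).symm
              rw [h2]
              have e : ∀ n : ℕ, tr (Asy_A a hau (-(c j * n)) * Asy_A a hau (c j' * n)) =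
                  tr (Asy_A a hau (((c j' : ℤ) - c j) * n)) := by
                intro n
                rw [← Asy_A_add]
                congr 2
                ring
              refine Tendsto.congr (fun n => (e n).symm) ?_
              exact hAt _ (by omega)
        refine ⟨(j₁, fun n => Asy_A a hau (c j * n)) :: (j₂, fun _ => s₀) ::
          (j₁, fun n => Asy_A a hau (-(c j * n)) * x n) :: w', ⟨?_, ?_, ?_, ?_, ?_, ⟨_, rfl⟩⟩⟩
        · have h1 := hw.ch
          simp only [List.map_cons, List.isChain_cons_cons] at h1 ⊢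
          exact ⟨hj, hj.symm, h1⟩
        · intro q hq n
          simp only [List.mem_cons] at hq
          rcases hq with rfl | rfl | rfl | hq
          · exact Asy_A_mem hau ha _
          · exact hs
          · exact mul_mem (Asy_A_mem hau ha _) (hw.mem (j₁, x) List.mem_cons_self n)
          · exact hw.mem q (List.mem_cons_of_mem _ hq) n
        · intro q hq
          simp only [List.mem_cons] at hq
          rcases hq with rfl | rfl | rfl | hq
          · exact ⟨1, fun n => hAn _⟩
          · exact ⟨‖s₀‖, fun n => le_rfl⟩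
          · obtain ⟨C, hC⟩ := hw.bd (j₁, x) List.mem_cons_self
            refine ⟨1 * C, fun n => (norm_mul_le _ _).trans ?_⟩
            exact mul_le_mul (hAn _) (hC n) (norm_nonneg _) zero_le_one
          · exact hw.bd q (List.mem_cons_of_mem _ hq)
        · intro q hq
          simp only [List.mem_cons] at hq
          rcases hq with rfl | rfl | rfl | hq
          · exact hAt _ hcj
          · refine tendsto_const_nhds.congr (fun n => ?_)
            exact hs3.symm
          · exact hx
          · exact hw.trl q (List.mem_cons_of_mem _ hq)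
        · intro n
          rw [List.map_cons, List.prod_cons, hw.val n, hlet n]
          simp [Asy_p, mul_assoc]
      · have hfst : ∀ q w', w = q :: w' → j₁ ≠ q.1 := by
          intro q w' hqw h
          exact hmerge ⟨q.2, w', by rw [hqw, h]⟩
        refine ⟨(j₁, fun n => Asy_A a hau (c j * n)) :: (j₂, fun _ => s₀) ::
          (j₁, fun n => Asy_A a hau (-(c j * n))) :: w, ⟨?_, ?_, ?_, ?_, ?_, ⟨_, rfl⟩⟩⟩
        · have h1 := Asy_ch_cons (x := fun n : ℕ => Asy_A a hau (-(c j * n))) hw.ch hfst
          simp only [List.map_cons, List.isChain_cons_cons] at h1 ⊢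
          exact ⟨hj, hj.symm, h1⟩
        · intro q hq n
          simp only [List.mem_cons] at hq
          rcases hq with rfl | rfl | rfl | hq
          · exact Asy_A_mem hau ha _
          · exact hs
          · exact Asy_A_mem hau ha _
          · exact hw.mem q hq n
        · intro q hq
          simp only [List.mem_cons] at hq
          rcases hq with rfl | rfl | rfl | hq
          · exact ⟨1, fun n => hAn _⟩
          · exact ⟨‖s₀‖, fun n => le_rfl⟩
          · exact ⟨1, fun n => hAn _⟩
          · exact hw.bd q hq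
        · intro q hq
          simp only [List.mem_cons] at hq
          rcases hq with rfl | rfl | rfl | hq
          · exact hAt _ hcj
          · refine tendsto_const_nhds.congr (fun n => ?_)
            exact hs3.symm
          · have := hAt (-(c j : ℤ)) (by omega)
            refine this.congr (fun n => ?_)
            show tr (Asy_A a hau (-(c j : ℤ) * n)) = tr (Asy_A a hau (-(c j * n)))
            rw [neg_mul]
          · exact hw.trl q hq
        · intro n
          rw [List.map_cons, List.prod_cons, hw.val n, hlet n]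
          simp [Asy_p, mul_assoc]

theorem asy_free {J : Type*} (P : J → StarSubalgebra ℂ M) (hP : FreeFam P) {j₁ j₂ : J}
    (hj : j₁ ≠ j₂) {a s₀ : M} (ha : a ∈ P j₁) (hau : IsUn a) (hat : ∀ n : ℕ, 0 < n → tr (a ^ n) = 0)
    (hs : s₀ ∈ P j₂) (hs1 : star s₀ = s₀) (hs2 : s₀ * s₀ = 1) (hs3 : tr s₀ = 0) (c : J → ℕ)
    (hc : Function.Injective c) (hc0 : ∀ j, 0 < c j) (l : List ((J × M) ⊕ J)) (hl : l ≠ [])
    (hch : l.IsChain (fun p q => letterIdx p ≠ letterIdx q))
    (hmem : ∀ k p, Sum.inl (k, p) ∈ l → p ∈ P k ∧ tr p = 0) :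
    Tendsto (fun n => tr ((l.map (letter a s₀ c n)).prod)) atTop (𝓝 0) := by
  obtain ⟨w, hw⟩ := Asy_exists_rep P hj ha hau hat hs hs3 c hc hc0 l hch hmem
  have hne : w ≠ [] := by
    rintro rfl
    cases l with
    | nil => exact hl rfl
    | cons b l' =>
      rcases b with ⟨k', p'⟩ | j'
      · obtain ⟨x, w', h, -⟩ := hw.hc
        cases h
      · obtain ⟨w', h⟩ := hw.hc
        cases h
  have h1 := Asy_basic P hP w [] (by simpa using hw.ch) (by simpa using hne) (by simp) (by simp)
    hw.mem hw.bd hw.trl
  refine h1.congr (fun n => ?_)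
  rw [hw.val n]
  simp [Asy_p]

end Pool.Agent.KUR
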