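import Pool.Agent.KUR.Basic2

/-!
# KUR Avg: the element of minimal 2-norm in a convex hull

PROOF.  Let `C` be the convex hull of `{p.1 * x₀ * star p.2 | p ∈ G}` (a convex set of real scalars;
all its elements have norm ≤ ‖x₀‖ since `‖u‖ ≤ 1` for unitaries, `IsUn.norm_le_one`).  Take a sequence
`y n ∈ C` with `n2 (y n) → d := inf {n2 y | y ∈ C}`.  Parallelogram law (in `P2 M`) and
`(y m + y n)/2 ∈ C` show that it is 2-norm Cauchy, so it converges to some `w` with `‖w‖ ≤ ‖x₀‖`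
(`complete_ball`), `n2 w = d`.  Any other 2-norm limit `w'` of elements of `C` with
`n2 w' ≤ d` equals `w` (parallelogram law again).  For `p ∈ G` the map `y ↦ p.1 * y * star p.2` is a
2-norm isometry (`IsUn.n2_mul`, `IsUn.n2_mul'`) mapping `C` into `C` (it maps the generators to
generators by `hm`, and it is linear), so `p.1 * w * star p.2` is again a 2-norm limit of elements of
`C` of 2-norm `d`, hence equal to `w`.
`h1` is only used to see that the hull is not empty.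
-/

open Filter Topology

namespace Pool.Agent.KUR

universe u
variable {M : Type u} [CStarAlgebra M] [TVN M]

/-- Parallelogram law for the 2-norm. -/
private theorem par_law (y z : M) :
    n2 (y - z) ^ 2 = 2 * n2 y ^ 2 + 2 * n2 z ^ 2 - n2 (y + z) ^ 2 := by
  have h := parallelogram_law_with_norm ℂ (P2.mk y) (P2.mk z)
  rw [← map_add, ← map_sub, P2.norm_mk, P2.norm_mk, P2.norm_mk, P2.norm_mk] at h
  nlinarith [h]

/-- Elements of a convex set which nearly minimise the 2-norm are close. -/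
private theorem near_min (C : Set M) (hC : Convex ℝ C) (d : ℝ) (hd0 : 0 ≤ d)
    (hd : ∀ y ∈ C, d ≤ n2 y) (ε : ℝ) (hε : 0 < ε) :
    ∃ δ : ℝ, 0 < δ ∧ ∀ y ∈ C, ∀ z ∈ C, n2 y < d + δ → n2 z < d + δ → n2 (y - z) < ε := by
  have hpos : 0 < 8 * (2 * d + 1) := by positivity
  refine ⟨min 1 (ε ^ 2 / (8 * (2 * d + 1))), lt_min one_pos (by positivity), ?_⟩
  intro y hy z hz hyd hzd
  set δ := min 1 (ε ^ 2 / (8 * (2 * d + 1))) with hδ
  have hδ0 : 0 < δ := lt_min one_pos (by positivity)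
  have hδ1 : δ ≤ 1 := min_le_left _ _
  have hδ2 : δ * (8 * (2 * d + 1)) ≤ ε ^ 2 := by
    have : δ ≤ ε ^ 2 / (8 * (2 * d + 1)) := min_le_right _ _
    rwa [le_div_iff₀ hpos] at this
  have hmid : (2⁻¹ : ℝ) • y + (2⁻¹ : ℝ) • z ∈ C :=
    hC hy hz (by norm_num) (by norm_num) (by norm_num)
  have hmid' : n2 ((2⁻¹ : ℝ) • y + (2⁻¹ : ℝ) • z) = 2⁻¹ * n2 (y + z) := by
    have e : (2⁻¹ : ℝ) • y + (2⁻¹ : ℝ) • z = ((2⁻¹ : ℝ) : ℂ) • (y + z) := by
      rw [smul_add, Complex.coe_smul, Complex.coe_smul]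
    rw [e, n2_smul, Complex.norm_real, Real.norm_eq_abs, abs_of_pos (by norm_num)]
  have h1 : 2 * d ≤ n2 (y + z) := by
    have := hd _ hmid
    rw [hmid'] at this
    linarith
  have h2 := par_law y z
  have h3 : (2 * d) ^ 2 ≤ n2 (y + z) ^ 2 := pow_le_pow_left₀ (by linarith) h1 2
  have h4 : n2 y ^ 2 ≤ (d + δ) ^ 2 := pow_le_pow_left₀ (n2_nonneg _) hyd.le 2
  have h5 : n2 z ^ 2 ≤ (d + δ) ^ 2 := pow_le_pow_left₀ (n2_nonneg _) hzd.le 2
  have h6 : n2 (y - z) ^ 2 < ε ^ 2 := by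
    have h7 : 4 * (d + δ) ^ 2 - 4 * d ^ 2 < ε ^ 2 := by
      have h8 : 4 * (d + δ) ^ 2 - 4 * d ^ 2 = 4 * δ * (2 * d + δ) := by ring
      rw [h8]
      have h9 : 4 * δ * (2 * d + δ) ≤ 4 * δ * (2 * d + 1) := by gcongr
      nlinarith [mul_pos hδ0 (show (0 : ℝ) < 2 * d + 1 by positivity)]
    nlinarith
  exact lt_of_pow_lt_pow_left₀ 2 hε.le h6

theorem avg (G : Set (M × M)) (h1 : ((1 : M), (1 : M)) ∈ G)
    (hu : ∀ p ∈ G, IsUn p.1 ∧ IsUn p.2)
    (hm : ∀ p ∈ G, ∀ q ∈ G, (p.1 * q.1, p.2 * q.2) ∈ G) (x₀ : M) :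
    ∃ w : M, ‖w‖ ≤ ‖x₀‖ ∧ (∀ p ∈ G, p.1 * w * star p.2 = w) ∧
      ∀ ε : ℝ, 0 < ε → ∃ y ∈ convexHull ℝ {z : M | ∃ p ∈ G, z = p.1 * x₀ * star p.2},
        n2 (w - y) < ε := by
  set S : Set M := {z : M | ∃ p ∈ G, z = p.1 * x₀ * star p.2} with hS
  set C : Set M := convexHull ℝ S with hCdef
  have hCc : Convex ℝ C := convex_convexHull ℝ S
  have hball : ∀ y ∈ C, ‖y‖ ≤ ‖x₀‖ := by
    have hsub : C ⊆ Metric.closedBall (0 : M) ‖x₀‖ := by
      refine convexHull_min ?_ (convex_closedBall _ _)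
      rintro z ⟨p, hp, rfl⟩
      rw [mem_closedBall_zero_iff]
      have ha := (hu p hp).1.norm_le_one
      have hb := (hu p hp).2.star.norm_le_one
      calc ‖p.1 * x₀ * star p.2‖ ≤ ‖p.1 * x₀‖ * ‖star p.2‖ := norm_mul_le _ _
        _ ≤ (‖p.1‖ * ‖x₀‖) * ‖star p.2‖ := by gcongr; exact norm_mul_le _ _
        _ ≤ (1 * ‖x₀‖) * 1 := by gcongr
        _ = ‖x₀‖ := by ring
    intro y hy
    simpa using hsub hy
  have hx₀ : x₀ ∈ C := subset_convexHull ℝ S ⟨_, h1, by simp⟩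
  set d : ℝ := sInf (n2 '' C) with hd
  have hbdd : BddBelow (n2 '' C) := ⟨0, by rintro _ ⟨y, _, rfl⟩; exact n2_nonneg y⟩
  have hne : (n2 '' C).Nonempty := ⟨_, x₀, hx₀, rfl⟩
  have hd0 : 0 ≤ d := le_csInf hne (by rintro _ ⟨y, _, rfl⟩; exact n2_nonneg y)
  have hdle : ∀ y ∈ C, d ≤ n2 y := fun y hy => csInf_le hbdd ⟨y, hy, rfl⟩
  have hex : ∀ n : ℕ, ∃ y ∈ C, n2 y < d + 1 / ((n : ℝ) + 1) := by
    intro n
    have hlt : d < d + 1 / ((n : ℝ) + 1) := by
      have : (0 : ℝ) < 1 / ((n : ℝ) + 1) := by positivity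
      linarith
    obtain ⟨_, ⟨y, hy, rfl⟩, hy'⟩ := exists_lt_of_csInf_lt hne hlt
    exact ⟨y, hy, hy'⟩
  choose y hyC hyd using hex
  have hsmall : ∀ δ : ℝ, 0 < δ → ∃ n₀ : ℕ, ∀ n : ℕ, n₀ ≤ n → n2 (y n) < d + δ := by
    intro δ hδ
    obtain ⟨n₀, h₀⟩ := exists_nat_one_div_lt hδ
    refine ⟨n₀, fun n hn => (hyd n).trans ?_⟩
    have : 1 / ((n : ℝ) + 1) ≤ 1 / ((n₀ : ℝ) + 1) := by
      apply one_div_le_one_div_of_le (by positivity)
      have : (n₀ : ℝ) ≤ n := by exact_mod_cast hn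
      linarith
    linarith
  obtain ⟨w, hwn, hw⟩ := complete_ball y ‖x₀‖ (fun n => hball _ (hyC n)) (by
    intro ε hε
    obtain ⟨δ, hδ, hδ'⟩ := near_min C hCc d hd0 hdle ε hε
    obtain ⟨n₀, h₀⟩ := hsmall δ hδ
    exact ⟨n₀, fun m n hm' hn' => hδ' _ (hyC m) _ (hyC n) (h₀ m hm') (h₀ n hn')⟩)
  refine ⟨w, hwn, ?_, ?_⟩
  · intro p hp
    have hpu := hu p hp
    -- the map preserves the hull
    have hmap : ∀ a ∈ C, p.1 * a * star p.2 ∈ C := by
      let L : M →ₗ[ℝ] M := (LinearMap.mulRight ℝ (star p.2)).comp (LinearMap.mulLeft ℝ p.1)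
      have hL : ∀ a, L a = p.1 * a * star p.2 := fun a => rfl
      have himg : L '' C ⊆ C := by
        rw [hCdef, LinearMap.image_convexHull]
        refine convexHull_min ?_ (convex_convexHull ℝ S)
        rintro _ ⟨_, ⟨q, hq, rfl⟩, rfl⟩
        refine subset_convexHull ℝ S ⟨_, hm p hp q hq, ?_⟩
        rw [hL, star_mul]
        simp only [mul_assoc]
      intro a ha
      exact himg ⟨a, ha, hL a⟩
    have hn2 : ∀ a, n2 (p.1 * a * star p.2) = n2 a := fun a => by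
      rw [hpu.2.star.n2_mul', hpu.1.n2_mul]
    have hlim1 : Tendsto (fun n => n2 (p.1 * y n * star p.2 - p.1 * w * star p.2)) atTop (𝓝 0) :=
      n2_lim_mul_right (star p.2) (n2_lim_mul_left p.1 hw)
    have hlim2 : Tendsto (fun n => n2 (y n - p.1 * y n * star p.2)) atTop (𝓝 0) := by
      rw [Metric.tendsto_atTop]
      intro ε hε
      obtain ⟨δ, hδ, hδ'⟩ := near_min C hCc d hd0 hdle ε hε
      obtain ⟨n₀, h₀⟩ := hsmall δ hδ
      refine ⟨n₀, fun n hn => ?_⟩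
      rw [Real.dist_eq, sub_zero, abs_of_nonneg (n2_nonneg _)]
      exact hδ' _ (hyC n) _ (hmap _ (hyC n)) (h₀ n hn) (by rw [hn2]; exact h₀ n hn)
    have hlim3 : Tendsto (fun n => n2 (y n - p.1 * w * star p.2)) atTop (𝓝 0) := by
      refine squeeze_zero (fun n => n2_nonneg _) (fun n => ?_) (by simpa using hlim2.add hlim1)
      exact n2_sub_le_sub _ _ _
    exact eq_of_n2_lim hlim3 hw
  · intro ε hε
    obtain ⟨n₀, h₀⟩ := (Metric.tendsto_atTop.mp hw) ε hε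
    have := h₀ n₀ le_rfl
    rw [Real.dist_eq, sub_zero, abs_of_nonneg (n2_nonneg _)] at this
    exact ⟨y n₀, hyC n₀, by rwa [n2_sub_comm]⟩

/-- Nonzero intertwiners from a lower bound on the trace. -/
theorem avg_intertwiner (G : Set (M × M)) (h1 : ((1 : M), (1 : M)) ∈ G)
    (hu : ∀ p ∈ G, IsUn p.1 ∧ IsUn p.2)
    (hm : ∀ p ∈ G, ∀ q ∈ G, (p.1 * q.1, p.2 * q.2) ∈ G) (δ : ℝ) (hδ : 0 < δ)
    (htr : ∀ p ∈ G, δ ≤ (tr (p.1 * star p.2)).re) :
    ∃ w : M, w ≠ 0 ∧ ∀ p ∈ G, p.1 * w = w * p.2 := by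
  obtain ⟨w, _, hw, happ⟩ := avg G h1 hu hm 1
  refine ⟨w, ?_, ?_⟩
  · rintro rfl
    obtain ⟨y, hy, hyn⟩ := happ δ hδ
    rw [zero_sub, n2_neg] at hyn
    have hlow : δ ≤ (tr y).re := by
      let L : M →ₗ[ℝ] ℝ :=
        { toFun := fun a => (tr a).re
          map_add' := fun a b => by rw [map_add, Complex.add_re]
          map_smul' := fun c a => by
            rw [← Complex.coe_smul, map_smul, smul_eq_mul, Complex.re_ofReal_mul]
            rfl }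
      have hconv : Convex ℝ {a : M | δ ≤ L a} := convex_halfSpace_ge L.isLinear δ
      refine convexHull_min ?_ hconv hy
      rintro _ ⟨p, hp, rfl⟩
      show δ ≤ (tr (p.1 * 1 * star p.2)).re
      rw [mul_one]
      exact htr p hp
    have h2 : (tr y).re ≤ n2 y := (Complex.re_le_norm _).trans (norm_tr_le_n2 y)
    linarith
  · intro p hp
    have h2 := hw p hp
    calc p.1 * w = p.1 * w * (star p.2 * p.2) := by rw [(hu p hp).2.1, mul_one]
      _ = (p.1 * w * star p.2) * p.2 := by simp only [mul_assoc]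
      _ = w * p.2 := by rw [h2]

end Pool.Agent.KUR
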