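import Pool.Agent.KUR.Defs

/-!
# KUR: basic facts on the trace and the 2-norm
-/

open Filter Topology ComplexConjugate
open scoped InnerProductSpace

namespace Pool.Agent.KUR

universe u
variable {M : Type u} [CStarAlgebra M] [TVN M]

theorem tr_one' : tr (1 : M) = 1 := TVN.tr_one

theorem tr_mul_comm (x y : M) : tr (x * y) = tr (y * x) := TVN.tr_comm x y

theorem tr_star (x : M) : tr (star x) = conj (tr x) := by
  have h1 := TVN.tr_im_zero (1 + x)
  have h2 := TVN.tr_im_zero (1 + Complex.I • x)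
  have h3 := TVN.tr_im_zero x
  have e1 : star (1 + x) * (1 + x) = 1 + x + star x + star x * x := by
    simp [add_mul, mul_add]; abel
  have e2 : star (1 + Complex.I • x) * (1 + Complex.I • x)
      = 1 + Complex.I • x - Complex.I • star x + star x * x := by
    simp [add_mul, mul_add, star_smul, smul_smul]; abel
  rw [e1] at h1
  rw [e2] at h2
  simp only [map_add, map_sub, map_smul, TVN.tr_one, Complex.add_im, Complex.sub_im,
    smul_eq_mul, Complex.mul_im, Complex.I_re, Complex.I_im, Complex.one_im] at h1 h2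
  apply Complex.ext
  · simp only [Complex.conj_re]; linarith
  · simp only [Complex.conj_im]; linarith

theorem tr_star_mul_self (x : M) : tr (star x * x) = ((n2 x ^ 2 : ℝ) : ℂ) := by
  apply Complex.ext
  · rw [n2, Real.sq_sqrt (TVN.tr_re_nonneg x), Complex.ofReal_re]
  · rw [TVN.tr_im_zero, Complex.ofReal_im]

theorem n2_sq (x : M) : n2 x ^ 2 = (tr (star x * x)).re := by
  rw [n2, Real.sq_sqrt (TVN.tr_re_nonneg x)]

theorem n2_nonneg (x : M) : 0 ≤ n2 x := Real.sqrt_nonneg _

variable (M) in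
/-- Type synonym carrying the 2-norm. -/
def P2 : Type u := M

namespace P2

noncomputable instance : AddCommGroup (P2 M) := inferInstanceAs (AddCommGroup M)
noncomputable instance : Module ℂ (P2 M) := inferInstanceAs (Module ℂ M)

/-- The identity map into the synonym. -/
noncomputable def mk : M ≃ₗ[ℂ] P2 M := LinearEquiv.refl ℂ M

/-- The inner product structure. -/
noncomputable abbrev core : InnerProductSpace.Core ℂ (P2 M) where
  inner a b := tr (star (mk.symm a) * mk.symm b)
  conj_inner_symm a b := by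
    show conj (tr (star (mk.symm b) * mk.symm a)) = tr (star (mk.symm a) * mk.symm b)
    rw [← tr_star]; simp
  re_inner_nonneg a := TVN.tr_re_nonneg _
  add_left a b c := by
    show tr (star (mk.symm (a + b)) * mk.symm c) = _
    simp [add_mul]
  smul_left a b c := by
    show tr (star (mk.symm (c • a)) * mk.symm b) = _
    simp [star_smul]
  definite a h := by
    have : mk.symm a = 0 := TVN.faithful _ h
    simpa using this

noncomputable instance : NormedAddCommGroup (P2 M) :=
  @InnerProductSpace.Core.toNormedAddCommGroup ℂ (P2 M) _ _ _ (core (M := M))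
noncomputable instance : InnerProductSpace ℂ (P2 M) :=
  @InnerProductSpace.ofCore ℂ (P2 M) _ _ _ (core (M := M)).toCore

theorem inner_mk (a b : M) : ⟪mk a, mk b⟫_ℂ = tr (star a * b) := rfl

theorem norm_mk (a : M) : ‖mk a‖ = n2 a := rfl

end P2

theorem n2_zero : n2 (0 : M) = 0 := by
  rw [← P2.norm_mk, map_zero, norm_zero]

theorem n2_neg (x : M) : n2 (-x) = n2 x := by
  rw [← P2.norm_mk, ← P2.norm_mk, map_neg, norm_neg]

theorem n2_smul (c : ℂ) (x : M) : n2 (c • x) = ‖c‖ * n2 x := by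
  rw [← P2.norm_mk, ← P2.norm_mk, map_smul, norm_smul]

theorem n2_add_le (x y : M) : n2 (x + y) ≤ n2 x + n2 y := by
  rw [← P2.norm_mk, ← P2.norm_mk, ← P2.norm_mk, map_add]; exact norm_add_le _ _

theorem n2_sub_le (x y : M) : n2 (x - y) ≤ n2 x + n2 y := by
  rw [← P2.norm_mk, ← P2.norm_mk, ← P2.norm_mk, map_sub]; exact norm_sub_le _ _

theorem n2_sub_comm (x y : M) : n2 (x - y) = n2 (y - x) := by
  rw [← P2.norm_mk, ← P2.norm_mk, map_sub, map_sub]; exact norm_sub_rev _ _

theorem n2_sub_le_sub (x y z : M) : n2 (x - z) ≤ n2 (x - y) + n2 (y - z) := by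
  rw [← P2.norm_mk, ← P2.norm_mk, ← P2.norm_mk, map_sub, map_sub, map_sub]
  exact norm_sub_le_norm_sub_add_norm_sub _ _ _

theorem abs_n2_sub_le (x y : M) : |n2 x - n2 y| ≤ n2 (x - y) := by
  rw [← P2.norm_mk, ← P2.norm_mk, ← P2.norm_mk, map_sub]
  exact abs_norm_sub_norm_le _ _

theorem n2_eq_zero {x : M} : n2 x = 0 ↔ x = 0 := by
  rw [← P2.norm_mk, norm_eq_zero]
  exact P2.mk.map_eq_zero_iff

theorem n2_star (x : M) : n2 (star x) = n2 x := by
  rw [n2, n2, star_star, tr_mul_comm]

theorem n2_one : n2 (1 : M) = 1 := by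
  rw [n2]; simp [TVN.tr_one]

theorem norm_tr_mul_le (x y : M) : ‖tr (star x * y)‖ ≤ n2 x * n2 y := by
  have := norm_inner_le_norm (𝕜 := ℂ) (P2.mk x) (P2.mk y)
  rwa [P2.inner_mk, P2.norm_mk, P2.norm_mk] at this

theorem norm_tr_mul_le' (x y : M) : ‖tr (x * y)‖ ≤ n2 x * n2 y := by
  have := norm_tr_mul_le (star x) y
  rwa [star_star, n2_star] at this

theorem norm_tr_le_n2 (x : M) : ‖tr x‖ ≤ n2 x := by
  have := norm_tr_mul_le' 1 x
  rwa [one_mul, n2_one, one_mul] at this

theorem tr_re_nonneg_of_nonneg [PartialOrder M] [StarOrderedRing M] {a : M} (ha : 0 ≤ a) :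
    0 ≤ (tr a).re := by
  obtain ⟨b, rfl⟩ := CStarAlgebra.nonneg_iff_eq_star_mul_self.mp ha
  exact TVN.tr_re_nonneg b

theorem n2_mul_le (x y : M) : n2 (x * y) ≤ ‖x‖ * n2 y := by
  let _ : PartialOrder M := CStarAlgebra.spectralOrder M
  have _ : StarOrderedRing M := CStarAlgebra.spectralOrderedRing M
  have h : star y * star x * (x * y) ≤ (‖x‖ ^ 2 : ℝ) • (star y * y) := by
    have := CStarAlgebra.star_left_conjugate_le_norm_smul (a := y) (b := star x * x)
      (IsSelfAdjoint.star_mul_self x)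
    rw [CStarRing.norm_star_mul_self, ← sq] at this
    calc star y * star x * (x * y) = star y * (star x * x) * y := by simp only [mul_assoc]
      _ ≤ _ := by simpa using this
  have h2 : 0 ≤ (tr ((‖x‖ ^ 2 : ℝ) • (star y * y) - star y * star x * (x * y))).re :=
    tr_re_nonneg_of_nonneg (sub_nonneg.mpr h)
  have e3 : (‖x‖ ^ 2 : ℝ) • (star y * y) = ((‖x‖ ^ 2 : ℝ) : ℂ) • (star y * y) :=
    (Complex.coe_smul (‖x‖ ^ 2) (star y * y)).symm
  have h3 : n2 (x * y) ^ 2 ≤ (‖x‖ * n2 y) ^ 2 := by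
    rw [n2_sq, star_mul, mul_pow, n2_sq]
    rw [e3, map_sub, map_smul, Complex.sub_re, smul_eq_mul, Complex.re_ofReal_mul] at h2
    linarith
  exact le_of_sq_le_sq h3 (mul_nonneg (norm_nonneg _) (n2_nonneg _))

theorem n2_mul_le' (x y : M) : n2 (x * y) ≤ n2 x * ‖y‖ := by
  have := n2_mul_le (star y) (star x)
  rw [← star_mul, n2_star, n2_star, norm_star] at this
  linarith

theorem n2_le_norm (x : M) : n2 x ≤ ‖x‖ := by
  have := n2_mul_le x 1
  rwa [mul_one, n2_one, mul_one] at this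

theorem norm_tr_le (x : M) : ‖tr x‖ ≤ ‖x‖ := (norm_tr_le_n2 x).trans (n2_le_norm x)

theorem IsUn.star {x : M} (h : IsUn x) : IsUn (star x) := ⟨by simpa using h.2, by simpa using h.1⟩

theorem IsUn.mul {x y : M} (hx : IsUn x) (hy : IsUn y) : IsUn (x * y) := by
  refine ⟨?_, ?_⟩
  · rw [star_mul]
    calc Star.star y * Star.star x * (x * y) = Star.star y * (Star.star x * x) * y := by
          simp only [mul_assoc]
      _ = 1 := by rw [hx.1, mul_one, hy.1]
  · rw [star_mul]
    calc x * y * (Star.star y * Star.star x) = x * (y * Star.star y) * Star.star x := by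
          simp only [mul_assoc]
      _ = 1 := by rw [hy.2, mul_one, hx.2]

theorem isUn_one : IsUn (1 : M) := ⟨by simp, by simp⟩

theorem IsUn.n2_mul {u : M} (hu : IsUn u) (x : M) : n2 (u * x) = n2 x := by
  have : Star.star (u * x) * (u * x) = Star.star x * x := by
    rw [star_mul]
    calc Star.star x * Star.star u * (u * x) = Star.star x * (Star.star u * u) * x := by
          simp only [mul_assoc]
      _ = _ := by rw [hu.1, mul_one]
  rw [n2, this, ← n2]

theorem IsUn.n2_mul' {u : M} (hu : IsUn u) (x : M) : n2 (x * u) = n2 x := by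
  rw [← n2_star, star_mul, hu.star.n2_mul, n2_star]

theorem isUn_of_star_mul_self {u : M} (h : star u * u = 1) : IsUn u := by
  refine ⟨h, ?_⟩
  have hp : star (1 - u * star u) * (1 - u * star u) = 1 - u * star u := by
    have : star (1 - u * star u) = 1 - u * star u := by simp
    rw [this, sub_mul, mul_sub, mul_sub, one_mul, mul_one]
    have : u * star u * (u * star u) = u * star u := by
      calc u * star u * (u * star u) = u * (star u * u) * star u := by simp only [mul_assoc]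
        _ = _ := by rw [h, mul_one]
    rw [this]; simp
  have h0 : tr (star (1 - u * star u) * (1 - u * star u)) = 0 := by
    rw [hp, map_sub, tr_mul_comm u, h, sub_self]
  have := TVN.faithful _ h0
  exact (sub_eq_zero.mp this).symm

theorem IsUn.norm_le_one {u : M} (hu : IsUn u) : ‖u‖ ≤ 1 := by
  have := CStarRing.norm_star_mul_self (x := u)
  rw [hu.1] at this
  have h1 : ‖(1 : M)‖ ≤ 1 := by
    rcases subsingleton_or_nontrivial M with h | h
    · simp [Subsingleton.elim (1 : M) 0]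
    · exact CStarRing.norm_one.le
  nlinarith [norm_nonneg u]

theorem IsProj.norm_le_one {p : M} (hp : IsProj p) : ‖p‖ ≤ 1 := by
  have := CStarRing.norm_star_mul_self (x := p)
  rw [hp.1, hp.2] at this
  nlinarith [norm_nonneg p]

theorem IsProj.n2_sq {p : M} (hp : IsProj p) : n2 p ^ 2 = (tr p).re := by
  rw [Pool.Agent.KUR.n2_sq, hp.1, hp.2]

/-- Completeness of norm-balls for the 2-norm. -/
theorem complete_ball (x : ℕ → M) (C : ℝ) (hC : ∀ n, ‖x n‖ ≤ C)
    (hx : ∀ ε : ℝ, 0 < ε → ∃ n₀ : ℕ, ∀ m n : ℕ, n₀ ≤ m → n₀ ≤ n → n2 (x m - x n) < ε) :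
    ∃ y : M, ‖y‖ ≤ C ∧ Tendsto (fun n => n2 (x n - y)) atTop (𝓝 0) := by
  have hC0 : 0 ≤ C := (norm_nonneg _).trans (hC 0)
  rcases eq_or_lt_of_le hC0 with h | hpos
  · refine ⟨0, by simp [← h], ?_⟩
    have : ∀ n, x n = 0 := fun n => norm_le_zero_iff.mp (h ▸ hC n)
    simp [this, n2_zero]
  · have hCc : (C : ℂ) ≠ 0 := by exact_mod_cast hpos.ne'
    have hn : ‖((C⁻¹ : ℝ) : ℂ)‖ = C⁻¹ := by
      rw [Complex.norm_real, Real.norm_eq_abs, abs_of_pos (inv_pos.mpr hpos)]
    obtain ⟨y, hy, hty⟩ := TVN.complete (fun n => ((C⁻¹ : ℝ) : ℂ) • x n) (fun n => by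
        rw [norm_smul, hn]
        calc C⁻¹ * ‖x n‖ ≤ C⁻¹ * C := by gcongr; exact hC n
          _ = 1 := inv_mul_cancel₀ hpos.ne') (fun ε hε => by
        obtain ⟨n₀, h₀⟩ := hx (C * Real.sqrt ε) (mul_pos hpos (Real.sqrt_pos.mpr hε))
        refine ⟨n₀, fun m n hm hn' => ?_⟩
        have h1 := h₀ m n hm hn'
        rw [← n2_sq, ← smul_sub, n2_smul, hn]
        have h2 : C⁻¹ * n2 (x m - x n) < Real.sqrt ε := by
          rw [inv_mul_lt_iff₀ hpos]; exact h1
        calc (C⁻¹ * n2 (x m - x n)) ^ 2 < Real.sqrt ε ^ 2 := by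
              apply pow_lt_pow_left₀ h2
              · exact mul_nonneg (inv_pos.mpr hpos).le (n2_nonneg _)
              · norm_num
          _ = ε := Real.sq_sqrt hε.le)
    refine ⟨(C : ℂ) • y, ?_, ?_⟩
    · rw [norm_smul, Complex.norm_real, Real.norm_eq_abs, abs_of_pos hpos]
      calc C * ‖y‖ ≤ C * 1 := by gcongr
        _ = C := mul_one C
    · have h1 : Tendsto (fun n => Real.sqrt (tr (star (((C⁻¹ : ℝ) : ℂ) • x n - y) *
          (((C⁻¹ : ℝ) : ℂ) • x n - y))).re) atTop (𝓝 0) := by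
        have := (Real.continuous_sqrt.tendsto 0).comp hty
        rwa [Real.sqrt_zero] at this
      have h2 : ∀ n, n2 (x n - (C : ℂ) • y) = C * n2 (((C⁻¹ : ℝ) : ℂ) • x n - y) := by
        intro n
        have : x n - (C : ℂ) • y = (C : ℂ) • (((C⁻¹ : ℝ) : ℂ) • x n - y) := by
          rw [smul_sub, smul_smul]; push_cast; rw [mul_inv_cancel₀ hCc, one_smul]
        rw [this, n2_smul, Complex.norm_real, Real.norm_eq_abs, abs_of_pos hpos]
      simp_rw [h2]
      have := h1.const_mul C
      rwa [mul_zero] at this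

theorem vnSub_vnGen (X : Set M) : VNSub (vnGen X) := by
  intro x y C hx hC ht
  rw [vnGen, StarSubalgebra.mem_sInf]
  intro S hS
  refine hS.2 x y C (fun n => ?_) hC ht
  have := hx n
  rw [vnGen, StarSubalgebra.mem_sInf] at this
  exact this S hS

theorem subset_vnGen (X : Set M) : X ⊆ (vnGen X : Set M) := by
  intro x hx
  show x ∈ vnGen X
  rw [vnGen, StarSubalgebra.mem_sInf]
  exact fun S hS => hS.1 hx

theorem vnGen_le {X : Set M} {S : StarSubalgebra ℂ M} (hX : X ⊆ (S : Set M)) (hS : VNSub S) :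
    vnGen X ≤ S := by
  intro x hx
  rw [vnGen, StarSubalgebra.mem_sInf] at hx
  exact hx S ⟨hX, hS⟩

theorem VNSub.mem_of_tendsto_norm {S : StarSubalgebra ℂ M} (hS : VNSub S) (x : ℕ → M) (y : M)
    (hx : ∀ n, x n ∈ S) (ht : Tendsto x atTop (𝓝 y)) : y ∈ S := by
  have hb : ∃ C, ∀ n, ‖x n‖ ≤ C := by
    obtain ⟨C, hC⟩ := (Metric.isBounded_range_of_tendsto x ht).exists_norm_le
    exact ⟨C, fun n => hC _ ⟨n, rfl⟩⟩
  obtain ⟨C, hC⟩ := hb
  refine hS x y C hx hC ?_
  have h1 : Tendsto (fun n => ‖x n - y‖) atTop (𝓝 0) := by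
    have := (tendsto_iff_norm_sub_tendsto_zero.mp ht); exact this
  exact squeeze_zero (fun n => n2_nonneg _) (fun n => n2_le_norm _) h1

theorem VNSub.isClosed {S : StarSubalgebra ℂ M} (hS : VNSub S) : IsClosed (S : Set M) := by
  apply isClosed_of_closure_subset
  intro y hy
  obtain ⟨x, hx, ht⟩ := mem_closure_iff_seq_limit.mp hy
  exact hS.mem_of_tendsto_norm x y hx ht

end Pool.Agent.KUR
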