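import Pool.Agent.KUR.Defs2

/-!
# KUR: limits in the 2-norm, trace preserving homomorphisms, commutants
-/

open Filter Topology

namespace Pool.Agent.KUR

universe u
variable {M : Type u} [CStarAlgebra M] [TVN M]

theorem eq_of_n2_lim {x : ℕ → M} {y z : M} (hy : Tendsto (fun n => n2 (x n - y)) atTop (𝓝 0))
    (hz : Tendsto (fun n => n2 (x n - z)) atTop (𝓝 0)) : y = z := by
  have h1 : Tendsto (fun n => n2 (x n - y) + n2 (x n - z)) atTop (𝓝 0) := by
    simpa using hy.add hz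
  have h2 : n2 (y - z) ≤ 0 := by
    refine ge_of_tendsto' h1 (fun n => ?_)
    calc n2 (y - z) ≤ n2 (y - x n) + n2 (x n - z) := n2_sub_le_sub _ _ _
      _ = _ := by rw [n2_sub_comm y]
  have h3 : n2 (y - z) = 0 := le_antisymm h2 (n2_nonneg _)
  exact sub_eq_zero.mp (n2_eq_zero.mp h3)

theorem norm_le_of_n2_lim {x : ℕ → M} {y : M} {C : ℝ} (hC : ∀ n, ‖x n‖ ≤ C)
    (hy : Tendsto (fun n => n2 (x n - y)) atTop (𝓝 0)) : ‖y‖ ≤ C := by
  obtain ⟨z, hz, hz'⟩ := complete_ball x C hC (by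
    intro ε hε
    obtain ⟨n₀, h₀⟩ := (Metric.tendsto_atTop.mp hy) (ε / 2) (by linarith)
    refine ⟨n₀, fun m n hm hn => ?_⟩
    have h1 := h₀ m hm
    have h2 := h₀ n hn
    rw [Real.dist_eq, sub_zero, abs_of_nonneg (n2_nonneg _)] at h1 h2
    calc n2 (x m - x n) ≤ n2 (x m - y) + n2 (y - x n) := n2_sub_le_sub _ _ _
      _ < ε := by rw [n2_sub_comm y]; linarith)
  rwa [eq_of_n2_lim hy hz']

theorem n2_lim_add {x x' : ℕ → M} {y y' : M} (hy : Tendsto (fun n => n2 (x n - y)) atTop (𝓝 0))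
    (hy' : Tendsto (fun n => n2 (x' n - y')) atTop (𝓝 0)) :
    Tendsto (fun n => n2 (x n + x' n - (y + y'))) atTop (𝓝 0) := by
  refine squeeze_zero (fun n => n2_nonneg _) (fun n => ?_) (by simpa using hy.add hy')
  rw [add_sub_add_comm]; exact n2_add_le _ _

theorem n2_lim_smul (c : ℂ) {x : ℕ → M} {y : M}
    (hy : Tendsto (fun n => n2 (x n - y)) atTop (𝓝 0)) :
    Tendsto (fun n => n2 (c • x n - c • y)) atTop (𝓝 0) := by
  simp_rw [← smul_sub, n2_smul]
  simpa using hy.const_mul ‖c‖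

theorem n2_lim_star {x : ℕ → M} {y : M} (hy : Tendsto (fun n => n2 (x n - y)) atTop (𝓝 0)) :
    Tendsto (fun n => n2 (star (x n) - star y)) atTop (𝓝 0) := by
  simp_rw [← star_sub, n2_star]; exact hy

theorem n2_lim_mul {x x' : ℕ → M} {y y' : M} {C : ℝ} (hC : ∀ n, ‖x n‖ ≤ C)
    (hy : Tendsto (fun n => n2 (x n - y)) atTop (𝓝 0))
    (hy' : Tendsto (fun n => n2 (x' n - y')) atTop (𝓝 0)) :
    Tendsto (fun n => n2 (x n * x' n - y * y')) atTop (𝓝 0) := by
  have h1 : Tendsto (fun n => C * n2 (x' n - y') + n2 (x n - y) * ‖y'‖) atTop (𝓝 0) := by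
    simpa using (hy'.const_mul C).add (hy.mul_const ‖y'‖)
  refine squeeze_zero (fun n => n2_nonneg _) (fun n => ?_) h1
  have e : x n * x' n - y * y' = x n * (x' n - y') + (x n - y) * y' := by
    rw [mul_sub, sub_mul]; abel
  rw [e]
  refine (n2_add_le _ _).trans (add_le_add ?_ (n2_mul_le' _ _))
  exact (n2_mul_le _ _).trans (mul_le_mul_of_nonneg_right (hC n) (n2_nonneg _))

theorem tr_lim {x : ℕ → M} {y : M} (hy : Tendsto (fun n => n2 (x n - y)) atTop (𝓝 0)) :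
    Tendsto (fun n => tr (x n)) atTop (𝓝 (tr y)) := by
  rw [tendsto_iff_norm_sub_tendsto_zero]
  refine squeeze_zero (fun n => norm_nonneg _) (fun n => ?_) hy
  rw [← map_sub]; exact norm_tr_le_n2 _

theorem n2_lim_mul_left (a : M) {x : ℕ → M} {y : M}
    (hy : Tendsto (fun n => n2 (x n - y)) atTop (𝓝 0)) :
    Tendsto (fun n => n2 (a * x n - a * y)) atTop (𝓝 0) := by
  have : Tendsto (fun n => ‖a‖ * n2 (x n - y)) atTop (𝓝 0) := by simpa using hy.const_mul ‖a‖
  refine squeeze_zero (fun n => n2_nonneg _) (fun n => ?_) this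
  rw [← mul_sub]; exact n2_mul_le _ _

theorem n2_lim_mul_right (a : M) {x : ℕ → M} {y : M}
    (hy : Tendsto (fun n => n2 (x n - y)) atTop (𝓝 0)) :
    Tendsto (fun n => n2 (x n * a - y * a)) atTop (𝓝 0) := by
  have : Tendsto (fun n => n2 (x n - y) * ‖a‖) atTop (𝓝 0) := by simpa using hy.mul_const ‖a‖
  refine squeeze_zero (fun n => n2_nonneg _) (fun n => ?_) this
  rw [← sub_mul]; exact n2_mul_le' _ _

/-- An approximation property turned into a sequence. -/
theorem exists_seq_of_approx {p : M → Prop} {x : M}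
    (h : ∀ ε : ℝ, 0 < ε → ∃ y, p y ∧ n2 (x - y) < ε) :
    ∃ y : ℕ → M, (∀ n, p (y n)) ∧ Tendsto (fun n => n2 (y n - x)) atTop (𝓝 0) := by
  choose f hf using fun n : ℕ => h (1 / ((n : ℝ) + 1)) (by positivity)
  refine ⟨f, fun n => (hf n).1, ?_⟩
  refine squeeze_zero (fun n => n2_nonneg _) (fun n => ?_)
    (tendsto_one_div_add_atTop_nhds_zero_nat (𝕜 := ℝ))
  rw [n2_sub_comm]; exact (hf n).2.le

section homs
variable {A B : Type*} [CStarAlgebra A] [TVN A] [CStarAlgebra B] [TVN B]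

theorem TrPres.n2_eq {f : A →⋆ₐ[ℂ] B} (hf : TrPres f) (x : A) : n2 (f x) = n2 x := by
  rw [n2, n2, ← map_star, ← map_mul, hf]

theorem TrPres.injective {f : A →⋆ₐ[ℂ] B} (hf : TrPres f) : Function.Injective f := by
  intro x y hxy
  have h1 : n2 (x - y) = 0 := by
    rw [← hf.n2_eq, map_sub, hxy, sub_self, n2_zero]
  exact sub_eq_zero.mp (n2_eq_zero.mp h1)

theorem TrPres.norm_eq {f : A →⋆ₐ[ℂ] B} (hf : TrPres f) (x : A) : ‖f x‖ = ‖x‖ :=
  NonUnitalStarAlgHom.norm_map (f : A →⋆ₙₐ[ℂ] B) hf.injective x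

theorem TrPres.comp {C : Type*} [CStarAlgebra C] [TVN C] {g : B →⋆ₐ[ℂ] C} {f : A →⋆ₐ[ℂ] B}
    (hg : TrPres g) (hf : TrPres f) : TrPres (g.comp f) := by
  intro x; rw [StarAlgHom.comp_apply, hg, hf]

theorem TrPres.map_vnSub {f : A →⋆ₐ[ℂ] B} (hf : TrPres f) {S : StarSubalgebra ℂ A}
    (hS : VNSub S) : VNSub (S.map f) := by
  intro x y C hx hC ht
  have hx' : ∀ n, ∃ a ∈ S, f a = x n := fun n => by simpa using hx n
  choose a haS ha using hx'
  have haC : ∀ n, ‖a n‖ ≤ C := fun n => by rw [← hf.norm_eq, ha]; exact hC n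
  obtain ⟨b, hb, hb'⟩ := complete_ball a C haC (by
    intro ε hε
    obtain ⟨n₀, h₀⟩ := (Metric.tendsto_atTop.mp ht) (ε / 2) (by linarith)
    refine ⟨n₀, fun m n hm hn => ?_⟩
    have h1 := h₀ m hm
    have h2 := h₀ n hn
    rw [Real.dist_eq, sub_zero, abs_of_nonneg (n2_nonneg _)] at h1 h2
    rw [← hf.n2_eq, map_sub, ha, ha]
    calc n2 (x m - x n) ≤ n2 (x m - y) + n2 (y - x n) := n2_sub_le_sub _ _ _
      _ < ε := by rw [n2_sub_comm y]; linarith)
  have hbS : b ∈ S := hS a b C haS haC hb'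
  have : Tendsto (fun n => n2 (x n - f b)) atTop (𝓝 0) := by
    have e : (fun n => n2 (x n - f b)) = fun n => n2 (a n - b) := by
      funext n; rw [← ha n, ← map_sub, hf.n2_eq]
    rw [e]; exact hb'
  rw [eq_of_n2_lim ht this]
  exact ⟨b, hbS, rfl⟩

theorem vnSub_top : VNSub (⊤ : StarSubalgebra ℂ A) := fun _ _ _ _ _ _ => StarSubalgebra.mem_top

theorem TrPres.vnSub_range {f : A →⋆ₐ[ℂ] B} (hf : TrPres f) : VNSub f.range := by
  rw [StarAlgHom.range_eq_map_top]
  exact hf.map_vnSub vnSub_top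

end homs

/-- Commutants of self-adjoint sets are von Neumann subalgebras. -/
theorem vnSub_centralizer (X : Set M) : VNSub (StarSubalgebra.centralizer ℂ X) := by
  intro x y C hx hC ht
  rw [StarSubalgebra.mem_centralizer_iff]
  intro g hg
  refine ⟨?_, ?_⟩
  · have h1 := n2_lim_mul_left g ht
    have h2 := n2_lim_mul_right g ht
    have h3 : ∀ n, g * x n = x n * g := fun n =>
      ((StarSubalgebra.mem_centralizer_iff ℂ).mp (hx n) g hg).1
    simp_rw [h3] at h1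
    exact eq_of_n2_lim h1 h2
  · have h1 := n2_lim_mul_left (star g) ht
    have h2 := n2_lim_mul_right (star g) ht
    have h3 : ∀ n, star g * x n = x n * star g := fun n =>
      ((StarSubalgebra.mem_centralizer_iff ℂ).mp (hx n) g hg).2
    simp_rw [h3] at h1
    exact eq_of_n2_lim h1 h2

theorem VNSub.inf {S T : StarSubalgebra ℂ M} (hS : VNSub S) (hT : VNSub T) : VNSub (S ⊓ T) := by
  intro x y C hx hC ht
  exact StarSubalgebra.mem_inf.mpr ⟨hS x y C (fun n => (StarSubalgebra.mem_inf.mp (hx n)).1) hC ht,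
    hT x y C (fun n => (StarSubalgebra.mem_inf.mp (hx n)).2) hC ht⟩

theorem IsProj.one_sub {p : M} (hp : IsProj p) : IsProj (1 - p) := by
  refine ⟨by rw [star_sub, star_one, hp.1], ?_⟩
  rw [sub_mul, mul_sub, mul_sub, hp.2]; simp

end Pool.Agent.KUR
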