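import Pool.Agent.KUR.Basic2

/-!
# KUR CEx: conditional expectations onto von Neumann subalgebras

PROOF.  `S` is norm closed (`VNSub.isClosed`).
(1) Let `x` be self-adjoint, `‖x‖ ≤ 1`.  In the ball `B = {y ∈ S | ‖y‖ ≤ 2}` (convex, complete for
the 2-norm by `complete_ball` and `VNSub`) there is a minimizer `y` of `n2 (x - y)` (take a
minimizing sequence, parallelogram law in the synonym `P2 M` shows that it is 2-norm Cauchy; use
`norm_le_of_n2_lim`).  Replacing `y` by `(y + star y)/2` we may take `y` self-adjoint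
(`n2 (x - (y + star y)/2) ≤ n2 (x - y)`), or use uniqueness of the minimizer.
(2) Truncation: with `f t = max (-1) (min t 1)` and `g t = t - f t` one has, for self-adjoint `y`,
`n2 (x - y)^2 = n2 (x - f y)^2 + n2 (g y)^2 - 2 Re tr ((x - f y) * g y)` and
`Re tr ((x - f y) * g y) ≤ 0`: `g y = p - q` with `p = cfc (fun t => max (t-1) 0) y`,
`q = cfc (fun t => max (-t-1) 0) y`, both ≥ 0, `f y * p = p`, `f y * q = - q`, so
`tr ((x - f y) * p) = tr ((x - 1) * p) = tr (√p * (x - 1) * √p) ≤ 0` and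
`tr ((x - f y) * (-q)) = - tr ((x + 1) * q) ≤ 0`, because `-1 ≤ x ≤ 1`.
`f y ∈ S`, so minimality forces `g y = 0`, i.e. `‖y‖ ≤ 1`.
(3) `y` is an interior point: for `z ∈ S` and small complex `c` the element `y + c • z` has norm ≤ 2,
so `n2 (x - y - c • z)^2 ≥ n2 (x - y)^2` for all small `c`, hence `tr (star z * (x - y)) = 0`.
So for every self-adjoint `x` (scale!) there is a self-adjoint `y ∈ S`, `‖y‖ ≤ ‖x‖`, with
`tr (z * y) = tr (z * x)` for all `z ∈ S`.  For general `x = a + i b` take real and imaginary parts.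
(4) `y` is unique (`tr (star (y - y') * (y - y')) = 0`), so `E x := y` is well defined, linear, star
preserving, a bimodule map (`tr (z * (a * E x)) = tr (z * a * x)`), and the identity on `S`.
`n2 (E x) ≤ n2 x`: `n2 (E x)^2 = tr (star (E x) * x)` and Cauchy-Schwarz.
(5) `‖E x‖ ≤ ‖x‖` for all `x`: for self-adjoint `x` it is in (3).  `E` is positive: for
`0 ≤ a`, `‖a‖ ≤ 1` one has `‖1 - 2a‖ ≤ 1`, so `‖1 - 2 E a‖ ≤ 1`, so `0 ≤ E a` (spectrum).  Hence
`0 ≤ E (star (x - E x) * (x - E x)) = E (star x * x) - star (E x) * E x`, so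
`‖E x‖^2 ≤ ‖E (star x * x)‖ ≤ ‖star x * x‖ = ‖x‖^2` (the order is `CStarAlgebra.spectralOrder`).
ALTERNATIVE for (5): `‖y‖` for `y ∈ S` is the supremum of `|tr (a * y * b)|` over `a b ∈ S` with
`n2 a ≤ 1`, `n2 b ≤ 1`.
-/

open Filter Topology

namespace Pool.Agent.KUR

universe u
variable {M : Type u} [CStarAlgebra M] [TVN M]

/-- Minimizer in a ball of `S`. -/
theorem cex_min (S : StarSubalgebra ℂ M) (hS : VNSub S) (R : ℝ) (hR : 0 ≤ R) (x : M) :
    ∃ y ∈ S, ‖y‖ ≤ R ∧ ∀ z ∈ S, ‖z‖ ≤ R → (tr (star (x - y) * (z - y))).re ≤ 0 := by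
  let _ : InnerProductSpace ℝ (P2 M) := InnerProductSpace.rclikeToReal ℂ (P2 M)
  let K : Set (P2 M) := {z | P2.mk.symm z ∈ S ∧ ‖P2.mk.symm z‖ ≤ R}
  have hK : ∀ z : M, P2.mk z ∈ K ↔ z ∈ S ∧ ‖z‖ ≤ R := fun z => by
    show (P2.mk.symm (P2.mk z) ∈ S ∧ ‖P2.mk.symm (P2.mk z)‖ ≤ R) ↔ _
    rw [LinearEquiv.symm_apply_apply]
  have hne : K.Nonempty := ⟨P2.mk 0, (hK 0).mpr ⟨zero_mem S, by rwa [norm_zero]⟩⟩
  have hcomp : IsComplete K := by
    rw [← completeSpace_coe_iff_isComplete]
    refine Metric.complete_of_cauchySeq_tendsto (fun u hu => ?_)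
    set v : ℕ → M := fun n => P2.mk.symm (u n : P2 M) with hv
    have hvS : ∀ n, v n ∈ S := fun n => (u n).2.1
    have hvR : ∀ n, ‖v n‖ ≤ R := fun n => (u n).2.2
    have hdist : ∀ m n, dist (u m) (u n) = n2 (v m - v n) := by
      intro m n
      rw [Subtype.dist_eq, dist_eq_norm, ← P2.norm_mk, map_sub]
      simp only [hv, LinearEquiv.apply_symm_apply]
    obtain ⟨y, hy, hty⟩ := complete_ball v R hvR (by
      intro ε hε
      obtain ⟨N, hN⟩ := Metric.cauchySeq_iff.mp hu ε hε
      exact ⟨N, fun m n hm hn => by rw [← hdist]; exact hN m hm n hn⟩)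
    have hyS : y ∈ S := hS v y R hvS hvR hty
    refine ⟨⟨P2.mk y, (hK y).mpr ⟨hyS, hy⟩⟩, ?_⟩
    rw [tendsto_iff_dist_tendsto_zero]
    refine hty.congr (fun n => ?_)
    rw [Subtype.dist_eq, dist_eq_norm, ← P2.norm_mk, map_sub]
    simp only [hv, LinearEquiv.apply_symm_apply]
  have hconv : Convex ℝ K := by
    intro a ha b hb s t hs ht hst
    have e : P2.mk.symm (s • a + t • b) = (s : ℂ) • P2.mk.symm a + (t : ℂ) • P2.mk.symm b := by
      rw [← map_smul, ← map_smul, ← map_add]
      rfl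
    refine ⟨?_, ?_⟩
    · rw [e]; exact add_mem (SMulMemClass.smul_mem _ ha.1) (SMulMemClass.smul_mem _ hb.1)
    · rw [e]
      calc ‖(s : ℂ) • P2.mk.symm a + (t : ℂ) • P2.mk.symm b‖
          ≤ s * ‖P2.mk.symm a‖ + t * ‖P2.mk.symm b‖ := by
            refine (norm_add_le _ _).trans ?_
            rw [norm_smul, norm_smul, Complex.norm_real, Complex.norm_real, Real.norm_eq_abs,
              Real.norm_eq_abs, abs_of_nonneg hs, abs_of_nonneg ht]
        _ ≤ s * R + t * R := add_le_add (mul_le_mul_of_nonneg_left ha.2 hs)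
            (mul_le_mul_of_nonneg_left hb.2 ht)
        _ = R := by rw [← add_mul, hst, one_mul]
  obtain ⟨v, hvK, hv⟩ := exists_norm_eq_iInf_of_complete_convex hne hcomp hconv (P2.mk x)
  rw [norm_eq_iInf_iff_real_inner_le_zero hconv hvK] at hv
  refine ⟨P2.mk.symm v, hvK.1, hvK.2, fun z hz hzR => ?_⟩
  exact hv (P2.mk z) ((hK z).mpr ⟨hz, hzR⟩)

/-- Truncation functions. -/
noncomputable def cexH (t : ℝ) : ℝ := (max 1 (Real.sqrt t))⁻¹
/-- Truncation functions. -/
noncomputable def cexW (t : ℝ) : ℝ := max (Real.sqrt t - 1) 0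
/-- Truncation functions. -/
noncomputable def cexC (t : ℝ) : ℝ := Real.sqrt (cexW t)
/-- Truncation functions. -/
noncomputable def cexM (t : ℝ) : ℝ := cexC t * cexH t

theorem cexH_cont : Continuous cexH := by
  unfold cexH
  exact (continuous_const.max Real.continuous_sqrt).inv₀ (fun t => by positivity)

theorem cexW_cont : Continuous cexW := by
  unfold cexW; fun_prop

theorem cexC_cont : Continuous cexC := Real.continuous_sqrt.comp cexW_cont

theorem cexM_cont : Continuous cexM := cexC_cont.mul cexH_cont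

theorem cex_wh (t : ℝ) : cexW t * cexH t = 1 - cexH t := by
  unfold cexW cexH
  rcases le_total (Real.sqrt t) 1 with h | h
  · rw [max_eq_left h, max_eq_right (by linarith)]; norm_num
  · rw [max_eq_right h, max_eq_left (by linarith)]
    have : Real.sqrt t ≠ 0 := by positivity
    field_simp

theorem cex_cc (t : ℝ) : cexC t * cexC t = cexW t := by
  unfold cexC
  exact Real.mul_self_sqrt (by unfold cexW; exact le_max_right _ _)

theorem cex_mc (t : ℝ) : cexM t * cexC t = 1 - cexH t := by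
  rw [← cex_wh, ← cex_cc]; unfold cexM; ring

theorem cex_mtm {t : ℝ} (ht : 0 ≤ t) : cexM t * t * cexM t = cexW t := by
  have e : cexM t * t * cexM t = cexW t * (cexH t * t * cexH t) := by
    rw [← cex_cc]; unfold cexM; ring
  rw [e]
  unfold cexW cexH
  rcases le_total (Real.sqrt t) 1 with h | h
  · rw [max_eq_left h, max_eq_right (by linarith)]; norm_num
  · rw [max_eq_right h, max_eq_left (by linarith)]
    have h0 : Real.sqrt t ≠ 0 := by positivity
    have h1 : Real.sqrt t * Real.sqrt t = t := Real.mul_self_sqrt ht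
    have : (Real.sqrt t)⁻¹ * t * (Real.sqrt t)⁻¹ = 1 := by
      nth_rewrite 2 [← h1]
      field_simp
    rw [this, mul_one]

theorem cex_hth {t : ℝ} (ht : 0 ≤ t) : cexH t * t * (1 - cexH t) = cexW t := by
  unfold cexW cexH
  rcases le_total (Real.sqrt t) 1 with h | h
  · rw [max_eq_left h, max_eq_right (by linarith)]; norm_num
  · rw [max_eq_right h, max_eq_left (by linarith)]
    have h0 : Real.sqrt t ≠ 0 := by positivity
    have h1 : Real.sqrt t * Real.sqrt t = t := Real.mul_self_sqrt ht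
    nth_rewrite 2 [← h1]
    field_simp

theorem cex_hh {t : ℝ} (ht : 0 ≤ t) : |cexH t * t * cexH t| ≤ 1 := by
  unfold cexH
  rw [abs_of_nonneg (by positivity)]
  have h1 : Real.sqrt t * Real.sqrt t = t := Real.mul_self_sqrt ht
  have h2 : Real.sqrt t ≤ max 1 (Real.sqrt t) := le_max_right _ _
  have h3 : 0 < max 1 (Real.sqrt t) := by positivity
  have h4 : (max 1 (Real.sqrt t))⁻¹ * Real.sqrt t ≤ 1 := by
    rw [inv_mul_le_iff₀ h3]; linarith
  have h5 : 0 ≤ (max 1 (Real.sqrt t))⁻¹ * Real.sqrt t := by positivity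
  calc (max 1 (Real.sqrt t))⁻¹ * t * (max 1 (Real.sqrt t))⁻¹
      = ((max 1 (Real.sqrt t))⁻¹ * Real.sqrt t) * ((max 1 (Real.sqrt t))⁻¹ * Real.sqrt t) := by
        nth_rewrite 2 [← h1]; ring
    _ ≤ 1 := by nlinarith

/-- Truncation. -/
theorem cex_trunc (S : StarSubalgebra ℂ M) (hS : VNSub S) {x : M} (hx : ‖x‖ ≤ 1) {y : M}
    (hy : y ∈ S) : ∃ y' ∈ S, ‖y'‖ ≤ 1 ∧ (tr (star (x - y') * (y - y'))).re ≤ 0 := by
  let _ : PartialOrder M := CStarAlgebra.spectralOrder M
  have _ : StarOrderedRing M := CStarAlgebra.spectralOrderedRing M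
  have hcl : IsClosed (S : Set M) := hS.isClosed
  set b : M := star y * y with hb
  have hbS : b ∈ S := mul_mem (star_mem hy) hy
  have hbsa : IsSelfAdjoint b := IsSelfAdjoint.star_mul_self y
  have hb0 : 0 ≤ b := star_mul_self_nonneg y
  have hspec : ∀ t ∈ spectrum ℝ b, 0 ≤ t := fun t ht => spectrum_nonneg_of_nonneg hb0 ht
  set H : M := cfc cexH b with hH
  set C : M := cfc cexC b with hC
  set W : M := cfc cexW b with hW
  set N : M := cfc cexM b with hN
  have hHS : H ∈ S := cfc_mem (hs := hcl) cexH hbS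
  have hHsa : star H = H := (cfc_predicate cexH b : IsSelfAdjoint _)
  have hCsa : star C = C := (cfc_predicate cexC b : IsSelfAdjoint _)
  have hNsa : star N = N := (cfc_predicate cexM b : IsSelfAdjoint _)
  have cH := cexH_cont.continuousOn (s := spectrum ℝ b)
  have cC := cexC_cont.continuousOn (s := spectrum ℝ b)
  have cW := cexW_cont.continuousOn (s := spectrum ℝ b)
  have cM := cexM_cont.continuousOn (s := spectrum ℝ b)
  have cId : ContinuousOn (fun t : ℝ => t) (spectrum ℝ b) := continuousOn_id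
  have hid : cfc (fun t : ℝ => t) b = b := cfc_id' ℝ b
  -- product formulas
  have e1 : N * C = 1 - H := by
    rw [hN, hC, ← cfc_mul cexM cexC b cM cC, hH, ← cfc_one ℝ b, ← cfc_sub _ _ b]
    exact cfc_congr (fun t _ => cex_mc t)
  have e2 : N * b * N = W := by
    rw [hN, hW]
    nth_rewrite 2 [← hid]
    rw [← cfc_mul cexM (fun t => t) b cM cId,
      ← cfc_mul (fun t => cexM t * t) cexM b (cM.mul cId) cM]
    exact cfc_congr (fun t ht => cex_mtm (hspec t ht))
  have e3 : C * C = W := by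
    rw [hC, hW, ← cfc_mul cexC cexC b cC cC]
    exact cfc_congr (fun t _ => cex_cc t)
  have e4 : H * b * (1 - H) = W := by
    rw [hH, hW]
    nth_rewrite 2 [← hid]
    rw [← cfc_one ℝ b, ← cfc_sub _ _ b, ← cfc_mul cexH (fun t => t) b cH cId,
      ← cfc_mul (fun t => cexH t * t) (fun t => (1 : ℝ → ℝ) t - cexH t) b (cH.mul cId)
        (continuousOn_const.sub cH)]
    exact cfc_congr (fun t ht => cex_hth (hspec t ht))
  have e5 : ‖H * b * H‖ ≤ 1 := by
    rw [hH]
    nth_rewrite 2 [← hid]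
    rw [← cfc_mul cexH (fun t => t) b cH cId,
      ← cfc_mul (fun t => cexH t * t) cexH b (cH.mul cId) cH]
    refine norm_cfc_le zero_le_one (fun t ht => ?_)
    exact cex_hh (hspec t ht)
  have hyy : y - y * H = y * N * C := by
    rw [mul_assoc, e1, mul_sub, mul_one]
  refine ⟨y * H, mul_mem hy hHS, ?_, ?_⟩
  · have h1 : ‖y * H‖ * ‖y * H‖ ≤ 1 := by
      rw [← CStarRing.norm_star_mul_self, star_mul, hHsa]
      have : H * star y * (y * H) = H * b * H := by rw [hb]; simp only [mul_assoc]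
      rw [this]; exact e5
    nlinarith [norm_nonneg (y * H)]
  · have h1 : (tr (star (y * H) * (y - y * H))).re = (tr W).re := by
      have : star (y * H) * (y - y * H) = W := by
        rw [star_mul, hHsa, ← e4, hb]
        have : y - y * H = y * (1 - H) := by rw [mul_sub, mul_one]
        rw [this]; simp only [mul_assoc]
      rw [this]
    have h2 : n2 C ^ 2 = (tr W).re := by rw [n2_sq, hCsa, e3]
    have h3 : n2 (y * N) ^ 2 = (tr W).re := by
      rw [n2_sq, star_mul, hNsa, ← e2, hb]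
      congr 2; simp only [mul_assoc]
    have h4 : (tr (star x * (y - y * H))).re ≤ (tr W).re := by
      have h5 : tr (star x * (y - y * H)) = tr ((C * star x) * (y * N)) := by
        rw [hyy, ← mul_assoc, tr_mul_comm, mul_assoc]
      have h6 : n2 (C * star x) ≤ n2 C := by
        refine (n2_mul_le' C (star x)).trans ?_
        rw [norm_star]
        have := mul_le_mul_of_nonneg_left hx (n2_nonneg C)
        linarith
      have h7 : n2 C = n2 (y * N) := by
        have : n2 C ^ 2 = n2 (y * N) ^ 2 := h2.trans h3.symm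
        exact (sq_eq_sq₀ (n2_nonneg _) (n2_nonneg _)).mp this
      calc (tr (star x * (y - y * H))).re ≤ ‖tr (star x * (y - y * H))‖ := Complex.re_le_norm _
        _ = ‖tr ((C * star x) * (y * N))‖ := by rw [h5]
        _ ≤ n2 (C * star x) * n2 (y * N) := norm_tr_mul_le' _ _
        _ ≤ n2 C * n2 (y * N) := mul_le_mul_of_nonneg_right h6 (n2_nonneg _)
        _ = n2 C ^ 2 := by rw [← h7, sq]
        _ = _ := h2
    rw [star_sub, sub_mul, map_sub, Complex.sub_re, h1]
    linarith

/-- Orthogonality for contractions. -/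
theorem cex_orth (S : StarSubalgebra ℂ M) (hS : VNSub S) {x : M} (hx : ‖x‖ ≤ 1) :
    ∃ y ∈ S, ‖y‖ ≤ 1 ∧ ∀ z ∈ S, tr (z * y) = tr (z * x) := by
  obtain ⟨y, hyS, hy2, hmin⟩ := cex_min S hS 2 (by norm_num) x
  obtain ⟨y', hyS', hy1, htr⟩ := cex_trunc S hS hx hyS
  have heq : y = y' := by
    have h1 := hmin y' hyS' (by linarith)
    have h2 : tr (star (y - y') * (y - y')) =
        tr (star (x - y') * (y - y')) + tr (star (x - y) * (y' - y)) := by
      rw [← map_add]
      congr 1
      simp only [star_sub, sub_mul, mul_sub]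
      abel
    have h3 : n2 (y - y') ^ 2 ≤ 0 := by
      rw [n2_sq, h2, Complex.add_re]; linarith
    have h4 : n2 (y - y') = 0 := by nlinarith [n2_nonneg (y - y')]
    exact sub_eq_zero.mp (n2_eq_zero.mp h4)
  subst heq
  have hle : ∀ z ∈ S, (tr (star (x - y) * z)).re ≤ 0 := by
    intro z hz
    have hpos : 0 < 1 + ‖z‖ := by positivity
    set ε : ℝ := (1 + ‖z‖)⁻¹ with hε
    have hε0 : 0 < ε := inv_pos.mpr hpos
    have h1 := hmin (y + (ε : ℂ) • z) (add_mem hyS (SMulMemClass.smul_mem _ hz)) (by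
      refine (norm_add_le _ _).trans ?_
      rw [norm_smul, Complex.norm_real, Real.norm_eq_abs, abs_of_pos hε0]
      have : ε * ‖z‖ ≤ 1 := by
        rw [hε, inv_mul_le_iff₀ hpos]; linarith
      linarith)
    rw [add_sub_cancel_left, mul_smul_comm, map_smul, smul_eq_mul, Complex.re_ofReal_mul] at h1
    by_contra hcon
    push Not at hcon
    have := mul_pos hε0 hcon
    linarith
  have hzero : ∀ z ∈ S, tr (star (x - y) * z) = 0 := by
    intro z hz
    have h1 := hle z hz
    have h2 := hle (-z) (neg_mem hz)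
    have h3 := hle (Complex.I • z) (SMulMemClass.smul_mem _ hz)
    have h4 := hle (-(Complex.I • z)) (neg_mem (SMulMemClass.smul_mem _ hz))
    rw [mul_neg, map_neg, Complex.neg_re] at h2 h4
    rw [mul_smul_comm, map_smul, smul_eq_mul, Complex.mul_re, Complex.I_re, Complex.I_im] at h3 h4
    apply Complex.ext
    · rw [Complex.zero_re]; linarith
    · rw [Complex.zero_im]; linarith
  refine ⟨y, hyS, hy1, fun z hz => ?_⟩
  have h1 := hzero (star z) (star_mem hz)
  have h2 := tr_star (star (x - y) * star z)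
  rw [h1, map_zero, star_mul, star_star, star_star, mul_sub, map_sub] at h2
  exact (sub_eq_zero.mp h2).symm

/-- Orthogonality in general. -/
theorem cex_orth' (S : StarSubalgebra ℂ M) (hS : VNSub S) (x : M) :
    ∃ y ∈ S, ‖y‖ ≤ ‖x‖ ∧ ∀ z ∈ S, tr (z * y) = tr (z * x) := by
  rcases eq_or_lt_of_le (norm_nonneg x) with h | h
  · have hx : x = 0 := norm_eq_zero.mp h.symm
    subst hx
    exact ⟨0, zero_mem S, le_refl _, fun z _ => rfl⟩
  · have hn : ‖((‖x‖⁻¹ : ℝ) : ℂ)‖ = ‖x‖⁻¹ := by
      rw [Complex.norm_real, Real.norm_eq_abs, abs_of_pos (inv_pos.mpr h)]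
    obtain ⟨y, hyS, hy1, hy⟩ := cex_orth S hS (x := ((‖x‖⁻¹ : ℝ) : ℂ) • x) (by
      rw [norm_smul, hn, inv_mul_cancel₀ h.ne'])
    refine ⟨((‖x‖ : ℝ) : ℂ) • y, SMulMemClass.smul_mem _ hyS, ?_, fun z hz => ?_⟩
    · rw [norm_smul, Complex.norm_real, norm_norm]
      calc ‖x‖ * ‖y‖ ≤ ‖x‖ * 1 := mul_le_mul_of_nonneg_left hy1 h.le
        _ = ‖x‖ := mul_one _
    · rw [mul_smul_comm, map_smul, hy z hz, mul_smul_comm, map_smul, smul_smul, ← Complex.ofReal_mul,
        mul_inv_cancel₀ h.ne', Complex.ofReal_one, one_smul]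

theorem cex_unique {S : StarSubalgebra ℂ M} {y z : M} (hy : y ∈ S) (hz : z ∈ S)
    (h : ∀ a ∈ S, tr (a * y) = tr (a * z)) : y = z := by
  have h2 := h (star (y - z)) (star_mem (sub_mem hy hz))
  have h3 : tr (star (y - z) * (y - z)) = 0 := by
    rw [mul_sub, map_sub, h2, sub_self]
  exact sub_eq_zero.mp (TVN.faithful _ h3)

theorem exists_ce (S : StarSubalgebra ℂ M) (hS : VNSub S) : ∃ E : M →ₗ[ℂ] M, IsCE S E := by
  choose E hE hEn hEt using cex_orth' S hS
  refine ⟨{ toFun := E, map_add' := ?_, map_smul' := ?_ }, ?_, ?_, ?_, ?_, ?_, ?_, ?_, ?_⟩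
  · intro a b
    refine cex_unique (hE _) (add_mem (hE a) (hE b)) (fun z hz => ?_)
    rw [hEt _ z hz, mul_add, mul_add, map_add, map_add, hEt _ z hz, hEt _ z hz]
  · intro c a
    refine cex_unique (hE _) (SMulMemClass.smul_mem _ (hE a)) (fun z hz => ?_)
    rw [hEt _ z hz, RingHom.id_apply, mul_smul_comm, mul_smul_comm, map_smul, map_smul, hEt _ z hz]
  · exact hE
  · intro x hx
    exact cex_unique (hE _) hx (fun z hz => hEt _ z hz)
  · intro x y hy
    exact hEt x y hy
  · exact hEn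
  · intro x
    show n2 (E x) ≤ n2 x
    have h1 : n2 (E x) ^ 2 ≤ n2 (E x) * n2 x := by
      rw [n2_sq, hEt x _ (star_mem (hE x))]
      exact (Complex.re_le_norm _).trans (norm_tr_mul_le _ _)
    rcases eq_or_lt_of_le (n2_nonneg (E x)) with h | h
    · rw [← h]; exact n2_nonneg x
    · rw [sq] at h1
      exact le_of_mul_le_mul_left h1 h
  · intro x
    show E (star x) = star (E x)
    refine cex_unique (hE _) (star_mem (hE x)) (fun z hz => ?_)
    rw [hEt _ z hz]
    have h1 := tr_star (star z * x)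
    have h2 := tr_star (star z * E x)
    rw [star_mul, star_star] at h1 h2
    rw [tr_mul_comm z (star x), h1, tr_mul_comm z (star (E x)), h2, hEt x _ (star_mem hz)]
  · intro x y hy
    show E (y * x) = y * E x
    refine cex_unique (hE _) (mul_mem hy (hE x)) (fun z hz => ?_)
    rw [hEt _ z hz, ← mul_assoc, ← mul_assoc]
    exact (hEt x (z * y) (mul_mem hz hy)).symm
  · intro x y hy
    show E (x * y) = E x * y
    refine cex_unique (hE _) (mul_mem (hE x) hy) (fun z hz => ?_)
    rw [hEt _ z hz, ← mul_assoc, tr_mul_comm, ← mul_assoc, ← mul_assoc, tr_mul_comm (z * _) y,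
      ← mul_assoc]
    exact (hEt x (y * z) (mul_mem hy hz)).symm

theorem isCE_ce {S : StarSubalgebra ℂ M} (hS : VNSub S) : IsCE S (ce S) := by
  unfold ce
  rw [dif_pos (exists_ce S hS)]
  exact (exists_ce S hS).choose_spec

theorem ce_mem {S : StarSubalgebra ℂ M} (hS : VNSub S) (x : M) : ce S x ∈ S := (isCE_ce hS).1 x

theorem ce_of_mem {S : StarSubalgebra ℂ M} (hS : VNSub S) {x : M} (hx : x ∈ S) : ce S x = x :=
  (isCE_ce hS).2.1 x hx

theorem tr_mul_ce {S : StarSubalgebra ℂ M} (hS : VNSub S) (x : M) {y : M} (hy : y ∈ S) :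
    tr (y * ce S x) = tr (y * x) := (isCE_ce hS).2.2.1 x y hy

theorem norm_ce_le {S : StarSubalgebra ℂ M} (hS : VNSub S) (x : M) : ‖ce S x‖ ≤ ‖x‖ :=
  (isCE_ce hS).2.2.2.1 x

theorem n2_ce_le {S : StarSubalgebra ℂ M} (hS : VNSub S) (x : M) : n2 (ce S x) ≤ n2 x :=
  (isCE_ce hS).2.2.2.2.1 x

theorem ce_star {S : StarSubalgebra ℂ M} (hS : VNSub S) (x : M) : ce S (star x) = star (ce S x) :=
  (isCE_ce hS).2.2.2.2.2.1 x

theorem ce_mul_left {S : StarSubalgebra ℂ M} (hS : VNSub S) (x : M) {y : M} (hy : y ∈ S) :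
    ce S (y * x) = y * ce S x := (isCE_ce hS).2.2.2.2.2.2.1 x y hy

theorem ce_mul_right {S : StarSubalgebra ℂ M} (hS : VNSub S) (x : M) {y : M} (hy : y ∈ S) :
    ce S (x * y) = ce S x * y := (isCE_ce hS).2.2.2.2.2.2.2 x y hy

theorem tr_ce {S : StarSubalgebra ℂ M} (hS : VNSub S) (x : M) : tr (ce S x) = tr x := by
  have := tr_mul_ce hS x (one_mem S)
  simpa using this

/-- Uniqueness. -/
theorem ce_eq_of {S : StarSubalgebra ℂ M} (hS : VNSub S) {x z : M} (hz : z ∈ S)
    (h : ∀ y ∈ S, tr (y * z) = tr (y * x)) : ce S x = z := by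
  have h1 : ∀ y ∈ S, tr (y * (ce S x - z)) = 0 := by
    intro y hy
    rw [mul_sub, map_sub, tr_mul_ce hS x hy, h y hy, sub_self]
  have h2 := h1 (star (ce S x - z)) (star_mem (sub_mem (ce_mem hS x) hz))
  exact sub_eq_zero.mp (TVN.faithful _ h2)

theorem ce_eq_zero_of {S : StarSubalgebra ℂ M} (hS : VNSub S) {x : M}
    (h : ∀ y ∈ S, tr (y * x) = 0) : ce S x = 0 :=
  ce_eq_of hS (zero_mem S) (fun y hy => by rw [mul_zero, map_zero, h y hy])

/-- Pythagoras. -/
theorem n2_sq_ce {S : StarSubalgebra ℂ M} (hS : VNSub S) (x : M) :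
    n2 x ^ 2 = n2 (ce S x) ^ 2 + n2 (x - ce S x) ^ 2 := by
  have h1 : tr (star (ce S x) * (x - ce S x)) = 0 := by
    rw [mul_sub, map_sub, tr_mul_ce hS x (star_mem (ce_mem hS x)), sub_self]
  have h2 : tr (star (x - ce S x) * ce S x) = 0 := by
    have := tr_star (star (ce S x) * (x - ce S x))
    rw [star_mul, star_star, h1, map_zero] at this
    exact this
  have e : star x * x = star (ce S x) * ce S x + star (ce S x) * (x - ce S x)
      + star (x - ce S x) * ce S x + star (x - ce S x) * (x - ce S x) := by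
    have : x = ce S x + (x - ce S x) := by abel
    conv_lhs => rw [this]
    rw [star_add, add_mul, mul_add, mul_add]; abel
  rw [n2_sq, n2_sq, n2_sq, e, map_add, map_add, map_add, h1, h2]
  simp

end Pool.Agent.KUR
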