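import Pool.Agent.KUR.Fac

/-!
# KUR Comp: maximality principle, comparison of projections, packing

PROOF.  (1) `maximal_principle` (Brezis-Browder): given `x`, let
`s x = sup {μ y | r x y}` (≤ B).  Choose inductively `f 0 = x₀`, `r (f n) (f (n+1))` with
`μ (f (n+1)) ≥ (s (f n) + μ (f n)) / 2` .. precisely `μ (f (n+1)) ≥ s (f n) - (s (f n) - μ (f n))/2`.
Let `y` be an upper bound of the sequence.  If `r y z` then `r (f n) z` so `μ z ≤ s (f n) ≤
2 μ (f (n+1)) - μ (f n)`; the sequence `μ (f n)` is monotone and bounded, so it converges to some `m`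
and `μ z ≤ m`; and `m ≤ μ y ≤ μ z` as all `μ (f n) ≤ μ y`.
(2) `comparison`: apply (1) to `X = {v ∈ S | IsPI v, p v = v, v q = v}`, with
`r v v' := v * star v * v' = v ∧ v' * (star v * v) = v` (i.e. `v' = v + w`, `w` orthogonal to `v` on
both sides) and `μ v = (tr (star v * v)).re ≤ 1`, start `v = 0`.  For `r v v'` one has
`n2 (v' - v)^2 = μ v' - μ v`, so increasing sequences are 2-norm Cauchy, norms ≤ 1
(partial isometries have norm ≤ 1), and the limit is again in `X` and is an upper bound
(`n2_lim_mul` etc.).  If the maximal `v` had `v * star v ≠ p` and `star v * v ≠ q` then the projections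
`p - v * star v`, `q - star v * v` are nonzero, and `exists_pi` gives `w ≠ 0` with
`(p - v v*) w = w`, `w (q - v* v) = w`; `v + w ∈ X` has bigger `μ`, contradiction.
(3) `packing`: let `r₀ = 1 - e`; apply `comparison` with `p = r_k`, `q = e` to get `v_k` with
`v_k v_k* ≤ r_k`, `v_k* v_k ≤ e` and (`v_k v_k* = r_k` or `v_k* v_k = e`); put
`r_{k+1} = r_k - v_k v_k*`.  In the second case the trace of `r_k` drops by `tr e > 0`, so after
finitely many steps the first case happens.  Collect `f 0 = e`, `f (k+1) = v_k`.
-/

open Filter Topology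

namespace Pool.Agent.KUR

theorem maximal_principle {X : Type*} (r : X → X → Prop) (hr : ∀ x, r x x)
    (ht : ∀ x y z, r x y → r y z → r x z) (μ : X → ℝ) (hμ : ∀ x y, r x y → μ x ≤ μ y) (B : ℝ)
    (hB : ∀ x, μ x ≤ B)
    (hlim : ∀ f : ℕ → X, (∀ n, r (f n) (f (n + 1))) → ∃ y, ∀ n, r (f n) y) (x₀ : X) :
    ∃ x, r x₀ x ∧ ∀ y, r x y → μ y = μ x := by
  have hbdd : ∀ x, BddAbove (μ '' {y | r x y}) := by
    intro x
    refine ⟨B, ?_⟩
    rintro _ ⟨y, _, rfl⟩
    exact hB y
  have hnext : ∀ x, ∃ y, r x y ∧ (sSup (μ '' {y | r x y}) + μ x) / 2 ≤ μ y := by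
    intro x
    by_cases h : sSup (μ '' {y | r x y}) ≤ μ x
    · exact ⟨x, hr x, by linarith⟩
    · push Not at h
      have h1 : (sSup (μ '' {y | r x y}) + μ x) / 2 < sSup (μ '' {y | r x y}) := by linarith
      obtain ⟨_, ⟨y, hy, rfl⟩, hlt⟩ := exists_lt_of_lt_csSup
        (show (μ '' {y | r x y}).Nonempty from ⟨μ x, x, hr x, rfl⟩) h1
      exact ⟨y, hy, hlt.le⟩
  choose nx hnx1 hnx2 using hnext
  let f : ℕ → X := fun n => Nat.rec x₀ (fun _ x => nx x) n
  have hf : ∀ n, f (n + 1) = nx (f n) := fun n => rfl
  obtain ⟨y, hy⟩ := hlim f (fun n => by rw [hf]; exact hnx1 _)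
  refine ⟨y, hy 0, fun z hz => ?_⟩
  refine le_antisymm ?_ (hμ y z hz)
  have hmono : Monotone (fun n => μ (f n)) :=
    monotone_nat_of_le_succ (fun n => by rw [hf]; exact hμ _ _ (hnx1 _))
  have hb : BddAbove (Set.range (fun n => μ (f n))) := by
    refine ⟨B, ?_⟩
    rintro _ ⟨n, rfl⟩
    exact hB _
  have hlim1 := tendsto_atTop_ciSup hmono hb
  set m := ⨆ n, μ (f n)
  have hlim2 : Tendsto (fun n => 2 * μ (f (n + 1)) - μ (f n)) atTop (𝓝 (2 * m - m)) :=
    ((hlim1.comp (tendsto_add_atTop_nat 1)).const_mul 2).sub hlim1
  have h1 : μ z ≤ 2 * m - m := by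
    refine ge_of_tendsto' hlim2 (fun n => ?_)
    have h2 := hnx2 (f n)
    rw [← hf] at h2
    have h3 : μ z ≤ sSup (μ '' {y | r (f n) y}) :=
      le_csSup (hbdd _) ⟨z, ht _ _ _ (hy n) hz, rfl⟩
    linarith
  have h4 : m ≤ μ y := ciSup_le (fun n => hμ _ _ (hy n))
  linarith

universe u
variable {M : Type u} [CStarAlgebra M] [TVN M]

theorem Comp_pi_proj {v : M} (hv : IsPI v) : IsProj (star v * v) := by
  refine ⟨by rw [star_mul, star_star], ?_⟩
  have h : v * star v * v = v := hv
  calc star v * v * (star v * v) = star v * (v * star v * v) := by simp only [mul_assoc]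
    _ = _ := by rw [h]

theorem Comp_pi_norm {v : M} (hv : IsPI v) : ‖v‖ ≤ 1 := by
  have h1 := (Comp_pi_proj hv).norm_le_one
  rw [CStarRing.norm_star_mul_self] at h1
  nlinarith [norm_nonneg v]

/-- `v'` extends `v`. -/
def Comp_r (v v' : M) : Prop := v * star v * v' = v ∧ v' * (star v * v) = v

theorem Comp_r.star_mul {v v' : M} (hv : IsPI v) (h : Comp_r v v') :
    star v' * v = star v * v := by
  have h1 : star v = star v' * (v * star v) := by
    conv_lhs => rw [← h.1]
    simp [mul_assoc]
  have hv' : v * star v * v = v := hv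
  conv_rhs => rw [h1]
  calc star v' * v = star v' * (v * star v * v) := by rw [hv']
    _ = _ := by simp only [mul_assoc]

theorem Comp_r.left {v v' : M} (hv : IsPI v) (h : Comp_r v v') : v' * star v' * v = v := by
  rw [mul_assoc, h.star_mul hv, h.2]

theorem Comp_r.mul_star {v v' : M} (hv : IsPI v) (h : Comp_r v v') :
    v * star v' = v * star v := by
  have h1 : star v = star v * v * star v' := by
    conv_lhs => rw [← h.2]
    simp [mul_assoc]
  have hv' : v * star v * v = v := hv
  conv_rhs => rw [h1]
  calc v * star v' = (v * star v * v) * star v' := by rw [hv']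
    _ = _ := by simp only [mul_assoc]

theorem Comp_r.right {v v' : M} (hv : IsPI v) (h : Comp_r v v') : v * (star v' * v') = v := by
  rw [← mul_assoc, h.mul_star hv, h.1]

theorem Comp_r.trans {v v' v'' : M} (hv : IsPI v) (h : Comp_r v v') (h' : Comp_r v' v'') :
    Comp_r v v'' := by
  have h1 : star v = star v * (v' * star v') := by
    conv_lhs => rw [← h.left hv]
    simp [mul_assoc]
  have h2 : star v = star v' * v' * star v := by
    conv_lhs => rw [← h.right hv]
    simp [mul_assoc]
  constructor
  · rw [h1]
    calc v * (star v * (v' * star v')) * v'' = v * star v * (v' * star v' * v'') := by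
          simp only [mul_assoc]
      _ = v := by rw [h'.1, h.1]
  · rw [h2]
    calc v'' * (star v' * v' * star v * v) = v'' * (star v' * v') * (star v * v) := by
          simp only [mul_assoc]
      _ = v := by rw [h'.2, h.2]

theorem Comp_r.n2_sub {v v' : M} (hv : IsPI v) (h : Comp_r v v') :
    n2 (v' - v) ^ 2 = (tr (star v' * v')).re - (tr (star v * v)).re := by
  have h1 := h.star_mul hv
  have h2 : star v * v' = star v * v := by
    have := congrArg star h1
    simpa using this
  have e : star (v' - v) * (v' - v) = star v' * v' - star v * v := by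
    rw [star_sub, sub_mul, mul_sub, mul_sub, h1, h2]; abel
  rw [n2_sq, e, map_sub, Complex.sub_re]

theorem comparison {S : StarSubalgebra ℂ M} (hS : VNSub S) (hF : IsFac S) {p q : M}
    (hp : p ∈ S) (hq : q ∈ S) (hpp : IsProj p) (hpq : IsProj q) :
    ∃ v ∈ S, IsPI v ∧ p * v = v ∧ v * q = v ∧ (v * star v = p ∨ star v * v = q) := by
  obtain ⟨⟨v, hvS, hvI, hvp, hvq⟩, -, hmax⟩ := maximal_principle
    (X := {v : M // v ∈ S ∧ IsPI v ∧ p * v = v ∧ v * q = v})
    (fun v v' => Comp_r (v : M) (v' : M))
    (fun v => ⟨v.2.2.1, by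
      have h : (v : M) * star (v : M) * (v : M) = v := v.2.2.1
      rw [← mul_assoc, h]⟩)
    (fun x y z hxy hyz => hxy.trans x.2.2.1 hyz)
    (fun v => (tr (star (v : M) * (v : M))).re)
    (fun v v' h => by
      have h1 := h.n2_sub v.2.2.1
      have h2 := sq_nonneg (n2 ((v' : M) - (v : M)))
      linarith)
    1
    (fun v => by
      show (tr (star (v : M) * (v : M))).re ≤ 1
      rw [← n2_sq]
      have h1 := (n2_le_norm (v : M)).trans (Comp_pi_norm v.2.2.1)
      nlinarith [n2_nonneg (v : M)])
    (fun f hf => by
      have hrefl : ∀ n, Comp_r (f n : M) (f n : M) := fun n => ⟨(f n).2.2.1, by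
        have h : (f n : M) * star (f n : M) * (f n : M) = f n := (f n).2.2.1
        rw [← mul_assoc, h]⟩
      have hmn : ∀ m n, m ≤ n → Comp_r (f m : M) (f n : M) := by
        intro m n hmn
        induction n, hmn using Nat.le_induction with
        | base => exact hrefl m
        | succ n _ ih => exact ih.trans (f m).2.2.1 (hf n)
      have hmono : Monotone (fun n => (tr (star (f n : M) * (f n : M))).re) := by
        intro m n h
        have h1 := (hmn m n h).n2_sub (f m).2.2.1
        have h2 := sq_nonneg (n2 ((f n : M) - (f m : M)))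
        show (tr (star (f m : M) * (f m : M))).re ≤ (tr (star (f n : M) * (f n : M))).re
        linarith
      have hb : BddAbove (Set.range (fun n => (tr (star (f n : M) * (f n : M))).re)) := by
        refine ⟨1, ?_⟩
        rintro _ ⟨n, rfl⟩
        show (tr (star (f n : M) * (f n : M))).re ≤ 1
        rw [← n2_sq]
        have h1 := (n2_le_norm (f n : M)).trans (Comp_pi_norm (f n).2.2.1)
        nlinarith [n2_nonneg (f n : M)]
      have hlim1 := tendsto_atTop_ciSup hmono hb
      obtain ⟨y, -, hy⟩ := complete_ball (fun n => (f n : M)) 1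
        (fun n => Comp_pi_norm (f n).2.2.1) (by
          intro ε hε
          have hc := hlim1.cauchySeq
          rw [Metric.cauchySeq_iff] at hc
          obtain ⟨n₀, h₀⟩ := hc (ε ^ 2) (by positivity)
          refine ⟨n₀, ?_⟩
          have key : ∀ m n : ℕ, n₀ ≤ m → m ≤ n → n2 ((f n : M) - (f m : M)) < ε := by
            intro m n hm hn
            have h1 := (hmn m n hn).n2_sub (f m).2.2.1
            have h2 := h₀ n (hm.trans hn) m hm
            rw [Real.dist_eq] at h2
            have h3 := le_abs_self ((tr (star (f n : M) * (f n : M))).re -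
              (tr (star (f m : M) * (f m : M))).re)
            have h4 : n2 ((f n : M) - (f m : M)) ^ 2 < ε ^ 2 := by
              rw [h1]; exact lt_of_le_of_lt h3 h2
            exact lt_of_pow_lt_pow_left₀ 2 hε.le h4
          intro m n hm hn
          rcases le_total m n with h | h
          · rw [n2_sub_comm]; exact key m n hm h
          · exact key n m hn h)
      have hyS : y ∈ S := hS _ y 1 (fun n => (f n).2.1) (fun n => Comp_pi_norm (f n).2.2.1) hy
      have hyI : IsPI y := by
        have h1 : Tendsto (fun n => n2 ((f n : M) * star (f n : M) * (f n : M) -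
            y * star y * y)) atTop (𝓝 0) := by
          refine n2_lim_mul (C := 1) (fun n => ?_) (n2_lim_mul (C := 1)
            (fun n => Comp_pi_norm (f n).2.2.1) hy (n2_lim_star hy)) hy
          refine (norm_mul_le _ _).trans ?_
          rw [norm_star]
          have h2 := Comp_pi_norm (f n).2.2.1
          nlinarith [norm_nonneg (f n : M)]
        have h2 : ∀ n, (f n : M) * star (f n : M) * (f n : M) = f n := fun n => (f n).2.2.1
        simp_rw [h2] at h1
        exact eq_of_n2_lim h1 hy
      have hyp : p * y = y := by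
        have h1 := n2_lim_mul_left p hy
        have h2 : ∀ n, p * (f n : M) = f n := fun n => (f n).2.2.2.1
        simp_rw [h2] at h1
        exact eq_of_n2_lim h1 hy
      have hyq : y * q = y := by
        have h1 := n2_lim_mul_right q hy
        have h2 : ∀ n, (f n : M) * q = f n := fun n => (f n).2.2.2.2
        simp_rw [h2] at h1
        exact eq_of_n2_lim h1 hy
      refine ⟨⟨y, hyS, hyI, hyp, hyq⟩, fun n => ?_⟩
      show Comp_r (f n : M) y
      constructor
      · have h1 := n2_lim_mul_left ((f n : M) * star (f n : M)) hy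
        have h2 : Tendsto (fun m => n2 ((f n : M) * star (f n : M) * (f m : M) - f n))
            atTop (𝓝 0) := by
          refine tendsto_const_nhds.congr' ?_
          filter_upwards [eventually_ge_atTop n] with m hm
          rw [(hmn n m hm).1, sub_self, n2_zero]
        exact (eq_of_n2_lim h1 h2)
      · have h1 := n2_lim_mul_right (star (f n : M) * (f n : M)) hy
        have h2 : Tendsto (fun m => n2 ((f m : M) * (star (f n : M) * (f n : M)) - f n))
            atTop (𝓝 0) := by
          refine tendsto_const_nhds.congr' ?_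
          filter_upwards [eventually_ge_atTop n] with m hm
          rw [(hmn n m hm).2, sub_self, n2_zero]
        exact (eq_of_n2_lim h1 h2))
    ⟨0, S.zero_mem, by simp [IsPI], by simp, by simp⟩
  refine ⟨v, hvS, hvI, hvp, hvq, ?_⟩
  by_contra hne
  push Not at hne
  obtain ⟨hne1, hne2⟩ := hne
  have hvI' : v * star v * v = v := hvI
  have hvI2 : star v * v * star v = star v := by
    have := congrArg star hvI'
    simpa [mul_assoc] using this
  have hsp : star v * p = star v := by
    have := congrArg star hvp
    rw [StarMul.star_mul, hpp.1] at this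
    exact this
  have hqs : q * star v = star v := by
    have := congrArg star hvq
    rw [StarMul.star_mul, hpq.1] at this
    exact this
  have he : IsProj (p - v * star v) := by
    refine ⟨by rw [star_sub, hpp.1]; simp, ?_⟩
    rw [sub_mul, mul_sub, mul_sub, hpp.2]
    have e1 : p * (v * star v) = v * star v := by rw [← mul_assoc, hvp]
    have e2 : v * star v * p = v * star v := by rw [mul_assoc, hsp]
    have e3 : v * star v * (v * star v) = v * star v := by rw [← mul_assoc, hvI']
    rw [e1, e2, e3]; abel
  have hg : IsProj (q - star v * v) := by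
    refine ⟨by rw [star_sub, hpq.1]; simp, ?_⟩
    rw [sub_mul, mul_sub, mul_sub, hpq.2]
    have e1 : q * (star v * v) = star v * v := by rw [← mul_assoc, hqs]
    have e2 : star v * v * q = star v * v := by rw [mul_assoc, hvq]
    have e3 : star v * v * (star v * v) = star v * v := by rw [← mul_assoc, hvI2]
    rw [e1, e2, e3]; abel
  have heS : p - v * star v ∈ S := sub_mem hp (mul_mem hvS (star_mem hvS))
  have hgS : q - star v * v ∈ S := sub_mem hq (mul_mem (star_mem hvS) hvS)
  obtain ⟨w, hwS, hw0, hwI, hew, hwg⟩ := exists_pi hS hF heS hgS he hg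
    (sub_ne_zero.2 (Ne.symm hne1)) (sub_ne_zero.2 (Ne.symm hne2))
  have hwI' : w * star w * w = w := hwI
  have z1 : star v * w = 0 := by
    rw [← hew, ← mul_assoc, mul_sub, hsp, ← mul_assoc, hvI2, sub_self, zero_mul]
  have z2 : star w * v = 0 := by
    have := congrArg star z1
    simpa using this
  have z3 : w * star v = 0 := by
    rw [← hwg, mul_assoc, sub_mul, hqs, hvI2, sub_self, mul_zero]
  have z4 : v * star w = 0 := by
    have := congrArg star z3
    simpa using this
  have hpw : p * w = w := by
    have e1 : p * (p - v * star v) = p - v * star v := by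
      rw [mul_sub, hpp.2, ← mul_assoc, hvp]
    rw [← hew, ← mul_assoc, e1]
  have hwq : w * q = w := by
    have e1 : (q - star v * v) * q = q - star v * v := by
      rw [sub_mul, hpq.2, mul_assoc, hvq]
    rw [← hwg, mul_assoc, e1]
  have hI : IsPI (v + w) := by
    show (v + w) * star (v + w) * (v + w) = v + w
    rw [star_add, mul_add (v + w), add_mul v w, add_mul v w, z3, z4, add_zero, zero_add,
      mul_add, add_mul, add_mul, hvI', hwI', mul_assoc v, z1, mul_assoc w, z2]
    simp
  have hr : Comp_r v (v + w) := by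
    constructor
    · rw [mul_add, hvI', mul_assoc, z1, mul_zero, add_zero]
    · rw [add_mul, ← mul_assoc, ← mul_assoc, hvI', z3, zero_mul, add_zero]
  have h1 := hmax ⟨v + w, S.add_mem hvS hwS, hI, by rw [mul_add, hvp, hpw],
    by rw [add_mul, hvq, hwq]⟩ hr
  have h2 := hr.n2_sub hvI
  have h3 : v + w - v = w := by abel
  rw [h3] at h2
  have h1' : (tr (star (v + w) * (v + w))).re = (tr (star v * v)).re := h1
  rw [h1', sub_self] at h2
  exact hw0 (n2_eq_zero.1 (pow_eq_zero_iff (two_ne_zero)|>.1 h2))

theorem Comp_pack_aux {S : StarSubalgebra ℂ M} (hS : VNSub S) (hF : IsFac S) {e : M} (he : e ∈ S)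
    (hp : IsProj e) (N : ℕ) : ∀ r ∈ S, IsProj r → (tr r).re < N * (tr e).re →
    ∃ (n : ℕ) (g : Fin n → M), (∀ l, g l ∈ S) ∧ (∀ l, g l * e = g l) ∧ (∀ l, IsPI (g l)) ∧
      (∀ l, r * g l = g l) ∧ (∀ k l, k ≠ l → star (g k) * g l = 0) ∧
      ∑ l, g l * star (g l) = r := by
  induction N with
  | zero =>
    intro r _ hr hlt
    exfalso
    rw [← hr.n2_sq] at hlt
    have := sq_nonneg (n2 r)
    push_cast at hlt
    linarith
  | succ N ih =>
    intro r hrS hr hlt
    obtain ⟨v, hvS, hvI, hrv, hve, hv⟩ := comparison hS hF hrS he hr hp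
    have hvI' : v * star v * v = v := hvI
    have hvI2 : star v * v * star v = star v := by
      have := congrArg star hvI'
      simpa [mul_assoc] using this
    rcases hv with hv | hv
    · refine ⟨1, fun _ => v, fun _ => hvS, fun _ => hve, fun _ => hvI, fun _ => hrv, ?_, ?_⟩
      · intro k l hkl
        exact absurd (Subsingleton.elim k l) hkl
      · simp [hv]
    · have hsr : star v * r = star v := by
        have := congrArg star hrv
        rw [StarMul.star_mul, hr.1] at this
        exact this
      have e1 : r * (v * star v) = v * star v := by rw [← mul_assoc, hrv]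
      have e2 : v * star v * r = v * star v := by rw [mul_assoc, hsr]
      have e3 : v * star v * (v * star v) = v * star v := by rw [← mul_assoc, hvI']
      have hr' : IsProj (r - v * star v) := by
        refine ⟨by rw [star_sub, hr.1]; simp, ?_⟩
        rw [sub_mul, mul_sub, mul_sub, hr.2, e1, e2, e3]; abel
      have htr : (tr (r - v * star v)).re < N * (tr e).re := by
        rw [map_sub, tr_mul_comm v, hv, Complex.sub_re]
        push_cast at hlt
        linarith
      obtain ⟨n, g, h1, h2, h3, h4, h5, h6⟩ := ih (r - v * star v)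
        (sub_mem hrS (mul_mem hvS (star_mem hvS))) hr' htr
      have z1 : ∀ l, star v * g l = 0 := by
        intro l
        rw [← h4 l, ← mul_assoc, mul_sub, hsr, ← mul_assoc, hvI2, sub_self, zero_mul]
      have z2 : ∀ l, star (g l) * v = 0 := by
        intro l
        have := congrArg star (z1 l)
        simpa using this
      refine ⟨n + 1, Fin.cons v g, ?_, ?_, ?_, ?_, ?_, ?_⟩
      · intro l
        refine Fin.cases ?_ (fun l => ?_) l
        · exact hvS
        · exact h1 l
      · intro l
        refine Fin.cases ?_ (fun l => ?_) l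
        · exact hve
        · exact h2 l
      · intro l
        refine Fin.cases ?_ (fun l => ?_) l
        · exact hvI
        · exact h3 l
      · intro l
        refine Fin.cases ?_ (fun l => ?_) l
        · exact hrv
        · show r * g l = g l
          have e4 : r * (r - v * star v) = r - v * star v := by rw [mul_sub, hr.2, e1]
          rw [← h4 l, ← mul_assoc, e4]
      · intro k l
        refine Fin.cases ?_ (fun k => ?_) k
        · refine Fin.cases ?_ (fun l => ?_) l
          · intro h; exact absurd rfl h
          · intro _; exact z1 l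
        · refine Fin.cases ?_ (fun l => ?_) l
          · intro _; exact z2 k
          · intro h
            exact h5 k l (fun h' => h (by rw [h']))
      · rw [Fin.sum_univ_succ]
        simp only [Fin.cons_zero, Fin.cons_succ]
        rw [h6]; abel

theorem packing {S : StarSubalgebra ℂ M} (hS : VNSub S) (hF : IsFac S) {e : M} (he : e ∈ S)
    (hp : IsProj e) (he0 : e ≠ 0) :
    ∃ (n : ℕ) (f : Fin (n + 1) → M), f 0 = e ∧ (∀ l, f l ∈ S) ∧ (∀ l, f l * e = f l) ∧
      (∀ l, IsPI (f l)) ∧ (∀ k l, k ≠ l → star (f k) * f l = 0) ∧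
      ∑ l, f l * star (f l) = 1 := by
  have hpos : 0 < (tr e).re := by
    rw [← hp.n2_sq]
    have h1 : n2 e ≠ 0 := fun h => he0 (n2_eq_zero.1 h)
    positivity
  obtain ⟨N, hN⟩ := exists_nat_gt ((tr (1 - e)).re / (tr e).re)
  rw [div_lt_iff₀ hpos] at hN
  obtain ⟨n, g, h1, h2, h3, h4, h5, h6⟩ := Comp_pack_aux hS hF he hp N (1 - e)
    (S.sub_mem S.one_mem he) hp.one_sub hN
  have z1 : ∀ l, star e * g l = 0 := by
    intro l
    rw [hp.1, ← h4 l, ← mul_assoc, mul_sub, mul_one, hp.2, sub_self, zero_mul]
  have z2 : ∀ l, star (g l) * e = 0 := by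
    intro l
    have := congrArg star (z1 l)
    simpa using this
  refine ⟨n, Fin.cons e g, rfl, ?_, ?_, ?_, ?_, ?_⟩
  · intro l
    refine Fin.cases ?_ (fun l => ?_) l
    · exact he
    · exact h1 l
  · intro l
    refine Fin.cases ?_ (fun l => ?_) l
    · exact hp.2
    · exact h2 l
  · intro l
    refine Fin.cases ?_ (fun l => ?_) l
    · show e * star e * e = e
      rw [hp.1, hp.2, hp.2]
    · exact h3 l
  · intro k l
    refine Fin.cases ?_ (fun k => ?_) k
    · refine Fin.cases ?_ (fun l => ?_) l
      · intro h; exact absurd rfl h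
      · intro _; exact z1 l
    · refine Fin.cases ?_ (fun l => ?_) l
      · intro _; exact z2 k
      · intro h
        exact h5 k l (fun h' => h (by rw [h']))
  · rw [Fin.sum_univ_succ]
    simp only [Fin.cons_zero, Fin.cons_succ]
    rw [h6, hp.1, hp.2]; abel

end Pool.Agent.KUR
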