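import Pool.Agent.KUR.Comp

/-!
# KUR UniK: a unitary inside a full right module

PROOF.  `maximal_principle` on `X = {v ∈ 𝒦 | IsPI v}` with
`r v v' := v * star v * v' = v ∧ v' * (star v * v) = v` and `μ v = (tr (star v * v)).re ≤ 1`
(as in `comparison` of `Comp.lean`: `n2 (v' - v)^2 = μ v' - μ v`, limits stay in `𝒦` by `hcl`).
Let `v` be maximal (start with 0).  Suppose `star v * v ≠ 1`.  By `hfull` there is `x ∈ 𝒦` with
`y := x - v * (star v * x) ≠ 0`; `star v * x ∈ P` by `hKK`, so `y ∈ 𝒦` by `hKP`.  The polar part `w`
of `y` (`polar`): `w ≠ 0`, `star w * w ∈ P` since `star y * y ∈ P`, and `w` is a 2-norm limit of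
`y * b`, `b ∈ P`, so `w ∈ 𝒦` (`hcl`); `star v * y = 0` gives `star v * w = 0` (limits).
The projections `1 - star v * v` and `star w * w` of `P` are nonzero, so `exists_pi` (in `P`, with
`e := star w * w`, `f := 1 - star v * v`) gives `s ∈ P`, `s ≠ 0`, `star w w s = s`,
`s (1 - star v v) = s`, a partial isometry.  `w * s ∈ 𝒦` is a partial isometry with
`star (w s) (w s) = star s s ≤ 1 - star v v`, `star v * (w s) = 0`, so `v + w s ∈ X` is strictly bigger
(`μ` increases by `tr (star s s) > 0`).  Contradiction.  So `star v * v = 1` and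
`isUn_of_star_mul_self` applies.
-/

open Filter Topology

namespace Pool.Agent.KUR

universe u
variable {M : Type u} [CStarAlgebra M] [TVN M]

private theorem uk_star {v : M} (h : IsPI v) : star v * v * star v = star v := by
  have h1 : v * star v * v = v := h
  have h2 := congrArg star h1
  rw [star_mul, star_mul, star_star] at h2
  rw [mul_assoc]; exact h2

private theorem uk_proj {v : M} (h : IsPI v) : IsProj (star v * v) := by
  refine ⟨by rw [star_mul, star_star], ?_⟩
  rw [← mul_assoc, uk_star h]

private theorem uk_norm {v : M} (h : IsPI v) : ‖v‖ ≤ 1 := by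
  have h1 := (uk_proj h).norm_le_one
  rw [CStarRing.norm_star_mul_self] at h1
  nlinarith [norm_nonneg v]

/-- The order relation on partial isometries. -/
private def ukR (v v' : M) : Prop := v * star v * v' = v ∧ v' * (star v * v) = v

private theorem ukR_star {v v' : M} (h : IsPI v) (hr : ukR v v') : star v * v' = star v * v := by
  calc star v * v' = star v * v * star v * v' := by rw [uk_star h]
    _ = star v * (v * star v * v') := by simp only [mul_assoc]
    _ = star v * v := by rw [hr.1]

private theorem ukR_star' {v v' : M} (h : IsPI v) (hr : ukR v v') : star v' * v = star v * v := by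
  have := congrArg star (ukR_star h hr)
  rwa [star_mul, star_mul, star_star] at this

private theorem ukR_refl {v : M} (h : IsPI v) : ukR v v := ⟨h, by rw [← mul_assoc]; exact h⟩

private theorem ukR_trans {x y z : M} (hx : IsPI x) (hy : IsPI y) (hxy : ukR x y)
    (hyz : ukR y z) : ukR x z := by
  have a1 : star x * z = star x * x := by
    calc star x * z = star x * x * star x * z := by rw [uk_star hx]
      _ = star (y * (star x * x)) * z := by rw [hxy.2, uk_star hx]
      _ = star x * x * (star y * z) := by
          rw [star_mul, star_mul, star_star]; simp only [mul_assoc]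
      _ = star x * x * (star y * y) := by rw [ukR_star hy hyz]
      _ = star (y * (star x * x)) * y := by
          rw [star_mul, star_mul, star_star]; simp only [mul_assoc]
      _ = star x * y := by rw [hxy.2]
      _ = star x * x := ukR_star hx hxy
  refine ⟨?_, ?_⟩
  · rw [mul_assoc, a1, ← mul_assoc]; exact hx
  · calc z * (star x * x) = z * (star y * x) := by rw [ukR_star' hx hxy]
      _ = z * (star y * (y * (star x * x))) := by rw [hxy.2]
      _ = z * (star y * y) * (star x * x) := by simp only [mul_assoc]
      _ = y * (star x * x) := by rw [hyz.2]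
      _ = x := hxy.2

private theorem ukR_n2 {v v' : M} (h : IsPI v) (hr : ukR v v') :
    n2 (v' - v) ^ 2 = (tr (star v' * v')).re - (tr (star v * v)).re := by
  have e : star (v' - v) * (v' - v) = star v' * v' - star v * v := by
    rw [star_sub, sub_mul, mul_sub, mul_sub, ukR_star h hr, ukR_star' h hr]; abel
  rw [n2_sq, e, map_sub, Complex.sub_re]

private theorem uk_mu_le {v : M} (h : IsPI v) : (tr (star v * v)).re ≤ 1 := by
  rw [← n2_sq]
  have h1 : n2 v ≤ 1 := (n2_le_norm v).trans (uk_norm h)
  nlinarith [n2_nonneg v]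

theorem exists_unitary (K : Submodule ℂ M)
    (hcl : ∀ (x : ℕ → M) (y : M), (∀ n, x n ∈ K) →
      Tendsto (fun n => n2 (x n - y)) atTop (𝓝 0) → y ∈ K)
    {P : StarSubalgebra ℂ M} (hP : VNSub P) (hF : IsFac P)
    (hKP : ∀ x ∈ K, ∀ p ∈ P, x * p ∈ K) (hKK : ∀ x ∈ K, ∀ y ∈ K, star x * y ∈ P)
    (hfull : ∀ v ∈ K, IsPI v → star v * v ≠ 1 → ∃ x ∈ K, x - v * (star v * x) ≠ 0) :
    ∃ U ∈ K, IsUn U := by
  classical
  have h0 : IsPI (0 : M) := by simp [IsPI]
  obtain ⟨⟨v, hvK, hv⟩, -, hmax⟩ := maximal_principle
    (X := {v : M // v ∈ K ∧ IsPI v}) (fun a b => ukR a.1 b.1) (fun a => ukR_refl a.2.2)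
    (fun a b c hab hbc => ukR_trans a.2.2 b.2.2 hab hbc)
    (fun a => (tr (star a.1 * a.1)).re)
    (fun a b hab => by
      have := ukR_n2 a.2.2 hab
      have h2 := sq_nonneg (n2 (b.1 - a.1))
      linarith)
    1 (fun a => uk_mu_le a.2.2)
    (fun f hf => by
      have hle : ∀ m n, m ≤ n → ukR (f m).1 (f n).1 := by
        intro m n hmn
        induction n, hmn using Nat.le_induction with
        | base => exact ukR_refl (f m).2.2
        | succ n _ ih => exact ukR_trans (f m).2.2 (f n).2.2 ih (hf n)
      set g : ℕ → ℝ := fun n => (tr (star (f n).1 * (f n).1)).re with hg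
      have hmono : Monotone g := by
        intro m n hmn
        have := ukR_n2 (f m).2.2 (hle m n hmn)
        have h2 := sq_nonneg (n2 ((f n).1 - (f m).1))
        simp only [hg]; linarith
      have hbdd : BddAbove (Set.range g) := ⟨1, by
        rintro _ ⟨n, rfl⟩; exact uk_mu_le (f n).2.2⟩
      have hlim := tendsto_atTop_ciSup hmono hbdd
      have hcau : ∀ ε : ℝ, 0 < ε → ∃ n₀ : ℕ, ∀ m n : ℕ, n₀ ≤ m → n₀ ≤ n →
          n2 ((f m).1 - (f n).1) < ε := by
        intro ε hε
        obtain ⟨n₀, h₀⟩ := Metric.cauchySeq_iff.mp hlim.cauchySeq (ε ^ 2) (by positivity)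
        refine ⟨n₀, ?_⟩
        have key : ∀ m n : ℕ, n₀ ≤ m → m ≤ n → n2 ((f n).1 - (f m).1) < ε := by
          intro m n hm hmn
          have h1 := ukR_n2 (f m).2.2 (hle m n hmn)
          have h2 := h₀ n (hm.trans hmn) m hm
          rw [Real.dist_eq] at h2
          have h3 := (abs_lt.mp h2).2
          have h4 : n2 ((f n).1 - (f m).1) ^ 2 < ε ^ 2 := by rw [h1]; exact h3
          exact lt_of_pow_lt_pow_left₀ 2 hε.le h4
        intro m n hm hn
        rcases le_total m n with h | h
        · rw [n2_sub_comm]; exact key m n hm h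
        · exact key n m hn h
      obtain ⟨y, -, hy⟩ := complete_ball (fun n => (f n).1) 1 (fun n => uk_norm (f n).2.2) hcau
      have hyK : y ∈ K := hcl _ y (fun n => (f n).2.1) hy
      have hyPI : IsPI y := by
        have h1 := n2_lim_mul (C := 1) (fun n => uk_norm (f n).2.2) hy (n2_lim_star hy)
        have hb : ∀ n, ‖(f n).1 * star (f n).1‖ ≤ 1 := by
          intro n
          have h2 := uk_norm (f n).2.2
          calc ‖(f n).1 * star (f n).1‖ ≤ ‖(f n).1‖ * ‖star (f n).1‖ := norm_mul_le _ _
            _ ≤ 1 * 1 := by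
                rw [norm_star]
                exact mul_le_mul h2 h2 (norm_nonneg _) zero_le_one
            _ = 1 := one_mul 1
        have h3 := n2_lim_mul hb h1 hy
        refine eq_of_n2_lim h3 ?_
        refine hy.congr (fun n => ?_)
        have : (f n).1 * star (f n).1 * (f n).1 = (f n).1 := (f n).2.2
        rw [this]
      refine ⟨⟨y, hyK, hyPI⟩, fun n => ⟨?_, ?_⟩⟩
      · have h1 := n2_lim_mul_left ((f n).1 * star (f n).1) hy
        have h2 : Tendsto (fun m => n2 ((f n).1 * star (f n).1 * (f m).1 - (f n).1))
            atTop (𝓝 0) := by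
          refine tendsto_const_nhds.congr' ?_
          filter_upwards [eventually_ge_atTop n] with m hm
          rw [(hle n m hm).1, sub_self, n2_zero]
        exact eq_of_n2_lim h1 h2
      · have h1 := n2_lim_mul_right (star (f n).1 * (f n).1) hy
        have h2 : Tendsto (fun m => n2 ((f m).1 * (star (f n).1 * (f n).1) - (f n).1))
            atTop (𝓝 0) := by
          refine tendsto_const_nhds.congr' ?_
          filter_upwards [eventually_ge_atTop n] with m hm
          rw [(hle n m hm).2, sub_self, n2_zero]
        exact eq_of_n2_lim h1 h2)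
    ⟨0, K.zero_mem, h0⟩
  refine ⟨v, hvK, ?_⟩
  by_contra hnU
  have hne : star v * v ≠ 1 := fun h => hnU (isUn_of_star_mul_self h)
  obtain ⟨x, hxK, hy0⟩ := hfull v hvK hv hne
  set y := x - v * (star v * x) with hydef
  have hyK : y ∈ K := K.sub_mem hxK (hKP v hvK _ (hKK v hvK x hxK))
  have hvy : star v * y = 0 := by
    rw [hydef, mul_sub, ← mul_assoc, ← mul_assoc, uk_star hv, sub_self]
  obtain ⟨w, hw, -, hwy, hwP, hwb⟩ := polar y
  have hyy : star y * y ∈ P := hKK y hyK y hyK
  have hwwP := hwP P hP hyy
  obtain ⟨z, hz, hzw⟩ := exists_seq_of_approx (p := fun a : M => ∃ b ∈ P, a = y * b) (x := w)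
    (fun ε hε => by
      obtain ⟨b, hb, -, hb2⟩ := hwb P hP hyy ε hε
      exact ⟨y * b, ⟨b, hb, rfl⟩, by rw [n2_sub_comm]; exact hb2⟩)
  have hwK : w ∈ K := hcl z w (fun n => by
    obtain ⟨b, hb, he⟩ := hz n
    rw [he]; exact hKP y hyK b hb) hzw
  have hvw : star v * w = 0 := by
    have h1 := n2_lim_mul_left (star v) hzw
    refine eq_of_n2_lim h1 ?_
    refine tendsto_const_nhds.congr (fun n => ?_)
    obtain ⟨b, hb, he⟩ := hz n
    rw [he, ← mul_assoc, hvy, zero_mul, sub_self, n2_zero]
  have hwv : star w * v = 0 := by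
    have := congrArg star hvw
    rwa [star_mul, star_star, star_zero] at this
  have hw0 : w ≠ 0 := by
    intro h
    rw [h] at hwy
    simp only [zero_mul] at hwy
    exact hy0 hwy.symm
  have he0 : star w * w ≠ 0 := by
    intro h
    apply hw0
    have h1 : w * star w * w = w := hw
    rw [mul_assoc, h, mul_zero] at h1
    exact h1.symm
  have hvvP : star v * v ∈ P := hKK v hvK v hvK
  obtain ⟨s, hsP, hs0, hs, hes, hsf⟩ := exists_pi hP hF (e := star w * w) (f := 1 - star v * v)
    hwwP (P.sub_mem P.one_mem hvvP) (uk_proj hw) (uk_proj hv).one_sub he0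
    (fun h => hne (sub_eq_zero.mp h).symm)
  have hsv : s * (star v * v) = 0 := by
    rw [mul_sub, mul_one, sub_eq_self] at hsf
    exact hsf
  have hvs : v * star s = 0 := by
    have h1 := congrArg star hsv
    rw [star_mul, star_mul, star_star, star_zero] at h1
    have h2 : v * star v * v = v := hv
    calc v * star s = v * star v * v * star s := by rw [h2]
      _ = v * (star v * v * star s) := by simp only [mul_assoc]
      _ = 0 := by rw [h1, mul_zero]
  have hmm : star (v + w * s) * (v + w * s) = star v * v + star s * s := by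
    rw [star_add, star_mul, add_mul, mul_add, mul_add]
    have h1 : star v * (w * s) = 0 := by rw [← mul_assoc, hvw, zero_mul]
    have h2 : star s * star w * v = 0 := by rw [mul_assoc, hwv, mul_zero]
    have h3 : star s * star w * (w * s) = star s * s := by
      calc star s * star w * (w * s) = star s * (star w * w * s) := by simp only [mul_assoc]
        _ = star s * s := by rw [hes]
    rw [h1, h2, h3, add_zero, zero_add]
  have hss : s * star s * s = s := hs
  have hPI : IsPI (v + w * s) := by
    show (v + w * s) * star (v + w * s) * (v + w * s) = v + w * s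
    rw [mul_assoc, hmm, add_mul, mul_add, mul_add]
    have h1 : v * (star v * v) = v := by rw [← mul_assoc]; exact hv
    have h2 : v * (star s * s) = 0 := by rw [← mul_assoc, hvs, zero_mul]
    have h3 : w * s * (star v * v) = 0 := by rw [mul_assoc, hsv, mul_zero]
    have h4 : w * s * (star s * s) = w * s := by
      calc w * s * (star s * s) = w * (s * star s * s) := by simp only [mul_assoc]
        _ = w * s := by rw [hss]
    rw [h1, h2, h3, h4, add_zero, zero_add]
  have hr : ukR v (v + w * s) := by
    refine ⟨?_, ?_⟩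
    · have h1 : v * star v * (w * s) = 0 := by
        calc v * star v * (w * s) = v * (star v * w) * s := by simp only [mul_assoc]
          _ = 0 := by rw [hvw, mul_zero, zero_mul]
      rw [mul_add, h1, add_zero]; exact hv
    · have h1 : v * (star v * v) = v := by rw [← mul_assoc]; exact hv
      rw [add_mul, h1, mul_assoc, hsv, mul_zero, add_zero]
  have hfin := hmax ⟨v + w * s, K.add_mem hvK (hKP w hwK s hsP), hPI⟩ hr
  simp only [hmm, map_add, Complex.add_re] at hfin
  have h5 : (tr (star s * s)).re = 0 := by linarith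
  rw [← n2_sq] at h5
  exact hs0 (n2_eq_zero.mp (pow_eq_zero_iff (two_ne_zero) |>.mp h5))

end Pool.Agent.KUR
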