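import Pool.Agent.KUR.TT
import Pool.Agent.KUR.UniK

/-!
# KUR CoreD: from the unitary intertwiner at time 1 to a conjugating unitary in `MM P`

PROOF.  `tt_ne_zero` gives `j` and `x₀` with `T x₀ ≠ 0`, `T = Tm P s θ W j`.
Let `K` be the set of all `y : M` that are 2-norm limits of sequences from `{T x | x ∈ MM P}`
(a linear subspace of `M`: `T` is linear; closed under 2-norm limits of sequences, `hcl` of
`exists_unitary`).  Properties:
 * `K ⊆ MM P` is not automatic by boundedness; but `ce (MM P) y = y` for `y ∈ K` since `ce` is 2-norm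
   continuous and `ce (T x) = T x`; so `y ∈ MM P`.
 * `T (x * p) = T x * p` for `p ∈ P j`: `θ 1 (x p) s_j = θ 1 x * (s_j p s_j) * s_j = θ 1 x s_j p`
   (`IsTheta.one_onP`, `h.sq`), and `ce` is right `MM P`-modular.  So `K * P j ⊆ K`.
 * `ι q * T x = T (ι q * x)`: `ι q * (W θ 1 x s_j) = W θ 1 (ι q) θ 1 x s_j` and `ι q ∈ MM P`
   (`ce_mul_left`).  So `ι q * K ⊆ K`.
 * `star x * y ∈ P j` for `x, y ∈ K`: for `T x, T y` it is `tt_main`.  In general, with
   `E_j = ce (P j)`: `tr (m * star x * y) = 0` for all `m` with `E_j m = 0`, by 2-norm continuity of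
   `(x, y) ↦ tr (m * star x * y)` separately (`norm_tr_mul_le'`, `n2_mul_le'`) [for `T x, T y`:
   `star (T x) T y ∈ P j`, `tr (m c) = tr (E_j m c) = 0`]; then with `c = star x * y`,
   `m = star (c - E_j c)` one gets `c = E_j c ∈ P j`.
 * fullness: let `v ∈ K` be a partial isometry with `star v * v ≠ 1` and suppose
   `x = v * (star v * x)` for all `x ∈ K`.  `e := v * star v`; `e ≠ 0` since `T x₀ ≠ 0`.  For a unitary
   `u : Q`: `ι u * v ∈ K`, so `e * ι u * v = ι u * v`, hence with `f = star (ι u) * e * ι u`: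
   `f * v = v`, `f * e = e`; `f - e` is then a projection of trace 0, so `f = e`.  So `e` commutes
   with `ι u` for all unitaries `u` of `Q`, hence with `ι Q` (`commute_of_unitaries` applied to
   `ι.range`, or `eq_of_unitaries`), so `e = c • 1` by `hirr`, `e = 1` as it is a nonzero projection,
   `tr (star v * v) = tr e = 1`, so `star v * v = 1` (a projection of trace 1).  Contradiction.
`exists_unitary` gives `U ∈ K` unitary; `star U * (ι q * U) ∈ P j` since `ι q * U ∈ K`.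
-/

open Filter Topology

namespace Pool.Agent.KUR

universe u
variable {M : Type u} [CStarAlgebra M] [TVN M] {J : Type*}

/-- The closure of a submodule under 2-norm limits of sequences. -/
noncomputable def seqCl (V : Submodule ℂ M) : Submodule ℂ M where
  carrier := {y | ∃ x : ℕ → M, (∀ n, x n ∈ V) ∧ Tendsto (fun n => n2 (x n - y)) atTop (𝓝 0)}
  zero_mem' := ⟨fun _ => 0, fun _ => V.zero_mem, by simp [n2_zero]⟩
  add_mem' := by
    rintro a b ⟨x, hx, hxa⟩ ⟨y, hy, hyb⟩
    exact ⟨fun n => x n + y n, fun n => V.add_mem (hx n) (hy n), n2_lim_add hxa hyb⟩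
  smul_mem' := by
    rintro c a ⟨x, hx, hxa⟩
    exact ⟨fun n => c • x n, fun n => V.smul_mem c (hx n), n2_lim_smul c hxa⟩

theorem mem_seqCl {V : Submodule ℂ M} {y : M} :
    y ∈ seqCl V ↔ ∃ x : ℕ → M, (∀ n, x n ∈ V) ∧ Tendsto (fun n => n2 (x n - y)) atTop (𝓝 0) :=
  Iff.rfl

theorem mem_seqCl_of_mem {V : Submodule ℂ M} {y : M} (hy : y ∈ V) : y ∈ seqCl V :=
  mem_seqCl.mpr ⟨fun _ => y, fun _ => hy, by simp [n2_zero]⟩

theorem seqCl_closed {V : Submodule ℂ M} (x : ℕ → M) (y : M) (hx : ∀ n, x n ∈ seqCl V)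
    (hy : Tendsto (fun n => n2 (x n - y)) atTop (𝓝 0)) : y ∈ seqCl V := by
  rw [mem_seqCl]
  refine exists_seq_of_approx (p := fun z => z ∈ V) (fun ε hε => ?_)
  obtain ⟨n, hn⟩ := ((tendsto_order.mp hy).2 (ε / 2) (by linarith)).exists
  obtain ⟨z, hz, hzt⟩ := mem_seqCl.mp (hx n)
  obtain ⟨m, hm⟩ := ((tendsto_order.mp hzt).2 (ε / 2) (by linarith)).exists
  refine ⟨z m, hz m, ?_⟩
  calc n2 (y - z m) ≤ n2 (y - x n) + n2 (x n - z m) := n2_sub_le_sub _ _ _
    _ < ε := by rw [n2_sub_comm y (x n), n2_sub_comm (x n) (z m)]; linarith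

theorem seqCl_mul_right {V : Submodule ℂ M} {a : M} (h : ∀ v ∈ V, v * a ∈ V) {y : M}
    (hy : y ∈ seqCl V) : y * a ∈ seqCl V := by
  obtain ⟨x, hx, hxy⟩ := mem_seqCl.mp hy
  exact mem_seqCl.mpr ⟨fun n => x n * a, fun n => h _ (hx n), n2_lim_mul_right a hxy⟩

theorem seqCl_mul_left {V : Submodule ℂ M} {a : M} (h : ∀ v ∈ V, a * v ∈ V) {y : M}
    (hy : y ∈ seqCl V) : a * y ∈ seqCl V := by
  obtain ⟨x, hx, hxy⟩ := mem_seqCl.mp hy
  exact mem_seqCl.mpr ⟨fun n => a * x n, fun n => h _ (hx n), n2_lim_mul_left a hxy⟩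

/-- An element orthogonal to everything orthogonal to `S` lies in `S`. -/
theorem mem_of_orth {S : StarSubalgebra ℂ M} (hS : VNSub S) {c : M}
    (h : ∀ m : M, (∀ z ∈ S, tr (m * z) = 0) → tr (m * c) = 0) : c ∈ S := by
  have h1 : ∀ z ∈ S, tr (star (c - ce S c) * z) = 0 := by
    intro z hz
    have h2 : tr (star z * (c - ce S c)) = 0 := by
      rw [mul_sub, map_sub, tr_mul_ce hS c (star_mem hz), sub_self]
    have h3 := tr_star (star z * (c - ce S c))
    rw [star_mul, star_star, h2, map_zero] at h3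
    exact h3
  have h4 : tr (star (c - ce S c) * (c - ce S c)) = 0 := by
    rw [mul_sub, map_sub, h _ h1, h1 _ (ce_mem hS c), sub_self]
  have h5 := sub_eq_zero.mp (TVN.faithful _ h4)
  rw [h5]; exact ce_mem hS c

theorem seqCl_star_mul {V : Submodule ℂ M} {S : StarSubalgebra ℂ M} (hS : VNSub S)
    (h : ∀ v ∈ V, ∀ w ∈ V, star v * w ∈ S) {x y : M} (hx : x ∈ seqCl V) (hy : y ∈ seqCl V) :
    star x * y ∈ S := by
  refine mem_of_orth hS (fun m hm => ?_)
  obtain ⟨a, ha, hax⟩ := mem_seqCl.mp hx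
  obtain ⟨b, hb, hby⟩ := mem_seqCl.mp hy
  have h1 : ∀ w ∈ V, tr (m * (star x * w)) = 0 := by
    intro w hw
    have h2 := tr_lim (n2_lim_mul_left m (n2_lim_mul_right w (n2_lim_star hax)))
    have h3 : (fun n => tr (m * (star (a n) * w))) = fun _ => (0 : ℂ) := by
      funext n; exact hm _ (h _ (ha n) _ hw)
    rw [h3] at h2
    exact (tendsto_nhds_unique h2 tendsto_const_nhds)
  have h2 := tr_lim (n2_lim_mul_left m (n2_lim_mul_left (star x) hby))
  have h3 : (fun n => tr (m * (star x * b n))) = fun _ => (0 : ℂ) := by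
    funext n; exact h1 _ (hb n)
  rw [h3] at h2
  exact (tendsto_nhds_unique h2 tendsto_const_nhds)

theorem seqCl_mem {V : Submodule ℂ M} {S : StarSubalgebra ℂ M} (hS : VNSub S)
    (h : ∀ v ∈ V, v ∈ S) {x : M} (hx : x ∈ seqCl V) : x ∈ S := by
  refine mem_of_orth hS (fun m hm => ?_)
  obtain ⟨a, ha, hax⟩ := mem_seqCl.mp hx
  have h2 := tr_lim (n2_lim_mul_left m hax)
  have h3 : (fun n => tr (m * a n)) = fun _ => (0 : ℂ) := by
    funext n; exact hm _ (h _ (ha n))
  rw [h3] at h2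
  exact (tendsto_nhds_unique h2 tendsto_const_nhds)

theorem one_ne_zero_tvn : (1 : M) ≠ 0 := by
  intro h0
  have h1 := tr_one' (M := M)
  rw [h0, map_zero] at h1
  exact zero_ne_one h1

/-- Fullness of the module. -/
theorem full_aux {Q : Type u} [CStarAlgebra Q] [TVN Q] (ι : Q →⋆ₐ[ℂ] M) (hι : TrPres ι)
    (hirr : ∀ y : M, (∀ x, y * ι x = ι x * y) → ∃ c : ℂ, y = c • (1 : M))
    (K : Submodule ℂ M) (hK0 : ∃ x ∈ K, x ≠ 0) (hQK : ∀ q, ∀ x ∈ K, ι q * x ∈ K) :
    ∀ v ∈ K, IsPI v → star v * v ≠ 1 → ∃ x ∈ K, x - v * (star v * x) ≠ 0 := by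
  intro v hv hpi hne
  by_contra hcon
  push Not at hcon
  obtain ⟨e, he⟩ : ∃ e, e = v * star v := ⟨_, rfl⟩
  have hcon' : ∀ x ∈ K, e * x = x := by
    intro x hx
    have := sub_eq_zero.mp (hcon x hx)
    rw [he, mul_assoc]; exact this.symm
  have hse : star e = e := by rw [he, star_mul, star_star]
  have hee : e * e = e := by
    have : e * e = v * star v * v * star v := by rw [he]; simp only [mul_assoc]
    rw [this, hpi, he]
  obtain ⟨x₀, hx₀, hx₀n⟩ := hK0
  have hcomm : ∀ u ∈ ι.range, IsUn u → u * e = e * u := by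
    intro u hu huu
    obtain ⟨q, rfl⟩ := hu
    have huu1 : star (ι q) * ι q = 1 := huu.1
    have huu2 : ι q * star (ι q) = 1 := huu.2
    have h1 : e * (ι q * v) = ι q * v := hcon' _ (hQK q v hv)
    obtain ⟨f, hf⟩ : ∃ f, f = star (ι q) * e * ι q := ⟨_, rfl⟩
    have hsf : star f = f := by
      rw [hf, star_mul, star_mul, star_star, hse, mul_assoc]
    have hff : f * f = f := by
      have : f * f = star (ι q) * e * (ι q * star (ι q)) * e * ι q := by
        rw [hf]; simp only [mul_assoc]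
      rw [this, huu2, mul_one]
      have : star (ι q) * e * e * ι q = star (ι q) * (e * e) * ι q := by simp only [mul_assoc]
      rw [this, hee, hf]
    have hfe : f * e = e := by
      have h2 : f * v = v := by
        have : f * v = star (ι q) * (e * (ι q * v)) := by rw [hf]; simp only [mul_assoc]
        rw [this, h1, ← mul_assoc, huu1, one_mul]
      calc f * e = f * v * star v := by rw [he, mul_assoc]
        _ = e := by rw [h2, he]
    have hef : e * f = e := by
      have := congrArg star hfe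
      rwa [star_mul, hse, hsf] at this
    have hs : star (f - e) = f - e := by rw [star_sub, hsf, hse]
    have hd : (f - e) * (f - e) = f - e := by
      rw [sub_mul, mul_sub, mul_sub, hff, hfe, hef, hee]; abel
    have htr : tr (f - e) = 0 := by
      rw [map_sub, hf, mul_assoc, tr_mul_comm, mul_assoc, huu2, mul_one, sub_self]
    have h0 : f - e = 0 := by
      apply TVN.faithful
      rw [hs, hd]; exact htr
    have hfe' : f = e := sub_eq_zero.mp h0
    calc ι q * e = ι q * (star (ι q) * e * ι q) := by rw [← hf, hfe']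
      _ = ι q * star (ι q) * e * ι q := by simp only [mul_assoc]
      _ = e * ι q := by rw [huu2, one_mul]
  have hc2 := commute_of_unitaries hι.vnSub_range hcomm
  obtain ⟨c, hc⟩ := hirr e (fun x => (hc2 (ι x) ⟨x, rfl⟩).symm)
  have hc3 : c * c = c := by
    have h1 : (c * c - c) • (1 : M) = 0 := by
      have := hee
      rw [hc, smul_mul_smul_comm, mul_one] at this
      rw [sub_smul, this, sub_self]
    rcases smul_eq_zero.mp h1 with h2 | h2
    · exact sub_eq_zero.mp h2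
    · exact absurd h2 one_ne_zero_tvn
  have he0 : e ≠ 0 := by
    intro h0
    have := hcon' x₀ hx₀
    rw [h0, zero_mul] at this
    exact hx₀n this.symm
  have hc0 : c ≠ 0 := by
    rintro rfl
    rw [zero_smul] at hc
    exact he0 hc
  have hc1 : c = 1 := by
    have : c * (c - 1) = 0 := by rw [mul_sub, hc3, mul_one, sub_self]
    rcases mul_eq_zero.mp this with h2 | h2
    · exact absurd h2 hc0
    · exact sub_eq_zero.mp h2
  have he1 : v * star v = 1 := by rw [← he, hc, hc1, one_smul]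
  have hu : IsUn (star v) := isUn_of_star_mul_self (by rw [star_star]; exact he1)
  have := hu.2
  rw [star_star] at this
  exact hne this

theorem core_dil {P : J → StarSubalgebra ℂ M} {s : J → M} (h : Dil P s)
    (hfac : ∀ j, IsFac (P j)) {θ : ℝ → (M →⋆ₐ[ℂ] M)} (hθ : IsTheta P s θ)
    {Q : Type u} [CStarAlgebra Q] [TVN Q] (ι : Q →⋆ₐ[ℂ] M) (hι : TrPres ι)
    (hιM : ∀ x, ι x ∈ MM P) (hirr : ∀ y : M, (∀ x, y * ι x = ι x * y) → ∃ c : ℂ, y = c • (1 : M))
    {W : M} (hW : IsUn W) (hint : ∀ x, ι x * W = W * θ 1 (ι x))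
    (hH : InCl (H0span P s θ) W) :
    ∃ j, ∃ U ∈ MM P, IsUn U ∧ ∀ x, star U * ι x * U ∈ P j := by
  have hW0 : W ≠ 0 := by
    rintro rfl
    have := hW.1
    rw [mul_zero] at this
    exact one_ne_zero_tvn this.symm
  obtain ⟨j, x₀, hx₀, hne⟩ := tt_ne_zero h hθ hW0 hH
  have hMM : VNSub (MM P) := vnSub_vnGen _
  have hPM : ∀ p ∈ P j, p ∈ MM P := fun p hp =>
    subset_vnGen _ (Set.mem_iUnion.mpr ⟨j, hp⟩)
  have Tadd : ∀ x y, Tm P s θ W j (x + y) = Tm P s θ W j x + Tm P s θ W j y := by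
    intro x y
    simp only [Tm, map_add, mul_add, add_mul]
  have Tsmul : ∀ (c : ℂ) x, Tm P s θ W j (c • x) = c • Tm P s θ W j x := by
    intro c x
    simp only [Tm, map_smul, mul_smul_comm, smul_mul_assoc]
  have Tzero : Tm P s θ W j 0 = 0 := by
    simp only [Tm, map_zero, mul_zero, zero_mul]
  have Tright : ∀ x, ∀ p ∈ P j, Tm P s θ W j (x * p) = Tm P s θ W j x * p := by
    intro x p hp
    have e1 : W * θ 1 (x * p) * s j = W * θ 1 x * s j * p := by
      rw [map_mul, hθ.one_onP h j hp]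
      have : W * (θ 1 x * (s j * p * s j)) * s j = W * θ 1 x * s j * p * (s j * s j) := by
        simp only [mul_assoc]
      rw [this, h.sq j, mul_one]
    rw [Tm, e1, ce_mul_right hMM _ (hPM p hp)]
    rfl
  have Tleft : ∀ q x, Tm P s θ W j (ι q * x) = ι q * Tm P s θ W j x := by
    intro q x
    have e1 : W * θ 1 (ι q * x) * s j = ι q * (W * θ 1 x * s j) := by
      rw [map_mul]
      have : W * (θ 1 (ι q) * θ 1 x) * s j = (W * θ 1 (ι q)) * θ 1 x * s j := by
        simp only [mul_assoc]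
      rw [this, ← hint q]
      simp only [mul_assoc]
    rw [Tm, e1, ce_mul_left hMM _ (hιM q)]
    rfl
  let V : Submodule ℂ M :=
    { carrier := {z | ∃ x ∈ MM P, Tm P s θ W j x = z}
      zero_mem' := ⟨0, zero_mem _, Tzero⟩
      add_mem' := by
        rintro a b ⟨x, hx, rfl⟩ ⟨y, hy, rfl⟩
        exact ⟨x + y, add_mem hx hy, Tadd x y⟩
      smul_mem' := by
        rintro c a ⟨x, hx, rfl⟩
        exact ⟨c • x, (MM P).smul_mem hx c, Tsmul c x⟩ }
  have hV : ∀ z, z ∈ V ↔ ∃ x ∈ MM P, Tm P s θ W j x = z := fun z => Iff.rfl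
  have hTV : ∀ x ∈ MM P, Tm P s θ W j x ∈ V := fun x hx => ⟨x, hx, rfl⟩
  have hQK : ∀ q, ∀ x ∈ seqCl V, ι q * x ∈ seqCl V := by
    intro q x hx
    refine seqCl_mul_left (fun v hv => ?_) hx
    obtain ⟨y, hy, rfl⟩ := hv
    rw [← Tleft]
    exact hTV _ (mul_mem (hιM q) hy)
  have hKK : ∀ x ∈ seqCl V, ∀ y ∈ seqCl V, star x * y ∈ P j := by
    intro x hx y hy
    refine seqCl_star_mul (h.vn j) (fun v hv w hw => ?_) hx hy
    obtain ⟨a, ha, rfl⟩ := hv
    obtain ⟨b, hb, rfl⟩ := hw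
    exact tt_main h hθ hW hH j ha hb
  have hKP : ∀ x ∈ seqCl V, ∀ p ∈ P j, x * p ∈ seqCl V := by
    intro x hx p hp
    refine seqCl_mul_right (fun v hv => ?_) hx
    obtain ⟨y, hy, rfl⟩ := hv
    rw [← Tright _ _ hp]
    exact hTV _ (mul_mem hy (hPM p hp))
  obtain ⟨U, hUK, hU⟩ := exists_unitary (seqCl V) seqCl_closed (h.vn j) (hfac j) hKP hKK
    (full_aux ι hι hirr (seqCl V) ⟨_, mem_seqCl_of_mem (hTV x₀ hx₀), hne⟩ hQK)
  refine ⟨j, U, seqCl_mem hMM (fun v hv => ?_) hUK, hU, fun x => ?_⟩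
  · obtain ⟨y, hy, rfl⟩ := hv
    exact ce_mem hMM _
  · rw [mul_assoc]
    exact hKK _ hUK _ (hQK x _ hUK)

end Pool.Agent.KUR
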