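import Pool.Agent.KUR.Basic2

/-!
# KUR Kap: Kaplansky density in a tracial von Neumann algebra

PROOF.  (1) For a star subalgebra `S` let `Sbar` be the set of `x : M` with: for all eps > 0 there is
`y` in `S` with `n2 (x - y) < eps`.  `Sbar` is a star subalgebra: for products `x * x'` first choose
`s'` in `S` with `‖x‖ * n2 (x' - s') < eps / 2`, then `s` in `S` with `n2 (x - s) * ‖s'‖ < eps / 2`
(`n2_mul_le`, `n2_mul_le'`).  It contains `S` and it is norm closed since `n2 ≤ ‖ ‖`
(`n2_le_norm`).  In fact it is even closed under arbitrary 2-norm limits, so `VNSub Sbar`.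

(2) Kaplansky.  We may assume `‖x‖ ≤ 1` after scaling (the case x = 0 is trivial, y = 0); put
`h = star x * x` (0 ≤ h ≤ 1) and `y = x * (1 + sqrt (1 - h))⁻¹`, which lies in `Sbar` since
`(1 + sqrt (1 - h))⁻¹ = cfc (fun t => 1 / (1 + Real.sqrt (1 - t))) h` lies in every norm closed star
subalgebra containing `h` (for instance `cfc_mem`-type lemmas / `StarAlgebra.elemental`, or
approximate the continuous function by polynomials).
Then `star y * y = cfc (fun t => t / (1 + Real.sqrt (1-t))^2) h = cfc ((1-√)/(1+√))` and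
`2 • y * (1 + star y * y)⁻¹ = x`.
For any `z : M` put `F z = 2 • z * (1 + star z * z)⁻¹` (the element `1 + star z * z` is invertible).
One has `‖F z‖ ≤ 1` (`star (F z) * F z = cfc (fun t => 4 t / (1+t)^2) (star z * z) ≤ 1`), and with
`A = (1 + star z * z)⁻¹`, `B = (1 + star y * y)⁻¹`
  `z * A - y * B = z * (A - B) + (z - y) * B`,
  `A - B = A * (star y - star z) * y * B + A * star z * (y - z) * B`,
and `‖B‖ ≤ 1`, `‖z * A‖ ≤ 1/2`, `‖y * B‖ ≤ 1/2`, `‖z * A * star z‖ ≤ 1`; hence
  `n2 (F z - F y) ≤ 5 * n2 (z - y)`  (use `n2_mul_le`, `n2_mul_le'`, `n2_star`).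
Now pick `z` in `S` with `n2 (z - y)` small; `F z` lies in the norm closure of `S`
(`StarSubalgebra.topologicalClosure`; inverses via `cfc`/spectral permanence or the Neumann
series, or again cfc of `star z * z`), so some `s` in `S` is norm close to `F z`.

(3) `mem_vnGen_iff`: the set on the right is a von Neumann subalgebra containing `X` by (1), so it
contains `vnGen X` (`vnGen_le`).  Conversely if `x` is a 2-norm limit of elements of
`StarAlgebra.adjoin ℂ X` then by (2) it is a 2-norm limit of a norm bounded sequence in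
`StarAlgebra.adjoin ℂ X ≤ vnGen X`, so `x ∈ vnGen X` by `vnSub_vnGen`.
-/

open Filter Topology

namespace Pool.Agent.KUR

universe u
variable {M : Type u} [CStarAlgebra M] [TVN M]

/-- The 2-norm closure of a star subalgebra. -/
def kapBar (S : StarSubalgebra ℂ M) : StarSubalgebra ℂ M where
  carrier := {x | ∀ ε : ℝ, 0 < ε → ∃ y ∈ S, n2 (x - y) < ε}
  mul_mem' := by
    intro x x' hx hx' ε hε
    have h1 : 0 < ε / 2 / (‖x‖ + 1) := by positivity
    obtain ⟨s', hs', hs1⟩ := hx' _ h1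
    have h2 : 0 < ε / 2 / (‖s'‖ + 1) := by positivity
    obtain ⟨s, hs, hs2⟩ := hx _ h2
    refine ⟨s * s', mul_mem hs hs', ?_⟩
    have e : x * x' - s * s' = x * (x' - s') + (x - s) * s' := by
      rw [mul_sub, sub_mul]; abel
    rw [e]
    have b1 : n2 (x * (x' - s')) < ε / 2 := by
      calc n2 (x * (x' - s')) ≤ ‖x‖ * n2 (x' - s') := n2_mul_le _ _
        _ ≤ (‖x‖ + 1) * n2 (x' - s') := by
            have := n2_nonneg (x' - s')
            nlinarith
        _ < (‖x‖ + 1) * (ε / 2 / (‖x‖ + 1)) := by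
            apply mul_lt_mul_of_pos_left hs1
            positivity
        _ = ε / 2 := by field_simp
    have b2 : n2 ((x - s) * s') < ε / 2 := by
      calc n2 ((x - s) * s') ≤ n2 (x - s) * ‖s'‖ := n2_mul_le' _ _
        _ ≤ n2 (x - s) * (‖s'‖ + 1) := by
            have := n2_nonneg (x - s)
            nlinarith
        _ < (ε / 2 / (‖s'‖ + 1)) * (‖s'‖ + 1) := by
            apply mul_lt_mul_of_pos_right hs2
            positivity
        _ = ε / 2 := by field_simp
    have := n2_add_le (x * (x' - s')) ((x - s) * s')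
    linarith
  add_mem' := by
    intro x x' hx hx' ε hε
    obtain ⟨s, hs, hs1⟩ := hx (ε / 2) (by linarith)
    obtain ⟨s', hs', hs2⟩ := hx' (ε / 2) (by linarith)
    refine ⟨s + s', add_mem hs hs', ?_⟩
    rw [add_sub_add_comm]
    have := n2_add_le (x - s) (x' - s')
    linarith
  algebraMap_mem' := by
    intro c ε hε
    refine ⟨algebraMap ℂ M c, algebraMap_mem S c, ?_⟩
    rw [sub_self, n2_zero]
    exact hε
  star_mem' := by
    intro x hx ε hε
    obtain ⟨s, hs, hs1⟩ := hx ε hε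
    refine ⟨star s, star_mem hs, ?_⟩
    rw [← star_sub, n2_star]
    exact hs1

theorem mem_kapBar {S : StarSubalgebra ℂ M} {x : M} :
    x ∈ kapBar S ↔ ∀ ε : ℝ, 0 < ε → ∃ y ∈ S, n2 (x - y) < ε := Iff.rfl

theorem le_kapBar (S : StarSubalgebra ℂ M) : S ≤ kapBar S := by
  intro x hx ε hε
  refine ⟨x, hx, ?_⟩
  rw [sub_self, n2_zero]
  exact hε

theorem vnSub_kapBar (S : StarSubalgebra ℂ M) : VNSub (kapBar S) := by
  intro x y C hx _ ht ε hε
  obtain ⟨n, hn⟩ := ((Metric.tendsto_atTop.mp ht) (ε / 2) (by linarith))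
  have h1 := hn n le_rfl
  rw [Real.dist_eq, sub_zero, abs_of_nonneg (n2_nonneg _)] at h1
  obtain ⟨s, hs, hs1⟩ := hx n (ε / 2) (by linarith)
  refine ⟨s, hs, ?_⟩
  have h2 := n2_sub_le_sub y (x n) s
  rw [n2_sub_comm y (x n)] at h2
  linarith

/-- `(1 + z^* z)^{-1}` -/
private noncomputable def kapA (z : M) : M := cfc (fun t : ℝ => (1 + t)⁻¹) (star z * z)

private theorem kap_spec (z : M) : ∀ t ∈ spectrum ℝ (star z * z), 0 ≤ t := by
  let _ : PartialOrder M := CStarAlgebra.spectralOrder M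
  have _ : StarOrderedRing M := CStarAlgebra.spectralOrderedRing M
  exact spectrum_star_mul_self_nonneg

private theorem kap_sa (z : M) : IsSelfAdjoint (star z * z) := IsSelfAdjoint.star_mul_self z

private theorem kap_cont {f : ℝ → ℝ} (z : M) (hf : ContinuousOn f (Set.Ici 0)) :
    ContinuousOn f (spectrum ℝ (star z * z)) :=
  hf.mono fun t ht => kap_spec z t ht

private theorem kap_mul {f g k : ℝ → ℝ} (z : M) (hf : ContinuousOn f (Set.Ici 0))
    (hg : ContinuousOn g (Set.Ici 0)) (h : ∀ t : ℝ, 0 ≤ t → f t * g t = k t) :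
    cfc f (star z * z) * cfc g (star z * z) = cfc k (star z * z) := by
  rw [← cfc_mul f g (star z * z) (kap_cont z hf) (kap_cont z hg)]
  exact cfc_congr fun t ht => h t (kap_spec z t ht)

private theorem kap_self (z : M) : star z * z = cfc (fun t : ℝ => t) (star z * z) :=
  (cfc_id' ℝ (star z * z) (kap_sa z)).symm

private theorem kap_one (z : M) : (1 : M) = cfc (fun _ : ℝ => 1) (star z * z) :=
  (cfc_const_one ℝ (star z * z) (kap_sa z)).symm

private theorem kap_contA : ContinuousOn (fun t : ℝ => (1 + t)⁻¹) (Set.Ici 0) := by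
  refine ContinuousOn.inv₀ (by fun_prop) fun t ht => ?_
  have : (0 : ℝ) ≤ t := ht
  positivity

private theorem kap_one_add (z : M) : 1 + star z * z = cfc (fun t : ℝ => 1 + t) (star z * z) := by
  rw [cfc_const_add (1 : ℝ) (fun t : ℝ => t) (star z * z) (by fun_prop) (kap_sa z), ← kap_self]
  simp

private theorem kapA_mul (z : M) : kapA z * (1 + star z * z) = 1 := by
  rw [kap_one_add, kapA, kap_mul z kap_contA (k := fun _ => 1) (by fun_prop), ← kap_one]
  intro t ht
  have : (1 : ℝ) + t ≠ 0 := by positivity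
  field_simp

private theorem mul_kapA (z : M) : (1 + star z * z) * kapA z = 1 := by
  rw [kap_one_add, kapA, kap_mul z (k := fun _ => 1) (by fun_prop) kap_contA, ← kap_one]
  intro t ht
  have : (1 : ℝ) + t ≠ 0 := by positivity
  field_simp

private theorem kapA_sa (z : M) : star (kapA z) = kapA z :=
  cfc_predicate (fun t : ℝ => (1 + t)⁻¹) (star z * z)

private theorem kapA_norm (z : M) : ‖kapA z‖ ≤ 1 := by
  refine norm_cfc_le zero_le_one fun t ht => ?_
  have h := kap_spec z t ht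
  rw [Real.norm_eq_abs, abs_of_nonneg (by positivity)]
  exact inv_le_one_of_one_le₀ (by linarith)

private theorem kapA_norm' (z : M) : ‖z * kapA z‖ ≤ 1 / 2 := by
  have h1 : star (z * kapA z) * (z * kapA z) =
      cfc (fun t : ℝ => t / (1 + t) ^ 2) (star z * z) := by
    have e : star (z * kapA z) * (z * kapA z) = kapA z * ((star z * z) * kapA z) := by
      rw [star_mul, kapA_sa]; simp only [mul_assoc]
    have e2 : (star z * z) * kapA z = cfc (fun t : ℝ => t * (1 + t)⁻¹) (star z * z) := by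
      conv_lhs => rw [kapA]; arg 1; rw [kap_self]
      exact kap_mul z (by fun_prop) kap_contA fun t _ => rfl
    rw [e, e2, kapA]
    refine kap_mul z kap_contA (ContinuousOn.mul (by fun_prop) kap_contA) fun t ht => ?_
    have : (1 : ℝ) + t ≠ 0 := by positivity
    field_simp
  have h2 : ‖star (z * kapA z) * (z * kapA z)‖ ≤ 1 / 4 := by
    rw [h1]
    refine norm_cfc_le (by norm_num) fun t ht => ?_
    have h := kap_spec z t ht
    rw [Real.norm_eq_abs, abs_of_nonneg (by positivity), div_le_iff₀ (by positivity)]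
    nlinarith [sq_nonneg (t - 1)]
  rw [CStarRing.norm_star_mul_self] at h2
  nlinarith [norm_nonneg (z * kapA z)]

private theorem kapA_comm (z : M) : z * kapA z = kapA (star z) * z := by
  have h1 := mul_kapA z
  have h2 := kapA_mul (star z)
  rw [star_star] at h2
  calc z * kapA z = (kapA (star z) * (1 + z * star z)) * (z * kapA z) := by rw [h2, one_mul]
    _ = kapA (star z) * (z * ((1 + star z * z) * kapA z)) := by
        simp only [mul_assoc, add_mul, mul_add, one_mul]
    _ = kapA (star z) * z := by rw [h1, mul_one]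

private theorem kapA_norm'' (z : M) : ‖z * kapA z * star z‖ ≤ 1 := by
  have h1 : z * kapA z * star z =
      cfc (fun t : ℝ => (1 + t)⁻¹ * t) (star (star z) * star z) := by
    rw [kapA_comm, mul_assoc]
    have e : kapA (star z) * (z * star z) =
        cfc (fun t : ℝ => (1 + t)⁻¹) (star (star z) * star z) *
          cfc (fun t : ℝ => t) (star (star z) * star z) := by
      rw [← kap_self, kapA, star_star]
    rw [e]
    exact kap_mul (star z) kap_contA (by fun_prop) fun t _ => rfl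
  rw [h1]
  refine norm_cfc_le zero_le_one fun t ht => ?_
  have h := kap_spec (star z) t ht
  rw [Real.norm_eq_abs, abs_of_nonneg (by positivity), inv_mul_le_iff₀ (by positivity)]
  linarith

private theorem kap_lip (z y : M) :
    n2 ((2 : ℂ) • (z * kapA z) - (2 : ℂ) • (y * kapA y)) ≤ 5 * n2 (z - y) := by
  have e1 : kapA z - kapA y = kapA z * (star y * y - star z * z) * kapA y := by
    have h1 := kapA_mul z
    have h2 := mul_kapA y
    calc kapA z - kapA y = kapA z * ((1 + star y * y) * kapA y)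
          - (kapA z * (1 + star z * z)) * kapA y := by rw [h1, h2, mul_one, one_mul]
      _ = _ := by simp only [mul_add, add_mul, mul_sub, sub_mul, mul_one, one_mul, mul_assoc]; abel
  have e2 : z * kapA z - y * kapA y =
      (z * kapA z) * ((star y - star z) * (y * kapA y)) +
        (z * kapA z * star z) * ((y - z) * kapA y) + (z - y) * kapA y := by
    have e3 : z * kapA z - y * kapA y = z * (kapA z - kapA y) + (z - y) * kapA y := by
      rw [mul_sub, sub_mul]; abel
    rw [e3, e1]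
    simp only [mul_sub, sub_mul, mul_assoc]
    abel
  have b0 : n2 (y - z) = n2 (z - y) := n2_sub_comm _ _
  have p0 := n2_nonneg (z - y)
  have b1 : n2 ((z * kapA z) * ((star y - star z) * (y * kapA y))) ≤ 1 / 4 * n2 (z - y) := by
    have c1 : n2 ((star y - star z) * (y * kapA y)) ≤ n2 (z - y) * (1 / 2) := by
      refine (n2_mul_le' _ _).trans ?_
      rw [← star_sub, n2_star, b0]
      exact mul_le_mul_of_nonneg_left (kapA_norm' y) p0
    refine (n2_mul_le _ _).trans ?_
    calc ‖z * kapA z‖ * n2 ((star y - star z) * (y * kapA y))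
        ≤ 1 / 2 * (n2 (z - y) * (1 / 2)) :=
          mul_le_mul (kapA_norm' z) c1 (n2_nonneg _) (by norm_num)
      _ = 1 / 4 * n2 (z - y) := by ring
  have b2 : n2 ((z * kapA z * star z) * ((y - z) * kapA y)) ≤ n2 (z - y) := by
    have c1 : n2 ((y - z) * kapA y) ≤ n2 (z - y) := by
      refine (n2_mul_le' _ _).trans ?_
      rw [b0]
      calc n2 (z - y) * ‖kapA y‖ ≤ n2 (z - y) * 1 := mul_le_mul_of_nonneg_left (kapA_norm y) p0
        _ = _ := mul_one _
    refine (n2_mul_le _ _).trans ?_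
    calc ‖z * kapA z * star z‖ * n2 ((y - z) * kapA y) ≤ 1 * n2 (z - y) :=
          mul_le_mul (kapA_norm'' z) c1 (n2_nonneg _) zero_le_one
      _ = _ := one_mul _
  have b3 : n2 ((z - y) * kapA y) ≤ n2 (z - y) := by
    refine (n2_mul_le' _ _).trans ?_
    calc n2 (z - y) * ‖kapA y‖ ≤ n2 (z - y) * 1 := mul_le_mul_of_nonneg_left (kapA_norm y) p0
      _ = _ := mul_one _
  rw [← smul_sub, n2_smul, e2]
  have h1 := n2_add_le ((z * kapA z) * ((star y - star z) * (y * kapA y)) +
        (z * kapA z * star z) * ((y - z) * kapA y)) ((z - y) * kapA y)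
  have h2 := n2_add_le ((z * kapA z) * ((star y - star z) * (y * kapA y)))
        ((z * kapA z * star z) * ((y - z) * kapA y))
  have h3 : ‖(2 : ℂ)‖ = 2 := by simp
  rw [h3]
  linarith

/-- every contraction in a norm closed star subalgebra is a value of the truncation -/
private theorem kap_surj (S : StarSubalgebra ℂ M) (hS : IsClosed (S : Set M)) (x : M) (hx : x ∈ S)
    (hx1 : ‖x‖ ≤ 1) : ∃ y ∈ S, (2 : ℂ) • (y * kapA y) = x := by
  have hspec : ∀ t ∈ spectrum ℝ (star x * x), 0 ≤ t ∧ t ≤ 1 := by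
    intro t ht
    refine ⟨kap_spec x t ht, ?_⟩
    have h1 := spectrum.norm_le_norm_mul_of_mem ht
    have h2 : ‖star x * x‖ ≤ 1 := by
      rw [CStarRing.norm_star_mul_self]
      nlinarith [norm_nonneg x]
    have h3 : ‖(1 : M)‖ ≤ 1 := isUn_one.norm_le_one
    have h4 : ‖t‖ ≤ 1 := h1.trans (by
      calc ‖star x * x‖ * ‖(1 : M)‖ ≤ 1 * 1 := mul_le_mul h2 h3 (norm_nonneg _) zero_le_one
        _ = 1 := one_mul 1)
    exact (le_abs_self t).trans h4
  have hsa := kap_sa x
  set c : M := cfc (fun t : ℝ => (1 + Real.sqrt (1 - t))⁻¹) (star x * x) with hc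
  have hpos : ∀ t : ℝ, 0 < 1 + Real.sqrt (1 - t) := fun t => by positivity
  have contc : Continuous (fun t : ℝ => (1 + Real.sqrt (1 - t))⁻¹) := by
    refine Continuous.inv₀ (by fun_prop) fun t => (hpos t).ne'
  have hcS : c ∈ S := by
    have := hS
    exact cfc_mem (hs := hS) _ (mul_mem (star_mem hx) hx)
  have hcsa : star c = c := cfc_predicate (fun t : ℝ => (1 + Real.sqrt (1 - t))⁻¹) (star x * x)
  refine ⟨x * c, mul_mem hx hcS, ?_⟩
  set B : M := cfc (fun t : ℝ => (1 + Real.sqrt (1 - t)) / 2) (star x * x) with hB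
  have contB : Continuous (fun t : ℝ => (1 + Real.sqrt (1 - t)) / 2) := by fun_prop
  have e1 : star (x * c) * (x * c) =
      cfc (fun t : ℝ => (1 + Real.sqrt (1 - t))⁻¹ * (t * (1 + Real.sqrt (1 - t))⁻¹))
        (star x * x) := by
    have e : star (x * c) * (x * c) = c * ((star x * x) * c) := by
      rw [star_mul, hcsa]; simp only [mul_assoc]
    have e2 : (star x * x) * c =
        cfc (fun t : ℝ => t * (1 + Real.sqrt (1 - t))⁻¹) (star x * x) := by
      conv_lhs => rw [hc]; arg 1; rw [kap_self]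
      rw [← cfc_mul (fun t : ℝ => t) (fun t : ℝ => (1 + Real.sqrt (1 - t))⁻¹) (star x * x)
        continuous_id.continuousOn contc.continuousOn]
    rw [e, e2, hc]
    rw [← cfc_mul (fun t : ℝ => (1 + Real.sqrt (1 - t))⁻¹)
      (fun t : ℝ => t * (1 + Real.sqrt (1 - t))⁻¹) (star x * x) contc.continuousOn
      (continuous_id.mul contc).continuousOn]
  have e3 : (1 + star (x * c) * (x * c)) * B = 1 := by
    have hcont : Continuous
        (fun t : ℝ => (1 + Real.sqrt (1 - t))⁻¹ * (t * (1 + Real.sqrt (1 - t))⁻¹)) :=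
      contc.mul (continuous_id.mul contc)
    have e4 : 1 + star (x * c) * (x * c) = cfc (fun t : ℝ => 1 +
        (1 + Real.sqrt (1 - t))⁻¹ * (t * (1 + Real.sqrt (1 - t))⁻¹)) (star x * x) := by
      rw [cfc_const_add (1 : ℝ) _ (star x * x) hcont.continuousOn hsa, e1]
      simp
    rw [e4, hB, ← cfc_mul _ _ (star x * x) (by fun_prop) contB.continuousOn, kap_one x]
    refine cfc_congr fun t ht => ?_
    obtain ⟨h1, h2⟩ := hspec t ht
    have h3 : Real.sqrt (1 - t) ^ 2 = 1 - t := Real.sq_sqrt (by linarith)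
    have h4 := (hpos t).ne'
    generalize Real.sqrt (1 - t) = s at h3 h4
    have h5 : t = 1 - s ^ 2 := by linarith
    subst h5
    field_simp
    ring
  have e5 : kapA (x * c) = B := by
    calc kapA (x * c) = kapA (x * c) * ((1 + star (x * c) * (x * c)) * B) := by rw [e3, mul_one]
      _ = (kapA (x * c) * (1 + star (x * c) * (x * c))) * B := by rw [mul_assoc]
      _ = B := by rw [kapA_mul, one_mul]
  have e6 : c * B = cfc (fun _ : ℝ => (1 / 2 : ℝ)) (star x * x) := by
    rw [hc, hB, ← cfc_mul _ _ (star x * x) contc.continuousOn contB.continuousOn]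
    refine cfc_congr fun t _ => ?_
    have h4 := (hpos t).ne'
    field_simp
  have e7 : cfc (fun _ : ℝ => (1 / 2 : ℝ)) (star x * x) = (1 / 2 : ℂ) • (1 : M) := by
    rw [cfc_const (1 / 2 : ℝ) (star x * x) hsa, Algebra.algebraMap_eq_smul_one,
      ← Complex.coe_smul]
    norm_num
  rw [e5, mul_assoc, e6, e7, mul_smul_comm, mul_one, smul_smul]
  norm_num

private theorem kap_unit (S : StarSubalgebra ℂ M) (x : M) (hx1 : ‖x‖ ≤ 1)
    (hx : ∀ ε : ℝ, 0 < ε → ∃ y ∈ S, n2 (x - y) < ε) (ε : ℝ) (hε : 0 < ε) :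
    ∃ y ∈ S, ‖y‖ ≤ 1 + ε ∧ n2 (x - y) < ε := by
  obtain ⟨y, hy, hxy⟩ := kap_surj (kapBar S) (vnSub_kapBar S).isClosed x hx hx1
  obtain ⟨z, hz, hyz⟩ := hy (ε / 20) (by linarith)
  have hzc : (2 : ℂ) • (z * kapA z) ∈ S.topologicalClosure := by
    have hz' : z ∈ S.topologicalClosure := S.le_topologicalClosure hz
    refine SMulMemClass.smul_mem _ (mul_mem hz' ?_)
    exact cfc_mem (hs := S.isClosed_topologicalClosure) _ (mul_mem (star_mem hz') hz')
  have hzc' : (2 : ℂ) • (z * kapA z) ∈ closure (S : Set M) := hzc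
  obtain ⟨s, hs, hsd⟩ := Metric.mem_closure_iff.1 hzc' (ε / 2) (by linarith)
  rw [dist_eq_norm] at hsd
  refine ⟨s, hs, ?_, ?_⟩
  · have h1 : ‖(2 : ℂ) • (z * kapA z)‖ ≤ 1 := by
      rw [norm_smul]
      have := kapA_norm' z
      have h3 : ‖(2 : ℂ)‖ = 2 := by simp
      rw [h3]
      linarith
    have h2 : ‖s‖ ≤ ‖(2 : ℂ) • (z * kapA z)‖ + ‖(2 : ℂ) • (z * kapA z) - s‖ := by
      have := norm_sub_norm_le s ((2 : ℂ) • (z * kapA z))
      rw [norm_sub_rev] at this
      linarith
    linarith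
  · have h1 := kap_lip y z
    rw [hxy] at h1
    have h2 := n2_le_norm ((2 : ℂ) • (z * kapA z) - s)
    have h3 := n2_sub_le_sub x ((2 : ℂ) • (z * kapA z)) s
    linarith

theorem kaplansky (S : StarSubalgebra ℂ M) (x : M)
    (hx : ∀ ε : ℝ, 0 < ε → ∃ y ∈ S, n2 (x - y) < ε) (ε : ℝ) (hε : 0 < ε) :
    ∃ y ∈ S, ‖y‖ ≤ ‖x‖ + ε ∧ n2 (x - y) < ε := by
  rcases eq_or_ne x 0 with rfl | hx0
  · refine ⟨0, zero_mem S, ?_, ?_⟩
    · rw [norm_zero]; linarith
    · rw [sub_zero, n2_zero]; exact hε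
  · have hn : 0 < ‖x‖ := norm_pos_iff.2 hx0
    have hnc : ((‖x‖ : ℝ) : ℂ) ≠ 0 := by exact_mod_cast hn.ne'
    have hnn : ‖((‖x‖ : ℝ) : ℂ)‖ = ‖x‖ := by
      rw [Complex.norm_real, Real.norm_eq_abs, abs_of_pos hn]
    have hni : ‖((‖x‖ : ℝ) : ℂ)⁻¹‖ = ‖x‖⁻¹ := by rw [norm_inv, hnn]
    obtain ⟨y, hy, hy1, hy2⟩ := kap_unit S (((‖x‖ : ℝ) : ℂ)⁻¹ • x) (by
        rw [norm_smul, hni, inv_mul_cancel₀ hn.ne']) (by
        intro δ hδ
        obtain ⟨y, hy, hy1⟩ := hx (‖x‖ * δ) (by positivity)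
        refine ⟨((‖x‖ : ℝ) : ℂ)⁻¹ • y, SMulMemClass.smul_mem _ hy, ?_⟩
        rw [← smul_sub, n2_smul, hni, inv_mul_lt_iff₀ hn]
        exact hy1) (ε / ‖x‖) (by positivity)
    refine ⟨((‖x‖ : ℝ) : ℂ) • y, SMulMemClass.smul_mem _ hy, ?_, ?_⟩
    · rw [norm_smul, hnn]
      calc ‖x‖ * ‖y‖ ≤ ‖x‖ * (1 + ε / ‖x‖) := mul_le_mul_of_nonneg_left hy1 hn.le
        _ = ‖x‖ + ε := by field_simp
    · have e : x - ((‖x‖ : ℝ) : ℂ) • y =
          ((‖x‖ : ℝ) : ℂ) • (((‖x‖ : ℝ) : ℂ)⁻¹ • x - y) := by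
        rw [smul_sub, smul_smul, mul_inv_cancel₀ hnc, one_smul]
      rw [e, n2_smul, hnn]
      calc ‖x‖ * n2 (((‖x‖ : ℝ) : ℂ)⁻¹ • x - y) < ‖x‖ * (ε / ‖x‖) :=
            mul_lt_mul_of_pos_left hy2 hn
        _ = ε := by field_simp

private theorem kap_seq (S : StarSubalgebra ℂ M) {x : M}
    (hx : ∀ ε : ℝ, 0 < ε → ∃ y ∈ S, n2 (x - y) < ε) :
    ∃ y : ℕ → M, (∀ n, y n ∈ S) ∧ (∀ n, ‖y n‖ ≤ ‖x‖ + 1) ∧
      Tendsto (fun n => n2 (y n - x)) atTop (𝓝 0) := by
  choose f hf using fun n : ℕ => kaplansky S x hx (1 / ((n : ℝ) + 1)) (by positivity)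
  refine ⟨f, fun n => (hf n).1, fun n => ?_, ?_⟩
  · refine (hf n).2.1.trans ?_
    have : 1 / ((n : ℝ) + 1) ≤ 1 := by
      rw [div_le_one (by positivity)]
      have : (0 : ℝ) ≤ n := Nat.cast_nonneg n
      linarith
    linarith
  · refine squeeze_zero (fun n => n2_nonneg _) (fun n => ?_)
      (tendsto_one_div_add_atTop_nhds_zero_nat (𝕜 := ℝ))
    rw [n2_sub_comm]
    exact (hf n).2.2.le

private theorem kap_le (X : Set M) : vnGen X ≤ kapBar (StarAlgebra.adjoin ℂ X) :=
  vnGen_le (fun x hx => le_kapBar _ (StarAlgebra.subset_adjoin ℂ X hx)) (vnSub_kapBar _)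

theorem mem_vnGen_iff (X : Set M) (x : M) :
    x ∈ vnGen X ↔ ∀ ε : ℝ, 0 < ε → ∃ y ∈ StarAlgebra.adjoin ℂ X, n2 (x - y) < ε := by
  constructor
  · intro hx
    exact kap_le X hx
  · intro hx
    obtain ⟨y, hy, hyC, hyl⟩ := kap_seq (StarAlgebra.adjoin ℂ X) hx
    refine vnSub_vnGen X y x (‖x‖ + 1) (fun n => ?_) hyC hyl
    exact StarAlgebra.adjoin_le (subset_vnGen X) (hy n)

/-- Bounded approximating sequences. -/
theorem exists_seq_of_mem_vnGen {X : Set M} {x : M} (hx : x ∈ vnGen X) :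
    ∃ y : ℕ → M, (∀ n, y n ∈ StarAlgebra.adjoin ℂ X) ∧ (∀ n, ‖y n‖ ≤ ‖x‖ + 1) ∧
      Tendsto (fun n => n2 (y n - x)) atTop (𝓝 0) :=
  kap_seq (StarAlgebra.adjoin ℂ X) ((mem_vnGen_iff X x).1 hx)

end Pool.Agent.KUR
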