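import Pool.Agent.KUR.Words
import Pool.Agent.KUR.Kap

/-!
# KUR Cross: the factorisation formula

`tr (η'^* a η b) = tr a * tr b * tr (η'^* η)` for `a ∈ subGen A K₀`, `b ∈ subGen A K₁`, where the
reduced words `η, η'` start outside `K₀` and end outside `K₁`.

PROOF.  Both sides are 2-norm continuous in `a` and in `b` (`norm_tr_mul_le'`, `n2_mul_le` ...), so
by `mem_vnGen_iff` one may take `a ∈ StarAlgebra.adjoin ℂ (⋃ k ∈ K₀, A k)` and similarly `b`, and by
`mem_span_words` and linearity `a = wv l₀`, `b = wv l₁` with reduced words with indices in `K₀`,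
`K₁`.  Cases:
 * `l₀ = []`, `l₁ = []`: both sides are `tr (η'^* η)`.
 * `l₀ ≠ []`, `l₁ ≠ []`: `η'^* a η b` is the value of the word `revStar η' ++ l₀ ++ η ++ l₁`, which is
   reduced: junction `η'^*`|`l₀`: the last index of `revStar η'` is the head index of `η'`, not in
   `K₀`; `l₀`|`η` and `η`|`l₁` similarly; if `η = []` then (hcase) `K₀, K₁` are disjoint and the
   junction `l₀`|`l₁` is fine.  (If `η' = []` there is no first junction.)  So the trace is 0, and
   `tr a = 0` as `l₀` is a nonempty reduced word.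
 * `l₀ ≠ []`, `l₁ = []`: the word `revStar η' ++ l₀ ++ η` is reduced nonempty EXCEPT that for `η = []`
   or `η' = []` nothing changes; trace 0 = right side.
 * `l₀ = []`, `l₁ ≠ []`: `tr (η'^* η b) = tr (η b η'^*)` and `η ++ l₁ ++ revStar η'` is reduced
   (the head index of `revStar η'` is the last index of `η'`, not in `K₁`) and nonempty: 0.
-/

open Filter Topology

namespace Pool.Agent.KUR

universe u
variable {M : Type u} [CStarAlgebra M] [TVN M] {K : Type*}

theorem cross_wv_append (l l' : List (K × M)) : wv (l ++ l') = wv l * wv l' := by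
  unfold wv
  rw [List.map_append, List.prod_append]

theorem cross_redW_append {A : K → StarSubalgebra ℂ M} {l l' : List (K × M)} (h : RedW A l)
    (h' : RedW A l')
    (hj : ∀ p, l.getLast? = some p → ∀ q, l'.head? = some q → p.1 ≠ q.1) : RedW A (l ++ l') := by
  refine ⟨?_, ?_⟩
  · rw [List.isChain_append]
    exact ⟨h.1, h'.1, fun p hp q hq => hj p hp q hq⟩
  · intro p hp
    rcases List.mem_append.1 hp with hp | hp
    · exact h.2 p hp
    · exact h'.2 p hp

theorem cross_head_mem {l : List (K × M)} {K₀ : Set K} (h : ∀ p ∈ l, p.1 ∈ K₀) :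
    ∀ p, l.head? = some p → p.1 ∈ K₀ := fun p hp => h p (List.mem_of_mem_head? hp)

theorem cross_last_mem {l : List (K × M)} {K₀ : Set K} (h : ∀ p ∈ l, p.1 ∈ K₀) :
    ∀ p, l.getLast? = some p → p.1 ∈ K₀ := fun p hp => h p (List.mem_of_mem_getLast? hp)

theorem cross_revStar_last {l : List (K × M)} {K₀ : Set K}
    (h : ∀ p, l.head? = some p → p.1 ∉ K₀) :
    ∀ p, (revStar l).getLast? = some p → p.1 ∉ K₀ := by
  intro p hp
  unfold revStar at hp
  rw [List.getLast?_reverse, List.head?_map, Option.map_eq_some_iff] at hp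
  obtain ⟨a, ha, rfl⟩ := hp
  exact h a ha

theorem cross_revStar_head {l : List (K × M)} {K₀ : Set K}
    (h : ∀ p, l.getLast? = some p → p.1 ∉ K₀) :
    ∀ p, (revStar l).head? = some p → p.1 ∉ K₀ := by
  intro p hp
  unfold revStar at hp
  rw [List.head?_reverse, List.getLast?_map, Option.map_eq_some_iff] at hp
  obtain ⟨a, ha, rfl⟩ := hp
  exact h a ha

theorem cross_words {A : K → StarSubalgebra ℂ M} (hA : FreeFam A) (K₀ K₁ : Set K)
    {l₀ l₁ : List (K × M)} (h₀ : RedW A l₀) (h₁ : RedW A l₁) (k₀ : ∀ p ∈ l₀, p.1 ∈ K₀)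
    (k₁ : ∀ p ∈ l₁, p.1 ∈ K₁) {η η' : List (K × M)}
    (h : RedW A η) (h' : RedW A η')
    (hs : ∀ p, η.head? = some p → p.1 ∉ K₀) (hs' : ∀ p, η'.head? = some p → p.1 ∉ K₀)
    (he : ∀ p, η.getLast? = some p → p.1 ∉ K₁) (he' : ∀ p, η'.getLast? = some p → p.1 ∉ K₁)
    (hcase : (η ≠ [] ∧ η' ≠ []) ∨ Disjoint K₀ K₁) :
    tr (star (wv η') * wv l₀ * wv η * wv l₁) =
      tr (wv l₀) * tr (wv l₁) * tr (star (wv η') * wv η) := by
  have hη₁ : RedW A (η ++ l₁) := cross_redW_append h h₁ (fun p hp q hq hpq =>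
    he p hp (hpq ▸ cross_head_mem k₁ q hq))
  by_cases n₀ : l₀ = []
  · subst n₀
    have e0 : wv ([] : List (K × M)) = 1 := rfl
    by_cases n₁ : l₁ = []
    · subst n₁
      rw [e0, mul_one, mul_one, tr_one', one_mul, one_mul]
    · rw [hA l₁ n₁ h₁, mul_zero, zero_mul, e0, mul_one, mul_assoc, tr_mul_comm, ← wv_revStar,
        ← cross_wv_append, ← cross_wv_append]
      refine hA _ (by simp [n₁]) ?_
      refine cross_redW_append hη₁ (redW_revStar h') (fun p hp q hq hpq => ?_)
      refine cross_revStar_head he' q hq ?_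
      rw [List.getLast?_append_of_ne_nil _ n₁] at hp
      exact hpq ▸ cross_last_mem k₁ p hp
  · rw [hA l₀ n₀ h₀, zero_mul, zero_mul, mul_assoc, mul_assoc, ← wv_revStar, ← cross_wv_append,
      ← cross_wv_append, ← cross_wv_append]
    refine hA _ (by simp [n₀]) ?_
    refine cross_redW_append (redW_revStar h') (cross_redW_append h₀ hη₁ ?_) ?_
    · intro p hp q hq hpq
      have hp0 := cross_last_mem k₀ p hp
      by_cases hη : η = []
      · have hd : Disjoint K₀ K₁ := by
          rcases hcase with hc | hc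
          · exact absurd hη hc.1
          · exact hc
        subst hη
        rw [List.nil_append] at hq
        exact Set.disjoint_left.1 hd hp0 (hpq ▸ cross_head_mem k₁ q hq)
      · rw [List.head?_append_of_ne_nil _ hη] at hq
        exact hs q hq (hpq ▸ hp0)
    · intro p hp q hq hpq
      rw [List.head?_append_of_ne_nil _ n₀] at hq
      exact cross_revStar_last hs' p hp (hpq ▸ cross_head_mem k₀ q hq)

theorem cross {A : K → StarSubalgebra ℂ M} (hA : FreeFam A) (K₀ K₁ : Set K) {a b : M}
    (ha : a ∈ subGen A K₀) (hb : b ∈ subGen A K₁) {η η' : List (K × M)}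
    (h : RedW A η) (h' : RedW A η')
    (hs : ∀ p, η.head? = some p → p.1 ∉ K₀) (hs' : ∀ p, η'.head? = some p → p.1 ∉ K₀)
    (he : ∀ p, η.getLast? = some p → p.1 ∉ K₁) (he' : ∀ p, η'.getLast? = some p → p.1 ∉ K₁)
    (hcase : (η ≠ [] ∧ η' ≠ []) ∨ Disjoint K₀ K₁) :
    tr (star (wv η') * a * wv η * b) = tr a * tr b * tr (star (wv η') * wv η) := by
  have s1 : ∀ x ∈ Submodule.span ℂ {y | ∃ l : List (K × M), RedW A l ∧ (∀ p ∈ l, p.1 ∈ K₀) ∧
      y = wv l}, ∀ y ∈ Submodule.span ℂ {y | ∃ l : List (K × M), RedW A l ∧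
      (∀ p ∈ l, p.1 ∈ K₁) ∧ y = wv l},
      tr (star (wv η') * x * wv η * y) = tr x * tr y * tr (star (wv η') * wv η) := by
    intro x hx y hy
    induction hx using Submodule.span_induction with
    | mem x hx =>
      obtain ⟨l₀, h₀, k₀, rfl⟩ := hx
      induction hy using Submodule.span_induction with
      | mem y hy =>
        obtain ⟨l₁, h₁, k₁, rfl⟩ := hy
        exact cross_words hA K₀ K₁ h₀ h₁ k₀ k₁ h h' hs hs' he he' hcase
      | zero => simp
      | add y z _ _ ihy ihz =>
        rw [mul_add, map_add, map_add, ihy, ihz]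
        ring
      | smul c y _ ihy =>
        rw [mul_smul_comm, map_smul, map_smul, ihy, smul_eq_mul, smul_eq_mul]
        ring
    | zero => simp
    | add x z _ _ ihx ihz =>
      rw [mul_add, add_mul, add_mul, map_add, map_add, ihx, ihz]
      ring
    | smul c x _ ihx =>
      rw [mul_smul_comm, smul_mul_assoc, smul_mul_assoc, map_smul, map_smul, ihx, smul_eq_mul,
        smul_eq_mul]
      ring
  obtain ⟨x, hx, -, hxa⟩ := exists_seq_of_mem_vnGen ha
  obtain ⟨y, hy, -, hyb⟩ := exists_seq_of_mem_vnGen hb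
  have s2 : ∀ z ∈ Submodule.span ℂ {y | ∃ l : List (K × M), RedW A l ∧
      (∀ p ∈ l, p.1 ∈ K₁) ∧ y = wv l},
      tr (star (wv η') * a * wv η * z) = tr a * tr z * tr (star (wv η') * wv η) := by
    intro z hz
    have t1 : Tendsto (fun n => tr (star (wv η') * x n * wv η * z)) atTop
        (𝓝 (tr (star (wv η') * a * wv η * z))) :=
      tr_lim (n2_lim_mul_right z (n2_lim_mul_right (wv η) (n2_lim_mul_left (star (wv η')) hxa)))
    have t2 : Tendsto (fun n => tr (x n) * tr z * tr (star (wv η') * wv η)) atTop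
        (𝓝 (tr a * tr z * tr (star (wv η') * wv η))) :=
      ((tr_lim hxa).mul_const _).mul_const _
    have e : (fun n => tr (star (wv η') * x n * wv η * z)) =
        fun n => tr (x n) * tr z * tr (star (wv η') * wv η) :=
      funext fun n => s1 (x n) (mem_span_words A K₀ (hx n)) z hz
    rw [e] at t1
    exact tendsto_nhds_unique t1 t2
  have t1 : Tendsto (fun n => tr (star (wv η') * a * wv η * y n)) atTop
      (𝓝 (tr (star (wv η') * a * wv η * b))) :=
    tr_lim (n2_lim_mul_left (star (wv η') * a * wv η) hyb)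
  have t2 : Tendsto (fun n => tr a * tr (y n) * tr (star (wv η') * wv η)) atTop
      (𝓝 (tr a * tr b * tr (star (wv η') * wv η))) :=
    ((tr_lim hyb).const_mul _).mul_const _
  have e : (fun n => tr (star (wv η') * a * wv η * y n)) =
      fun n => tr a * tr (y n) * tr (star (wv η') * wv η) :=
    funext fun n => s2 (y n) (mem_span_words A K₁ (hy n))
  rw [e] at t1
  exact tendsto_nhds_unique t1 t2

end Pool.Agent.KUR
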