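import Mathlib

/-!
# KUR: definitions for free products of ultrapowers of II_1 factors
-/

open Filter Topology

namespace Pool.Agent.KUR

/-- A tracial von Neumann algebra: a unital C*-algebra with a faithful tracial state for which the
closed unit ball is complete in the 2-norm. -/
class TVN (M : Type*) [CStarAlgebra M] where
  tr : M →ₗ[ℂ] ℂ
  tr_one : tr 1 = 1
  tr_comm : ∀ x y : M, tr (x * y) = tr (y * x)
  tr_re_nonneg : ∀ x : M, 0 ≤ (tr (star x * x)).re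
  tr_im_zero : ∀ x : M, (tr (star x * x)).im = 0
  faithful : ∀ x : M, tr (star x * x) = 0 → x = 0
  complete : ∀ x : ℕ → M, (∀ n, ‖x n‖ ≤ 1) →
    (∀ ε : ℝ, 0 < ε → ∃ n₀ : ℕ, ∀ m n : ℕ, n₀ ≤ m → n₀ ≤ n →
      (tr (star (x m - x n) * (x m - x n))).re < ε) →
    ∃ y : M, ‖y‖ ≤ 1 ∧ Tendsto (fun n => (tr (star (x n - y) * (x n - y))).re) atTop (𝓝 0)

section
variable {M : Type*} [CStarAlgebra M] [TVN M]

/-- The trace. -/
noncomputable abbrev tr : M →ₗ[ℂ] ℂ := TVN.tr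

/-- The 2-norm. -/
noncomputable def n2 (x : M) : ℝ := Real.sqrt (tr (star x * x)).re

/-- Projections. -/
def IsProj (p : M) : Prop := star p = p ∧ p * p = p

/-- Partial isometries. -/
def IsPI (v : M) : Prop := v * star v * v = v

/-- Unitaries. -/
def IsUn (u : M) : Prop := star u * u = 1 ∧ u * star u = 1

/-- A star subalgebra whose bounded parts are closed in the 2-norm. -/
def VNSub (S : StarSubalgebra ℂ M) : Prop :=
  ∀ (x : ℕ → M) (y : M) (C : ℝ), (∀ n, x n ∈ S) → (∀ n, ‖x n‖ ≤ C) →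
    Tendsto (fun n => n2 (x n - y)) atTop (𝓝 0) → y ∈ S

/-- The von Neumann subalgebra generated by a set. -/
def vnGen (X : Set M) : StarSubalgebra ℂ M :=
  sInf {S : StarSubalgebra ℂ M | X ⊆ (S : Set M) ∧ VNSub S}

/-- Trivial centre. -/
def IsFac (S : StarSubalgebra ℂ M) : Prop :=
  ∀ z ∈ S, (∀ x ∈ S, z * x = x * z) → ∃ c : ℂ, z = c • (1 : M)

/-- Reduced words: neighbouring letters lie in different algebras, all letters are centred. -/
def RedW {K : Type*} (A : K → StarSubalgebra ℂ M) (l : List (K × M)) : Prop :=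
  l.IsChain (fun p q => p.1 ≠ q.1) ∧ ∀ p ∈ l, p.2 ∈ A p.1 ∧ tr p.2 = 0

/-- The value of a word. -/
def wv {K : Type*} (l : List (K × M)) : M := (l.map Prod.snd).prod

/-- Freely independent families of star subalgebras. -/
def FreeFam {K : Type*} (A : K → StarSubalgebra ℂ M) : Prop :=
  ∀ l : List (K × M), l ≠ [] → RedW A l → tr (wv l) = 0

/-- The subalgebra generated by the members with index in a set. -/
def subGen {K : Type*} (A : K → StarSubalgebra ℂ M) (K₀ : Set K) : StarSubalgebra ℂ M :=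
  vnGen (⋃ k ∈ K₀, (A k : Set M))

end

/-- II_1 factors. -/
def IsII1 (M : Type*) [CStarAlgebra M] [TVN M] : Prop :=
  IsFac (⊤ : StarSubalgebra ℂ M) ∧ ¬ Module.Finite ℂ M

/-- Separability in the 2-norm. -/
def IsSep (M : Type*) [CStarAlgebra M] [TVN M] : Prop :=
  ∃ D : Set M, D.Countable ∧ ∀ x : M, ∀ ε : ℝ, 0 < ε → ∃ y ∈ D, n2 (x - y) < ε

/-- Norm bounded families. -/
def Bd {X : Type*} {M : Type*} [CStarAlgebra M] (x : X → M) : Prop := ∃ C : ℝ, ∀ n, ‖x n‖ ≤ C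

/-- `Q` is the tracial ultrapower of `N` along `U`. -/
def IsUltrapower {X : Type*} (U : Ultrafilter X) (N Q : Type*) [CStarAlgebra N] [TVN N]
    [CStarAlgebra Q] [TVN Q] : Prop :=
  ∃ π : (X → N) → Q,
    (∀ x y : X → N, Bd x → Bd y → π (x + y) = π x + π y) ∧
    (∀ x y : X → N, Bd x → Bd y → π (x * y) = π x * π y) ∧
    (∀ (c : ℂ) (x : X → N), Bd x → π (c • x) = c • π x) ∧
    (∀ x : X → N, Bd x → π (star x) = star (π x)) ∧
    π 1 = 1 ∧
    (∀ q : Q, ∃ x : X → N, Bd x ∧ π x = q) ∧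
    (∀ x : X → N, Bd x → Tendsto (fun n => tr (x n)) (U : Filter X) (𝓝 (tr (π x))))

/-- `M` is the tracial (reduced) free product of the algebras `A i` along the embeddings `ι i`. -/
def IsFreeProduct {I : Type*} (A : I → Type*) [∀ i, CStarAlgebra (A i)] [∀ i, TVN (A i)]
    (M : Type*) [CStarAlgebra M] [TVN M] (ι : ∀ i, A i →⋆ₐ[ℂ] M) : Prop :=
  (∀ i (a : A i), tr (ι i a) = tr a) ∧
  (∀ l : List (Σ i, A i), l ≠ [] → l.IsChain (fun p q => p.1 ≠ q.1) → (∀ p ∈ l, tr p.2 = 0) →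
    tr ((l.map fun p => ι p.1 p.2).prod) = 0) ∧
  (∀ (x : M) (ε : ℝ), 0 < ε →
    ∃ y ∈ Algebra.adjoin ℂ (⋃ i, Set.range (ι i)), n2 (x - y) < ε)

universe u

/-- Elementary equivalence: some ultrapowers are isomorphic. -/
def ElemEquiv (N₁ N₂ : Type u) [CStarAlgebra N₁] [TVN N₁] [CStarAlgebra N₂] [TVN N₂] : Prop :=
  ∃ (X₁ X₂ : Type) (U₁ : Ultrafilter X₁) (U₂ : Ultrafilter X₂) (Q₁ Q₂ : Type u)
    (_ : CStarAlgebra Q₁) (_ : TVN Q₁) (_ : CStarAlgebra Q₂) (_ : TVN Q₂),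
    IsUltrapower U₁ N₁ Q₁ ∧ IsUltrapower U₂ N₂ Q₂ ∧ Nonempty (Q₁ ≃⋆ₐ[ℂ] Q₂)

end Pool.Agent.KUR
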