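import Pool.Agent.KUR.Basic

/-!
# KUR: further definitions used by the modules
-/

open Filter Topology

namespace Pool.Agent.KUR

universe u
variable {M : Type u} [CStarAlgebra M] [TVN M]

/-- Trace preserving star homomorphisms. -/
def TrPres {A B : Type*} [CStarAlgebra A] [TVN A] [CStarAlgebra B] [TVN B]
    (f : A →⋆ₐ[ℂ] B) : Prop := ∀ x : A, tr (f x) = tr x

/-- A unitary representation of the free group on 16 generators whose elements are
orthonormal for the trace. -/
def IsFreeRep (a : FreeGroup (Fin 16) → M) : Prop :=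
  a 1 = 1 ∧ (∀ g h, a (g * h) = a g * a h) ∧ (∀ g, IsUn (a g)) ∧ ∀ g, g ≠ 1 → tr (a g) = 0

/-- The conditional expectation onto a von Neumann subalgebra: the data. -/
def IsCE (S : StarSubalgebra ℂ M) (E : M →ₗ[ℂ] M) : Prop :=
  (∀ x, E x ∈ S) ∧ (∀ x ∈ S, E x = x) ∧ (∀ x, ∀ y ∈ S, tr (y * E x) = tr (y * x)) ∧
    (∀ x, ‖E x‖ ≤ ‖x‖) ∧ (∀ x, n2 (E x) ≤ n2 x) ∧ (∀ x, E (star x) = star (E x)) ∧
    (∀ x, ∀ y ∈ S, E (y * x) = y * E x) ∧ (∀ x, ∀ y ∈ S, E (x * y) = E x * y)

open Classical in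
/-- The conditional expectation onto `S` (zero map if there is none). -/
noncomputable def ce (S : StarSubalgebra ℂ M) : M →ₗ[ℂ] M :=
  if h : ∃ E : M →ₗ[ℂ] M, IsCE S E then h.choose else 0

/-- The family `P j` (left summand) and `ℂ 1 + ℂ s j` (right summand). -/
noncomputable def fam {J : Type*} (P : J → StarSubalgebra ℂ M) (s : J → M) : J ⊕ J → StarSubalgebra ℂ M :=
  Sum.elim P (fun j => StarAlgebra.adjoin ℂ {s j})

/-- The dilation data: symmetries `s j` of trace zero, free from each other and from the free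
family `P j`, everything together generating the algebra. -/
structure Dil {J : Type*} (P : J → StarSubalgebra ℂ M) (s : J → M) : Prop where
  vn : ∀ j, VNSub (P j)
  sa : ∀ j, star (s j) = s j
  sq : ∀ j, s j * s j = 1
  trs : ∀ j, tr (s j) = 0
  free : FreeFam (fam P s)
  gen : ∀ x : M, x ∈ vnGen ((⋃ j, (P j : Set M)) ∪ Set.range s)

/-- The algebra generated by all `P j`. -/
noncomputable def MM {J : Type*} (P : J → StarSubalgebra ℂ M) : StarSubalgebra ℂ M :=
  vnGen (⋃ j, (P j : Set M))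

/-- The unitary `exp (i π t s / 2)` for a symmetry `s`. -/
noncomputable def ut (t : ℝ) (s : M) : M :=
  (Real.cos (Real.pi * t / 2) : ℂ) • (1 : M) + (Complex.I * Real.sin (Real.pi * t / 2)) • s

/-- The deformation. -/
structure IsTheta {J : Type*} (P : J → StarSubalgebra ℂ M) (s : J → M)
    (θ : ℝ → (M →⋆ₐ[ℂ] M)) : Prop where
  onP : ∀ (t : ℝ) (j : J) (x : M), x ∈ P j → θ t x = ut t (s j) * x * star (ut t (s j))
  onS : ∀ (t : ℝ) (j : J), θ t (s j) = s j
  tr_eq : ∀ t x, tr (θ t x) = tr x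
  zero : ∀ x, θ 0 x = x
  add : ∀ r t x, θ r (θ t x) = θ (r + t) x
  cont : ∀ x, Tendsto (fun t : ℝ => n2 (θ t x - x)) (𝓝 0) (𝓝 0)

/-- The closed subspace (in the 2-norm, inside the algebra) of intertwiner type vectors. -/
noncomputable def H0span {J : Type*} (P : J → StarSubalgebra ℂ M) (s : J → M) (θ : ℝ → (M →⋆ₐ[ℂ] M)) :
    Submodule ℂ M :=
  Submodule.span ℂ {z | ∃ j, ∃ m ∈ MM P, ∃ y ∈ MM P, z = m * s j * θ 1 y}

/-- Membership in the 2-norm closure of a submodule. -/
def InCl (V : Submodule ℂ M) (x : M) : Prop := ∀ ε : ℝ, 0 < ε → ∃ y ∈ V, n2 (x - y) < ε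

end Pool.Agent.KUR
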