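import Pool.Agent.KUR.Rig
import Pool.Agent.KUR.CEx

/-!
# KUR Doub: irreducibility passes to the dilation; cocycle doubling
-/

open Filter Topology

namespace Pool.Agent.KUR

universe u
variable {M : Type u} [CStarAlgebra M] [TVN M] {J : Type*}

theorem IsFreeRep.map {A B : Type*} [CStarAlgebra A] [TVN A] [CStarAlgebra B] [TVN B]
    {f : A →⋆ₐ[ℂ] B} (hf : TrPres f) {a : FreeGroup (Fin 16) → A} (ha : IsFreeRep a) :
    IsFreeRep (fun g => f (a g)) := by
  refine ⟨?_, fun g h => ?_, fun g => ?_, fun g hg => ?_⟩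
  · show f (a 1) = 1
    rw [ha.1, map_one]
  · show f (a (g * h)) = f (a g) * f (a h)
    rw [ha.2.1, map_mul]
  · show IsUn (f (a g))
    refine ⟨?_, ?_⟩
    · rw [← map_star, ← map_mul, (ha.2.2.1 g).1, map_one]
    · rw [← map_star, ← map_mul, (ha.2.2.1 g).2, map_one]
  · show tr (f (a g)) = 0
    rw [hf, ha.2.2.2 g hg]

/-- A `2`-norm criterion: if `16 ξ` is bounded by `8 ξ` then `ξ = 0`. -/
theorem eq_zero_of_gap {ξ : M} {a b : FreeGroup (Fin 16) → M}
    (hfix : ∀ i, a (FreeGroup.of i) * ξ * star (b (FreeGroup.of i)) = ξ)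
    (hgap : n2 (∑ i, a (FreeGroup.of i) * ξ * star (b (FreeGroup.of i))) ≤ 8 * n2 ξ) : ξ = 0 := by
  have h1 : ∑ i, a (FreeGroup.of i) * ξ * star (b (FreeGroup.of i)) = (16 : ℂ) • ξ := by
    rw [Finset.sum_congr rfl (fun i _ => hfix i), Finset.sum_const, Finset.card_univ,
      Fintype.card_fin, ← Nat.cast_smul_eq_nsmul ℂ]
    norm_num
  rw [h1, n2_smul] at hgap
  have h2 : ‖(16 : ℂ)‖ = 16 := by norm_num
  rw [h2] at hgap
  have h3 := n2_nonneg ξ
  exact n2_eq_zero.mp (by linarith)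

/-- Elements fixed by a free representation of a free factor lie in the free factor. -/
theorem mem_of_commute_free {K : Type*} {A : K → StarSubalgebra ℂ M} (hA : FreeFam A)
    (gen : ∀ x : M, x ∈ vnGen (⋃ k, (A k : Set M))) (K₀ : Set K)
    {a b : FreeGroup (Fin 16) → M} (ha : IsFreeRep a) (hb : IsFreeRep b)
    (haM : ∀ g, a g ∈ subGen A K₀) (hbM : ∀ g, b g ∈ subGen A K₀) {y : M}
    (hy : ∀ i, a (FreeGroup.of i) * y * star (b (FreeGroup.of i)) = y) : y ∈ subGen A K₀ := by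
  have hS : VNSub (subGen A K₀) := vnSub_vnGen _
  have hfix : ∀ i, a (FreeGroup.of i) * (y - ce (subGen A K₀) y) *
      star (b (FreeGroup.of i)) = y - ce (subGen A K₀) y := by
    intro i
    rw [mul_sub, sub_mul, hy i, ← ce_mul_left hS _ (haM _),
      ← ce_mul_right hS _ (star_mem (hbM _)), hy i]
  have h0 := eq_zero_of_gap hfix (gap_sub hA gen K₀ ha hb haM hbM _ (fun z hz => by
    rw [mul_sub, map_sub, tr_mul_ce hS y hz, sub_self]))
  rw [sub_eq_zero] at h0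
  rw [h0]
  exact ce_mem hS y

theorem irr_lift {P : J → StarSubalgebra ℂ M} {s : J → M} (h : Dil P s)
    {Q : Type u} [CStarAlgebra Q] [TVN Q] (ι : Q →⋆ₐ[ℂ] M) (hι : TrPres ι)
    (hιM : ∀ x, ι x ∈ MM P) {a : FreeGroup (Fin 16) → Q} (ha : IsFreeRep a)
    (hirr : ∀ y ∈ MM P, (∀ x, y * ι x = ι x * y) → ∃ c : ℂ, y = c • (1 : M)) :
    ∀ y : M, (∀ x, y * ι x = ι x * y) → ∃ c : ℂ, y = c • (1 : M) := by
  intro y hy
  refine hirr y ?_ hy
  rw [MM_eq_subGen P s]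
  have hb := ha.map hι
  refine mem_of_commute_free h.free h.gen' (Set.range Sum.inl) hb hb
    (fun g => by rw [← MM_eq_subGen P s]; exact hιM _)
    (fun g => by rw [← MM_eq_subGen P s]; exact hιM _) (fun i => ?_)
  rw [← hy, mul_assoc, (hb.2.2.1 _).2, mul_one]

theorem unitary_of_intertwiner {Q : Type u} [CStarAlgebra Q] [TVN Q] {f g : Q →⋆ₐ[ℂ] M}
    (hirr : ∀ y : M, (∀ x, y * f x = f x * y) → ∃ c : ℂ, y = c • (1 : M)) {w : M} (hw : w ≠ 0)
    (h : ∀ x, f x * w = w * g x) : ∃ W : M, IsUn W ∧ ∀ x, f x * W = W * g x := by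
  have h1 : ∀ x, star w * f x = g x * star w := by
    intro x
    have := congrArg star (h (star x))
    rw [star_mul, star_mul, ← map_star, ← map_star, star_star] at this
    exact this
  obtain ⟨c, hc⟩ := hirr (w * star w) (fun x => by
    rw [mul_assoc, h1, ← mul_assoc, ← h, mul_assoc])
  have hc1 : tr (w * star w) = c := by
    rw [hc, map_smul, tr_one', smul_eq_mul, mul_one]
  have hc2 : c = ((n2 w ^ 2 : ℝ) : ℂ) := by
    rw [← hc1, tr_mul_comm, tr_star_mul_self]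
  have hpos : 0 < n2 w := lt_of_le_of_ne (n2_nonneg w) (fun h => hw (n2_eq_zero.mp h.symm))
  have hne : ((n2 w : ℝ) : ℂ) ≠ 0 := by exact_mod_cast hpos.ne'
  refine ⟨(((n2 w)⁻¹ : ℝ) : ℂ) • w, ?_, fun x => ?_⟩
  · have h2 : IsUn (star ((((n2 w)⁻¹ : ℝ) : ℂ) • w)) := by
      apply isUn_of_star_mul_self
      rw [star_star, star_smul, smul_mul_smul_comm, hc, hc2, smul_smul]
      have : (((n2 w)⁻¹ : ℝ) : ℂ) * star (((n2 w)⁻¹ : ℝ) : ℂ) * ((n2 w ^ 2 : ℝ) : ℂ) = 1 := by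
        rw [Complex.star_def, Complex.conj_ofReal]
        push_cast
        field_simp
      rw [this, one_smul]
    simpa using h2.star
  · rw [mul_smul_comm, h, smul_mul_assoc]

theorem cocycle_double {P : J → StarSubalgebra ℂ M} {s : J → M}
    {θ : ℝ → (M →⋆ₐ[ℂ] M)} (hθ : IsTheta P s θ)
    {Q : Type u} [CStarAlgebra Q] [TVN Q] (ι : Q →⋆ₐ[ℂ] M) (n : ℕ)
    (h : ∃ W : M, IsUn W ∧ ∀ x, ι x * W = W * θ (1 / 2 ^ n) (ι x)) :
    ∃ W : M, IsUn W ∧ ∀ x, ι x * W = W * θ 1 (ι x) := by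
  induction n with
  | zero => simpa using h
  | succ n ih =>
    obtain ⟨W, hW, hint⟩ := h
    apply ih
    refine ⟨W * θ (1 / 2 ^ (n + 1)) W, ?_, fun x => ?_⟩
    · refine hW.mul ⟨?_, ?_⟩
      · rw [← map_star, ← map_mul, hW.1, map_one]
      · rw [← map_star, ← map_mul, hW.2, map_one]
    · have e : (1 / 2 ^ n : ℝ) = 1 / 2 ^ (n + 1) + 1 / 2 ^ (n + 1) := by
        rw [pow_succ]; field_simp; norm_num
      rw [e, ← hθ.add, ← mul_assoc, hint, mul_assoc, mul_assoc, ← map_mul, ← map_mul, hint]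

end Pool.Agent.KUR
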