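import Mathlib

/-!
# KUR FGr: free groups are residually finite (finite set version)

PROOF.  One element: let `g ≠ 1` have reduced word `w = [(i_1,b_1), ..., (i_l,b_l)]`
(`FreeGroup.toWord`), `l ≥ 1`.  On the finite set `Fin (l+1)` define for every generator `i` a
partial injection: for each position `m` (1 ≤ m ≤ l) with `i_m = i`: if `b_m = true` it maps
`m → m-1`, if `b_m = false` it maps `m-1 → m` (or any convention making
`w` send the point `l` to `0` when the letters act from the right end to the left).  Because the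
word is reduced these prescriptions define an injective partial map; extend it to a permutation
(`Equiv.Perm` of a finite type, e.g. `Equiv.Perm.extendDomain`-like: an injection between subsets
of a finite type of the same cardinality extends, see `Equiv.extendSubtype`).  `FreeGroup.lift`
gives a homomorphism to `Equiv.Perm (Fin (l+1))` mapping `g` to a permutation sending `l` to
`0 ≠ l`, so `φ g ≠ 1`.
Finite set: take the product over `g ∈ T` of the homomorphisms.
(Any other proof, e.g. 2x2 integer matrices modulo a large prime, is fine.)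
-/

namespace Pool.Agent.KUR

/-- A partial injection of a finite type extends to a permutation. -/
private theorem fgr_exists_perm {α : Type} [Fintype α] (R : α → α → Prop)
    (h1 : ∀ a b b', R a b → R a b' → b = b') (h2 : ∀ a a' b, R a b → R a' b → a = a') :
    ∃ σ : Equiv.Perm α, ∀ a b, R a b → σ a = b := by
  classical
  let s : Set α := {a | ∃ b, R a b}
  let f : α → α := fun a => if h : ∃ b, R a b then h.choose else a
  have hf : ∀ a b, R a b → f a = b := by
    intro a b hab
    have h : ∃ b, R a b := ⟨b, hab⟩
    have h3 : f a = h.choose := dif_pos h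
    rw [h3]
    exact h1 a _ _ h.choose_spec hab
  have hmaps : Set.MapsTo f s ((Finset.univ : Finset α) : Set α) := fun a _ => by simp
  have hinj : Set.InjOn f s := by
    intro a ha a' ha' haa
    obtain ⟨b, hb⟩ := ha
    obtain ⟨b', hb'⟩ := ha'
    rw [hf a b hb, hf a' b' hb'] at haa
    subst haa
    exact h2 _ _ _ hb hb'
  obtain ⟨g, hg⟩ := hmaps.exists_equiv_extend_of_card_eq (by simp) hinj
  refine ⟨g.trans (Equiv.subtypeUnivEquiv (by simp)), ?_⟩
  intro a b hab
  have h4 := hg a ⟨b, hab⟩
  rw [hf a b hab] at h4
  simpa using h4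

/-- One element. -/
private theorem fgr_one {k : ℕ} (g : FreeGroup (Fin k)) (hg : g ≠ 1) :
    ∃ (n : ℕ) (φ : FreeGroup (Fin k) →* Equiv.Perm (Fin (n + 1))), φ g ≠ 1 := by
  classical
  obtain ⟨w, hw⟩ : ∃ w, w = g.toWord := ⟨_, rfl⟩
  have hred : FreeGroup.IsReduced w := by rw [hw]; exact FreeGroup.isReduced_toWord
  have hne : w ≠ [] := by
    intro h
    apply hg
    rw [hw] at h
    exact FreeGroup.toWord_eq_nil_iff.mp h
  have hchain : ∀ m (h : m + 1 < w.length),
      (w[m]'(by omega)).1 = (w[m+1]'h).1 → (w[m]'(by omega)).2 = (w[m+1]'h).2 := by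
    intro m h
    exact (List.isChain_iff_getElem.mp hred) m h
  -- the relation
  let R : Fin k → Fin (w.length + 1) → Fin (w.length + 1) → Prop := fun i a b =>
    (∃ h : b.1 < w.length, a.1 = b.1 + 1 ∧ w[b.1]'h = (i, true)) ∨
    (∃ h : a.1 < w.length, b.1 = a.1 + 1 ∧ w[a.1]'h = (i, false))
  have hR1 : ∀ i a b b', R i a b → R i a b' → b = b' := by
    intro i a b b' h h'
    rcases h with ⟨h, e, hw1⟩ | ⟨h, e, hw1⟩ <;> rcases h' with ⟨h', e', hw1'⟩ | ⟨h', e', hw1'⟩
    · apply Fin.ext; omega
    · exfalso
      have hh : b.1 + 1 < w.length := by omega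
      have h3 := hchain b.1 hh
      have h4 : w[b.1 + 1]'hh = (i, false) := by
        rw [← hw1']; congr 1; omega
      rw [hw1, h4] at h3
      simp at h3
    · exfalso
      have hh : b'.1 + 1 < w.length := by omega
      have h3 := hchain b'.1 hh
      have h4 : w[b'.1 + 1]'hh = (i, false) := by
        rw [← hw1]; congr 1; omega
      rw [hw1', h4] at h3
      simp at h3
    · apply Fin.ext; omega
  have hR2 : ∀ i a a' b, R i a b → R i a' b → a = a' := by
    intro i a a' b h h'
    rcases h with ⟨h, e, hw1⟩ | ⟨h, e, hw1⟩ <;> rcases h' with ⟨h', e', hw1'⟩ | ⟨h', e', hw1'⟩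
    · apply Fin.ext; omega
    · exfalso
      have hh : a'.1 + 1 < w.length := by omega
      have h3 := hchain a'.1 hh
      have h4 : w[a'.1 + 1]'hh = (i, true) := by
        rw [← hw1]; congr 1; omega
      rw [hw1', h4] at h3
      simp at h3
    · exfalso
      have hh : a.1 + 1 < w.length := by omega
      have h3 := hchain a.1 hh
      have h4 : w[a.1 + 1]'hh = (i, true) := by
        rw [← hw1']; congr 1; omega
      rw [hw1, h4] at h3
      simp at h3
    · apply Fin.ext; omega
  choose σ hσ using fun i => fgr_exists_perm (R i) (hR1 i) (hR2 i)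
  refine ⟨w.length, FreeGroup.lift σ, ?_⟩
  have key : ∀ d m (hm : m + d = w.length),
      (FreeGroup.lift σ (FreeGroup.mk (w.drop m))) (Fin.last w.length)
        = (⟨m, by omega⟩ : Fin (w.length + 1)) := by
    intro d
    induction d with
    | zero =>
      intro m hm
      have : w.drop m = [] := by
        apply List.drop_eq_nil_of_le; omega
      rw [this]
      have h1 : FreeGroup.mk ([] : List (Fin k × Bool)) = 1 := rfl
      rw [h1, map_one]
      apply Fin.ext
      simp [Fin.last]
      omega
    | succ d ih =>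
      intro m hm
      have hml : m < w.length := by omega
      have h1 : w.drop m = [w[m]'hml] ++ w.drop (m + 1) := by
        rw [List.drop_eq_getElem_cons hml]; rfl
      rw [h1, ← FreeGroup.mul_mk, map_mul, Equiv.Perm.mul_apply, ih (m + 1) (by omega)]
      rcases hwm : w[m]'hml with ⟨i, b⟩
      cases b with
      | true =>
        have h2 := hσ i ⟨m + 1, by omega⟩ ⟨m, by omega⟩ (Or.inl ⟨hml, rfl, hwm⟩)
        simpa [FreeGroup.lift_mk] using h2
      | false =>
        have h2 := hσ i ⟨m, by omega⟩ ⟨m + 1, by omega⟩ (Or.inr ⟨hml, rfl, hwm⟩)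
        simp only [FreeGroup.lift_mk, List.map_cons, List.map_nil, List.prod_singleton,
          cond_false]
        rw [Equiv.Perm.inv_eq_iff_eq]
        exact h2.symm
  intro h
  have h5 := key w.length 0 (by omega)
  have hmk : FreeGroup.mk w = g := by rw [hw, FreeGroup.mk_toWord]
  rw [List.drop_zero, hmk] at h5
  have h6 := congrArg (fun s : Equiv.Perm (Fin (w.length + 1)) => s (Fin.last w.length)) h
  simp only [Equiv.Perm.one_apply] at h6
  rw [h5] at h6
  have h7 := congrArg Fin.val h6
  simp [Fin.last] at h7
  exact hne (List.length_eq_zero_iff.mp (by omega))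

theorem freeGroup_finite_quot (k : ℕ) (T : Finset (FreeGroup (Fin k))) (h1 : 1 ∉ T) :
    ∃ (Γ : Type) (_ : Group Γ) (_ : Fintype Γ) (φ : FreeGroup (Fin k) →* Γ),
      ∀ g ∈ T, φ g ≠ 1 := by
  classical
  have hT : ∀ g : T, (g : FreeGroup (Fin k)) ≠ 1 := by
    intro g hg
    exact h1 (hg ▸ g.2)
  choose n φ hφ using fun g : T => fgr_one (g : FreeGroup (Fin k)) (hT g)
  refine ⟨(g : T) → Equiv.Perm (Fin (n g + 1)), inferInstance, inferInstance,
    MonoidHom.pi φ, ?_⟩
  intro g hg h
  apply hφ ⟨g, hg⟩
  have h2 := congrFun h ⟨g, hg⟩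
  simpa using h2

end Pool.Agent.KUR
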