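import Pool.Agent.KUR.Basic2

/-!
# KUR Polar: polar decomposition

PROOF.  Let `h = star x * x ≥ 0` and `g_k t = 1 / (Real.sqrt t + 1/k)`-like continuous functions on
`[0, ∞)`; put `b k = cfc (fun t => 1 / (Real.sqrt t + 1/(k+1))) h`, which lies in every norm closed
star subalgebra containing `h` (VNSubs are norm closed, `VNSub.isClosed`).  Put `v k = x * b k`.
`star (v k) * v k = cfc (fun t => t / (√t + 1/(k+1))^2) h ≤ 1`, so `‖v k‖ ≤ 1`.
`star (v k - v l) * (v k - v l) = cfc (fun t => (√t/(√t+1/(k+1)) - √t/(√t+1/(l+1)))^2) h`.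
With `φ_k t = √t/(√t + 1/(k+1))`, increasing in `k`, values in [0,1): `(φ_k - φ_l)^2 ≤ |φ_l - φ_k|`,
so `n2 (v k - v l)^2 ≤ |tr (cfc φ_l h) - tr (cfc φ_k h)|`, and `tr (cfc φ_k h)` is a bounded monotone
real sequence.  So `v k` converges in the 2-norm to some `v` with `‖v‖ ≤ 1` (`complete_ball`).
`e := star v * v` is the 2-norm limit of `star (v k) * v k = cfc (φ_k^2) h`, so `e` lies in every
VNSub containing `h`; also `φ_k → e` and `φ_k^2 → e`, `e * e = e`: because
`φ_k (h) * φ_l (h)` has, for l → ∞ ... all of `cfc φ_k h`, `cfc φ_k^2 h`, `cfc φ_k^4 h` have the same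
2-norm limit (each of the sequences is monotone, and `φ_{k}^4 ≤ φ_k^2 ≤ φ_k ≤ φ_m^4 + small`...;
a convenient way: `φ_k h * h' = h'`-limits: `x * cfc φ_k h → x` in NORM since
`‖x (1 - φ_k(h))‖^2 = ‖h (1 - φ_k h)^2‖ ≤ sup t (1/(k+1))^2/(√t + 1/(k+1))^2 ≤ 1/(k+1)^2`.
Hence `x * e = x` where `e = lim cfc φ_k h`; then `v k * e = x * b k * e = x * e * b k = v k`
(everything commutes inside the algebra generated by `h`), so `v * e = v`; with
`E1 = lim cfc φ_k h` and `star v * v = lim cfc (φ_k^2) h = E1 * E1` (product of bounded limits), and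
`cfc φ_k h * E1 = cfc φ_k h` (as `cfc φ_k h = b k * |x|`-type product ends in `h`-multiples:
`φ_k h = b_k √h`, and `√h * E1 = √h` by the same norm estimate), so `E1 * E1 = E1`).
Thus `star v * v = E1` is a projection, `x * (star v * v) = x`, `v * star v * v = v`.
`(v * star v) * x = x`: `x = v * |x|` where `|x| = √h`: indeed `v k * √h = x * φ_k(h) → x` in norm.
So `v * star v * x = v * star v * v * √h = v * √h = x`.
The last statement is `b := b k` for large `k`.
-/

open Filter Topology

namespace Pool.Agent.KUR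

universe u
variable {M : Type u} [CStarAlgebra M] [TVN M]

/-- cutoff parameter -/
noncomputable def Polar_e (k : ℕ) : ℝ := 1 / ((k : ℝ) + 1)

theorem Polar_e_pos (k : ℕ) : 0 < Polar_e k := by unfold Polar_e; positivity

theorem Polar_e_anti {k l : ℕ} (h : k ≤ l) : Polar_e l ≤ Polar_e k := by
  unfold Polar_e
  apply one_div_le_one_div_of_le (by positivity)
  have : (k : ℝ) ≤ l := by exact_mod_cast h
  linarith

theorem Polar_e_lim : Tendsto Polar_e atTop (𝓝 0) := tendsto_one_div_add_atTop_nhds_zero_nat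

/-- the cut off inverse square root -/
noncomputable def Polar_b (k : ℕ) (t : ℝ) : ℝ := 1 / (Real.sqrt t + Polar_e k)

/-- the cut off sign -/
noncomputable def Polar_f (k : ℕ) (t : ℝ) : ℝ := Real.sqrt t / (Real.sqrt t + Polar_e k)

theorem Polar_den (k : ℕ) (t : ℝ) : 0 < Real.sqrt t + Polar_e k :=
  add_pos_of_nonneg_of_pos (Real.sqrt_nonneg t) (Polar_e_pos k)

theorem Polar_b_cont (k : ℕ) : Continuous (Polar_b k) := by
  unfold Polar_b
  exact continuous_const.div (Real.continuous_sqrt.add continuous_const)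
    (fun t => (Polar_den k t).ne')

theorem Polar_f_cont (k : ℕ) : Continuous (Polar_f k) := by
  unfold Polar_f
  exact Real.continuous_sqrt.div (Real.continuous_sqrt.add continuous_const)
    (fun t => (Polar_den k t).ne')

theorem Polar_f_eq (k : ℕ) (t : ℝ) : Polar_f k t = Polar_b k t * Real.sqrt t := by
  unfold Polar_f Polar_b; ring

theorem Polar_f_nonneg (k : ℕ) (t : ℝ) : 0 ≤ Polar_f k t :=
  div_nonneg (Real.sqrt_nonneg t) (Polar_den k t).le

theorem Polar_f_le_one (k : ℕ) (t : ℝ) : Polar_f k t ≤ 1 := by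
  unfold Polar_f
  rw [div_le_one (Polar_den k t)]
  linarith [Polar_e_pos k]

theorem Polar_f_mono {k l : ℕ} (h : k ≤ l) (t : ℝ) : Polar_f k t ≤ Polar_f l t := by
  unfold Polar_f
  apply div_le_div_of_nonneg_left (Real.sqrt_nonneg t) (Polar_den l t)
  linarith [Polar_e_anti h]

theorem Polar_sqrt_sub (k : ℕ) (t : ℝ) :
    Real.sqrt t - Real.sqrt t * Polar_f k t = Polar_e k * Polar_f k t := by
  unfold Polar_f
  have := (Polar_den k t).ne'
  field_simp
  ring

/-- star of a real functional calculus -/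
theorem Polar_star (h : M) (f : ℝ → ℝ) : star (cfc f h) = cfc f h := by
  have : IsSelfAdjoint (cfc f h) := cfc_predicate f h
  exact this.star_eq

theorem Polar_spec (x : M) : ∀ t ∈ spectrum ℝ (star x * x), 0 ≤ t := by
  let _ : PartialOrder M := CStarAlgebra.spectralOrder M
  have _ : StarOrderedRing M := CStarAlgebra.spectralOrderedRing M
  exact spectrum_nonneg_of_nonneg (star_mul_self_nonneg x)

theorem Polar_tr_mono {h : M} {f g : ℝ → ℝ} (hf : Continuous f) (hg : Continuous g)
    (hfg : ∀ t ∈ spectrum ℝ h, f t ≤ g t) (hh : IsSelfAdjoint h) :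
    (tr (cfc f h)).re ≤ (tr (cfc g h)).re := by
  let _ : PartialOrder M := CStarAlgebra.spectralOrder M
  have _ : StarOrderedRing M := CStarAlgebra.spectralOrderedRing M
  have h1 : 0 ≤ cfc (fun t => g t - f t) h := cfc_nonneg (fun t ht => sub_nonneg.mpr (hfg t ht))
  rw [cfc_sub g f h] at h1
  have h2 := tr_re_nonneg_of_nonneg h1
  rw [map_sub, Complex.sub_re] at h2
  linarith

theorem Polar_n2_cfc {h : M} {f : ℝ → ℝ} (hf : Continuous f) :
    n2 (cfc f h) ^ 2 = (tr (cfc (fun t => f t * f t) h)).re := by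
  rw [n2_sq, Polar_star, cfc_mul f f h]

theorem Polar_sq_cfc (x : M) {β : ℝ → ℝ} (hβ : Continuous β) :
    star (x * cfc β (star x * x)) * (x * cfc β (star x * x)) =
      cfc (fun t => β t * t * β t) (star x * x) := by
  have hsa : IsSelfAdjoint (star x * x) := IsSelfAdjoint.star_mul_self x
  rw [cfc_mul (fun t => β t * t) β (star x * x), cfc_mul β (fun t => t) (star x * x),
    cfc_id' ℝ (star x * x), star_mul, Polar_star]
  simp only [mul_assoc]

theorem Polar_bound_sq (x : M) {β : ℝ → ℝ} (hβ : Continuous β) {C : ℝ} (hC : 0 ≤ C)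
    (hb : ∀ t, 0 ≤ t → |β t| * Real.sqrt t ≤ C) :
    ‖x * cfc β (star x * x)‖ ≤ C := by
  have h1 : ‖cfc (fun t => β t * t * β t) (star x * x)‖ ≤ C ^ 2 := by
    apply norm_cfc_le (by positivity)
    intro t ht
    have ht0 := Polar_spec x t ht
    have h2 := hb t ht0
    have h3 : β t * t * β t = (|β t| * Real.sqrt t) ^ 2 := by
      rw [mul_pow, sq_abs, Real.sq_sqrt ht0]; ring
    rw [h3, Real.norm_eq_abs, abs_of_nonneg (by positivity)]
    exact pow_le_pow_left₀ (by positivity) h2 2
  rw [← Polar_sq_cfc x hβ, CStarRing.norm_star_mul_self, ← sq] at h1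
  exact le_of_sq_le_sq h1 hC

theorem Polar_A_tendsto (x : M) :
    ∀ ε : ℝ, 0 < ε → ∃ n₀ : ℕ, ∀ k l : ℕ, n₀ ≤ k → k ≤ l →
      (tr (cfc (Polar_f l) (star x * x))).re - (tr (cfc (Polar_f k) (star x * x))).re < ε := by
  have hsa : IsSelfAdjoint (star x * x) := IsSelfAdjoint.star_mul_self x
  set A : ℕ → ℝ := fun k => (tr (cfc (Polar_f k) (star x * x))).re with hA
  have hmono : Monotone A := fun k l h =>
    Polar_tr_mono (Polar_f_cont k) (Polar_f_cont l) (fun t _ => Polar_f_mono h t) hsa
  have hbdd : BddAbove (Set.range A) := by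
    refine ⟨1, ?_⟩
    rintro _ ⟨k, rfl⟩
    have h1 := Polar_tr_mono (Polar_f_cont k) (continuous_const (y := (1 : ℝ)))
      (fun t _ => Polar_f_le_one k t) hsa
    have h2 : cfc (fun _ : ℝ => (1 : ℝ)) (star x * x) = 1 := cfc_const_one ℝ (star x * x)
    rw [h2, tr_one', Complex.one_re] at h1
    exact h1
  have hlim := tendsto_atTop_ciSup hmono hbdd
  intro ε hε
  obtain ⟨n₀, h₀⟩ := (Metric.tendsto_atTop.mp hlim) ε hε
  refine ⟨n₀, fun k l hk hkl => ?_⟩
  have h1 := h₀ k hk
  have h2 : A l ≤ iSup A := le_ciSup hbdd l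
  have h3 : A k ≤ iSup A := le_ciSup hbdd k
  rw [Real.dist_eq, abs_sub_comm, abs_of_nonneg (sub_nonneg.mpr h3)] at h1
  show A l - A k < ε
  linarith

theorem Polar_tr_diff (x : M) {k l : ℕ} (hkl : k ≤ l) :
    (tr (cfc (fun t => (Polar_f k t - Polar_f l t) * (Polar_f k t - Polar_f l t))
      (star x * x))).re ≤
      (tr (cfc (Polar_f l) (star x * x))).re - (tr (cfc (Polar_f k) (star x * x))).re := by
  have hsa : IsSelfAdjoint (star x * x) := IsSelfAdjoint.star_mul_self x
  have h1 : (tr (cfc (fun t => (Polar_f k t - Polar_f l t) * (Polar_f k t - Polar_f l t))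
      (star x * x))).re ≤ (tr (cfc (fun t => Polar_f l t - Polar_f k t) (star x * x))).re := by
    apply Polar_tr_mono
    · exact ((Polar_f_cont k).sub (Polar_f_cont l)).mul ((Polar_f_cont k).sub (Polar_f_cont l))
    · exact (Polar_f_cont l).sub (Polar_f_cont k)
    · intro t _
      have a1 := Polar_f_mono hkl t
      have a2 := Polar_f_le_one l t
      have a3 := Polar_f_nonneg k t
      nlinarith
    · exact hsa
  rw [cfc_sub (Polar_f l) (Polar_f k) (star x * x) (Polar_f_cont l).continuousOn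
    (Polar_f_cont k).continuousOn, map_sub, Complex.sub_re] at h1
  exact h1

theorem Polar_v_diff (x : M) (k l : ℕ) :
    n2 (x * cfc (Polar_b k) (star x * x) - x * cfc (Polar_b l) (star x * x)) ^ 2 =
      (tr (cfc (fun t => (Polar_f k t - Polar_f l t) * (Polar_f k t - Polar_f l t))
      (star x * x))).re := by
  have hc : Continuous (fun t => Polar_b k t - Polar_b l t) := (Polar_b_cont k).sub (Polar_b_cont l)
  rw [← mul_sub, ← cfc_sub (Polar_b k) (Polar_b l) (star x * x) (Polar_b_cont k).continuousOn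
    (Polar_b_cont l).continuousOn, n2_sq, Polar_sq_cfc x hc]
  congr 2
  apply cfc_congr
  intro t ht
  have ht0 := Polar_spec x t ht
  simp only [Polar_f_eq]
  have hs : Real.sqrt t * Real.sqrt t = t := Real.mul_self_sqrt ht0
  linear_combination (-(Polar_b k t - Polar_b l t) ^ 2) * hs

theorem Polar_w_diff (x : M) (k l : ℕ) :
    n2 (cfc (Polar_f k) (star x * x) - cfc (Polar_f l) (star x * x)) ^ 2 =
      (tr (cfc (fun t => (Polar_f k t - Polar_f l t) * (Polar_f k t - Polar_f l t))
      (star x * x))).re := by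
  rw [← cfc_sub (Polar_f k) (Polar_f l) (star x * x) (Polar_f_cont k).continuousOn
    (Polar_f_cont l).continuousOn, Polar_n2_cfc (f := fun t => Polar_f k t - Polar_f l t)
    ((Polar_f_cont k).sub (Polar_f_cont l))]

theorem Polar_cauchy (x : M) (u : ℕ → M)
    (hu : ∀ k l, n2 (u k - u l) ^ 2 =
      (tr (cfc (fun t => (Polar_f k t - Polar_f l t) * (Polar_f k t - Polar_f l t))
      (star x * x))).re) :
    ∀ ε : ℝ, 0 < ε → ∃ n₀ : ℕ, ∀ m n : ℕ, n₀ ≤ m → n₀ ≤ n → n2 (u m - u n) < ε := by
  intro ε hε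
  obtain ⟨n₀, h₀⟩ := Polar_A_tendsto x (ε ^ 2) (by positivity)
  have key : ∀ m n, n₀ ≤ m → m ≤ n → n2 (u m - u n) < ε := by
    intro m n hm hmn
    have h1 := (Polar_tr_diff x hmn).trans_lt (h₀ m n hm hmn)
    rw [← hu] at h1
    exact lt_of_pow_lt_pow_left₀ 2 hε.le h1
  refine ⟨n₀, fun m n hm hn => ?_⟩
  rcases le_total m n with h | h
  · exact key m n hm h
  · rw [n2_sub_comm]; exact key n m hn h

theorem polar (x : M) :
    ∃ v : M, IsPI v ∧ x * (star v * v) = x ∧ (v * star v) * x = x ∧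
      (∀ S : StarSubalgebra ℂ M, VNSub S → star x * x ∈ S → star v * v ∈ S) ∧
      (∀ S : StarSubalgebra ℂ M, VNSub S → star x * x ∈ S → ∀ ε : ℝ, 0 < ε →
        ∃ b ∈ S, ‖x * b‖ ≤ 1 ∧ n2 (x * b - v) < ε) := by
  have hsa : IsSelfAdjoint (star x * x) := IsSelfAdjoint.star_mul_self x
  set h : M := star x * x with hh
  set V : ℕ → M := fun k => x * cfc (Polar_b k) h with hV
  set W : ℕ → M := fun k => cfc (Polar_f k) h with hW
  have hV1 : ∀ k, ‖V k‖ ≤ 1 := by
    intro k
    apply Polar_bound_sq x (Polar_b_cont k) zero_le_one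
    intro t _
    rw [abs_of_nonneg (by unfold Polar_b; exact (one_div_pos.mpr (Polar_den k t)).le),
      ← Polar_f_eq]
    exact Polar_f_le_one k t
  have hW1 : ∀ k, ‖W k‖ ≤ 1 := by
    intro k
    apply norm_cfc_le zero_le_one
    intro t _
    rw [Real.norm_eq_abs, abs_of_nonneg (Polar_f_nonneg k t)]
    exact Polar_f_le_one k t
  obtain ⟨v, hv1, hvlim⟩ := complete_ball V 1 hV1 (Polar_cauchy x V (Polar_v_diff x))
  obtain ⟨E, hE1, hElim⟩ := complete_ball W 1 hW1 (Polar_cauchy x W (Polar_w_diff x))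
  have hWsa : ∀ k, star (W k) = W k := fun k => Polar_star h _
  -- the square root
  set R : M := cfc Real.sqrt h with hR
  have hVV : ∀ k, star (V k) * V k = W k * W k := by
    intro k
    rw [hV, hW]
    simp only
    rw [Polar_sq_cfc x (Polar_b_cont k), ← cfc_mul (Polar_f k) (Polar_f k) h
      (Polar_f_cont k).continuousOn (Polar_f_cont k).continuousOn]
    apply cfc_congr
    intro t ht
    have ht0 := Polar_spec x t ht
    simp only [Polar_f_eq]
    have hs : Real.sqrt t * Real.sqrt t = t := Real.mul_self_sqrt ht0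
    linear_combination (-(Polar_b k t) ^ 2) * hs
  have hvvE : star v * v = E * E := by
    have h1 : Tendsto (fun n => n2 (star (V n) * V n - star v * v)) atTop (𝓝 0) :=
      n2_lim_mul (C := 1) (fun n => by rw [norm_star]; exact hV1 n) (n2_lim_star hvlim) hvlim
    have h2 : Tendsto (fun n => n2 (W n * W n - E * E)) atTop (𝓝 0) :=
      n2_lim_mul (C := 1) hW1 hElim hElim
    simp_rw [hVV] at h1
    exact eq_of_n2_lim h1 h2
  have hRW : ∀ k, ‖R * W k - R‖ ≤ Polar_e k := by
    intro k
    have e1 : R * W k - R = cfc (fun t => Real.sqrt t * Polar_f k t - Real.sqrt t) h := by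
      rw [cfc_sub (fun t => Real.sqrt t * Polar_f k t) Real.sqrt h
        (Real.continuous_sqrt.mul (Polar_f_cont k)).continuousOn
        Real.continuous_sqrt.continuousOn,
        cfc_mul Real.sqrt (Polar_f k) h Real.continuous_sqrt.continuousOn
        (Polar_f_cont k).continuousOn]
    rw [e1]
    apply norm_cfc_le (Polar_e_pos k).le
    intro t _
    rw [Real.norm_eq_abs, abs_sub_comm, Polar_sqrt_sub,
      abs_of_nonneg (mul_nonneg (Polar_e_pos k).le (Polar_f_nonneg k t))]
    have := Polar_f_le_one k t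
    have := Polar_e_pos k
    nlinarith
  have hlimRW : Tendsto (fun k => n2 (R * W k - R)) atTop (𝓝 0) :=
    squeeze_zero (fun k => n2_nonneg _) (fun k => (n2_le_norm _).trans (hRW k)) Polar_e_lim
  have hRE : R * E = R := eq_of_n2_lim (n2_lim_mul_left R hElim) hlimRW
  have hWE : ∀ k, W k * E = W k := by
    intro k
    have e1 : W k = cfc (Polar_b k) h * R := by
      rw [hW, hR]
      simp only
      rw [← cfc_mul (Polar_b k) Real.sqrt h (Polar_b_cont k).continuousOn
        Real.continuous_sqrt.continuousOn]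
      apply cfc_congr
      intro t _
      exact Polar_f_eq k t
    rw [e1, mul_assoc, hRE]
  have hEE : E * E = E := by
    have h1 := n2_lim_mul_right E hElim
    simp_rw [hWE] at h1
    exact eq_of_n2_lim h1 hElim
  have hvv : star v * v = E := by rw [hvvE, hEE]
  have hxW : ∀ k, ‖x * W k - x‖ ≤ Polar_e k := by
    intro k
    have e1 : x * W k - x = x * cfc (fun t => Polar_f k t - 1) h := by
      rw [cfc_sub (Polar_f k) (fun _ => (1 : ℝ)) h (Polar_f_cont k).continuousOn
        continuous_const.continuousOn, cfc_const_one ℝ h, mul_sub, mul_one]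
    rw [e1]
    apply Polar_bound_sq (β := fun t => Polar_f k t - 1) x
      ((Polar_f_cont k).sub continuous_const) (Polar_e_pos k).le
    intro t _
    rw [abs_sub_comm, abs_of_nonneg (sub_nonneg.mpr (Polar_f_le_one k t)), sub_mul, one_mul,
      mul_comm (Polar_f k t), Polar_sqrt_sub]
    have := Polar_f_le_one k t
    have := Polar_e_pos k
    nlinarith
  have hlimxW : Tendsto (fun k => n2 (x * W k - x)) atTop (𝓝 0) :=
    squeeze_zero (fun k => n2_nonneg _) (fun k => (n2_le_norm _).trans (hxW k)) Polar_e_lim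
  have hxE : x * E = x := eq_of_n2_lim (n2_lim_mul_left x hElim) hlimxW
  have hstarE : star E = E := by rw [← hvv, star_mul, star_star]
  have hvE : v * E = v := by
    have h0 : star (v - v * E) * (v - v * E) = 0 := by
      rw [star_sub, star_mul, hstarE, sub_mul, mul_sub, mul_sub, ← mul_assoc, hvv]
      have e2 : E * star v * v = E := by rw [mul_assoc, hvv, hEE]
      have e3 : E * star v * (v * E) = E := by
        rw [← mul_assoc, e2, hEE]
      rw [e2, e3, hEE]
      abel
    have := CStarRing.star_mul_self_eq_zero_iff _ |>.mp h0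
    exact (sub_eq_zero.mp this).symm
  have hvR : v * R = x := by
    have h1 := n2_lim_mul_right R hvlim
    have e1 : ∀ k, V k * R = x * W k := by
      intro k
      rw [hV, hW, hR]
      simp only
      rw [mul_assoc, ← cfc_mul (Polar_b k) Real.sqrt h (Polar_b_cont k).continuousOn
        Real.continuous_sqrt.continuousOn]
      congr 1
      apply cfc_congr
      intro t _
      exact (Polar_f_eq k t).symm
    simp_rw [e1] at h1
    exact eq_of_n2_lim h1 hlimxW
  have hmemW : ∀ (S : StarSubalgebra ℂ M), VNSub S → h ∈ S → ∀ f : ℝ → ℝ, cfc f h ∈ S := by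
    intro S hS hhS f
    have : IsClosed (S : Set M) := hS.isClosed
    exact cfc_mem (𝕜 := ℝ) (𝕜' := ℂ) (s := S) f hhS
  refine ⟨v, ?_, ?_, ?_, ?_, ?_⟩
  · show v * star v * v = v
    rw [mul_assoc, hvv, hvE]
  · rw [hvv, hxE]
  · conv_lhs => rw [← hvR]
    rw [mul_assoc, ← mul_assoc (star v), hvv, ← mul_assoc, hvE, hvR]
  · intro S hS hhS
    rw [hvv]
    exact hS W E 1 (fun k => hmemW S hS hhS _) hW1 hElim
  · intro S hS hhS ε hε
    obtain ⟨n₀, h₀⟩ := (Metric.tendsto_atTop.mp hvlim) ε hε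
    refine ⟨cfc (Polar_b n₀) h, hmemW S hS hhS _, hV1 n₀, ?_⟩
    have h1 := h₀ n₀ le_rfl
    rwa [Real.dist_eq, sub_zero, abs_of_nonneg (n2_nonneg _)] at h1

/-- Consequences in the form used later. -/
theorem polar_mem (x : M) (S : StarSubalgebra ℂ M) (hS : VNSub S) (hx : x ∈ S) :
    ∃ v ∈ S, IsPI v ∧ x * (star v * v) = x ∧ (v * star v) * x = x ∧ (x ≠ 0 → v ≠ 0) ∧
      (∀ e : M, e * x = x → e * v = v) ∧ (∀ e : M, star e = e → x * e = x → v * e = v) := by
  obtain ⟨v, h1, h2, h3, h4, h5⟩ := polar x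
  -- approximating sequence for a given algebra
  have key : ∀ T : StarSubalgebra ℂ M, VNSub T → star x * x ∈ T →
      ∃ b : ℕ → M, (∀ n, b n ∈ T) ∧ (∀ n, ‖x * b n‖ ≤ 1) ∧
        Tendsto (fun n => n2 (x * b n - v)) atTop (𝓝 0) := by
    intro T hT hxT
    choose b hb hb1 hb2 using fun n : ℕ => h5 T hT hxT (1 / ((n : ℝ) + 1)) (by positivity)
    refine ⟨b, hb, hb1, ?_⟩
    exact squeeze_zero (fun n => n2_nonneg _) (fun n => (hb2 n).le)
      tendsto_one_div_add_atTop_nhds_zero_nat
  have hxx : star x * x ∈ S := mul_mem (star_mem hx) hx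
  obtain ⟨b, hb, hb1, hb2⟩ := key S hS hxx
  refine ⟨v, hS _ v 1 (fun n => mul_mem hx (hb n)) hb1 hb2, h1, h2, h3, ?_, ?_, ?_⟩
  · intro hx0 hv0
    apply hx0
    rw [← h3, hv0]
    simp
  · intro e he
    have h6 := n2_lim_mul_left e hb2
    have e1 : ∀ n, e * (x * b n) = x * b n := fun n => by rw [← mul_assoc, he]
    simp_rw [e1] at h6
    exact eq_of_n2_lim h6 hb2
  · intro e he hxe
    have hcomm : star x * x ∈ StarSubalgebra.centralizer ℂ ({e} : Set M) := by
      have a1 : star x * x * e = star x * x := by rw [mul_assoc, hxe]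
      have a2 : e * (star x * x) = star x * x := by
        have := congrArg star a1
        rwa [star_mul, he, star_mul, star_star] at this
      rw [StarSubalgebra.mem_centralizer_iff]
      intro g hg
      rw [Set.mem_singleton_iff] at hg
      subst hg
      rw [he]
      exact ⟨by rw [a1, a2], by rw [a1, a2]⟩
    obtain ⟨c, hc, hc1, hc2⟩ := key _ (vnSub_centralizer ({e} : Set M)) hcomm
    have h6 := n2_lim_mul_right e hc2
    have e1 : ∀ n, x * c n * e = x * c n := by
      intro n
      have := ((StarSubalgebra.mem_centralizer_iff ℂ).mp (hc n) e rfl).1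
      rw [mul_assoc, ← this, ← mul_assoc, hxe]
    simp_rw [e1] at h6
    exact eq_of_n2_lim h6 hc2

end Pool.Agent.KUR
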