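import Pool.Agent.KUR.Avg
import Pool.Agent.KUR.Polar

/-!
# KUR Fac: averaging in factors, existence of partial isometries

PROOF.  (1) `dixmier`: apply `avg` with `G = {(u, u) | u ∈ S unitary}`, `x₀ = x`: the resulting `w` is
a 2-norm limit of elements of the hull (norm ≤ ‖x‖, in `S`), so `w ∈ S` (VNSub), `u w star u = w`
for all unitaries of `S`, so `w` commutes with all unitaries of `S`, hence with all of `S`: every
element of the norm closed star subalgebra `S` is a linear combination of unitaries of `S`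
(`h` self-adjoint with `‖h‖ ≤ 1`: `h = (u + star u)/2`, `u = h + i √(1 - h^2)`, and `u ∈ S` by the
continuous functional calculus; mathlib has `Mathlib.Analysis.CStarAlgebra.Unitary.Span`, which can
be applied to the C*-algebra `S`, see `StarSubalgebra.cstarAlgebra` with `VNSub.isClosed`).
So `w = c • 1` and `c = tr w = lim tr y = tr x`.
(2) `dixmier_uniform`: every `y` in the hull is a convex combination of elements `u x star u`, so
`n2 (x - y) ≤ δ`; let `y → tr x • 1`.
(3) `exists_pi`: if `e * z * f = 0` for all `z ∈ S` then `(u e star u) * f = 0`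
(as `e (star u f u) ...`: take `z = star u`; `e * star u * f = 0`), so every element `y` of the hull of
`{u e star u}` has `y * f = 0`; by (1) `tr e • f = 0`, but `tr e = n2 e^2 ≠ 0`, so `f = 0`,
contradiction.  So there is `z ∈ S` with `x := e * z * f ≠ 0`; take its polar part (`polar_mem`).
-/

open Filter Topology

namespace Pool.Agent.KUR

universe u
variable {M : Type u} [CStarAlgebra M] [TVN M]

/-- Elements of `S` are linear combinations of unitaries of `S`. -/
theorem Fac_span {S : StarSubalgebra ℂ M} (hS : VNSub S) {x : M} (hx : x ∈ S) :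
    x ∈ Submodule.span ℂ {u : M | u ∈ S ∧ IsUn u} := by
  have hc : IsClosed (S : Set M) := hS.isClosed
  let _ : CStarAlgebra S := StarSubalgebra.cstarAlgebra S (h_closed := hc)
  have h := CStarAlgebra.span_unitary S
  have hx' : (⟨x, hx⟩ : S) ∈ Submodule.span ℂ (unitary S : Set S) := by rw [h]; trivial
  have h2 := Submodule.mem_map_of_mem (f := (S.subtype : S →⋆ₐ[ℂ] M).toAlgHom.toLinearMap) hx'
  rw [Submodule.map_span] at h2
  refine Submodule.span_mono ?_ h2
  rintro _ ⟨u, hu, rfl⟩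
  refine ⟨u.2, ?_, ?_⟩
  · have := congrArg (fun z : S => (z : M)) (Unitary.star_mul_self_of_mem hu)
    simpa using this
  · have := congrArg (fun z : S => (z : M)) (Unitary.mul_star_self_of_mem hu)
    simpa using this

/-- A linear relation checked on unitaries of `S` holds on `S`. -/
theorem Fac_eq {S : StarSubalgebra ℂ M} (hS : VNSub S) {V : Type*} [AddCommGroup V]
    [Module ℂ V] (f g : M →ₗ[ℂ] V) (h : ∀ u ∈ S, IsUn u → f u = g u) : ∀ x ∈ S, f x = g x := by
  intro x hx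
  exact LinearMap.eqOn_span (fun u hu => h u hu.1 hu.2) (Fac_span hS hx)

/-- Unitaries of `S` span `S`. -/
theorem commute_of_unitaries {S : StarSubalgebra ℂ M} (hS : VNSub S) {y : M}
    (h : ∀ u ∈ S, IsUn u → u * y = y * u) : ∀ x ∈ S, x * y = y * x :=
  Fac_eq hS (LinearMap.mulRight ℂ y) (LinearMap.mulLeft ℂ y) h

/-- A linear relation checked on unitaries of `S` holds on `S`. -/
theorem eq_of_unitaries {S : StarSubalgebra ℂ M} (hS : VNSub S) {V : Type*} [AddCommGroup V]
    [Module ℂ V] (f g : M →ₗ[ℂ] V) (h : ∀ u ∈ S, IsUn u → f u = g u) : ∀ x ∈ S, f x = g x :=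
  Fac_eq hS f g h

/-- A convexity criterion in terms of complex scalars. -/
theorem Fac_hull_sub {A B : Set M} (hAB : A ⊆ B)
    (hB : ∀ y ∈ B, ∀ z ∈ B, ∀ a b : ℝ, 0 ≤ a → 0 ≤ b → a + b = 1 →
      (a : ℂ) • y + (b : ℂ) • z ∈ B) : convexHull ℝ A ⊆ B := by
  refine convexHull_min hAB ?_
  intro y hy z hz a b ha hb hab
  have := hB y hy z hz a b ha hb hab
  rwa [Complex.coe_smul, Complex.coe_smul] at this

theorem Fac_hull {S : StarSubalgebra ℂ M} {x : M} (hx : x ∈ S) :
    convexHull ℝ {z : M | ∃ u ∈ S, IsUn u ∧ z = u * x * star u} ⊆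
      {y | y ∈ S ∧ tr y = tr x ∧ ‖y‖ ≤ ‖x‖} := by
  refine Fac_hull_sub ?_ ?_
  · rintro z ⟨u, hu, hun, rfl⟩
    refine ⟨mul_mem (mul_mem hu hx) (star_mem hu), ?_, ?_⟩
    · rw [tr_mul_comm, ← mul_assoc, hun.1, one_mul]
    · calc ‖u * x * star u‖ ≤ ‖u * x‖ * ‖star u‖ := norm_mul_le _ _
        _ ≤ (‖u‖ * ‖x‖) * ‖star u‖ := by gcongr; exact norm_mul_le _ _
        _ ≤ (1 * ‖x‖) * 1 := by
            gcongr
            · exact hun.norm_le_one
            · exact hun.star.norm_le_one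
        _ = ‖x‖ := by ring
  · rintro y ⟨hy1, hy2, hy3⟩ z ⟨hz1, hz2, hz3⟩ a b ha hb hab
    refine ⟨S.add_mem (S.smul_mem hy1 _) (S.smul_mem hz1 _), ?_, ?_⟩
    · rw [map_add, map_smul, map_smul, hy2, hz2, ← add_smul]
      have : (a : ℂ) + (b : ℂ) = 1 := by exact_mod_cast hab
      rw [this, one_smul]
    · calc ‖(a : ℂ) • y + (b : ℂ) • z‖ ≤ ‖(a : ℂ) • y‖ + ‖(b : ℂ) • z‖ := norm_add_le _ _
        _ = a * ‖y‖ + b * ‖z‖ := by
            rw [norm_smul, norm_smul, Complex.norm_real, Complex.norm_real,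
              Real.norm_of_nonneg ha, Real.norm_of_nonneg hb]
        _ ≤ a * ‖x‖ + b * ‖x‖ := by gcongr
        _ = ‖x‖ := by rw [← add_mul, hab, one_mul]

theorem dixmier {S : StarSubalgebra ℂ M} (hS : VNSub S) (hF : IsFac S) {x : M} (hx : x ∈ S)
    (ε : ℝ) (hε : 0 < ε) :
    ∃ y ∈ convexHull ℝ {z : M | ∃ u ∈ S, IsUn u ∧ z = u * x * star u},
      n2 (tr x • (1 : M) - y) < ε := by
  obtain ⟨w, hw1, hw2, hw3⟩ := avg {p : M × M | ∃ u ∈ S, IsUn u ∧ p = (u, u)}
    ⟨1, S.one_mem, isUn_one, rfl⟩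
    (by rintro p ⟨u, hu, hun, rfl⟩; exact ⟨hun, hun⟩)
    (by
      rintro p ⟨u, hu, hun, rfl⟩ q ⟨v, hv, hvn, rfl⟩
      exact ⟨u * v, S.mul_mem hu hv, hun.mul hvn, rfl⟩) x
  have hset : {z : M | ∃ p ∈ {p : M × M | ∃ u ∈ S, IsUn u ∧ p = (u, u)}, z = p.1 * x * star p.2} =
      {z : M | ∃ u ∈ S, IsUn u ∧ z = u * x * star u} := by
    ext z
    constructor
    · rintro ⟨p, ⟨u, hu, hun, rfl⟩, rfl⟩
      exact ⟨u, hu, hun, rfl⟩
    · rintro ⟨u, hu, hun, rfl⟩
      exact ⟨(u, u), ⟨u, hu, hun, rfl⟩, rfl⟩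
  rw [hset] at hw3
  obtain ⟨y, hy, hyt⟩ := exists_seq_of_approx hw3
  have hwS : w ∈ S := hS y w ‖x‖ (fun n => (Fac_hull hx (hy n)).1)
    (fun n => (Fac_hull hx (hy n)).2.2) hyt
  have htw : tr w = tr x := by
    have h1 := tr_lim hyt
    have h2 : (fun n => tr (y n)) = fun _ => tr x :=
      funext fun n => (Fac_hull hx (hy n)).2.1
    rw [h2] at h1
    exact tendsto_nhds_unique h1 tendsto_const_nhds
  have hcomm : ∀ z ∈ S, z * w = w * z := by
    refine commute_of_unitaries hS ?_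
    intro u hu hun
    have h1 := hw2 (u, u) ⟨u, hu, hun, rfl⟩
    simp only at h1
    calc u * w = u * w * (star u * u) := by rw [hun.1, mul_one]
      _ = u * w * star u * u := by rw [mul_assoc (u * w)]
      _ = w * u := by rw [h1]
  obtain ⟨c, hc⟩ := hF w hwS (fun z hz => (hcomm z hz).symm)
  have hcx : c = tr x := by
    rw [← htw, hc, map_smul, tr_one', smul_eq_mul, mul_one]
  rw [hcx] at hc
  rw [← hc]
  exact hw3 ε hε

theorem dixmier_uniform {S : StarSubalgebra ℂ M} (hS : VNSub S) (hF : IsFac S) {x : M}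
    (hx : x ∈ S) (δ : ℝ) (h : ∀ u ∈ S, IsUn u → n2 (x - u * x * star u) ≤ δ) :
    n2 (x - tr x • (1 : M)) ≤ δ := by
  have hsub : convexHull ℝ {z : M | ∃ u ∈ S, IsUn u ∧ z = u * x * star u} ⊆
      {y | n2 (x - y) ≤ δ} := by
    refine Fac_hull_sub ?_ ?_
    · rintro z ⟨u, hu, hun, rfl⟩
      exact h u hu hun
    · intro y hy z hz a b ha hb hab
      have hy' : n2 (x - y) ≤ δ := hy
      have hz' : n2 (x - z) ≤ δ := hz
      have e : x - ((a : ℂ) • y + (b : ℂ) • z) = (a : ℂ) • (x - y) + (b : ℂ) • (x - z) := by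
        have h1 : (a : ℂ) + (b : ℂ) = 1 := by exact_mod_cast hab
        calc x - ((a : ℂ) • y + (b : ℂ) • z)
            = ((a : ℂ) + (b : ℂ)) • x - ((a : ℂ) • y + (b : ℂ) • z) := by rw [h1, one_smul]
          _ = _ := by module
      show n2 (x - ((a : ℂ) • y + (b : ℂ) • z)) ≤ δ
      rw [e]
      calc n2 ((a : ℂ) • (x - y) + (b : ℂ) • (x - z))
          ≤ n2 ((a : ℂ) • (x - y)) + n2 ((b : ℂ) • (x - z)) := n2_add_le _ _
        _ = a * n2 (x - y) + b * n2 (x - z) := by
            rw [n2_smul, n2_smul, Complex.norm_real, Complex.norm_real,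
              Real.norm_of_nonneg ha, Real.norm_of_nonneg hb]
        _ ≤ a * δ + b * δ := by gcongr
        _ = δ := by rw [← add_mul, hab, one_mul]
  refine le_of_forall_pos_le_add fun ε hε => ?_
  obtain ⟨y, hy, hyε⟩ := dixmier hS hF hx ε hε
  have h1 : n2 (x - y) ≤ δ := hsub hy
  calc n2 (x - tr x • (1 : M)) ≤ n2 (x - y) + n2 (y - tr x • (1 : M)) := n2_sub_le_sub _ _ _
    _ ≤ δ + ε := by
        rw [n2_sub_comm y]
        exact add_le_add h1 hyε.le

theorem exists_pi {S : StarSubalgebra ℂ M} (hS : VNSub S) (hF : IsFac S) {e f : M}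
    (he : e ∈ S) (hf : f ∈ S) (hpe : IsProj e) (hpf : IsProj f) (he0 : e ≠ 0) (hf0 : f ≠ 0) :
    ∃ v ∈ S, v ≠ 0 ∧ IsPI v ∧ e * v = v ∧ v * f = v := by
  have hex : ∃ z ∈ S, e * z * f ≠ 0 := by
    by_contra hcon
    push Not at hcon
    have hsub : convexHull ℝ {z : M | ∃ u ∈ S, IsUn u ∧ z = u * e * star u} ⊆
        {y | y * f = 0} := by
      refine Fac_hull_sub ?_ ?_
      · rintro z ⟨u, hu, hun, rfl⟩
        have h1 := hcon (star u) (star_mem hu)
        show u * e * star u * f = 0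
        calc u * e * star u * f = u * (e * star u * f) := by simp only [mul_assoc]
          _ = 0 := by rw [h1, mul_zero]
      · intro y hy z hz a b _ _ _
        have hy' : y * f = 0 := hy
        have hz' : z * f = 0 := hz
        show ((a : ℂ) • y + (b : ℂ) • z) * f = 0
        rw [add_mul, smul_mul_assoc, smul_mul_assoc, hy', hz', smul_zero, smul_zero, add_zero]
    have hte : tr e ≠ 0 := by
      intro h0
      apply he0
      apply TVN.faithful
      rw [hpe.1, hpe.2]
      exact h0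
    have hz : n2 (tr e • f) ≤ 0 := by
      refine le_of_forall_pos_le_add fun ε hε => ?_
      obtain ⟨y, hy, hyε⟩ := dixmier hS hF he ε hε
      have hyf : y * f = 0 := hsub hy
      have h1 : tr e • f = (tr e • (1 : M) - y) * f := by
        rw [sub_mul, hyf, sub_zero, smul_mul_assoc, one_mul]
      rw [h1, zero_add]
      calc n2 ((tr e • (1 : M) - y) * f) ≤ n2 (tr e • (1 : M) - y) * ‖f‖ := n2_mul_le' _ _
        _ ≤ ε * 1 := by
            gcongr
            exact hpf.norm_le_one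
        _ = ε := mul_one ε
    have h2 : tr e • f = 0 := n2_eq_zero.mp (le_antisymm hz (n2_nonneg _))
    rcases smul_eq_zero.mp h2 with h | h
    · exact hte h
    · exact hf0 h
  obtain ⟨z, hzS, hz0⟩ := hex
  obtain ⟨v, hvS, hv1, _, _, hv4, hv5, hv6⟩ :=
    polar_mem (e * z * f) S hS (S.mul_mem (S.mul_mem he hzS) hf)
  refine ⟨v, hvS, hv4 hz0, hv1, hv5 e ?_, hv6 f hpf.1 ?_⟩
  · rw [← mul_assoc, ← mul_assoc, hpe.2]
  · rw [mul_assoc, hpf.2]

end Pool.Agent.KUR
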