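import Pool.Agent.KUR.Basic2

/-!
# KUR GNS: the tracial von Neumann algebra generated by a tracial state

PROOF.  Let `B` be a C*-algebra with tracial state `φ`.  Let `V` be `B` with the semi inner product
`⟪a, b⟫ = φ (star a * b)` and `H` its Hilbert space completion (mathlib:
`Mathlib.Analysis.CStarAlgebra.GelfandNaimarkSegal`, `PositiveLinearMap.GNS`,
`PositiveLinearMap.gnsStarAlgHom`; use `CStarAlgebra.spectralOrder`, `spectralOrderedRing` as local
instances and make `φ` a positive linear map; positivity on nonneg elements by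
`CStarAlgebra.nonneg_iff_eq_star_mul_self`).
Left multiplication: `λ b : H →L H`, `λ` is a unital star homomorphism (`gnsStarAlgHom`).
Right multiplication `ρ b : a ↦ a * b` is bounded because
`φ (star (a b) * (a b)) = φ (star b * star a * a * b) = φ (a * (b * star b) * star a) ≤ ‖b‖^2 φ (a star a)
= ‖b‖^2 φ (star a * a)`; it extends to `H`, and `(ρ b)^* = ρ (star b)`
(`φ (star (a b) c) = φ (star a * c * star b)` by the trace property).
`T := ` the commutant of `{ρ b | b : B}` in `H →L[ℂ] H`, i.e.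
`StarSubalgebra.centralizer ℂ (Set.range ρ)`, a norm closed star subalgebra, so a C*-algebra.
Let `Ω ∈ H` be the class of `1`; `tr x := ⟪Ω, x Ω⟫`.  `J : H → H`, `a ↦ star a`, is antiunitary.  Key:
`star x Ω = J (x Ω)` for `x ∈ T`: for `a : B`, `⟪a, star x Ω⟫ = ⟪x a, Ω⟫ = ⟪x (ρ a) Ω, Ω⟫ = ⟪ρ a x Ω, Ω⟫ =
⟪x Ω, star a⟫ = ⟪a, J x Ω⟫`.  Hence `tr (x y) = ⟪star x Ω, y Ω⟫ = ⟪J x Ω, y Ω⟫ = ⟪J y Ω, x Ω⟫ = tr (y x)`.
Faithful: `tr (star x x) = ‖x Ω‖^2 = 0` gives `x a = x ρ(a) Ω = ρ(a) x Ω = 0` for all `a`, so `x = 0`.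
Complete: if `‖x n‖ ≤ 1` and `x n Ω` is Cauchy then `x n a = ρ(a) x n Ω` is Cauchy for every `a`, so
`x n` converges strongly (dense set + bounded) to an operator `x`, `‖x‖ ≤ 1`, commuting with all
`ρ b`, and `x n Ω → x Ω`.
`π := λ` has range in `T`; `tr (λ b) = φ b`; density: `x Ω ∈ H` is a limit of classes `b Ω`, and
`n2 (x - λ b) = ‖x Ω - b Ω‖`.
-/

open Filter Topology
open scoped InnerProductSpace ComplexOrder

namespace Pool.Agent.KUR

universe u

section core

variable {B : Type u} [CStarAlgebra B] {φ : B →ₗ[ℂ] ℂ}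
  {H : Type u} [NormedAddCommGroup H] [InnerProductSpace ℂ H] [CompleteSpace H]
  {c : B →ₗ[ℂ] H} {rho : B → (H →L[ℂ] H)}

/-- The adjoint of a right multiplication. -/
private theorem gns_rho_star (hc : ∀ x y, φ (x * y) = φ (y * x)) (hd : DenseRange c)
    (hin : ∀ a b, ⟪c a, c b⟫_ℂ = φ (star a * b)) (hrho : ∀ a b, rho b (c a) = c (a * b)) (b : B) :
    star (rho b) = rho (star b) := by
  symm
  rw [ContinuousLinearMap.star_eq_adjoint, ContinuousLinearMap.eq_adjoint_iff]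
  intro x y
  refine hd.induction_on₂ (p := fun x y => ⟪rho (star b) x, y⟫_ℂ = ⟪x, rho b y⟫_ℂ) ?_ ?_ x y
  · apply isClosed_eq <;> fun_prop
  · intro a a'
    rw [hrho, hrho, hin, hin, star_mul, star_star, mul_assoc, hc, mul_assoc]

/-- Elements commuting with the right multiplications. -/
private theorem gns_mem_iff (hc : ∀ x y, φ (x * y) = φ (y * x)) (hd : DenseRange c)
    (hin : ∀ a b, ⟪c a, c b⟫_ℂ = φ (star a * b)) (hrho : ∀ a b, rho b (c a) = c (a * b))
    (x : H →L[ℂ] H) :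
    x ∈ StarSubalgebra.centralizer ℂ (Set.range rho) ↔ ∀ b, rho b * x = x * rho b := by
  rw [StarSubalgebra.mem_centralizer_iff]
  constructor
  · intro h b
    exact (h _ ⟨b, rfl⟩).1
  · rintro h _ ⟨b, rfl⟩
    exact ⟨h b, by rw [gns_rho_star hc hd hin hrho]; exact h _⟩

omit [CompleteSpace H] in
/-- An operator commuting with the right multiplications is determined by its value at `c 1`. -/
private theorem gns_apply (hrho : ∀ a b, rho b (c a) = c (a * b)) {x : H →L[ℂ] H}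
    (hx : ∀ b, rho b * x = x * rho b) (a : B) : x (c a) = rho a (x (c 1)) := by
  have h := congrArg (fun T : H →L[ℂ] H => T (c 1)) (hx a)
  simp only [mul_apply_eq_comp] at h
  rw [h, hrho, one_mul]

/-- The trace property. -/
private theorem gns_tr_comm (hc : ∀ x y, φ (x * y) = φ (y * x)) (hd : DenseRange c)
    (hin : ∀ a b, ⟪c a, c b⟫_ℂ = φ (star a * b)) (hrho : ∀ a b, rho b (c a) = c (a * b))
    {x y : H →L[ℂ] H} (hx : ∀ b, rho b * x = x * rho b) (hy : ∀ b, rho b * y = y * rho b) :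
    ⟪c 1, x (y (c 1))⟫_ℂ = ⟪c 1, y (x (c 1))⟫_ℂ := by
  have key : ∀ z : H →L[ℂ] H, (∀ b, rho b * z = z * rho b) → ∀ a : B,
      ⟪c a, star z (c 1)⟫_ℂ = ⟪z (c 1), c (star a)⟫_ℂ := by
    intro z hz a
    rw [ContinuousLinearMap.star_eq_adjoint, ContinuousLinearMap.adjoint_inner_right,
      gns_apply hrho hz, ← ContinuousLinearMap.adjoint_inner_right,
      ← ContinuousLinearMap.star_eq_adjoint, gns_rho_star hc hd hin hrho, hrho, one_mul]
  obtain ⟨v, hv, hvt⟩ := mem_closure_iff_seq_limit.mp (hd (y (c 1)))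
  choose b hb using hv
  have hbt : Tendsto (fun n => c (b n)) atTop (𝓝 (y (c 1))) := by
    simpa only [hb] using hvt
  -- the starred sequence is Cauchy
  have hns : ∀ a : B, ‖c (star a)‖ = ‖c a‖ := by
    intro a
    have h1 : ‖c (star a)‖ ^ 2 = ‖c a‖ ^ 2 := by
      have e1 := inner_self_eq_norm_sq_to_K (𝕜 := ℂ) (c (star a))
      have e2 := inner_self_eq_norm_sq_to_K (𝕜 := ℂ) (c a)
      rw [hin, star_star, hc] at e1
      rw [hin, e1] at e2
      exact_mod_cast e2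
    exact (pow_left_inj₀ (norm_nonneg _) (norm_nonneg _) two_ne_zero).mp h1
  have hcs : CauchySeq (fun n => c (star (b n))) := by
    have h2 := hbt.cauchySeq
    rw [Metric.cauchySeq_iff] at h2 ⊢
    intro ε hε
    obtain ⟨N, hN⟩ := h2 ε hε
    refine ⟨N, fun m hm n hn => ?_⟩
    have := hN m hm n hn
    rw [dist_eq_norm, ← map_sub] at this ⊢
    rwa [← star_sub, hns]
  obtain ⟨ζ, hζ⟩ := cauchySeq_tendsto_of_complete hcs
  have hζ' : ζ = star y (c 1) := by
    refine ext_inner_left ℂ (fun w => ?_)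
    refine hd.induction_on (p := fun w => ⟪w, ζ⟫_ℂ = ⟪w, star y (c 1)⟫_ℂ) w ?_ ?_
    · apply isClosed_eq <;> fun_prop
    · intro a
      have t1 : Tendsto (fun n => ⟪c a, c (star (b n))⟫_ℂ) atTop (𝓝 ⟪c a, ζ⟫_ℂ) :=
        tendsto_const_nhds.inner hζ
      have t2 : Tendsto (fun n => ⟪c (b n), c (star a)⟫_ℂ) atTop (𝓝 ⟪y (c 1), c (star a)⟫_ℂ) :=
        hbt.inner tendsto_const_nhds
      have e : (fun n => ⟪c a, c (star (b n))⟫_ℂ) = fun n => ⟪c (b n), c (star a)⟫_ℂ := by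
        funext n; rw [hin, hin, hc]
      rw [e] at t1
      rw [key y hy, tendsto_nhds_unique t1 t2]
  have t3 : Tendsto (fun n => ⟪star x (c 1), c (b n)⟫_ℂ) atTop (𝓝 ⟪star x (c 1), y (c 1)⟫_ℂ) :=
    tendsto_const_nhds.inner hbt
  have t4 : Tendsto (fun n => ⟪c (star (b n)), x (c 1)⟫_ℂ) atTop (𝓝 ⟪ζ, x (c 1)⟫_ℂ) :=
    hζ.inner tendsto_const_nhds
  have e : (fun n => ⟪star x (c 1), c (b n)⟫_ℂ) = fun n => ⟪c (star (b n)), x (c 1)⟫_ℂ := by
    funext n
    rw [← inner_conj_symm, key x hx, inner_conj_symm]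
  rw [e] at t3
  have h5 := tendsto_nhds_unique t3 t4
  rw [hζ', ContinuousLinearMap.star_eq_adjoint, ContinuousLinearMap.star_eq_adjoint,
    ContinuousLinearMap.adjoint_inner_left, ContinuousLinearMap.adjoint_inner_left] at h5
  exact h5

/-- Completeness. -/
private theorem gns_complete (hd : DenseRange c) (hrho : ∀ a b, rho b (c a) = c (a * b))
    (x : ℕ → (H →L[ℂ] H)) (hx : ∀ n b, rho b * x n = x n * rho b) (hx1 : ∀ n, ‖x n‖ ≤ 1)
    (hC : CauchySeq (fun n => x n (c 1))) :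
    ∃ y : H →L[ℂ] H, (∀ b, rho b * y = y * rho b) ∧ ‖y‖ ≤ 1 ∧
      Tendsto (fun n => x n (c 1)) atTop (𝓝 (y (c 1))) := by
  have h1 : ∀ a : B, CauchySeq (fun n => x n (c a)) := by
    intro a
    have e : (fun n => x n (c a)) = fun n => rho a (x n (c 1)) := by
      funext n; exact gns_apply hrho (hx n) a
    rw [e]
    exact (rho a).uniformContinuous.comp_cauchySeq hC
  have h2 : ∀ ξ : H, ∃ η : H, Tendsto (fun n => x n ξ) atTop (𝓝 η) := by
    intro ξ
    apply cauchySeq_tendsto_of_complete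
    rw [Metric.cauchySeq_iff]
    intro ε hε
    obtain ⟨a, ha⟩ := hd.exists_dist_lt ξ (show 0 < ε / 3 by linarith)
    obtain ⟨N, hN⟩ := Metric.cauchySeq_iff.mp (h1 a) (ε / 3) (by linarith)
    refine ⟨N, fun m hm n hn => ?_⟩
    have h3 := hN m hm n hn
    have h4 : ∀ k, dist (x k ξ) (x k (c a)) ≤ dist ξ (c a) := by
      intro k
      rw [dist_eq_norm, dist_eq_norm, ← map_sub]
      calc ‖x k (ξ - c a)‖ ≤ ‖x k‖ * ‖ξ - c a‖ := (x k).le_opNorm _
        _ ≤ 1 * ‖ξ - c a‖ := by gcongr; exact hx1 k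
        _ = _ := one_mul _
    calc dist (x m ξ) (x n ξ) ≤ dist (x m ξ) (x m (c a)) + dist (x m (c a)) (x n (c a))
          + dist (x n (c a)) (x n ξ) := dist_triangle4 _ _ _ _
      _ < ε := by
        have h5 := h4 m
        have h6 := h4 n
        rw [dist_comm (x n (c a))]
        linarith
  choose f hf using h2
  have hft : Tendsto (fun n ξ => x n ξ) atTop (𝓝 f) := tendsto_pi_nhds.mpr hf
  let y : H →L[ℂ] H := continuousLinearMapOfTendsto x hft
  have hy : ∀ ξ, y ξ = f ξ := fun ξ => rfl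
  refine ⟨y, ?_, ?_, ?_⟩
  · intro b
    ext ξ
    simp only [mul_apply_eq_comp, hy]
    have t1 : Tendsto (fun n => rho b (x n ξ)) atTop (𝓝 (rho b (f ξ))) :=
      ((rho b).continuous.tendsto _).comp (hf ξ)
    have t2 := hf (rho b ξ)
    have e : (fun n => rho b (x n ξ)) = fun n => x n (rho b ξ) := by
      funext n
      exact congrArg (fun T : H →L[ℂ] H => T ξ) (hx n b)
    rw [e] at t1
    exact tendsto_nhds_unique t1 t2
  · refine ContinuousLinearMap.opNorm_le_bound _ zero_le_one (fun ξ => ?_)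
    rw [one_mul, hy]
    refine le_of_tendsto (hf ξ).norm (Eventually.of_forall (fun n => ?_))
    calc ‖x n ξ‖ ≤ ‖x n‖ * ‖ξ‖ := (x n).le_opNorm _
      _ ≤ 1 * ‖ξ‖ := by gcongr; exact hx1 n
      _ = _ := one_mul _
  · exact hf (c 1)

private theorem gns_core (h1 : φ 1 = 1) (hc : ∀ x y, φ (x * y) = φ (y * x)) (hd : DenseRange c)
    (hin : ∀ a b, ⟪c a, c b⟫_ℂ = φ (star a * b)) (lam : B →⋆ₐ[ℂ] (H →L[ℂ] H))
    (hlam : ∀ a b, lam a (c b) = c (a * b)) (hrho : ∀ a b, rho b (c a) = c (a * b)) :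
    ∃ (T : Type u) (_ : CStarAlgebra T) (_ : TVN T) (π : B →⋆ₐ[ℂ] T),
      (∀ b, tr (π b) = φ b) ∧ ∀ x : T, ∀ ε : ℝ, 0 < ε → ∃ b : B, n2 (x - π b) < ε := by
  have hmem := gns_mem_iff hc hd hin hrho
  have hcl : IsClosed ((StarSubalgebra.centralizer ℂ (Set.range rho) :
      StarSubalgebra ℂ (H →L[ℂ] H)) : Set (H →L[ℂ] H)) := by
    rw [StarSubalgebra.coe_centralizer]
    exact Set.isClosed_centralizer _
  let S : StarSubalgebra ℂ (H →L[ℂ] H) := StarSubalgebra.centralizer ℂ (Set.range rho)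
  let _ : CStarAlgebra S := StarSubalgebra.cstarAlgebra S (h_closed := hcl)
  have hS : ∀ x : S, ∀ b, rho b * (x : H →L[ℂ] H) = (x : H →L[ℂ] H) * rho b :=
    fun x => (hmem _).mp x.2
  have hself : ∀ x : S, ⟪c 1, ((star x * x : S) : H →L[ℂ] H) (c 1)⟫_ℂ
      = ((‖(x : H →L[ℂ] H) (c 1)‖ ^ 2 : ℝ) : ℂ) := by
    intro x
    show ⟪c 1, (star (x : H →L[ℂ] H) * (x : H →L[ℂ] H)) (c 1)⟫_ℂ = _
    rw [mul_apply_eq_comp, ContinuousLinearMap.star_eq_adjoint,
      ContinuousLinearMap.adjoint_inner_right, inner_self_eq_norm_sq_to_K]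
    norm_cast
  let _ : TVN S :=
    { tr :=
        { toFun := fun x => ⟪c 1, (x : H →L[ℂ] H) (c 1)⟫_ℂ
          map_add' := fun x y => by
            show ⟪c 1, ((x : H →L[ℂ] H) + (y : H →L[ℂ] H)) (c 1)⟫_ℂ = _
            rw [add_apply, inner_add_right]
          map_smul' := fun r x => by
            show ⟪c 1, (r • (x : H →L[ℂ] H)) (c 1)⟫_ℂ = _
            rw [smul_apply, inner_smul_right]
            rfl }
      tr_one := by
        show ⟪c 1, (1 : H →L[ℂ] H) (c 1)⟫_ℂ = 1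
        rw [one_apply_eq_self, hin, star_one, one_mul, h1]
      tr_comm := fun x y => by
        show ⟪c 1, ((x : H →L[ℂ] H) * (y : H →L[ℂ] H)) (c 1)⟫_ℂ
          = ⟪c 1, ((y : H →L[ℂ] H) * (x : H →L[ℂ] H)) (c 1)⟫_ℂ
        rw [mul_apply_eq_comp, mul_apply_eq_comp]
        exact gns_tr_comm hc hd hin hrho (hS x) (hS y)
      tr_re_nonneg := fun x => by
        show 0 ≤ (⟪c 1, ((star x * x : S) : H →L[ℂ] H) (c 1)⟫_ℂ).re
        rw [hself, Complex.ofReal_re]; positivity
      tr_im_zero := fun x => by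
        show (⟪c 1, ((star x * x : S) : H →L[ℂ] H) (c 1)⟫_ℂ).im = 0
        rw [hself, Complex.ofReal_im]
      faithful := fun x hx => by
        have hx' : ⟪c 1, ((star x * x : S) : H →L[ℂ] H) (c 1)⟫_ℂ = 0 := hx
        rw [hself] at hx'
        have h2 : ‖(x : H →L[ℂ] H) (c 1)‖ ^ 2 = 0 := by exact_mod_cast hx'
        have h3 : (x : H →L[ℂ] H) (c 1) = 0 := by
          rw [pow_eq_zero_iff two_ne_zero, norm_eq_zero] at h2; exact h2
        apply Subtype.ext
        show (x : H →L[ℂ] H) = 0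
        ext ξ
        refine hd.induction_on (p := fun ξ => (x : H →L[ℂ] H) ξ = (0 : H →L[ℂ] H) ξ) ξ ?_ ?_
        · exact isClosed_eq (x : H →L[ℂ] H).continuous (0 : H →L[ℂ] H).continuous
        · intro a
          rw [gns_apply hrho (hS x), h3, map_zero, zero_apply]
      complete := fun x hx1 hC => by
        have hC' : CauchySeq (fun n => (x n : H →L[ℂ] H) (c 1)) := by
          rw [Metric.cauchySeq_iff]
          intro ε hε
          obtain ⟨n₀, h₀⟩ := hC (ε ^ 2) (by positivity)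
          refine ⟨n₀, fun m hm n hn => ?_⟩
          have h4 := h₀ m n hm hn
          have h5 : (⟪c 1, ((star (x m - x n) * (x m - x n) : S) : H →L[ℂ] H) (c 1)⟫_ℂ).re
            < ε ^ 2 := h4
          rw [hself, Complex.ofReal_re] at h5
          have h6 := lt_of_pow_lt_pow_left₀ 2 hε.le h5
          rw [dist_eq_norm]
          exact h6
        obtain ⟨y, hy, hy1, hyt⟩ := gns_complete hd hrho (fun n => (x n : H →L[ℂ] H))
          (fun n => hS (x n)) hx1 hC'
        refine ⟨⟨y, (hmem y).mpr hy⟩, hy1, ?_⟩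
        have e : ∀ n, (⟪c 1, ((star (x n - ⟨y, (hmem y).mpr hy⟩) * (x n - ⟨y, (hmem y).mpr hy⟩) : S)
            : H →L[ℂ] H) (c 1)⟫_ℂ).re = ‖(x n : H →L[ℂ] H) (c 1) - y (c 1)‖ ^ 2 := by
          intro n
          rw [hself, Complex.ofReal_re]
          rfl
        have t := (tendsto_iff_norm_sub_tendsto_zero.mp hyt).pow 2
        rw [zero_pow two_ne_zero] at t
        exact t.congr (fun n => (e n).symm) }
  have hn2 : ∀ x : S, n2 x = ‖(x : H →L[ℂ] H) (c 1)‖ := by
    intro x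
    have h2 : n2 x = Real.sqrt (⟪c 1, ((star x * x : S) : H →L[ℂ] H) (c 1)⟫_ℂ).re := rfl
    rw [h2, hself, Complex.ofReal_re, Real.sqrt_sq (norm_nonneg _)]
  have hlamS : ∀ b, lam b ∈ S := by
    intro b
    refine (hmem _).mpr (fun b' => ?_)
    ext ξ
    refine hd.induction_on (p := fun ξ => (rho b' * lam b) ξ = (lam b * rho b') ξ) ξ ?_ ?_
    · exact isClosed_eq (rho b' * lam b).continuous (lam b * rho b').continuous
    · intro a
      rw [mul_apply_eq_comp, mul_apply_eq_comp, hlam, hrho, hrho, hlam,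
        mul_assoc]
  refine ⟨S, inferInstance, inferInstance, lam.codRestrict S hlamS, ?_, ?_⟩
  · intro b
    show ⟪c 1, lam b (c 1)⟫_ℂ = φ b
    rw [hlam, hin, star_one, one_mul, mul_one]
  · intro x ε hε
    obtain ⟨b, hb⟩ := hd.exists_dist_lt ((x : H →L[ℂ] H) (c 1)) hε
    refine ⟨b, ?_⟩
    rw [hn2]
    rw [dist_eq_norm] at hb
    have e : ((x - lam.codRestrict S hlamS b : S) : H →L[ℂ] H) (c 1)
        = (x : H →L[ℂ] H) (c 1) - c b := by
      show ((x : H →L[ℂ] H) - lam b) (c 1) = _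
      rw [sub_apply, hlam, mul_one]
    rw [e]
    exact hb

end core

theorem gns (B : Type u) [CStarAlgebra B] (φ : B →ₗ[ℂ] ℂ) (h1 : φ 1 = 1)
    (hc : ∀ x y, φ (x * y) = φ (y * x)) (hre : ∀ x, 0 ≤ (φ (star x * x)).re)
    (him : ∀ x, (φ (star x * x)).im = 0) :
    ∃ (T : Type u) (_ : CStarAlgebra T) (_ : TVN T) (π : B →⋆ₐ[ℂ] T),
      (∀ b, tr (π b) = φ b) ∧ ∀ x : T, ∀ ε : ℝ, 0 < ε → ∃ b : B, n2 (x - π b) < ε := by
  let _ : PartialOrder B := CStarAlgebra.spectralOrder B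
  have _ : StarOrderedRing B := CStarAlgebra.spectralOrderedRing B
  let f : B →ₚ[ℂ] ℂ := PositiveLinearMap.mk₀ φ (fun x hx => by
    obtain ⟨b, rfl⟩ := CStarAlgebra.nonneg_iff_eq_star_mul_self.mp hx
    rw [Complex.le_def]
    exact ⟨hre b, (him b).symm⟩)
  have hf : ∀ x, f x = φ x := fun x => rfl
  let c : B →ₗ[ℂ] f.GNS :=
    (UniformSpace.Completion.toComplL (𝕜 := ℂ) (E := f.PreGNS)).toLinearMap ∘ₗ
      f.toPreGNS.toLinearMap
  have hcc : ∀ b, c b = ((f.toPreGNS b : f.PreGNS) : f.GNS) := fun b => rfl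
  have hd : DenseRange c := by
    have h2 : DenseRange ((↑) : f.PreGNS → f.GNS) := UniformSpace.Completion.denseRange_coe
    exact h2
  have hin : ∀ a b, ⟪c a, c b⟫_ℂ = φ (star a * b) := by
    intro a b
    rw [hcc, hcc, UniformSpace.Completion.inner_coe, PositiveLinearMap.preGNS_inner_def]
    rfl
  have hnorm : ∀ a : f.PreGNS, ‖a‖ ^ 2 = (φ (star (f.ofPreGNS a) * f.ofPreGNS a)).re := by
    intro a
    have h2 := f.preGNS_norm_sq a
    rw [hf] at h2
    rw [← h2]
    norm_cast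
  have hbd : ∀ (b : B) (x : f.PreGNS), ‖f.toPreGNS (f.ofPreGNS x * b)‖ ≤ ‖b‖ * ‖x‖ := by
    intro b x
    have h3 : ‖f.toPreGNS (f.ofPreGNS x * b)‖ ^ 2 ≤ (‖b‖ * ‖x‖) ^ 2 := by
      rw [hnorm, mul_pow, hnorm, PositiveLinearMap.ofPreGNS_toPreGNS]
      set a := f.ofPreGNS x
      have e1 : φ (star (a * b) * (a * b)) = φ (a * (b * star b) * star a) := by
        rw [hc]
        congr 1
        rw [star_mul]
        simp only [mul_assoc]
      have h4 : a * (b * star b) * star a ≤ (‖b‖ ^ 2 : ℝ) • (a * star a) := by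
        have := CStarAlgebra.star_right_conjugate_le_norm_smul (a := a) (b := b * star b)
          (IsSelfAdjoint.mul_star_self b)
        rw [CStarRing.norm_self_mul_star, ← sq] at this
        simpa using this
      have h5 : 0 ≤ (φ ((‖b‖ ^ 2 : ℝ) • (a * star a) - a * (b * star b) * star a)).re := by
        obtain ⟨z, hz⟩ := CStarAlgebra.nonneg_iff_eq_star_mul_self.mp (sub_nonneg.mpr h4)
        rw [hz]; exact hre z
      have e3 : (‖b‖ ^ 2 : ℝ) • (a * star a) = ((‖b‖ ^ 2 : ℝ) : ℂ) • (a * star a) :=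
        (Complex.coe_smul (‖b‖ ^ 2) (a * star a)).symm
      rw [e3, map_sub, map_smul, Complex.sub_re, smul_eq_mul, Complex.re_ofReal_mul] at h5
      rw [e1, hc (star a) a]
      linarith
    exact le_of_sq_le_sq h3 (by positivity)
  let R : B → (f.PreGNS →L[ℂ] f.PreGNS) := fun b =>
    LinearMap.mkContinuous
      { toFun := fun x => f.toPreGNS (f.ofPreGNS x * b)
        map_add' := fun x y => by rw [map_add, add_mul, map_add]
        map_smul' := fun r x => by rw [map_smul, smul_mul_assoc, map_smul]; rfl }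
      ‖b‖ (hbd b)
  have hR : ∀ a b, R b (f.toPreGNS a) = f.toPreGNS (a * b) := fun a b => rfl
  refine gns_core h1 hc hd hin f.gnsStarAlgHom ?_ (rho := fun b => (R b).completion) ?_
  · intro a b
    rw [hcc, hcc]
    exact PositiveLinearMap.gnsNonUnitalStarAlgHom_apply_coe f
  · intro a b
    rw [hcc, hcc, ← hR]
    exact ContinuousLinearMap.completion_apply_coe _ _

end Pool.Agent.KUR
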