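import Mathlib

/-!
# KUR Kest: Kesten's norm bound transferred to representations with square summable coefficients

PROOF.  Let `F = FreeGroup (Fin k)`, `g_i = FreeGroup.of i`.
(1) Regular representation: on `ℓ²(F)` (or on finitely supported functions with the `ℓ²` norm,
`F →₀ ℂ`, which is enough) let `λ g` be left translation.  `‖∑_i λ g_i f‖₂ ≤ 2 √k ‖f‖₂`:
let `P_i` be the restriction to the set of reduced words starting with `g_i`, `Q_i` the restriction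
to those starting with `g_i⁻¹`.  `λ g_i = P_i λ g_i + (1 - P_i) λ g_i` and
`(1 - P_i) λ g_i = λ g_i Q_i` (the word of `g_i w` does not start with `g_i` iff the word of `w` starts
with `g_i⁻¹`).  The `P_i λ g_i f` are mutually orthogonal, so `‖∑ P_i λ g_i f‖² = ∑ ‖P_i λ g_i f‖² ≤
k ‖f‖²`; and `‖∑ λ g_i Q_i f‖ ≤ ∑ ‖Q_i f‖ ≤ √k (∑ ‖Q_i f‖²)^{1/2} ≤ √k ‖f‖`.  Sum: `2 √k`.
(2) Let `X = (∑ π g_i)^* (∑ π g_i)`, i.e. `X v = ∑_{i,l} π (g_i⁻¹ g_l) v` (the adjoint of `π g` is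
`π g⁻¹` because `π g` is an isometric bijection).  For `v` in the span of `D`, the coefficient
function `c g = ⟪π g v, v⟫` is square summable (sesquilinear expansion of finite sums; sums of square
summable functions are square summable).  `⟪X^n v, v⟫ = ∑_g y_n g * c g`-type finite sum, where
`y_n = (f^* f)^{*n} ∈ F →₀ ℂ` is the n-th convolution power applied to `δ_1`, with
`‖y_n‖₂ ≤ (2√k)^{2n}` by (1) [f = ∑ g_i, and the adjoint of `λ f` has the same norm; or apply (1)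
also to inverses: the same proof gives the bound for `∑ λ g_i⁻¹`].  So by Cauchy-Schwarz
`|⟪X^n v, v⟫| ≤ (2√k)^{2n} ‖c‖₂`.
(3) `a_n := ⟪X^n v, v⟫ ≥ 0` satisfies `a_n^2 ≤ a_{2n} a_0` (`a_n = ⟪X^n v, v⟫ ≤ ‖X^n v‖ ‖v‖`,
`‖X^n v‖^2 = a_{2n}`), so `a_1^{2^m} ≤ a_{2^m} a_0^{2^m - 1}`; with (2), taking `2^m`-th roots,
`a_1 ≤ (2√k)^2 a_0`, i.e. `‖∑ π g_i v‖ ≤ 2√k ‖v‖`.
(4) By continuity the inequality extends to the closure of the span.
-/

open Filter Topology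
open scoped InnerProductSpace

namespace Pool.Agent.KUR

private def kx {k : ℕ} (b : Bool) (i : Fin k) : FreeGroup (Fin k) := FreeGroup.mk [(i, b)]

private def kP {k : ℕ} (b : Bool) (i : Fin k) (h : FreeGroup (Fin k)) : Prop :=
  (FreeGroup.toWord h).head? = some (i, b)

private lemma kP_unique {k : ℕ} (b : Bool) (i j : Fin k) (h : FreeGroup (Fin k))
    (h1 : kP b i h) (h2 : kP b j h) : i = j := by
  unfold kP at h1 h2
  rw [h1] at h2
  simpa using h2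

private lemma kP_key {k : ℕ} (b : Bool) (i : Fin k) (h : FreeGroup (Fin k)) :
    kP b i (kx b i * h) ↔ ¬ kP (!b) i h := by
  unfold kP kx
  have h0 : FreeGroup.toWord (FreeGroup.mk [(i, b)] * h) =
      FreeGroup.reduce ((i, b) :: FreeGroup.toWord h) := by
    conv_lhs => rw [← FreeGroup.mk_toWord (x := h)]
    rw [FreeGroup.mul_mk, FreeGroup.toWord_mk]
    rfl
  rw [h0, FreeGroup.reduce.cons, FreeGroup.reduce_toWord]
  have hr := FreeGroup.isReduced_toWord (x := h)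
  rcases hw : FreeGroup.toWord h with _ | ⟨⟨j, c⟩, tl⟩
  · simp
  · rw [hw] at hr
    dsimp only
    split_ifs with hc
    · obtain ⟨hc1, hc2⟩ := hc
      subst hc1
      have hcb : c = !b := by rw [hc2]; simp
      subst hcb
      simp only [List.head?_cons, not_true_eq_false, iff_false]
      intro h3
      rcases tl with _ | ⟨⟨j', c'⟩, tl'⟩
      · simp at h3
      · simp only [List.head?_cons, Option.some.injEq, Prod.mk.injEq] at h3
        obtain ⟨h4, h5⟩ := h3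
        subst h4 h5
        rw [FreeGroup.isReduced_cons_cons] at hr
        have := hr.1 rfl
        simp at this
    · simp only [List.head?_cons, true_iff]
      intro h3
      apply hc
      simp only [Option.some.injEq, Prod.mk.injEq] at h3
      obtain ⟨h4, h5⟩ := h3
      subst h4 h5
      simp

private lemma kx_inv {k : ℕ} (b : Bool) (i : Fin k) : (kx b i)⁻¹ = kx (!b) i := by
  unfold kx
  rw [FreeGroup.inv_mk]
  rfl

private lemma kx_true {k : ℕ} (i : Fin k) : kx true i = FreeGroup.of i := rfl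


open Classical in
private noncomputable def kw {k : ℕ} (b : Bool) (i : Fin k) (h : FreeGroup (Fin k)) : ℝ :=
  if kP b i h then 2 * (k : ℝ) else 2

private lemma kw_nonneg {k : ℕ} (b : Bool) (i : Fin k) (h : FreeGroup (Fin k)) : 0 ≤ kw b i h := by
  unfold kw; split_ifs <;> positivity

private lemma kw_le {k : ℕ} (b : Bool) (i : Fin k) (h : FreeGroup (Fin k)) :
    kw b i h ≤ 2 * (k : ℝ) + 2 := by
  unfold kw; split_ifs
  · linarith
  · have : (0 : ℝ) ≤ k := by positivity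
    linarith

private lemma kP_card {k : ℕ} (b : Bool) (h : FreeGroup (Fin k)) (E : Finset (Fin k))
    (hE : ∀ i ∈ E, kP b i h) : E.card ≤ 1 := by
  rw [Finset.card_le_one]
  intro i hi j hj
  exact kP_unique b i j h (hE i hi) (hE j hj)

private lemma kw_sum {k : ℕ} (b : Bool) (h : FreeGroup (Fin k)) :
    ∑ i, kw b i h ≤ 4 * (k : ℝ) := by
  classical
  have h1 : ∀ i, kw b i h ≤ 2 + (if kP b i h then 2 * (k : ℝ) else 0) := by
    intro i
    unfold kw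
    split_ifs <;> linarith
  calc ∑ i, kw b i h ≤ ∑ i, (2 + (if kP b i h then 2 * (k : ℝ) else 0)) :=
        Finset.sum_le_sum fun i _ => h1 i
    _ = 2 * (k : ℝ) + ((Finset.univ.filter fun i => kP b i h).card : ℝ) * (2 * (k : ℝ)) := by
        rw [Finset.sum_add_distrib, Finset.sum_const, ← Finset.sum_filter, Finset.sum_const]
        simp
        ring
    _ ≤ 4 * (k : ℝ) := by
        have h2 : ((Finset.univ.filter fun i => kP b i h).card : ℝ) ≤ 1 := by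
          exact_mod_cast kP_card b h _ (fun i hi => (Finset.mem_filter.1 hi).2)
        have h3 : (0 : ℝ) ≤ 2 * (k : ℝ) := by positivity
        nlinarith

private lemma ksq_sum {ι : Type*} (s : Finset ι) (f : ι → ℂ) (m : ℝ) (hm : (s.card : ℝ) ≤ m) :
    ‖∑ i ∈ s, f i‖ ^ 2 ≤ m * ∑ i ∈ s, ‖f i‖ ^ 2 := by
  have h1 : ‖∑ i ∈ s, f i‖ ≤ ∑ i ∈ s, ‖f i‖ := norm_sum_le _ _
  have h2 : (∑ i ∈ s, ‖f i‖) ^ 2 ≤ (s.card : ℝ) * ∑ i ∈ s, ‖f i‖ ^ 2 := by
    have := sq_sum_le_card_mul_sum_sq (s := s) (f := fun i => ‖f i‖)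
    exact_mod_cast this
  have h3 : ‖∑ i ∈ s, f i‖ ^ 2 ≤ (∑ i ∈ s, ‖f i‖) ^ 2 :=
    pow_le_pow_left₀ (norm_nonneg _) h1 2
  have h4 : 0 ≤ ∑ i ∈ s, ‖f i‖ ^ 2 := Finset.sum_nonneg fun i _ => by positivity
  nlinarith [mul_le_mul_of_nonneg_right hm h4]

private lemma kadd_sq (x y : ℂ) : ‖x + y‖ ^ 2 ≤ 2 * ‖x‖ ^ 2 + 2 * ‖y‖ ^ 2 := by
  have h1 : ‖x + y‖ ≤ ‖x‖ + ‖y‖ := norm_add_le _ _
  have h2 : ‖x + y‖ ^ 2 ≤ (‖x‖ + ‖y‖) ^ 2 := pow_le_pow_left₀ (norm_nonneg _) h1 2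
  nlinarith [sq_nonneg (‖x‖ - ‖y‖)]

private lemma kL_pt {k : ℕ} (b : Bool) (c : FreeGroup (Fin k) → ℂ) (h : FreeGroup (Fin k)) :
    ‖∑ i, c (kx b i * h)‖ ^ 2 ≤ ∑ i, kw b i (kx b i * h) * ‖c (kx b i * h)‖ ^ 2 := by
  classical
  have e1 : ∑ i, c (kx b i * h) = ∑ i ∈ Finset.univ.filter (fun i => kP (!b) i h), c (kx b i * h)
      + ∑ i ∈ Finset.univ.filter (fun i => ¬ kP (!b) i h), c (kx b i * h) :=
    (Finset.sum_filter_add_sum_filter_not _ _ _).symm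
  have e2 : ∑ i, kw b i (kx b i * h) * ‖c (kx b i * h)‖ ^ 2 =
      ∑ i ∈ Finset.univ.filter (fun i => kP (!b) i h), kw b i (kx b i * h) * ‖c (kx b i * h)‖ ^ 2
      + ∑ i ∈ Finset.univ.filter (fun i => ¬ kP (!b) i h),
        kw b i (kx b i * h) * ‖c (kx b i * h)‖ ^ 2 :=
    (Finset.sum_filter_add_sum_filter_not _ _ _).symm
  have e3 : ∑ i ∈ Finset.univ.filter (fun i => kP (!b) i h),
      kw b i (kx b i * h) * ‖c (kx b i * h)‖ ^ 2 =
      2 * ∑ i ∈ Finset.univ.filter (fun i => kP (!b) i h), ‖c (kx b i * h)‖ ^ 2 := by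
    rw [Finset.mul_sum]
    refine Finset.sum_congr rfl fun i hi => ?_
    have h1 := (Finset.mem_filter.1 hi).2
    have h2 : ¬ kP b i (kx b i * h) := by
      rw [kP_key]; exact fun h3 => h3 h1
    unfold kw
    rw [if_neg h2]
  have e4 : ∑ i ∈ Finset.univ.filter (fun i => ¬ kP (!b) i h),
      kw b i (kx b i * h) * ‖c (kx b i * h)‖ ^ 2 =
      2 * (k : ℝ) * ∑ i ∈ Finset.univ.filter (fun i => ¬ kP (!b) i h), ‖c (kx b i * h)‖ ^ 2 := by
    rw [Finset.mul_sum]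
    refine Finset.sum_congr rfl fun i hi => ?_
    have h1 := (Finset.mem_filter.1 hi).2
    have h2 : kP b i (kx b i * h) := by
      rw [kP_key]; exact h1
    unfold kw
    rw [if_pos h2]
  rw [e1, e2, e3, e4]
  have h5 := kadd_sq (∑ i ∈ Finset.univ.filter (fun i => kP (!b) i h), c (kx b i * h))
    (∑ i ∈ Finset.univ.filter (fun i => ¬ kP (!b) i h), c (kx b i * h))
  have h6 := ksq_sum (Finset.univ.filter (fun i => kP (!b) i h)) (fun i => c (kx b i * h)) 1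
    (by exact_mod_cast kP_card (!b) h _ (fun i hi => (Finset.mem_filter.1 hi).2))
  have h7 := ksq_sum (Finset.univ.filter (fun i => ¬ kP (!b) i h)) (fun i => c (kx b i * h)) k
    (by
      have := Finset.card_le_univ (Finset.univ.filter (fun i : Fin k => ¬ kP (!b) i h))
      rw [Fintype.card_fin] at this
      exact_mod_cast this)
  nlinarith

private lemma kL {k : ℕ} (b : Bool) (c : FreeGroup (Fin k) → ℂ)
    (hc : Summable fun g => ‖c g‖ ^ 2) :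
    (Summable fun h => ‖∑ i, c (kx b i * h)‖ ^ 2) ∧
      ∑' h, ‖∑ i, c (kx b i * h)‖ ^ 2 ≤ 4 * (k : ℝ) * ∑' g, ‖c g‖ ^ 2 := by
  have s1 : ∀ i : Fin k, Summable fun g => kw b i g * ‖c g‖ ^ 2 := by
    intro i
    refine Summable.of_nonneg_of_le (fun g => mul_nonneg (kw_nonneg b i g) (by positivity))
      (fun g => ?_) (hc.mul_left (2 * (k : ℝ) + 2))
    exact mul_le_mul_of_nonneg_right (kw_le b i g) (by positivity)
  have s2 : ∀ i : Fin k, Summable fun h => kw b i (kx b i * h) * ‖c (kx b i * h)‖ ^ 2 := fun i =>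
    ((Equiv.mulLeft (kx b i)).summable_iff (f := fun g => kw b i g * ‖c g‖ ^ 2)).2 (s1 i)
  have s3 : Summable fun h => ∑ i, kw b i (kx b i * h) * ‖c (kx b i * h)‖ ^ 2 :=
    summable_sum fun i _ => s2 i
  have s4 : Summable fun h => ‖∑ i, c (kx b i * h)‖ ^ 2 :=
    Summable.of_nonneg_of_le (fun h => by positivity) (fun h => kL_pt b c h) s3
  refine ⟨s4, ?_⟩
  calc ∑' h, ‖∑ i, c (kx b i * h)‖ ^ 2
      ≤ ∑' h, ∑ i, kw b i (kx b i * h) * ‖c (kx b i * h)‖ ^ 2 :=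
        s4.tsum_le_tsum (fun h => kL_pt b c h) s3
    _ = ∑ i, ∑' h, kw b i (kx b i * h) * ‖c (kx b i * h)‖ ^ 2 :=
        Summable.tsum_finsetSum fun i _ => s2 i
    _ = ∑ i, ∑' g, kw b i g * ‖c g‖ ^ 2 :=
        Finset.sum_congr rfl fun i _ =>
          (Equiv.mulLeft (kx b i)).tsum_eq (fun g => kw b i g * ‖c g‖ ^ 2)
    _ = ∑' g, ∑ i, kw b i g * ‖c g‖ ^ 2 :=
        (Summable.tsum_finsetSum fun i _ => s1 i).symm
    _ ≤ ∑' g, 4 * (k : ℝ) * ‖c g‖ ^ 2 := by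
        refine (summable_sum fun i _ => s1 i).tsum_le_tsum (fun g => ?_) (hc.mul_left _)
        rw [← Finset.sum_mul]
        exact mul_le_mul_of_nonneg_right (kw_sum b g) (by positivity)
    _ = 4 * (k : ℝ) * ∑' g, ‖c g‖ ^ 2 := tsum_mul_left

private lemma kroot (x a K : ℝ) (ha : 0 < a)
    (h : ∀ m : ℕ, x ^ (2 ^ m) ≤ K * a ^ (2 ^ m)) : x ≤ a := by
  by_contra hlt
  push Not at hlt
  have h1 : 1 < x / a := (one_lt_div ha).2 hlt
  obtain ⟨n, hn⟩ := pow_unbounded_of_one_lt K h1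
  have h2 : (x / a) ^ n ≤ (x / a) ^ (2 ^ n) := pow_le_pow_right₀ h1.le (Nat.lt_two_pow_self).le
  have h3 : (x / a) ^ (2 ^ n) ≤ K := by
    rw [div_pow, div_le_iff₀ (by positivity)]
    exact h n
  linarith

section
variable {V : Type*} [NormedAddCommGroup V] [InnerProductSpace ℂ V] {k : ℕ}
  (π : FreeGroup (Fin k) →* (V →ₗ[ℂ] V))

private noncomputable def kS (b : Bool) : V →ₗ[ℂ] V := ∑ i, π (kx b i)

private lemma kS_apply (b : Bool) (w : V) : kS π b w = ∑ i, π (kx b i) w := by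
  unfold kS
  rw [LinearMap.sum_apply]

private noncomputable def kd (v w : V) (g : FreeGroup (Fin k)) : ℂ := ⟪π g⁻¹ w, v⟫_ℂ

private lemma kd_S (b : Bool) (v w : V) (g : FreeGroup (Fin k)) :
    kd π v (kS π b w) g = ∑ i, kd π v w (kx (!b) i * g) := by
  unfold kd
  rw [kS_apply, map_sum, sum_inner]
  refine Finset.sum_congr rfl fun i _ => ?_
  rw [mul_inv_rev, kx_inv, Bool.not_not, map_mul]
  rfl

private lemma kd_S_sum (b : Bool) (v w : V) (hw : Summable fun g => ‖kd π v w g‖ ^ 2) :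
    (Summable fun g => ‖kd π v (kS π b w) g‖ ^ 2) ∧
      ∑' g, ‖kd π v (kS π b w) g‖ ^ 2 ≤ 4 * (k : ℝ) * ∑' g, ‖kd π v w g‖ ^ 2 := by
  have h1 := kL (!b) (kd π v w) hw
  have h2 : (fun g => ‖kd π v (kS π b w) g‖ ^ 2) =
      fun g => ‖∑ i, kd π v w (kx (!b) i * g)‖ ^ 2 := by
    funext g
    rw [kd_S]
  rw [h2]
  exact h1

private lemma kadj (hπ : ∀ g v, ‖π g v‖ = ‖v‖) (g : FreeGroup (Fin k)) (u w : V) :
    ⟪π g u, w⟫_ℂ = ⟪u, π g⁻¹ w⟫_ℂ := by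
  let f : V →ₗᵢ[ℂ] V := ⟨π g, hπ g⟩
  have h1 : π g (π g⁻¹ w) = w := by
    rw [← Module.End.mul_apply, ← map_mul]
    simp
  calc ⟪π g u, w⟫_ℂ = ⟪f u, f (π g⁻¹ w)⟫_ℂ := by
        change _ = ⟪π g u, π g (π g⁻¹ w)⟫_ℂ
        rw [h1]
    _ = ⟪u, π g⁻¹ w⟫_ℂ := f.inner_map_map _ _

private lemma kS_adj (hπ : ∀ g v, ‖π g v‖ = ‖v‖) (b : Bool) (u w : V) :
    ⟪kS π b u, w⟫_ℂ = ⟪u, kS π (!b) w⟫_ℂ := by
  rw [kS_apply, kS_apply, sum_inner, inner_sum]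
  refine Finset.sum_congr rfl fun i _ => ?_
  rw [kadj π hπ, kx_inv]

private noncomputable def kX : V →ₗ[ℂ] V := kS π false ∘ₗ kS π true

private lemma kX_adj (hπ : ∀ g v, ‖π g v‖ = ‖v‖) (u w : V) :
    ⟪kX π u, w⟫_ℂ = ⟪u, kX π w⟫_ℂ := by
  unfold kX
  rw [LinearMap.comp_apply, LinearMap.comp_apply, kS_adj π hπ, kS_adj π hπ]
  rfl

private lemma kX_pow_adj (hπ : ∀ g v, ‖π g v‖ = ‖v‖) (n : ℕ) : ∀ u w : V,
    ⟪(kX π)^[n] u, w⟫_ℂ = ⟪u, (kX π)^[n] w⟫_ℂ := by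
  induction n with
  | zero => intro u w; rfl
  | succ n ih =>
    intro u w
    rw [Function.iterate_succ_apply, ih, Function.iterate_succ_apply', kX_adj π hπ]

private lemma kX_sum (v : V) (hv : Summable fun g => ‖kd π v v g‖ ^ 2) (n : ℕ) :
    (Summable fun g => ‖kd π v ((kX π)^[n] v) g‖ ^ 2) ∧
      ∑' g, ‖kd π v ((kX π)^[n] v) g‖ ^ 2 ≤
        (4 * (k : ℝ)) ^ (2 * n) * ∑' g, ‖kd π v v g‖ ^ 2 := by
  induction n with
  | zero => exact ⟨hv, by simp⟩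
  | succ n ih =>
    obtain ⟨i1, i2⟩ := ih
    rw [Function.iterate_succ_apply']
    obtain ⟨j1, j2⟩ := kd_S_sum π true v _ i1
    obtain ⟨l1, l2⟩ := kd_S_sum π false v _ j1
    refine ⟨l1, ?_⟩
    have h0 : (0 : ℝ) ≤ 4 * (k : ℝ) := by positivity
    calc _ ≤ 4 * (k : ℝ) * ∑' g, ‖kd π v (kS π true ((kX π)^[n] v)) g‖ ^ 2 := l2
      _ ≤ 4 * (k : ℝ) * (4 * (k : ℝ) * ((4 * (k : ℝ)) ^ (2 * n) * ∑' g, ‖kd π v v g‖ ^ 2)) := by
          apply mul_le_mul_of_nonneg_left _ h0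
          exact j2.trans (mul_le_mul_of_nonneg_left i2 h0)
      _ = _ := by ring

private lemma kX_bound (v : V) (hv : Summable fun g => ‖kd π v v g‖ ^ 2) (n : ℕ) :
    ‖⟪(kX π)^[n] v, v⟫_ℂ‖ ≤ (4 * (k : ℝ)) ^ n * Real.sqrt (∑' g, ‖kd π v v g‖ ^ 2) := by
  obtain ⟨h1, h2⟩ := kX_sum π v hv n
  have h3 : ‖⟪(kX π)^[n] v, v⟫_ℂ‖ ^ 2 ≤ ∑' g, ‖kd π v ((kX π)^[n] v) g‖ ^ 2 := by
    have := h1.le_tsum 1 (fun g _ => by positivity)
    unfold kd at this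
    simpa [kd] using this
  have h4 : 0 ≤ (4 * (k : ℝ)) ^ n * Real.sqrt (∑' g, ‖kd π v v g‖ ^ 2) := by positivity
  refine le_of_sq_le_sq ?_ h4
  rw [mul_pow, Real.sq_sqrt (tsum_nonneg fun g => by positivity), ← pow_mul, mul_comm n 2]
  exact h3.trans h2

end

private lemma kmain {V : Type*} [NormedAddCommGroup V] [InnerProductSpace ℂ V] (k : ℕ)
    (π : FreeGroup (Fin k) →* (V →ₗ[ℂ] V)) (hπ : ∀ g v, ‖π g v‖ = ‖v‖) (v : V)
    (hv : Summable fun g => ‖⟪π g⁻¹ v, v⟫_ℂ‖ ^ 2) :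
    ‖∑ i, π (FreeGroup.of i) v‖ ≤ 2 * Real.sqrt k * ‖v‖ := by
  rcases Nat.eq_zero_or_pos k with hk | hk
  · subst hk; simp
  rcases eq_or_ne v 0 with h0 | h0
  · subst h0; simp
  have hv' : Summable fun g => ‖kd π v v g‖ ^ 2 := hv
  have hb0 : 0 < ‖v‖ := norm_pos_iff.2 h0
  have hk' : (0 : ℝ) < k := by exact_mod_cast hk
  set C : ℝ := Real.sqrt (∑' g, ‖kd π v v g‖ ^ 2) with hC
  have hC0 : 0 ≤ C := Real.sqrt_nonneg _
  -- b n := ‖X^n v‖
  have e1 : ∀ n : ℕ, ‖(kX π)^[n] v‖ ^ 2 = ‖⟪(kX π)^[2 * n] v, v⟫_ℂ‖ := by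
    intro n
    rw [two_mul, Function.iterate_add_apply, kX_pow_adj π hπ, inner_self_eq_norm_sq_to_K]
    simp
  have e2 : ∀ n : ℕ, ‖(kX π)^[n] v‖ ^ 2 ≤ ‖(kX π)^[2 * n] v‖ * ‖v‖ := by
    intro n
    rw [e1]
    exact norm_inner_le_norm _ _
  have e3 : ∀ n : ℕ, ‖(kX π)^[n] v‖ ≤ (4 * (k : ℝ)) ^ n * Real.sqrt C := by
    intro n
    refine le_of_sq_le_sq ?_ (by positivity)
    rw [e1, mul_pow, Real.sq_sqrt hC0, ← pow_mul, mul_comm n 2]
    exact kX_bound π v hv' (2 * n)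
  have e4 : ∀ m : ℕ, ‖kX π v‖ ^ (2 ^ m) * ‖v‖ ≤ ‖(kX π)^[2 ^ m] v‖ * ‖v‖ ^ (2 ^ m) := by
    intro m
    induction m with
    | zero => simp
    | succ m ih =>
      have h1 := e2 (2 ^ m)
      rw [← pow_succ'] at h1
      have h2 : (‖kX π v‖ ^ (2 ^ m) * ‖v‖) ^ 2 ≤ (‖(kX π)^[2 ^ m] v‖ * ‖v‖ ^ (2 ^ m)) ^ 2 :=
        pow_le_pow_left₀ (by positivity) ih 2
      have h3 : (‖kX π v‖ ^ (2 ^ m) * ‖v‖) ^ 2 = (‖kX π v‖ ^ (2 ^ (m + 1)) * ‖v‖) * ‖v‖ := by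
        rw [pow_succ 2 m, pow_mul]; ring
      have h4 : (‖(kX π)^[2 ^ m] v‖ * ‖v‖ ^ (2 ^ m)) ^ 2 =
          ‖(kX π)^[2 ^ m] v‖ ^ 2 * ‖v‖ ^ (2 ^ (m + 1)) := by
        rw [pow_succ 2 m, pow_mul]; ring
      rw [h3, h4] at h2
      have h5 : ‖(kX π)^[2 ^ m] v‖ ^ 2 * ‖v‖ ^ (2 ^ (m + 1)) ≤
          (‖(kX π)^[2 ^ (m + 1)] v‖ * ‖v‖ ^ (2 ^ (m + 1))) * ‖v‖ := by
        have := mul_le_mul_of_nonneg_right h1 (show 0 ≤ ‖v‖ ^ (2 ^ (m + 1)) by positivity)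
        linarith
      exact le_of_mul_le_mul_right (h2.trans h5) hb0
  have e5 : ‖kX π v‖ ≤ 4 * (k : ℝ) * ‖v‖ := by
    refine kroot _ _ (Real.sqrt C / ‖v‖) (by positivity) fun m => ?_
    have h1 := e4 m
    have h2 := e3 (2 ^ m)
    have h3 : ‖kX π v‖ ^ (2 ^ m) * ‖v‖ ≤
        (4 * (k : ℝ)) ^ (2 ^ m) * Real.sqrt C * ‖v‖ ^ (2 ^ m) :=
      h1.trans (mul_le_mul_of_nonneg_right h2 (by positivity))
    rw [div_mul_eq_mul_div, le_div_iff₀ hb0, mul_pow]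
    linarith
  have e6 : ∑ i, π (FreeGroup.of i) v = kS π true v := by
    rw [kS_apply]; rfl
  rw [e6]
  refine le_of_sq_le_sq ?_ (by positivity)
  have e7 : ‖kS π true v‖ ^ 2 = ‖⟪kX π v, v⟫_ℂ‖ := by
    have : ⟪kX π v, v⟫_ℂ = ⟪kS π true v, kS π true v⟫_ℂ := by
      unfold kX
      rw [LinearMap.comp_apply, kS_adj π hπ]
      rfl
    rw [this, inner_self_eq_norm_sq_to_K]
    simp
  rw [e7]
  have e8 : (2 * Real.sqrt k * ‖v‖) ^ 2 = 4 * (k : ℝ) * ‖v‖ * ‖v‖ := by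
    rw [mul_pow, mul_pow, Real.sq_sqrt hk'.le]; ring
  rw [e8]
  exact (norm_inner_le_norm _ _).trans (mul_le_mul_of_nonneg_right e5 (norm_nonneg _))

private lemma kspan {V : Type*} [NormedAddCommGroup V] [InnerProductSpace ℂ V] (k : ℕ)
    (π : FreeGroup (Fin k) →* (V →ₗ[ℂ] V)) (D : Set V)
    (hD : ∀ ξ ∈ D, ∀ ξ' ∈ D, Summable fun g => ‖⟪π g ξ, ξ'⟫_ℂ‖ ^ 2) (u : V)
    (hu : u ∈ Submodule.span ℂ D) (v : V) (hv : v ∈ Submodule.span ℂ D) :
    Summable fun g => ‖⟪π g u, v⟫_ℂ‖ ^ 2 := by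
  have h1 : ∀ ξ ∈ D, ∀ w ∈ Submodule.span ℂ D, Summable fun g => ‖⟪π g ξ, w⟫_ℂ‖ ^ 2 := by
    intro ξ hξ w hw
    induction hw using Submodule.span_induction with
    | mem x hx => exact hD ξ hξ x hx
    | zero => simp
    | add x y _ _ hx hy =>
      refine Summable.of_nonneg_of_le (fun g => by positivity) (fun g => ?_)
        ((hx.mul_left 2).add (hy.mul_left 2))
      rw [inner_add_right]
      exact kadd_sq _ _
    | smul a x _ hx =>
      have : (fun g => ‖⟪π g ξ, a • x⟫_ℂ‖ ^ 2) = fun g => ‖a‖ ^ 2 * ‖⟪π g ξ, x⟫_ℂ‖ ^ 2 := by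
        funext g
        rw [inner_smul_right, norm_mul, mul_pow]
      rw [this]
      exact hx.mul_left _
  induction hu using Submodule.span_induction with
  | mem x hx => exact h1 x hx v hv
  | zero => simp
  | add x y _ _ hx hy =>
    refine Summable.of_nonneg_of_le (fun g => by positivity) (fun g => ?_)
      ((hx.mul_left 2).add (hy.mul_left 2))
    rw [map_add, inner_add_left]
    exact kadd_sq _ _
  | smul a x _ hx =>
    have : (fun g => ‖⟪π g (a • x), v⟫_ℂ‖ ^ 2) = fun g => ‖a‖ ^ 2 * ‖⟪π g x, v⟫_ℂ‖ ^ 2 := by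
      funext g
      rw [map_smul, inner_smul_left, norm_mul, mul_pow]
      simp
    rw [this]
    exact hx.mul_left _

theorem kesten {V : Type*} [NormedAddCommGroup V] [InnerProductSpace ℂ V] (k : ℕ)
    (π : FreeGroup (Fin k) →* (V →ₗ[ℂ] V)) (hπ : ∀ g v, ‖π g v‖ = ‖v‖) (D : Set V)
    (hD : ∀ ξ ∈ D, ∀ ξ' ∈ D, Summable fun g => ‖⟪π g ξ, ξ'⟫_ℂ‖ ^ 2)
    (v : V) (hv : v ∈ closure (Submodule.span ℂ D : Set V)) :
    ‖∑ i, π (FreeGroup.of i) v‖ ≤ 2 * Real.sqrt k * ‖v‖ := by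
  have hcont : ∀ g, Continuous fun w : V => π g w := fun g =>
    (⟨π g, hπ g⟩ : V →ₗᵢ[ℂ] V).continuous
  have hcl : IsClosed {w : V | ‖∑ i, π (FreeGroup.of i) w‖ ≤ 2 * Real.sqrt k * ‖w‖} := by
    refine isClosed_le ?_ (by fun_prop)
    exact (continuous_finsetSum _ fun i _ => hcont _).norm
  refine closure_minimal ?_ hcl hv
  intro w hw
  refine kmain k π hπ w ?_
  have h1 := kspan k π D hD w hw w hw
  exact (Equiv.inv (FreeGroup (Fin k))).summable_iff.2 h1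

end Pool.Agent.KUR
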