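import Pool.Agent.KUR.Cross
import Pool.Agent.KUR.Kest

/-!
# KUR Gap: spectral gap outside a free factor

PROOF.  Work in the inner product space `P2 M` (`P2.mk`, `P2.inner_mk`, `P2.norm_mk`).
`π g (mk ξ) = mk (a g * ξ * star (b g))` is a representation of `FreeGroup (Fin 16)` by linear
isometries (`IsUn.n2_mul`, `IsUn.n2_mul'`).
`D` = all `mk (q₀ * wv η * q₁)`, `q₀ ∈ subGen A K₀`, `q₁ ∈ subGen A K₁`, `η` reduced, head index not in
`K₀`, last index not in `K₁`, and (`η ≠ []` in `gap_sub`, no condition in `gap_disj`); in `gap_sub`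
`K₁ = K₀`.
COEFFICIENTS: `⟪π g (q₀ η q₁), q₀' η' q₁'⟫` is the conjugate of
`tr (star (q₀' η' q₁') * a g q₀ η q₁ star (b g))
 = tr (star η' * (star q₀' a_g q₀) * η * (q₁ star (b_g) star q₁'))
 = tr (star q₀' a_g q₀) * tr (q₁ star (b_g) star q₁') * tr (star η' η)`  by `cross`.
The second factor is bounded by `‖q₁‖‖q₁'‖`; the first is square summable over `g` by Bessel, as
`tr (a_g * z)`, `z = q₀ star q₀'`, and the `a g` are orthonormal for the trace inner product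
(`tr (star (a g) * a h) = tr (a (g⁻¹ * h))`, `star (a g) = a g⁻¹`):
mathlib `Orthonormal.inner_products_summable` in `P2 M`.
TOTALITY, `gap_sub`: let `ε > 0`, `x ∈ StarAlgebra.adjoin ℂ (⋃ A k)` with `n2 (ξ - x) < ε`
(`mem_vnGen_iff`), `x` is a combination of reduced words (`mem_span_words`, `K₀ = univ`); write
`x = x₀ + x₁`, `x₀` the words with all indices in `K₀` (so `x₀ ∈ subGen A K₀`), `x₁` the other ones.
A word with some index outside `K₀` splits as `w₀ ++ η ++ w₁`, `w₀`, `w₁` the maximal prefix and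
suffix with indices in `K₀`, `η ≠ []`; so `x₁ ∈ span D`.  `tr (star x₀ * x₁) = 0` (`word_orth`) and
`tr (star x₀ * ξ) = 0` (hξ), hence `n2 x₀ ^ 2 = |tr (star x₀ * (x - ξ))| ≤ n2 x₀ * ε`, `n2 x₀ ≤ ε`, and
`n2 (ξ - x₁) ≤ 2 ε`.  `gap_disj`: every reduced word is in `D`: `w₀` maximal prefix with indices in
`K₀`, then the maximal suffix of the rest with indices in `K₁`.
`kesten` with `k = 16`: `2 * √16 = 8`.
-/

open Filter Topology

namespace Pool.Agent.KUR

universe u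
variable {M : Type u} [CStarAlgebra M] [TVN M] {K : Type*}

/-- Split off the maximal prefix with a property. -/
theorem gap_split_head {α : Type*} (p : α → Prop) (l : List α) :
    ∃ l₀ l₁, l = l₀ ++ l₁ ∧ (∀ x ∈ l₀, p x) ∧ ∀ x, l₁.head? = some x → ¬ p x := by
  classical
  induction l with
  | nil => exact ⟨[], [], rfl, by simp, by simp⟩
  | cons c l ih =>
    by_cases hc : p c
    · obtain ⟨l₀, l₁, h1, h2, h3⟩ := ih
      refine ⟨c :: l₀, l₁, by rw [h1]; rfl, ?_, h3⟩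
      intro x hx
      rcases List.mem_cons.mp hx with h | h
      · rw [h]; exact hc
      · exact h2 x h
    · refine ⟨[], c :: l, rfl, by simp, ?_⟩
      intro x hx
      simp only [List.head?_cons, Option.some.injEq] at hx
      rw [← hx]; exact hc

/-- Split off the maximal suffix with a property. -/
theorem gap_split_last {α : Type*} (p : α → Prop) (l : List α) :
    ∃ l₀ l₁, l = l₀ ++ l₁ ∧ (∀ x ∈ l₁, p x) ∧ ∀ x, l₀.getLast? = some x → ¬ p x := by
  obtain ⟨m₀, m₁, h1, h2, h3⟩ := gap_split_head p l.reverse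
  refine ⟨m₁.reverse, m₀.reverse, ?_, ?_, ?_⟩
  · rw [← List.reverse_append, ← h1, List.reverse_reverse]
  · intro x hx
    exact h2 x (List.mem_reverse.mp hx)
  · intro x hx
    rw [List.getLast?_reverse] at hx
    exact h3 x hx

theorem gap_wv_append (l l' : List (K × M)) : wv (l ++ l') = wv l * wv l' := by
  simp [wv]

theorem gap_redW_left {A : K → StarSubalgebra ℂ M} {l l' : List (K × M)}
    (h : RedW A (l ++ l')) : RedW A l :=
  ⟨h.1.left_of_append, fun p hp => h.2 p (List.mem_append_left _ hp)⟩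

theorem gap_redW_right {A : K → StarSubalgebra ℂ M} {l l' : List (K × M)}
    (h : RedW A (l ++ l')) : RedW A l' :=
  ⟨h.1.right_of_append, fun p hp => h.2 p (List.mem_append_right _ hp)⟩

theorem gap_wv_mem {A : K → StarSubalgebra ℂ M} {K₀ : Set K} {l : List (K × M)}
    (h : RedW A l) (hk : ∀ p ∈ l, p.1 ∈ K₀) : wv l ∈ subGen A K₀ := by
  refine list_prod_mem ?_
  intro x hx
  obtain ⟨p, hp, rfl⟩ := List.mem_map.mp hx
  refine subset_vnGen _ ?_
  rw [Set.mem_iUnion₂]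
  exact ⟨p.1, hk p hp, (h.2 p hp).1⟩

theorem gap_star_rep {a : FreeGroup (Fin 16) → M} (ha : IsFreeRep a) (g : FreeGroup (Fin 16)) :
    star (a g) = a g⁻¹ := by
  have h1 : a g * a g⁻¹ = 1 := by rw [← ha.2.1, mul_inv_cancel, ha.1]
  calc star (a g) = star (a g) * (a g * a g⁻¹) := by rw [h1, mul_one]
    _ = (star (a g) * a g) * a g⁻¹ := by rw [mul_assoc]
    _ = a g⁻¹ := by rw [(ha.2.2.1 g).1, one_mul]

/-- Bessel's inequality for a free representation. -/
theorem summable_coeff {a : FreeGroup (Fin 16) → M} (ha : IsFreeRep a) (x y : M) :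
    Summable fun g => ‖tr (x * a g * y)‖ ^ 2 := by
  classical
  have ho : Orthonormal ℂ (fun g => P2.mk (a g)) := by
    rw [orthonormal_iff_ite]
    intro g h
    rw [P2.inner_mk, gap_star_rep ha, ← ha.2.1]
    by_cases hgh : g = h
    · rw [if_pos hgh, hgh, inv_mul_cancel, ha.1, tr_one']
    · rw [if_neg hgh]
      apply ha.2.2.2
      intro h1
      exact hgh (inv_mul_eq_one.mp h1)
  have h1 := ho.inner_products_summable (P2.mk (star (y * x)))
  refine h1.congr (fun g => ?_)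
  rw [P2.inner_mk]
  have h2 : tr (star (a g) * star (y * x)) = (starRingEnd ℂ) (tr (x * a g * y)) := by
    rw [← tr_star, ← star_mul]
    rw [tr_star, tr_star, tr_mul_comm (y * x), mul_assoc (x) (a g) y, tr_mul_comm x]
    rw [mul_assoc]
  rw [h2, RCLike.norm_conj]

/-- The two sided representation on the inner product space. -/
noncomputable def gapRep {a b : FreeGroup (Fin 16) → M} (ha : IsFreeRep a) (hb : IsFreeRep b) :
    FreeGroup (Fin 16) →* (P2 M →ₗ[ℂ] P2 M) where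
  toFun g := (P2.mk (M := M)).toLinearMap ∘ₗ
    ((LinearMap.mulLeft ℂ (a g)) ∘ₗ (LinearMap.mulRight ℂ (star (b g)))) ∘ₗ
      (P2.mk (M := M)).symm.toLinearMap
  map_one' := by
    ext v
    simp [ha.1, hb.1]
  map_mul' g h := by
    ext v
    simp [ha.2.1, hb.2.1, mul_assoc]

theorem gapRep_apply {a b : FreeGroup (Fin 16) → M} (ha : IsFreeRep a) (hb : IsFreeRep b)
    (g : FreeGroup (Fin 16)) (x : M) :
    gapRep ha hb g (P2.mk x) = P2.mk (a g * x * star (b g)) := by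
  simp [gapRep, mul_assoc]

theorem gap_core {a b : FreeGroup (Fin 16) → M} (ha : IsFreeRep a) (hb : IsFreeRep b)
    (D : Set M)
    (hD : ∀ ξ ∈ D, ∀ ξ' ∈ D, Summable fun g => ‖tr (star ξ' * (a g * ξ * star (b g)))‖ ^ 2)
    (v : M) (hv : ∀ ε : ℝ, 0 < ε → ∃ y ∈ Submodule.span ℂ D, n2 (v - y) < ε) :
    n2 (∑ i, a (FreeGroup.of i) * v * star (b (FreeGroup.of i))) ≤ 8 * n2 v := by
  have h16 : Real.sqrt ((16 : ℕ) : ℝ) = 4 := by
    rw [show ((16 : ℕ) : ℝ) = 4 ^ 2 by norm_num, Real.sqrt_sq (by norm_num)]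
  have h := kesten 16 (gapRep ha hb) (fun g v => ?_) ((P2.mk (M := M)) '' D) ?_ (P2.mk v) ?_
  · rw [h16] at h
    have e1 : (∑ i, gapRep ha hb (FreeGroup.of i) (P2.mk v))
        = P2.mk (∑ i, a (FreeGroup.of i) * v * star (b (FreeGroup.of i))) := by
      rw [map_sum]
      exact Finset.sum_congr rfl (fun i _ => gapRep_apply ha hb _ _)
    rw [e1, P2.norm_mk, P2.norm_mk] at h
    linarith
  · obtain ⟨x, rfl⟩ := (P2.mk (M := M)).surjective v
    rw [gapRep_apply, P2.norm_mk, P2.norm_mk, (hb.2.2.1 g).star.n2_mul', (ha.2.2.1 g).n2_mul]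
  · rintro _ ⟨ξ, hξ, rfl⟩ _ ⟨ξ', hξ', rfl⟩
    refine (hD ξ hξ ξ' hξ').congr (fun g => ?_)
    rw [gapRep_apply, ← inner_conj_symm, RCLike.norm_conj, P2.inner_mk]
  · rw [Metric.mem_closure_iff]
    intro ε hε
    obtain ⟨y, hy, hy'⟩ := hv ε hε
    refine ⟨P2.mk y, ?_, ?_⟩
    · show P2.mk y ∈ Submodule.span ℂ ((P2.mk (M := M)) '' D)
      rw [show ((P2.mk (M := M)) '' D) = ((P2.mk (M := M)).toLinearMap '' D) from rfl,
        Submodule.span_image]
      exact Submodule.mem_map_of_mem hy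
    · rw [dist_eq_norm, ← map_sub, P2.norm_mk]
      exact hy'

/-- The total set. -/
def gapD (A : K → StarSubalgebra ℂ M) (K₀ K₁ : Set K) (P : Prop) : Set M :=
  {z | ∃ q₀ ∈ subGen A K₀, ∃ q₁ ∈ subGen A K₁, ∃ η : List (K × M), RedW A η ∧
    (∀ p, η.head? = some p → p.1 ∉ K₀) ∧ (∀ p, η.getLast? = some p → p.1 ∉ K₁) ∧
    (η ≠ [] ∨ P) ∧ z = q₀ * wv η * q₁}

theorem gapD_coeff {A : K → StarSubalgebra ℂ M} (hA : FreeFam A) (K₀ K₁ : Set K) (P : Prop)
    (hP : P → Disjoint K₀ K₁)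
    {a b : FreeGroup (Fin 16) → M} (ha : IsFreeRep a) (hb : IsFreeRep b)
    (haM : ∀ g, a g ∈ subGen A K₀) (hbM : ∀ g, b g ∈ subGen A K₁) :
    ∀ ξ ∈ gapD A K₀ K₁ P, ∀ ξ' ∈ gapD A K₀ K₁ P,
      Summable fun g => ‖tr (star ξ' * (a g * ξ * star (b g)))‖ ^ 2 := by
  rintro _ ⟨q₀, hq₀, q₁, hq₁, η, hη, h1, h2, h3, rfl⟩ _ ⟨q₀', hq₀', q₁', hq₁', η', hη', h1', h2',
    h3', rfl⟩
  have key : ∀ g, tr (star (q₀' * wv η' * q₁') * (a g * (q₀ * wv η * q₁) * star (b g)))
      = tr (star q₀' * a g * q₀) * tr (q₁ * star (b g) * star q₁') * tr (star (wv η') * wv η) := by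
    intro g
    have e : star (q₀' * wv η' * q₁') * (a g * (q₀ * wv η * q₁) * star (b g))
        = star q₁' * (star (wv η') * (star q₀' * a g * q₀) * wv η * (q₁ * star (b g))) := by
      simp only [star_mul, mul_assoc]
    rw [e, tr_mul_comm]
    have e2 : star (wv η') * (star q₀' * a g * q₀) * wv η * (q₁ * star (b g)) * star q₁'
        = star (wv η') * (star q₀' * a g * q₀) * wv η * (q₁ * star (b g) * star q₁') := by
      simp only [mul_assoc]
    rw [e2]
    refine cross hA K₀ K₁ ?_ ?_ hη hη' h1 h1' h2 h2' ?_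
    · exact mul_mem (mul_mem (star_mem hq₀') (haM g)) hq₀
    · exact mul_mem (mul_mem hq₁ (star_mem (hbM g))) (star_mem hq₁')
    · rcases h3 with h | h
      · rcases h3' with h' | h'
        · exact Or.inl ⟨h, h'⟩
        · exact Or.inr (hP h')
      · exact Or.inr (hP h)
  have hs := (summable_coeff ha (star q₀') q₀).mul_right
    ((‖q₁‖ * ‖q₁'‖) ^ 2 * ‖tr (star (wv η') * wv η)‖ ^ 2)
  refine Summable.of_nonneg_of_le (fun g => by positivity) (fun g => ?_) hs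
  rw [key, norm_mul, norm_mul, mul_pow, mul_pow, mul_assoc]
  refine mul_le_mul_of_nonneg_left ?_ (by positivity)
  refine mul_le_mul_of_nonneg_right ?_ (by positivity)
  refine pow_le_pow_left₀ (norm_nonneg _) ?_ 2
  calc ‖tr (q₁ * star (b g) * star q₁')‖ ≤ ‖q₁ * star (b g) * star q₁'‖ := norm_tr_le _
    _ ≤ ‖q₁ * star (b g)‖ * ‖star q₁'‖ := norm_mul_le _ _
    _ ≤ (‖q₁‖ * ‖star (b g)‖) * ‖star q₁'‖ := by gcongr; exact norm_mul_le _ _
    _ ≤ (‖q₁‖ * 1) * ‖star q₁'‖ := by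
        gcongr
        exact (hb.2.2.1 g).star.norm_le_one
    _ = ‖q₁‖ * ‖q₁'‖ := by rw [mul_one, norm_star]

theorem gapD_word {A : K → StarSubalgebra ℂ M} (K₀ K₁ : Set K) {P : Prop}
    {l : List (K × M)} (hl : RedW A l) (hP : P ∨ (K₁ = K₀ ∧ ∃ p ∈ l, p.1 ∉ K₀)) :
    wv l ∈ gapD A K₀ K₁ P := by
  obtain ⟨w₀, r, e1, h1, h2⟩ := gap_split_head (fun p : K × M => p.1 ∈ K₀) l
  obtain ⟨η, w₁, e2, h3, h4⟩ := gap_split_last (fun p : K × M => p.1 ∈ K₁) r
  subst e2
  subst e1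
  have hw₀ := gap_redW_left hl
  have hr := gap_redW_right hl
  have hη := gap_redW_left hr
  have hw₁ := gap_redW_right hr
  refine ⟨wv w₀, gap_wv_mem hw₀ h1, wv w₁, gap_wv_mem hw₁ h3, η, hη, ?_, h4, ?_, ?_⟩
  · intro p hp
    apply h2 p
    rw [List.head?_append, hp]
    rfl
  · rcases hP with hP | ⟨hK, p, hp, hpK⟩
    · exact Or.inr hP
    · refine Or.inl ?_
      rintro rfl
      rw [List.nil_append] at h2 hp
      rcases List.mem_append.mp hp with h | h
      · exact hpK (h1 p h)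
      · rw [hK] at h3
        exact hpK (h3 p h)
  · rw [gap_wv_append, gap_wv_append, mul_assoc]

theorem gap_disj {A : K → StarSubalgebra ℂ M} (hA : FreeFam A)
    (gen : ∀ x : M, x ∈ vnGen (⋃ k, (A k : Set M))) (K₀ K₁ : Set K) (hd : Disjoint K₀ K₁)
    {a b : FreeGroup (Fin 16) → M} (ha : IsFreeRep a) (hb : IsFreeRep b)
    (haM : ∀ g, a g ∈ subGen A K₀) (hbM : ∀ g, b g ∈ subGen A K₁) (ξ : M) :
    n2 (∑ i, a (FreeGroup.of i) * ξ * star (b (FreeGroup.of i))) ≤ 8 * n2 ξ := by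
  refine gap_core ha hb (gapD A K₀ K₁ True)
    (gapD_coeff hA K₀ K₁ True (fun _ => hd) ha hb haM hbM) ξ ?_
  intro ε hε
  obtain ⟨y, hy, hy'⟩ := (mem_vnGen_iff _ ξ).mp (gen ξ) ε hε
  refine ⟨y, ?_, hy'⟩
  have h1 := mem_span_words A Set.univ (x := y) (by simpa using hy)
  refine Submodule.span_mono ?_ h1
  rintro _ ⟨l, hl, -, rfl⟩
  exact gapD_word K₀ K₁ hl (Or.inl trivial)

theorem gap_sub {A : K → StarSubalgebra ℂ M} (hA : FreeFam A)
    (gen : ∀ x : M, x ∈ vnGen (⋃ k, (A k : Set M))) (K₀ : Set K)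
    {a b : FreeGroup (Fin 16) → M} (ha : IsFreeRep a) (hb : IsFreeRep b)
    (haM : ∀ g, a g ∈ subGen A K₀) (hbM : ∀ g, b g ∈ subGen A K₀) (ξ : M)
    (hξ : ∀ y ∈ subGen A K₀, tr (y * ξ) = 0) :
    n2 (∑ i, a (FreeGroup.of i) * ξ * star (b (FreeGroup.of i))) ≤ 8 * n2 ξ := by
  refine gap_core ha hb (gapD A K₀ K₀ False)
    (gapD_coeff hA K₀ K₀ False (fun h => h.elim) ha hb haM hbM) ξ ?_
  intro ε hε
  obtain ⟨x, hx, hx'⟩ := (mem_vnGen_iff _ ξ).mp (gen ξ) (ε / 2) (by linarith)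
  have h1 := mem_span_words A Set.univ (x := x) (by simpa using hx)
  have h2 : x ∈ Submodule.span ℂ ({y | ∃ l : List (K × M), RedW A l ∧ (∀ p ∈ l, p.1 ∈ K₀) ∧
      y = wv l} ∪ {y | ∃ l : List (K × M), RedW A l ∧ (∃ p ∈ l, p.1 ∉ K₀) ∧ y = wv l}) := by
    refine Submodule.span_mono ?_ h1
    rintro _ ⟨l, hl, -, rfl⟩
    by_cases h : ∀ p ∈ l, p.1 ∈ K₀
    · exact Or.inl ⟨l, hl, h, rfl⟩
    · push Not at h
      exact Or.inr ⟨l, hl, h, rfl⟩
  rw [Submodule.span_union, Submodule.mem_sup] at h2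
  obtain ⟨x₀, hx₀, x₁, hx₁, rfl⟩ := h2
  have hx₀S : x₀ ∈ subGen A K₀ := by
    have : Submodule.span ℂ {y | ∃ l : List (K × M), RedW A l ∧ (∀ p ∈ l, p.1 ∈ K₀) ∧
        y = wv l} ≤ (subGen A K₀).toSubalgebra.toSubmodule := by
      rw [Submodule.span_le]
      rintro _ ⟨l, hl, hk, rfl⟩
      exact gap_wv_mem hl hk
    exact this hx₀
  have horth : tr (star x₀ * x₁) = 0 := by
    refine Submodule.span_induction₂ (p := fun u v _ _ => tr (star u * v) = 0)
      ?_ ?_ ?_ ?_ ?_ ?_ ?_ hx₀ hx₁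
    · rintro _ _ ⟨l, hl, hk, rfl⟩ ⟨l', hl', ⟨p, hp, hpK⟩, rfl⟩
      refine word_orth hA hl hl' ?_
      intro he
      apply hpK
      have h3 : p.1 ∈ l'.map Prod.fst := List.mem_map_of_mem hp
      rw [← he] at h3
      obtain ⟨q, hq, hq'⟩ := List.mem_map.mp h3
      rw [← hq']
      exact hk q hq
    · intro y _; simp
    · intro x _; simp
    · intro x y z _ _ _ h h'
      rw [star_add, add_mul, map_add, h, h', add_zero]
    · intro x y z _ _ _ h h'
      rw [mul_add, map_add, h, h', add_zero]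
    · intro r x y _ _ h
      rw [star_smul, smul_mul_assoc, map_smul, h, smul_zero]
    · intro r x y _ _ h
      rw [mul_smul_comm, map_smul, h, smul_zero]
  have hn : n2 x₀ ≤ ε / 2 := by
    have h3 : ((n2 x₀ ^ 2 : ℝ) : ℂ) = tr (star x₀ * (x₀ + x₁ - ξ)) := by
      rw [← tr_star_mul_self, mul_sub, mul_add, map_sub, map_add, horth,
        hξ _ (star_mem hx₀S)]
      ring
    have h4 : n2 x₀ ^ 2 ≤ n2 x₀ * (ε / 2) := by
      have h5 : ‖((n2 x₀ ^ 2 : ℝ) : ℂ)‖ = n2 x₀ ^ 2 := by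
        rw [Complex.norm_real, Real.norm_eq_abs, abs_of_nonneg (sq_nonneg _)]
      rw [← h5, h3]
      refine (norm_tr_mul_le _ _).trans ?_
      rw [n2_sub_comm]
      exact mul_le_mul_of_nonneg_left hx'.le (n2_nonneg _)
    rcases (n2_nonneg x₀).eq_or_lt with h6 | h6
    · rw [← h6]; linarith
    · rw [pow_two] at h4
      exact le_of_mul_le_mul_left h4 h6
  refine ⟨x₁, ?_, ?_⟩
  · refine Submodule.span_mono ?_ hx₁
    rintro _ ⟨l, hl, hk, rfl⟩
    exact gapD_word K₀ K₀ hl (Or.inr ⟨rfl, hk⟩)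
  · have e : ξ - x₁ = (ξ - (x₀ + x₁)) + x₀ := by abel
    rw [e]
    refine lt_of_le_of_lt (n2_add_le _ _) ?_
    linarith

end Pool.Agent.KUR
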