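import Pool.Agent.KUR.Kap

/-!
# KUR HomExt: trace preserving homomorphisms from trace preserving graphs

PROOF.  (1) `norm_eq_of_moments`: `a ∈ A`, `b ∈ B` self-adjoint with `tr (a^n) = tr (b^n)` for all
`n`; then `‖a‖ = ‖b‖`.  By Weierstrass (polynomials on `[-R, R]`, `R ≥ ‖a‖, ‖b‖`) one gets
`tr (cfc f a) = tr (cfc f b)` for all continuous `f : ℝ → ℝ`.  If `‖a‖ < ‖b‖`, take a continuous
`f ≥ 0` vanishing on `[-‖a‖, ‖a‖]` and positive at `±‖b‖`: `cfc f a = 0` but `cfc f b` is positive and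
nonzero (`‖b‖` or `-‖b‖` lies in the spectrum of `b`), so its trace is `n2 (√ )^2 > 0`.  Contradiction.
(2) For `p ∈ G`: `star p * p ∈ G`, so `n2 p.1 = n2 p.2`, and with (1) for `a = star p.1 * p.1`,
`b = star p.2 * p.2` (all powers of `star p * p` lie in `G`) `‖p.1‖ = ‖p.2‖`.
(3) The set `S = {p.1 | p ∈ G}` is a star subalgebra (image under the first projection), 2-norm
dense by `hd`.  Given `x : A`, Kaplansky (`kaplansky`, Kap.lean) gives a bounded sequence
`p n ∈ G` with `n2 ((p n).1 - x) → 0`; `‖(p n).2‖ = ‖(p n).1‖` is bounded and `(p n).2` is 2-norm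
Cauchy by (2) (`p m - p n ∈ G`), so it converges to some `y : B` (`complete_ball`), independent of
the sequence (again (2)).  Put `Φ x = y`.  Limits of bounded sequences respect sums, products,
adjoints (`n2_lim_mul` etc.), so `Φ` is a unital star homomorphism; `tr (Φ x) = lim tr (p n).2 =
lim tr (p n).1 = tr x`; for `p ∈ G` take the constant sequence.
-/

open Filter Topology

namespace Pool.Agent.KUR

universe u
variable {A B : Type u} [CStarAlgebra A] [TVN A] [CStarAlgebra B] [TVN B]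

/-- A tracial algebra is not trivial. -/
private theorem nontriv : Nontrivial A := by
  refine nontrivial_of_ne (1 : A) 0 (fun h => ?_)
  have h1 : tr (1 : A) = 1 := tr_one'
  rw [h, map_zero] at h1
  exact zero_ne_one h1

/-- Traces of polynomials. -/
private theorem tr_aeval_eq (a : A) (b : B) (h : ∀ n : ℕ, tr (a ^ n) = tr (b ^ n))
    (q : Polynomial ℝ) : tr (Polynomial.aeval a q) = tr (Polynomial.aeval b q) := by
  rw [Polynomial.aeval_eq_sum_range, Polynomial.aeval_eq_sum_range, map_sum, map_sum]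
  refine Finset.sum_congr rfl (fun i _ => ?_)
  rw [← Complex.coe_smul, ← Complex.coe_smul, map_smul, map_smul, h]

/-- Traces of continuous functions. -/
private theorem tr_cfc_eq (a : A) (b : B) (ha : star a = a) (hb : star b = b)
    (h : ∀ n : ℕ, tr (a ^ n) = tr (b ^ n)) (f : ℝ → ℝ) (hf : Continuous f) :
    tr (cfc f a) = tr (cfc f b) := by
  have hntA : Nontrivial A := nontriv
  have hntB : Nontrivial B := nontriv
  have ha' : IsSelfAdjoint a := ha
  have hb' : IsSelfAdjoint b := hb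
  set R : ℝ := max ‖a‖ ‖b‖ with hR
  have key : ∀ ε : ℝ, 0 < ε → ‖tr (cfc f a) - tr (cfc f b)‖ ≤ 2 * ε := by
    intro ε hε
    obtain ⟨q, hq⟩ := exists_polynomial_near_of_continuousOn (-R) R f hf.continuousOn ε hε
    have hpa : ‖tr (cfc f a) - tr (Polynomial.aeval a q)‖ ≤ ε := by
      rw [← cfc_polynomial q a ha', ← map_sub,
        ← cfc_sub f (fun x => q.eval x) a hf.continuousOn q.continuous.continuousOn]
      refine (norm_tr_le _).trans (norm_cfc_le hε.le ?_)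
      intro x hx
      have hx1 : ‖x‖ ≤ ‖a‖ := spectrum.norm_le_norm_of_mem hx
      have hx2 : x ∈ Set.Icc (-R) R := by
        rw [Set.mem_Icc, ← abs_le, ← Real.norm_eq_abs]; exact hx1.trans (le_max_left _ _)
      have := hq x hx2
      rw [Real.norm_eq_abs, abs_sub_comm]
      exact this.le
    have hpb : ‖tr (cfc f b) - tr (Polynomial.aeval b q)‖ ≤ ε := by
      rw [← cfc_polynomial q b hb', ← map_sub,
        ← cfc_sub f (fun x => q.eval x) b hf.continuousOn q.continuous.continuousOn]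
      refine (norm_tr_le _).trans (norm_cfc_le hε.le ?_)
      intro x hx
      have hx1 : ‖x‖ ≤ ‖b‖ := spectrum.norm_le_norm_of_mem hx
      have hx2 : x ∈ Set.Icc (-R) R := by
        rw [Set.mem_Icc, ← abs_le, ← Real.norm_eq_abs]; exact hx1.trans (le_max_right _ _)
      have := hq x hx2
      rw [Real.norm_eq_abs, abs_sub_comm]
      exact this.le
    rw [← tr_aeval_eq a b h q] at hpb
    calc ‖tr (cfc f a) - tr (cfc f b)‖
        = ‖(tr (cfc f a) - tr (Polynomial.aeval a q))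
            - (tr (cfc f b) - tr (Polynomial.aeval a q))‖ := by congr 1; ring
      _ ≤ _ := norm_sub_le _ _
      _ ≤ ε + ε := add_le_add hpa hpb
      _ = 2 * ε := by ring
  have h0 : ‖tr (cfc f a) - tr (cfc f b)‖ ≤ 0 := by
    refine le_of_forall_pos_le_add (fun ε hε => ?_)
    have := key (ε / 2) (by linarith)
    linarith
  exact sub_eq_zero.mp (norm_le_zero_iff.mp h0)

private theorem norm_le_of_moments (a : A) (b : B) (ha : star a = a) (hb : star b = b)
    (h : ∀ n : ℕ, tr (a ^ n) = tr (b ^ n)) : ‖b‖ ≤ ‖a‖ := by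
  by_contra hlt
  push Not at hlt
  have ha' : IsSelfAdjoint a := ha
  have hb' : IsSelfAdjoint b := hb
  have hntA : Nontrivial A := nontriv
  have hntB : Nontrivial B := nontriv
  let f : ℝ → ℝ := fun t => max (|t| - ‖a‖) 0
  have hf : Continuous f := by fun_prop
  have hfa : cfc (fun t => f t * f t) a = 0 := by
    have : cfc (fun t => f t * f t) a = cfc (fun _ : ℝ => (0 : ℝ)) a := by
      refine cfc_congr (fun x hx => ?_)
      have hx1 : ‖x‖ ≤ ‖a‖ := spectrum.norm_le_norm_of_mem hx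
      rw [Real.norm_eq_abs] at hx1
      have : f x = 0 := max_eq_right (by linarith)
      simp [this]
    rw [this, cfc_const_zero]
  have htr : tr (cfc (fun t => f t * f t) b) = 0 := by
    rw [← tr_cfc_eq a b ha hb h (fun t => f t * f t) (hf.mul hf), hfa, map_zero]
  have hsa : star (cfc f b) = cfc f b := (cfc_predicate f b : IsSelfAdjoint (cfc f b))
  have hfb : cfc f b = 0 := by
    refine TVN.faithful _ ?_
    rw [hsa, ← cfc_mul f f b hf.continuousOn hf.continuousOn]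
    exact htr
  -- a spectral point of modulus ‖b‖
  obtain ⟨x, hx, hxn⟩ : ∃ x ∈ spectrum ℝ b, |x| = ‖b‖ := by
    rcases CStarAlgebra.norm_or_neg_norm_mem_spectrum hb' with h1 | h1
    · exact ⟨_, h1, abs_of_nonneg (norm_nonneg _)⟩
    · exact ⟨_, h1, by rw [abs_neg, abs_of_nonneg (norm_nonneg _)]⟩
  have hmem : f x ∈ spectrum ℝ (cfc f b) := by
    rw [cfc_map_spectrum f b hb' hf.continuousOn]
    exact ⟨x, hx, rfl⟩
  rw [hfb, spectrum.zero_eq] at hmem
  have : f x = 0 := hmem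
  have h2 : |x| - ‖a‖ ≤ 0 := by rw [← this]; exact le_max_left _ _
  rw [hxn] at h2
  linarith

theorem norm_eq_of_moments (a : A) (b : B) (ha : star a = a) (hb : star b = b)
    (h : ∀ n : ℕ, tr (a ^ n) = tr (b ^ n)) : ‖a‖ = ‖b‖ :=
  le_antisymm (norm_le_of_moments b a hb ha (fun n => (h n).symm)) (norm_le_of_moments a b ha hb h)

private theorem n2_eq_of_mem {G : StarSubalgebra ℂ (A × B)} (hG : ∀ p ∈ G, tr p.1 = tr p.2)
    {p : A × B} (hp : p ∈ G) : n2 p.1 = n2 p.2 := by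
  have h := hG (star p * p) (mul_mem (star_mem hp) hp)
  rw [n2, n2]
  have h1 : (star p * p).1 = star p.1 * p.1 := rfl
  have h2 : (star p * p).2 = star p.2 * p.2 := rfl
  rw [h1, h2] at h
  rw [h]

private theorem norm_eq_of_mem {G : StarSubalgebra ℂ (A × B)} (hG : ∀ p ∈ G, tr p.1 = tr p.2)
    {p : A × B} (hp : p ∈ G) : ‖p.1‖ = ‖p.2‖ := by
  have h : ‖star p.1 * p.1‖ = ‖star p.2 * p.2‖ := by
    refine norm_eq_of_moments _ _ (by simp) (by simp) (fun n => ?_)
    exact hG ((star p * p) ^ n) (pow_mem (mul_mem (star_mem hp) hp) n)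
  rw [CStarRing.norm_star_mul_self, CStarRing.norm_star_mul_self] at h
  exact (mul_self_inj_of_nonneg (norm_nonneg _) (norm_nonneg _)).mp h

/-- The limit relation of the graph. -/
private def LimRel (G : StarSubalgebra ℂ (A × B)) (x : A) (y : B) : Prop :=
  ∃ p : ℕ → A × B, (∀ n, p n ∈ G) ∧ (∃ C : ℝ, ∀ n, ‖(p n).1‖ ≤ C) ∧
    Tendsto (fun n => n2 ((p n).1 - x)) atTop (𝓝 0) ∧
    Tendsto (fun n => n2 ((p n).2 - y)) atTop (𝓝 0)

private theorem LimRel.of_mem {G : StarSubalgebra ℂ (A × B)} {p : A × B} (hp : p ∈ G) :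
    LimRel G p.1 p.2 :=
  ⟨fun _ => p, fun _ => hp, ⟨‖p.1‖, fun _ => le_rfl⟩, by simp [n2_zero], by simp [n2_zero]⟩

private theorem LimRel.unique {G : StarSubalgebra ℂ (A × B)} (hG : ∀ p ∈ G, tr p.1 = tr p.2)
    {x : A} {y y' : B} (h : LimRel G x y) (h' : LimRel G x y') : y = y' := by
  obtain ⟨p, hp, _, hp1, hp2⟩ := h
  obtain ⟨q, hq, _, hq1, hq2⟩ := h'
  have h1 : Tendsto (fun n => n2 ((p n).1 - (q n).1)) atTop (𝓝 0) := by
    refine squeeze_zero (fun n => n2_nonneg _) (fun n => ?_) (by simpa using hp1.add hq1)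
    calc n2 ((p n).1 - (q n).1) ≤ n2 ((p n).1 - x) + n2 (x - (q n).1) := n2_sub_le_sub _ _ _
      _ = _ := by rw [n2_sub_comm x]
  have h2 : Tendsto (fun n => n2 ((p n).2 - (q n).2)) atTop (𝓝 0) := by
    have e : ∀ n, n2 ((p n).2 - (q n).2) = n2 ((p n).1 - (q n).1) := fun n =>
      (n2_eq_of_mem hG (sub_mem (hp n) (hq n))).symm
    simp_rw [e]; exact h1
  have h3 : Tendsto (fun n => n2 ((p n).2 - y')) atTop (𝓝 0) := by
    refine squeeze_zero (fun n => n2_nonneg _) (fun n => ?_) (by simpa using h2.add hq2)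
    exact n2_sub_le_sub _ _ _
  exact eq_of_n2_lim hp2 h3

private theorem LimRel.add {G : StarSubalgebra ℂ (A × B)} {x x' : A} {y y' : B}
    (h : LimRel G x y) (h' : LimRel G x' y') : LimRel G (x + x') (y + y') := by
  obtain ⟨p, hp, ⟨C, hC⟩, hp1, hp2⟩ := h
  obtain ⟨q, hq, ⟨D, hD⟩, hq1, hq2⟩ := h'
  refine ⟨fun n => p n + q n, fun n => add_mem (hp n) (hq n), ⟨C + D, fun n => ?_⟩,
    n2_lim_add hp1 hq1, n2_lim_add hp2 hq2⟩
  exact (norm_add_le _ _).trans (add_le_add (hC n) (hD n))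

private theorem LimRel.star {G : StarSubalgebra ℂ (A × B)} {x : A} {y : B}
    (h : LimRel G x y) : LimRel G (star x) (star y) := by
  obtain ⟨p, hp, ⟨C, hC⟩, hp1, hp2⟩ := h
  refine ⟨fun n => Star.star (p n), fun n => star_mem (hp n), ⟨C, fun n => ?_⟩,
    n2_lim_star hp1, n2_lim_star hp2⟩
  rw [Prod.fst_star, norm_star]; exact hC n

private theorem LimRel.mul {G : StarSubalgebra ℂ (A × B)} (hG : ∀ p ∈ G, tr p.1 = tr p.2)
    {x x' : A} {y y' : B}
    (h : LimRel G x y) (h' : LimRel G x' y') : LimRel G (x * x') (y * y') := by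
  obtain ⟨p, hp, ⟨C, hC⟩, hp1, hp2⟩ := h
  obtain ⟨q, hq, ⟨D, hD⟩, hq1, hq2⟩ := h'
  have hC' : ∀ n, ‖(p n).2‖ ≤ C := fun n => by rw [← norm_eq_of_mem hG (hp n)]; exact hC n
  refine ⟨fun n => p n * q n, fun n => mul_mem (hp n) (hq n), ⟨C * D, fun n => ?_⟩,
    n2_lim_mul hC hp1 hq1, n2_lim_mul hC' hp2 hq2⟩
  have hC0 : 0 ≤ C := (norm_nonneg _).trans (hC n)
  calc ‖(p n).1 * (q n).1‖ ≤ ‖(p n).1‖ * ‖(q n).1‖ := norm_mul_le _ _
    _ ≤ C * D := mul_le_mul (hC n) (hD n) (norm_nonneg _) hC0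

private theorem LimRel.tr_eq {G : StarSubalgebra ℂ (A × B)} (hG : ∀ p ∈ G, tr p.1 = tr p.2)
    {x : A} {y : B} (h : LimRel G x y) : tr x = tr y := by
  obtain ⟨p, hp, _, hp1, hp2⟩ := h
  have h1 := tr_lim hp1
  have h2 := tr_lim hp2
  have e : (fun n => tr (p n).1) = fun n => tr (p n).2 := funext fun n => hG _ (hp n)
  rw [e] at h1
  exact tendsto_nhds_unique h1 h2

private theorem LimRel.exists {G : StarSubalgebra ℂ (A × B)} (hG : ∀ p ∈ G, tr p.1 = tr p.2)
    (hd : ∀ x : A, ∀ ε : ℝ, 0 < ε → ∃ p ∈ G, n2 (x - p.1) < ε) (x : A) :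
    ∃ y : B, LimRel G x y := by
  have hS : ∀ ε : ℝ, 0 < ε → ∃ p ∈ G, ‖p.1‖ ≤ ‖x‖ + ε ∧ n2 (x - p.1) < ε := by
    intro ε hε
    obtain ⟨y, hy, hy1, hy2⟩ := kaplansky (G.map (StarAlgHom.fst ℂ A B)) x (fun δ hδ => by
      obtain ⟨p, hp, hp'⟩ := hd x δ hδ
      exact ⟨p.1, ⟨p, hp, rfl⟩, hp'⟩) ε hε
    obtain ⟨p, hp, rfl⟩ := hy
    exact ⟨p, hp, hy1, hy2⟩
  choose p hpG hpn hpx using fun n : ℕ => hS (1 / ((n : ℝ) + 1)) (by positivity)
  have hone : ∀ n : ℕ, 1 / ((n : ℝ) + 1) ≤ 1 := fun n => by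
    rw [div_le_one (by positivity)]
    have : (0 : ℝ) ≤ n := Nat.cast_nonneg n
    linarith
  have hb : ∀ n, ‖(p n).1‖ ≤ ‖x‖ + 1 := fun n => (hpn n).trans (by linarith [hone n])
  have hb2 : ∀ n, ‖(p n).2‖ ≤ ‖x‖ + 1 := fun n => by
    rw [← norm_eq_of_mem hG (hpG n)]; exact hb n
  have hlim : Tendsto (fun n => n2 ((p n).1 - x)) atTop (𝓝 0) := by
    refine squeeze_zero (fun n => n2_nonneg _) (fun n => ?_)
      (tendsto_one_div_add_atTop_nhds_zero_nat (𝕜 := ℝ))
    rw [n2_sub_comm]; exact (hpx n).le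
  obtain ⟨y, _, hy⟩ := complete_ball (fun n => (p n).2) (‖x‖ + 1) hb2 (by
    intro ε hε
    obtain ⟨n₀, h₀⟩ := (Metric.tendsto_atTop.mp hlim) (ε / 2) (by linarith)
    refine ⟨n₀, fun m n hm hn => ?_⟩
    have h1 := h₀ m hm
    have h2 := h₀ n hn
    rw [Real.dist_eq, sub_zero, abs_of_nonneg (n2_nonneg _)] at h1 h2
    have e : n2 ((p m).2 - (p n).2) = n2 ((p m).1 - (p n).1) :=
      (n2_eq_of_mem hG (sub_mem (hpG m) (hpG n))).symm
    rw [e]
    calc n2 ((p m).1 - (p n).1) ≤ n2 ((p m).1 - x) + n2 (x - (p n).1) := n2_sub_le_sub _ _ _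
      _ < ε := by rw [n2_sub_comm x]; linarith)
  exact ⟨y, p, hpG, ⟨_, hb⟩, hlim, hy⟩

theorem hom_ext (G : StarSubalgebra ℂ (A × B)) (hG : ∀ p ∈ G, tr p.1 = tr p.2)
    (hd : ∀ x : A, ∀ ε : ℝ, 0 < ε → ∃ p ∈ G, n2 (x - p.1) < ε) :
    ∃ Φ : A →⋆ₐ[ℂ] B, TrPres Φ ∧ ∀ p ∈ G, Φ p.1 = p.2 := by
  choose F hF using LimRel.exists hG hd
  have hu : ∀ {x : A} {y : B}, LimRel G x y → F x = y := fun {x y} h => (hF x).unique hG h
  let Φ : A →⋆ₐ[ℂ] B :=
    { toFun := F
      map_one' := hu (LimRel.of_mem (p := 1) (one_mem G))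
      map_mul' := fun x y => hu ((hF x).mul hG (hF y))
      map_zero' := hu (LimRel.of_mem (p := 0) (zero_mem G))
      map_add' := fun x y => hu ((hF x).add (hF y))
      commutes' := fun c => hu (LimRel.of_mem (p := algebraMap ℂ (A × B) c) (algebraMap_mem G c))
      map_star' := fun x => hu (hF x).star }
  refine ⟨Φ, fun x => ?_, fun p hp => hu (LimRel.of_mem hp)⟩
  exact ((hF x).tr_eq hG).symm

end Pool.Agent.KUR
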