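import Pool.Agent.KUR.Grp
import Pool.Agent.KUR.HomExt

/-!
# KUR Th1: existence of the deformation

PROOF.  Let `κ : J ⊕ J → J` be the obvious map and `B j = subGen (fam P s) {k | κ k = j}`; it contains
`P j` and `s j`, and `(B j)` is a free family (`group_free`, `h.free`).  For real `t` put
`u j = ut t (s j)`: `c • 1 + (i s') • s j` with `c = cos (π t/2)`, `s' = sin (π t/2)`; it is a unitary of
`B j` commuting with `s j` (as `s j` is a self-adjoint unitary), `ut r s * ut t s = ut (r + t) s`,
`ut 0 s = 1`, `ut 1 s = i • s`.  Let `φ j x = u j * x * star (u j)`, a trace preserving automorphism of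
`B j`.
Let `G ⊂ M × M` be the star subalgebra generated by the pairs `(x, φ j x)`, `x ∈ B j`
(`StarAlgebra.adjoin`).  CLAIM: every element of `G` lies in the span `V` of the pairs
`(wv l, wv (l.map (φ on letters)))`, `l` a reduced word of the family `B`.  The generating set is
star closed and closed in itself; `V` contains `(1,1)` and is stable under left multiplication by a
generator `(a, φ j a)`: same computation as in `mem_span_words` (Words.lean), because
`tr (φ j x) = tr x`.  The word `l.map φ` is again a reduced word of `B`.  So for a pair in `G` both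
traces are equal to the coefficient of the empty word (`FreeFam`).  So `hG` of `hom_ext` holds; `hd`
holds since the first components contain all `P j` and all `s j` and `h.gen` + `mem_vnGen_iff`.
`hom_ext` gives `θ t : M →⋆ₐ M`, trace preserving, with `θ t x = φ j x` for `x ∈ B j`: `onP`, `onS`.
Two trace preserving star homomorphisms which agree on all `P j` and all `s j` agree everywhere
(they agree on `StarAlgebra.adjoin`, and then by 2-norm density): this gives `zero` and `add`
(`θ r (θ t x) = θ r (ut t s x (ut t s)^*) = ut t s (ut r s x (ut r s)^*) (ut t s)^*` as `θ r` fixes `s j`).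
`cont`: for `x ∈ P j` or `x = s j` the map `t ↦ θ t x` is norm continuous at 0, hence also for all `x` in
`StarAlgebra.adjoin ℂ (...)` (the set of `x` with `‖θ t x - x‖ → 0` is a star subalgebra since
`‖θ t x‖ ≤ ‖x‖`); for general `x`: `n2 (θ t x - x) ≤ 2 n2 (x - y) + n2 (θ t y - y)`.
-/

open Filter Topology

namespace Pool.Agent.KUR

universe u
variable {M : Type u} [CStarAlgebra M] [TVN M] {J : Type*}

omit [TVN M] in
private theorem ut_aux {s : M} (h2 : s * s = 1) (a b c d : ℂ) :
    (a • (1 : M) + b • s) * (c • (1 : M) + d • s) = (a * c + b * d) • (1 : M) + (a * d + b * c) • s := by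
  simp only [add_mul, mul_add, smul_mul_smul_comm, mul_one, one_mul, h2]
  module

omit [TVN M] in
private theorem ut_zero' (s : M) : ut 0 s = 1 := by simp [ut]

omit [TVN M] in
private theorem ut_mul_ut {s : M} (h2 : s * s = 1) (r t : ℝ) : ut r s * ut t s = ut (r + t) s := by
  have e : Real.pi * (r + t) / 2 = Real.pi * r / 2 + Real.pi * t / 2 := by ring
  rw [ut, ut, ut, e, Real.cos_add, Real.sin_add, ut_aux h2]
  congr 2
  · push_cast
    linear_combination (Complex.sin (Real.pi * r / 2) * Complex.sin (Real.pi * t / 2)) *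
      Complex.I_mul_I
  · push_cast
    ring

omit [TVN M] in
private theorem star_ut {s : M} (h1 : star s = s) (t : ℝ) : star (ut t s) = ut (-t) s := by
  have e : Real.pi * (-t) / 2 = -(Real.pi * t / 2) := by ring
  rw [ut, ut, e, Real.cos_neg, Real.sin_neg, star_add, star_smul, star_smul, star_one, h1]
  congr 2
  · exact Complex.conj_ofReal _
  · rw [star_mul, RCLike.star_def, Complex.conj_I, Complex.conj_ofReal]
    push_cast
    ring

omit [TVN M] in
private theorem ut_comm (t : ℝ) (s : M) : ut t s * s = s * ut t s := by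
  simp [ut, add_mul, mul_add]

theorem ut_isUn {s : M} (h1 : star s = s) (h2 : s * s = 1) (t : ℝ) : IsUn (ut t s) := by
  refine ⟨?_, ?_⟩
  · rw [star_ut h1, ut_mul_ut h2, neg_add_cancel, ut_zero']
  · rw [star_ut h1, ut_mul_ut h2, add_neg_cancel, ut_zero']

private theorem ut_conj {s : M} (h1 : star s = s) (h2 : s * s = 1) (t : ℝ) :
    ut t s * s * star (ut t s) = s := by
  rw [ut_comm, mul_assoc, (ut_isUn h1 h2 t).2, mul_one]

private theorem th1_redW_cons {K : Type*} {A : K → StarSubalgebra ℂ M} {k : K} {x : M}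
    {l : List (K × M)} :
    RedW A ((k, x) :: l) ↔ (x ∈ A k ∧ tr x = 0) ∧ RedW A l ∧ ∀ p ∈ l.head?, k ≠ p.1 := by
  unfold RedW
  rw [List.isChain_cons]
  simp only [List.forall_mem_cons]
  tauto

/-- The pair of values of a word and of the conjugated word. -/
private noncomputable def wpair (u : J → M) (l : List (J × M)) : M × M :=
  (wv l, wv (l.map fun p => (p.1, u p.1 * p.2 * star (u p.1))))

omit [TVN M] in
private theorem wpair_nil (u : J → M) : wpair u [] = 1 := by
  simp [wpair, wv]

omit [TVN M] in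
private theorem wpair_cons (u : J → M) (j : J) (a : M) (l : List (J × M)) :
    wpair u ((j, a) :: l) = (a, u j * a * star (u j)) * wpair u l := by
  simp [wpair, wv]

private theorem wpair_tr {B : J → StarSubalgebra ℂ M} (hB : FreeFam B) {u : J → M}
    (hu : ∀ j, IsUn (u j)) (huB : ∀ j, u j ∈ B j) {l : List (J × M)} (hl : RedW B l) :
    tr (wpair u l).1 = tr (wpair u l).2 := by
  by_cases h0 : l = []
  · subst h0; simp [wpair_nil]
  · have h1 : RedW B (l.map fun p => (p.1, u p.1 * p.2 * star (u p.1))) := by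
      refine ⟨?_, ?_⟩
      · rw [List.isChain_map]; exact hl.1
      · intro p hp
        rw [List.mem_map] at hp
        obtain ⟨q, hq, rfl⟩ := hp
        have h2 := hl.2 q hq
        refine ⟨mul_mem (mul_mem (huB _) h2.1) (star_mem (huB _)), ?_⟩
        show tr (u q.1 * q.2 * star (u q.1)) = 0
        rw [tr_mul_comm, ← mul_assoc, (hu q.1).1, one_mul, h2.2]
    show tr (wv l) = tr (wv _)
    rw [hB l h0 hl, hB _ (by simpa using h0) h1]

/-- The span of the word pairs. -/
private noncomputable def wspan (B : J → StarSubalgebra ℂ M) (u : J → M) : Submodule ℂ (M × M) :=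
  Submodule.span ℂ {q | ∃ l, RedW B l ∧ q = wpair u l}

private theorem wspan_tr {B : J → StarSubalgebra ℂ M} (hB : FreeFam B) {u : J → M}
    (hu : ∀ j, IsUn (u j)) (huB : ∀ j, u j ∈ B j) {q : M × M} (hq : q ∈ wspan B u) :
    tr q.1 = tr q.2 := by
  unfold wspan at hq
  induction hq using Submodule.span_induction with
  | mem x hx => obtain ⟨l, hl, rfl⟩ := hx; exact wpair_tr hB hu huB hl
  | zero => simp
  | add x y _ _ hx hy => rw [Prod.fst_add, Prod.snd_add, map_add, map_add, hx, hy]
  | smul c x _ hx => rw [Prod.smul_fst, Prod.smul_snd, map_smul, map_smul, hx]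

omit [TVN M] in
private theorem pair_split {u : M} (hu : IsUn u) (a : M) (c : ℂ) :
    ((a, u * a * star u) : M × M)
      = (a - c • 1, u * (a - c • 1) * star u) + c • 1 := by
  apply Prod.ext
  · simp
  · simp [mul_sub, sub_mul, hu.2]

private theorem wspan_mul_word {B : J → StarSubalgebra ℂ M} {u : J → M}
    (hu : ∀ j, IsUn (u j)) {j : J} {a : M} (ha : a ∈ B j) {l : List (J × M)} (hl : RedW B l) :
    (a, u j * a * star (u j)) * wpair u l ∈ wspan B u := by
  have hword : ∀ l, RedW B l → wpair u l ∈ wspan B u := fun l hl =>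
    Submodule.subset_span ⟨l, hl, rfl⟩
  have hcen : ∀ x ∈ B j, ∀ m, RedW B m → (∀ p ∈ m.head?, j ≠ p.1) →
      (x, u j * x * star (u j)) * wpair u m ∈ wspan B u := by
    intro x hx m hm hh
    rw [pair_split (hu j) x (tr x), add_mul, smul_mul_assoc, one_mul]
    refine add_mem ?_ (Submodule.smul_mem _ _ (hword m hm))
    rw [← wpair_cons]
    refine hword _ (th1_redW_cons.mpr ⟨⟨sub_mem hx (SMulMemClass.smul_mem _ (one_mem _)), ?_⟩, hm, hh⟩)
    rw [map_sub, map_smul, tr_one', smul_eq_mul, mul_one, sub_self]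
  cases l with
  | nil => exact hcen a ha [] hl (by simp)
  | cons kb m =>
    obtain ⟨k, b⟩ := kb
    obtain ⟨⟨h1, h2⟩, h3, h4⟩ := th1_redW_cons.mp hl
    by_cases hjk : j = k
    · subst hjk
      have e : u j * a * star (u j) * (u j * b * star (u j)) = u j * (a * b) * star (u j) := by
        calc _ = u j * a * (star (u j) * u j) * b * star (u j) := by simp only [mul_assoc]
          _ = _ := by rw [(hu j).1, mul_one]; simp only [mul_assoc]
      have e2 : ((a, u j * a * star (u j)) : M × M) * (b, u j * b * star (u j))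
          = (a * b, u j * (a * b) * star (u j)) := Prod.ext rfl e
      rw [wpair_cons, ← mul_assoc, e2]
      exact hcen (a * b) (mul_mem ha h1) m h3 h4
    · refine hcen a ha _ hl ?_
      intro p hp
      simp only [List.head?_cons, Option.mem_some_iff] at hp
      subst hp
      exact hjk

private theorem wspan_mul {B : J → StarSubalgebra ℂ M} {u : J → M}
    (hu : ∀ j, IsUn (u j)) {j : J} {a : M} (ha : a ∈ B j) {q : M × M} (hq : q ∈ wspan B u) :
    (a, u j * a * star (u j)) * q ∈ wspan B u := by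
  unfold wspan at hq
  induction hq using Submodule.span_induction with
  | mem x hx => obtain ⟨l, hl, rfl⟩ := hx; exact wspan_mul_word hu ha hl
  | zero => rw [mul_zero]; exact zero_mem _
  | add x y _ _ hx hy => rw [mul_add]; exact add_mem hx hy
  | smul c x _ hx => rw [mul_smul_comm]; exact Submodule.smul_mem _ _ hx

private theorem adjoin_le_wspan {B : J → StarSubalgebra ℂ M} {u : J → M}
    (hu : ∀ j, IsUn (u j)) {q : M × M}
    (hq : q ∈ StarAlgebra.adjoin ℂ {p : M × M | ∃ j, p.1 ∈ B j ∧ p.2 = u j * p.1 * star (u j)}) :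
    q ∈ wspan B u := by
  have key : (∀ v ∈ wspan B u, q * v ∈ wspan B u) ∧ (∀ v ∈ wspan B u, star q * v ∈ wspan B u) := by
    induction hq using StarAlgebra.adjoin_induction with
    | mem x hx =>
      obtain ⟨j, hj, hx2⟩ := hx
      obtain ⟨a, b⟩ := x
      simp only at hj hx2
      subst hx2
      refine ⟨fun v hv => wspan_mul hu hj hv, fun v hv => ?_⟩
      have : star ((a, u j * a * star (u j)) : M × M)
          = (star a, u j * star a * star (u j)) := by
        apply Prod.ext
        · rfl
        · show star (u j * a * star (u j)) = _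
          rw [star_mul, star_mul, star_star]; simp only [mul_assoc]
      rw [this]
      exact wspan_mul hu (star_mem hj) hv
    | algebraMap r =>
      refine ⟨fun v hv => ?_, fun v hv => ?_⟩
      · rw [Algebra.algebraMap_eq_smul_one, smul_mul_assoc, one_mul]
        exact Submodule.smul_mem _ _ hv
      · rw [Algebra.algebraMap_eq_smul_one, star_smul, star_one, smul_mul_assoc, one_mul]
        exact Submodule.smul_mem _ _ hv
    | add x y _ _ hx hy =>
      refine ⟨fun v hv => ?_, fun v hv => ?_⟩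
      · rw [add_mul]; exact add_mem (hx.1 v hv) (hy.1 v hv)
      · rw [star_add, add_mul]; exact add_mem (hx.2 v hv) (hy.2 v hv)
    | mul x y _ _ hx hy =>
      refine ⟨fun v hv => ?_, fun v hv => ?_⟩
      · rw [mul_assoc]; exact hx.1 _ (hy.1 v hv)
      · rw [star_mul, mul_assoc]; exact hy.2 _ (hx.2 v hv)
    | star x _ hx => exact ⟨hx.2, by rw [star_star]; exact hx.1⟩
  have h1 : (1 : M × M) ∈ wspan B u :=
    Submodule.subset_span ⟨[], ⟨List.isChain_nil, by simp⟩, (wpair_nil u).symm⟩
  have := key.1 1 h1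
  rwa [mul_one] at this

/-- Blockwise conjugation extends to a trace preserving homomorphism. -/
theorem conj_hom {B : J → StarSubalgebra ℂ M} (hB : FreeFam B) (u : J → M)
    (hu : ∀ j, IsUn (u j)) (huB : ∀ j, u j ∈ B j) (X : Set M) (hX : ∀ x ∈ X, ∃ j, x ∈ B j)
    (hgen : ∀ x, x ∈ vnGen X) :
    ∃ Φ : M →⋆ₐ[ℂ] M, TrPres Φ ∧ ∀ j, ∀ x ∈ B j, Φ x = u j * x * star (u j) := by
  obtain ⟨Φ, hΦ, hΦG⟩ := hom_ext
    (StarAlgebra.adjoin ℂ {p : M × M | ∃ j, p.1 ∈ B j ∧ p.2 = u j * p.1 * star (u j)})
    (fun p hp => wspan_tr hB hu huB (adjoin_le_wspan hu hp))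
    (fun x ε hε => by
      obtain ⟨y, hy, hyε⟩ := (mem_vnGen_iff X x).mp (hgen x) ε hε
      have hle : StarAlgebra.adjoin ℂ X ≤ (StarAlgebra.adjoin ℂ
          {p : M × M | ∃ j, p.1 ∈ B j ∧ p.2 = u j * p.1 * star (u j)}).map
            (StarAlgHom.fst ℂ M M) := by
        apply StarAlgebra.adjoin_le
        intro z hz
        obtain ⟨j, hj⟩ := hX z hz
        exact ⟨(z, u j * z * star (u j)), StarAlgebra.subset_adjoin ℂ _ ⟨j, hj, rfl⟩, rfl⟩
      obtain ⟨p, hp, hpy⟩ := hle hy
      refine ⟨p, hp, ?_⟩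
      have : p.1 = y := hpy
      rw [this]; exact hyε)
  refine ⟨Φ, hΦ, fun j x hx => ?_⟩
  exact hΦG (x, u j * x * star (u j)) (StarAlgebra.subset_adjoin ℂ _ ⟨j, hx, rfl⟩)

/-- Trace preserving homomorphisms are determined on generators. -/
theorem eq_of_eqOn_gen {f g : M →⋆ₐ[ℂ] M} (hf : TrPres f) (hg : TrPres g) {X : Set M}
    (hX : ∀ x ∈ X, f x = g x) (hgen : ∀ x, x ∈ vnGen X) (x : M) : f x = g x := by
  have hv : VNSub (StarAlgHom.equalizer f g) := by
    intro y z C hy _ ht
    have h1 : Tendsto (fun n => n2 (f (y n) - f z)) atTop (𝓝 0) := by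
      simp_rw [← map_sub, hf.n2_eq]; exact ht
    have h2 : Tendsto (fun n => n2 (f (y n) - g z)) atTop (𝓝 0) := by
      have : ∀ n, f (y n) = g (y n) := fun n => hy n
      simp_rw [this, ← map_sub, hg.n2_eq]; exact ht
    exact eq_of_n2_lim h1 h2
  exact vnGen_le (S := StarAlgHom.equalizer f g) (fun z hz => hX z hz) hv (hgen x)

theorem exists_theta {P : J → StarSubalgebra ℂ M} {s : J → M} (h : Dil P s) :
    ∃ θ : ℝ → (M →⋆ₐ[ℂ] M), IsTheta P s θ := by
  set B : J → StarSubalgebra ℂ M := fun j => subGen (fam P s) {k | Sum.elim id id k = j} with hBdef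
  have hB : FreeFam B := group_free h.free (Sum.elim id id)
  have hPB : ∀ j, ∀ x ∈ P j, x ∈ B j := by
    intro j x hx
    apply subset_vnGen
    exact Set.mem_biUnion (x := (Sum.inl j : J ⊕ J)) rfl hx
  have hsB : ∀ j, s j ∈ B j := by
    intro j
    apply subset_vnGen
    exact Set.mem_biUnion (x := (Sum.inr j : J ⊕ J)) rfl
      (StarAlgebra.subset_adjoin ℂ _ (Set.mem_singleton (s j)))
  have huB : ∀ (t : ℝ) j, ut t (s j) ∈ B j := fun t j =>
    add_mem (SMulMemClass.smul_mem _ (one_mem _)) (SMulMemClass.smul_mem _ (hsB j))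
  have hX : ∀ x ∈ ((⋃ j, (P j : Set M)) ∪ Set.range s), ∃ j, x ∈ B j := by
    rintro x (hx | ⟨j, rfl⟩)
    · obtain ⟨j, hj⟩ := Set.mem_iUnion.mp hx
      exact ⟨j, hPB j x hj⟩
    · exact ⟨j, hsB j⟩
  choose θ hθ1 hθ2 using fun t : ℝ => conj_hom hB (fun j => ut t (s j))
    (fun j => ut_isUn (h.sa j) (h.sq j) t) (fun j => huB t j) _ hX h.gen
  have honP : ∀ (t : ℝ) (j : J) (x : M), x ∈ P j → θ t x = ut t (s j) * x * star (ut t (s j)) :=
    fun t j x hx => hθ2 t j x (hPB j x hx)
  have honS : ∀ (t : ℝ) (j : J), θ t (s j) = s j := fun t j => by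
    rw [hθ2 t j _ (hsB j), ut_conj (h.sa j) (h.sq j)]
  have honU : ∀ (r t : ℝ) (j : J), θ r (ut t (s j)) = ut t (s j) := fun r t j => by
    rw [ut, map_add, map_smul, map_smul, map_one, honS]
  refine ⟨θ, ⟨honP, honS, fun t x => hθ1 t x, ?_, ?_, ?_⟩⟩
  · intro x
    have := eq_of_eqOn_gen (f := θ 0) (g := StarAlgHom.id ℂ M) (hθ1 0) (fun x => rfl)
      (X := (⋃ j, (P j : Set M)) ∪ Set.range s) ?_ h.gen x
    · simpa using this
    · rintro x (hx | ⟨j, rfl⟩)
      · obtain ⟨j, hj⟩ := Set.mem_iUnion.mp hx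
        rw [honP 0 j x hj, ut_zero', star_one, one_mul, mul_one]; rfl
      · rw [honS]; rfl
  · intro r t x
    have := eq_of_eqOn_gen (f := (θ r).comp (θ t)) (g := θ (r + t)) ((hθ1 r).comp (hθ1 t))
      (hθ1 (r + t)) (X := (⋃ j, (P j : Set M)) ∪ Set.range s) ?_ h.gen x
    · simpa using this
    · rintro x (hx | ⟨j, rfl⟩)
      · obtain ⟨j, hj⟩ := Set.mem_iUnion.mp hx
        rw [StarAlgHom.comp_apply, honP t j x hj, map_mul, map_mul, map_star, honU,
          honP r j x hj, honP (r + t) j x hj, ← ut_mul_ut (h.sq j) r t,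
          show ut r (s j) * ut t (s j) = ut t (s j) * ut r (s j) by
            rw [ut_mul_ut (h.sq j), ut_mul_ut (h.sq j), add_comm], star_mul]
        simp only [mul_assoc]
      · rw [StarAlgHom.comp_apply, honS, honS, honS]
  · have hnorm : ∀ t x, ‖θ t x‖ = ‖x‖ := fun t x => (hθ1 t).norm_eq x
    let D : StarSubalgebra ℂ M :=
      { carrier := {x | Tendsto (fun t : ℝ => n2 (θ t x - x)) (𝓝 0) (𝓝 0)}
        mul_mem' := by
          intro x y hx hy
          have h1 : Tendsto (fun t : ℝ => ‖x‖ * n2 (θ t y - y) + n2 (θ t x - x) * ‖y‖)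
              (𝓝 0) (𝓝 0) := by
            simpa using (hy.const_mul ‖x‖).add (hx.mul_const ‖y‖)
          refine squeeze_zero (fun t => n2_nonneg _) (fun t => ?_) h1
          have e : θ t (x * y) - x * y = θ t x * (θ t y - y) + (θ t x - x) * y := by
            rw [map_mul, mul_sub, sub_mul]; abel
          rw [e]
          refine (n2_add_le _ _).trans (add_le_add ?_ (n2_mul_le' _ _))
          have := n2_mul_le (θ t x) (θ t y - y)
          rwa [hnorm] at this
        one_mem' := by
          show Tendsto (fun t : ℝ => n2 (θ t 1 - 1)) (𝓝 0) (𝓝 0)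
          simp [n2_zero]
        add_mem' := by
          intro x y hx hy
          have h1 : Tendsto (fun t : ℝ => n2 (θ t x - x) + n2 (θ t y - y)) (𝓝 0) (𝓝 0) := by
            simpa using hx.add hy
          refine squeeze_zero (fun t => n2_nonneg _) (fun t => ?_) h1
          have e : θ t (x + y) - (x + y) = (θ t x - x) + (θ t y - y) := by
            rw [map_add]; abel
          rw [e]
          exact n2_add_le _ _
        zero_mem' := by
          show Tendsto (fun t : ℝ => n2 (θ t 0 - 0)) (𝓝 0) (𝓝 0)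
          simp [n2_zero]
        algebraMap_mem' := by
          intro c
          show Tendsto (fun t : ℝ => n2 (θ t (algebraMap ℂ M c) - algebraMap ℂ M c)) (𝓝 0) (𝓝 0)
          have : ∀ t : ℝ, θ t (algebraMap ℂ M c) - algebraMap ℂ M c = 0 := by
            intro t
            rw [AlgHomClass.commutes, sub_self]
          simp [this, n2_zero]
        star_mem' := by
          intro x hx
          show Tendsto (fun t : ℝ => n2 (θ t (star x) - star x)) (𝓝 0) (𝓝 0)
          have : ∀ t : ℝ, n2 (θ t (star x) - star x) = n2 (θ t x - x) := by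
            intro t
            rw [map_star, ← star_sub, n2_star]
          simp_rw [this]; exact hx }
    have hD : VNSub D := by
      intro y z C hy _ ht
      show Tendsto (fun t : ℝ => n2 (θ t z - z)) (𝓝 0) (𝓝 0)
      rw [Metric.tendsto_nhds]
      intro ε hε
      obtain ⟨n₀, h₀⟩ := (Metric.tendsto_atTop.mp ht) (ε / 4) (by linarith)
      have h1 := h₀ n₀ le_rfl
      rw [Real.dist_eq, sub_zero, abs_of_nonneg (n2_nonneg _)] at h1
      have h2 : Tendsto (fun t : ℝ => n2 (θ t (y n₀) - y n₀)) (𝓝 0) (𝓝 0) := hy n₀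
      filter_upwards [(Metric.tendsto_nhds.mp h2) (ε / 4) (by linarith)] with t ht2
      rw [Real.dist_eq, sub_zero, abs_of_nonneg (n2_nonneg _)] at ht2 ⊢
      have e : θ t z - z = θ t (z - y n₀) + (θ t (y n₀) - y n₀) + (y n₀ - z) := by
        rw [map_sub]; abel
      rw [e]
      have h3 := n2_add_le (θ t (z - y n₀) + (θ t (y n₀) - y n₀)) (y n₀ - z)
      have h4 := n2_add_le (θ t (z - y n₀)) (θ t (y n₀) - y n₀)
      have h5 : n2 (θ t (z - y n₀)) = n2 (y n₀ - z) := by rw [(hθ1 t).n2_eq, n2_sub_comm]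
      linarith
    intro x
    have : x ∈ D := by
      refine vnGen_le (S := D) ?_ hD (h.gen x)
      rintro y (hy | ⟨j, rfl⟩)
      · obtain ⟨j, hj⟩ := Set.mem_iUnion.mp hy
        show Tendsto (fun t : ℝ => n2 (θ t y - y)) (𝓝 0) (𝓝 0)
        have hc : Continuous fun t : ℝ => ut t (s j) * y * star (ut t (s j)) - y := by
          unfold ut
          fun_prop
        have h1 : Tendsto (fun t : ℝ => ‖ut t (s j) * y * star (ut t (s j)) - y‖) (𝓝 0) (𝓝 0) := by
          have := (hc.norm).tendsto 0
          rwa [ut_zero', star_one, one_mul, mul_one, sub_self, norm_zero] at this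
        refine squeeze_zero (fun t => n2_nonneg _) (fun t => ?_) h1
        rw [honP t j y hj]
        exact n2_le_norm _
      · show Tendsto (fun t : ℝ => n2 (θ t (s j) - s j)) (𝓝 0) (𝓝 0)
        simp [honS, n2_zero]
    exact this

/-- At time 1 the deformation is conjugation by `s j` on `P j`. -/
theorem IsTheta.one_onP {P : J → StarSubalgebra ℂ M} {s : J → M} (h : Dil P s)
    {θ : ℝ → (M →⋆ₐ[ℂ] M)} (hθ : IsTheta P s θ) (j : J) {x : M} (hx : x ∈ P j) :
    θ 1 x = s j * x * s j := by
  rw [hθ.onP 1 j x hx]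
  have e1 : ut 1 (s j) = Complex.I • s j := by
    rw [ut, mul_one, Real.cos_pi_div_two, Real.sin_pi_div_two]; simp
  rw [e1, star_smul, h.sa j, smul_mul_assoc, smul_mul_assoc, mul_smul_comm, smul_smul]
  simp

/-- At time 2 the deformation is the identity. -/
theorem IsTheta.two {P : J → StarSubalgebra ℂ M} {s : J → M} (h : Dil P s)
    {θ : ℝ → (M →⋆ₐ[ℂ] M)} (hθ : IsTheta P s θ) (x : M) : θ 1 (θ 1 x) = x := by
  rw [hθ.add]
  have := eq_of_eqOn_gen (f := θ (1 + 1)) (g := StarAlgHom.id ℂ M) (fun x => hθ.tr_eq _ x)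
    (fun x => rfl) (X := (⋃ j, (P j : Set M)) ∪ Set.range s) ?_ h.gen x
  · simpa using this
  · rintro x (hx | ⟨j, rfl⟩)
    · obtain ⟨j, hj⟩ := Set.mem_iUnion.mp hx
      have e1 : ut (1 + 1) (s j) = -1 := by
        rw [ut, show Real.pi * (1 + 1) / 2 = Real.pi by ring, Real.cos_pi, Real.sin_pi]; simp
      rw [hθ.onP (1 + 1) j x hj, e1]; simp
    · rw [hθ.onS]; rfl

end Pool.Agent.KUR
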