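import Pool.Agent.KUR.Good
import Pool.Agent.KUR.Gap
import Pool.Agent.KUR.Th1

/-!
# KUR GapT: spectral gap on the good part

PROOF.  `MM P = subGen (fam P s) (Set.range Sum.inl)` (same union).
(1) `cross_good`: for `m ∈ MM P` and `z, z' ∈ goodSpan P s`:
`tr (star z' * m * z) = tr m * tr (star z' * z)`.  By linearity `z, z'` are values of good words, which
are empty or start with an index `inr`, so they start outside `K₀ = range inl`; apply `cross` with
`K₁ = ∅`, `b = 1` (`1 ∈ subGen A ∅`, `Disjoint K₀ ∅`).  The same formula holds for `z` with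
`InCl (goodSpan P s) z` (both sides are 2-norm continuous in `z`).
(2) In `P2 M` let `π g (mk ξ) = mk (a g * ξ * θ 1 (star (a g)))` (isometric representation; `θ 1 ∘ a` is
again unitary), `D = {mk (m * z) | m ∈ MM P, z ∈ goodSpan P s}`.  Coefficients:
`⟪π g (m z), m' z'⟫` is the conjugate of
`tr (star z' * (star m' * a g * m) * (z * θ 1 (star (a g)))) =
 tr (star m' * a g * m) * tr (star z' * z * θ 1 (star (a g)))` by (1) for the element
`z * θ 1 (star (a g))`, which is in the closure of `goodSpan` by `good_mul_theta`.  The second factor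
is bounded in `g`; the first is square summable (`summable_coeff`).  `kesten` with `k = 16`.
(3) The hypothesis `InCl` says that `mk ξ` is in the closure of the span of `D`.
-/

open Filter Topology

namespace Pool.Agent.KUR

universe u
variable {M : Type u} [CStarAlgebra M] [TVN M] {J : Type*}

/-- The span of `m * z`, `m ∈ MM P`, `z` good. -/
noncomputable def goodMod (P : J → StarSubalgebra ℂ M) (s : J → M) : Submodule ℂ M :=
  Submodule.span ℂ {x | ∃ m ∈ MM P, ∃ z ∈ goodSpan P s, x = m * z}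

theorem MM_eq_subGen (P : J → StarSubalgebra ℂ M) (s : J → M) :
    MM P = subGen (fam P s) (Set.range Sum.inl) := by
  unfold MM subGen
  rw [Set.biUnion_range]
  rfl

theorem gapT_head {l : List ((J ⊕ J) × M)} (hl : GoodW l) :
    ∀ p, l.head? = some p → p.1 ∉ Set.range (Sum.inl : J → J ⊕ J) := by
  intro p hp hr
  rcases hl with rfl | ⟨⟨j, hj⟩, -⟩
  · simp at hp
  · rw [List.head?_map, hp] at hj
    obtain ⟨i, hi⟩ := hr
    rw [Option.map_some, ← hi] at hj
    exact absurd (Option.some.inj hj) (by simp)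

theorem cross_good {P : J → StarSubalgebra ℂ M} {s : J → M} (h : Dil P s) {m z z' : M}
    (hm : m ∈ MM P) (hz : z ∈ goodSpan P s) (hz' : z' ∈ goodSpan P s) :
    tr (star z' * m * z) = tr m * tr (star z' * z) := by
  rw [MM_eq_subGen P s] at hm
  unfold goodSpan at hz hz'
  induction hz using Submodule.span_induction with
  | mem z hz =>
    obtain ⟨l, hl, hgl, rfl⟩ := hz
    induction hz' using Submodule.span_induction with
    | mem z' hz' =>
      obtain ⟨l', hl', hgl', rfl⟩ := hz'
      have key := cross h.free (Set.range Sum.inl) ∅ hm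
        (one_mem (subGen (fam P s) (∅ : Set (J ⊕ J)))) hl hl' (gapT_head hgl) (gapT_head hgl')
        (fun p _ => Set.notMem_empty _) (fun p _ => Set.notMem_empty _)
        (Or.inr (Set.disjoint_empty _))
      rw [mul_one, tr_one', mul_one] at key
      exact key
    | zero => simp
    | add x y _ _ ihx ihy =>
      rw [star_add, add_mul, add_mul, add_mul, map_add, map_add, ihx, ihy]
      ring
    | smul c x _ ihx =>
      rw [star_smul, smul_mul_assoc, smul_mul_assoc, smul_mul_assoc, map_smul, map_smul, ihx,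
        smul_eq_mul, smul_eq_mul]
      ring
  | zero => simp
  | add x y _ _ ihx ihy =>
    rw [mul_add, mul_add, map_add, map_add, ihx, ihy]
    ring
  | smul c x _ ihx =>
    rw [mul_smul_comm, mul_smul_comm, map_smul, map_smul, ihx, smul_eq_mul, smul_eq_mul]
    ring

theorem gapT_cross_cl {P : J → StarSubalgebra ℂ M} {s : J → M} (h : Dil P s) {m z z' : M}
    (hm : m ∈ MM P) (hz : InCl (goodSpan P s) z) (hz' : z' ∈ goodSpan P s) :
    tr (star z' * m * z) = tr m * tr (star z' * z) := by
  obtain ⟨x, hx, ht⟩ := exists_seq_of_approx hz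
  have t1 : Tendsto (fun n => tr (star z' * m * x n)) atTop (𝓝 (tr (star z' * m * z))) :=
    tr_lim (n2_lim_mul_left _ ht)
  have t2 : Tendsto (fun n => tr m * tr (star z' * x n)) atTop
      (𝓝 (tr m * tr (star z' * z))) := (tr_lim (n2_lim_mul_left _ ht)).const_mul _
  have e : (fun n => tr (star z' * m * x n)) = fun n => tr m * tr (star z' * x n) :=
    funext fun n => cross_good h hm (hx n) hz'
  rw [e] at t1
  exact tendsto_nhds_unique t1 t2

theorem gapT_isUn_map (f : M →⋆ₐ[ℂ] M) {x : M} (hx : IsUn x) : IsUn (f x) := by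
  refine ⟨?_, ?_⟩
  · rw [← map_star, ← map_mul, hx.1, map_one]
  · rw [← map_star, ← map_mul, hx.2, map_one]

/-- The representation. -/
noncomputable def gapT_rep (f : M →⋆ₐ[ℂ] M) {a : FreeGroup (Fin 16) → M} (ha : IsFreeRep a) :
    FreeGroup (Fin 16) →* (P2 M →ₗ[ℂ] P2 M) where
  toFun g :=
    { toFun := fun v => P2.mk (a g * P2.mk.symm v * f (star (a g)))
      map_add' := fun v w => by rw [map_add, mul_add, add_mul, map_add]
      map_smul' := fun c v => by
        rw [map_smul, mul_smul_comm, smul_mul_assoc, map_smul, RingHom.id_apply] }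
  map_one' := by
    refine LinearMap.ext fun v => ?_
    show P2.mk (a 1 * P2.mk.symm v * f (star (a 1))) = v
    rw [ha.1, star_one, map_one, one_mul, mul_one, LinearEquiv.apply_symm_apply]
  map_mul' g k := by
    refine LinearMap.ext fun v => ?_
    show P2.mk (a (g * k) * P2.mk.symm v * f (star (a (g * k)))) =
      P2.mk (a g * P2.mk.symm (P2.mk (a k * P2.mk.symm v * f (star (a k)))) * f (star (a g)))
    have e : a (g * k) * P2.mk.symm v * f (star (a (g * k))) =
        a g * (a k * P2.mk.symm v * f (star (a k))) * f (star (a g)) := by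
      rw [ha.2.1, star_mul, map_mul f]
      simp only [mul_assoc]
    rw [LinearEquiv.symm_apply_apply, e]

theorem gapT_rep_mk (f : M →⋆ₐ[ℂ] M) {a : FreeGroup (Fin 16) → M} (ha : IsFreeRep a)
    (g : FreeGroup (Fin 16)) (x : M) :
    gapT_rep f ha g (P2.mk x) = P2.mk (a g * x * f (star (a g))) := rfl

theorem gap_theta {P : J → StarSubalgebra ℂ M} {s : J → M} (h : Dil P s)
    {θ : ℝ → (M →⋆ₐ[ℂ] M)} (hθ : IsTheta P s θ) {a : FreeGroup (Fin 16) → M} (ha : IsFreeRep a)
    (haM : ∀ g, a g ∈ MM P) {ξ : M} (hξ : InCl (goodMod P s) ξ) :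
    n2 (∑ i, a (FreeGroup.of i) * ξ * star (θ 1 (a (FreeGroup.of i)))) ≤ 8 * n2 ξ := by
  have hun : ∀ g, IsUn (θ 1 (star (a g))) := fun g => gapT_isUn_map (θ 1) (ha.2.2.1 g).star
  have hπ : ∀ g v, ‖gapT_rep (θ 1) ha g v‖ = ‖v‖ := by
    intro g v
    obtain ⟨x, rfl⟩ := P2.mk.surjective v
    rw [gapT_rep_mk, P2.norm_mk, P2.norm_mk, (hun g).n2_mul', (ha.2.2.1 g).n2_mul]
  obtain ⟨D, hD⟩ : ∃ D : Set (P2 M), D = {v | ∃ m ∈ MM P, ∃ z ∈ goodSpan P s,
    v = P2.mk (m * z)} := ⟨_, rfl⟩
  have hsum : ∀ v ∈ D, ∀ v' ∈ D, Summable fun g => ‖inner ℂ (gapT_rep (θ 1) ha g v) v'‖ ^ 2 := by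
    intro v hv v' hv'
    rw [hD] at hv hv'
    obtain ⟨m, hm, z, hz, rfl⟩ := hv
    obtain ⟨m', hm', z', hz', rfl⟩ := hv'
    have hb := (summable_coeff ha (star m') m).mul_left ((‖z'‖ * ‖z‖) ^ 2)
    refine Summable.of_nonneg_of_le (fun g => sq_nonneg _) (fun g => ?_) hb
    have e1 : inner ℂ (gapT_rep (θ 1) ha g (P2.mk (m * z))) (P2.mk (m' * z')) =
        tr (star (a g * (m * z) * θ 1 (star (a g))) * (m' * z')) := rfl
    have e2 : star (star (m' * z') * (a g * (m * z) * θ 1 (star (a g)))) =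
        star (a g * (m * z) * θ 1 (star (a g))) * (m' * z') := by
      rw [star_mul, star_star]
    have e3 : star (m' * z') * (a g * (m * z) * θ 1 (star (a g))) =
        star z' * (star m' * a g * m) * (z * θ 1 (star (a g))) := by
      rw [star_mul]
      simp only [mul_assoc]
    have hmm : star m' * a g * m ∈ MM P := mul_mem (mul_mem (star_mem hm') (haM g)) hm
    have hz2 : InCl (goodSpan P s) (z * θ 1 (star (a g))) :=
      good_mul_theta h hθ (fun j x hx => hθ.one_onP h j hx) hz (star_mem (haM g))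
    rw [e1, ← e2, tr_star, Complex.norm_conj, e3, gapT_cross_cl h hmm hz2 hz', norm_mul, mul_pow,
      mul_comm]
    refine mul_le_mul_of_nonneg_right ?_ (sq_nonneg _)
    refine pow_le_pow_left₀ (norm_nonneg _) ?_ 2
    calc ‖tr (star z' * (z * θ 1 (star (a g))))‖ ≤ ‖star z' * (z * θ 1 (star (a g)))‖ :=
          norm_tr_le _
      _ ≤ ‖star z'‖ * (‖z‖ * ‖θ 1 (star (a g))‖) :=
          (norm_mul_le _ _).trans (mul_le_mul_of_nonneg_left (norm_mul_le _ _) (norm_nonneg _))
      _ ≤ ‖star z'‖ * (‖z‖ * 1) := by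
          have := (hun g).norm_le_one
          gcongr
      _ = ‖z'‖ * ‖z‖ := by rw [norm_star, mul_one]
  have hspan : ∀ y ∈ goodMod P s, P2.mk y ∈ Submodule.span ℂ D := by
    intro y hy
    unfold goodMod at hy
    induction hy using Submodule.span_induction with
    | mem y hy =>
      obtain ⟨m, hm, z, hz, rfl⟩ := hy
      refine Submodule.subset_span ?_
      rw [hD]
      exact ⟨m, hm, z, hz, rfl⟩
    | zero => rw [map_zero]; exact Submodule.zero_mem _
    | add x y _ _ ihx ihy => rw [map_add]; exact Submodule.add_mem _ ihx ihy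
    | smul c x _ ihx => rw [map_smul]; exact Submodule.smul_mem _ _ ihx
  have hcl : P2.mk ξ ∈ closure (Submodule.span ℂ D : Set (P2 M)) := by
    rw [Metric.mem_closure_iff]
    intro ε hε
    obtain ⟨y, hy, hlt⟩ := hξ ε hε
    refine ⟨P2.mk y, hspan y hy, ?_⟩
    rw [dist_eq_norm, ← map_sub, P2.norm_mk]
    exact hlt
  have key := kesten 16 (gapT_rep (θ 1) ha) hπ D hsum (P2.mk ξ) hcl
  have e16 : 2 * Real.sqrt ((16 : ℕ) : ℝ) = 8 := by
    have : ((16 : ℕ) : ℝ) = 4 ^ 2 := by norm_num
    rw [this, Real.sqrt_sq (by norm_num)]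
    norm_num
  rw [e16, P2.norm_mk] at key
  have e : ∑ i, gapT_rep (θ 1) ha (FreeGroup.of i) (P2.mk ξ) =
      P2.mk (∑ i, a (FreeGroup.of i) * ξ * star (θ 1 (a (FreeGroup.of i)))) := by
    rw [map_sum]
    refine Finset.sum_congr rfl (fun i _ => ?_)
    rw [gapT_rep_mk, map_star]
  rw [e, P2.norm_mk] at key
  exact key

end Pool.Agent.KUR
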