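import Pool.Agent.KUR.Words
import Pool.Agent.KUR.Kap

/-!
# KUR Good: good words and their stability under right multiplication by `θ 1 (MM P)`

Letters: `inl j` (element of `P j`) and `inr j` (multiple of `s j`).  A shape is a list of indices.
`PatS sh`: the shape is `[s_{j0}] ++ [s_{j1}, P_{j1}, s_{j1}] ++ ... ++ [s_{jr}, P_{jr}, s_{jr}]`.
Good words: the empty word, or words whose first index is some `inr j` and whose shape is not a
pattern.

PROOF of `good_mul` (the letter case): `l` good and reduced, `p ∈ P j`, `tr p = 0`; show that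
`wv l * (s j * p * s j)` is in the span of good reduced words.
 A. `l = []`: the word `[s_j, p, s_j]` is good (length 3, patterns have length 1 + 3 r).
 B. last index of `l` is not `inr j`: `l ++ [s_j, p, s_j]` is reduced, starts with `inr`; it is not a
    pattern, because otherwise `l` would be a pattern (remove the last triple; the length is > 1).
 C. `l = l' ++ [λ s_j]`; then `wv l * s_j p s_j = λ wv l' * p * s_j` (`s j * s j = 1`).
    `l' ≠ []` because `[s_j]` is a pattern.  Last index of `l'` is not `inr j`.
    C1. last index of `l'` is not `inl j`: `l' ++ [p, s_j]` is reduced, starts with `inr`; not a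
        pattern: a pattern of length > 1 ends with a triple `s_j, p, s_j`, so `l'` would end with
        `inr j`.
    C2. `l' = l'' ++ [p']`, `p' ∈ P j`: `wv l'' (p' p) s_j = wv l'' (p'p)° s_j + tr (p'p) wv l'' s_j`.
        `l'' ≠ []` (the first index of `l` is an `inr`).  `l'' ++ [(p'p)°, s_j]` has the same shape as
        `l`, so it is good.  For the second term: if the last index of `l''` is not `inr j` (it is
        not `inl j` either), `l'' ++ [s_j]` is reduced, starts with `inr`, is not a pattern (length
        > 1 patterns end with `.., inl j, inr j` and the last index of `l''` is not `inl j`).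
        If `l'' = l''' ++ [μ s_j]`: the value is `μ wv l'''`, and `l'''` is empty (good) or starts
        with `inr`; it is not a pattern, since otherwise `l = l''' ++ [s_j, p', s_j]` would be a
        pattern.
(Elements of trace 0 of `fam P s (inr j) = StarAlgebra.adjoin ℂ {s j}` are multiples of `s j`:
`StarAlgebra.adjoin ℂ {s j} = ℂ 1 + ℂ s j`.)
`good_mul_theta`: `θ 1 p = s j * p * s j` for `p ∈ P j` (hypothesis `h1`).  The span `V` of good words is
then stable under right multiplication by `θ 1 y`, `y ∈ StarAlgebra.adjoin ℂ (⋃ P j)` (induction;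
`p = p° + tr p`).  For `y ∈ MM P` and `z ∈ V`: `z * θ 1 y` is a 2-norm limit of `z * θ 1 (y n)`.
-/

open Filter Topology

namespace Pool.Agent.KUR

universe u
variable {M : Type u} [CStarAlgebra M] [TVN M] {J : Type*}

/-- Patterns. -/
def PatS (sh : List (J ⊕ J)) : Prop :=
  ∃ (j₀ : J) (L : List J),
    sh = Sum.inr j₀ :: L.flatMap (fun j => [Sum.inr j, Sum.inl j, Sum.inr j])

/-- Good words. -/
def GoodW (l : List ((J ⊕ J) × M)) : Prop :=
  l = [] ∨ ((∃ j, (l.map Prod.fst).head? = some (Sum.inr j)) ∧ ¬ PatS (l.map Prod.fst))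

/-- The span of the values of good reduced words. -/
noncomputable def goodSpan (P : J → StarSubalgebra ℂ M) (s : J → M) : Submodule ℂ M :=
  Submodule.span ℂ {z | ∃ l : List ((J ⊕ J) × M), RedW (fam P s) l ∧ GoodW l ∧ z = wv l}

theorem mem_adjoin_symm {s : M} (h1 : star s = s) (h2 : s * s = 1) (h3 : tr s = 0) {x : M}
    (hx : x ∈ StarAlgebra.adjoin ℂ {s}) (ht : tr x = 0) : ∃ c : ℂ, x = c • s := by
  have key : ∀ y : M, y ∈ StarAlgebra.adjoin ℂ ({s} : Set M) → ∃ a b : ℂ, y = a • (1 : M) + b • s := by
    intro y hy
    induction hy using StarAlgebra.adjoin_induction with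
    | mem x hx =>
      rw [Set.mem_singleton_iff] at hx
      exact ⟨0, 1, by rw [hx]; simp⟩
    | algebraMap r => exact ⟨r, 0, by rw [Algebra.algebraMap_eq_smul_one]; simp⟩
    | add x y _ _ hx hy =>
      obtain ⟨a, b, rfl⟩ := hx
      obtain ⟨a', b', rfl⟩ := hy
      exact ⟨a + a', b + b', by rw [add_smul, add_smul]; abel⟩
    | mul x y _ _ hx hy =>
      obtain ⟨a, b, rfl⟩ := hx
      obtain ⟨a', b', rfl⟩ := hy
      refine ⟨a * a' + b * b', a * b' + b * a', ?_⟩
      rw [add_mul, mul_add, mul_add]
      simp only [smul_mul_assoc, mul_smul_comm, one_mul, mul_one, h2]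
      module
    | star x _ hx =>
      obtain ⟨a, b, rfl⟩ := hx
      exact ⟨star a, star b, by rw [star_add, star_smul, star_smul, star_one, h1]⟩
  obtain ⟨a, b, rfl⟩ := key x hx
  rw [map_add, map_smul, map_smul, tr_one', h3] at ht
  have ha : a = 0 := by simpa using ht
  exact ⟨b, by rw [ha]; simp⟩

private theorem wv_concat {K : Type*} (l : List (K × M)) (k : K) (x : M) :
    wv (l ++ [(k, x)]) = wv l * x := by
  simp [wv]

private theorem redW_concat {K : Type*} {A : K → StarSubalgebra ℂ M} {l : List (K × M)} {k : K}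
    {x : M} : RedW A (l ++ [(k, x)]) ↔
      RedW A l ∧ (l.map Prod.fst).getLast? ≠ some k ∧ x ∈ A k ∧ tr x = 0 := by
  unfold RedW
  rw [List.isChain_append]
  constructor
  · rintro ⟨⟨h1, -, h2⟩, h3⟩
    refine ⟨⟨h1, fun p hp => h3 p (by simp [hp])⟩, ?_, h3 (k, x) (by simp)⟩
    intro h
    rw [List.getLast?_map, Option.map_eq_some_iff] at h
    obtain ⟨q, hq, hqk⟩ := h
    exact h2 q (by simpa using hq) (k, x) (by simp) hqk
  · rintro ⟨⟨h1, h2⟩, h3, h4⟩
    refine ⟨⟨h1, by simp, ?_⟩, ?_⟩
    · intro q hq y hy
      simp only [List.head?_cons, Option.mem_def, Option.some.injEq] at hy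
      subst hy
      intro h
      apply h3
      rw [List.getLast?_map, Option.map_eq_some_iff]
      exact ⟨q, hq, h⟩
    · intro p hp
      rcases List.mem_append.mp hp with hp | hp
      · exact h2 p hp
      · rw [List.mem_singleton] at hp
        subst hp
        exact h4

/-- The triple. -/
private def tri (j : J) : List (J ⊕ J) := [Sum.inr j, Sum.inl j, Sum.inr j]

private theorem pat_concat {sh : List (J ⊕ J)} (h : PatS sh) (j : J) : PatS (sh ++ tri j) := by
  obtain ⟨j₀, L, rfl⟩ := h
  exact ⟨j₀, L ++ [j], by simp [tri]⟩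

private theorem pat_cases {sh : List (J ⊕ J)} (h : PatS sh) :
    (∃ j, sh = [Sum.inr j]) ∨ ∃ sh' j, sh = sh' ++ tri j ∧ PatS sh' := by
  obtain ⟨j₀, L, rfl⟩ := h
  rcases List.eq_nil_or_concat' L with rfl | ⟨L', j, rfl⟩
  · exact Or.inl ⟨j₀, by simp⟩
  · exact Or.inr ⟨Sum.inr j₀ :: L'.flatMap (fun j => [Sum.inr j, Sum.inl j, Sum.inr j]), j,
      by simp [tri], ⟨j₀, L', rfl⟩⟩

private theorem pat_concat_iff {sh : List (J ⊕ J)} {j : J} : PatS (sh ++ tri j) ↔ PatS sh := by
  refine ⟨fun h => ?_, fun h => pat_concat h j⟩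
  rcases pat_cases h with ⟨j', h'⟩ | ⟨sh', j', h', hp⟩
  · have := congrArg List.length h'
    simp [tri] at this
  · have := List.append_inj_left' h' (by simp [tri])
    rwa [this]

private theorem pat_concat_two {sh : List (J ⊕ J)} {j : J}
    (h : PatS (sh ++ [Sum.inl j, Sum.inr j])) : sh.getLast? = some (Sum.inr j) := by
  rcases pat_cases h with ⟨j', h'⟩ | ⟨sh', j', h', hp⟩
  · have := congrArg List.length h'
    simp at this
  · have e : sh' ++ tri j' = (sh' ++ [Sum.inr j']) ++ [Sum.inl j', Sum.inr j'] := by simp [tri]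
    rw [e] at h'
    obtain ⟨h1, h2⟩ := List.append_inj' h' (by simp)
    simp only [List.cons.injEq, Sum.inl.injEq] at h2
    rw [h1, h2.1]
    simp

private theorem pat_concat_one {sh : List (J ⊕ J)} {j : J} (hsh : sh ≠ [])
    (h : PatS (sh ++ [Sum.inr j])) : sh.getLast? = some (Sum.inl j) := by
  rcases pat_cases h with ⟨j', h'⟩ | ⟨sh', j', h', hp⟩
  · have := congrArg List.length h'
    simp at this
    exact absurd this hsh
  · have e : sh' ++ tri j' = (sh' ++ [Sum.inr j', Sum.inl j']) ++ [Sum.inr j'] := by simp [tri]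
    rw [e] at h'
    obtain ⟨h1, h2⟩ := List.append_inj' h' (by simp)
    simp only [List.cons.injEq, Sum.inr.injEq] at h2
    rw [h1, h2.1]
    simp

private theorem head_append {α : Type*} {l l' : List α} (h : l ≠ []) :
    (l ++ l').head? = l.head? := by
  cases l with
  | nil => exact absurd rfl h
  | cons a t => simp

private theorem mem_goodSpan {P : J → StarSubalgebra ℂ M} {s : J → M} {l : List ((J ⊕ J) × M)}
    (hl : RedW (fam P s) l) (hg : GoodW l) : wv l ∈ goodSpan P s :=
  Submodule.subset_span ⟨l, hl, hg, rfl⟩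

private theorem s_mem_fam {P : J → StarSubalgebra ℂ M} {s : J → M} (j : J) :
    s j ∈ fam P s (Sum.inr j) := StarAlgebra.subset_adjoin ℂ _ rfl

private theorem good_mul_c {P : J → StarSubalgebra ℂ M} {s : J → M} (h : Dil P s)
    {l : List ((J ⊕ J) × M)} (hl : RedW (fam P s) l) (hg : GoodW l) {j : J} {p : M}
    (hp : p ∈ P j) (h0 : tr p = 0) : wv l * (s j * p * s j) ∈ goodSpan P s := by
  have hp' : p ∈ fam P s (Sum.inl j) := hp
  have hB : ∀ l : List ((J ⊕ J) × M), RedW (fam P s) l →
      (l.map Prod.fst).getLast? ≠ some (Sum.inr j) →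
      (l ≠ [] → ∃ j, (l.map Prod.fst).head? = some (Sum.inr j)) → ¬ PatS (l.map Prod.fst) →
      wv l * (s j * p * s j) ∈ goodSpan P s := by
    intro l hl hlast hhead hpat
    have e : wv l * (s j * p * s j)
        = wv (((l ++ [(Sum.inr j, s j)]) ++ [(Sum.inl j, p)]) ++ [(Sum.inr j, s j)]) := by
      rw [wv_concat, wv_concat, wv_concat]; simp only [mul_assoc]
    rw [e]
    apply mem_goodSpan
    · rw [redW_concat, redW_concat, redW_concat]
      refine ⟨⟨⟨hl, hlast, s_mem_fam j, h.trs j⟩, by simp, hp', h0⟩, by simp, s_mem_fam j, h.trs j⟩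
    · right
      have e2 : (l ++ [((Sum.inr j : J ⊕ J), s j)] ++ [(Sum.inl j, p)] ++ [(Sum.inr j, s j)]).map
          Prod.fst = l.map Prod.fst ++ tri j := by simp [tri]
      rw [e2, pat_concat_iff]
      refine ⟨?_, hpat⟩
      by_cases hl0 : l = []
      · subst hl0; exact ⟨j, by simp [tri]⟩
      · rw [head_append (by simpa using hl0)]
        exact hhead hl0
  have hnil : ¬ PatS ([] : List (J ⊕ J)) := by
    rintro ⟨j₀, L, hL⟩; simp at hL
  rcases List.eq_nil_or_concat' l with rfl | ⟨l', ⟨k, a⟩, rfl⟩
  · exact hB [] hl (by simp) (by simp) (by simpa using hnil)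
  · have hg' : (∃ j, ((l' ++ [(k, a)]).map Prod.fst).head? = some (Sum.inr j)) ∧
        ¬ PatS ((l' ++ [(k, a)]).map Prod.fst) := by
      rcases hg with hg | hg
      · simp at hg
      · exact hg
    by_cases hk : k = Sum.inr j
    · subst hk
      rw [redW_concat] at hl
      obtain ⟨hl', hlast, ha, ha0⟩ := hl
      obtain ⟨c, rfl⟩ := mem_adjoin_symm (h.sa j) (h.sq j) (h.trs j) ha ha0
      have e1 : wv (l' ++ [(Sum.inr j, c • s j)]) * (s j * p * s j) = c • (wv l' * p * s j) := by
        rw [wv_concat, mul_smul_comm, smul_mul_assoc]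
        congr 1
        calc wv l' * s j * (s j * p * s j) = wv l' * (s j * s j) * p * s j := by
              simp only [mul_assoc]
          _ = _ := by rw [h.sq, mul_one]
      rw [e1]
      apply Submodule.smul_mem
      have hl'0 : l' ≠ [] := by
        rintro rfl
        exact hg'.2 ⟨j, [], by simp⟩
      have hhead : ∃ j, (l'.map Prod.fst).head? = some (Sum.inr j) := by
        have := hg'.1
        rwa [List.map_append, head_append (by simpa using hl'0)] at this
      by_cases hlast2 : (l'.map Prod.fst).getLast? = some (Sum.inl j)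
      · -- C2
        rcases List.eq_nil_or_concat' l' with rfl | ⟨l2, ⟨k2, p'⟩, rfl⟩
        · exact absurd rfl hl'0
        have hk2 : k2 = Sum.inl j := by simpa using hlast2
        subst hk2
        rw [redW_concat] at hl'
        obtain ⟨hl2, hlast3, hp2, hp20⟩ := hl'
        have hp2' : p' ∈ P j := hp2
        have hl20 : l2 ≠ [] := by
          rintro rfl
          obtain ⟨j', hj'⟩ := hhead
          simp at hj'
        have hhead2 : ∃ j, (l2.map Prod.fst).head? = some (Sum.inr j) := by
          rwa [List.map_append, head_append (by simpa using hl20)] at hhead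
        set q : M := p' * p with hq
        have e2 : wv (l2 ++ [(Sum.inl j, p')]) * p * s j
            = wv ((l2 ++ [(Sum.inl j, q - tr q • (1 : M))]) ++ [(Sum.inr j, s j)])
              + tr q • (wv l2 * s j) := by
          rw [wv_concat, wv_concat, wv_concat, mul_sub, sub_mul, mul_smul_comm, mul_one,
            smul_mul_assoc, sub_add_cancel, hq]
          simp only [mul_assoc]
        rw [e2]
        apply Submodule.add_mem
        · apply mem_goodSpan
          · rw [redW_concat, redW_concat]
            refine ⟨⟨hl2, hlast3, ?_, ?_⟩, by simp, s_mem_fam j, h.trs j⟩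
            · show q - tr q • (1 : M) ∈ P j
              exact sub_mem (mul_mem hp2' hp) (SMulMemClass.smul_mem _ (one_mem _))
            · rw [map_sub, map_smul, tr_one', smul_eq_mul, mul_one, sub_self]
          · right
            have e3 : ((l2 ++ [((Sum.inl j : J ⊕ J), q - tr q • (1 : M))]) ++
                [(Sum.inr j, s j)]).map Prod.fst
                = ((l2 ++ [((Sum.inl j : J ⊕ J), p')]) ++ [(Sum.inr j, c • s j)]).map Prod.fst := by
              simp
            rw [e3]
            exact hg'
        · apply Submodule.smul_mem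
          by_cases hlast4 : (l2.map Prod.fst).getLast? = some (Sum.inr j)
          · rcases List.eq_nil_or_concat' l2 with rfl | ⟨l3, ⟨k3, b⟩, rfl⟩
            · exact absurd rfl hl20
            have hk3 : k3 = Sum.inr j := by simpa using hlast4
            subst hk3
            rw [redW_concat] at hl2
            obtain ⟨hl3, hlast5, hb, hb0⟩ := hl2
            obtain ⟨d, rfl⟩ := mem_adjoin_symm (h.sa j) (h.sq j) (h.trs j) hb hb0
            have e4 : wv (l3 ++ [(Sum.inr j, d • s j)]) * s j = d • wv l3 := by
              rw [wv_concat, mul_smul_comm, smul_mul_assoc, mul_assoc, h.sq, mul_one]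
            rw [e4]
            apply Submodule.smul_mem
            apply mem_goodSpan hl3
            by_cases hl30 : l3 = []
            · exact Or.inl hl30
            · right
              refine ⟨?_, ?_⟩
              · rwa [List.map_append, head_append (by simpa using hl30)] at hhead2
              · intro hpat
                apply hg'.2
                have := pat_concat hpat j
                simpa [tri] using this
          · rw [← wv_concat l2 (Sum.inr j : J ⊕ J) (s j)]
            apply mem_goodSpan
            · rw [redW_concat]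
              exact ⟨hl2, hlast4, s_mem_fam j, h.trs j⟩
            · right
              rw [List.map_append, head_append (by simpa using hl20)]
              refine ⟨hhead2, ?_⟩
              intro hpat
              have := pat_concat_one (by simpa using hl20) hpat
              exact hlast3 this
      · -- C1
        have e2 : wv l' * p * s j = wv ((l' ++ [(Sum.inl j, p)]) ++ [(Sum.inr j, s j)]) := by
          rw [wv_concat, wv_concat]
        rw [e2]
        apply mem_goodSpan
        · rw [redW_concat, redW_concat]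
          exact ⟨⟨hl', hlast2, hp', h0⟩, by simp, s_mem_fam j, h.trs j⟩
        · right
          rw [List.append_assoc, List.map_append, head_append (by simpa using hl'0)]
          refine ⟨hhead, ?_⟩
          intro hpat
          exact hlast (pat_concat_two hpat)
    · exact hB _ hl (by simpa using hk) (fun _ => hg'.1) hg'.2

theorem good_mul {P : J → StarSubalgebra ℂ M} {s : J → M} (h : Dil P s)
    {l : List ((J ⊕ J) × M)} (hl : RedW (fam P s) l) (hg : GoodW l) {j : J} {p : M}
    (hp : p ∈ P j) : wv l * (s j * p * s j) ∈ goodSpan P s := by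
  have e : wv l * (s j * p * s j)
      = wv l * (s j * (p - tr p • (1 : M)) * s j) + tr p • wv l := by
    rw [mul_sub, sub_mul, mul_smul_comm, mul_one, smul_mul_assoc, h.sq, mul_sub, mul_smul_comm,
      mul_one, sub_add_cancel]
  rw [e]
  refine Submodule.add_mem _ ?_ (Submodule.smul_mem _ _ (mem_goodSpan hl hg))
  refine good_mul_c h hl hg (sub_mem hp (SMulMemClass.smul_mem _ (one_mem _))) ?_
  rw [map_sub, map_smul, tr_one', smul_eq_mul, mul_one, sub_self]

theorem good_mul_theta {P : J → StarSubalgebra ℂ M} {s : J → M} (h : Dil P s)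
    {θ : ℝ → (M →⋆ₐ[ℂ] M)} (hθ : IsTheta P s θ)
    (h1 : ∀ (j : J) (x : M), x ∈ P j → θ 1 x = s j * x * s j) {z y : M}
    (hz : z ∈ goodSpan P s) (hy : y ∈ MM P) : InCl (goodSpan P s) (z * θ 1 y) := by
  -- letters
  have hlet : ∀ (j : J) (p : M), p ∈ P j → ∀ z ∈ goodSpan P s, z * θ 1 p ∈ goodSpan P s := by
    intro j p hp z hz
    rw [h1 j p hp]
    induction hz using Submodule.span_induction with
    | mem x hx =>
      obtain ⟨l, hl, hg, rfl⟩ := hx
      exact good_mul h hl hg hp
    | zero => rw [zero_mul]; exact Submodule.zero_mem _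
    | add x y _ _ hx hy => rw [add_mul]; exact Submodule.add_mem _ hx hy
    | smul a x _ hx => rw [smul_mul_assoc]; exact Submodule.smul_mem _ _ hx
  have hstar : star (⋃ j, (P j : Set M)) = ⋃ j, (P j : Set M) := by
    ext x
    rw [Set.mem_star, Set.mem_iUnion, Set.mem_iUnion]
    constructor
    · rintro ⟨j, hj⟩
      exact ⟨j, by simpa using star_mem hj⟩
    · rintro ⟨j, hj⟩
      exact ⟨j, star_mem hj⟩
  have hadj : ∀ y ∈ StarAlgebra.adjoin ℂ (⋃ j, (P j : Set M)), ∀ z ∈ goodSpan P s,
      z * θ 1 y ∈ goodSpan P s := by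
    intro y hy
    have hy' : y ∈ Algebra.adjoin ℂ (⋃ j, (P j : Set M)) := by
      have : y ∈ (StarAlgebra.adjoin ℂ (⋃ j, (P j : Set M))).toSubalgebra := hy
      rwa [StarAlgebra.adjoin_toSubalgebra, hstar, Set.union_self] at this
    clear hy
    induction hy' using Algebra.adjoin_induction with
    | mem x hx =>
      obtain ⟨j, hj⟩ := Set.mem_iUnion.mp hx
      exact hlet j x hj
    | algebraMap r =>
      intro z hz
      rw [AlgHomClass.commutes, ← Algebra.commutes, ← Algebra.smul_def]
      exact Submodule.smul_mem _ _ hz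
    | add x y _ _ hx hy =>
      intro z hz
      rw [map_add, mul_add]
      exact Submodule.add_mem _ (hx z hz) (hy z hz)
    | mul x y _ _ hx hy =>
      intro z hz
      rw [map_mul, ← mul_assoc]
      exact hy _ (hx z hz)
  obtain ⟨w, hw, -, hlim⟩ := exists_seq_of_mem_vnGen (X := ⋃ j, (P j : Set M)) hy
  have hlim2 : Tendsto (fun n => n2 (z * θ 1 (w n) - z * θ 1 y)) atTop (𝓝 0) := by
    apply n2_lim_mul_left
    have e : (fun n => n2 (θ 1 (w n) - θ 1 y)) = fun n => n2 (w n - y) := by
      funext n
      rw [← map_sub]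
      exact TrPres.n2_eq (f := θ 1) (fun x => hθ.tr_eq 1 x) _
    rw [e]; exact hlim
  intro ε hε
  obtain ⟨n₀, h₀⟩ := Metric.tendsto_atTop.mp hlim2 ε hε
  refine ⟨z * θ 1 (w n₀), hadj _ (hw n₀) z hz, ?_⟩
  have := h₀ n₀ le_rfl
  rw [Real.dist_eq, sub_zero, abs_of_nonneg (n2_nonneg _)] at this
  rw [n2_sub_comm]; exact this

end Pool.Agent.KUR
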