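import Pool.Agent.KUR.Words
import Pool.Agent.KUR.Kap

/-!
# KUR Grp: grouping a free family into blocks

PROOF.  Let `B j = subGen A {k | κ k = j} = vnGen (⋃ k with κ k = j, A k)`.  Let
`b_1 ⋯ b_n` be a reduced word of the family `B` (`b_i ∈ B j_i`, `tr b_i = 0`, `j_i ≠ j_{i+1}`,
n ≥ 1).  By `exists_seq_of_mem_vnGen` each `b_i` is a 2-norm limit of a bounded sequence
`b_i^(m) ∈ StarAlgebra.adjoin ℂ (⋃ ...)`; subtracting traces (they tend to `tr b_i = 0`) we may take
`tr b_i^(m) = 0`.  By `n2_lim_mul` and `tr_lim`, `tr (∏ b_i) = lim_m tr (∏ b_i^(m))`, so it is enough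
to treat `b_i ∈ StarAlgebra.adjoin`.  By `mem_span_words` `b_i` is a combination of reduced words
with indices in `κ⁻¹ j_i`; the coefficient of the empty word can be taken 0, because nonempty
reduced words have trace 0 and `tr b_i = 0` (separate the empty word from the others).  Expanding
the product multilinearly, every term is the value of a concatenation of nonempty reduced words
with indices in `κ⁻¹ j_1`, `κ⁻¹ j_2`, ...; at the junctions the indices differ since
`j_i ≠ j_{i+1}`; so it is a nonempty reduced word of the family `A` and has trace 0.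
(For the multilinear step do an induction on the word: the claim for all x in the span of ... 
with `Submodule.span_induction`; it is convenient to prove: for `y` in the span of the values of
nonempty `A`-words ending ... and starting in prescribed blocks ... or to use
`∀ prefix word w (reduced, A-word whose last index is not in block j_1) : tr (wv w * ∏ b_i) = 0`
by induction on n.)
-/

open Filter Topology

namespace Pool.Agent.KUR

universe u
variable {M : Type u} [CStarAlgebra M] [TVN M] {K : Type*}

/-- Centred elements of the algebra generated by a block are combinations of nonempty words. -/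
private theorem grp_mem_span {A : K → StarSubalgebra ℂ M} (hA : FreeFam A) (K₀ : Set K) {x : M}
    (hx : x ∈ StarAlgebra.adjoin ℂ (⋃ k ∈ K₀, (A k : Set M))) (htr : tr x = 0) :
    x ∈ Submodule.span ℂ
      {y | ∃ l : List (K × M), l ≠ [] ∧ RedW A l ∧ (∀ p ∈ l, p.1 ∈ K₀) ∧ y = wv l} := by
  have key : ∀ x ∈ Submodule.span ℂ
      {y | ∃ l : List (K × M), RedW A l ∧ (∀ p ∈ l, p.1 ∈ K₀) ∧ y = wv l},
      x - tr x • (1 : M) ∈ Submodule.span ℂ
        {y | ∃ l : List (K × M), l ≠ [] ∧ RedW A l ∧ (∀ p ∈ l, p.1 ∈ K₀) ∧ y = wv l} := by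
    intro x hx
    induction hx using Submodule.span_induction with
    | mem x h =>
      obtain ⟨l, hl, hl2, rfl⟩ := h
      by_cases h0 : l = []
      · subst h0
        have : wv ([] : List (K × M)) = (1 : M) := by simp [wv]
        rw [this, tr_one', one_smul, sub_self]
        exact Submodule.zero_mem _
      · rw [hA l h0 hl, zero_smul, sub_zero]
        exact Submodule.subset_span ⟨l, h0, hl, hl2, rfl⟩
    | zero => rw [map_zero, zero_smul, sub_zero]; exact Submodule.zero_mem _
    | add x y _ _ hx hy =>
      have e : x + y - tr (x + y) • (1 : M) = (x - tr x • (1 : M)) + (y - tr y • (1 : M)) := by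
        rw [map_add, add_smul]; abel
      rw [e]; exact Submodule.add_mem _ hx hy
    | smul c x _ hx =>
      have e : c • x - tr (c • x) • (1 : M) = c • (x - tr x • (1 : M)) := by
        rw [map_smul, smul_sub, smul_smul, smul_eq_mul]
      rw [e]; exact Submodule.smul_mem _ _ hx
  have h := key x (mem_span_words A K₀ hx)
  rwa [htr, zero_smul, sub_zero] at h

private theorem grp_wv_append (l l' : List (K × M)) : wv (l ++ l') = wv l * wv l' := by
  simp [wv]

private theorem grp_wv_cons {J : Type*} (p : J × M) (l : List (J × M)) :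
    wv (p :: l) = p.2 * wv l := by
  simp [wv]

/-- The multilinear step. -/
private theorem grp_step {A : K → StarSubalgebra ℂ M} (hA : FreeFam A) {J : Type*} (κ : K → J)
    (l : List (J × M)) :
    ∀ (_ : l.IsChain (fun p q => p.1 ≠ q.1))
      (_ : ∀ p ∈ l, p.2 ∈ Submodule.span ℂ
        {y | ∃ l : List (K × M), l ≠ [] ∧ RedW A l ∧ (∀ q ∈ l, q.1 ∈ {k | κ k = p.1}) ∧ y = wv l})
      (w : List (K × M)) (_ : RedW A w)
      (_ : ∀ p ∈ w.getLast?, ∀ q ∈ l.head?, κ p.1 ≠ q.1) (_ : w ≠ [] ∨ l ≠ []),
      tr (wv w * wv l) = 0 := by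
  induction l with
  | nil =>
    intro _ _ w hw _ hne
    have hw0 : w ≠ [] := by
      rcases hne with h | h
      · exact h
      · exact absurd rfl h
    have : wv ([] : List (J × M)) = (1 : M) := by simp [wv]
    rw [this, mul_one]
    exact hA w hw0 hw
  | cons a l ih =>
    obtain ⟨j, b⟩ := a
    intro hch hmem w hw hjun _
    have hb := hmem (j, b) (by simp)
    have hl' : l.IsChain (fun p q => p.1 ≠ q.1) := List.IsChain.tail hch
    have hmem' : ∀ p ∈ l, p.2 ∈ Submodule.span ℂ
        {y | ∃ l : List (K × M), l ≠ [] ∧ RedW A l ∧ (∀ q ∈ l, q.1 ∈ {k | κ k = p.1}) ∧ y = wv l} :=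
      fun p hp => hmem p (List.mem_cons_of_mem _ hp)
    have hhead : ∀ q ∈ l.head?, j ≠ q.1 := by
      intro q hq
      cases l with
      | nil => simp at hq
      | cons q' l' =>
        simp only [List.head?_cons, Option.mem_some_iff] at hq
        subst hq
        exact (List.isChain_cons_cons.mp hch).1
    have key : ∀ y ∈ Submodule.span ℂ
        {y | ∃ l : List (K × M), l ≠ [] ∧ RedW A l ∧ (∀ q ∈ l, q.1 ∈ {k | κ k = j}) ∧ y = wv l},
        tr (wv w * (y * wv l)) = 0 := by
      intro y hy
      induction hy using Submodule.span_induction with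
      | mem y h =>
        obtain ⟨u, hu0, hu, hu2, rfl⟩ := h
        rw [← mul_assoc, ← grp_wv_append]
        refine ih hl' hmem' (w ++ u) ⟨?_, ?_⟩ ?_ (Or.inl (by simp [hu0]))
        · refine List.isChain_append.mpr ⟨hw.1, hu.1, ?_⟩
          intro x hx z hz hxz
          have h1 := hjun x hx (j, b) (by simp)
          have h2 : κ z.1 = j := hu2 z (List.mem_of_mem_head? hz)
          apply h1
          rw [hxz]; exact h2
        · intro p hp
          rcases List.mem_append.mp hp with h | h
          · exact hw.2 p h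
          · exact hu.2 p h
        · intro p hp q hq
          rw [List.getLast?_append_of_ne_nil _ hu0] at hp
          have h2 : κ p.1 = j := hu2 p (List.mem_of_mem_getLast? hp)
          rw [h2]
          exact hhead q hq
      | zero => simp
      | add y z _ _ hy hz => rw [add_mul, mul_add, map_add, hy, hz, add_zero]
      | smul c y _ hy => rw [smul_mul_assoc, mul_smul_comm, map_smul, hy, smul_zero]
    have h := key b hb
    rw [grp_wv_cons]
    exact h

/-- Approximation of reduced words by words with letters in the generating algebras. -/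
private theorem grp_approx {J : Type*} (X : J → Set M) (l : List (J × M)) :
    ∀ (_ : ∀ p ∈ l, p.2 ∈ vnGen (X p.1) ∧ tr p.2 = 0),
    ∃ (L : ℕ → List (J × M)) (C : ℝ), (∀ n, (L n).map Prod.fst = l.map Prod.fst) ∧
      (∀ n, ∀ p ∈ L n, p.2 ∈ StarAlgebra.adjoin ℂ (X p.1) ∧ tr p.2 = 0) ∧
      (∀ n, ‖wv (L n)‖ ≤ C) ∧ Tendsto (fun n => n2 (wv (L n) - wv l)) atTop (𝓝 0) := by
  induction l with
  | nil =>
    intro _
    refine ⟨fun _ => [], ‖(1 : M)‖, fun _ => rfl, fun _ p hp => absurd hp (by simp),
      fun _ => by simp [wv], ?_⟩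
    simp [n2_zero]
  | cons a l ih =>
    obtain ⟨j, b⟩ := a
    intro h
    obtain ⟨L, C, hL1, hL2, hL3, hL4⟩ := ih (fun p hp => h p (List.mem_cons_of_mem _ hp))
    obtain ⟨hb, htb⟩ := h (j, b) (by simp)
    obtain ⟨y, hy1, hy2, hy3⟩ := exists_seq_of_mem_vnGen hb
    have hz3 : Tendsto (fun n => n2 ((y n - tr (y n) • (1 : M)) - b)) atTop (𝓝 0) := by
      have h1 : Tendsto (fun n => n2 (y n - b) + n2 (y n - b)) atTop (𝓝 0) := by
        simpa using hy3.add hy3
      refine squeeze_zero (fun n => n2_nonneg _) (fun n => ?_) h1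
      have e : (y n - tr (y n) • (1 : M)) - b = (y n - b) - tr (y n - b) • (1 : M) := by
        have htb' : tr b = 0 := htb
        rw [map_sub, htb', sub_zero]; abel
      rw [e]
      refine (n2_sub_le _ _).trans (add_le_add le_rfl ?_)
      rw [n2_smul, n2_one, mul_one]
      exact norm_tr_le_n2 _
    have hz2 : ∀ n, ‖y n - tr (y n) • (1 : M)‖ ≤ (‖b‖ + 1) + (‖b‖ + 1) * ‖(1 : M)‖ := by
      intro n
      refine (norm_sub_le _ _).trans (add_le_add (hy2 n) ?_)
      rw [norm_smul]
      exact mul_le_mul_of_nonneg_right ((norm_tr_le _).trans (hy2 n)) (norm_nonneg _)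
    refine ⟨fun n => (j, y n - tr (y n) • (1 : M)) :: L n,
      ((‖b‖ + 1) + (‖b‖ + 1) * ‖(1 : M)‖) * C, ?_, ?_, ?_, ?_⟩
    · intro n
      simp only [List.map_cons, hL1 n]
    · intro n p hp
      rcases List.mem_cons.mp hp with rfl | hp
      · refine ⟨?_, ?_⟩
        · exact sub_mem (hy1 n) (SMulMemClass.smul_mem _ (one_mem _))
        · show tr (y n - tr (y n) • (1 : M)) = 0
          rw [map_sub, map_smul, tr_one', smul_eq_mul, mul_one, sub_self]
      · exact hL2 n p hp
    · intro n
      rw [grp_wv_cons]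
      refine (norm_mul_le _ _).trans ?_
      exact mul_le_mul (hz2 n) (hL3 n) (norm_nonneg _) ((norm_nonneg _).trans (hz2 n))
    · simp only [grp_wv_cons]
      exact n2_lim_mul hz2 hz3 hL4

theorem group_free {A : K → StarSubalgebra ℂ M} (hA : FreeFam A) {J : Type*} (κ : K → J) :
    FreeFam (fun j => subGen A {k | κ k = j}) := by
  intro l hl hred
  obtain ⟨L, C, hL1, hL2, -, hL4⟩ :=
    grp_approx (fun j => ⋃ k ∈ {k | κ k = j}, (A k : Set M)) l hred.2
  have h1 : ∀ n, tr (wv (L n)) = 0 := by
    intro n
    have hne : L n ≠ [] := by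
      intro h0
      have h2 := hL1 n
      rw [h0, List.map_nil] at h2
      exact hl (List.map_eq_nil_iff.mp h2.symm)
    have hch : (L n).IsChain (fun p q => p.1 ≠ q.1) := by
      have h3 : (l.map Prod.fst).IsChain (fun a b : J => a ≠ b) :=
        (List.isChain_map Prod.fst).mpr hred.1
      rw [← hL1 n] at h3
      exact (List.isChain_map Prod.fst).mp h3
    have h4 := grp_step hA κ (L n) hch (fun p hp =>
      grp_mem_span hA {k | κ k = p.1} (hL2 n p hp).1 (hL2 n p hp).2) []
      ⟨List.isChain_nil, fun p hp => absurd hp (by simp)⟩ (by simp) (Or.inr hne)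
    have h5 : wv ([] : List (K × M)) = (1 : M) := by simp [wv]
    rwa [h5, one_mul] at h4
  have h2 := tr_lim hL4
  simp only [h1] at h2
  exact (tendsto_nhds_unique h2 tendsto_const_nhds)

end Pool.Agent.KUR
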