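import Pool.Agent.KUR.MatU

/-!
# KUR GrpR: finite groups inside the commutant of finitely many commuting projections

PROOF.  Let `L = [p_1, ..., p_m]` be commuting projections of the II_1 factor `N`.  The atoms
`e_ε = ∏_i (p_i or 1 - p_i)` (ε : Fin m → Bool) are projections with sum 1, mutually orthogonal,
and each `p_i e_ε` is `e_ε` or `0`.
For every atom `e_ε ≠ 0` choose matrix units `f^ε : Γ × Γ → N` indexed by the finite group
(`exists_matrix_units` with `d = card Γ`, transported along `Fintype.equivFin Γ`) with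
`∑_h f^ε (h,h) = e_ε`.  Put `ρ γ = ∑_ε ∑_h f^ε (γ h, h)`.  Then `ρ (γ δ) = ρ γ ρ δ`
(cross terms of different atoms vanish because `f^ε = e_ε f^ε e_ε`), `ρ 1 = ∑ e_ε = 1`,
`star (ρ γ) = ρ γ⁻¹`, so `ρ γ` is unitary; `tr (f^ε (γ h, h)) = 0` for `γ ≠ 1` (off-diagonal matrix
units have trace zero: `tr (f i j) = tr (f i i f i j) = tr (f i j f i i) = 0`).  `ρ γ` commutes with
all `e_ε`, hence with all `p_i = ∑ (those atoms)`.
(An induction on the list `L`, passing from a decomposition `1 = ∑ e_a` (finite family of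
orthogonal projections) to the refined one `e_a p, e_a (1 - p)`, may be easier: prove the statement
for a finite family of orthogonal projections with sum 1, and let `ρ` commute with its members.)
-/

open Filter Topology

namespace Pool.Agent.KUR

universe u
variable {N : Type u} [CStarAlgebra N] [TVN N]

omit [TVN N] in
private theorem GrpR_proj_mul {e p : N} (he : IsProj e) (hp : IsProj p) (h : p * e = e * p) :
    IsProj (e * p) := by
  refine ⟨?_, ?_⟩
  · rw [star_mul, he.1, hp.1, h]
  · calc e * p * (e * p) = e * (p * e) * p := by noncomm_ring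
      _ = (e * e) * (p * p) := by rw [h]; noncomm_ring
      _ = e * p := by rw [he.2, hp.2]

omit [TVN N] in
private theorem GrpR_proj_one_sub {p : N} (hp : IsProj p) : IsProj (1 - p) := by
  refine ⟨?_, ?_⟩
  · rw [star_sub, star_one, hp.1]
  · have : (1 - p) * (1 - p) = 1 - p - p + p * p := by noncomm_ring
    rw [this, hp.2]
    abel

omit [TVN N] in
/-- The atoms of a list of commuting projections. -/
private theorem GrpR_atoms (L : List N) (hL : ∀ p ∈ L, IsProj p)
    (hc : ∀ p ∈ L, ∀ q ∈ L, p * q = q * p) :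
    ∃ (α : Type) (_ : Fintype α) (_ : DecidableEq α) (e : α → N),
      (∀ a, IsProj (e a)) ∧ (∀ a b, a ≠ b → e a * e b = 0) ∧ ∑ a, e a = 1 ∧
      (∀ p ∈ L, ∀ a, p * e a = e a ∨ p * e a = 0) ∧
      ∀ x : N, (∀ q ∈ L, x * q = q * x) → ∀ a, x * e a = e a * x := by
  induction L with
  | nil =>
    refine ⟨Unit, inferInstance, inferInstance, fun _ => 1, fun _ => ⟨star_one N, one_mul 1⟩,
      fun a b hab => absurd (Subsingleton.elim a b) hab, by simp, fun p hp => absurd hp (by simp),
      fun x _ _ => by rw [mul_one, one_mul]⟩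
  | cons p L ih =>
    obtain ⟨α, hα, hα', e, h1, h2, h3, h4, h5⟩ := ih
      (fun q hq => hL q (List.mem_cons_of_mem _ hq))
      (fun q hq r hr => hc q (List.mem_cons_of_mem _ hq) r (List.mem_cons_of_mem _ hr))
    have hp : IsProj p := hL p List.mem_cons_self
    have hq : IsProj (1 - p) := GrpR_proj_one_sub hp
    have hpe : ∀ a, p * e a = e a * p := h5 p fun q hq' =>
      hc p List.mem_cons_self q (List.mem_cons_of_mem _ hq')
    have hqe : ∀ a, (1 - p) * e a = e a * (1 - p) := fun a => by
      rw [sub_mul, mul_sub, hpe, one_mul, mul_one]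
    let y : Bool → N := fun b => if b then p else 1 - p
    have hy : ∀ b, IsProj (y b) := fun b => by
      cases b
      · exact hq
      · exact hp
    have hye : ∀ b a, y b * e a = e a * y b := fun b a => by
      cases b
      · exact hqe a
      · exact hpe a
    have hyy : ∀ b b', b ≠ b' → y b * y b' = 0 := fun b b' hbb => by
      cases b <;> cases b'
      · exact absurd rfl hbb
      · show (1 - p) * p = 0
        rw [sub_mul, one_mul, hp.2, sub_self]
      · show p * (1 - p) = 0
        rw [mul_sub, mul_one, hp.2, sub_self]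
      · exact absurd rfl hbb
    refine ⟨α × Bool, inferInstance, inferInstance, fun c => e c.1 * y c.2,
      fun c => GrpR_proj_mul (h1 c.1) (hy c.2) (hye c.2 c.1), ?_, ?_, ?_, ?_⟩
    · rintro ⟨a, b⟩ ⟨a', b'⟩ hne
      show e a * y b * (e a' * y b') = 0
      have e1 : e a * y b * (e a' * y b') = (e a * e a') * (y b * y b') := by
        calc e a * y b * (e a' * y b') = e a * (y b * e a') * y b' := by noncomm_ring
          _ = (e a * e a') * (y b * y b') := by rw [hye]; noncomm_ring
      rw [e1]
      by_cases haa : a = a'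
      · subst haa
        have hbb : b ≠ b' := fun hbb => hne (by rw [hbb])
        rw [hyy b b' hbb, mul_zero]
      · rw [h2 a a' haa, zero_mul]
    · rw [Fintype.sum_prod_type]
      rw [← h3]
      refine Finset.sum_congr rfl fun a _ => ?_
      rw [Fintype.sum_bool]
      show e a * p + e a * (1 - p) = e a
      rw [← mul_add, add_sub_cancel, mul_one]
    · rintro q hq' ⟨a, b⟩
      show q * (e a * y b) = e a * y b ∨ q * (e a * y b) = 0
      rcases List.mem_cons.1 hq' with rfl | hq'
      · rw [← mul_assoc, hpe, mul_assoc]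
        cases b
        · right
          show e a * (q * (1 - q)) = 0
          rw [mul_sub, mul_one, hp.2, sub_self, mul_zero]
        · left
          show e a * (q * q) = e a * q
          rw [hp.2]
      · rw [← mul_assoc]
        rcases h4 q hq' a with h6 | h6
        · left; rw [h6]
        · right; rw [h6, zero_mul]
    · rintro x hx ⟨a, b⟩
      show x * (e a * y b) = e a * y b * x
      have hxe := h5 x (fun q hq' => hx q (List.mem_cons_of_mem _ hq')) a
      have hxp := hx p List.mem_cons_self
      have hxy : x * y b = y b * x := by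
        cases b
        · show x * (1 - p) = (1 - p) * x
          rw [mul_sub, sub_mul, hxp, mul_one, one_mul]
        · exact hxp
      rw [← mul_assoc, hxe, mul_assoc, hxy, mul_assoc]

/-- Matrix units indexed by a finite nonempty type. -/
private theorem GrpR_units (hN : IsII1 N) (Γ : Type) [Nonempty Γ] [Fintype Γ] [DecidableEq Γ]
    {e : N} (he : IsProj e) :
    ∃ f : Γ → Γ → N, (∀ i j k l, f i j * f k l = if j = k then f i l else 0) ∧
      (∀ i j, star (f i j) = f j i) ∧ ∑ i, f i i = e := by
  by_cases he0 : e = 0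
  · refine ⟨fun _ _ => 0, fun i j k l => by simp, fun i j => star_zero N, ?_⟩
    rw [Finset.sum_const_zero, he0]
  · have hfin : ¬ Module.Finite ℂ (⊤ : StarSubalgebra ℂ N) := by
      intro h
      apply hN.2
      exact Module.Finite.of_surjective
        ((⊤ : StarSubalgebra ℂ N).subtype.toAlgHom.toLinearMap) fun x =>
          ⟨⟨x, StarSubalgebra.mem_top⟩, rfl⟩
    obtain ⟨f, -, h1, h2, h3⟩ := exists_matrix_units (S := (⊤ : StarSubalgebra ℂ N))
      (fun _ _ _ _ _ _ => StarSubalgebra.mem_top) hN.1 hfin (StarSubalgebra.mem_top) he he0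
      (Fintype.card Γ) Fintype.card_pos
    refine ⟨fun i j => f (Fintype.equivFin Γ i) (Fintype.equivFin Γ j), ?_, ?_, ?_⟩
    · intro i j k l
      rw [h1]
      by_cases hjk : j = k
      · rw [if_pos (by rw [hjk]), if_pos hjk]
      · rw [if_neg (fun h => hjk ((Fintype.equivFin Γ).injective h)), if_neg hjk]
    · intro i j
      rw [h2]
    · rw [← h3]
      exact Fintype.sum_equiv (Fintype.equivFin Γ) _ _ fun _ => rfl

theorem group_rep (hN : IsII1 N) (L : List N) (hL : ∀ p ∈ L, IsProj p)
    (hc : ∀ p ∈ L, ∀ q ∈ L, p * q = q * p) (Γ : Type) [Group Γ] [Fintype Γ] :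
    ∃ ρ : Γ → N, ρ 1 = 1 ∧ (∀ g h, ρ (g * h) = ρ g * ρ h) ∧ (∀ g, IsUn (ρ g)) ∧
      (∀ g, g ≠ 1 → tr (ρ g) = 0) ∧ ∀ g, ∀ p ∈ L, ρ g * p = p * ρ g := by
  classical
  obtain ⟨α, hα, hα', e, h1, h2, h3, h4, -⟩ := GrpR_atoms L hL hc
  have hf : ∀ a, ∃ f : Γ → Γ → N, (∀ i j k l, f i j * f k l = if j = k then f i l else 0) ∧
      (∀ i j, star (f i j) = f j i) ∧ ∑ i, f i i = e a := fun a => GrpR_units hN Γ (h1 a)
  choose f f1 f2 f3 using hf
  have hef : ∀ a g h, e a * f a g h = f a g h := by
    intro a g h
    rw [← f3 a, Finset.sum_mul]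
    rw [Finset.sum_eq_single g]
    · rw [f1, if_pos rfl]
    · intro k _ hk
      rw [f1, if_neg hk]
    · intro hg
      exact absurd (Finset.mem_univ g) hg
  have hfe : ∀ a g h, f a g h * e a = f a g h := by
    intro a g h
    rw [← f3 a, Finset.mul_sum]
    rw [Finset.sum_eq_single h]
    · rw [f1, if_pos rfl]
    · intro k _ hk
      rw [f1, if_neg (Ne.symm hk)]
    · intro hg
      exact absurd (Finset.mem_univ h) hg
  have hff : ∀ a b, a ≠ b → ∀ g h k l, f a g h * f b k l = 0 := by
    intro a b hab g h k l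
    rw [← hfe a g h, ← hef b k l, mul_assoc, ← mul_assoc (e a), h2 a b hab, zero_mul, mul_zero]
  let ρ : Γ → N := fun γ => ∑ a, ∑ h, f a (γ * h) h
  have hρ1 : ρ 1 = 1 := by
    show ∑ a, ∑ h, f a (1 * h) h = 1
    rw [← h3]
    refine Finset.sum_congr rfl fun a _ => ?_
    rw [← f3 a]
    exact Finset.sum_congr rfl fun h _ => by rw [one_mul]
  have hρm : ∀ g h, ρ (g * h) = ρ g * ρ h := by
    intro γ δ
    show ∑ a, ∑ h, f a (γ * δ * h) h = (∑ a, ∑ h, f a (γ * h) h) * (∑ a, ∑ h, f a (δ * h) h)
    rw [Finset.sum_mul]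
    refine Finset.sum_congr rfl fun a _ => ?_
    rw [Finset.mul_sum, Finset.sum_eq_single a]
    · rw [Finset.mul_sum]
      refine Finset.sum_congr rfl fun k _ => ?_
      rw [Finset.sum_mul, Finset.sum_eq_single (δ * k)]
      · rw [f1, if_pos rfl, mul_assoc]
      · intro h _ hne
        rw [f1, if_neg hne]
      · intro hg
        exact absurd (Finset.mem_univ _) hg
    · intro b _ hba
      rw [Finset.sum_mul]
      refine Finset.sum_eq_zero fun h _ => ?_
      rw [Finset.mul_sum]
      exact Finset.sum_eq_zero fun k _ => hff a b (Ne.symm hba) _ _ _ _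
    · intro hg
      exact absurd (Finset.mem_univ _) hg
  have hρs : ∀ g, star (ρ g) = ρ g⁻¹ := by
    intro γ
    show star (∑ a, ∑ h, f a (γ * h) h) = ∑ a, ∑ h, f a (γ⁻¹ * h) h
    rw [star_sum]
    refine Finset.sum_congr rfl fun a _ => ?_
    rw [star_sum]
    refine Fintype.sum_equiv (Equiv.mulLeft γ) _ _ fun h => ?_
    rw [f2, Equiv.coe_mulLeft, inv_mul_cancel_left]
  refine ⟨ρ, hρ1, hρm, ?_, ?_, ?_⟩
  · intro g
    constructor
    · rw [hρs, ← hρm, inv_mul_cancel, hρ1]
    · rw [hρs, ← hρm, mul_inv_cancel, hρ1]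
  · intro γ hγ
    show tr (∑ a, ∑ h, f a (γ * h) h) = 0
    rw [map_sum]
    refine Finset.sum_eq_zero fun a _ => ?_
    rw [map_sum]
    refine Finset.sum_eq_zero fun h _ => ?_
    have hne : γ * h ≠ h := fun hh => hγ (mul_eq_right.1 hh)
    have e1 : f a (γ * h) h = f a (γ * h) (γ * h) * f a (γ * h) h := by
      rw [f1, if_pos rfl]
    rw [e1, tr_mul_comm, f1, if_neg (Ne.symm hne), map_zero]
  · intro γ p hp
    show (∑ a, ∑ h, f a (γ * h) h) * p = p * ∑ a, ∑ h, f a (γ * h) h
    rw [Finset.sum_mul, Finset.mul_sum]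
    refine Finset.sum_congr rfl fun a _ => ?_
    rw [Finset.sum_mul, Finset.mul_sum]
    refine Finset.sum_congr rfl fun h _ => ?_
    have hps : star p = p := (hL p hp).1
    have hes : star (e a) = e a := (h1 a).1
    rw [← hef a (γ * h) h]
    rcases h4 p hp a with h6 | h6
    · have h7 : e a * p = e a := by
        have := congrArg star h6
        rwa [star_mul, hps, hes] at this
      rw [← mul_assoc p, h6, hef]
      conv_lhs => rw [← hfe a (γ * h) h, mul_assoc, h7, hfe]
    · have h7 : e a * p = 0 := by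
        have := congrArg star h6
        rwa [star_mul, hps, hes, star_zero] at this
      rw [← mul_assoc p, h6, zero_mul, hef]
      conv_lhs => rw [← hfe a (γ * h) h, mul_assoc, h7, mul_zero]

end Pool.Agent.KUR
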