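import Pool.Agent.KUR.GapT

/-!
# KUR HZero: intertwiners between the identity and `θ 1` lie in the closure of `∑ MM s_j θ(MM)`

PROOF.  (1) TOTALITY: for every `x : M`, `ε > 0` there are `x₁ ∈ goodMod P s`, `x₀ ∈ H0span P s θ`
with `n2 (x - x₁ - x₀) < ε`: by `h.gen`, `mem_vnGen_iff`, `mem_span_words` it is enough to consider
`x = wv l`, `l` reduced for `fam P s`.  `l = l₁ ++ l₂`, `l₁` the maximal prefix with indices `inl`,
`m = wv l₁ ∈ MM P`.  `l₂ = []` or `l₂` starts with `inr`; if it is not a pattern it is good and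
`wv l = m * wv l₂ ∈ goodMod`.  If `l₂` is a pattern its value is (a scalar times)
`s_{j0} (s_{j1} p_1 s_{j1}) ... (s_{jr} p_r s_{jr}) = s_{j0} * θ 1 (p_1 ⋯ p_r)`
(`IsTheta.one_onP`), so `wv l ∈ H0span`.
(2) ORTHOGONALITY: `tr (star x₀ * x₁) = 0` for `x₀ ∈ H0span`, `x₁ ∈ goodMod`.  Take
`x₀ = m * s j * θ 1 y`, `x₁ = m' * z`.  By 2-norm continuity in `y` and linearity,
`y = wv [(inl j_1,p_1),...,(inl j_r,p_r)]` reduced.  If `r ≥ 1` and `j_1 = j` then
`s_j θ(p_1) = p_1 s_j`, absorb `p_1` in `m` (the next index `j_2 ≠ j`).  So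
`x₀ = m * wv l'`, `l'` a reduced word whose shape is a pattern (`j ≠ j_1 ≠ j_2 ...`).  By `cross`
(K₀ = range inl, K₁ = ∅, b = 1), for `z = wv l''` good:
`tr (star (wv l') * (star m * m') * wv l'') = tr (star m * m') * tr (star (wv l') * wv l'') = 0` by
`word_orth` (a good shape is not a pattern).
(3) Both `goodMod` and `H0span` are, up to closure, stable under `x ↦ a x θ 1 (star b)`,
`a, b ∈ MM P`: for `H0span` it is clear; for `goodMod` by `good_mul_theta`.
(4) Let `w` be given, `ε > 0`, `x₁, x₀` as in (1), `T x = ∑ i, a_i x star (θ 1 (a_i))`, `T w = 16 w`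
(hw and unitarity).  `r = w - x₁ - x₀`, `n2 r < ε`, `n2 (T r) ≤ 16 ε`.  So
`(T x₁ - 16 x₁) + (T x₀ - 16 x₀) = -(T r - 16 r)`; the two brackets are orthogonal by (2), (3)
(orthogonality passes to 2-norm limits), so `n2 (T x₁ - 16 x₁) ≤ 32 ε`.  By `gap_theta`
`n2 (T x₁) ≤ 8 n2 x₁`, so `8 n2 x₁ ≤ 32 ε`, `n2 x₁ ≤ 4 ε`, and `n2 (w - x₀) ≤ 5 ε`.
-/

open Filter Topology

namespace Pool.Agent.KUR

universe u
variable {M : Type u} [CStarAlgebra M] [TVN M] {J : Type*}

/-! ### Closures of submodules -/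

private theorem hz_incl_of_mem {V : Submodule ℂ M} {x : M} (hx : x ∈ V) : InCl V x :=
  fun ε hε => ⟨x, hx, by rw [sub_self, n2_zero]; exact hε⟩

/-- The closure of a submodule. -/
private def hzCl (V : Submodule ℂ M) : Submodule ℂ M where
  carrier := {x | InCl V x}
  add_mem' := by
    intro x y hx hy ε hε
    obtain ⟨x', hx', h1⟩ := hx (ε / 2) (by linarith)
    obtain ⟨y', hy', h2⟩ := hy (ε / 2) (by linarith)
    refine ⟨x' + y', V.add_mem hx' hy', ?_⟩
    rw [add_sub_add_comm]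
    linarith [n2_add_le (x - x') (y - y')]
  zero_mem' := hz_incl_of_mem V.zero_mem
  smul_mem' := by
    intro c x hx ε hε
    obtain ⟨x', hx', h1⟩ := hx (ε / (‖c‖ + 1)) (by positivity)
    refine ⟨c • x', V.smul_mem c hx', ?_⟩
    rw [← smul_sub, n2_smul]
    have h2 : 0 < ‖c‖ + 1 := by positivity
    rw [lt_div_iff₀ h2] at h1
    have h3 := n2_nonneg (x - x')
    nlinarith

private theorem hz_mem_cl {V : Submodule ℂ M} {x : M} : x ∈ hzCl V ↔ InCl V x := Iff.rfl

private theorem hz_cl_lmul {V : Submodule ℂ M} {x a : M} (hV : ∀ y ∈ V, a * y ∈ V)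
    (hx : InCl V x) : InCl V (a * x) := by
  intro ε hε
  obtain ⟨x', hx', h1⟩ := hx (ε / (‖a‖ + 1)) (by positivity)
  refine ⟨a * x', hV x' hx', ?_⟩
  rw [← mul_sub]
  have h2 : 0 < ‖a‖ + 1 := by positivity
  rw [lt_div_iff₀ h2] at h1
  have h3 := n2_nonneg (x - x')
  have h4 := n2_mul_le a (x - x')
  nlinarith

private theorem hz_cl_map {V W : Submodule ℂ M} {x a : M} (hV : ∀ y ∈ V, a * y ∈ W)
    (hx : InCl V x) : InCl W (a * x) := by
  intro ε hε
  obtain ⟨x', hx', h1⟩ := hx (ε / (‖a‖ + 1)) (by positivity)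
  refine ⟨a * x', hV x' hx', ?_⟩
  rw [← mul_sub]
  have h2 : 0 < ‖a‖ + 1 := by positivity
  rw [lt_div_iff₀ h2] at h1
  have h3 := n2_nonneg (x - x')
  have h4 := n2_mul_le a (x - x')
  nlinarith

private theorem hz_orth_cl {W : Submodule ℂ M} {x y : M}
    (h : ∀ z ∈ W, tr (star x * z) = 0) (hy : InCl W y) : tr (star x * y) = 0 := by
  obtain ⟨z, hz, hzy⟩ := exists_seq_of_approx (p := fun z => z ∈ W) hy
  have h1 := tr_lim (n2_lim_mul_left (star x) hzy)
  refine tendsto_nhds_unique h1 ?_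
  refine tendsto_const_nhds.congr (fun n => ?_)
  rw [h _ (hz n)]

/-! ### The two submodules -/

private theorem hz_P_MM {P : J → StarSubalgebra ℂ M} {j : J} {x : M} (hx : x ∈ P j) :
    x ∈ MM P := subset_vnGen _ (Set.mem_iUnion.mpr ⟨j, hx⟩)

private theorem hz_good_lmul {P : J → StarSubalgebra ℂ M} {s : J → M} {m x : M}
    (hm : m ∈ MM P) (hx : x ∈ goodMod P s) : m * x ∈ goodMod P s := by
  refine Submodule.span_induction (p := fun x _ => m * x ∈ goodMod P s) ?_ ?_ ?_ ?_ hx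
  · rintro _ ⟨m', hm', z, hz, rfl⟩
    exact Submodule.subset_span ⟨m * m', (MM P).mul_mem hm hm', z, hz, by rw [mul_assoc]⟩
  · rw [mul_zero]; exact zero_mem _
  · intro x y _ _ h1 h2
    rw [mul_add]; exact add_mem h1 h2
  · intro c x _ h1
    rw [mul_smul_comm]; exact Submodule.smul_mem _ _ h1

private theorem hz_H0_lmul {P : J → StarSubalgebra ℂ M} {s : J → M} {θ : ℝ → (M →⋆ₐ[ℂ] M)}
    {m x : M} (hm : m ∈ MM P) (hx : x ∈ H0span P s θ) : m * x ∈ H0span P s θ := by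
  refine Submodule.span_induction (p := fun x _ => m * x ∈ H0span P s θ) ?_ ?_ ?_ ?_ hx
  · rintro _ ⟨j, m', hm', y, hy, rfl⟩
    exact Submodule.subset_span ⟨j, m * m', (MM P).mul_mem hm hm', y, hy, by
      simp only [mul_assoc]⟩
  · rw [mul_zero]; exact zero_mem _
  · intro x y _ _ h1 h2
    rw [mul_add]; exact add_mem h1 h2
  · intro c x _ h1
    rw [mul_smul_comm]; exact Submodule.smul_mem _ _ h1

private theorem hz_H0_rmul {P : J → StarSubalgebra ℂ M} {s : J → M} {θ : ℝ → (M →⋆ₐ[ℂ] M)}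
    {b x : M} (hb : b ∈ MM P) (hx : x ∈ H0span P s θ) : x * θ 1 b ∈ H0span P s θ := by
  refine Submodule.span_induction (p := fun x _ => x * θ 1 b ∈ H0span P s θ) ?_ ?_ ?_ ?_ hx
  · rintro _ ⟨j, m', hm', y, hy, rfl⟩
    exact Submodule.subset_span ⟨j, m', hm', y * b, (MM P).mul_mem hy hb, by
      rw [map_mul]; simp only [mul_assoc]⟩
  · rw [zero_mul]; exact zero_mem _
  · intro x y _ _ h1 h2
    rw [add_mul]; exact add_mem h1 h2
  · intro c x _ h1
    rw [smul_mul_assoc]; exact Submodule.smul_mem _ _ h1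

private theorem hz_good_rmul {P : J → StarSubalgebra ℂ M} {s : J → M} (h : Dil P s)
    {θ : ℝ → (M →⋆ₐ[ℂ] M)} (hθ : IsTheta P s θ) {b x : M} (hb : b ∈ MM P)
    (hx : x ∈ goodMod P s) : InCl (goodMod P s) (x * θ 1 b) := by
  show x * θ 1 b ∈ hzCl (goodMod P s)
  refine Submodule.span_induction (p := fun x _ => x * θ 1 b ∈ hzCl (goodMod P s))
    ?_ ?_ ?_ ?_ hx
  · rintro _ ⟨m', hm', z, hz, rfl⟩
    rw [mul_assoc]
    exact hz_cl_map (fun y hy => Submodule.subset_span ⟨m', hm', y, hy, rfl⟩)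
      (good_mul_theta h hθ (fun j x hx => IsTheta.one_onP h hθ j hx) hz hb)
  · rw [zero_mul]; exact zero_mem _
  · intro x y _ _ h1 h2
    rw [add_mul]; exact add_mem h1 h2
  · intro c x _ h1
    rw [smul_mul_assoc]; exact Submodule.smul_mem _ _ h1

private theorem hz_goodcl_rmul {P : J → StarSubalgebra ℂ M} {s : J → M} (h : Dil P s)
    {θ : ℝ → (M →⋆ₐ[ℂ] M)} (hθ : IsTheta P s θ) {b x : M} (hb : b ∈ MM P)
    (hx : InCl (goodMod P s) x) : InCl (goodMod P s) (x * θ 1 b) := by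
  intro ε hε
  obtain ⟨y, hy, h1⟩ := hx (ε / 2 / (‖θ 1 b‖ + 1)) (by positivity)
  obtain ⟨z, hz, h2⟩ := hz_good_rmul h hθ hb hy (ε / 2) (by linarith)
  refine ⟨z, hz, ?_⟩
  have h3 := n2_sub_le_sub (x * θ 1 b) (y * θ 1 b) z
  rw [← sub_mul] at h3
  have h4 := n2_mul_le' (x - y) (θ 1 b)
  have h5 : 0 < ‖θ 1 b‖ + 1 := by positivity
  rw [lt_div_iff₀ h5] at h1
  have h6 := n2_nonneg (x - y)
  nlinarith

/-! ### Totality -/

private theorem hz_pattern {P : J → StarSubalgebra ℂ M} {s : J → M} (h : Dil P s)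
    {θ : ℝ → (M →⋆ₐ[ℂ] M)} (hθ : IsTheta P s θ) (L : List J) :
    ∀ l : List ((J ⊕ J) × M), (∀ p ∈ l, p.2 ∈ fam P s p.1 ∧ tr p.2 = 0) →
      l.map Prod.fst = L.flatMap (fun j => [Sum.inr j, Sum.inl j, Sum.inr j]) →
      ∃ c : ℂ, ∃ y ∈ MM P, wv l = c • θ 1 y := by
  induction L with
  | nil =>
    intro l _ hl
    rw [List.flatMap_nil, List.map_eq_nil_iff] at hl
    refine ⟨1, 1, (MM P).one_mem, ?_⟩
    rw [hl, map_one, one_smul]
    rfl
  | cons j L ih =>
    intro l hm hl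
    rw [List.flatMap_cons] at hl
    simp only [List.cons_append, List.nil_append] at hl
    obtain ⟨⟨k1, x1⟩, l1, rfl, hk1, hl1⟩ := List.map_eq_cons_iff.mp hl
    obtain ⟨⟨k2, x2⟩, l2, rfl, hk2, hl2⟩ := List.map_eq_cons_iff.mp hl1
    obtain ⟨⟨k3, x3⟩, l3, rfl, hk3, hl3⟩ := List.map_eq_cons_iff.mp hl2
    simp only at hk1 hk2 hk3
    subst hk1 hk2 hk3
    obtain ⟨c, y, hy, hw⟩ := ih l3 (fun p hp => hm p (by simp [hp])) hl3
    have m1 := hm (Sum.inr j, x1) (by simp)
    have m2 := hm (Sum.inl j, x2) (by simp)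
    have m3 := hm (Sum.inr j, x3) (by simp)
    obtain ⟨c1, e1⟩ := mem_adjoin_symm (h.sa j) (h.sq j) (h.trs j) m1.1 m1.2
    obtain ⟨c3, e3⟩ := mem_adjoin_symm (h.sa j) (h.sq j) (h.trs j) m3.1 m3.2
    have m2' : x2 ∈ P j := m2.1
    refine ⟨c1 * c3 * c, x2 * y, (MM P).mul_mem (hz_P_MM m2') hy, ?_⟩
    simp only at e1 e3
    have e : wv ((Sum.inr j, x1) :: (Sum.inl j, x2) :: (Sum.inr j, x3) :: l3)
        = x1 * (x2 * (x3 * wv l3)) := rfl
    rw [e, hw, e1, e3, map_mul, IsTheta.one_onP h hθ j m2']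
    simp only [smul_mul_assoc, mul_smul_comm, smul_smul, mul_assoc]
    congr 1
    ring

private theorem hz_split {P : J → StarSubalgebra ℂ M} {s : J → M} (h : Dil P s)
    {θ : ℝ → (M →⋆ₐ[ℂ] M)} (hθ : IsTheta P s θ) :
    ∀ l : List ((J ⊕ J) × M), RedW (fam P s) l → wv l ∈ goodMod P s ⊔ H0span P s θ := by
  intro l
  induction l with
  | nil =>
    intro _
    refine Submodule.mem_sup_left (Submodule.subset_span ⟨1, (MM P).one_mem, 1, ?_, ?_⟩)
    · exact Submodule.subset_span ⟨[], ⟨List.IsChain.nil, by simp⟩, Or.inl rfl, rfl⟩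
    · rw [mul_one]; rfl
  | cons p t ih =>
    intro hl
    obtain ⟨k, x⟩ := p
    rcases k with j | j
    · have ht : RedW (fam P s) t :=
        ⟨(List.isChain_cons.mp hl.1).2, fun p hp => hl.2 p (List.mem_cons_of_mem _ hp)⟩
      have hx : x ∈ P j := (hl.2 (Sum.inl j, x) (by simp)).1
      obtain ⟨y, hy, z, hz, hyz⟩ := Submodule.mem_sup.mp (ih ht)
      have e : wv ((Sum.inl j, x) :: t) = x * wv t := rfl
      rw [e, ← hyz, mul_add]
      exact Submodule.add_mem_sup (hz_good_lmul (hz_P_MM hx) hy) (hz_H0_lmul (hz_P_MM hx) hz)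
    · by_cases hp : PatS (((Sum.inr j, x) :: t : List ((J ⊕ J) × M)).map Prod.fst)
      · obtain ⟨j₀, L, hL⟩ := hp
        simp only [List.map_cons, List.cons.injEq, Sum.inr.injEq] at hL
        obtain ⟨hj, hL⟩ := hL
        obtain ⟨c, y, hy, hw⟩ := hz_pattern h hθ L t
          (fun p hp => hl.2 p (List.mem_cons_of_mem _ hp)) hL
        have mx := hl.2 (Sum.inr j, x) (by simp)
        obtain ⟨c1, e1⟩ := mem_adjoin_symm (h.sa j) (h.sq j) (h.trs j) mx.1 mx.2
        simp only at e1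
        have e : wv ((Sum.inr j, x) :: t) = x * wv t := rfl
        refine Submodule.mem_sup_right ?_
        rw [e, hw, e1, smul_mul_assoc, mul_smul_comm]
        refine Submodule.smul_mem _ _ (Submodule.smul_mem _ _ (Submodule.subset_span
          ⟨j, 1, (MM P).one_mem, y, hy, by rw [one_mul]⟩))
      · refine Submodule.mem_sup_left (Submodule.subset_span ⟨1, (MM P).one_mem, _, ?_,
          (one_mul _).symm⟩)
        exact Submodule.subset_span ⟨_, hl, Or.inr ⟨⟨j, rfl⟩, hp⟩, rfl⟩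

private theorem hz_total {P : J → StarSubalgebra ℂ M} {s : J → M} (h : Dil P s)
    {θ : ℝ → (M →⋆ₐ[ℂ] M)} (hθ : IsTheta P s θ) (x : M) (ε : ℝ) (hε : 0 < ε) :
    ∃ x₁ ∈ goodMod P s, ∃ x₀ ∈ H0span P s θ, n2 (x - x₁ - x₀) < ε := by
  obtain ⟨y, hy, hxy⟩ := (mem_vnGen_iff _ x).mp (h.gen x) ε hε
  have h1 : y ∈ StarAlgebra.adjoin ℂ (⋃ k ∈ (Set.univ : Set (J ⊕ J)), (fam P s k : Set M)) := by
    refine StarAlgebra.adjoin_mono ?_ hy
    rintro z (hz | hz)
    · obtain ⟨j, hj⟩ := Set.mem_iUnion.mp hz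
      exact Set.mem_iUnion₂.mpr ⟨Sum.inl j, Set.mem_univ _, hj⟩
    · obtain ⟨j, rfl⟩ := hz
      exact Set.mem_iUnion₂.mpr ⟨Sum.inr j, Set.mem_univ _,
        StarAlgebra.self_mem_adjoin_singleton ℂ (s j)⟩
  have h2 := mem_span_words (fam P s) Set.univ h1
  have h3 : y ∈ goodMod P s ⊔ H0span P s θ := by
    refine (Submodule.span_le (p := goodMod P s ⊔ H0span P s θ)).mpr ?_ h2
    rintro _ ⟨l, hl, -, rfl⟩
    exact hz_split h hθ l hl
  obtain ⟨x₁, hx₁, x₀, hx₀, he⟩ := Submodule.mem_sup.mp h3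
  refine ⟨x₁, hx₁, x₀, hx₀, ?_⟩
  rw [sub_sub, he]; exact hxy

/-! ### Orthogonality -/

private theorem hz_head {e : List ((J ⊕ J) × M)} {L : List J}
    (hs : e.map Prod.fst = L.flatMap (fun j => [Sum.inr j, Sum.inl j, Sum.inr j]))
    {y : (J ⊕ J) × M} (hy : y ∈ e.head?) : ∃ j' L', L = j' :: L' ∧ y.1 = Sum.inr j' := by
  cases e with
  | nil => simp at hy
  | cons a e' =>
    simp only [List.head?_cons, Option.mem_def, Option.some.injEq] at hy
    subst hy
    cases L with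
    | nil => simp at hs
    | cons j' L' =>
      refine ⟨j', L', rfl, ?_⟩
      rw [List.flatMap_cons] at hs
      simp only [List.map_cons, List.cons_append, List.cons.injEq] at hs
      exact hs.1

private theorem hz_head2 {e l : List ((J ⊕ J) × M)} {L : List J}
    (hs : e.map Prod.fst = L.flatMap (fun j => [Sum.inr j, Sum.inl j, Sum.inr j]))
    (hL : L.map Sum.inl = l.map Prod.fst) {j : J}
    (hd : ∀ p ∈ l.head?, p.1 ≠ Sum.inl j) : ∀ y ∈ e.head?, Sum.inr j ≠ y.1 := by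
  intro y hy
  obtain ⟨j', L', rfl, hj'⟩ := hz_head hs hy
  rw [hj']
  cases l with
  | nil => simp at hL
  | cons q t =>
    simp only [List.map_cons, List.cons.injEq] at hL
    have h1 := hd q (by simp)
    rw [← hL.1] at h1
    intro h2
    apply h1
    rw [Sum.inr.inj h2]

private theorem hz_tail {A : (J ⊕ J) → StarSubalgebra ℂ M} {p : (J ⊕ J) × M}
    {t : List ((J ⊕ J) × M)} (hl : RedW A (p :: t)) : RedW A t :=
  ⟨(List.isChain_cons.mp hl.1).2, fun q hq => hl.2 q (List.mem_cons_of_mem _ hq)⟩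

private theorem hz_expand {P : J → StarSubalgebra ℂ M} {s : J → M} (h : Dil P s)
    {θ : ℝ → (M →⋆ₐ[ℂ] M)} (hθ : IsTheta P s θ) :
    ∀ l : List ((J ⊕ J) × M), RedW (fam P s) l →
      (∀ p ∈ l, p.1 ∈ Set.range (Sum.inl : J → J ⊕ J)) →
      ∃ (e : List ((J ⊕ J) × M)) (L : List J), RedW (fam P s) e ∧ wv e = θ 1 (wv l) ∧
        e.map Prod.fst = L.flatMap (fun j => [Sum.inr j, Sum.inl j, Sum.inr j]) ∧
        L.map Sum.inl = l.map Prod.fst := by
  intro l
  induction l with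
  | nil =>
    intro _ _
    refine ⟨[], [], ⟨List.IsChain.nil, by simp⟩, ?_, rfl, rfl⟩
    have : wv ([] : List ((J ⊕ J) × M)) = 1 := rfl
    rw [this, map_one]
  | cons p t ih =>
    intro hl hi
    obtain ⟨k, x⟩ := p
    obtain ⟨j, hj⟩ := hi (k, x) (by simp)
    simp only at hj
    subst hj
    obtain ⟨e, L, he, hw, hs, hL⟩ := ih (hz_tail hl) (fun p hp => hi p (List.mem_cons_of_mem _ hp))
    have hx : x ∈ P j ∧ tr x = 0 := hl.2 (Sum.inl j, x) (by simp)
    have hsj : s j ∈ fam P s (Sum.inr j) := StarAlgebra.self_mem_adjoin_singleton ℂ (s j)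
    have hd : ∀ p ∈ t.head?, p.1 ≠ Sum.inl j := by
      intro p hp h1
      exact (List.isChain_cons.mp hl.1).1 p hp h1.symm
    refine ⟨(Sum.inr j, s j) :: (Sum.inl j, x) :: (Sum.inr j, s j) :: e, j :: L, ⟨?_, ?_⟩,
      ?_, ?_, ?_⟩
    · rw [List.isChain_cons_cons, List.isChain_cons_cons, List.isChain_cons]
      exact ⟨by simp, by simp, hz_head2 hs hL hd, he.1⟩
    · intro q hq
      simp only [List.mem_cons] at hq
      rcases hq with rfl | rfl | rfl | hq
      · exact ⟨hsj, h.trs j⟩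
      · exact hx
      · exact ⟨hsj, h.trs j⟩
      · exact he.2 q hq
    · have e1 : wv ((Sum.inr j, s j) :: (Sum.inl j, x) :: (Sum.inr j, s j) :: e)
        = s j * (x * (s j * wv e)) := rfl
      have e2 : wv ((Sum.inl j, x) :: t) = x * wv t := rfl
      rw [e1, e2, map_mul, IsTheta.one_onP h hθ j hx.1, hw]
      simp only [mul_assoc]
    · rw [List.flatMap_cons, List.map_cons, List.map_cons, List.map_cons, hs]
      rfl
    · rw [List.map_cons, List.map_cons, hL]

private theorem hz_orth0 {P : J → StarSubalgebra ℂ M} {s : J → M} (h : Dil P s)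
    {θ : ℝ → (M →⋆ₐ[ℂ] M)} (hθ : IsTheta P s θ) {m m' : M} (hm : m ∈ MM P) (hm' : m' ∈ MM P)
    (j : J) {l l' : List ((J ⊕ J) × M)} (hl : RedW (fam P s) l)
    (hi : ∀ p ∈ l, p.1 ∈ Set.range (Sum.inl : J → J ⊕ J))
    (hd : ∀ p ∈ l.head?, p.1 ≠ Sum.inl j) (hl' : RedW (fam P s) l') (hg : GoodW l') :
    tr (star (m * s j * θ 1 (wv l)) * (m' * wv l')) = 0 := by
  obtain ⟨e, L, he, hw, hs, hL⟩ := hz_expand h hθ l hl hi
  have hsj : s j ∈ fam P s (Sum.inr j) := StarAlgebra.self_mem_adjoin_singleton ℂ (s j)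
  have hE : RedW (fam P s) ((Sum.inr j, s j) :: e) := by
    refine ⟨List.isChain_cons.mpr ⟨hz_head2 hs hL hd, he.1⟩, ?_⟩
    intro q hq
    rcases List.mem_cons.mp hq with rfl | hq
    · exact ⟨hsj, h.trs j⟩
    · exact he.2 q hq
  have e1 : m * s j * θ 1 (wv l) = m * wv ((Sum.inr j, s j) :: e) := by
    have : wv ((Sum.inr j, s j) :: e) = s j * wv e := rfl
    rw [this, hw, mul_assoc]
  have e2 : star (m * s j * θ 1 (wv l)) * (m' * wv l')
      = star (wv ((Sum.inr j, s j) :: e)) * (star m * m') * wv l' * 1 := by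
    rw [e1, star_mul, mul_one]; simp only [mul_assoc]
  have hne : ((Sum.inr j, s j) :: e : List ((J ⊕ J) × M)).map Prod.fst ≠ l'.map Prod.fst := by
    intro h1
    rcases hg with rfl | ⟨-, hp⟩
    · simp at h1
    · apply hp
      rw [← h1]
      exact ⟨j, L, by rw [List.map_cons, hs]⟩
  have ha : star m * m' ∈ subGen (fam P s) (Set.range Sum.inl) := by
    rw [← MM_eq_subGen]
    exact mul_mem (star_mem hm) hm'
  rw [e2, cross h.free (Set.range Sum.inl) ∅ ha (one_mem _) hl' hE ?_ ?_ ?_ ?_ ?_,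
    word_orth h.free hE hl' hne, mul_zero]
  · intro p hp
    rcases hg with rfl | ⟨⟨j', hj'⟩, -⟩
    · simp at hp
    · rw [List.head?_map, hp] at hj'
      simp only [Option.map_some, Option.some.injEq] at hj'
      rw [hj']
      rintro ⟨a, ha⟩
      exact Sum.inl_ne_inr ha
  · intro p hp
    simp only [List.head?_cons, Option.some.injEq] at hp
    rw [← hp]
    rintro ⟨a, ha⟩
    exact Sum.inl_ne_inr ha
  · exact fun _ _ => Set.notMem_empty _
  · exact fun _ _ => Set.notMem_empty _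
  · exact Or.inr (Set.disjoint_empty _)

private theorem hz_orth1 {P : J → StarSubalgebra ℂ M} {s : J → M} (h : Dil P s)
    {θ : ℝ → (M →⋆ₐ[ℂ] M)} (hθ : IsTheta P s θ) {m m' : M} (hm : m ∈ MM P) (hm' : m' ∈ MM P)
    (j : J) {l l' : List ((J ⊕ J) × M)} (hl : RedW (fam P s) l)
    (hi : ∀ p ∈ l, p.1 ∈ Set.range (Sum.inl : J → J ⊕ J))
    (hl' : RedW (fam P s) l') (hg : GoodW l') :
    tr (star (m * s j * θ 1 (wv l)) * (m' * wv l')) = 0 := by
  by_cases hd : ∀ p ∈ l.head?, p.1 ≠ Sum.inl j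
  · exact hz_orth0 h hθ hm hm' j hl hi hd hl' hg
  · push Not at hd
    obtain ⟨⟨k, x⟩, hp, hk⟩ := hd
    cases l with
    | nil => simp at hp
    | cons q t =>
      simp only [List.head?_cons, Option.mem_def, Option.some.injEq] at hp
      subst hp
      simp only at hk
      subst hk
      have hx : x ∈ P j ∧ tr x = 0 := hl.2 (Sum.inl j, x) (by simp)
      have e1 : m * s j * θ 1 (wv ((Sum.inl j, x) :: t)) = (m * x) * s j * θ 1 (wv t) := by
        have e2 : wv ((Sum.inl j, x) :: t) = x * wv t := rfl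
        rw [e2, map_mul, IsTheta.one_onP h hθ j hx.1]
        calc m * s j * (s j * x * s j * θ 1 (wv t))
            = m * (s j * s j) * x * s j * θ 1 (wv t) := by simp only [mul_assoc]
          _ = m * x * s j * θ 1 (wv t) := by rw [h.sq, mul_one]
      rw [e1]
      refine hz_orth0 h hθ ((MM P).mul_mem hm (hz_P_MM hx.1)) hm' j (hz_tail hl)
        (fun p hp => hi p (List.mem_cons_of_mem _ hp)) ?_ hl' hg
      intro p hp h1
      exact (List.isChain_cons.mp hl.1).1 p hp h1.symm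

private theorem hz_orth2 {P : J → StarSubalgebra ℂ M} {s : J → M} (h : Dil P s)
    {θ : ℝ → (M →⋆ₐ[ℂ] M)} (hθ : IsTheta P s θ) {m m' z y : M} (hm : m ∈ MM P)
    (hm' : m' ∈ MM P) (j : J) (hy : y ∈ MM P) (hz : z ∈ goodSpan P s) :
    tr (star (m * s j * θ 1 y) * (m' * z)) = 0 := by
  refine Submodule.span_induction
    (p := fun z _ => tr (star (m * s j * θ 1 y) * (m' * z)) = 0) ?_ ?_ ?_ ?_ hz
  · rintro _ ⟨l', hl', hg, rfl⟩
    rw [MM_eq_subGen P s] at hy
    obtain ⟨v, hv, hvy⟩ := exists_seq_of_approx ((mem_vnGen_iff _ y).mp hy)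
    have h0 : ∀ n, tr (star (m * s j * θ 1 (v n)) * (m' * wv l')) = 0 := by
      intro n
      have h1 := mem_span_words (fam P s) (Set.range Sum.inl) (hv n)
      refine Submodule.span_induction
        (p := fun y _ => tr (star (m * s j * θ 1 y) * (m' * wv l')) = 0) ?_ ?_ ?_ ?_ h1
      · rintro _ ⟨l, hl, hi, rfl⟩
        exact hz_orth1 h hθ hm hm' j hl hi hl' hg
      · rw [map_zero, mul_zero, star_zero, zero_mul, map_zero]
      · intro x y _ _ h1 h2
        rw [map_add, mul_add, star_add, add_mul, map_add, h1, h2, add_zero]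
      · intro c x _ h1
        rw [map_smul, mul_smul_comm, star_smul, smul_mul_assoc, map_smul, h1, smul_zero]
    have h1 : Tendsto (fun n => n2 (θ 1 (v n) - θ 1 y)) atTop (𝓝 0) := by
      refine hvy.congr (fun n => ?_)
      rw [← map_sub, TrPres.n2_eq (fun x => hθ.tr_eq 1 x)]
    have h2 := n2_lim_star (n2_lim_mul_left (m * s j) h1)
    have h3 := tr_lim (n2_lim_mul_right (m' * wv l') h2)
    refine tendsto_nhds_unique h3 ?_
    refine tendsto_const_nhds.congr (fun n => ?_)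
    rw [h0 n]
  · rw [mul_zero, mul_zero, map_zero]
  · intro x y _ _ h1 h2
    rw [mul_add, mul_add, map_add, h1, h2, add_zero]
  · intro c x _ h1
    rw [mul_smul_comm, mul_smul_comm, map_smul, h1, smul_zero]

private theorem hz_orth {P : J → StarSubalgebra ℂ M} {s : J → M} (h : Dil P s)
    {θ : ℝ → (M →⋆ₐ[ℂ] M)} (hθ : IsTheta P s θ) {x₀ x₁ : M} (h₀ : x₀ ∈ H0span P s θ)
    (h₁ : x₁ ∈ goodMod P s) : tr (star x₀ * x₁) = 0 := by
  refine Submodule.span_induction (p := fun x₁ _ => tr (star x₀ * x₁) = 0) ?_ ?_ ?_ ?_ h₁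
  · rintro _ ⟨m', hm', z, hz, rfl⟩
    refine Submodule.span_induction (p := fun x₀ _ => tr (star x₀ * (m' * z)) = 0)
      ?_ ?_ ?_ ?_ h₀
    · rintro _ ⟨j, m, hm, y, hy, rfl⟩
      exact hz_orth2 h hθ hm hm' j hy hz
    · rw [star_zero, zero_mul, map_zero]
    · intro x y _ _ h1 h2
      rw [star_add, add_mul, map_add, h1, h2, add_zero]
    · intro c x _ h1
      rw [star_smul, smul_mul_assoc, map_smul, h1, smul_zero]
  · rw [mul_zero, map_zero]
  · intro x y _ _ h1 h2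
    rw [mul_add, map_add, h1, h2, add_zero]
  · intro c x _ h1
    rw [mul_smul_comm, map_smul, h1, smul_zero]

theorem mem_H0 {P : J → StarSubalgebra ℂ M} {s : J → M} (h : Dil P s)
    {θ : ℝ → (M →⋆ₐ[ℂ] M)} (hθ : IsTheta P s θ) {a : FreeGroup (Fin 16) → M} (ha : IsFreeRep a)
    (haM : ∀ g, a g ∈ MM P) {w : M} (hw : ∀ g, a g * w = w * θ 1 (a g)) :
    InCl (H0span P s θ) w := by
  intro ε hε
  obtain ⟨x₁, h₁, x₀, h₀, hx⟩ := hz_total h hθ w (ε / 5) (by linarith)
  refine ⟨x₀, h₀, ?_⟩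
  set T : M →ₗ[ℂ] M := ∑ i : Fin 16,
    (LinearMap.mulLeft ℂ (a (FreeGroup.of i))).comp
      (LinearMap.mulRight ℂ (star (θ 1 (a (FreeGroup.of i))))) with hT
  have hTa : ∀ x, T x = ∑ i, a (FreeGroup.of i) * x * star (θ 1 (a (FreeGroup.of i))) := by
    intro x
    rw [hT, LinearMap.sum_apply]
    refine Finset.sum_congr rfl (fun i _ => ?_)
    simp only [LinearMap.comp_apply, LinearMap.mulLeft_apply, LinearMap.mulRight_apply,
      mul_assoc]
  have hU : ∀ g, IsUn (a g) := ha.2.2.1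
  have hUθ : ∀ g, IsUn (θ 1 (a g)) := fun g => by
    refine ⟨?_, ?_⟩
    · rw [← map_star, ← map_mul, (hU g).1, map_one]
    · rw [← map_star, ← map_mul, (hU g).2, map_one]
  have hTn : ∀ x, n2 (T x) ≤ 16 * n2 x := by
    intro x
    rw [hTa]
    have h1 : ∀ (S : Finset (Fin 16)), n2 (∑ i ∈ S, a (FreeGroup.of i) * x *
        star (θ 1 (a (FreeGroup.of i)))) ≤ S.card * n2 x := by
      intro S
      induction S using Finset.induction_on with
      | empty => simp [n2_zero]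
      | insert i S hi ih =>
        rw [Finset.sum_insert hi, Finset.card_insert_of_notMem hi]
        have h2 := n2_add_le (a (FreeGroup.of i) * x * star (θ 1 (a (FreeGroup.of i))))
          (∑ i ∈ S, a (FreeGroup.of i) * x * star (θ 1 (a (FreeGroup.of i))))
        rw [(hUθ _).star.n2_mul', (hU _).n2_mul] at h2
        push_cast
        linarith
    have h2 := h1 Finset.univ
    rw [Finset.card_univ, Fintype.card_fin] at h2
    exact_mod_cast h2
  have hTw : T w = (16 : ℂ) • w := by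
    rw [hTa]
    have h1 : ∀ i : Fin 16, a (FreeGroup.of i) * w * star (θ 1 (a (FreeGroup.of i))) = w := by
      intro i
      rw [hw, mul_assoc, (hUθ _).2, mul_one]
    rw [Finset.sum_congr rfl (fun i _ => h1 i), Finset.sum_const, Finset.card_univ,
      Fintype.card_fin]
    rw [← Nat.cast_smul_eq_nsmul ℂ]
    norm_num
  have hT1 : InCl (goodMod P s) (T x₁) := by
    show T x₁ ∈ hzCl (goodMod P s)
    rw [hTa]
    refine Submodule.sum_mem _ (fun i _ => ?_)
    rw [← map_star]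
    exact hz_good_rmul h hθ (star_mem (haM _)) (hz_good_lmul (haM _) h₁)
  have hT0 : T x₀ ∈ H0span P s θ := by
    rw [hTa]
    refine Submodule.sum_mem _ (fun i _ => ?_)
    rw [← map_star]
    exact hz_H0_rmul (star_mem (haM _)) (hz_H0_lmul (haM _) h₀)
  set A := T x₁ - (16 : ℂ) • x₁ with hA
  set B := T x₀ - (16 : ℂ) • x₀ with hB
  have hAm : InCl (goodMod P s) A := by
    show A ∈ hzCl (goodMod P s)
    exact Submodule.sub_mem _ hT1 (Submodule.smul_mem _ _ (hz_incl_of_mem h₁))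
  have hBm : B ∈ H0span P s θ := Submodule.sub_mem _ hT0 (Submodule.smul_mem _ _ h₀)
  have hBA : tr (star B * A) = 0 := hz_orth_cl (fun z hz => hz_orth h hθ hBm hz) hAm
  have hAB : tr (star A * B) = 0 := by
    have := congrArg star hBA
    rw [star_zero] at this
    have h2 := tr_star (star B * A)
    rw [star_mul, star_star, hBA, map_zero] at h2
    exact h2
  set r := w - x₁ - x₀ with hr
  have hsum : A + B = -(T r - (16 : ℂ) • r) := by
    rw [hA, hB, hr, map_sub, map_sub, hTw, smul_sub, smul_sub]; abel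
  have hpy : n2 A ^ 2 + n2 B ^ 2 = n2 (A + B) ^ 2 := by
    rw [n2_sq, n2_sq, n2_sq, star_add, add_mul, mul_add, mul_add, map_add, map_add, map_add,
      hAB, hBA]
    simp
  have hn : n2 (A + B) ≤ 32 * n2 r := by
    rw [hsum, n2_neg]
    have h1 := n2_sub_le (T r) ((16 : ℂ) • r)
    rw [n2_smul] at h1
    have h2 := hTn r
    have h3 : ‖(16 : ℂ)‖ = 16 := by norm_num
    rw [h3] at h1
    linarith
  have hAn : n2 A ≤ 32 * n2 r := by
    have h1 : n2 A ^ 2 ≤ n2 (A + B) ^ 2 := by nlinarith [sq_nonneg (n2 B)]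
    exact (abs_le_of_sq_le_sq' h1 (n2_nonneg _)).2.trans hn
  have hgap : n2 (T x₁) ≤ 8 * n2 x₁ := by
    rw [hTa]
    exact gap_theta h hθ ha haM (hz_incl_of_mem h₁)
  have h16 : 16 * n2 x₁ ≤ n2 A + n2 (T x₁) := by
    have h1 : (16 : ℂ) • x₁ = T x₁ - A := by rw [hA]; abel
    have h2 := n2_sub_le (T x₁) A
    rw [← h1, n2_smul] at h2
    have h3 : ‖(16 : ℂ)‖ = 16 := by norm_num
    rw [h3] at h2
    linarith
  have hx1 : n2 x₁ ≤ 4 * n2 r := by linarith
  have hfin : n2 (w - x₀) ≤ n2 r + n2 x₁ := by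
    have : w - x₀ = r + x₁ := by rw [hr]; abel
    rw [this]; exact n2_add_le _ _
  linarith

end Pool.Agent.KUR
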