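import Pool.Agent.KUR.GNS

/-!
# KUR SeqT: bounded sequences modulo an ultrafilter

PROOF.  `B := lp (fun _ : ℕ => M) ⊤` (bounded sequences) is a unital C*-algebra (see
`Mathlib.Analysis.CStarAlgebra.lpSpace` and `Mathlib.Analysis.Normed.Lp.lpSpace`; needs
`Nontrivial`/`NormOneClass` care: `TVN M` is nontrivial as `tr 1 = 1`).  `φ x := lim_V tr (x n)`: for a
bounded complex sequence the limit along the ultrafilter `V = hyperfilter ℕ` exists by compactness
(`Ultrafilter.le_nhds_lim`, `isCompact_closedBall`); it is linear, tracial, positive, normalised.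
Apply `gns`.  Then define `Pr : (ℕ → M) → T` by `Pr x = π ⟨x, _⟩` for bounded `x`, `0` otherwise.
-/

open Filter Topology
open scoped ENNReal

namespace Pool.Agent.KUR

universe u

private theorem sq_tvn_nontrivial (M : Type u) [CStarAlgebra M] [TVN M] : Nontrivial M := by
  refine ⟨⟨1, 0, fun h => ?_⟩⟩
  have h1 := TVN.tr_one (M := M)
  rw [h, map_zero] at h1
  exact zero_ne_one h1

private theorem sq_lim_exists (u : ℕ → ℂ) (C : ℝ) (h : ∀ n, ‖u n‖ ≤ C) :
    ∃ l : ℂ, Tendsto u (hyperfilter ℕ : Filter ℕ) (𝓝 l) := by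
  obtain ⟨l, -, hl⟩ := (isCompact_closedBall (0 : ℂ) C).ultrafilter_le_nhds
    ((hyperfilter ℕ).map u) (by
      rw [le_principal_iff]
      exact Filter.mem_map.mpr (Filter.univ_mem' (fun n => by
        simpa [mem_closedBall_zero_iff] using h n)))
  exact ⟨l, hl⟩

/-- Bounded sequences. -/
private noncomputable instance sqLp (M : Type u) [CStarAlgebra M] [Nontrivial M] :
    CStarAlgebra (lp (fun _ : ℕ => M) ∞) where

private theorem sq_tendsto {M : Type u} [CStarAlgebra M] [TVN M]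
    (x : lp (fun _ : ℕ => M) ∞) :
    ∃ l : ℂ, Tendsto (fun n => tr (x n)) (hyperfilter ℕ : Filter ℕ) (𝓝 l) := by
  refine sq_lim_exists _ ‖x‖ (fun n => (norm_tr_le _).trans ?_)
  exact lp.norm_apply_le_norm ENNReal.top_ne_zero x n

/-- The limit of the traces. -/
private noncomputable def sqPhi (M : Type u) [CStarAlgebra M] [TVN M] :
    lp (fun _ : ℕ => M) ∞ →ₗ[ℂ] ℂ where
  toFun x := (sq_tendsto x).choose
  map_add' x y := by
    refine tendsto_nhds_unique (sq_tendsto (x + y)).choose_spec ?_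
    refine ((sq_tendsto x).choose_spec.add (sq_tendsto y).choose_spec).congr (fun n => ?_)
    rw [lp.coeFn_add, Pi.add_apply, map_add]
  map_smul' c x := by
    refine tendsto_nhds_unique (sq_tendsto (c • x)).choose_spec ?_
    refine ((sq_tendsto x).choose_spec.const_smul c).congr (fun n => ?_)
    rw [lp.coeFn_smul, Pi.smul_apply, map_smul]

private theorem sqPhi_spec {M : Type u} [CStarAlgebra M] [TVN M]
    (x : lp (fun _ : ℕ => M) ∞) :
    Tendsto (fun n => tr (x n)) (hyperfilter ℕ : Filter ℕ) (𝓝 (sqPhi M x)) :=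
  (sq_tendsto x).choose_spec

private theorem sq_mem {M : Type u} [CStarAlgebra M] {x : ℕ → M} (h : Bd x) :
    Memℓp (E := fun _ : ℕ => M) x ∞ := by
  obtain ⟨C, hC⟩ := h
  exact memℓp_infty ⟨C, by rintro _ ⟨n, rfl⟩; exact hC n⟩

open Classical in
/-- A bounded sequence as an element of the algebra. -/
private noncomputable def sqJ {M : Type u} [CStarAlgebra M] (x : ℕ → M) :
    lp (fun _ : ℕ => M) ∞ :=
  if h : Bd x then ⟨x, sq_mem h⟩ else 0

private theorem sqJ_apply {M : Type u} [CStarAlgebra M] {x : ℕ → M} (h : Bd x) (n : ℕ) :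
    sqJ x n = x n := by
  unfold sqJ
  rw [dif_pos h]

private theorem sqJ_eq {M : Type u} [CStarAlgebra M] {x : ℕ → M} (h : Bd x)
    (z : lp (fun _ : ℕ => M) ∞) (hz : ∀ n, z n = x n) : sqJ x = z := by
  apply Subtype.ext
  funext n
  exact (sqJ_apply h n).trans (hz n).symm

private theorem sqBd_add {M : Type u} [CStarAlgebra M] {x y : ℕ → M} (hx : Bd x) (hy : Bd y) :
    Bd (x + y) := by
  obtain ⟨C, hC⟩ := hx
  obtain ⟨D, hD⟩ := hy
  exact ⟨C + D, fun n => (norm_add_le _ _).trans (add_le_add (hC n) (hD n))⟩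

private theorem sqBd_mul {M : Type u} [CStarAlgebra M] {x y : ℕ → M} (hx : Bd x) (hy : Bd y) :
    Bd (x * y) := by
  obtain ⟨C, hC⟩ := hx
  obtain ⟨D, hD⟩ := hy
  exact ⟨C * D, fun n => (norm_mul_le _ _).trans
    (mul_le_mul (hC n) (hD n) (norm_nonneg _) ((norm_nonneg _).trans (hC n)))⟩

private theorem sqBd_smul {M : Type u} [CStarAlgebra M] (c : ℂ) {x : ℕ → M} (hx : Bd x) :
    Bd (c • x) := by
  obtain ⟨C, hC⟩ := hx
  exact ⟨‖c‖ * C, fun n => by
    rw [Pi.smul_apply, norm_smul]; exact mul_le_mul_of_nonneg_left (hC n) (norm_nonneg _)⟩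

private theorem sqBd_star {M : Type u} [CStarAlgebra M] {x : ℕ → M} (hx : Bd x) :
    Bd (star x) := by
  obtain ⟨C, hC⟩ := hx
  exact ⟨C, fun n => by rw [Pi.star_apply, norm_star]; exact hC n⟩

private theorem sqBd_one {M : Type u} [CStarAlgebra M] : Bd (1 : ℕ → M) :=
  ⟨‖(1 : M)‖, fun n => le_refl _⟩

theorem seq_algebra (M : Type u) [CStarAlgebra M] [TVN M] :
    ∃ (T : Type u) (_ : CStarAlgebra T) (_ : TVN T) (Pr : (ℕ → M) → T),
      (∀ x y : ℕ → M, Bd x → Bd y → Pr (x + y) = Pr x + Pr y) ∧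
      (∀ x y : ℕ → M, Bd x → Bd y → Pr (x * y) = Pr x * Pr y) ∧
      (∀ (c : ℂ) (x : ℕ → M), Bd x → Pr (c • x) = c • Pr x) ∧
      (∀ x : ℕ → M, Bd x → Pr (star x) = star (Pr x)) ∧
      Pr 1 = 1 ∧
      (∀ x : ℕ → M, Bd x → Tendsto (fun n => tr (x n)) (hyperfilter ℕ : Filter ℕ)
        (𝓝 (tr (Pr x)))) := by
  have hnt : Nontrivial M := sq_tvn_nontrivial M
  obtain ⟨T, iT, iT2, π, hπ, -⟩ := gns (lp (fun _ : ℕ => M) ∞) (sqPhi M)
    (by
      refine tendsto_nhds_unique (sqPhi_spec 1) ?_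
      refine tendsto_const_nhds.congr (fun n => ?_)
      rw [lp.infty_coeFn_one, Pi.one_apply]
      exact TVN.tr_one.symm)
    (fun x y => by
      refine tendsto_nhds_unique (sqPhi_spec (x * y)) ?_
      refine (sqPhi_spec (y * x)).congr (fun n => ?_)
      rw [lp.infty_coeFn_mul, lp.infty_coeFn_mul, Pi.mul_apply, Pi.mul_apply]
      exact TVN.tr_comm _ _)
    (fun x => by
      refine ge_of_tendsto' ((Complex.continuous_re.tendsto _).comp (sqPhi_spec (star x * x)))
        (fun n => ?_)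
      exact TVN.tr_re_nonneg (x n))
    (fun x => by
      refine tendsto_nhds_unique
        ((Complex.continuous_im.tendsto _).comp (sqPhi_spec (star x * x))) ?_
      refine tendsto_const_nhds.congr (fun n => ?_)
      exact (TVN.tr_im_zero (x n)).symm)
  refine ⟨T, iT, iT2, fun x => π (sqJ x), ?_, ?_, ?_, ?_, ?_, ?_⟩
  · intro x y hx hy
    have : sqJ (x + y) = sqJ x + sqJ y := sqJ_eq (sqBd_add hx hy) _ (fun n => by
      show (sqJ x : ∀ _, M) n + (sqJ y : ∀ _, M) n = x n + y n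
      rw [sqJ_apply hx, sqJ_apply hy])
    show π (sqJ (x + y)) = _
    rw [this, map_add]
  · intro x y hx hy
    have : sqJ (x * y) = sqJ x * sqJ y := sqJ_eq (sqBd_mul hx hy) _ (fun n => by
      show (sqJ x : ∀ _, M) n * (sqJ y : ∀ _, M) n = x n * y n
      rw [sqJ_apply hx, sqJ_apply hy])
    show π (sqJ (x * y)) = _
    rw [this, map_mul]
  · intro c x hx
    have : sqJ (c • x) = c • sqJ x := sqJ_eq (sqBd_smul c hx) _ (fun n => by
      show c • (sqJ x : ∀ _, M) n = c • x n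
      rw [sqJ_apply hx])
    show π (sqJ (c • x)) = _
    rw [this, map_smul]
  · intro x hx
    have : sqJ (star x) = star (sqJ x) := sqJ_eq (sqBd_star hx) _ (fun n => by
      show star ((sqJ x : ∀ _, M) n) = star (x n)
      rw [sqJ_apply hx])
    show π (sqJ (star x)) = _
    rw [this, map_star]
  · have : sqJ (1 : ℕ → M) = 1 := sqJ_eq sqBd_one _ (fun n => rfl)
    show π (sqJ 1) = 1
    rw [this, map_one]
  · intro x hx
    show Tendsto (fun n => tr (x n)) (hyperfilter ℕ : Filter ℕ) (𝓝 (tr (π (sqJ x))))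
    rw [hπ]
    refine (sqPhi_spec (sqJ x)).congr (fun n => ?_)
    rw [sqJ_apply hx]

end Pool.Agent.KUR
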