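import Pool.Agent.KUR.Basic2

/-!
# KUR SubT: von Neumann subalgebras are tracial von Neumann algebras

PROOF.  `S` is norm closed (`VNSub.isClosed`), so `↥S` is a C*-algebra
(`StarSubalgebra.cstarAlgebra`, needs `IsClosed (S : Set M)` as an instance argument).  Restrict the
trace.  Completeness: use `complete_ball` of `M` with `C = 1` and `VNSub`.  `f` is the inclusion
`S.subtype`.
-/

open Filter Topology

namespace Pool.Agent.KUR

universe u
variable {M : Type u} [CStarAlgebra M] [TVN M]

theorem exists_subTVN {S : StarSubalgebra ℂ M} (hS : VNSub S) :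
    ∃ (B : Type u) (_ : CStarAlgebra B) (_ : TVN B) (f : B →⋆ₐ[ℂ] M), TrPres f ∧ f.range = S := by
  have : IsClosed (S : Set M) := hS.isClosed
  let iC : CStarAlgebra S := inferInstance
  let iT : TVN S :=
    { tr := (tr : M →ₗ[ℂ] ℂ) ∘ₗ S.subtype.toAlgHom.toLinearMap
      tr_one := TVN.tr_one
      tr_comm := fun x y => TVN.tr_comm (x : M) (y : M)
      tr_re_nonneg := fun x => TVN.tr_re_nonneg (x : M)
      tr_im_zero := fun x => TVN.tr_im_zero (x : M)
      faithful := fun x hx => Subtype.ext (TVN.faithful (x : M) hx)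
      complete := by
        intro x hx hC
        obtain ⟨y, hy, hy'⟩ := TVN.complete (fun n => (x n : M)) hx hC
        have h1 : Tendsto (fun n => n2 ((x n : M) - y)) atTop (𝓝 0) := by
          have h2 := (Real.continuous_sqrt.tendsto 0).comp hy'
          rw [Real.sqrt_zero] at h2
          exact h2
        have hyS : y ∈ S := hS (fun n => (x n : M)) y 1 (fun n => (x n).2) hx h1
        exact ⟨⟨y, hyS⟩, hy, hy'⟩ }
  refine ⟨S, iC, iT, S.subtype, fun x => rfl, ?_⟩
  ext x
  constructor
  · rintro ⟨y, rfl⟩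
    exact y.2
  · intro hx
    exact ⟨⟨x, hx⟩, rfl⟩

end Pool.Agent.KUR
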