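import Pool.Agent.KUR.Asy
import Pool.Agent.KUR.SeqT
import Pool.Agent.KUR.SubT
import Pool.Agent.KUR.Kap

/-!
# KUR MTil: existence of the dilation algebra

PROOF.  `J` is finite, so there is an injective positive `c : J → ℕ`.  Let `T`, `Pr` be as in
`seq_algebra M`.  `η₀ x := Pr (fun _ => x)` is a trace preserving star homomorphism `M → T`
(the limit of a constant sequence), `S j := Pr (fun n => a^(c j n) * s₀ * (star a)^(c j n))` is a
self-adjoint unitary of trace 0.  FREENESS of `fam (fun j => (P j).map η₀) S` in `T`: a centred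
element of the star algebra generated by `S j` is `λ • S j` (`StarAlgebra.adjoin ℂ {S j}` is
`ℂ 1 + ℂ S j` since `S j` is self-adjoint with square 1), a centred element of `(P j).map η₀` is
`η₀ p` with `tr p = 0`.  So a reduced word is a scalar times `Pr` of the sequence of products of
letters, whose trace is the limit along the ultrafilter of the sequence in `asy_free`, i.e. 0
(`hyperfilter ℕ ≤ cofinite = atTop`).
Let `W = vnGen ((⋃ j, (P j).map η₀) ∪ range S)`, take the algebra `A'` and `f : A' → T` with range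
`W` from `exists_subTVN`.  Everything (`η₀ x`, `S j`) lies in `W` [for `η₀ x`: `x ∈ vnGen (⋃ P j)` by
`gen`; `comap` of `W` under `η₀` is a VNSub: if bounded `x n → x` in 2-norm then `η₀ x n → η₀ x`], so
lift along the injective trace preserving `f`: `η : M → A'`, `s j ∈ A'`.  All properties of `Dil`
transfer along `f` (`TrPres.injective`, `TrPres.map_vnSub`; `gen`: the subalgebra
`vnGen (...)` of `A'` is mapped by `f` onto a VNSub containing the generators of `W`, so it is
everything).
-/

open Filter Topology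

namespace Pool.Agent.KUR

universe u
variable {M : Type u} [CStarAlgebra M] [TVN M]

/-! ### Symmetries -/

section sym
variable {T : Type u} [CStarAlgebra T]

/-- The star algebra generated by a symmetry. -/
private theorem MTil_adjoin {s : T} (h1 : star s = s) (h2 : s * s = 1) {x : T}
    (hx : x ∈ StarAlgebra.adjoin ℂ {s}) : ∃ α β : ℂ, x = α • (1 : T) + β • s := by
  let S : StarSubalgebra ℂ T :=
    { carrier := {x | ∃ α β : ℂ, x = α • (1 : T) + β • s}
      mul_mem' := by
        rintro x y ⟨α, β, rfl⟩ ⟨γ, δ, rfl⟩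
        refine ⟨α * γ + β * δ, α * δ + β * γ, ?_⟩
        rw [add_mul, mul_add, mul_add, smul_mul_smul_comm, smul_mul_smul_comm, smul_mul_smul_comm,
          smul_mul_smul_comm, h2, one_mul, one_mul, mul_one]
        module
      add_mem' := by
        rintro x y ⟨α, β, rfl⟩ ⟨γ, δ, rfl⟩
        exact ⟨α + γ, β + δ, by module⟩
      algebraMap_mem' := fun r => ⟨r, 0, by rw [Algebra.algebraMap_eq_smul_one]; module⟩
      star_mem' := by
        rintro x ⟨α, β, rfl⟩
        refine ⟨star α, star β, ?_⟩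
        rw [star_add, star_smul, star_smul, star_one, h1] }
  have h3 : StarAlgebra.adjoin ℂ {s} ≤ S := by
    apply StarAlgebra.adjoin_le
    rintro y rfl
    exact ⟨0, 1, by module⟩
  exact h3 hx

end sym

/-! ### Sequences -/

private theorem MTil_bd_mul {x y : ℕ → M} (hx : Bd x) (hy : Bd y) : Bd (x * y) := by
  obtain ⟨C, hC⟩ := hx
  obtain ⟨D, hD⟩ := hy
  refine ⟨C * D, fun n => ?_⟩
  have hC0 : 0 ≤ C := (norm_nonneg _).trans (hC n)
  exact (norm_mul_le _ _).trans (mul_le_mul (hC n) (hD n) (norm_nonneg _) hC0)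

private theorem MTil_bd_const (x : M) : Bd (fun _ : ℕ => x) := ⟨‖x‖, fun _ => le_refl _⟩

private theorem MTil_pow_un {a : M} (ha : IsUn a) (n : ℕ) : IsUn (a ^ n) := by
  induction n with
  | zero => rw [pow_zero]; exact isUn_one
  | succ n ih => rw [pow_succ]; exact ih.mul ha

private theorem MTil_star_pow {a : M} (ha : IsUn a) (n : ℕ) : (star a) ^ n * a ^ n = 1 := by
  rw [← star_pow]; exact (MTil_pow_un ha n).1

private theorem MTil_pow_star {a : M} (ha : IsUn a) (n : ℕ) : a ^ n * (star a) ^ n = 1 := by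
  rw [← star_pow]; exact (MTil_pow_un ha n).2

private theorem MTil_bd_sym {a s₀ : M} (ha : IsUn a) (hs1 : star s₀ = s₀) (hs2 : s₀ * s₀ = 1)
    (c : ℕ) : Bd (fun n : ℕ => a ^ (c * n) * s₀ * (star a) ^ (c * n)) := by
  have hs : IsUn s₀ := ⟨by rw [hs1, hs2], by rw [hs1, hs2]⟩
  refine ⟨1, fun n => ?_⟩
  refine IsUn.norm_le_one ?_
  show IsUn (a ^ (c * n) * s₀ * (star a) ^ (c * n))
  rw [← star_pow]
  exact ((MTil_pow_un ha _).mul hs).mul (MTil_pow_un ha _).star

private theorem MTil_bd_letter {J : Type*} {a s₀ : M} (ha : IsUn a) (hs1 : star s₀ = s₀)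
    (hs2 : s₀ * s₀ = 1) (c : J → ℕ) (l : (J × M) ⊕ J) : Bd (fun n => letter a s₀ c n l) := by
  cases l with
  | inl p => exact MTil_bd_const p.2
  | inr j => exact MTil_bd_sym ha hs1 hs2 (c j)

private theorem MTil_bd_word {J : Type*} {a s₀ : M} (ha : IsUn a) (hs1 : star s₀ = s₀)
    (hs2 : s₀ * s₀ = 1) (c : J → ℕ) (l : List ((J × M) ⊕ J)) :
    Bd (fun n => (l.map (letter a s₀ c n)).prod) := by
  induction l with
  | nil => exact MTil_bd_const 1
  | cons x l ih =>
    have h1 := MTil_bd_mul (MTil_bd_letter ha hs1 hs2 c x) ih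
    have h2 : (fun n => ((x :: l).map (letter a s₀ c n)).prod) =
        (fun n => letter a s₀ c n x) * (fun n => (l.map (letter a s₀ c n)).prod) := by
      funext n
      rw [List.map_cons, List.prod_cons]
      rfl
    rw [h2]
    exact h1

/-- Lifting along injective homomorphisms. -/
private theorem MTil_lift {A B T : Type*} [CStarAlgebra A] [CStarAlgebra B] [CStarAlgebra T]
    (f : B →⋆ₐ[ℂ] T) (hf : Function.Injective f) (g : A →⋆ₐ[ℂ] T) (h : ∀ x, g x ∈ f.range) :
    ∃ η : A →⋆ₐ[ℂ] B, ∀ x, f (η x) = g x := by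
  choose k hk using h
  have hk' : ∀ x, f (k x) = g x := hk
  refine ⟨{ toFun := k
            map_one' := hf (by rw [hk', map_one, map_one])
            map_mul' := fun x y => hf (by rw [hk', map_mul, map_mul, hk', hk'])
            map_zero' := hf (by rw [hk', map_zero, map_zero])
            map_add' := fun x y => hf (by rw [hk', map_add, map_add, hk', hk'])
            commutes' := fun r => hf (by
              rw [hk', AlgHomClass.commutes, AlgHomClass.commutes])
            map_star' := fun x => hf (by rw [hk', map_star, map_star, hk']) }, hk'⟩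

/-- The dilation inside a big algebra. -/
private theorem MTil_big {J : Type*} [Finite J] (P : J → StarSubalgebra ℂ M)
    (hP : FreeFam P)
    {j₁ j₂ : J} (hj : j₁ ≠ j₂) {a s₀ : M} (ha : a ∈ P j₁) (hau : IsUn a)
    (hat : ∀ n : ℕ, 0 < n → tr (a ^ n) = 0)
    (hs : s₀ ∈ P j₂) (hs1 : star s₀ = s₀) (hs2 : s₀ * s₀ = 1) (hs3 : tr s₀ = 0) :
    ∃ (T : Type u) (_ : CStarAlgebra T) (_ : TVN T) (η : M →⋆ₐ[ℂ] T) (S : J → T),
      TrPres η ∧ (∀ j, star (S j) = S j) ∧ (∀ j, S j * S j = 1) ∧ (∀ j, tr (S j) = 0) ∧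
      FreeFam (fam (fun j => (P j).map η) S) := by
  obtain ⟨T, iT, iT', Pr, p1, p2, p3, p4, p5, p6⟩ := seq_algebra M
  have hc1 : ∃ c : J → ℕ, Function.Injective c ∧ ∀ j, 0 < c j := by
    refine ⟨fun j => (Finite.equivFin J j : ℕ) + 1, ?_, fun j => Nat.succ_pos _⟩
    intro i j hij
    have h1 : (Finite.equivFin J i : ℕ) = (Finite.equivFin J j : ℕ) := Nat.succ_injective hij
    exact (Finite.equivFin J).injective (Fin.ext h1)
  obtain ⟨c, hc, hc0⟩ := hc1
  have hPr0 : Pr (fun _ => 0) = 0 := by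
    have h1 := p3 0 (fun _ => 0) (MTil_bd_const 0)
    rw [zero_smul, zero_smul] at h1
    exact h1
  let η₀ : M →⋆ₐ[ℂ] T :=
    { toFun := fun x => Pr (fun _ => x)
      map_one' := p5
      map_mul' := fun x y => p2 (fun _ => x) (fun _ => y) (MTil_bd_const x) (MTil_bd_const y)
      map_zero' := hPr0
      map_add' := fun x y => p1 (fun _ => x) (fun _ => y) (MTil_bd_const x) (MTil_bd_const y)
      commutes' := fun r => by
        show Pr (fun _ => algebraMap ℂ M r) = algebraMap ℂ T r
        rw [Algebra.algebraMap_eq_smul_one, Algebra.algebraMap_eq_smul_one, ← p5]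
        exact p3 r (fun _ => 1) (MTil_bd_const 1)
      map_star' := fun x => p4 (fun _ => x) (MTil_bd_const x) }
  have hη₀ : ∀ x, η₀ x = Pr (fun _ => x) := fun x => rfl
  have hlim : ∀ (x : ℕ → M) (z : ℂ), Bd x → Tendsto (fun n => tr (x n)) atTop (𝓝 z) →
      tr (Pr x) = z := by
    intro x z hx hz
    exact tendsto_nhds_unique (p6 x hx) (hz.mono_left Nat.hyperfilter_le_atTop)
  have htp : TrPres η₀ := fun x => hlim (fun _ => x) (tr x) (MTil_bd_const x) tendsto_const_nhds
  let sq : J → ℕ → M := fun j n => a ^ (c j * n) * s₀ * (star a) ^ (c j * n)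
  have hsq : ∀ j, Bd (sq j) := fun j => MTil_bd_sym hau hs1 hs2 (c j)
  let S : J → T := fun j => Pr (sq j)
  have S1 : ∀ j, star (S j) = S j := by
    intro j
    show star (Pr (sq j)) = Pr (sq j)
    rw [← p4 (sq j) (hsq j)]
    congr 1
    funext n
    show star (a ^ (c j * n) * s₀ * (star a) ^ (c j * n)) =
      a ^ (c j * n) * s₀ * (star a) ^ (c j * n)
    rw [star_mul, star_mul, star_pow, star_pow, star_star, hs1, mul_assoc]
  have S2 : ∀ j, S j * S j = 1 := by
    intro j
    show Pr (sq j) * Pr (sq j) = 1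
    rw [← p2 (sq j) (sq j) (hsq j) (hsq j), ← p5]
    congr 1
    funext n
    show a ^ (c j * n) * s₀ * (star a) ^ (c j * n) *
      (a ^ (c j * n) * s₀ * (star a) ^ (c j * n)) = 1
    calc a ^ (c j * n) * s₀ * (star a) ^ (c j * n) *
        (a ^ (c j * n) * s₀ * (star a) ^ (c j * n)) =
        a ^ (c j * n) * (s₀ * ((star a) ^ (c j * n) * a ^ (c j * n)) * s₀) *
          (star a) ^ (c j * n) := by noncomm_ring
      _ = 1 := by rw [MTil_star_pow hau, mul_one, hs2, mul_one, MTil_pow_star hau]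
  have S3 : ∀ j, tr (S j) = 0 := by
    intro j
    refine hlim (sq j) 0 (hsq j) ?_
    have h1 : (fun n => tr (sq j n)) = fun _ => (0 : ℂ) := by
      funext n
      show tr (a ^ (c j * n) * s₀ * (star a) ^ (c j * n)) = 0
      rw [tr_mul_comm, ← mul_assoc, MTil_star_pow hau, one_mul, hs3]
    rw [h1]
    exact tendsto_const_nhds
  refine ⟨T, iT, iT', η₀, S, htp, S1, S2, S3, ?_⟩
  -- words
  have hword : ∀ l : List ((J ⊕ J) × T),
      (∀ p ∈ l, p.2 ∈ fam (fun j => (P j).map η₀) S p.1 ∧ tr p.2 = 0) →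
      ∃ (z : ℂ) (l' : List ((J × M) ⊕ J)), wv l = z • Pr (fun n => (l'.map (letter a s₀ c n)).prod) ∧
        l'.map letterIdx = l.map Prod.fst ∧ ∀ k p, Sum.inl (k, p) ∈ l' → p ∈ P k ∧ tr p = 0 := by
    intro l
    induction l with
    | nil =>
      intro _
      refine ⟨1, [], ?_, rfl, fun k p hp => absurd hp (by simp)⟩
      show (1 : T) = (1 : ℂ) • Pr (fun _ => 1)
      rw [one_smul]
      exact p5.symm
    | cons x l ih =>
      intro hl
      obtain ⟨z, l', h1, h2, h3⟩ := ih fun p hp => hl p (List.mem_cons_of_mem _ hp)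
      have hx := hl x List.mem_cons_self
      have hlet : ∃ (w : ℂ) (y : (J × M) ⊕ J), x.2 = w • Pr (fun n => letter a s₀ c n y) ∧
          letterIdx y = x.1 ∧ ∀ k p, Sum.inl (k, p) = y → p ∈ P k ∧ tr p = 0 := by
        obtain ⟨x1, x2⟩ := x
        cases x1 with
        | inl k =>
          obtain ⟨⟨p, hp, hp'⟩, hx0⟩ := hx
          have hp2 : η₀ p = x2 := hp'
          refine ⟨1, Sum.inl (k, p), ?_, rfl, ?_⟩
          · rw [one_smul]
            exact hp2.symm
          · intro k' p' hkp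
            have h4 := Sum.inl.inj hkp
            have h5 : k' = k := (Prod.mk.inj h4).1
            have h6 : p' = p := (Prod.mk.inj h4).2
            subst h5 h6
            refine ⟨hp, ?_⟩
            have h7 : tr x2 = 0 := hx0
            rw [← hp2, htp] at h7
            exact h7
        | inr k =>
          obtain ⟨hx1, hx0⟩ := hx
          have hx2 : x2 ∈ StarAlgebra.adjoin ℂ {S k} := hx1
          obtain ⟨α, β, hαβ⟩ := MTil_adjoin (S1 k) (S2 k) hx2
          have h7 : tr x2 = 0 := hx0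
          rw [hαβ, map_add, map_smul, map_smul, S3, smul_zero, add_zero, tr_one', smul_eq_mul,
            mul_one] at h7
          refine ⟨β, Sum.inr k, ?_, rfl, fun k' p' hkp => absurd hkp (by simp)⟩
          show x2 = β • Pr (sq k)
          rw [hαβ, h7, zero_smul, zero_add]
      obtain ⟨w, y, g1, g2, g3⟩ := hlet
      refine ⟨w * z, y :: l', ?_, ?_, ?_⟩
      · have e1 : wv (x :: l) = x.2 * wv l := by
          show ((x :: l).map Prod.snd).prod = x.2 * (l.map Prod.snd).prod
          rw [List.map_cons, List.prod_cons]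
        have e2 : (fun n => ((y :: l').map (letter a s₀ c n)).prod) =
            (fun n => letter a s₀ c n y) * (fun n => (l'.map (letter a s₀ c n)).prod) := by
          funext n
          rw [List.map_cons, List.prod_cons]
          rfl
        rw [e1, e2, p2 _ _ (MTil_bd_letter hau hs1 hs2 c y) (MTil_bd_word hau hs1 hs2 c l'), h1, g1,
          smul_mul_smul_comm]
      · rw [List.map_cons, List.map_cons, h2, g2]
      · intro k p hkp
        rcases List.mem_cons.1 hkp with h4 | h4
        · exact g3 k p h4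
        · exact h3 k p h4
  intro l hl hred
  obtain ⟨z, l', h1, h2, h3⟩ := hword l hred.2
  have hl' : l' ≠ [] := by
    rintro rfl
    apply hl
    exact List.map_eq_nil_iff.1 h2.symm
  have hch : l'.IsChain (fun p q => letterIdx p ≠ letterIdx q) := by
    have h4 : (l.map Prod.fst).IsChain (fun x y => x ≠ y) :=
      (List.isChain_map Prod.fst).2 hred.1
    rw [← h2] at h4
    exact (List.isChain_map letterIdx).1 h4
  have h4 := asy_free P hP hj ha hau hat hs hs1 hs2 hs3 c hc hc0 l' hl' hch h3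
  rw [h1, map_smul, hlim _ 0 (MTil_bd_word hau hs1 hs2 c l') h4, smul_zero]

theorem exists_dilation {J : Type*} [Finite J] (P : J → StarSubalgebra ℂ M)
    (hvn : ∀ j, VNSub (P j)) (hP : FreeFam P) (gen : ∀ x : M, x ∈ vnGen (⋃ j, (P j : Set M)))
    {j₁ j₂ : J} (hj : j₁ ≠ j₂) {a s₀ : M} (ha : a ∈ P j₁) (hau : IsUn a)
    (hat : ∀ n : ℕ, 0 < n → tr (a ^ n) = 0)
    (hs : s₀ ∈ P j₂) (hs1 : star s₀ = s₀) (hs2 : s₀ * s₀ = 1) (hs3 : tr s₀ = 0) :
    ∃ (A' : Type u) (_ : CStarAlgebra A') (_ : TVN A') (η : M →⋆ₐ[ℂ] A') (s : J → A'),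
      TrPres η ∧ Dil (fun j => (P j).map η) s := by
  obtain ⟨T, iT, iT', η₀, S, htp, S1, S2, S3, hfree⟩ :=
    MTil_big P hP hj ha hau hat hs hs1 hs2 hs3
  let G : Set T := (⋃ j, ((P j).map η₀ : Set T)) ∪ Set.range S
  obtain ⟨A', iA, iA', f, hf, hfr⟩ := exists_subTVN (vnSub_vnGen G)
  have hfi := hf.injective
  -- `η₀ x` lies in `W`
  have hcomap : VNSub ((vnGen G).comap η₀) := by
    intro x y C hx hC ht
    have h1 : ∀ n, η₀ (x n) ∈ vnGen G := hx
    have h2 : ∀ n, ‖η₀ (x n)‖ ≤ C := fun n => by rw [htp.norm_eq]; exact hC n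
    have h3 : Tendsto (fun n => n2 (η₀ (x n) - η₀ y)) atTop (𝓝 0) := by
      have e : (fun n => n2 (η₀ (x n) - η₀ y)) = fun n => n2 (x n - y) := by
        funext n; rw [← map_sub, htp.n2_eq]
      rw [e]; exact ht
    exact vnSub_vnGen G (fun n => η₀ (x n)) (η₀ y) C h1 h2 h3
  have hη₀W : ∀ x, η₀ x ∈ vnGen G := by
    intro x
    have h1 : vnGen (⋃ j, (P j : Set M)) ≤ (vnGen G).comap η₀ := by
      apply vnGen_le _ hcomap
      intro y hy
      obtain ⟨j, hyj⟩ := Set.mem_iUnion.1 hy
      show η₀ y ∈ vnGen G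
      apply subset_vnGen G
      exact Or.inl (Set.mem_iUnion.2 ⟨j, ⟨y, hyj, rfl⟩⟩)
    exact h1 (gen x)
  obtain ⟨η, hη⟩ := MTil_lift f hfi η₀ (fun x => by rw [hfr]; exact hη₀W x)
  have hS : ∀ j, ∃ x : A', f x = S j := by
    intro j
    have h1 : S j ∈ f.range := by
      rw [hfr]
      exact subset_vnGen G (Or.inr ⟨j, rfl⟩)
    exact h1
  choose s hs' using hS
  have hηt : TrPres η := fun x => by rw [← hf, hη, htp]
  refine ⟨A', iA, iA', η, s, hηt, ?_⟩
  refine ⟨fun j => hηt.map_vnSub (hvn j), fun j => hfi ?_, fun j => hfi ?_, fun j => ?_, ?_, ?_⟩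
  · rw [map_star, hs', S1]
  · rw [map_mul, map_one, hs', S2]
  · rw [← hf, hs', S3]
  · intro l hl hred
    have hmem : ∀ (k : J ⊕ J) (x : A'), x ∈ fam (fun j => (P j).map η) s k →
        f x ∈ fam (fun j => (P j).map η₀) S k := by
      intro k x hx
      cases k with
      | inl j =>
        obtain ⟨y, hy, hy'⟩ := hx
        have hy2 : η y = x := hy'
        refine ⟨y, hy, ?_⟩
        show η₀ y = f x
        rw [← hy2, hη]
      | inr j =>
        have hx' : x ∈ StarAlgebra.adjoin ℂ {s j} := hx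
        have h1 : StarAlgebra.adjoin ℂ {s j} ≤ (StarAlgebra.adjoin ℂ {S j}).comap f := by
          apply StarAlgebra.adjoin_le
          rintro y rfl
          show f (s j) ∈ StarAlgebra.adjoin ℂ {S j}
          rw [hs']
          exact StarAlgebra.subset_adjoin ℂ {S j} rfl
        exact h1 hx'
    have h1 := hfree (l.map fun p => (p.1, f p.2)) (fun h => hl (List.map_eq_nil_iff.1 h)) (by
      constructor
      · exact (List.isChain_map (fun p : (J ⊕ J) × A' => (p.1, f p.2))).2 hred.1
      · intro p hp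
        obtain ⟨q, hq, rfl⟩ := List.mem_map.1 hp
        obtain ⟨h2, h3⟩ := hred.2 q hq
        exact ⟨hmem q.1 q.2 h2, by rw [hf]; exact h3⟩)
    have h2 : wv (l.map fun p => (p.1, f p.2)) = f (wv l) := by
      unfold wv
      rw [map_list_prod, List.map_map, List.map_map]
      rfl
    rw [h2, hf] at h1
    exact h1
  · intro x
    have h1 : vnGen G ≤ (vnGen ((⋃ j, ((P j).map η : Set A')) ∪ Set.range s)).map f := by
      apply vnGen_le _ (hf.map_vnSub (vnSub_vnGen _))
      rintro y (hy | ⟨j, rfl⟩)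
      · obtain ⟨j, hyj⟩ := Set.mem_iUnion.1 hy
        obtain ⟨z, hz, hz'⟩ := hyj
        have hz2 : η₀ z = y := hz'
        refine ⟨η z, subset_vnGen _ (Or.inl (Set.mem_iUnion.2 ⟨j, ⟨z, hz, rfl⟩⟩)), ?_⟩
        show f (η z) = y
        rw [hη, hz2]
      · exact ⟨s j, subset_vnGen _ (Or.inr ⟨j, rfl⟩), hs' j⟩
    have h2 : f x ∈ vnGen G := by
      rw [← hfr]
      exact ⟨x, rfl⟩
    obtain ⟨y, hy, hy'⟩ := h1 h2
    have h3 : f y = f x := hy'
    rw [← hfi h3]
    exact hy

end Pool.Agent.KUR
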