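import Pool.Agent.KUR.Doub
import Pool.Agent.KUR.MTil
import Pool.Agent.KUR.HZero
import Pool.Agent.KUR.CoreD

/-!
# KUR Kur: the Kurosh type theorem for irreducible ultrapowers inside free products
-/

open Filter Topology

namespace Pool.Agent.KUR

universe u
variable {A : Type u} [CStarAlgebra A] [TVN A]

/-- The preimage of a VNSub under a trace preserving homomorphism is a VNSub. -/
theorem TrPres.vnSub_comap {B : Type*} [CStarAlgebra B] [TVN B] {f : A →⋆ₐ[ℂ] B}
    (hf : TrPres f) {S : StarSubalgebra ℂ B} (hS : VNSub S) : VNSub (S.comap f) := by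
  intro x y C hx hC ht
  rw [StarSubalgebra.mem_comap]
  refine hS (fun n => f (x n)) (f y) C (fun n => hx n) (fun n => by rw [hf.norm_eq]; exact hC n) ?_
  simp_rw [← map_sub, hf.n2_eq]
  exact ht

theorem MM_map_eq_range {J : Type*} {P : J → StarSubalgebra ℂ A}
    (gen : ∀ x : A, x ∈ vnGen (⋃ j, (P j : Set A))) {B : Type u} [CStarAlgebra B] [TVN B]
    {η : A →⋆ₐ[ℂ] B} (hη : TrPres η) : MM (fun j => (P j).map η) = η.range := by
  apply le_antisymm
  · apply vnGen_le _ hη.vnSub_range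
    intro x hx
    obtain ⟨j, hj⟩ := Set.mem_iUnion.mp hx
    obtain ⟨y, -, hy⟩ := hj
    exact ⟨y, hy⟩
  · rintro _ ⟨x, rfl⟩
    have h1 : vnGen (⋃ j, (P j : Set A)) ≤ (MM (fun j => (P j).map η)).comap η := by
      apply vnGen_le _ (hη.vnSub_comap (vnSub_vnGen _))
      intro y hy
      obtain ⟨j, hj⟩ := Set.mem_iUnion.mp hy
      show η y ∈ MM (fun j => (P j).map η)
      apply subset_vnGen
      exact Set.mem_iUnion.mpr ⟨j, ⟨y, hj, rfl⟩⟩
    exact h1 (gen x)

theorem kurosh {J : Type*} [Finite J] [Nonempty J] (P : J → StarSubalgebra ℂ A)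
    (hvn : ∀ j, VNSub (P j)) (hfree : FreeFam P) (gen : ∀ x : A, x ∈ vnGen (⋃ j, (P j : Set A)))
    (hfac : ∀ j, IsFac (P j))
    (hHaar : ∀ j, ∃ a ∈ P j, IsUn a ∧ ∀ n : ℕ, 0 < n → tr (a ^ n) = 0)
    (hsym : ∀ j, ∃ s ∈ P j, star s = s ∧ s * s = 1 ∧ tr s = 0)
    {U : Ultrafilter ℕ} (hU : (U : Filter ℕ) ≤ atTop)
    {N Q : Type u} [CStarAlgebra N] [TVN N] [CStarAlgebra Q] [TVN Q] (hN : IsII1 N)
    (hQ : IsUltrapower U N Q) (ι : Q →⋆ₐ[ℂ] A) (hι : TrPres ι)
    (hirr : ∀ y : A, (∀ x, y * ι x = ι x * y) → ∃ c : ℂ, y = c • (1 : A)) :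
    ∃ j, ∃ u : A, IsUn u ∧ ∀ x, star u * ι x * u ∈ P j := by
  rcases subsingleton_or_nontrivial J with hJ | hJ
  · obtain ⟨j⟩ := ‹Nonempty J›
    refine ⟨j, 1, isUn_one, fun x => ?_⟩
    have h1 : vnGen (⋃ j, (P j : Set A)) ≤ P j := by
      apply vnGen_le _ (hvn j)
      intro y hy
      obtain ⟨k, hk⟩ := Set.mem_iUnion.mp hy
      rwa [Subsingleton.elim k j] at hk
    exact h1 (gen _)
  · obtain ⟨j₁, j₂, hj⟩ := exists_pair_ne J
    obtain ⟨a, ha, hau, hat⟩ := hHaar j₁
    obtain ⟨s₀, hs, hs1, hs2, hs3⟩ := hsym j₂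
    obtain ⟨B, i1, i2, η, s, hη, hD⟩ := exists_dilation P hvn hfree gen hj ha hau hat hs hs1 hs2 hs3
    obtain ⟨θ, hθ⟩ := exists_theta hD
    have hMM : MM (fun j => (P j).map η) = η.range := MM_map_eq_range gen hη
    have hι' : TrPres (η.comp ι) := hη.comp hι
    have hιM : ∀ x, (η.comp ι) x ∈ MM (fun j => (P j).map η) := fun x => by
      rw [hMM]; exact ⟨ι x, rfl⟩
    obtain ⟨b, hb⟩ := exists_freeRep hU hN hQ
    have hirr' : ∀ y : B, (∀ x, y * (η.comp ι) x = (η.comp ι) x * y) →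
        ∃ c : ℂ, y = c • (1 : B) := by
      refine irr_lift hD (η.comp ι) hι' hιM hb (fun y hy hc => ?_)
      rw [hMM] at hy
      obtain ⟨z, rfl⟩ := hy
      obtain ⟨c, hc'⟩ := hirr z (fun x => hη.injective (by
        rw [map_mul, map_mul]; exact hc x))
      exact ⟨c, by
        show η z = _
        rw [hc', map_smul, map_one]⟩
    obtain ⟨n, w, hw, hint⟩ := rig hD hθ hU hN hQ (η.comp ι) hι' hιM
    obtain ⟨W₀, hW₀, hint₀⟩ := unitary_of_intertwiner (f := η.comp ι)
      (g := (θ (1 / 2 ^ n)).comp (η.comp ι)) hirr' hw hint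
    obtain ⟨W, hW, hWint⟩ := cocycle_double hθ (η.comp ι) n ⟨W₀, hW₀, hint₀⟩
    have hH : InCl (H0span (fun j => (P j).map η) s θ) W :=
      mem_H0 hD hθ (hb.map hι') (fun g => hιM _) (fun g => hWint _)
    have hfac' : ∀ j, IsFac ((P j).map η) := by
      intro j z hz hc
      obtain ⟨z', hz', rfl⟩ := hz
      obtain ⟨c, hc'⟩ := hfac j z' hz' (fun x hx => hη.injective (by
        rw [map_mul, map_mul]; exact hc _ ⟨x, hx, rfl⟩))
      exact ⟨c, by
        show η z' = _
        rw [hc', map_smul, map_one]⟩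
    obtain ⟨j, V, hV, hVu, hVP⟩ := core_dil hD hfac' hθ (η.comp ι) hι' hιM hirr' hW hWint hH
    rw [hMM] at hV
    obtain ⟨u, rfl⟩ := hV
    refine ⟨j, u, ⟨hη.injective ?_, hη.injective ?_⟩, fun x => ?_⟩
    · rw [map_mul, map_star, map_one]; exact hVu.1
    · rw [map_mul, map_star, map_one]; exact hVu.2
    · obtain ⟨y, hy, hy'⟩ := hVP x
      have : star u * ι x * u = y := hη.injective (by
        rw [map_mul, map_mul, map_star]; exact hy'.symm)
      rw [this]; exact hy

/-- Malnormality of the members of a free family. -/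
theorem subGen_singleton {K : Type*} {Q : K → StarSubalgebra ℂ A} (hvn : ∀ i, VNSub (Q i))
    (i : K) : subGen Q {i} = Q i := by
  apply le_antisymm
  · apply vnGen_le _ (hvn i)
    intro x hx
    simpa using hx
  · intro x hx
    apply subset_vnGen
    simpa using hx

theorem malnormal {K : Type*} {Q : K → StarSubalgebra ℂ A} (hvn : ∀ i, VNSub (Q i))
    (hfree : FreeFam Q) (gen : ∀ x : A, x ∈ vnGen (⋃ i, (Q i : Set A))) {i i' : K}
    {a : FreeGroup (Fin 16) → A} (ha : IsFreeRep a) (haQ : ∀ g, a g ∈ Q i) {y : A}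
    (hy : IsUn y) (h : ∀ x ∈ Q i, star y * x * y ∈ Q i') : i = i' ∧ y ∈ Q i := by
  have hb : IsFreeRep (fun g => star y * a g * y) := by
    refine ⟨?_, fun g h => ?_, fun g => ?_, fun g hg => ?_⟩
    · show star y * a 1 * y = 1
      rw [ha.1, mul_one, hy.1]
    · show star y * a (g * h) * y = (star y * a g * y) * (star y * a h * y)
      rw [ha.2.1]
      calc star y * (a g * a h) * y = star y * a g * 1 * a h * y := by
            simp only [mul_assoc, one_mul]
        _ = _ := by rw [← hy.2]; simp only [mul_assoc]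
    · exact (hy.star.mul (ha.2.2.1 g)).mul hy
    · show tr (star y * a g * y) = 0
      rw [mul_assoc, tr_mul_comm, mul_assoc, hy.2, mul_one, ha.2.2.2 g hg]
  have hfix : ∀ k, a (FreeGroup.of k) * y *
      star ((fun g => star y * a g * y) (FreeGroup.of k)) = y := by
    intro k
    show a (FreeGroup.of k) * y * star (star y * a (FreeGroup.of k) * y) = y
    rw [star_mul, star_mul, star_star]
    calc a (FreeGroup.of k) * y * (star y * (star (a (FreeGroup.of k)) * y))
        = a (FreeGroup.of k) * (y * star y) * star (a (FreeGroup.of k)) * y := by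
          simp only [mul_assoc]
      _ = y := by rw [hy.2, mul_one, (ha.2.2.1 _).2, one_mul]
  by_cases hii : i = i'
  · subst hii
    refine ⟨rfl, ?_⟩
    have := mem_of_commute_free hfree gen {i} ha hb
      (fun g => by rw [subGen_singleton hvn]; exact haQ g)
      (fun g => by rw [subGen_singleton hvn]; exact h _ (haQ g)) hfix
    rwa [subGen_singleton hvn] at this
  · exfalso
    have h0 : y = 0 := eq_zero_of_gap (a := a) (b := fun g => star y * a g * y) hfix (gap_disj hfree gen {i} {i'}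
      (Set.disjoint_singleton.mpr hii) ha hb
      (fun g => by rw [subGen_singleton hvn]; exact haQ g)
      (fun g => by rw [subGen_singleton hvn]; exact h _ (haQ g)) y)
    have h1 := hy.1
    rw [h0, mul_zero] at h1
    have h2 : tr (1 : A) = 0 := by rw [← h1, map_zero]
    rw [tr_one'] at h2
    exact one_ne_zero h2

/-- Irreducibility of the members of a free family of factors. -/
theorem member_irreducible {K : Type*} {Q : K → StarSubalgebra ℂ A} (hvn : ∀ i, VNSub (Q i))
    (hfree : FreeFam Q) (gen : ∀ x : A, x ∈ vnGen (⋃ i, (Q i : Set A))) {i : K}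
    (hfac : IsFac (Q i)) {a : FreeGroup (Fin 16) → A} (ha : IsFreeRep a)
    (haQ : ∀ g, a g ∈ Q i) {y : A} (hy : ∀ x ∈ Q i, y * x = x * y) :
    ∃ c : ℂ, y = c • (1 : A) := by
  have h1 : y ∈ subGen Q {i} := by
    refine mem_of_commute_free hfree gen {i} ha ha
      (fun g => by rw [subGen_singleton hvn]; exact haQ g)
      (fun g => by rw [subGen_singleton hvn]; exact haQ g) (fun k => ?_)
    rw [← hy _ (haQ _), mul_assoc, (ha.2.2.1 _).2, mul_one]
  rw [subGen_singleton hvn] at h1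
  exact hfac y h1 hy

end Pool.Agent.KUR
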