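import Pool.Agent.KUR.Basic2

/-!
# KUR Spec: spectral projections inside a tracial von Neumann algebra

PROOF.  Let `h` be self-adjoint.  Every norm closed star subalgebra containing `h` contains
`cfc f h` for every continuous `f : ℝ → ℝ`; VNSubs are norm closed (`VNSub.isClosed`).

BASE LEMMA.  For `c : ℝ` and k ≥ 1 let `F k : ℝ → ℝ` be the continuous function equal to 0 for
`t ≤ c - 1/k`, to 1 for `t ≥ c`, linear in between (`F k t = max 0 (min 1 (1 + k (t - c)))`).
`F (k+1) ≤ F k` for increasing k, `0 ≤ F k ≤ 1`.  The sequence `cfc (F k) h` is decreasing, so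
`tr` of it converges, and for `k ≤ l`, `n2 (cfc (F k) h - cfc (F l) h)^2 = tr ((F k - F l)^2 h)
≤ tr ((F k - F l) h)` is small: 2-norm Cauchy, all norms ≤ 1.  Let `e` be the limit
(`complete_ball`).  Then `e` lies in every VNSub containing `h`, `star e = e`, and `e * e = e`:
`cfc (F k) h * e = e` since `‖F k F l - F l‖`-type estimate: for `l` fixed multiple of `k`, the
function `F k * F l - F l` tends to zero pointwise; more simply
`n2 (F l (h) * F l (h) - F l (h))^2 ≤ n2(F l(h) - F m(h))^2`-type bounds: `F m ≤ F l^2` on ℝ as soon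
as `m ≥ 2 l`?  (For t ≤ c - 1/m both `F m t = 0`; for t ≥ c - 1/m with m large,
`F l t ≥ 1 - l/m`, so `F l^2 ≥ (1 - l/m)^2`.)  Either way
`0 ≤ F l - F l^2 ≤ (F l - F m) + 2 l/m`, so letting first m → ∞ and then l → ∞ gives `e * e = e`.

(a) `near_proj`: take `c = 1/2`; for `l ≥ 1` and all real `t`:
`|F l t - t| ≤ 2 |t^2 - t| + 2/l` (check the four regions), and on the whole line
`(F l t - t)^2 ≤ (2|t^2 - t| + 2/l)^2`.  Hence `n2 (cfc (F l) x - x) ≤ 2 n2 (x*x - x) + 2/l`
(`n2 (cfc f x) ≤ n2 (cfc g x)` if `|f| ≤ g` on the spectrum: `g^2 - f^2 ≥ 0` there and traces of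
positive elements are ≥ 0, `tr_re_nonneg_of_nonneg`).  Let l → ∞.
[The pointwise bound: for t ≥ 1/2, F = 1 and |1-t| ≤ 2 t |1-t|; for t ≤ 1/2 - 1/l, F = 0 and
|t| ≤ 2 |t| |1-t|; in the window `1/2 - 1/l ≤ t ≤ 1/2`: |F - t| ≤ 1 - t ≤ 2 t(1-t) + 2(1-t)(1/2-t)
≤ 2|t^2-t| + 2/l · (1 - t) ... adjust constants if needed, any bound `2|t^2-t| + C/l` is fine.]

(b) `layer`: for `i = 1..n` let `e i` be the spectral projection with `c = i/n`.  For `l ≥ n` the
function `G t = (1/n) ∑ F_{l, i/n} t` satisfies `|t - G t| ≤ 1/n` for `t ∈ [0,1]`.  So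
`‖h - cfc G h‖ ≤ 1/n` and `cfc G h → (1/n) ∑ e i` in the 2-norm; `norm_le_of_n2_lim`.
-/

open Filter Topology

namespace Pool.Agent.KUR

universe u
variable {M : Type u} [CStarAlgebra M] [TVN M]

/-! ### Traces of functions of a self-adjoint element -/

private theorem Spec_tr_mono {h : M} {f g : ℝ → ℝ} (hf : Continuous f)
    (hg : Continuous g) (hfg : ∀ t ∈ spectrum ℝ h, f t ≤ g t) :
    (tr (cfc f h)).re ≤ (tr (cfc g h)).re := by
  let _ : PartialOrder M := CStarAlgebra.spectralOrder M
  have _ : StarOrderedRing M := CStarAlgebra.spectralOrderedRing M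
  have h1 : cfc f h ≤ cfc g h := cfc_mono hfg hf.continuousOn hg.continuousOn
  have h2 := tr_re_nonneg_of_nonneg (sub_nonneg.2 h1)
  rw [map_sub, Complex.sub_re] at h2
  linarith

private theorem Spec_tr_sub {h : M} {f g : ℝ → ℝ} (hf : Continuous f) (hg : Continuous g) :
    (tr (cfc (fun t => f t - g t) h)).re = (tr (cfc f h)).re - (tr (cfc g h)).re := by
  rw [cfc_sub (a := h) f g hf.continuousOn hg.continuousOn, map_sub, Complex.sub_re]

private theorem Spec_n2_sq {h : M} {f : ℝ → ℝ} (hf : Continuous f) :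
    n2 (cfc f h) ^ 2 = (tr (cfc (fun t => f t * f t) h)).re := by
  have h1 : star (cfc f h) = cfc f h := cfc_predicate f h
  rw [n2_sq, h1, cfc_mul f f h hf.continuousOn hf.continuousOn]

private theorem Spec_n2_le {h : M} {f g : ℝ → ℝ} (hf : Continuous f) (hg : Continuous g)
    (hfg : ∀ t ∈ spectrum ℝ h, |f t| ≤ |g t|) : n2 (cfc f h) ≤ n2 (cfc g h) := by
  refine abs_le_of_sq_le_sq' ?_ (n2_nonneg _) |>.2
  rw [Spec_n2_sq hf, Spec_n2_sq hg]
  refine Spec_tr_mono (by fun_prop) (by fun_prop) fun t ht => ?_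
  have := mul_self_le_mul_self (abs_nonneg _) (hfg t ht)
  rwa [abs_mul_abs_self, abs_mul_abs_self] at this

private theorem Spec_mem {h : M} (f : ℝ → ℝ) {S : StarSubalgebra ℂ M} (hS : VNSub S)
    (hh : h ∈ S) : cfc f h ∈ S := by
  have hc : IsClosed (S : Set M) := hS.isClosed
  exact cfc_mem (𝕜' := ℂ) f hh

/-- Piecewise linear approximation of the indicator function of `[c, ∞)`. -/
private noncomputable def specF (c : ℝ) (k : ℕ) (t : ℝ) : ℝ := max 0 (min 1 (1 + k * (t - c)))

private theorem specF_cont (c : ℝ) (k : ℕ) : Continuous (specF c k) := by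
  unfold specF
  fun_prop

private theorem specF_nonneg (c : ℝ) (k : ℕ) (t : ℝ) : 0 ≤ specF c k t := le_max_left _ _

private theorem specF_le_one (c : ℝ) (k : ℕ) (t : ℝ) : specF c k t ≤ 1 :=
  max_le zero_le_one (min_le_left _ _)

private theorem specF_ge {c : ℝ} {k : ℕ} {t : ℝ} (h : c ≤ t) : specF c k t = 1 := by
  unfold specF
  have h1 : 0 ≤ (k : ℝ) * (t - c) := mul_nonneg (Nat.cast_nonneg _) (by linarith)
  rw [min_eq_left (by linarith), max_eq_right zero_le_one]

private theorem specF_lt {c : ℝ} {k : ℕ} {t : ℝ} (h : t ≤ c) :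
    specF c k t = max 0 (1 + k * (t - c)) := by
  unfold specF
  have h1 : 0 ≤ (k : ℝ) * (c - t) := mul_nonneg (Nat.cast_nonneg _) (by linarith)
  rw [min_eq_right (by nlinarith)]

private theorem specF_anti {c : ℝ} {k l : ℕ} (hkl : k ≤ l) (t : ℝ) :
    specF c l t ≤ specF c k t := by
  rcases le_total c t with h | h
  · rw [specF_ge h, specF_ge h]
  · rw [specF_lt h, specF_lt h]
    have h1 : (k : ℝ) ≤ l := by exact_mod_cast hkl
    refine max_le_max le_rfl ?_
    nlinarith

private theorem specF_two {c : ℝ} (k : ℕ) (t : ℝ) :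
    specF c (2 * k) t ≤ specF c k t * specF c k t := by
  rcases le_total c t with h | h
  · rw [specF_ge h, specF_ge h, mul_one]
  · refine max_le (mul_self_nonneg _) ?_
    refine (min_le_right _ _).trans ?_
    have h1 : 1 + (k : ℝ) * (t - c) ≤ specF c k t := by
      rw [specF_lt h]
      exact le_max_right _ _
    push_cast
    rcases le_total 0 (1 + (k : ℝ) * (t - c)) with h2 | h2
    · have h3 := mul_self_le_mul_self h2 h1
      nlinarith [sq_nonneg ((k : ℝ) * (t - c))]
    · have h3 := mul_self_nonneg (specF c k t)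
      nlinarith [mul_nonneg (Nat.cast_nonneg (α := ℝ) k) (sub_nonneg.2 h)]

/-- The spectral projection of `h` for `[c, ∞)`, as a limit. -/
private theorem Spec_base (h : M) (c : ℝ) :
    ∃ e : M, IsProj e ∧ (∀ S : StarSubalgebra ℂ M, VNSub S → h ∈ S → e ∈ S) ∧
      Tendsto (fun k => n2 (cfc (specF c k) h - e)) atTop (𝓝 0) := by
  set x : ℕ → M := fun k => cfc (specF c k) h with hx
  have hnorm : ∀ k, ‖x k‖ ≤ 1 := fun k =>
    norm_cfc_le zero_le_one fun t _ => by
      rw [Real.norm_eq_abs, abs_of_nonneg (specF_nonneg _ _ _)]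
      exact specF_le_one _ _ _
  set a : ℕ → ℝ := fun k => (tr (x k)).re with ha
  have hanti : Antitone a := fun k l hkl =>
    Spec_tr_mono (specF_cont c l) (specF_cont c k) fun t _ => specF_anti hkl t
  have hnn : ∀ k, 0 ≤ a k := by
    intro k
    have h1 := Spec_tr_mono (h := h) (f := fun _ => 0) continuous_const (specF_cont c k)
      fun t _ => specF_nonneg c k t
    have h2 : cfc (fun _ : ℝ => (0 : ℝ)) h = 0 := cfc_const_zero ℝ h
    rw [h2, map_zero, Complex.zero_re] at h1
    exact h1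
  have hlim : ∃ l, Tendsto a atTop (𝓝 l) :=
    ⟨_, tendsto_atTop_ciInf hanti ⟨0, by rintro _ ⟨k, rfl⟩; exact hnn k⟩⟩
  obtain ⟨l, hl⟩ := hlim
  have hdist : ∀ k m, k ≤ m → n2 (x k - x m) ^ 2 ≤ a k - a m := by
    intro k m hkm
    have h1 : x k - x m = cfc (fun t => specF c k t - specF c m t) h := by
      rw [cfc_sub (a := h) _ _ (specF_cont c k).continuousOn (specF_cont c m).continuousOn]
    rw [h1, Spec_n2_sq (by have := specF_cont c k; have := specF_cont c m; fun_prop),
      ← Spec_tr_sub (specF_cont c k) (specF_cont c m)]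
    refine Spec_tr_mono (by have := specF_cont c k; have := specF_cont c m; fun_prop)
      (by have := specF_cont c k; have := specF_cont c m; fun_prop) fun t _ => ?_
    have h2 := specF_anti (c := c) hkm t
    have h3 := specF_nonneg c m t
    have h4 := specF_le_one c k t
    nlinarith
  obtain ⟨e, he1, he⟩ := complete_ball x 1 hnorm (by
    intro ε hε
    have h1 : Tendsto (fun k => a k - l) atTop (𝓝 0) := by simpa using hl.sub_const l
    obtain ⟨n₀, hn₀⟩ := (Metric.tendsto_atTop.1 h1) (ε ^ 2) (by positivity)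
    have h2 : ∀ k m, n₀ ≤ k → k ≤ m → n2 (x k - x m) < ε := by
      intro k m hk hkm
      have h3 := hn₀ k hk
      rw [Real.dist_eq, sub_zero] at h3
      have h4 := (abs_lt.1 h3).2
      have h5 : l ≤ a m := hanti.le_of_tendsto hl m
      have h6 := hdist k m hkm
      exact lt_of_pow_lt_pow_left₀ 2 hε.le (by linarith)
    refine ⟨n₀, fun m n hm hn => ?_⟩
    rcases le_total m n with h | h
    · exact h2 m n hm h
    · rw [n2_sub_comm]
      exact h2 n m hn h)
  refine ⟨e, ⟨?_, ?_⟩, ?_, he⟩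
  · have h1 := n2_lim_star he
    have h2 : ∀ k, star (x k) = x k := fun k => cfc_predicate (specF c k) h
    simp only [h2] at h1
    exact eq_of_n2_lim h1 he
  · have h1 := n2_lim_mul hnorm he he
    have h2 : Tendsto (fun k => n2 (x k * x k - e)) atTop (𝓝 0) := by
      have h3 : Tendsto (fun k => Real.sqrt (a k - a (2 * k)) + n2 (x k - e)) atTop (𝓝 0) := by
        have h4 : Tendsto (fun k => a k - a (2 * k)) atTop (𝓝 0) := by
          have := hl.sub (hl.comp (tendsto_id.const_mul_atTop' (by norm_num : 0 < 2)))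
          simpa using this
        have h5 := (Real.continuous_sqrt.tendsto 0).comp h4
        rw [Real.sqrt_zero] at h5
        simpa using h5.add he
      refine squeeze_zero (fun k => n2_nonneg _) (fun k => ?_) h3
      refine (n2_sub_le_sub _ (x k) _).trans (add_le_add ?_ le_rfl)
      refine Real.le_sqrt_of_sq_le ?_
      have h4 : x k * x k - x k = cfc (fun t => specF c k t * specF c k t - specF c k t) h := by
        rw [cfc_sub (a := h) _ _ (by have := specF_cont c k; fun_prop)
          (specF_cont c k).continuousOn,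
          cfc_mul _ _ h (specF_cont c k).continuousOn (specF_cont c k).continuousOn]
      rw [h4, Spec_n2_sq (by have := specF_cont c k; fun_prop),
        ← Spec_tr_sub (specF_cont c k) (specF_cont c (2 * k))]
      refine Spec_tr_mono (by have := specF_cont c k; fun_prop)
        (by have := specF_cont c k; have := specF_cont c (2 * k); fun_prop) fun t _ => ?_
      have h5 := specF_two (c := c) k t
      have h6 := specF_nonneg c k t
      have h7 := specF_le_one c k t
      have h8 : specF c k t * specF c k t ≤ specF c k t := by nlinarith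
      have h9 : specF c k t - specF c k t * specF c k t ≤ 1 := by nlinarith [mul_self_nonneg (specF c k t)]
      nlinarith
    exact eq_of_n2_lim h1 h2
  · intro S hS hhS
    exact hS x e 1 (fun k => Spec_mem _ hS hhS) hnorm he

private theorem specF_half {l : ℕ} (hl : 2 ≤ l) (t : ℝ) :
    |specF (1 / 2) l t - t| ≤ 2 * |t * t - t| + 2 / l := by
  have hl0 : (0 : ℝ) < l := by
    have : (2 : ℝ) ≤ l := by exact_mod_cast hl
    linarith
  have hl2 : (2 : ℝ) ≤ l := by exact_mod_cast hl
  have hq : 0 ≤ 2 / (l : ℝ) := by positivity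
  have he : |t * t - t| = |t| * |1 - t| := by
    rw [← abs_mul, show t * (1 - t) = -(t * t - t) by ring, abs_neg]
  rcases le_total (1 / 2) t with h | h
  · rw [specF_ge h, he, abs_of_nonneg (by linarith : (0 : ℝ) ≤ t)]
    have := abs_nonneg (1 - t)
    nlinarith
  · rcases le_total t (1 / 2 - 1 / l) with h1 | h1
    · have h2 : specF (1 / 2) l t = 0 := by
        rw [specF_lt h]
        refine max_eq_left ?_
        have h3 : (l : ℝ) * (t - 1 / 2) ≤ l * (-(1 / l)) :=
          mul_le_mul_of_nonneg_left (by linarith) hl0.le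
        have h4 : (l : ℝ) * (-(1 / l)) = -1 := by field_simp
        linarith
      rw [h2, he, zero_sub, abs_neg, abs_of_nonneg (by linarith : (0 : ℝ) ≤ 1 - t)]
      have := abs_nonneg t
      nlinarith
    · have h2 : (1 : ℝ) / l ≤ 1 / 2 := one_div_le_one_div_of_le (by norm_num) hl2
      have ht0 : 0 ≤ t := by linarith
      have h3 := specF_nonneg (1 / 2) l t
      have h4 := specF_le_one (1 / 2) l t
      have h5 : |specF (1 / 2) l t - t| ≤ 1 - t := abs_le.2 ⟨by linarith, by linarith⟩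
      rw [he, abs_of_nonneg ht0, abs_of_nonneg (by linarith : (0 : ℝ) ≤ 1 - t)]
      have h6 : 2 / (l : ℝ) = 2 * (1 / l) := by ring
      nlinarith

theorem near_proj {x : M} (hx : star x = x) :
    ∃ e : M, IsProj e ∧ (∀ S : StarSubalgebra ℂ M, VNSub S → x ∈ S → e ∈ S) ∧
      n2 (e - x) ≤ 2 * n2 (x * x - x) := by
  have hsa : IsSelfAdjoint x := hx
  obtain ⟨e, he, heS, hlim⟩ := Spec_base x (1 / 2)
  refine ⟨e, he, heS, ?_⟩
  have hxx : x * x - x = cfc (fun t : ℝ => t * t - t) x := by
    rw [cfc_sub (a := x) _ _ (by fun_prop) (by fun_prop), cfc_mul _ _ x (by fun_prop) (by fun_prop),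
      cfc_id' ℝ x]
  have key : ∀ l : ℕ, 2 ≤ l → n2 (cfc (specF (1 / 2) l) x - x) ≤
      2 * n2 (x * x - x) + 2 / l := by
    intro l hl
    have h1 : cfc (specF (1 / 2) l) x - x = cfc (fun t => specF (1 / 2) l t - t) x := by
      rw [cfc_sub (a := x) _ _ (specF_cont _ _).continuousOn (by fun_prop), cfc_id' ℝ x]
    have hl0 : 0 ≤ 2 / (l : ℝ) := by positivity
    have h2 : n2 (cfc (fun t => specF (1 / 2) l t - t) x) ≤
        n2 (cfc (fun t : ℝ => 2 * |t * t - t| + 2 / l) x) := by
      refine Spec_n2_le (by have := specF_cont (1 / 2) l; fun_prop) (by fun_prop) fun t _ => ?_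
      rw [abs_of_nonneg (a := 2 * |t * t - t| + 2 / (l : ℝ)) (by positivity)]
      exact specF_half hl t
    have h3 : cfc (fun t : ℝ => 2 * |t * t - t| + 2 / l) x =
        (2 : ℂ) • cfc (fun t : ℝ => |t * t - t|) x + ((2 / l : ℝ) : ℂ) • (1 : M) := by
      rw [cfc_add (a := x) _ _ (by fun_prop) (by fun_prop), cfc_const _ x hsa,
        cfc_const_mul _ _ x (by fun_prop), Algebra.algebraMap_eq_smul_one]
      rw [← Complex.coe_smul, ← Complex.coe_smul]
      norm_num
    have h4 : n2 (cfc (fun t : ℝ => |t * t - t|) x) ≤ n2 (x * x - x) := by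
      rw [hxx]
      exact Spec_n2_le (by fun_prop) (by fun_prop) fun t _ => by rw [abs_abs]
    rw [h1]
    refine h2.trans ?_
    rw [h3]
    refine (n2_add_le _ _).trans ?_
    rw [n2_smul, n2_smul, n2_one, mul_one, Complex.norm_real, Real.norm_eq_abs,
      abs_of_nonneg hl0]
    have h5 : ‖(2 : ℂ)‖ = 2 := by norm_num
    rw [h5]
    linarith
  have hlim2 : Tendsto (fun l : ℕ => n2 (cfc (specF (1 / 2) l) x - e) +
      (2 * n2 (x * x - x) + 2 / l)) atTop (𝓝 (2 * n2 (x * x - x))) := by
    have h1 : Tendsto (fun l : ℕ => 2 / (l : ℝ)) atTop (𝓝 0) := tendsto_const_div_atTop_nhds_zero_nat 2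
    simpa using hlim.add (h1.const_add (2 * n2 (x * x - x)))
  refine ge_of_tendsto hlim2 ?_
  filter_upwards [eventually_ge_atTop 2] with l hl
  refine (n2_sub_le_sub e (cfc (specF (1 / 2) l) x) x).trans ?_
  rw [n2_sub_comm e]
  exact add_le_add le_rfl (key l hl)

/-! ### Layers -/

private noncomputable def clmp (s : ℝ) : ℝ := max 0 (min 1 s)

private theorem sum_clmp (m : ℕ) {s : ℝ} (hs : 0 ≤ s) :
    ∑ i ∈ Finset.range m, clmp (s - i) = min s m := by
  induction m with
  | zero =>
    rw [Finset.sum_range_zero, Nat.cast_zero, min_eq_right hs]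
  | succ m ih =>
    rw [Finset.sum_range_succ, ih]
    unfold clmp
    push_cast
    rcases le_total s m with h | h
    · rw [min_eq_left h, min_eq_right (by linarith : s - m ≤ 1), max_eq_left (by linarith),
        min_eq_left (by linarith), add_zero]
    · rcases le_total s (m + 1) with h1 | h1
      · rw [min_eq_right h, min_eq_right (by linarith : s - m ≤ 1), max_eq_right (by linarith),
          min_eq_left h1]
        ring
      · rw [min_eq_right h, min_eq_left (by linarith : (1 : ℝ) ≤ s - m), max_eq_right zero_le_one,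
          min_eq_right h1]

private theorem specF_bounds {n l : ℕ} (hn : 0 < n) (hl : n ≤ l) (i : ℕ) (t : ℝ) :
    clmp (n * t - (i + 1 : ℕ)) ≤ specF ((i + 1 : ℝ) / n) l t ∧
      specF ((i + 1 : ℝ) / n) l t ≤ clmp (n * t - i) := by
  have hn0 : (0 : ℝ) < n := by exact_mod_cast hn
  have hl0 : (n : ℝ) ≤ l := by exact_mod_cast hl
  set c : ℝ := (i + 1 : ℝ) / n with hc
  have hnc : (n : ℝ) * c = i + 1 := by
    rw [hc]
    field_simp
  unfold clmp
  push_cast
  rcases le_total c t with h | h
  · rw [specF_ge h]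
    refine ⟨max_le zero_le_one (min_le_left _ _), ?_⟩
    have h1 : (n : ℝ) * c ≤ n * t := mul_le_mul_of_nonneg_left h hn0.le
    rw [min_eq_left (by linarith), max_eq_right zero_le_one]
  · have h1 : (n : ℝ) * t ≤ n * c := mul_le_mul_of_nonneg_left h hn0.le
    rw [specF_lt h]
    constructor
    · refine max_le (le_max_left _ _) ?_
      refine (min_le_right _ _).trans (le_trans ?_ (le_max_left _ _))
      linarith
    · refine max_le_max le_rfl (le_min ?_ ?_)
      · nlinarith
      · nlinarith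

private theorem layer_bound {n l : ℕ} (hn : 0 < n) (hl : n ≤ l) {t : ℝ} (ht0 : 0 ≤ t)
    (ht1 : t ≤ 1) :
    |t - (1 / n) * ∑ i : Fin n, specF (((i : ℕ) + 1 : ℝ) / n) l t| ≤ 1 / n := by
  have hn0 : (0 : ℝ) < n := by exact_mod_cast hn
  rw [Fin.sum_univ_eq_sum_range (fun i : ℕ => specF ((i + 1 : ℝ) / n) l t) n]
  have hnt : 0 ≤ (n : ℝ) * t := mul_nonneg hn0.le ht0
  have hnt1 : (n : ℝ) * t ≤ n := by nlinarith
  have h1 : ∑ i ∈ Finset.range n, specF ((i + 1 : ℝ) / n) l t ≤ n * t := by
    calc ∑ i ∈ Finset.range n, specF ((i + 1 : ℝ) / n) l t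
        ≤ ∑ i ∈ Finset.range n, clmp (n * t - i) :=
          Finset.sum_le_sum fun i _ => (specF_bounds hn hl i t).2
      _ = n * t := by rw [sum_clmp n hnt, min_eq_left hnt1]
  have h2 : n * t - 1 ≤ ∑ i ∈ Finset.range n, specF ((i + 1 : ℝ) / n) l t := by
    have h3 : ∑ i ∈ Finset.range n, clmp (n * t - (i + 1 : ℕ)) =
        ∑ i ∈ Finset.range (n + 1), clmp (n * t - i) - clmp (n * t - (0 : ℕ)) := by
      rw [Finset.sum_range_succ' (fun i : ℕ => clmp (n * t - i))]
      ring
    have h4 : clmp (n * t - (0 : ℕ)) ≤ 1 := max_le zero_le_one (min_le_left _ _)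
    have h5 : ∑ i ∈ Finset.range (n + 1), clmp (n * t - i) = n * t := by
      rw [sum_clmp (n + 1) hnt, min_eq_left]
      push_cast
      linarith
    calc n * t - 1 ≤ ∑ i ∈ Finset.range n, clmp (n * t - (i + 1 : ℕ)) := by
          rw [h3, h5]
          linarith
      _ ≤ _ := Finset.sum_le_sum fun i _ => (specF_bounds hn hl i t).1
  have h6 : t = (1 / n) * (n * t) := by field_simp
  have h7 : t - (1 / n) * ∑ i ∈ Finset.range n, specF ((i + 1 : ℝ) / n) l t =
      (1 / n) * (n * t - ∑ i ∈ Finset.range n, specF ((i + 1 : ℝ) / n) l t) := by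
    rw [mul_sub, ← h6]
  rw [h7, abs_mul, abs_of_pos (by positivity : (0 : ℝ) < 1 / n)]
  have h8 : |n * t - ∑ i ∈ Finset.range n, specF ((i + 1 : ℝ) / n) l t| ≤ 1 :=
    abs_le.2 ⟨by linarith, by linarith⟩
  calc (1 / n : ℝ) * |n * t - ∑ i ∈ Finset.range n, specF ((i + 1 : ℝ) / n) l t|
      ≤ (1 / n) * 1 := mul_le_mul_of_nonneg_left h8 (by positivity)
    _ = 1 / n := mul_one _

theorem layer {h : M} (hpos : ∃ a : M, h = star a * a) (h1 : ‖h‖ ≤ 1) {n : ℕ} (hn : 0 < n) :
    ∃ e : Fin n → M, (∀ i, IsProj (e i)) ∧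
      (∀ i (S : StarSubalgebra ℂ M), VNSub S → h ∈ S → e i ∈ S) ∧
      ‖h - (1 / (n : ℂ)) • ∑ i, e i‖ ≤ 1 / n := by
  have hsa : IsSelfAdjoint h := by
    obtain ⟨a, rfl⟩ := hpos
    exact IsSelfAdjoint.star_mul_self a
  have hspec : ∀ t ∈ spectrum ℝ h, 0 ≤ t ∧ t ≤ 1 := by
    let _ : PartialOrder M := CStarAlgebra.spectralOrder M
    have _ : StarOrderedRing M := CStarAlgebra.spectralOrderedRing M
    have hnn : 0 ≤ h := CStarAlgebra.nonneg_iff_eq_star_mul_self.mpr hpos
    intro t ht
    refine ⟨spectrum_nonneg_of_nonneg hnn ht, ?_⟩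
    have h2 := spectrum.norm_le_norm_mul_of_mem ht
    rw [Real.norm_eq_abs] at h2
    have h3 : ‖h‖ * ‖(1 : M)‖ ≤ 1 * 1 :=
      mul_le_mul h1 isUn_one.norm_le_one (norm_nonneg _) zero_le_one
    rw [mul_one] at h3
    exact (le_abs_self t).trans (h2.trans h3)
  choose e he heS hlim using fun i : Fin n => Spec_base h (((i : ℕ) + 1 : ℝ) / n)
  refine ⟨e, he, heS, ?_⟩
  -- the approximations
  set G : ℕ → M := fun l => (1 / (n : ℂ)) • ∑ i : Fin n, cfc (specF (((i : ℕ) + 1 : ℝ) / n) l) h
    with hG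
  have hGc : ∀ l, G l =
      cfc (fun t => (1 / n) * ∑ i : Fin n, specF (((i : ℕ) + 1 : ℝ) / n) l t) h := by
    intro l
    rw [cfc_const_mul _ _ h (by
      refine Continuous.continuousOn ?_
      exact continuous_finsetSum _ fun i _ => specF_cont _ _)]
    have e1 : (fun t => ∑ i : Fin n, specF (((i : ℕ) + 1 : ℝ) / n) l t) =
        ∑ i : Fin n, specF (((i : ℕ) + 1 : ℝ) / n) l := by
      funext t
      rw [Finset.sum_apply]
    rw [e1, cfc_sum (R := ℝ) (a := h) (fun i : Fin n => specF (((i : ℕ) + 1 : ℝ) / n) l)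
      Finset.univ (fun i _ => (specF_cont _ _).continuousOn)]
    rw [hG, ← Complex.coe_smul]
    push_cast
    rfl
  have hGn : ∀ l : ℕ, ‖h - G (l + n)‖ ≤ 1 / n := by
    intro l
    have hcont : Continuous fun t : ℝ =>
        (1 / n) * ∑ i : Fin n, specF (((i : ℕ) + 1 : ℝ) / n) (l + n) t :=
      continuous_const.mul (continuous_finsetSum _ fun i _ => specF_cont _ _)
    have h2 : h - G (l + n) = cfc (fun t : ℝ => t -
        (1 / n) * ∑ i : Fin n, specF (((i : ℕ) + 1 : ℝ) / n) (l + n) t) h := by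
      rw [cfc_sub (a := h) _ _ (by fun_prop) hcont.continuousOn, cfc_id' ℝ h, hGc]
    rw [h2]
    refine norm_cfc_le (by positivity) fun t ht => ?_
    rw [Real.norm_eq_abs]
    exact layer_bound hn (Nat.le_add_left n l) (hspec t ht).1 (hspec t ht).2
  have hGlim : Tendsto (fun l => n2 (G l - (1 / (n : ℂ)) • ∑ i, e i)) atTop (𝓝 0) := by
    refine n2_lim_smul _ ?_
    have : ∀ s : Finset (Fin n), Tendsto (fun l => n2 (∑ i ∈ s,
        cfc (specF (((i : ℕ) + 1 : ℝ) / n) l) h - ∑ i ∈ s, e i)) atTop (𝓝 0) := by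
      intro s
      classical
      induction s using Finset.induction_on with
      | empty => simp [n2_zero]
      | insert i s hi ih =>
        simp only [Finset.sum_insert hi]
        exact n2_lim_add (hlim i) ih
    exact this Finset.univ
  have hGlim' : Tendsto (fun l => n2 (G (l + n) - (1 / (n : ℂ)) • ∑ i, e i)) atTop (𝓝 0) :=
    hGlim.comp (tendsto_add_atTop_nat n)
  refine norm_le_of_n2_lim (x := fun l => h - G (l + n)) hGn ?_
  refine hGlim'.congr fun l => ?_
  rw [n2_sub_comm]
  congr 1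
  abel

end Pool.Agent.KUR
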