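import Pool.Agent.KUR.UltF
import Pool.Agent.KUR.GrpR
import Pool.Agent.KUR.FGr
import Pool.Agent.KUR.Spec

/-!
# KUR LemC: many commuting projections together with a commuting free group

PROOF.  Let `π` be as in `IsUltrapower.basic`.
(1) Construct inductively sequences `P m : ℕ → N` (m = 0, 1, 2, ...) such that every `P m n` is a
projection, `P l n` and `P m n` commute for all `l, m, n`, and `R m (π (P m))`.  Given `P l`, l < m:
apply `hR` to the list of the commuting projections `π (P l)`, l < m, to get a projection `p ∈ Q`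
commuting with them, `R m p`.  Write `p = π x`, replace `x` by `(x + star x)/2`, so every `x n` is
self-adjoint.  For one projection `q ∈ N` let `E_q y = q y q + (1-q) y (1-q)` (commutes with `q`; if
`y` commutes with `q'` and `q q' = q' q` so does `E_q y`; bounded by `2‖y‖`).  Let
`x' n = E_{P 0 n} (... E_{P (m-1) n} (x n))`.  `π x' = E_{π P 0} ( ... p) = p` since `p` commutes with the
`π (P l)`.  By `near_proj` let `P m n` be a projection in every VNSub containing `x' n` (in
particular commuting with all `P l n`, l < m, by `vnSub_centralizer`) with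
`n2 (P m n - x' n) ≤ 2 n2 (x' n * x' n - x' n)`.  The right side tends to `2 n2 (p*p - p) = 0` along
`U`, so `π (P m) = π x' = p`.
(2) `FreeGroup (Fin 16)` is countable, let `T n` be an increasing sequence of finite sets of
elements ≠ 1 exhausting all elements ≠ 1.  `freeGroup_finite_quot` gives finite groups `Γ n` and
`φ n` with `φ n g ≠ 1` for `g ∈ T n`.  `group_rep` for `N`, the list `[P 0 n, ..., P n n]` and `Γ n`
gives `ρ n`.  Put `a g := π (fun n => ρ n (φ n g))`.  Then `a` is multiplicative, unitary valued,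
`a 1 = 1`, and for `g ≠ 1` the traces `tr (ρ n (φ n g))` vanish for all large `n`, so `tr (a g) = 0`
(`hU`: `U` contains all cofinite sets).  `a g` commutes with `π (P m)`: for `n ≥ m` the elements
commute, so the difference of the two products is zero for all large `n`.
-/

open Filter Topology

namespace Pool.Agent.KUR

universe u
variable {N Q : Type u} [CStarAlgebra N] [TVN N] [CStarAlgebra Q] [TVN Q]

set_option linter.unusedSectionVars false

/-! ### Bounded sequences -/

private lemma LemC_bd_add {x y : ℕ → N} (hx : Bd x) (hy : Bd y) : Bd (x + y) := by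
  obtain ⟨C, hC⟩ := hx
  obtain ⟨D, hD⟩ := hy
  exact ⟨C + D, fun n => (norm_add_le _ _).trans (add_le_add (hC n) (hD n))⟩

private lemma LemC_bd_mul {x y : ℕ → N} (hx : Bd x) (hy : Bd y) : Bd (x * y) := by
  obtain ⟨C, hC⟩ := hx
  obtain ⟨D, hD⟩ := hy
  refine ⟨C * D, fun n => (norm_mul_le _ _).trans ?_⟩
  exact mul_le_mul (hC n) (hD n) (norm_nonneg _) ((norm_nonneg _).trans (hC n))

private lemma LemC_bd_smul (c : ℂ) {x : ℕ → N} (hx : Bd x) : Bd (c • x) := by
  obtain ⟨C, hC⟩ := hx
  refine ⟨‖c‖ * C, fun n => ?_⟩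
  rw [Pi.smul_apply, norm_smul]
  exact mul_le_mul_of_nonneg_left (hC n) (norm_nonneg _)

private lemma LemC_bd_star {x : ℕ → N} (hx : Bd x) : Bd (star x) := by
  obtain ⟨C, hC⟩ := hx
  refine ⟨C, fun n => ?_⟩
  rw [Pi.star_apply, norm_star]
  exact hC n

private lemma LemC_bd_one : Bd (1 : ℕ → N) := ⟨‖(1 : N)‖, fun _ => le_rfl⟩

private lemma LemC_bd_proj {x : ℕ → N} (hx : ∀ n, IsProj (x n)) : Bd x :=
  ⟨1, fun n => (hx n).norm_le_one⟩

private lemma LemC_sub_eq (x y : ℕ → N) : x - y = x + (-1 : ℂ) • y := by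
  rw [neg_one_smul, sub_eq_add_neg]

private lemma LemC_bd_sub {x y : ℕ → N} (hx : Bd x) (hy : Bd y) : Bd (x - y) := by
  rw [LemC_sub_eq]
  exact LemC_bd_add hx (LemC_bd_smul _ hy)

/-- The algebraic properties of the quotient map. -/
private structure LemCPi (π : (ℕ → N) → Q) : Prop where
  add : ∀ x y : ℕ → N, Bd x → Bd y → π (x + y) = π x + π y
  mul : ∀ x y : ℕ → N, Bd x → Bd y → π (x * y) = π x * π y
  smul : ∀ (c : ℂ) (x : ℕ → N), Bd x → π (c • x) = c • π x
  star : ∀ x : ℕ → N, Bd x → π (star x) = star (π x)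
  one : π 1 = 1

private lemma LemCPi.sub {π : (ℕ → N) → Q} (h : LemCPi π) {x y : ℕ → N} (hx : Bd x) (hy : Bd y) :
    π (x - y) = π x - π y := by
  rw [LemC_sub_eq, h.add _ _ hx (LemC_bd_smul _ hy), h.smul _ _ hy, neg_one_smul, sub_eq_add_neg]

/-- Making a sequence commute with finitely many commuting projections. -/
private lemma LemC_avg {π : (ℕ → N) → Q} (h : LemCPi π) {p : Q} :
    ∀ L : List (ℕ → N), (∀ q ∈ L, ∀ n, IsProj (q n)) → (∀ q ∈ L, ∀ r ∈ L, q * r = r * q) →
      (∀ q ∈ L, p * π q = π q * p) → ∀ x : ℕ → N, Bd x → star x = x → π x = p →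
      ∃ x' : ℕ → N, Bd x' ∧ star x' = x' ∧ π x' = p ∧ ∀ q ∈ L, q * x' = x' * q
  | [], _, _, _, x, hx, hs, hp => ⟨x, hx, hs, hp, by simp⟩
  | q :: L, hL, hc, hq, x, hx, hs, hp => by
    obtain ⟨y, hy, hys, hyp, hyc⟩ := LemC_avg h L (fun r hr => hL r (by simp [hr]))
      (fun r hr t ht => hc r (by simp [hr]) t (by simp [ht]))
      (fun r hr => hq r (by simp [hr])) x hx hs hp
    have hqP := hL q (by simp)
    have hqb : Bd q := LemC_bd_proj hqP
    have hqs : star q = q := funext fun n => (hqP n).1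
    have hqq : q * q = q := funext fun n => (hqP n).2
    have h1q : Bd (1 - q) := LemC_bd_sub LemC_bd_one hqb
    have hqq' : (1 - q) * (1 - q) = 1 - q := by
      have : (1 - q) * (1 - q) = 1 - q - q + q * q := by noncomm_ring
      rw [this, hqq]
      abel
    have hb1 : Bd (q * y * q) := LemC_bd_mul (LemC_bd_mul hqb hy) hqb
    have hb2 : Bd ((1 - q) * y * (1 - q)) := LemC_bd_mul (LemC_bd_mul h1q hy) h1q
    refine ⟨q * y * q + (1 - q) * y * (1 - q), LemC_bd_add hb1 hb2, ?_, ?_, ?_⟩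
    · simp only [star_add, star_mul, star_sub, star_one, hqs, hys, mul_assoc]
    · have e := hq q (by simp)
      have eqq : π q * π q = π q := by rw [← h.mul _ _ hqb hqb, hqq]
      rw [h.add _ _ hb1 hb2, h.mul _ _ (LemC_bd_mul hqb hy) hqb, h.mul _ _ hqb hy,
        h.mul _ _ (LemC_bd_mul h1q hy) h1q, h.mul _ _ h1q hy, h.sub LemC_bd_one hqb, h.one, hyp]
      have e1 : π q * p * π q = p * π q := by rw [← e, mul_assoc, eqq]
      have e2 : (1 - π q) * p * (1 - π q) = p - p * π q - π q * p + π q * p * π q := by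
        noncomm_ring
      rw [e2, e1, ← e]
      abel
    · intro r hr
      rcases List.mem_cons.1 hr with rfl | hr'
      · have e1 : r * (r * y * r + (1 - r) * y * (1 - r)) =
            (r * r) * y * r + (r - r * r) * y * (1 - r) := by noncomm_ring
        have e2 : (r * y * r + (1 - r) * y * (1 - r)) * r =
            r * y * (r * r) + (1 - r) * y * (r - r * r) := by noncomm_ring
        rw [e1, e2, hqq]
        simp
      · have c1 : r * q = q * r := hc r hr q (by simp)
        have c2 : r * y = y * r := hyc r hr'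
        have c3 : r * (1 - q) = (1 - q) * r := by rw [mul_sub, sub_mul, c1, mul_one, one_mul]
        have f1 : r * (q * y * q) = q * y * q * r := by
          rw [← mul_assoc, ← mul_assoc, c1, mul_assoc q r y, c2, ← mul_assoc, mul_assoc (q * y) r q,
            c1, ← mul_assoc]
        have f2 : r * ((1 - q) * y * (1 - q)) = (1 - q) * y * (1 - q) * r := by
          rw [← mul_assoc, ← mul_assoc, c3, mul_assoc (1 - q) r y, c2, ← mul_assoc,
            mul_assoc ((1 - q) * y) r (1 - q), c3, ← mul_assoc]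
        rw [mul_add, add_mul, f1, f2]

/-- Lifting a projection commuting with finitely many lifted projections. -/
private lemma LemC_lift {U : Ultrafilter ℕ} {π : (ℕ → N) → Q} (h : LemCPi π)
    (hsurj : ∀ q : Q, ∃ x : ℕ → N, Bd x ∧ π x = q)
    (hn2 : ∀ x : ℕ → N, Bd x → Tendsto (fun n => n2 (x n)) (U : Filter ℕ) (𝓝 (n2 (π x))))
    (heq : ∀ x y : ℕ → N, Bd x → Bd y →
      Tendsto (fun n => n2 (x n - y n)) (U : Filter ℕ) (𝓝 0) → π x = π y)
    (L : List (ℕ → N)) (hL : ∀ q ∈ L, ∀ n, IsProj (q n)) (hc : ∀ q ∈ L, ∀ r ∈ L, q * r = r * q)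
    {p : Q} (hp : IsProj p) (hcp : ∀ q ∈ L, p * π q = π q * p) :
    ∃ e : ℕ → N, (∀ n, IsProj (e n)) ∧ (∀ q ∈ L, q * e = e * q) ∧ π e = p := by
  obtain ⟨x0, hx0, hx0p⟩ := hsurj p
  set x1 : ℕ → N := (1 / 2 : ℂ) • (x0 + star x0) with hx1
  have hb1 : Bd x1 := LemC_bd_smul _ (LemC_bd_add hx0 (LemC_bd_star hx0))
  have hs1 : star x1 = x1 := by
    rw [hx1, star_smul, star_add, star_star, add_comm]
    congr 1
    simp
  have hp1 : π x1 = p := by
    rw [hx1, h.smul _ _ (LemC_bd_add hx0 (LemC_bd_star hx0)),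
      h.add _ _ hx0 (LemC_bd_star hx0), h.star _ hx0, hx0p, hp.1, ← two_smul ℂ p, smul_smul]
    norm_num
  obtain ⟨x, hx, hxs, hxp, hxc⟩ := LemC_avg h L hL hc hcp x1 hb1 hs1 hp1
  have hsn : ∀ n, star (x n) = x n := fun n => congrFun hxs n
  choose e he1 he2 he3 using fun n => near_proj (hsn n)
  refine ⟨e, he1, ?_, ?_⟩
  · intro q hq
    funext n
    have hcx : q n * x n = x n * q n := congrFun (hxc q hq) n
    have hmem : x n ∈ StarSubalgebra.centralizer ℂ ({q n} : Set N) := by
      rw [StarSubalgebra.mem_centralizer_iff]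
      intro g hg
      rw [Set.mem_singleton_iff.1 hg]
      exact ⟨hcx, by rw [(hL q hq n).1]; exact hcx⟩
    have hmem2 := he2 n _ (vnSub_centralizer _) hmem
    rw [StarSubalgebra.mem_centralizer_iff] at hmem2
    exact (hmem2 (q n) rfl).1
  · rw [← hxp]
    refine heq e x (LemC_bd_proj he1) hx ?_
    have hbb : Bd (x * x - x) := LemC_bd_sub (LemC_bd_mul hx hx) hx
    have h0 : π (x * x - x) = 0 := by
      rw [h.sub (LemC_bd_mul hx hx) hx, h.mul _ _ hx hx, hxp, hp.2, sub_self]
    have hlim := hn2 _ hbb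
    rw [h0, n2_zero] at hlim
    have hlim2 : Tendsto (fun n => 2 * n2 ((x * x - x) n)) (U : Filter ℕ) (𝓝 0) := by
      simpa using hlim.const_mul 2
    exact squeeze_zero (fun n => n2_nonneg _) (fun n => he3 n) hlim2

theorem lemC {U : Ultrafilter ℕ} (hU : (U : Filter ℕ) ≤ atTop) (hN : IsII1 N)
    (h : IsUltrapower U N Q) (R : ℕ → Q → Prop)
    (hR : ∀ (m : ℕ) (L : List Q), (∀ p ∈ L, IsProj p) → (∀ p ∈ L, ∀ q ∈ L, p * q = q * p) →
      ∃ p, IsProj p ∧ (∀ q ∈ L, p * q = q * p) ∧ R m p) :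
    ∃ p : ℕ → Q, (∀ m, IsProj (p m) ∧ R m (p m)) ∧
      ∃ a : FreeGroup (Fin 16) → Q, IsFreeRep a ∧ ∀ g m, a g * p m = p m * a g := by
  obtain ⟨π, hadd, hmul, hsmul, hstar, hone, hsurj, htr, hn2, heq, -⟩ := h.basic
  have hπ : LemCPi π := ⟨hadd, hmul, hsmul, hstar, hone⟩
  have hproj : ∀ e : ℕ → N, (∀ n, IsProj (e n)) → IsProj (π e) := by
    intro e he
    have hb := LemC_bd_proj he
    refine ⟨?_, ?_⟩
    · rw [← hstar _ hb]
      congr 1
      exact funext fun n => (he n).1
    · rw [← hmul _ _ hb hb]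
      congr 1
      exact funext fun n => (he n).2
  -- the recursion
  let Good : List (ℕ → N) → Prop := fun L =>
    (∀ q ∈ L, ∀ n, IsProj (q n)) ∧ ∀ q ∈ L, ∀ r ∈ L, q * r = r * q
  have hstep : ∀ (L : {L : List (ℕ → N) // Good L}) (m : ℕ), ∃ e : ℕ → N,
      (∀ n, IsProj (e n)) ∧ (∀ q ∈ L.1, q * e = e * q) ∧ R m (π e) := by
    rintro ⟨L, hL1, hL2⟩ m
    obtain ⟨p, hp1, hp2, hp3⟩ := hR m (L.map π)
      (by
        intro p hp
        obtain ⟨q, hq, rfl⟩ := List.mem_map.1 hp
        exact hproj q (hL1 q hq))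
      (by
        intro p hp p' hp'
        obtain ⟨q, hq, rfl⟩ := List.mem_map.1 hp
        obtain ⟨q', hq', rfl⟩ := List.mem_map.1 hp'
        have hb := LemC_bd_proj (hL1 q hq)
        have hb' := LemC_bd_proj (hL1 q' hq')
        rw [← hmul _ _ hb hb', ← hmul _ _ hb' hb, hL2 q hq q' hq'])
    obtain ⟨e, he1, he2, he3⟩ := LemC_lift hπ hsurj hn2 heq L hL1 hL2 hp1
      (fun q hq => hp2 _ (List.mem_map.2 ⟨q, hq, rfl⟩))
    exact ⟨e, he1, he2, by rw [he3]; exact hp3⟩
  choose f hf1 hf2 hf3 using hstep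
  let F : ℕ → {L : List (ℕ → N) // Good L} := fun m =>
    Nat.rec ⟨[], ⟨by simp, by simp⟩⟩ (fun m L => ⟨f L m :: L.1, ⟨by
      intro q hq
      rcases List.mem_cons.1 hq with rfl | hq
      · exact hf1 L m
      · exact L.2.1 q hq, by
      intro q hq r hr
      rcases List.mem_cons.1 hq with rfl | hq <;> rcases List.mem_cons.1 hr with rfl | hr
      · rfl
      · exact (hf2 L m r hr).symm
      · exact hf2 L m q hq
      · exact L.2.2 q hq r hr⟩⟩) m
  have hF : ∀ m, (F (m + 1)).1 = f (F m) m :: (F m).1 := fun m => rfl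
  let P : ℕ → ℕ → N := fun m => f (F m) m
  have hP1 : ∀ m n, IsProj (P m n) := fun m => hf1 (F m) m
  have hmem : ∀ m l, l < m → P l ∈ (F m).1 := by
    intro m
    induction m with
    | zero => intro l hl; exact absurd hl (by omega)
    | succ m ih =>
      intro l hl
      rw [hF]
      rcases Nat.lt_or_ge l m with h' | h'
      · exact List.mem_cons_of_mem _ (ih l h')
      · have : l = m := by omega
        subst this
        exact List.mem_cons_self
  have hPc : ∀ l m n, P l n * P m n = P m n * P l n := by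
    intro l m n
    have h1 : P l ∈ (F (l + m + 1)).1 := hmem (l + m + 1) l (by omega)
    have h2 : P m ∈ (F (l + m + 1)).1 := hmem (l + m + 1) m (by omega)
    exact congrFun ((F (l + m + 1)).2.2 _ h1 _ h2) n
  have hPR : ∀ m, R m (π (P m)) := fun m => hf3 (F m) m
  -- the group
  have hcount : Countable (FreeGroup (Fin 16)) := by
    have : Function.Surjective (FreeGroup.mk : List (Fin 16 × Bool) → FreeGroup (Fin 16)) :=
      Quot.mk_surjective
    exact this.countable
  obtain ⟨en, hen⟩ := exists_surjective_nat (FreeGroup (Fin 16))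
  classical
  have hA : ∀ n : ℕ, ∃ A : FreeGroup (Fin 16) → N, A 1 = 1 ∧ (∀ g h, A (g * h) = A g * A h) ∧
      (∀ g, IsUn (A g)) ∧ (∀ k ≤ n, en k ≠ 1 → tr (A (en k)) = 0) ∧
      ∀ g, ∀ l ≤ n, A g * P l n = P l n * A g := by
    intro n
    obtain ⟨Γ, i1, i2, φ, hφ⟩ := freeGroup_finite_quot 16
      (((Finset.range (n + 1)).image en).filter (fun g => g ≠ 1)) (by simp)
    obtain ⟨ρ, r1, r2, r3, r4, r5⟩ := group_rep hN ((List.range (n + 1)).map (fun l => P l n))
      (by
        intro p hp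
        obtain ⟨l, -, rfl⟩ := List.mem_map.1 hp
        exact hP1 l n)
      (by
        intro p hp p' hp'
        obtain ⟨l, -, rfl⟩ := List.mem_map.1 hp
        obtain ⟨l', -, rfl⟩ := List.mem_map.1 hp'
        exact hPc l l' n) Γ
    refine ⟨fun g => ρ (φ g), ?_, ?_, ?_, ?_, ?_⟩
    · simp only [map_one, r1]
    · intro g h
      simp only [map_mul, r2]
    · exact fun g => r3 _
    · intro k hk hk1
      refine r4 _ (hφ _ ?_)
      rw [Finset.mem_filter, Finset.mem_image]
      exact ⟨⟨k, Finset.mem_range.2 (by omega), rfl⟩, hk1⟩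
    · intro g l hl
      have hl' : l ∈ List.range (n + 1) := List.mem_range.2 (by omega)
      exact r5 (φ g) (P l n) (List.mem_map.2 ⟨l, hl', rfl⟩)
  choose A hA1 hA2 hA3 hA4 hA5 using hA
  have hAb : ∀ g, Bd (fun n => A n g) := fun g => ⟨1, fun n => (hA3 n g).norm_le_one⟩
  refine ⟨fun m => π (P m), fun m => ⟨hproj _ (hP1 m), hPR m⟩, fun g => π (fun n => A n g),
    ⟨?_, ?_, ?_, ?_⟩, ?_⟩
  · exact (congrArg π (funext fun n => hA1 n)).trans hone
  · intro g h
    exact (congrArg π (funext fun n => hA2 n g h)).trans (hmul _ _ (hAb g) (hAb h))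
  · intro g
    refine ⟨?_, ?_⟩
    · rw [← hstar _ (hAb g), ← hmul _ _ (LemC_bd_star (hAb g)) (hAb g), ← hone]
      congr 1
      exact funext fun n => (hA3 n g).1
    · rw [← hstar _ (hAb g), ← hmul _ _ (hAb g) (LemC_bd_star (hAb g)), ← hone]
      congr 1
      exact funext fun n => (hA3 n g).2
  · intro g hg
    obtain ⟨k, rfl⟩ := hen g
    have h1 := htr _ (hAb (en k))
    have h2 : Tendsto (fun n => tr (A n (en k))) (U : Filter ℕ) (𝓝 0) := by
      refine Tendsto.congr' ?_ tendsto_const_nhds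
      refine hU ?_
      filter_upwards [eventually_ge_atTop k] with n hn
      exact (hA4 n k hn hg).symm
    exact tendsto_nhds_unique h1 h2
  · intro g m
    have hb := LemC_bd_proj (hP1 m)
    rw [← hmul _ _ (hAb g) hb, ← hmul _ _ hb (hAb g)]
    refine heq _ _ (LemC_bd_mul (hAb g) hb) (LemC_bd_mul hb (hAb g)) ?_
    refine Tendsto.congr' ?_ tendsto_const_nhds
    refine hU ?_
    filter_upwards [eventually_ge_atTop m] with n hn
    have e : ((fun n => A n g) * P m) n - (P m * fun n => A n g) n = 0 :=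
      sub_eq_zero.2 (hA5 n g m hn)
    rw [e, n2_zero]

/-- Ultrapowers of II_1 factors contain free unitaries. -/
theorem exists_freeRep {U : Ultrafilter ℕ} (hU : (U : Filter ℕ) ≤ atTop) (hN : IsII1 N)
    (h : IsUltrapower U N Q) : ∃ a : FreeGroup (Fin 16) → Q, IsFreeRep a := by
  obtain ⟨p, -, a, ha, -⟩ := lemC hU hN h (fun _ _ => True)
    (fun m L _ _ => ⟨0, ⟨by simp, by simp⟩, by simp, trivial⟩)
  exact ⟨a, ha⟩

end Pool.Agent.KUR
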