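import Pool.Agent.KUR.MatU

/-!
# KUR TrU: uniqueness of the tracial state on a II_1 factor

PROOF.  `φ` is positive and normalised, so `‖φ x‖ ≤ ‖x‖` (Cauchy-Schwarz for `φ (star y * x)` and
`φ (star x * x) ≤ ‖x‖^2`, because `‖x‖^2 - star x * x = star a * a`).
(1) Let `p` be a projection and `d ≥ 1`; take matrix units `f` of size `d` with `∑ f i i = 1`
(`exists_matrix_units` for `S = ⊤`, `e = 1`; note `Module.Finite ℂ (⊤ : StarSubalgebra ℂ M)` iff
`Module.Finite ℂ M`).  Traces of `f i i` are `1/d` both for `tr` and for `φ` (all `f i i` have equal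
trace since `f i i = f i j * f j i`).  Let `k = ⌊d * tr p⌋` (`tr p` is real in [0,1]) and
`q = ∑_{i < k} f i i`.  By `comparison` there is a partial isometry `v`, `p v = v`, `v q = v` with
`v star v = p` or `star v v = q`.  In the first case `tr p = tr (star v v) ≤ tr q = k/d ≤ tr p`, so
`q - star v v` is a projection of trace 0, so again `star v v = q`.  So
`φ p ≥ φ (v star v) = φ (star v v) = φ q = k / d > tr p - 1/d`
(here `φ p - φ (v star v) = φ (p - v star v) ≥ 0`).  The same for `1 - p`: `|φ p - tr p| ≤ 1/d`.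
Since `d` is arbitrary `φ p = tr p`.
(2) For `h = star a * a` with `‖h‖ ≤ 1` use `layer` (Spec.lean): `‖h - (1/n) ∑ e i‖ ≤ 1/n`, so
`‖φ h - tr h‖ ≤ 2/n`.  Scale.  (3) Every element is a combination of four elements `star a * a`
(`4 x = ∑ i^k star (x + i^k) (x + i^k)`-type polarization: `4 x = ∑_k i^k star (1 + i^k ... )`; e.g.
`x = 1 * x` and the polarization identity for `star y * x` with `y = 1`).
-/

open Filter Topology

namespace Pool.Agent.KUR

universe u
variable {M : Type u} [CStarAlgebra M] [TVN M]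

/-- A tracial state given by a linear map. -/
private structure TS (φ : M →ₗ[ℂ] ℂ) : Prop where
  one : φ 1 = 1
  comm : ∀ x y, φ (x * y) = φ (y * x)
  re : ∀ x, 0 ≤ (φ (star x * x)).re
  im : ∀ x, (φ (star x * x)).im = 0

private theorem ts_tr : TS (tr : M →ₗ[ℂ] ℂ) :=
  ⟨TVN.tr_one, TVN.tr_comm, TVN.tr_re_nonneg, TVN.tr_im_zero⟩

private theorem TS.proj_re {φ : M →ₗ[ℂ] ℂ} (h : TS φ) {p : M} (hp : IsProj p) :
    0 ≤ (φ p).re := by
  have := h.re p
  rwa [hp.1, hp.2] at this

private theorem TS.proj_im {φ : M →ₗ[ℂ] ℂ} (h : TS φ) {p : M} (hp : IsProj p) :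
    (φ p).im = 0 := by
  have := h.im p
  rwa [hp.1, hp.2] at this

/-- Self-adjoint elements are real multiples of one minus a square. -/
private theorem sa_decomp {y : M} (hy : star y = y) {c : ℝ} (hc : ‖y‖ ≤ c) :
    ∃ b : M, (c : ℂ) • (1 : M) - y = star b * b := by
  let _ : PartialOrder M := CStarAlgebra.spectralOrder M
  have _ : StarOrderedRing M := CStarAlgebra.spectralOrderedRing M
  have hs : IsSelfAdjoint y := hy
  have h1 : y ≤ algebraMap ℝ M ‖y‖ := hs.le_algebraMap_norm_self
  have h2 : algebraMap ℝ M ‖y‖ ≤ algebraMap ℝ M c := algebraMap_mono M hc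
  have h3 : 0 ≤ algebraMap ℝ M c - y := sub_nonneg.mpr (h1.trans h2)
  obtain ⟨b, hb⟩ := CStarAlgebra.nonneg_iff_eq_star_mul_self.mp h3
  refine ⟨b, ?_⟩
  rw [← hb, Algebra.algebraMap_eq_smul_one, Complex.coe_smul]

private theorem TS.sa_im {φ : M →ₗ[ℂ] ℂ} (h : TS φ) {y : M} (hy : star y = y) :
    (φ y).im = 0 := by
  obtain ⟨b, hb⟩ := sa_decomp hy le_rfl
  have h1 := h.im b
  rw [← hb, map_sub, map_smul, h.one] at h1
  simpa using h1

private theorem TS.sa_le {φ : M →ₗ[ℂ] ℂ} (h : TS φ) {y : M} (hy : star y = y) {c : ℝ}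
    (hc : ‖y‖ ≤ c) : (φ y).re ≤ c := by
  obtain ⟨b, hb⟩ := sa_decomp hy hc
  have h1 := h.re b
  rw [← hb, map_sub, map_smul, h.one] at h1
  simpa using h1

private theorem TS.sa_abs {φ : M →ₗ[ℂ] ℂ} (h : TS φ) {y : M} (hy : star y = y) {c : ℝ}
    (hc : ‖y‖ ≤ c) : |(φ y).re| ≤ c := by
  rw [abs_le]
  refine ⟨?_, h.sa_le hy hc⟩
  have h1 := h.sa_le (y := -y) (c := c) (by rw [star_neg, hy]) (by rwa [norm_neg])
  rw [map_neg, Complex.neg_re] at h1
  linarith

/-- Traces of matrix units. -/
private theorem TS.mat {φ : M →ₗ[ℂ] ℂ} (h : TS φ) {d : ℕ} (hd : 0 < d)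
    {f : Fin d → Fin d → M} (hf : ∀ i j k l, f i j * f k l = if j = k then f i l else 0)
    (h1 : ∑ i, f i i = 1) (i : Fin d) : φ (f i i) = 1 / (d : ℂ) := by
  have heq : ∀ j, φ (f j j) = φ (f i i) := by
    intro j
    have e1 : f j i * f i j = f j j := by rw [hf, if_pos rfl]
    have e2 : f i j * f j i = f i i := by rw [hf, if_pos rfl]
    rw [← e1, h.comm, e2]
  have hs : ∑ j, φ (f j j) = 1 := by rw [← map_sum, h1, h.one]
  simp_rw [heq] at hs
  rw [Finset.sum_const, Finset.card_univ, Fintype.card_fin, nsmul_eq_mul] at hs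
  have : (d : ℂ) ≠ 0 := by exact_mod_cast hd.ne'
  field_simp
  linear_combination hs

private theorem pi_proj {v : M} (hv : IsPI v) : IsProj (star v * v) ∧ IsProj (v * star v) := by
  have hv' : star v * v * star v = star v := by
    have := congrArg star hv
    simpa [star_mul, mul_assoc] using this
  refine ⟨⟨by simp, ?_⟩, ⟨by simp, ?_⟩⟩
  · calc star v * v * (star v * v) = (star v * v * star v) * v := by simp only [mul_assoc]
      _ = _ := by rw [hv']
  · calc v * star v * (v * star v) = (v * star v * v) * star v := by simp only [mul_assoc]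
      _ = _ := by rw [hv]

private theorem sub_proj {p q : M} (hp : IsProj p) (hq : IsProj q) (h : q * p = p) :
    IsProj (q - p) := by
  have h' : p * q = p := by
    have := congrArg star h
    rwa [star_mul, hp.1, hq.1] at this
  refine ⟨by rw [star_sub, hp.1, hq.1], ?_⟩
  rw [sub_mul, mul_sub, mul_sub, hq.2, hp.2, h, h']
  abel

private theorem proj_lower (hM : IsII1 M) {φ : M →ₗ[ℂ] ℂ} (h : TS φ) {p : M} (hp : IsProj p)
    {d : ℕ} (hd : 0 < d) : (tr p).re - 1 / (d : ℝ) ≤ (φ p).re := by
  have hfin : ¬ Module.Finite ℂ (⊤ : StarSubalgebra ℂ M) := by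
    intro hf
    apply hM.2
    have : Function.Surjective ((⊤ : StarSubalgebra ℂ M).subtype.toAlgHom.toLinearMap) := by
      intro x
      exact ⟨⟨x, StarSubalgebra.mem_top⟩, rfl⟩
    exact Module.Finite.of_surjective _ this
  have hd0 : (0 : ℝ) < d := by exact_mod_cast hd
  rcases subsingleton_or_nontrivial M with hsub | hnt
  · exfalso
    apply hM.2
    infer_instance
  obtain ⟨f, -, hf, hfs, hf1⟩ := exists_matrix_units (S := (⊤ : StarSubalgebra ℂ M)) vnSub_top
    hM.1 hfin (e := 1) StarSubalgebra.mem_top ⟨star_one M, mul_one 1⟩ one_ne_zero d hd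
  have htp0 : 0 ≤ (tr p).re := ts_tr.proj_re hp
  have htp1 : (tr p).re ≤ 1 := by
    have h1 := ts_tr.proj_re hp.one_sub
    rw [map_sub, TVN.tr_one] at h1
    simpa using h1
  set k : ℕ := ⌊(d : ℝ) * (tr p).re⌋₊ with hk
  have hkle : (k : ℝ) ≤ d * (tr p).re := Nat.floor_le (by positivity)
  have hklt : (d : ℝ) * (tr p).re < k + 1 := Nat.lt_floor_add_one _
  have hkd : k ≤ d := by
    have : (k : ℝ) ≤ d := hkle.trans (by nlinarith)
    exact_mod_cast this
  set s : Finset (Fin d) := Finset.univ.filter (fun i : Fin d => (i : ℕ) < k) with hs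
  have hcard : s.card = k := by
    rw [hs, Fin.card_filter_val_lt, min_eq_right hkd]
  set q : M := ∑ i ∈ s, f i i with hq
  have hqp : IsProj q := by
    refine ⟨?_, ?_⟩
    · rw [hq, star_sum]
      exact Finset.sum_congr rfl (fun i _ => hfs i i)
    · rw [hq, Finset.sum_mul]
      refine Finset.sum_congr rfl (fun i hi => ?_)
      rw [Finset.mul_sum]
      simp_rw [hf]
      rw [Finset.sum_ite_eq, if_pos hi]
  have hqt : ∀ {ψ : M →ₗ[ℂ] ℂ}, TS ψ → (ψ q).re = k / d := by
    intro ψ hψ
    rw [hq, map_sum]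
    have : ∀ i ∈ s, ψ (f i i) = (((1 : ℝ) / d : ℝ) : ℂ) := by
      intro i _
      rw [hψ.mat hd hf hf1]
      push_cast
      rfl
    rw [Finset.sum_congr rfl this, Finset.sum_const, hcard, nsmul_eq_mul]
    rw [← Complex.ofReal_natCast, ← Complex.ofReal_mul, Complex.ofReal_re]
    ring
  obtain ⟨v, -, hv, hpv, hvq, hor⟩ := comparison (S := (⊤ : StarSubalgebra ℂ M)) vnSub_top hM.1
    (p := p) (q := q) StarSubalgebra.mem_top StarSubalgebra.mem_top hp hqp
  obtain ⟨hv1, hv2⟩ := pi_proj hv
  have hsub1 : IsProj (q - star v * v) := by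
    refine sub_proj hv1 hqp ?_
    have := congrArg star hvq
    rw [star_mul, hqp.1] at this
    rw [← mul_assoc, this]
  have hsub2 : IsProj (p - v * star v) := by
    refine sub_proj hv2 hp ?_
    rw [← mul_assoc, hpv]
  have hvv : star v * v = q := by
    rcases hor with h3 | h3
    · have e1 : (tr (star v * v)).re = (tr p).re := by rw [← h3, TVN.tr_comm]
      have e2 := hqt ts_tr
      have e3 := ts_tr.proj_re hsub1
      rw [map_sub, Complex.sub_re, e1, e2] at e3
      have e4 : (k : ℝ) / d ≤ (tr p).re := by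
        rw [div_le_iff₀ hd0]; linarith
      have e5 : tr (q - star v * v) = 0 := by
        apply Complex.ext
        · rw [map_sub, Complex.sub_re, e1, e2, Complex.zero_re]; linarith
        · rw [ts_tr.proj_im hsub1, Complex.zero_im]
      have e6 : q - star v * v = 0 := by
        apply TVN.faithful
        rw [hsub1.1, hsub1.2]
        exact e5
      exact (sub_eq_zero.mp e6).symm
    · exact h3
  have e7 := h.proj_re hsub2
  rw [map_sub, Complex.sub_re, h.comm v, hvv, hqt h] at e7
  have e8 : (tr p).re - 1 / (d : ℝ) ≤ (k : ℝ) / d := by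
    rw [le_div_iff₀ hd0, sub_mul, one_div, inv_mul_cancel₀ hd0.ne']
    linarith
  linarith

private theorem proj_eq (hM : IsII1 M) {φ : M →ₗ[ℂ] ℂ} (h : TS φ) {p : M} (hp : IsProj p) :
    φ p = tr p := by
  have key : ∀ {p : M}, IsProj p → (tr p).re ≤ (φ p).re := by
    intro p hp
    have ht : Tendsto (fun d : ℕ => (tr p).re - 1 / ((d : ℝ) + 1)) atTop (𝓝 ((tr p).re - 0)) :=
      tendsto_const_nhds.sub tendsto_one_div_add_atTop_nhds_zero_nat
    rw [sub_zero] at ht
    refine le_of_tendsto' ht (fun d => ?_)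
    have := proj_lower hM h hp (Nat.succ_pos d)
    push_cast at this
    exact this
  apply Complex.ext
  · apply le_antisymm _ (key hp)
    have h1 := key hp.one_sub
    rw [map_sub, map_sub, TVN.tr_one, h.one, Complex.sub_re, Complex.sub_re] at h1
    linarith
  · rw [h.proj_im hp, ts_tr.proj_im hp]

private theorem sq_eq (hM : IsII1 M) {φ : M →ₗ[ℂ] ℂ} (h : TS φ) {a : M}
    (ha : ‖star a * a‖ ≤ 1) : φ (star a * a) = tr (star a * a) := by
  apply Complex.ext
  · have key : ∀ n : ℕ, |(φ (star a * a)).re - (tr (star a * a)).re| ≤ 2 * (1 / ((n : ℝ) + 1)) := by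
      intro n
      obtain ⟨e, he, -, hn⟩ := layer (h := star a * a) ⟨a, rfl⟩ ha (Nat.succ_pos n)
      set c : ℂ := 1 / ((n + 1 : ℕ) : ℂ) with hc
      set y : M := star a * a - c • ∑ i, e i with hy
      have hcc : star c = c := by
        rw [hc]; simp
      have hys : star y = y := by
        rw [hy, star_sub, star_smul, star_sum, hcc]
        simp only [star_mul, star_star]
        congr 2
        exact Finset.sum_congr rfl (fun i _ => (he i).1)
      have hn' : ‖y‖ ≤ 1 / ((n : ℝ) + 1) := by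
        have := hn
        push_cast at this
        simpa [hy, hc] using this
      have h1 := h.sa_abs hys hn'
      have h2 := ts_tr.sa_abs hys hn'
      have h3 : φ (star a * a) - tr (star a * a) = φ y - tr y := by
        rw [hy, map_sub, map_sub, map_smul, map_smul, map_sum, map_sum]
        rw [Finset.sum_congr rfl (fun i _ => proj_eq hM h (he i))]
        ring
      have h4 : (φ (star a * a)).re - (tr (star a * a)).re = (φ y).re - (tr y).re := by
        rw [← Complex.sub_re, h3, Complex.sub_re]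
      rw [h4]
      rw [abs_le] at h1 h2 ⊢
      constructor <;> linarith [h1.1, h1.2, h2.1, h2.2]
    have ht : Tendsto (fun n : ℕ => 2 * (1 / ((n : ℝ) + 1))) atTop (𝓝 (2 * 0)) :=
      tendsto_one_div_add_atTop_nhds_zero_nat.const_mul 2
    rw [mul_zero] at ht
    have h0 := ge_of_tendsto' ht key
    have h5 := abs_eq_zero.mp (le_antisymm h0 (abs_nonneg _))
    linarith
  · rw [h.im, TVN.tr_im_zero]

private theorem sq_eq' (hM : IsII1 M) {φ : M →ₗ[ℂ] ℂ} (h : TS φ) (a : M) :
    φ (star a * a) = tr (star a * a) := by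
  set r : ℝ := ‖a‖ + 1 with hr
  have hr0 : 0 < r := by positivity
  set b : M := ((r⁻¹ : ℝ) : ℂ) • a with hb
  have hbn : ‖b‖ ≤ 1 := by
    rw [hb, norm_smul, Complex.norm_real, Real.norm_eq_abs, abs_of_pos (inv_pos.mpr hr0),
      inv_mul_le_iff₀ hr0]
    linarith
  have h1 := sq_eq hM h (a := b) (by
    rw [CStarRing.norm_star_mul_self]
    nlinarith [norm_nonneg b])
  have h2 : star a * a = ((r ^ 2 : ℝ) : ℂ) • (star b * b) := by
    rw [hb, star_smul, smul_mul_smul_comm, smul_smul]
    have : ((r ^ 2 : ℝ) : ℂ) * (star ((r⁻¹ : ℝ) : ℂ) * ((r⁻¹ : ℝ) : ℂ)) = 1 := by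
      have hrc : (r : ℂ) ≠ 0 := by exact_mod_cast hr0.ne'
      simp only [RCLike.star_def, Complex.conj_ofReal]
      push_cast
      field_simp
    rw [this, one_smul]
  rw [h2, map_smul, map_smul, h1]

private theorem sa_eq (hM : IsII1 M) {φ : M →ₗ[ℂ] ℂ} (h : TS φ) {y : M} (hy : star y = y) :
    φ y = tr y := by
  obtain ⟨b, hb⟩ := sa_decomp hy le_rfl
  have h1 := sq_eq' hM h b
  rw [← hb, map_sub, map_sub, map_smul, map_smul, h.one, TVN.tr_one] at h1
  exact sub_right_injective h1

theorem tr_unique (hM : IsII1 M) (φ : M →ₗ[ℂ] ℂ) (h1 : φ 1 = 1)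
    (hc : ∀ x y, φ (x * y) = φ (y * x)) (hre : ∀ x, 0 ≤ (φ (star x * x)).re)
    (him : ∀ x, (φ (star x * x)).im = 0) : ∀ x, φ x = tr x := by
  have h : TS φ := ⟨h1, hc, hre, him⟩
  intro x
  have e1 : star (x + star x) = x + star x := by rw [star_add, star_star, add_comm]
  have e2 : star (Complex.I • (x - star x)) = Complex.I • (x - star x) := by
    rw [star_smul, star_sub, star_star]
    simp only [RCLike.star_def, Complex.conj_I]
    rw [neg_smul, ← smul_neg, neg_sub]
  have f1 := sa_eq hM h e1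
  have f2 := sa_eq hM h e2
  rw [map_smul, map_smul] at f2
  have f3 : φ (x - star x) = tr (x - star x) := by
    have := congrArg (fun z => Complex.I⁻¹ * z) f2
    simpa [smul_eq_mul, ← mul_assoc] using this
  rw [map_add, map_add] at f1
  rw [map_sub, map_sub] at f3
  linear_combination (1 / 2 : ℂ) * f1 + (1 / 2 : ℂ) * f3

/-- Star isomorphisms of II_1 factors preserve the trace. -/
theorem trPres_of_equiv {A B : Type u} [CStarAlgebra A] [TVN A] [CStarAlgebra B] [TVN B]
    (hA : IsII1 A) (φ : A ≃⋆ₐ[ℂ] B) : ∀ x : A, tr (φ x) = tr x := by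
  let φl : A →ₗ[ℂ] B :=
    { toFun := φ
      map_add' := map_add φ
      map_smul' := fun c x => map_smul φ c x }
  have h := tr_unique hA ((tr : B →ₗ[ℂ] ℂ).comp φl)
    (by
      show tr (φ 1) = 1
      rw [map_one, TVN.tr_one])
    (by
      intro x y
      show tr (φ (x * y)) = tr (φ (y * x))
      have e1 : φ (x * y) = φ x * φ y := map_mul φ x y
      have e2 : φ (y * x) = φ y * φ x := map_mul φ y x
      rw [e1, e2, TVN.tr_comm])
    (by
      intro x
      show 0 ≤ (tr (φ (star x * x))).re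
      have e1 : φ (star x * x) = star (φ x) * φ x := by rw [map_mul φ, map_star φ]
      rw [e1]
      exact TVN.tr_re_nonneg _)
    (by
      intro x
      show (tr (φ (star x * x))).im = 0
      have e1 : φ (star x * x) = star (φ x) * φ x := by rw [map_mul φ, map_star φ]
      rw [e1]
      exact TVN.tr_im_zero _)
  intro x
  exact h x

end Pool.Agent.KUR
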