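import Pool.Agent.KUR.Kur
import Pool.Agent.KUR.TrU

/-!
# KUR Main: uniqueness of free product decompositions of ultrapowers of II_1 factors
-/

open Filter Topology

namespace Pool.Agent.KUR

universe u
variable {A : Type u} [CStarAlgebra A] [TVN A]

section ranges
variable {I : Type*} {Q : I → Type u} [∀ i, CStarAlgebra (Q i)] [∀ i, TVN (Q i)]
  {ι : ∀ i, Q i →⋆ₐ[ℂ] A}

theorem freeFam_range (h : IsFreeProduct Q A ι) : FreeFam (fun i => (ι i).range) := by
  intro l hl hr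
  obtain ⟨hch, hmem⟩ := hr
  have key : ∀ l : List (I × A), l.IsChain (fun p q => p.1 ≠ q.1) →
      (∀ p ∈ l, p.2 ∈ (ι p.1).range ∧ tr p.2 = 0) →
      ∃ m : List (Σ i, Q i), m.map (fun p => (p.1, ι p.1 p.2)) = l ∧
        m.IsChain (fun p q => p.1 ≠ q.1) ∧ ∀ p ∈ m, tr p.2 = 0 := by
    intro l
    induction l with
    | nil => intro _ _; exact ⟨[], rfl, List.isChain_nil, by simp⟩
    | cons p l ih =>
      intro hc hm
      obtain ⟨m, hm1, hm2, hm3⟩ := ih hc.tail (fun q hq => hm q (List.mem_cons_of_mem _ hq))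
      obtain ⟨⟨x, hx⟩, htr⟩ := hm p List.mem_cons_self
      refine ⟨⟨p.1, x⟩ :: m, ?_, ?_, ?_⟩
      · rw [List.map_cons, hm1]
        congr 1
        exact Prod.ext rfl hx
      · cases m with
        | nil => exact List.isChain_singleton _
        | cons q m =>
          rw [List.isChain_cons_cons]
          refine ⟨?_, hm2⟩
          rw [← hm1, List.map_cons, List.isChain_cons_cons] at hc
          exact hc.1
      · intro q hq
        rcases List.mem_cons.mp hq with rfl | hq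
        · show tr x = 0
          rw [← h.1 p.1 x]
          have : (ι p.1) x = p.2 := hx
          rw [this, htr]
        · exact hm3 q hq
  obtain ⟨m, hm1, hm2, hm3⟩ := key l hch hmem
  have hne : m ≠ [] := by
    rintro rfl
    exact hl (by simpa using hm1.symm)
  have := h.2.1 m hne hm2 hm3
  rw [wv, ← hm1, List.map_map]
  exact this

theorem gen_range (h : IsFreeProduct Q A ι) (x : A) :
    x ∈ vnGen (⋃ i, ((ι i).range : Set A)) := by
  rw [mem_vnGen_iff]
  intro ε hε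
  obtain ⟨y, hy, hy'⟩ := h.2.2 x ε hε
  refine ⟨y, ?_, hy'⟩
  have h1 : Algebra.adjoin ℂ (⋃ i, Set.range (ι i)) ≤
      (StarAlgebra.adjoin ℂ (⋃ i, ((ι i).range : Set A))).toSubalgebra := by
    apply Algebra.adjoin_le
    intro z hz
    obtain ⟨i, hi⟩ := Set.mem_iUnion.mp hz
    apply StarAlgebra.subset_adjoin
    refine Set.mem_iUnion.mpr ⟨i, ?_⟩
    obtain ⟨y, hy⟩ := hi
    exact ⟨y, hy⟩
  exact h1 hy

theorem trPres_of_free (h : IsFreeProduct Q A ι) (i : I) : TrPres (ι i) := h.1 i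

end ranges

theorem isFac_range {Q : Type u} [CStarAlgebra Q] [TVN Q] {ι : Q →⋆ₐ[ℂ] A} (hι : TrPres ι)
    (hQ : IsII1 Q) : IsFac ι.range := by
  rintro _ ⟨z, rfl⟩ hc
  obtain ⟨c, hc'⟩ := hQ.1 z StarSubalgebra.mem_top (fun x _ => hι.injective (by
    rw [map_mul, map_mul]; exact hc _ ⟨x, rfl⟩))
  exact ⟨c, by
    show ι z = _
    rw [hc', map_smul, map_one]⟩

theorem exists_haar {Q : Type u} [CStarAlgebra Q] [TVN Q] {a : FreeGroup (Fin 16) → Q}
    (ha : IsFreeRep a) (n : ℕ) (hn : 0 < n) : tr (a (FreeGroup.of 0) ^ n) = 0 := by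
  have h1 : ∀ n : ℕ, a (FreeGroup.of 0) ^ n = a (FreeGroup.of 0 ^ n) := by
    intro n
    induction n with
    | zero => rw [pow_zero, pow_zero, ha.1]
    | succ n ih => rw [pow_succ, ih, pow_succ, ha.2.1]
  rw [h1]
  apply ha.2.2.2
  intro h
  have h2 := congrArg (fun g => Multiplicative.toAdd
    (FreeGroup.lift (fun _ : Fin 16 => Multiplicative.ofAdd (1 : ℤ)) g)) h
  simp at h2
  omega

theorem exists_symmetry {Q : Type u} [CStarAlgebra Q] [TVN Q] (hQ : IsII1 Q) :
    ∃ s : Q, star s = s ∧ s * s = 1 ∧ tr s = 0 := by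
  have hI : ¬ Module.Finite ℂ (⊤ : StarSubalgebra ℂ Q) := by
    intro h
    apply hQ.2
    exact Module.Finite.of_surjective
      ((StarSubalgebra.subtype (⊤ : StarSubalgebra ℂ Q)).toAlgHom.toLinearMap)
      (fun x => ⟨⟨x, StarSubalgebra.mem_top⟩, rfl⟩)
  have h1 : (1 : Q) ≠ 0 := by
    intro h
    have : tr (1 : Q) = 0 := by rw [h, map_zero]
    rw [tr_one'] at this
    exact one_ne_zero this
  obtain ⟨f, -, hf, hfs, hf1⟩ := exists_matrix_units (S := (⊤ : StarSubalgebra ℂ Q)) vnSub_top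
    hQ.1 hI (e := 1) StarSubalgebra.mem_top ⟨star_one _, mul_one _⟩ h1 2 (by norm_num)
  rw [Fin.sum_univ_two] at hf1
  refine ⟨f 0 0 - f 1 1, ?_, ?_, ?_⟩
  · rw [star_sub, hfs, hfs]
  · rw [← hf1, sub_mul, mul_sub, mul_sub, hf, hf, hf, hf]
    simp
  · rw [map_sub]
    have e1 : f 0 0 = f 0 1 * f 1 0 := by rw [hf]; simp
    have e2 : f 1 1 = f 1 0 * f 0 1 := by rw [hf]; simp
    rw [e1, e2, tr_mul_comm, sub_self]

end Pool.Agent.KUR
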