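import Pool.Agent.KUR.Main

/-!
# KUR Main2: the bijection and the isomorphisms
-/

open Filter Topology

namespace Pool.Agent.KUR

universe u

/-- Existence of the conjugation for one member. -/
theorem conj_into {A : Type u} [CStarAlgebra A] [TVN A] {U : Ultrafilter ℕ}
    (hU : (U : Filter ℕ) ≤ atTop) {I J : Type*} [Finite J] [Nonempty J]
    {N Q : I → Type u} [∀ i, CStarAlgebra (N i)] [∀ i, TVN (N i)] [∀ i, CStarAlgebra (Q i)]
    [∀ i, TVN (Q i)] {M P : J → Type u} [∀ j, CStarAlgebra (M j)] [∀ j, TVN (M j)]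
    [∀ j, CStarAlgebra (P j)] [∀ j, TVN (P j)]
    (hN : ∀ i, IsII1 (N i)) (hM : ∀ j, IsII1 (M j)) (hQ : ∀ i, IsUltrapower U (N i) (Q i))
    (hP : ∀ j, IsUltrapower U (M j) (P j)) {ι : ∀ i, Q i →⋆ₐ[ℂ] A} {κ : ∀ j, P j →⋆ₐ[ℂ] A}
    (hι : IsFreeProduct Q A ι) (hκ : IsFreeProduct P A κ) (i : I) :
    ∃ j, ∃ u : A, IsUn u ∧ ∀ x ∈ (ι i).range, star u * x * u ∈ (κ j).range := by
  obtain ⟨a, ha⟩ := exists_freeRep hU (hN i) (hQ i)
  have hirr : ∀ y : A, (∀ x, y * ι i x = ι i x * y) → ∃ c : ℂ, y = c • (1 : A) := by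
    intro y hy
    refine member_irreducible (Q := fun i => (ι i).range) (i := i)
      (fun i => (trPres_of_free hι i).vnSub_range) (freeFam_range hι) (gen_range hι)
      (isFac_range (trPres_of_free hι i) ((hQ i).isII1 (hN i))) (ha.map (trPres_of_free hι i))
      (fun g => ⟨a g, rfl⟩) ?_
    rintro _ ⟨x, rfl⟩
    exact hy x
  obtain ⟨j, u, hu, h⟩ := kurosh (fun j => (κ j).range)
    (fun j => (trPres_of_free hκ j).vnSub_range) (freeFam_range hκ) (gen_range hκ)
    (fun j => isFac_range (trPres_of_free hκ j) ((hP j).isII1 (hM j)))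
    (fun j => by
      obtain ⟨b, hb⟩ := exists_freeRep hU (hM j) (hP j)
      have hb' := hb.map (trPres_of_free hκ j)
      exact ⟨κ j (b (FreeGroup.of 0)), ⟨_, rfl⟩, hb'.2.2.1 _, exists_haar hb'⟩)
    (fun j => by
      obtain ⟨s, h1, h2, h3⟩ := exists_symmetry ((hP j).isII1 (hM j))
      exact ⟨κ j s, ⟨_, rfl⟩, by rw [← map_star, h1], by rw [← map_mul, h2, map_one],
        by rw [hκ.1, h3]⟩)
    hU (hN i) (hQ i) (ι i) (trPres_of_free hι i) hirr
  exact ⟨j, u, hu, by rintro _ ⟨x, rfl⟩; exact h x⟩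

/-- From a conjugation between ranges to a star isomorphism. -/
theorem equiv_of_conj {A : Type u} [CStarAlgebra A] [TVN A] {Q P : Type u} [CStarAlgebra Q]
    [TVN Q] [CStarAlgebra P] [TVN P] {ι : Q →⋆ₐ[ℂ] A} {κ : P →⋆ₐ[ℂ] A} (hι : TrPres ι)
    (hκ : TrPres κ) {u : A} (hu : IsUn u) (h1 : ∀ x ∈ ι.range, star u * x * u ∈ κ.range)
    (h2 : ∀ x ∈ κ.range, u * x * star u ∈ ι.range) : Nonempty (Q ≃⋆ₐ[ℂ] P) := by
  have h3 : ∀ x : Q, ∃ y : P, κ y = star u * ι x * u := fun x => h1 _ ⟨x, rfl⟩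
  choose f hf using h3
  have hadd : ∀ x y, f (x + y) = f x + f y := fun x y => hκ.injective (by
    rw [map_add, hf, hf, hf, map_add, mul_add, add_mul])
  have hmul : ∀ x y, f (x * y) = f x * f y := fun x y => hκ.injective (by
    rw [map_mul, hf, hf, hf, map_mul]
    calc star u * (ι x * ι y) * u = star u * ι x * 1 * ι y * u := by
          simp only [mul_assoc, one_mul]
      _ = _ := by rw [← hu.2]; simp only [mul_assoc])
  have hsmul : ∀ (c : ℂ) x, f (c • x) = c • f x := fun c x => hκ.injective (by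
    rw [map_smul, hf, hf, map_smul, mul_smul_comm, smul_mul_assoc])
  have hstar : ∀ x, f (star x) = star (f x) := fun x => hκ.injective (by
    rw [map_star, hf, hf, map_star, star_mul, star_mul, star_star, mul_assoc])
  have hinj : Function.Injective f := by
    intro x y hxy
    apply hι.injective
    have h4 : star u * ι x * u = star u * ι y * u := by rw [← hf, ← hf, hxy]
    have h5 := congrArg (fun z => u * z * star u) h4
    have h6 : ∀ z : A, u * (star u * z * u) * star u = z := by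
      intro z
      calc u * (star u * z * u) * star u = (u * star u) * z * (u * star u) := by
            simp only [mul_assoc]
        _ = z := by rw [hu.2, one_mul, mul_one]
    simpa only [h6] using h5
  have hsurj : Function.Surjective f := by
    intro y
    obtain ⟨x, hx⟩ := h2 (κ y) ⟨y, rfl⟩
    refine ⟨x, hκ.injective ?_⟩
    have hx' : ι x = u * κ y * star u := hx
    rw [hf, hx']
    calc star u * (u * κ y * star u) * u = (star u * u) * κ y * (star u * u) := by
          simp only [mul_assoc]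
      _ = κ y := by rw [hu.1, one_mul, mul_one]
  exact ⟨{ toFun := f
           invFun := Function.surjInv hsurj
           left_inv := Function.leftInverse_surjInv ⟨hinj, hsurj⟩
           right_inv := Function.rightInverse_surjInv hsurj
           map_mul' := hmul
           map_add' := hadd
           map_smul' := hsmul
           map_star' := hstar }⟩

/-- The uniqueness theorem inside one algebra. -/
theorem uniqueness {A : Type u} [CStarAlgebra A] [TVN A] {U : Ultrafilter ℕ}
    (hU : (U : Filter ℕ) ≤ atTop) {I J : Type*} [Finite I] [Nonempty I] [Finite J] [Nonempty J]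
    {N Q : I → Type u} [∀ i, CStarAlgebra (N i)] [∀ i, TVN (N i)] [∀ i, CStarAlgebra (Q i)]
    [∀ i, TVN (Q i)] {M P : J → Type u} [∀ j, CStarAlgebra (M j)] [∀ j, TVN (M j)]
    [∀ j, CStarAlgebra (P j)] [∀ j, TVN (P j)]
    (hN : ∀ i, IsII1 (N i)) (hM : ∀ j, IsII1 (M j)) (hQ : ∀ i, IsUltrapower U (N i) (Q i))
    (hP : ∀ j, IsUltrapower U (M j) (P j)) {ι : ∀ i, Q i →⋆ₐ[ℂ] A} {κ : ∀ j, P j →⋆ₐ[ℂ] A}
    (hι : IsFreeProduct Q A ι) (hκ : IsFreeProduct P A κ) :
    ∃ σ : I ≃ J, ∀ i, Nonempty (Q i ≃⋆ₐ[ℂ] P (σ i)) := by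
  choose σ u hu hσ using fun i => conj_into hU hN hM hQ hP hι hκ i
  choose τ v hv hτ using fun j => conj_into hU hM hN hP hQ hκ hι j
  -- composition on the side of I
  have hI : ∀ i, i = τ (σ i) ∧ u i * v (σ i) ∈ (ι i).range := by
    intro i
    obtain ⟨a, ha⟩ := exists_freeRep hU (hN i) (hQ i)
    refine malnormal (Q := fun i => (ι i).range)
      (fun i => (trPres_of_free hι i).vnSub_range) (freeFam_range hι) (gen_range hι)
      (ha.map (trPres_of_free hι i)) (fun g => ⟨a g, rfl⟩) ((hu i).mul (hv (σ i))) ?_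
    intro x hx
    have h1 := hτ (σ i) _ (hσ i x hx)
    have e : star (u i * v (σ i)) * x * (u i * v (σ i)) =
        star (v (σ i)) * (star (u i) * x * u i) * v (σ i) := by
      rw [star_mul]; simp only [mul_assoc]
    rw [e]; exact h1
  have hJ : ∀ j, j = σ (τ j) ∧ v j * u (τ j) ∈ (κ j).range := by
    intro j
    obtain ⟨a, ha⟩ := exists_freeRep hU (hM j) (hP j)
    refine malnormal (Q := fun j => (κ j).range)
      (fun j => (trPres_of_free hκ j).vnSub_range) (freeFam_range hκ) (gen_range hκ)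
      (ha.map (trPres_of_free hκ j)) (fun g => ⟨a g, rfl⟩) ((hv j).mul (hu (τ j))) ?_
    intro x hx
    have h1 := hσ (τ j) _ (hτ j x hx)
    have e : star (v j * u (τ j)) * x * (v j * u (τ j)) =
        star (u (τ j)) * (star (v j) * x * v j) * u (τ j) := by
      rw [star_mul]; simp only [mul_assoc]
    rw [e]; exact h1
  refine ⟨⟨σ, τ, fun i => (hI i).1.symm, fun j => (hJ j).1.symm⟩, fun i => ?_⟩
  show Nonempty (Q i ≃⋆ₐ[ℂ] P (σ i))
  refine equiv_of_conj (trPres_of_free hι i) (trPres_of_free hκ (σ i)) (hu i) (hσ i) ?_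
  -- u P u* = y (v* P v) y* with y = u v in the range of ι i
  intro x hx
  obtain ⟨hi, hy⟩ := hI i
  have h1 : star (v (σ i)) * x * v (σ i) ∈ (ι i).range := by
    have := hτ (σ i) x hx
    rw [← hi] at this
    exact this
  have e : u i * x * star (u i) = (u i * v (σ i)) * (star (v (σ i)) * x * v (σ i)) *
      star (u i * v (σ i)) := by
    rw [star_mul]
    calc u i * x * star (u i) = u i * 1 * x * 1 * star (u i) := by simp only [mul_one]
      _ = u i * (v (σ i) * star (v (σ i))) * x * (v (σ i) * star (v (σ i))) * star (u i) := by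
          rw [(hv (σ i)).2]
      _ = _ := by simp only [mul_assoc]
  rw [e]
  exact mul_mem (mul_mem hy h1) (star_mem hy)

/-- Free products of ultrapowers of II_1 factors are II_1 factors. -/
theorem isII1_of_free {A : Type u} [CStarAlgebra A] [TVN A] {U : Ultrafilter ℕ}
    (hU : (U : Filter ℕ) ≤ atTop) {I : Type*} [Nonempty I]
    {N Q : I → Type u} [∀ i, CStarAlgebra (N i)] [∀ i, TVN (N i)] [∀ i, CStarAlgebra (Q i)]
    [∀ i, TVN (Q i)] (hN : ∀ i, IsII1 (N i)) (hQ : ∀ i, IsUltrapower U (N i) (Q i))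
    {ι : ∀ i, Q i →⋆ₐ[ℂ] A} (hι : IsFreeProduct Q A ι) : IsII1 A := by
  obtain ⟨i⟩ := ‹Nonempty I›
  obtain ⟨a, ha⟩ := exists_freeRep hU (hN i) (hQ i)
  refine ⟨fun z _ hz => ?_, fun hfin => ?_⟩
  · refine member_irreducible (Q := fun i => (ι i).range) (i := i)
      (fun i => (trPres_of_free hι i).vnSub_range) (freeFam_range hι) (gen_range hι)
      (isFac_range (trPres_of_free hι i) ((hQ i).isII1 (hN i))) (ha.map (trPres_of_free hι i))
      (fun g => ⟨a g, rfl⟩) (fun x _ => hz x StarSubalgebra.mem_top)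
  · apply ((hQ i).isII1 (hN i)).2
    exact Module.Finite.of_injective ((ι i).toAlgHom.toLinearMap) (trPres_of_free hι i).injective

end Pool.Agent.KUR
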