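import Pool.Agent.KUR.Comp
import Pool.Agent.KUR.Spec

/-!
# KUR MatU: infinite dimensional factors are diffuse; matrix units in corners

PROOF.  (1) `split`: let `e ∈ S` be a nonzero projection which is minimal (every projection
`p ∈ S` with `p * e = p` is `0` or `e`).  Claim `e x e ∈ ℂ e` for all `x ∈ S`: it suffices to treat
`h = e (star a * a) e` with `‖h‖ ≤ 1`.  The set
`T = {y ∈ S | e y = y e ∧ ∃ c : ℂ, y (1 - e) = c (1 - e)}` is a VNSub containing `h`
(bounded 2-norm limits: the scalars `c` converge, or write `c` with the trace), so in `layer` the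
projections `e i` lie in `T`; `e i * e` is a projection of `S` below `e`, so it is `0` or `e`, and so
`e i ∈ span {e, 1 - e}`; hence `h` is a norm limit of elements of the finite dimensional space
`span {e, 1 - e}`, and since `h (1-e) = 0`, `h = c e`.
By `packing`, `1 = ∑ f l star (f l)` with `f l = f l e`, so every `x ∈ S` equals
`∑_{k,l} f k (star (f k) x f l) star (f l) = ∑ c_{kl} f k star (f l)`, so `S` is finite dimensional:
contradiction.  So some projection `p ∈ S`, `p e = p`, is neither `0` nor `e`.
(2) Iterating, every nonzero projection of `S` dominates `d` orthogonal nonzero projections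
`g 0, ..., g (d-1)` of `S`.
(3) Inside these find partial isometries `W i ∈ S` (i < d) with a common nonzero initial projection
`c'`, `W 0 = c' ≤ g 0`, `W i star (W i) ≤ g i`: start with `c' = g 0` and for `i = 1, 2, ...` use
`exists_pi` (with `e := g i`, `f := c'`) to get `w`, replace `c'` by `star w * w` (≤ c') and cut all
previous `W k` to `W k * (star w * w)`, `W i := w`.
(4) `maximal_principle` for tuples `V : Fin d → M`, `V i ∈ S`, `IsPI (V i)`, `e * V i = V i`,
`V 0 = star (V 0) * V 0`, `star (V i) * V i = V 0`, `star (V i) * V j = 0` for `i ≠ j`;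
relation `V ≤ V'` iff `V' i * V 0 = V i` for all `i`; `μ V = (tr (V 0)).re`.  Then
`n2 (V' i - V i)^2 = μ V' - μ V`.  If for a maximal `V` the projection `r = e - ∑ V i star (V i)` is not
zero, apply (2), (3) to `r` and add `W` to `V`.  (Note `V 0 ≤ e`, and `W 0 ≤ r` is orthogonal to
`V 0`.)  So `∑ V i star (V i) = e`; put `f i j = V i * star (V j)`.
-/

open Filter Topology

namespace Pool.Agent.KUR

universe u
variable {M : Type u} [CStarAlgebra M] [TVN M]

/-- Positive elements of a minimal corner are scalars. -/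
private theorem matu_corner_pos {S : StarSubalgebra ℂ M} (hS : VNSub S) {e : M} (he : e ∈ S)
    (hp : IsProj e) (hmin : ∀ p ∈ S, IsProj p → p * e = p → p = 0 ∨ p = e)
    {b : M} (hb : b ∈ S) (hbe : b * e = b) (hb1 : ‖b‖ ≤ 1) :
    star b * b ∈ Submodule.span ℂ ({e} : Set M) := by
  have hcl : IsClosed ((Submodule.span ℂ ({e} : Set M) : Submodule ℂ M) : Set M) :=
    Submodule.closed_of_finiteDimensional _
  have heb : e * star b = star b := by
    have := congrArg star hbe
    rwa [star_mul, hp.1] at this
  have hT : VNSub (S ⊓ StarSubalgebra.centralizer ℂ ({e} : Set M)) :=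
    hS.inf (vnSub_centralizer _)
  have hhT : star b * b ∈ S ⊓ StarSubalgebra.centralizer ℂ ({e} : Set M) := by
    refine StarSubalgebra.mem_inf.mpr ⟨mul_mem (star_mem hb) hb, ?_⟩
    rw [StarSubalgebra.mem_centralizer_iff]
    intro g hg
    rw [Set.mem_singleton_iff] at hg
    subst hg
    rw [hp.1]
    have : g * (star b * b) = star b * b * g := by
      rw [← mul_assoc, heb, mul_assoc, hbe]
    exact ⟨this, this⟩
  have hnorm : ‖star b * b‖ ≤ 1 := by
    rw [CStarRing.norm_star_mul_self]
    nlinarith [norm_nonneg b]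
  have happ : ∀ n : ℕ, 0 < n → ∃ c : ℂ, ‖star b * b - c • e‖ ≤ 1 / (n : ℝ) := by
    intro n hn
    obtain ⟨E, hE, hES, hEn⟩ := layer ⟨b, rfl⟩ hnorm hn
    have h1 : ∀ i, ∃ c : ℂ, E i * e = c • e := by
      intro i
      have h2 := StarSubalgebra.mem_inf.mp (hES i _ hT hhT)
      have h3 := ((StarSubalgebra.mem_centralizer_iff ℂ).mp h2.2 e (Set.mem_singleton e)).1
      have h4 : IsProj (E i * e) := by
        refine ⟨by rw [star_mul, hp.1, (hE i).1, h3], ?_⟩
        calc E i * e * (E i * e) = E i * (e * E i) * e := by simp only [mul_assoc]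
          _ = E i * E i * (e * e) := by rw [h3]; simp only [mul_assoc]
          _ = E i * e := by rw [(hE i).2, hp.2]
      rcases hmin (E i * e) (mul_mem h2.1 he) h4 (by rw [mul_assoc, hp.2]) with h5 | h5
      · exact ⟨0, by rw [h5, zero_smul]⟩
      · exact ⟨1, by rw [h5, one_smul]⟩
    choose c hc using h1
    refine ⟨(1 / (n : ℂ)) * ∑ i, c i, ?_⟩
    have h6 : star b * b - ((1 / (n : ℂ)) * ∑ i, c i) • e
        = (star b * b - (1 / (n : ℂ)) • ∑ i, E i) * e := by
      rw [sub_mul, mul_assoc, hbe, smul_mul_assoc, Finset.sum_mul, mul_smul, Finset.sum_smul]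
      simp_rw [hc]
    rw [h6]
    calc _ ≤ ‖star b * b - (1 / (n : ℂ)) • ∑ i, E i‖ * ‖e‖ := norm_mul_le _ _
      _ ≤ 1 / n * 1 := by
        apply mul_le_mul hEn hp.norm_le_one (norm_nonneg _)
        positivity
      _ = _ := mul_one _
  have hmem : star b * b ∈ closure ((Submodule.span ℂ ({e} : Set M) : Submodule ℂ M) : Set M) := by
    rw [Metric.mem_closure_iff]
    intro ε hε
    obtain ⟨n, hn⟩ := exists_nat_gt (1 / ε)
    have hn0 : (0 : ℝ) < n := lt_trans (by positivity) hn
    obtain ⟨c, hc⟩ := happ n (by exact_mod_cast hn0)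
    refine ⟨c • e, Submodule.smul_mem _ _ (Submodule.mem_span_singleton_self e), ?_⟩
    rw [dist_eq_norm]
    refine lt_of_le_of_lt hc ?_
    rw [div_lt_comm₀ hn0 hε] 
    exact hn
  rwa [hcl.closure_eq] at hmem

/-- Minimal corners are scalars. -/
private theorem matu_corner {S : StarSubalgebra ℂ M} (hS : VNSub S) {e : M} (he : e ∈ S)
    (hp : IsProj e) (hmin : ∀ p ∈ S, IsProj p → p * e = p → p = 0 ∨ p = e)
    {x : M} (hx : x ∈ S) :
    e * x * e ∈ Submodule.span ℂ ({e} : Set M) := by
  have key : ∀ a ∈ S, e * (star a * a) * e ∈ Submodule.span ℂ ({e} : Set M) := by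
    intro a ha
    have hr : (0 : ℝ) < (‖a‖ + 1)⁻¹ := by positivity
    have hrc : (((‖a‖ + 1)⁻¹ : ℝ) : ℂ) ≠ 0 := by exact_mod_cast hr.ne'
    have h1 := matu_corner_pos hS he hp hmin (b := (((‖a‖ + 1)⁻¹ : ℝ) : ℂ) • (a * e))
      (by exact SMulMemClass.smul_mem _ (mul_mem ha he))
      (by rw [smul_mul_assoc, mul_assoc, hp.2])
      (by
        rw [norm_smul, Complex.norm_real, Real.norm_eq_abs, abs_of_pos hr]
        have h2 : ‖a * e‖ ≤ ‖a‖ + 1 := by
          calc ‖a * e‖ ≤ ‖a‖ * ‖e‖ := norm_mul_le _ _
            _ ≤ ‖a‖ * 1 := mul_le_mul_of_nonneg_left hp.norm_le_one (norm_nonneg _)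
            _ ≤ _ := by linarith
        calc (‖a‖ + 1)⁻¹ * ‖a * e‖ ≤ (‖a‖ + 1)⁻¹ * (‖a‖ + 1) :=
              mul_le_mul_of_nonneg_left h2 hr.le
          _ = 1 := inv_mul_cancel₀ (by positivity))
    have h3 : star ((((‖a‖ + 1)⁻¹ : ℝ) : ℂ) • (a * e)) * ((((‖a‖ + 1)⁻¹ : ℝ) : ℂ) • (a * e))
        = ((((‖a‖ + 1)⁻¹ : ℝ) : ℂ) * (((‖a‖ + 1)⁻¹ : ℝ) : ℂ)) • (e * (star a * a) * e) := by
      rw [star_smul, star_mul, hp.1, smul_mul_smul_comm]
      simp only [mul_assoc]
      congr 2
      exact Complex.conj_ofReal _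
    rw [h3] at h1
    exact (Submodule.smul_mem_iff _ (mul_ne_zero hrc hrc)).mp h1
  have h4 : (4 : ℂ) • (e * x * e) = e * (star (1 + x) * (1 + x)) * e
      - e * (star (1 - x) * (1 - x)) * e
      + (-Complex.I) • (e * (star (1 + Complex.I • x) * (1 + Complex.I • x)) * e)
      - (-Complex.I) • (e * (star (1 - Complex.I • x) * (1 - Complex.I • x)) * e) := by
    have e0 : ∀ z : M, star (1 + Complex.I • z) * (1 + Complex.I • z)
        = 1 + Complex.I • z - Complex.I • star z + star z * z := by
      intro z
      simp [add_mul, mul_add, star_smul, smul_smul]; abel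
    have e1 := e0 x
    have e2 : star (1 - Complex.I • x) * (1 - Complex.I • x)
        = 1 - Complex.I • x + Complex.I • star x + star x * x := by
      have := e0 (-x)
      rw [smul_neg, ← sub_eq_add_neg] at this
      rw [this]
      simp
    have e3 : star (1 + x) * (1 + x) = 1 + x + star x + star x * x := by
      simp [add_mul, mul_add]; abel
    have e4 : star (1 - x) * (1 - x) = 1 - x - star x + star x * x := by
      simp [sub_mul, mul_sub]; abel
    rw [e1, e2, e3, e4]
    simp only [add_mul, mul_add, sub_mul, mul_sub, smul_add, smul_sub, smul_mul_assoc,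
      mul_smul_comm, smul_smul]
    have hI : -Complex.I * Complex.I = 1 := by simp
    rw [hI]
    module
  have h5 : (4 : ℂ) • (e * x * e) ∈ Submodule.span ℂ ({e} : Set M) := by
    rw [h4]
    have hIx : Complex.I • x ∈ S := SMulMemClass.smul_mem _ hx
    refine sub_mem (add_mem (sub_mem (key _ ?_) (key _ ?_)) (Submodule.smul_mem _ _ (key _ ?_)))
      (Submodule.smul_mem _ _ (key _ ?_))
    · exact add_mem (one_mem _) hx
    · exact sub_mem (one_mem _) hx
    · exact add_mem (one_mem _) hIx
    · exact sub_mem (one_mem _) hIx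
  exact (Submodule.smul_mem_iff _ (by norm_num)).mp h5

theorem split {S : StarSubalgebra ℂ M} (hS : VNSub S) (hF : IsFac S)
    (hI : ¬ Module.Finite ℂ S) {e : M} (he : e ∈ S) (hp : IsProj e) (he0 : e ≠ 0) :
    ∃ p ∈ S, IsProj p ∧ p * e = p ∧ p ≠ 0 ∧ p ≠ e := by
  by_contra hcon
  push Not at hcon
  have hmin : ∀ p ∈ S, IsProj p → p * e = p → p = 0 ∨ p = e := by
    intro p hpS hpp hpe
    by_cases h0 : p = 0
    · exact Or.inl h0
    · exact Or.inr (hcon p hpS hpp hpe h0)
  apply hI
  obtain ⟨n, f, -, hfS, hfe, -, -, hsum⟩ := packing hS hF he hp he0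
  set W : Submodule ℂ M :=
    Submodule.span ℂ (Set.range fun q : Fin (n + 1) × Fin (n + 1) => f q.1 * star (f q.2)) with hW
  have hWf : FiniteDimensional ℂ W := FiniteDimensional.span_of_finite ℂ (Set.finite_range _)
  have hle : ∀ x ∈ S, x ∈ W := by
    intro x hx
    have h1 : x = ∑ k, ∑ l, f k * (star (f k) * x * f l) * star (f l) := by
      calc x = (∑ k, f k * star (f k)) * x * (∑ l, f l * star (f l)) := by
            rw [hsum, one_mul, mul_one]
        _ = _ := by
            rw [Finset.sum_mul, Finset.sum_mul]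
            refine Finset.sum_congr rfl fun k _ => ?_
            rw [Finset.mul_sum]
            refine Finset.sum_congr rfl fun l _ => ?_
            simp only [mul_assoc]
    rw [h1]
    refine sum_mem fun k _ => sum_mem fun l _ => ?_
    have h2 := matu_corner hS he hp hmin
      (mul_mem (mul_mem (star_mem (hfS k)) hx) (hfS l))
    obtain ⟨c, hc⟩ := Submodule.mem_span_singleton.mp h2
    have h3 : f k * (star (f k) * x * f l) * star (f l)
        = f k * (e * (star (f k) * x * f l) * e) * star (f l) := by
      have h4 : e * star (f l) = star (f l) := by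
        have := congrArg star (hfe l)
        rwa [star_mul, hp.1] at this
      calc f k * (star (f k) * x * f l) * star (f l)
          = (f k * e) * (star (f k) * x * f l) * (e * star (f l)) := by rw [hfe, h4]
        _ = _ := by simp only [mul_assoc]
    rw [h3, ← hc, mul_smul_comm, smul_mul_assoc, hfe]
    exact Submodule.smul_mem _ _ (Submodule.subset_span ⟨(k, l), rfl⟩)
  have hle2 : Subalgebra.toSubmodule S.toSubalgebra ≤ W := fun x hx => hle x hx
  have := Submodule.finiteDimensional_of_le hle2
  exact this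

/-- Orthogonal nonzero projections below a projection. -/
private theorem matu_orth {S : StarSubalgebra ℂ M} (hS : VNSub S) (hF : IsFac S)
    (hI : ¬ Module.Finite ℂ S) (d : ℕ) : ∀ {e : M}, e ∈ S → IsProj e → e ≠ 0 →
    ∃ g : Fin d → M, (∀ i, g i ∈ S) ∧ (∀ i, IsProj (g i)) ∧ (∀ i, e * g i = g i) ∧
      (∀ i, g i ≠ 0) ∧ (∀ i j, i ≠ j → g i * g j = 0) := by
  induction d with
  | zero => intro e _ _ _; exact ⟨fun i => i.elim0, fun i => i.elim0, fun i => i.elim0,
      fun i => i.elim0, fun i => i.elim0, fun i => i.elim0⟩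
  | succ d ih =>
    intro e he hp he0
    obtain ⟨p, hpS, hpp, hpe, hp0, hpe'⟩ := split hS hF hI he hp he0
    have hep : e * p = p := by
      have := congrArg star hpe
      rwa [star_mul, hp.1, hpp.1] at this
    have hq : IsProj (e - p) := by
      refine ⟨by rw [star_sub, hp.1, hpp.1], ?_⟩
      rw [sub_mul, mul_sub, mul_sub, hp.2, hpe, hep, hpp.2]; simp
    obtain ⟨g, h1, h2, h3, h4, h5⟩ := ih (sub_mem he hpS) hq (sub_ne_zero.mpr (Ne.symm hpe'))
    have hpg : ∀ i, p * g i = 0 := by
      intro i
      rw [← h3 i, ← mul_assoc, mul_sub, hpe, hpp.2, sub_self, zero_mul]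
    have hgp : ∀ i, g i * p = 0 := by
      intro i
      have := congrArg star (hpg i)
      rwa [star_mul, hpp.1, (h2 i).1, star_zero] at this
    refine ⟨Fin.cons p g, ?_, ?_, ?_, ?_, ?_⟩
    · intro i; refine Fin.cases ?_ (fun j => ?_) i
      · simpa using hpS
      · simpa using h1 j
    · intro i; refine Fin.cases ?_ (fun j => ?_) i
      · simpa using hpp
      · simpa using h2 j
    · intro i; refine Fin.cases ?_ (fun j => ?_) i
      · simpa using hep
      · simp only [Fin.cons_succ]
        rw [← h3 j, ← mul_assoc, mul_sub, hp.2, hep]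
    · intro i; refine Fin.cases ?_ (fun j => ?_) i
      · simpa using hp0
      · simpa using h4 j
    · intro i j hij
      refine Fin.cases ?_ (fun i' => ?_) i hij
      · refine Fin.cases ?_ (fun j' => ?_) j
        · intro h; exact absurd rfl h
        · intro _; simpa using hpg j'
      · refine Fin.cases ?_ (fun j' => ?_) j
        · intro _; simpa using hgp i'
        · intro h
          simp only [Fin.cons_succ]
          exact h5 i' j' (fun hh => h (by rw [hh]))

/-- Partial isometries with a common initial projection. -/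
private theorem matu_common {S : StarSubalgebra ℂ M} (hS : VNSub S) (hF : IsFac S)
    {ι : Type*} [DecidableEq ι] (g : ι → M) (hgS : ∀ i, g i ∈ S) (hgp : ∀ i, IsProj (g i))
    (hg0 : ∀ i, g i ≠ 0) {c : M} (hcS : c ∈ S) (hcp : IsProj c) (hc0 : c ≠ 0) (s : Finset ι) :
    ∃ c' ∈ S, IsProj c' ∧ c' ≠ 0 ∧ c' * c = c' ∧ ∃ W : ι → M,
      ∀ i ∈ s, W i ∈ S ∧ g i * W i = W i ∧ star (W i) * W i = c' ∧ W i * c' = W i := by
  induction s using Finset.induction_on with
  | empty => exact ⟨c, hcS, hcp, hc0, hcp.2, fun _ => 0, by simp⟩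
  | insert i s his ih =>
    obtain ⟨c', h1, h2, h3, h4, W, hW⟩ := ih
    obtain ⟨w, hwS, hw0, hwpi, hgw, hwc⟩ := exists_pi hS hF (hgS i) h1 (hgp i) h2 (hg0 i) h3
    have hc'w : c' * star w = star w := by
      have := congrArg star hwc
      rwa [star_mul, h2.1] at this
    have hwp : IsProj (star w * w) := by
      refine ⟨by rw [star_mul, star_star], ?_⟩
      calc star w * w * (star w * w) = star w * (w * star w * w) := by simp only [mul_assoc]
        _ = star w * w := by rw [hwpi]
    have hle : star w * w * c' = star w * w := by rw [mul_assoc, hwc]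
    have hle' : c' * (star w * w) = star w * w := by rw [← mul_assoc, hc'w]
    have hne : star w * w ≠ 0 := by
      intro h
      apply hw0
      apply TVN.faithful
      rw [h, map_zero]
    refine ⟨star w * w, mul_mem (star_mem hwS) hwS, hwp, hne, ?_,
      fun j => if j = i then w else W j * (star w * w), ?_⟩
    · calc star w * w * c = star w * w * c' * c := by rw [hle]
        _ = star w * w * (c' * c) := by rw [mul_assoc]
        _ = _ := by rw [h4, hle]
    · intro j hj
      by_cases hji : j = i
      · subst hji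
        simp only [if_true]
        exact ⟨hwS, hgw, trivial, by rw [← mul_assoc]; exact hwpi⟩
      · simp only [if_neg hji]
        have hjs : j ∈ s := (Finset.mem_insert.mp hj).resolve_left hji
        obtain ⟨a1, a2, a3, a4⟩ := hW j hjs
        refine ⟨mul_mem a1 (mul_mem (star_mem hwS) hwS), by rw [← mul_assoc, a2], ?_, ?_⟩
        · rw [star_mul, hwp.1]
          calc star w * w * star (W j) * (W j * (star w * w))
              = star w * w * (star (W j) * W j) * (star w * w) := by simp only [mul_assoc]
            _ = _ := by rw [a3, hle, hwp.2]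
        · rw [mul_assoc, hwp.2]

/-- The tuples used for matrix units. -/
private structure MTup (S : StarSubalgebra ℂ M) (e : M) (m : ℕ) (V : Fin (m + 1) → M) : Prop where
  mem : ∀ i, V i ∈ S
  left : ∀ i, e * V i = V i
  self : ∀ i, star (V i) * V i = V 0
  orth : ∀ i j, i ≠ j → star (V i) * V j = 0
  right : ∀ i, V i * V 0 = V i

private theorem MTup.proj {S : StarSubalgebra ℂ M} {e : M} {m : ℕ} {V : Fin (m + 1) → M}
    (h : MTup S e m V) : IsProj (V 0) := by
  refine ⟨?_, h.right 0⟩
  have := congrArg star (h.self 0)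
  rw [star_mul, star_star, h.self 0] at this
  exact this.symm

private theorem MTup.norm_le {S : StarSubalgebra ℂ M} {e : M} {m : ℕ} {V : Fin (m + 1) → M}
    (h : MTup S e m V) (i : Fin (m + 1)) : ‖V i‖ ≤ 1 := by
  have h1 := CStarRing.norm_star_mul_self (x := V i)
  rw [h.self i] at h1
  have h2 := h.proj.norm_le_one
  nlinarith [norm_nonneg (V i)]

/-- A nonzero tuple below a nonzero projection. -/
private theorem matu_tuple {S : StarSubalgebra ℂ M} (hS : VNSub S) (hF : IsFac S)
    (hI : ¬ Module.Finite ℂ S) (m : ℕ) {e : M} (he : e ∈ S) (hp : IsProj e) (he0 : e ≠ 0) :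
    ∃ V : Fin (m + 1) → M, MTup S e m V ∧ V 0 ≠ 0 := by
  obtain ⟨g, g1, g2, g3, g4, g5⟩ := matu_orth hS hF hI (m + 1) he hp he0
  obtain ⟨c, c1, c2, c3, c4, W, hW⟩ := matu_common hS hF g g1 g2 g4 (g1 0) (g2 0) (g4 0)
    (Finset.univ.erase 0)
  have hgc : g 0 * c = c := by
    have := congrArg star c4
    rwa [star_mul, c2.1, (g2 0).1] at this
  have hall : ∀ i, (if i = 0 then c else W i) ∈ S ∧
      g i * (if i = 0 then c else W i) = (if i = 0 then c else W i) ∧
      star (if i = 0 then c else W i) * (if i = 0 then c else W i) = c ∧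
      (if i = 0 then c else W i) * c = (if i = 0 then c else W i) := by
    intro i
    by_cases h0 : i = 0
    · subst h0
      simp only [if_true]
      exact ⟨c1, hgc, by rw [c2.1, c2.2], c2.2⟩
    · simp only [if_neg h0]
      exact hW i (by simp [h0])
  refine ⟨fun i => if i = 0 then c else W i, ⟨fun i => (hall i).1, fun i => ?_, fun i => ?_,
    fun i j hij => ?_, fun i => ?_⟩, ?_⟩
  · rw [← (hall i).2.1, ← mul_assoc, g3 i]
  · rw [(hall i).2.2.1]; simp
  · have h1 := (hall i).2.1
    have h2 := (hall j).2.1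
    show star (if i = 0 then c else W i) * (if j = 0 then c else W j) = 0
    rw [← h1, ← h2, star_mul, (g2 i).1]
    calc star (if i = 0 then c else W i) * g i * (g j * (if j = 0 then c else W j))
        = star (if i = 0 then c else W i) * (g i * g j) * (if j = 0 then c else W j) := by
          simp only [mul_assoc]
      _ = 0 := by rw [g5 i j hij, mul_zero, zero_mul]
  · have := (hall i).2.2.2
    simpa using this
  · simpa using c3

private theorem MTup.n2_sq {S : StarSubalgebra ℂ M} {e : M} {m : ℕ} {V V' : Fin (m + 1) → M}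
    (h : MTup S e m V) (h' : MTup S e m V') (hr : ∀ i, V' i * V 0 = V i) (i : Fin (m + 1)) :
    n2 (V' i - V i) ^ 2 = (tr (V' 0)).re - (tr (V 0)).re := by
  have h0 : V' 0 * V 0 = V 0 := hr 0
  have h0' : V 0 * V' 0 = V 0 := by
    have := congrArg star h0
    rwa [star_mul, h.proj.1, h'.proj.1] at this
  have e1 : V' i - V i = V' i * (1 - V 0) := by rw [mul_sub, mul_one, hr]
  have e2 : star (V' i - V i) * (V' i - V i) = V' 0 - V 0 := by
    rw [e1, star_mul, star_sub, star_one, h.proj.1]
    calc (1 - V 0) * star (V' i) * (V' i * (1 - V 0))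
        = (1 - V 0) * (star (V' i) * V' i) * (1 - V 0) := by simp only [mul_assoc]
      _ = (1 - V 0) * V' 0 * (1 - V 0) := by rw [h'.self]
      _ = _ := by
        rw [sub_mul, one_mul, h0', mul_sub, mul_one, sub_mul, h0, h.proj.2]; simp
  rw [Pool.Agent.KUR.n2_sq, e2, map_sub, Complex.sub_re]

theorem exists_matrix_units {S : StarSubalgebra ℂ M} (hS : VNSub S) (hF : IsFac S)
    (hI : ¬ Module.Finite ℂ S) {e : M} (he : e ∈ S) (hp : IsProj e) (he0 : e ≠ 0) (d : ℕ)
    (hd : 0 < d) :
    ∃ f : Fin d → Fin d → M, (∀ i j, f i j ∈ S) ∧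
      (∀ i j k l, f i j * f k l = if j = k then f i l else 0) ∧
      (∀ i j, star (f i j) = f j i) ∧ ∑ i, f i i = e := by
  obtain ⟨m, rfl⟩ : ∃ m, d = m + 1 := ⟨d - 1, by omega⟩
  have hzero : MTup S e m (fun _ => (0 : M)) :=
    ⟨fun _ => zero_mem _, fun _ => mul_zero _, fun _ => by simp, fun _ _ _ => by simp,
      fun _ => by simp⟩
  obtain ⟨V, -, hmax⟩ := maximal_principle
    (X := {V : Fin (m + 1) → M // MTup S e m V})
    (fun V V' => ∀ i, V'.1 i * V.1 0 = V.1 i)
    (fun V => V.2.right)
    (fun V V' V'' h1 h2 i => by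
      calc V''.1 i * V.1 0 = V''.1 i * (V'.1 0 * V.1 0) := by rw [h1 0]
        _ = V''.1 i * V'.1 0 * V.1 0 := by rw [mul_assoc]
        _ = V.1 i := by rw [h2 i, h1 i])
    (fun V => (tr (V.1 0)).re)
    (fun V V' h => by
      have h1 := MTup.n2_sq V.2 V'.2 h 0
      have h2 := sq_nonneg (n2 (V'.1 0 - V.1 0))
      show (tr (V.1 0)).re ≤ (tr (V'.1 0)).re
      linarith)
    1
    (fun V => by
      show (tr (V.1 0)).re ≤ 1
      calc (tr (V.1 0)).re ≤ ‖tr (V.1 0)‖ := Complex.re_le_norm _
        _ ≤ ‖V.1 0‖ := norm_tr_le _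
        _ ≤ 1 := V.2.norm_le 0)
    (by
      intro F hF1
      have hmono : ∀ n k i, (F (n + k)).1 i * (F n).1 0 = (F n).1 i := by
        intro n k
        induction k with
        | zero => exact fun i => (F n).2.right i
        | succ k ih =>
          intro i
          calc (F (n + (k + 1))).1 i * (F n).1 0
              = (F (n + k + 1)).1 i * ((F (n + k)).1 0 * (F n).1 0) := by rw [ih 0]; rfl
            _ = (F (n + k + 1)).1 i * (F (n + k)).1 0 * (F n).1 0 := by rw [mul_assoc]
            _ = _ := by rw [hF1 (n + k) i, ih i]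
      have hmono' : ∀ n k, n ≤ k → ∀ i, (F k).1 i * (F n).1 0 = (F n).1 i := by
        intro n k hnk i
        obtain ⟨j, rfl⟩ := Nat.exists_eq_add_of_le hnk
        exact hmono n j i
      have htm : Monotone fun n => (tr ((F n).1 0)).re := by
        intro n k hnk
        have h1 := MTup.n2_sq (F n).2 (F k).2 (hmono' n k hnk) 0
        have h2 := sq_nonneg (n2 ((F k).1 0 - (F n).1 0))
        show (tr ((F n).1 0)).re ≤ (tr ((F k).1 0)).re
        linarith
      have htb : BddAbove (Set.range fun n => (tr ((F n).1 0)).re) := by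
        refine ⟨1, ?_⟩
        rintro _ ⟨n, rfl⟩
        show (tr ((F n).1 0)).re ≤ 1
        calc (tr ((F n).1 0)).re ≤ ‖tr ((F n).1 0)‖ := Complex.re_le_norm _
          _ ≤ ‖(F n).1 0‖ := norm_tr_le _
          _ ≤ 1 := (F n).2.norm_le 0
      have htc := (tendsto_atTop_ciSup htm htb).cauchySeq
      have hlim : ∀ i, ∃ y : M, ‖y‖ ≤ 1 ∧ Tendsto (fun n => n2 ((F n).1 i - y)) atTop (𝓝 0) := by
        intro i
        apply complete_ball (fun n => (F n).1 i) 1 (fun n => (F n).2.norm_le i)
        intro ε hε
        obtain ⟨n₀, h₀⟩ := Metric.cauchySeq_iff.mp htc (ε ^ 2) (by positivity)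
        have hle : ∀ a b, n₀ ≤ a → a ≤ b → n2 ((F b).1 i - (F a).1 i) < ε := by
          intro a b ha hab
          have h1 := MTup.n2_sq (F a).2 (F b).2 (hmono' a b hab) i
          have h2 := h₀ b (ha.trans hab) a ha
          rw [Real.dist_eq] at h2
          have h3 := (abs_lt.mp h2).2
          have h4 : n2 ((F b).1 i - (F a).1 i) ^ 2 < ε ^ 2 := by rw [h1]; exact h3
          exact lt_of_pow_lt_pow_left₀ 2 hε.le h4
        refine ⟨n₀, fun a b ha hb => ?_⟩
        rcases le_total a b with hab | hab
        · rw [n2_sub_comm]; exact hle a b ha hab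
        · exact hle b a hb hab
      choose Y hY1 hY using hlim
      have hself : ∀ i j, Tendsto (fun n => n2 (star ((F n).1 i) * (F n).1 j
          - star (Y i) * Y j)) atTop (𝓝 0) := by
        intro i j
        refine n2_lim_mul (C := 1) (fun n => ?_) (n2_lim_star (hY i)) (hY j)
        rw [norm_star]; exact (F n).2.norm_le i
      have hYT : MTup S e m Y := by
        refine ⟨fun i => ?_, fun i => ?_, fun i => ?_, fun i j hij => ?_, fun i => ?_⟩
        · exact hS (fun n => (F n).1 i) (Y i) 1 (fun n => (F n).2.mem i)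
            (fun n => (F n).2.norm_le i) (hY i)
        · have h1 := n2_lim_mul_left e (hY i)
          simp_rw [fun n => (F n).2.left i] at h1
          exact eq_of_n2_lim h1 (hY i)
        · have h1 := hself i i
          simp_rw [fun n => (F n).2.self i] at h1
          exact eq_of_n2_lim h1 (hY 0)
        · have h1 := hself i j
          simp_rw [fun n => (F n).2.orth i j hij] at h1
          have h2 : Tendsto (fun _ : ℕ => n2 ((0 : M) - 0)) atTop (𝓝 0) := by
            simp [n2_zero]
          exact eq_of_n2_lim h1 h2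
        · have h1 := n2_lim_mul (C := 1) (fun n => (F n).2.norm_le i) (hY i) (hY 0)
          simp_rw [fun n => (F n).2.right i] at h1
          exact eq_of_n2_lim h1 (hY i)
      refine ⟨⟨Y, hYT⟩, fun n i => ?_⟩
      have h1 := n2_lim_mul_right ((F n).1 0) (hY i)
      have h2 : Tendsto (fun k => n2 ((F k).1 i * (F n).1 0 - (F n).1 i)) atTop (𝓝 0) := by
        refine tendsto_const_nhds.congr' ?_
        filter_upwards [eventually_ge_atTop n] with k hk
        rw [hmono' n k hk i, sub_self, n2_zero]
      exact eq_of_n2_lim h1 h2)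
    ⟨fun _ => 0, hzero⟩
  obtain ⟨V, hV⟩ := V
  have hmax' : ∀ V' : Fin (m + 1) → M, MTup S e m V' → (∀ i, V' i * V 0 = V i) →
      (tr (V' 0)).re = (tr (V 0)).re := fun V' h1 h2 => hmax ⟨V', h1⟩ h2
  set q : M := ∑ i, V i * star (V i) with hq
  have hqS : q ∈ S := sum_mem fun i _ => mul_mem (hV.mem i) (star_mem (hV.mem i))
  have hqs : star q = q := by
    rw [hq, star_sum]
    refine Finset.sum_congr rfl fun i _ => ?_
    rw [star_mul, star_star]
  have hqV : ∀ i, q * V i = V i := by
    intro i
    rw [hq, Finset.sum_mul, Finset.sum_eq_single i]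
    · rw [mul_assoc, hV.self, hV.right]
    · intro j _ hji
      rw [mul_assoc, hV.orth j i hji, mul_zero]
    · intro h; exact absurd (Finset.mem_univ i) h
  have heq : e * q = q := by
    rw [hq, Finset.mul_sum]
    refine Finset.sum_congr rfl fun i _ => ?_
    rw [← mul_assoc, hV.left]
  have hqe : q * e = q := by
    have := congrArg star heq
    rwa [star_mul, hqs, hp.1] at this
  have hqq : q * q = q := by
    conv_lhs => rw [hq]
    rw [← hq, Finset.sum_mul]
    conv_rhs => rw [hq]
    refine Finset.sum_congr rfl fun i _ => ?_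
    have h1 : star (V i) * q = star (V i) := by
      have := congrArg star (hqV i)
      rwa [star_mul, hqs] at this
    rw [mul_assoc, h1]
  have hr : IsProj (e - q) := by
    refine ⟨by rw [star_sub, hp.1, hqs], ?_⟩
    rw [sub_mul, mul_sub, mul_sub, hp.2, heq, hqe, hqq]; simp
  have hrV : ∀ i, (e - q) * V i = 0 := by
    intro i; rw [sub_mul, hV.left, hqV, sub_self]
  have hr0 : e - q = 0 := by
    by_contra hne
    obtain ⟨W, hW, hW0⟩ := matu_tuple hS hF hI m (sub_mem he hqS) hr hne
    have c1 : ∀ i j, star (V i) * W j = 0 := by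
      intro i j
      have h1 : star (V i) * (e - q) = 0 := by
        have := congrArg star (hrV i)
        rwa [star_mul, hr.1, star_zero] at this
      rw [← hW.left j, ← mul_assoc, h1, zero_mul]
    have c2 : ∀ i j, star (W i) * V j = 0 := by
      intro i j
      have := congrArg star (c1 j i)
      rwa [star_mul, star_star, star_zero] at this
    have c3 : ∀ i, V i * W 0 = 0 := by
      intro i
      have h1 : V 0 * W 0 = 0 := by
        have := c1 0 0
        rwa [hV.proj.1] at this
      rw [← hV.right i, mul_assoc, h1, mul_zero]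
    have c4 : ∀ i, W i * V 0 = 0 := by
      intro i
      have h1 : W 0 * V 0 = 0 := by
        have := c2 0 0
        rwa [hW.proj.1] at this
      rw [← hW.right i, mul_assoc, h1, mul_zero]
    have heW : ∀ i, e * W i = W i := by
      intro i
      rw [← hW.left i, ← mul_assoc, mul_sub, hp.2, heq]
    have hV' : MTup S e m (fun i => V i + W i) := by
      refine ⟨fun i => add_mem (hV.mem i) (hW.mem i), fun i => ?_, fun i => ?_,
        fun i j hij => ?_, fun i => ?_⟩
      · rw [mul_add, hV.left, heW]
      · rw [star_add, add_mul, mul_add, mul_add, hV.self, hW.self, c1, c2]; simp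
      · rw [star_add, add_mul, mul_add, mul_add, hV.orth i j hij, hW.orth i j hij, c1, c2]; simp
      · rw [add_mul, mul_add, mul_add, hV.right, hW.right, c3, c4]; simp
    have h1 := hmax' _ hV' (fun i => by rw [add_mul, hV.right, c4, add_zero])
    rw [map_add, Complex.add_re] at h1
    have h2 := hW.proj.n2_sq
    have h3 : n2 (W 0) = 0 := by
      have : n2 (W 0) ^ 2 = 0 := by rw [h2]; linarith
      exact pow_eq_zero_iff (two_ne_zero) |>.mp this
    exact hW0 (n2_eq_zero.mp h3)
  refine ⟨fun i j => V i * star (V j), fun i j => mul_mem (hV.mem i) (star_mem (hV.mem j)),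
    fun i j k l => ?_, fun i j => by rw [star_mul, star_star], ?_⟩
  · by_cases hjk : j = k
    · subst hjk
      rw [if_pos rfl]
      calc V i * star (V j) * (V j * star (V l)) = V i * (star (V j) * V j) * star (V l) := by
            simp only [mul_assoc]
        _ = _ := by rw [hV.self, hV.right]
    · rw [if_neg hjk]
      calc V i * star (V j) * (V k * star (V l)) = V i * (star (V j) * V k) * star (V l) := by
            simp only [mul_assoc]
        _ = _ := by rw [hV.orth j k hjk, mul_zero, zero_mul]
  · exact (sub_eq_zero.mp hr0).symm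

end Pool.Agent.KUR
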