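import Pool.Agent.KUR.Basic2

/-!
# KUR Words: reduced words span; words of different shape are orthogonal

PROOF.  (1) `mem_span_words`: let `V` be the span of the values of the reduced words with all indices
in `K₀` (the empty word gives `1`).  `V` is stable under left multiplication by `a ∈ A k`, `k ∈ K₀`:
write `a = (a - tr a) + tr a`; so take `tr a = 0` and a word `l`.  If `l = []` or the head index of `l`
is `≠ k` then `a * wv l = wv ((k,a) :: l)`.  If `l = (k, b) :: l'`, then
`a * wv l = (a b - tr (a b)) wv l' + tr (a b) wv l'`, the first is `wv ((k, ab - tr(ab)) :: l')`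
(the head of `l'` is `≠ k`).  `StarAlgebra.adjoin ℂ (⋃ A k)` is the span of products of elements of
the `A k` (the union is star closed: `StarAlgebra.adjoin` = `Algebra.adjoin` of `s ∪ star s`;
`Algebra.adjoin_induction`-type or `Submodule.span` of the monoid closure,
`Algebra.adjoin_eq_span`), and each product of elements of the `A k` lies in `V` by induction.
(2) `word_orth`: induction on `l`.  `star (wv l)` is the product of the stars in reversed order.
If one of the lists is empty and the other is not: trace of a reduced word (or of the conjugate of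
one).  If `l = (k,x)::m`, `l' = (k',x')::m'`, `k ≠ k'`: `star (wv l) * wv l'` is the value of the
reduced word `(m reversed, starred) ++ [(k, star x), (k', x')] ++ m'`.  If `k = k'`:
`star x * x' = (star x * x')° + tr (star x * x')`; the first part gives the reduced word
`(m reversed starred) ++ [(k, (star x x')°)] ++ m'`, trace 0; the second gives
`tr (star x x') * tr (star (wv m) * wv m')` and `m.map fst ≠ m'.map fst`.
-/

open Filter Topology

namespace Pool.Agent.KUR

universe u
variable {M : Type u} [CStarAlgebra M] [TVN M] {K : Type*}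

private theorem Words_wv_nil : wv ([] : List (K × M)) = 1 := rfl

private theorem Words_wv_cons (p : K × M) (l : List (K × M)) : wv (p :: l) = p.2 * wv l := by
  simp only [wv, List.map_cons, List.prod_cons]

private theorem Words_wv_append (l l' : List (K × M)) : wv (l ++ l') = wv l * wv l' := by
  simp only [wv, List.map_append, List.prod_append]

/-- The reversed starred word. -/
def revStar (l : List (K × M)) : List (K × M) := (l.map fun p => (p.1, star p.2)).reverse

private theorem Words_revStar_cons (p : K × M) (l : List (K × M)) :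
    revStar (p :: l) = revStar l ++ [(p.1, star p.2)] := by
  simp only [revStar, List.map_cons, List.reverse_cons]

theorem wv_revStar (l : List (K × M)) : wv (revStar l) = star (wv l) := by
  induction l with
  | nil => simp [revStar, wv]
  | cons p l ih =>
    rw [Words_revStar_cons, Words_wv_append, ih, Words_wv_cons, Words_wv_cons, Words_wv_nil,
      mul_one, star_mul]

theorem redW_revStar {A : K → StarSubalgebra ℂ M} {l : List (K × M)} (h : RedW A l) :
    RedW A (revStar l) := by
  refine ⟨?_, ?_⟩
  · rw [revStar, List.isChain_reverse, List.isChain_map]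
    exact h.1.imp fun a b hab => Ne.symm hab
  · intro q hq
    rw [revStar, List.mem_reverse, List.mem_map] at hq
    obtain ⟨p, hp, rfl⟩ := hq
    refine ⟨star_mem (h.2 p hp).1, ?_⟩
    rw [tr_star, (h.2 p hp).2, map_zero]

/-- Removal of the trace. -/
private theorem Words_centre {A : K → StarSubalgebra ℂ M} {k : K} {a : M} (ha : a ∈ A k) :
    a - tr a • (1 : M) ∈ A k ∧ tr (a - tr a • (1 : M)) = 0 := by
  refine ⟨sub_mem ha ((A k).smul_mem (one_mem _) _), ?_⟩
  rw [map_sub, map_smul, tr_one', smul_eq_mul, mul_one, sub_self]

private theorem Words_redW_cons {A : K → StarSubalgebra ℂ M} {p : K × M} {l : List (K × M)}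
    (h : RedW A l) (hp : p.2 ∈ A p.1 ∧ tr p.2 = 0) (hh : ∀ q ∈ l.head?, p.1 ≠ q.1) :
    RedW A (p :: l) := by
  refine ⟨List.isChain_cons.2 ⟨hh, h.1⟩, ?_⟩
  intro q hq
  rcases List.mem_cons.1 hq with rfl | hq
  · exact hp
  · exact h.2 q hq

private theorem Words_redW_tail {A : K → StarSubalgebra ℂ M} {p : K × M} {l : List (K × M)}
    (h : RedW A (p :: l)) : RedW A l ∧ (p.2 ∈ A p.1 ∧ tr p.2 = 0) ∧ ∀ q ∈ l.head?, p.1 ≠ q.1 :=
  ⟨⟨(List.isChain_cons.1 h.1).2, fun q hq => h.2 q (List.mem_cons_of_mem _ hq)⟩,
    h.2 p List.mem_cons_self, (List.isChain_cons.1 h.1).1⟩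

private theorem Words_redW_append {A : K → StarSubalgebra ℂ M} {m l : List (K × M)}
    (hm : RedW A m) (hl : RedW A l) (hh : ∀ q ∈ m.head?, ∀ p ∈ l.head?, q.1 ≠ p.1) :
    RedW A (revStar m ++ l) := by
  have hr := redW_revStar hm
  refine ⟨List.isChain_append.2 ⟨hr.1, hl.1, ?_⟩, ?_⟩
  · intro x hx y hy
    rw [revStar, List.getLast?_reverse, List.head?_map] at hx
    obtain ⟨q, hq, rfl⟩ := Option.map_eq_some_iff.1 hx
    exact hh q hq y hy
  · intro q hq
    rcases List.mem_append.1 hq with hq | hq
    · exact hr.2 q hq
    · exact hl.2 q hq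

private theorem Words_stable (A : K → StarSubalgebra ℂ M) (K₀ : Set K) {k : K} (hk : k ∈ K₀)
    {a : M} (ha : a ∈ A k) {l : List (K × M)} (hl : RedW A l) (hl0 : ∀ p ∈ l, p.1 ∈ K₀) :
    a * wv l ∈ Submodule.span ℂ
      {y | ∃ l : List (K × M), RedW A l ∧ (∀ p ∈ l, p.1 ∈ K₀) ∧ y = wv l} := by
  set V := Submodule.span ℂ
      {y : M | ∃ l : List (K × M), RedW A l ∧ (∀ p ∈ l, p.1 ∈ K₀) ∧ y = wv l} with hV
  have base : ∀ l : List (K × M), RedW A l → (∀ p ∈ l, p.1 ∈ K₀) → wv l ∈ V :=
    fun l h h' => Submodule.subset_span ⟨l, h, h', rfl⟩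
  have key : ∀ b : M, b ∈ A k → tr b = 0 → b * wv l ∈ V := by
    intro b hb hb0
    rcases l with _ | ⟨⟨k', c⟩, l'⟩
    · have : b * wv ([] : List (K × M)) = wv [(k, b)] := by
        rw [Words_wv_cons]
      rw [this]
      apply base
      · exact Words_redW_cons hl ⟨hb, hb0⟩ (by simp)
      · intro p hp
        rw [List.mem_singleton] at hp
        rw [hp]
        exact hk
    · by_cases hkk : k = k'
      · subst hkk
        obtain ⟨hl', ⟨hc, hc0⟩, hh⟩ := Words_redW_tail hl
        have hbc : b * c ∈ A k := mul_mem hb hc
        obtain ⟨h1, h2⟩ := Words_centre hbc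
        have e : b * wv ((k, c) :: l') = wv ((k, b * c - tr (b * c) • (1 : M)) :: l') +
            tr (b * c) • wv l' := by
          rw [Words_wv_cons, Words_wv_cons]
          change b * (c * wv l') = (b * c - tr (b * c) • (1 : M)) * wv l' + tr (b * c) • wv l'
          rw [sub_mul, smul_mul_assoc, one_mul, sub_add_cancel, mul_assoc]
        rw [e]
        have hl0' : ∀ p ∈ l', p.1 ∈ K₀ := fun p hp => hl0 p (List.mem_cons_of_mem _ hp)
        refine add_mem (base _ (Words_redW_cons hl' ⟨h1, h2⟩ hh) ?_)
          (V.smul_mem _ (base _ hl' hl0'))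
        intro p hp
        rcases List.mem_cons.1 hp with rfl | hp
        · exact hk
        · exact hl0' p hp
      · have e : b * wv ((k', c) :: l') = wv ((k, b) :: (k', c) :: l') := by
          rw [Words_wv_cons (k, b)]
        rw [e]
        apply base
        · refine Words_redW_cons hl ⟨hb, hb0⟩ ?_
          intro q hq
          simp only [List.head?_cons, Option.mem_def, Option.some.injEq] at hq
          rw [← hq]
          exact hkk
        · intro p hp
          rcases List.mem_cons.1 hp with rfl | hp
          · exact hk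
          · exact hl0 p hp
  obtain ⟨h1, h2⟩ := Words_centre ha
  have e : a * wv l = (a - tr a • (1 : M)) * wv l + tr a • wv l := by
    rw [sub_mul, smul_mul_assoc, one_mul, sub_add_cancel]
  rw [e]
  exact add_mem (key _ h1 h2) (V.smul_mem _ (base l hl hl0))

theorem mem_span_words (A : K → StarSubalgebra ℂ M) (K₀ : Set K) {x : M}
    (hx : x ∈ StarAlgebra.adjoin ℂ (⋃ k ∈ K₀, (A k : Set M))) :
    x ∈ Submodule.span ℂ {y | ∃ l : List (K × M), RedW A l ∧ (∀ p ∈ l, p.1 ∈ K₀) ∧ y = wv l} := by
  set V := Submodule.span ℂ
      {y : M | ∃ l : List (K × M), RedW A l ∧ (∀ p ∈ l, p.1 ∈ K₀) ∧ y = wv l} with hV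
  set S : Set M := ⋃ k ∈ K₀, (A k : Set M) with hS
  have hstar : star S = S := by
    ext y
    simp only [hS, Set.mem_star, Set.mem_iUnion, SetLike.mem_coe, exists_prop]
    constructor
    · rintro ⟨k, hk, h⟩
      exact ⟨k, hk, by simpa using star_mem h⟩
    · rintro ⟨k, hk, h⟩
      exact ⟨k, hk, star_mem h⟩
  have hx' : x ∈ Algebra.adjoin ℂ S := by
    have : x ∈ (StarAlgebra.adjoin ℂ S).toSubalgebra := hx
    rw [StarAlgebra.adjoin_toSubalgebra, hstar, Set.union_self] at this
    exact this
  have hx2 : x ∈ Submodule.span ℂ ((Submonoid.closure S : Submonoid M) : Set M) := by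
    rw [← Algebra.adjoin_eq_span]
    exact hx'
  have hle : Submodule.span ℂ ((Submonoid.closure S : Submonoid M) : Set M) ≤ V := by
    rw [Submodule.span_le]
    intro y hy
    induction hy using Submonoid.closure_induction_left with
    | one =>
      refine Submodule.subset_span ⟨[], ⟨List.isChain_nil, by simp⟩, by simp, rfl⟩
    | mul_left a ha y hy ih =>
      simp only [hS, Set.mem_iUnion, SetLike.mem_coe, exists_prop] at ha
      obtain ⟨k, hk, ha⟩ := ha
      have ih' : y ∈ V := ih
      change a * y ∈ V
      clear ih hy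
      rw [hV] at ih'
      induction ih' using Submodule.span_induction with
      | mem z hz =>
        obtain ⟨l, h1, h2, rfl⟩ := hz
        exact Words_stable A K₀ hk ha h1 h2
      | zero => rw [mul_zero]; exact V.zero_mem
      | add u v _ _ hu hv => rw [mul_add]; exact V.add_mem hu hv
      | smul c u _ hu => rw [mul_smul_comm]; exact V.smul_mem c hu
  exact hle hx2

theorem word_orth {A : K → StarSubalgebra ℂ M} (hA : FreeFam A) {l l' : List (K × M)}
    (hl : RedW A l) (hl' : RedW A l') (hne : l.map Prod.fst ≠ l'.map Prod.fst) :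
    tr (star (wv l) * wv l') = 0 := by
  induction l generalizing l' with
  | nil =>
    rw [Words_wv_nil, star_one, one_mul]
    apply hA l' _ hl'
    rintro rfl
    exact hne rfl
  | cons p m ih =>
    rcases l' with _ | ⟨p', m'⟩
    · rw [Words_wv_nil, mul_one, tr_star, hA _ (by simp) hl, map_zero]
    · obtain ⟨hm, hp, hhp⟩ := Words_redW_tail hl
      obtain ⟨hm', hp', hhp'⟩ := Words_redW_tail hl'
      by_cases hk : p.1 = p'.1
      · have hmem : star p.2 * p'.2 ∈ A p'.1 := mul_mem (hk ▸ star_mem hp.1) hp'.1
        obtain ⟨h1, h2⟩ := Words_centre hmem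
        set c : M := star p.2 * p'.2 - tr (star p.2 * p'.2) • (1 : M) with hc
        have e : star (wv (p :: m)) * wv (p' :: m') =
            wv (revStar m ++ (p'.1, c) :: m') +
              tr (star p.2 * p'.2) • (star (wv m) * wv m') := by
          rw [Words_wv_append, Words_wv_cons, Words_wv_cons, Words_wv_cons, wv_revStar, star_mul]
          change star (wv m) * star p.2 * (p'.2 * wv m') = star (wv m) * (c * wv m') + _
          rw [hc, sub_mul, mul_sub, smul_mul_assoc, one_mul, mul_smul_comm, sub_add_cancel]
          simp only [mul_assoc]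
        have hred : RedW A (revStar m ++ (p'.1, c) :: m') := by
          apply Words_redW_append hm (Words_redW_cons (p := (p'.1, c)) hm' ⟨h1, h2⟩ hhp')
          intro q hq r hr
          simp only [List.head?_cons, Option.mem_def, Option.some.injEq] at hr
          rw [← hr]
          have := hhp q hq
          rw [hk] at this
          exact Ne.symm this
        have hne' : m.map Prod.fst ≠ m'.map Prod.fst := by
          intro h
          apply hne
          rw [List.map_cons, List.map_cons, h, hk]
        rw [e, map_add, map_smul, hA _ (by simp) hred, ih hm hm' hne', smul_zero, add_zero]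
      · have hred : RedW A (revStar (p :: m) ++ p' :: m') := by
          apply Words_redW_append hl hl'
          intro q hq r hr
          simp only [List.head?_cons, Option.mem_def, Option.some.injEq] at hq hr
          rw [← hq, ← hr]
          exact hk
        rw [← wv_revStar, ← Words_wv_append]
        exact hA _ (by simp) hred

end Pool.Agent.KUR
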