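import Pool.Agent.KUR.CEx
import Pool.Agent.KUR.Words
import Pool.Agent.KUR.Kap

/-!
# KUR Th2: transversality of the deformation

PROOF.  Let `c = cos (π t/2)`, `s' = sin (π t/2)`; `E = ce (MM P)`, `MM P = vnGen (⋃ P j)` is a VNSub
(`vnSub_vnGen`).
(0) A reduced word of the family `fam P s` with at least one index of the form `inr j` is orthogonal
to `MM P`: `tr (y * wv l) = 0` for `y ∈ MM P`; by density (`mem_vnGen_iff`) and `mem_span_words` take
for `star y` a reduced word with all indices `inl`, and use `word_orth`.  Hence `E (wv l) = 0`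
(`ce_eq_zero_of`).
(1) For `p ∈ P j`, `tr p = 0`: `θ t p = c^2 p + s'^2 s_j p s_j + i c s' (s_j p - p s_j)`.
For a reduced word `l = [(inl j_1, p_1), ..., (inl j_r, p_r)]` expand the product
`θ t (wv l) = ∏ θ t (p_i)`: each term is the value of a concatenation of blocks `[p_i]`,
`[s, p_i, s]`, `[s, p_i]`, `[p_i, s]` with `s = s_{j_i}`; since `j_i ≠ j_{i+1}` this is a reduced word of
`fam P s`; only the term with all blocks `[p_i]` has no `inr` letter, its coefficient is `c^(2r)`.
So `E (θ t (wv l)) = c^(2r) • wv l`.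
(2) Let `x ∈ StarAlgebra.adjoin ℂ (⋃ P j)`, so `x = ∑_r x_r` (finite), `x_r` in the span of reduced
`P`-words of length `r` (`mem_span_words`).  By `word_orth` different `r` are orthogonal.  So
`n2 (x - E θ x)^2 = ∑ (1 - c^(2r))^2 n2(x_r)^2 ≤ ∑ (1 - c^(4r)) n2(x_r)^2 = n2 x^2 - n2 (E θ x)^2
 = n2 (θ x)^2 - n2 (E θ x)^2 = n2 (θ x - E θ x)^2` (`n2_sq_ce`, `θ t` is trace preserving), because
`(1-q)^2 ≤ 1 - q^2` for `0 ≤ q ≤ 1`.  Hence
`n2 (θ x - x) ≤ n2 (θ x - E θ x) + n2 (E θ x - x) ≤ 2 n2 (θ x - E θ x)`.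
(3) General `x ∈ MM P`: approximate in the 2-norm (`mem_vnGen_iff`); both sides are 2-norm continuous
(`n2 (θ t x) = n2 x`, `n2_ce_le`).
-/

open Filter Topology

namespace Pool.Agent.KUR

universe u
variable {M : Type u} [CStarAlgebra M] [TVN M] {J : Type*}

/-- All indices of the word are on the left. -/
private def AllL (l : List ((J ⊕ J) × M)) : Prop := ∀ p ∈ l, p.1 ∈ Set.range (Sum.inl : J → J ⊕ J)

/-- Some index of the word is on the right. -/
private def HasR (l : List ((J ⊕ J) × M)) : Prop := ∃ p ∈ l, ∃ j, p.1 = Sum.inr j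

/-- The base index of the head is different from `j`. -/
private def HOK (j : J) (l : List ((J ⊕ J) × M)) : Prop := ∀ q ∈ l.head?, Sum.elim id id q.1 ≠ j

private theorem adj_le (P : J → StarSubalgebra ℂ M) (s : J → M) :
    StarAlgebra.adjoin ℂ (⋃ j, (P j : Set M)) ≤
      StarAlgebra.adjoin ℂ (⋃ k ∈ Set.range (Sum.inl : J → J ⊕ J), (fam P s k : Set M)) := by
  apply StarAlgebra.adjoin_mono
  intro x hx
  obtain ⟨j, hj⟩ := Set.mem_iUnion.mp hx
  exact Set.mem_iUnion₂.mpr ⟨Sum.inl j, ⟨j, rfl⟩, hj⟩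

private theorem ne_map_fst {l l' : List ((J ⊕ J) × M)} (hl : HasR l) (hl' : AllL l') :
    l'.map Prod.fst ≠ l.map Prod.fst := by
  intro h
  obtain ⟨p, hp, j, hj⟩ := hl
  have h1 : p.1 ∈ l.map Prod.fst := List.mem_map.mpr ⟨p, hp, rfl⟩
  rw [← h] at h1
  obtain ⟨q, hq, hq'⟩ := List.mem_map.mp h1
  obtain ⟨i, hi⟩ := hl' q hq
  rw [← hi, hj] at hq'
  exact Sum.inl_ne_inr hq'

private theorem tr_star_span_eq_zero {V : Set M} {w : M} (hV : ∀ v ∈ V, tr (star v * w) = 0)
    {z : M} (hz : z ∈ Submodule.span ℂ V) : tr (star z * w) = 0 := by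
  induction hz using Submodule.span_induction with
  | mem x hx => exact hV x hx
  | zero => simp
  | add x y _ _ hx hy => rw [star_add, add_mul, map_add, hx, hy, add_zero]
  | smul c x _ hx => rw [star_smul, smul_mul_assoc, map_smul, hx, smul_zero]

/-- Words with a symmetry letter are orthogonal to `MM P`. -/
theorem tr_mul_word_eq_zero {P : J → StarSubalgebra ℂ M} {s : J → M} (h : Dil P s)
    {l : List ((J ⊕ J) × M)} (hl : RedW (fam P s) l) (hs : ∃ p ∈ l, ∃ j, p.1 = Sum.inr j)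
    {y : M} (hy : y ∈ MM P) : tr (y * wv l) = 0 := by
  have key : ∀ z ∈ StarAlgebra.adjoin ℂ (⋃ j, (P j : Set M)), tr (z * wv l) = 0 := by
    intro z hz
    have h1 : star z ∈ StarAlgebra.adjoin ℂ
        (⋃ k ∈ Set.range (Sum.inl : J → J ⊕ J), (fam P s k : Set M)) :=
      adj_le P s (star_mem hz)
    have h2 := mem_span_words (fam P s) (Set.range Sum.inl) h1
    have h3 := tr_star_span_eq_zero (w := wv l) (fun v hv => by
      obtain ⟨l', hl', hK, rfl⟩ := hv
      exact word_orth h.free hl' hl (ne_map_fst hs hK)) h2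
    rwa [star_star] at h3
  by_contra hne
  have hpos : 0 < ‖tr (y * wv l)‖ := norm_pos_iff.mpr hne
  obtain ⟨z, hz, hz'⟩ := (mem_vnGen_iff _ y).mp hy (‖tr (y * wv l)‖ / (n2 (wv l) + 1))
    (div_pos hpos (by linarith [n2_nonneg (wv l)]))
  have e : tr (y * wv l) = tr ((y - z) * wv l) := by
    rw [sub_mul, map_sub, key z hz, sub_zero]
  have h4 : ‖tr (y * wv l)‖ ≤ n2 (y - z) * n2 (wv l) := by
    rw [e]; exact norm_tr_mul_le' _ _
  have h5 : 0 < n2 (wv l) + 1 := by linarith [n2_nonneg (wv l)]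
  rw [lt_div_iff₀ h5] at hz'
  nlinarith [n2_nonneg (y - z), n2_nonneg (wv l)]

private theorem wv_cons {K : Type*} (a : K × M) (l : List (K × M)) : wv (a :: l) = a.2 * wv l := by
  simp [wv]

private theorem wv_append {K : Type*} (l m : List (K × M)) : wv (l ++ m) = wv l * wv m := by
  simp [wv]

private theorem s_mem (P : J → StarSubalgebra ℂ M) (s : J → M) (j : J) :
    s j ∈ fam P s (Sum.inr j) := StarAlgebra.subset_adjoin ℂ _ (Set.mem_singleton _)

/-- Prepending a block with base index `j`. -/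
private theorem redW_block {P : J → StarSubalgebra ℂ M} {s : J → M} {j : J}
    {b m : List ((J ⊕ J) × M)} (hb : RedW (fam P s) b)
    (hbj : ∀ q ∈ b, Sum.elim id id q.1 = j) (hm : RedW (fam P s) m) (hmj : HOK j m) :
    RedW (fam P s) (b ++ m) := by
  refine ⟨List.IsChain.append hb.1 hm.1 ?_, ?_⟩
  · intro x hx y hy hxy
    have h1 := hbj x (List.mem_of_getLast? hx)
    have h2 := hmj y hy
    rw [← hxy, h1] at h2
    exact h2 rfl
  · intro p hp
    rcases List.mem_append.mp hp with hp | hp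
    · exact hb.2 p hp
    · exact hm.2 p hp

/-- The error space attached to the word `l`. -/
private noncomputable def ES (P : J → StarSubalgebra ℂ M) (s : J → M) (l : List ((J ⊕ J) × M)) :
    Submodule ℂ M :=
  Submodule.span ℂ {z | ∃ m : List ((J ⊕ J) × M), RedW (fam P s) m ∧ HasR m ∧
    (∀ j, HOK j l → HOK j m) ∧ z = wv m}

private theorem block_mul {P : J → StarSubalgebra ℂ M} {s : J → M} {j : J} {p : M}
    {l : List ((J ⊕ J) × M)} {b : List ((J ⊕ J) × M)} (hb : RedW (fam P s) b)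
    (hbj : ∀ q ∈ b, Sum.elim id id q.1 = j) (hb0 : b ≠ []) (hbR : HasR b) {u : M}
    (hu : u ∈ Submodule.span ℂ {z | ∃ m : List ((J ⊕ J) × M), RedW (fam P s) m ∧
      HOK j m ∧ z = wv m}) :
    wv b * u ∈ ES P s ((Sum.inl j, p) :: l) := by
  induction hu using Submodule.span_induction with
  | mem x hx =>
    obtain ⟨m, hm, hmj, rfl⟩ := hx
    refine Submodule.subset_span ⟨b ++ m, redW_block hb hbj hm hmj, ?_, ?_, (wv_append _ _).symm⟩
    · obtain ⟨q, hq, hq'⟩ := hbR
      exact ⟨q, List.mem_append_left _ hq, hq'⟩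
    · intro i hi q hq
      obtain ⟨a, b', rfl⟩ := List.exists_cons_of_ne_nil hb0
      simp only [List.cons_append, List.head?_cons, Option.mem_def, Option.some.injEq] at hq
      rw [← hq, hbj a (by simp)]
      have := hi (Sum.inl j, p) (by simp)
      simpa using this
  | zero => rw [mul_zero]; exact Submodule.zero_mem _
  | add x y _ _ hx hy => rw [mul_add]; exact Submodule.add_mem _ hx hy
  | smul c x _ hx => rw [mul_smul_comm]; exact Submodule.smul_mem _ _ hx

private theorem letter_mul {P : J → StarSubalgebra ℂ M} {s : J → M} {j : J} {p : M}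
    (hp : p ∈ P j) (hp0 : tr p = 0) {l : List ((J ⊕ J) × M)} (hlj : HOK j l) {u : M}
    (hu : u ∈ ES P s l) : p * u ∈ ES P s ((Sum.inl j, p) :: l) := by
  unfold ES at hu
  induction hu using Submodule.span_induction with
  | mem x hx =>
    obtain ⟨m, hm, hmR, hmj, rfl⟩ := hx
    have hb : RedW (fam P s) [((Sum.inl j : J ⊕ J), p)] :=
      ⟨List.isChain_singleton _, by
        intro q hq
        rw [List.mem_singleton] at hq
        subst hq
        exact ⟨hp, hp0⟩⟩
    refine Submodule.subset_span ⟨[(Sum.inl j, p)] ++ m, redW_block hb ?_ hm (hmj j hlj), ?_, ?_, ?_⟩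
    · intro q hq
      rw [List.mem_singleton] at hq
      subst hq; rfl
    · obtain ⟨q, hq, hq'⟩ := hmR
      exact ⟨q, List.mem_append_right _ hq, hq'⟩
    · intro i hi q hq
      have h1 := hi (Sum.inl j, p) (by simp)
      simp only [List.cons_append, List.nil_append, List.head?_cons, Option.mem_def,
        Option.some.injEq] at hq
      rw [← hq]; exact h1
    · rw [wv_append]; simp [wv]
  | zero => rw [mul_zero]; exact Submodule.zero_mem _
  | add x y _ _ hx hy => rw [mul_add]; exact Submodule.add_mem _ hx hy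
  | smul c x _ hx => rw [mul_smul_comm]; exact Submodule.smul_mem _ _ hx

private theorem theta_letter {P : J → StarSubalgebra ℂ M} {s : J → M} (h : Dil P s)
    {θ : ℝ → (M →⋆ₐ[ℂ] M)} (hθ : IsTheta P s θ) (t : ℝ) {j : J} {p : M} (hp : p ∈ P j) :
    θ t p = ((Real.cos (Real.pi * t / 2) : ℂ) ^ 2) • p
      + (((Real.sin (Real.pi * t / 2) : ℂ) ^ 2) • (s j * p * s j)
      + ((Complex.I * Real.cos (Real.pi * t / 2) * Real.sin (Real.pi * t / 2)) • (s j * p)
      - (Complex.I * Real.cos (Real.pi * t / 2) * Real.sin (Real.pi * t / 2)) • (p * s j))) := by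
  rw [hθ.onP t j p hp, ut]
  generalize Real.cos (Real.pi * t / 2) = c
  generalize Real.sin (Real.pi * t / 2) = d
  have e1 : star ((c : ℂ) • (1 : M) + (Complex.I * (d : ℂ)) • s j)
      = (c : ℂ) • (1 : M) - (Complex.I * (d : ℂ)) • s j := by
    rw [star_add, star_smul, star_smul, h.sa, star_one, Complex.star_def,
      map_mul, Complex.conj_ofReal, Complex.conj_ofReal, Complex.conj_I, neg_mul, neg_smul,
      sub_eq_add_neg]
  rw [e1]
  simp only [add_mul, mul_sub, smul_mul_assoc, mul_smul_comm, one_mul, mul_one, smul_add,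
    smul_sub, smul_smul]
  have e2 : Complex.I * (d : ℂ) * (Complex.I * d) = - (d : ℂ) ^ 2 := by
    have := Complex.I_mul_I
    linear_combination (d : ℂ) ^ 2 * this
  rw [e2, neg_smul]
  have e3 : (c : ℂ) * (Complex.I * d) = Complex.I * c * d := by ring
  have e4 : Complex.I * (d : ℂ) * c = Complex.I * c * d := by ring
  rw [e3, e4, ← sq]
  abel

/-- The image of a word. -/
private theorem theta_word {P : J → StarSubalgebra ℂ M} {s : J → M} (h : Dil P s)
    {θ : ℝ → (M →⋆ₐ[ℂ] M)} (hθ : IsTheta P s θ) (t : ℝ) (l : List ((J ⊕ J) × M))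
    (hl : RedW (fam P s) l) (hL : AllL l) :
    θ t (wv l) - (((Real.cos (Real.pi * t / 2) : ℂ) ^ 2) ^ l.length) • wv l ∈ ES P s l := by
  induction l with
  | nil => simp [wv, ES]
  | cons a l ih =>
    obtain ⟨k, p⟩ := a
    obtain ⟨j, hj⟩ := hL (k, p) (by simp)
    dsimp only at hj
    subst hj
    have hred : RedW (fam P s) l := ⟨hl.1.tail, fun q hq => hl.2 q (List.mem_cons_of_mem _ hq)⟩
    have hL' : AllL l := fun q hq => hL q (List.mem_cons_of_mem _ hq)
    have hpP : p ∈ P j := (hl.2 (Sum.inl j, p) (by simp)).1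
    have hp0 : tr p = 0 := (hl.2 (Sum.inl j, p) (by simp)).2
    have hlj : HOK j l := by
      intro q hq
      have h1 := (List.isChain_cons.mp hl.1).1 q hq
      obtain ⟨i, hi⟩ := hL' q (List.mem_of_head? hq)
      rw [← hi] at h1 ⊢
      intro h2
      exact h1 (by rw [← h2]; rfl)
    have ih' := ih hred hL'
    have hθp := theta_letter h hθ t hpP
    set c : ℂ := (Real.cos (Real.pi * t / 2) : ℂ) with hc
    set d : ℂ := (Real.sin (Real.pi * t / 2) : ℂ) with hd
    set z : M := θ t (wv l) - ((c ^ 2) ^ l.length) • wv l with hz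
    have hu : θ t (wv l) = ((c ^ 2) ^ l.length) • wv l + z := by rw [hz]; abel
    -- membership of `θ t (wv l)` in the span of words with good head
    have hT : θ t (wv l) ∈ Submodule.span ℂ {z | ∃ m : List ((J ⊕ J) × M), RedW (fam P s) m ∧
        HOK j m ∧ z = wv m} := by
      rw [hu]
      refine Submodule.add_mem _ (Submodule.smul_mem _ _ (Submodule.subset_span
        ⟨l, hred, hlj, rfl⟩)) ?_
      refine Submodule.span_mono ?_ ih'
      rintro _ ⟨m, hm, _, hm2, rfl⟩
      exact ⟨m, hm, hm2 j hlj, rfl⟩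
    have e : θ t (wv ((Sum.inl j, p) :: l)) - ((c ^ 2) ^ (l.length + 1)) • wv ((Sum.inl j, p) :: l)
        = (c ^ 2) • (p * z) + (d ^ 2) • (wv [((Sum.inr j : J ⊕ J), s j), (Sum.inl j, p),
            (Sum.inr j, s j)] * θ t (wv l))
          + ((Complex.I * c * d) • (wv [((Sum.inr j : J ⊕ J), s j), (Sum.inl j, p)] * θ t (wv l))
          - (Complex.I * c * d) • (wv [((Sum.inl j : J ⊕ J), p), (Sum.inr j, s j)] *
            θ t (wv l))) := by
      have e1 : wv [((Sum.inr j : J ⊕ J), s j), (Sum.inl j, p), (Sum.inr j, s j)]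
          = s j * p * s j := by simp [wv, mul_assoc]
      have e2 : wv [((Sum.inr j : J ⊕ J), s j), (Sum.inl j, p)] = s j * p := by simp [wv]
      have e3 : wv [((Sum.inl j : J ⊕ J), p), (Sum.inr j, s j)] = p * s j := by simp [wv]
      rw [e1, e2, e3, wv_cons, map_mul, hθp, hz, mul_sub, mul_smul_comm, smul_sub, smul_smul,
        pow_succ' (c ^ 2) l.length]
      simp only [add_mul, sub_mul, smul_mul_assoc]
      abel
    rw [List.length_cons, e]
    have hsm := s_mem P s j
    have hb1 : RedW (fam P s) [((Sum.inr j : J ⊕ J), s j), (Sum.inl j, p), (Sum.inr j, s j)] := by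
      refine ⟨by simp, ?_⟩
      intro q hq
      simp only [List.mem_cons, List.not_mem_nil, or_false] at hq
      rcases hq with rfl | rfl | rfl
      · exact ⟨hsm, h.trs j⟩
      · exact ⟨hpP, hp0⟩
      · exact ⟨hsm, h.trs j⟩
    have hb2 : RedW (fam P s) [((Sum.inr j : J ⊕ J), s j), (Sum.inl j, p)] := by
      refine ⟨by simp, ?_⟩
      intro q hq
      simp only [List.mem_cons, List.not_mem_nil, or_false] at hq
      rcases hq with rfl | rfl
      · exact ⟨hsm, h.trs j⟩
      · exact ⟨hpP, hp0⟩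
    have hb3 : RedW (fam P s) [((Sum.inl j : J ⊕ J), p), (Sum.inr j, s j)] := by
      refine ⟨by simp, ?_⟩
      intro q hq
      simp only [List.mem_cons, List.not_mem_nil, or_false] at hq
      rcases hq with rfl | rfl
      · exact ⟨hpP, hp0⟩
      · exact ⟨hsm, h.trs j⟩
    refine Submodule.add_mem _ (Submodule.add_mem _ (Submodule.smul_mem _ _
      (letter_mul hpP hp0 hlj ih')) (Submodule.smul_mem _ _ (block_mul hb1 ?_ (by simp)
      ⟨(Sum.inr j, s j), by simp, j, rfl⟩ hT))) (Submodule.sub_mem _ (Submodule.smul_mem _ _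
      (block_mul hb2 ?_ (by simp) ⟨(Sum.inr j, s j), by simp, j, rfl⟩ hT)) (Submodule.smul_mem _ _
      (block_mul hb3 ?_ (by simp) ⟨(Sum.inr j, s j), by simp, j, rfl⟩ hT)))
    · intro q hq
      simp only [List.mem_cons, List.not_mem_nil, or_false] at hq
      rcases hq with rfl | rfl | rfl <;> rfl
    · intro q hq
      simp only [List.mem_cons, List.not_mem_nil, or_false] at hq
      rcases hq with rfl | rfl <;> rfl
    · intro q hq
      simp only [List.mem_cons, List.not_mem_nil, or_false] at hq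
      rcases hq with rfl | rfl <;> rfl

private theorem vnMM (P : J → StarSubalgebra ℂ M) : VNSub (MM P) := vnSub_vnGen _

private theorem adj_le_MM (P : J → StarSubalgebra ℂ M) :
    StarAlgebra.adjoin ℂ (⋃ j, (P j : Set M)) ≤ MM P :=
  StarAlgebra.adjoin_le (subset_vnGen _)

private theorem ce_ES {P : J → StarSubalgebra ℂ M} {s : J → M} (h : Dil P s)
    {l : List ((J ⊕ J) × M)} {z : M} (hz : z ∈ ES P s l) : ce (MM P) z = 0 := by
  unfold ES at hz
  induction hz using Submodule.span_induction with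
  | mem x hx =>
    obtain ⟨m, hm, hmR, _, rfl⟩ := hx
    exact ce_eq_zero_of (vnMM P) (fun y hy => tr_mul_word_eq_zero h hm hmR hy)
  | zero => exact map_zero _
  | add x y _ _ hx hy => rw [map_add, hx, hy, add_zero]
  | smul c x _ hx => rw [map_smul, hx, smul_zero]

private theorem wv_mem_MM {P : J → StarSubalgebra ℂ M} {s : J → M} {l : List ((J ⊕ J) × M)}
    (hl : RedW (fam P s) l) (hL : AllL l) : wv l ∈ MM P := by
  apply adj_le_MM P
  induction l with
  | nil => simp [wv]
  | cons a l ih =>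
    obtain ⟨k, p⟩ := a
    obtain ⟨j, hj⟩ := hL (k, p) (by simp)
    dsimp only at hj
    subst hj
    rw [wv_cons]
    refine mul_mem (StarAlgebra.subset_adjoin ℂ _ (Set.mem_iUnion.mpr ⟨j, ?_⟩))
      (ih ⟨hl.1.tail, fun q hq => hl.2 q (List.mem_cons_of_mem _ hq)⟩
        (fun q hq => hL q (List.mem_cons_of_mem _ hq)))
    exact (hl.2 (Sum.inl j, p) (by simp)).1

/-- Span of the reduced left words of length `r`. -/
private noncomputable def VL (P : J → StarSubalgebra ℂ M) (s : J → M) (r : ℕ) : Submodule ℂ M :=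
  Submodule.span ℂ {z | ∃ m : List ((J ⊕ J) × M), RedW (fam P s) m ∧ AllL m ∧ m.length = r ∧
    z = wv m}

private theorem ce_theta_VL {P : J → StarSubalgebra ℂ M} {s : J → M} (h : Dil P s)
    {θ : ℝ → (M →⋆ₐ[ℂ] M)} (hθ : IsTheta P s θ) (t : ℝ) {r : ℕ} {z : M} (hz : z ∈ VL P s r) :
    ce (MM P) (θ t z) = (((Real.cos (Real.pi * t / 2) : ℂ) ^ 2) ^ r) • z := by
  unfold VL at hz
  induction hz using Submodule.span_induction with
  | mem x hx =>
    obtain ⟨m, hm, hmL, rfl, rfl⟩ := hx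
    have h1 := ce_ES h (theta_word h hθ t m hm hmL)
    rw [map_sub, sub_eq_zero, map_smul, ce_of_mem (vnMM P) (wv_mem_MM hm hmL)] at h1
    exact h1
  | zero => simp
  | add x y _ _ hx hy => rw [map_add, map_add, hx, hy, smul_add]
  | smul c x _ hx => rw [map_smul, map_smul, hx, smul_comm]

private theorem VL_orth {P : J → StarSubalgebra ℂ M} {s : J → M} (h : Dil P s) {r r' : ℕ}
    (hr : r ≠ r') {z z' : M} (hz : z ∈ VL P s r) (hz' : z' ∈ VL P s r') :
    tr (star z * z') = 0 := by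
  unfold VL at hz hz'
  induction hz' using Submodule.span_induction with
  | mem x hx =>
    obtain ⟨m, hm, _, hmr, rfl⟩ := hx
    refine tr_star_span_eq_zero (fun v hv => ?_) hz
    obtain ⟨m', hm', _, hmr', rfl⟩ := hv
    refine word_orth h.free hm' hm (fun h1 => hr ?_)
    have := congrArg List.length h1
    rw [List.length_map, List.length_map, hmr, hmr'] at this
    exact this
  | zero => simp
  | add x y _ _ hx hy => rw [mul_add, map_add, hx, hy, add_zero]
  | smul c x _ hx => rw [mul_smul_comm, map_smul, hx, smul_zero]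

private theorem n2_sq_add {x y : M} (h : tr (star x * y) = 0) :
    n2 (x + y) ^ 2 = n2 x ^ 2 + n2 y ^ 2 := by
  have h2 : tr (star y * x) = 0 := by
    have := tr_star (star x * y)
    rw [star_mul, star_star, h, map_zero] at this
    exact this
  rw [n2_sq, n2_sq, n2_sq, star_add, add_mul, mul_add, mul_add, map_add, map_add, map_add, h, h2]
  simp

private theorem n2_sq_sum {g : ℕ → M} (hg : ∀ r r', r ≠ r' → tr (star (g r) * g r') = 0)
    (F : Finset ℕ) : n2 (∑ r ∈ F, g r) ^ 2 = ∑ r ∈ F, n2 (g r) ^ 2 := by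
  classical
  induction F using Finset.induction_on with
  | empty => simp [n2_zero]
  | insert a F ha ih =>
    rw [Finset.sum_insert ha, Finset.sum_insert ha, n2_sq_add, ih]
    rw [Finset.mul_sum, map_sum]
    exact Finset.sum_eq_zero (fun r hr => hg a r (fun h => ha (h ▸ hr)))

private theorem dense_case {P : J → StarSubalgebra ℂ M} {s : J → M} (h : Dil P s)
    {θ : ℝ → (M →⋆ₐ[ℂ] M)} (hθ : IsTheta P s θ) (t : ℝ) {x : M}
    (hx : x ∈ StarAlgebra.adjoin ℂ (⋃ j, (P j : Set M))) :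
    n2 (θ t x - x) ≤ 2 * n2 (θ t x - ce (MM P) (θ t x)) := by
  have h1 := mem_span_words (fam P s) (Set.range Sum.inl) (adj_le P s hx)
  have h2 : x ∈ ⨆ r, VL P s r := by
    refine (Submodule.span_le.mpr ?_) h1
    rintro _ ⟨m, hm, hmL, rfl⟩
    exact Submodule.mem_iSup_of_mem m.length (Submodule.subset_span ⟨m, hm, hmL, rfl, rfl⟩)
  rw [Submodule.mem_iSup_iff_exists_finsupp] at h2
  obtain ⟨f, hf, hfx⟩ := h2
  have hx' : x = ∑ r ∈ f.support, f r := by rw [← hfx]; rfl
  set c : ℝ := Real.cos (Real.pi * t / 2) with hc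
  set q : ℕ → ℝ := fun r => (c ^ 2) ^ r with hq
  have hc1 : c ^ 2 ≤ 1 := Real.cos_sq_le_one _
  have hq0 : ∀ r, 0 ≤ q r := fun r => pow_nonneg (sq_nonneg c) r
  have hq1 : ∀ r, q r ≤ 1 := fun r => pow_le_one₀ (sq_nonneg c) hc1
  have hE : ce (MM P) (θ t x) = ∑ r ∈ f.support, (q r : ℂ) • f r := by
    conv_lhs => rw [hx']
    rw [map_sum, map_sum]
    refine Finset.sum_congr rfl (fun r _ => ?_)
    rw [ce_theta_VL h hθ t (hf r), hq, hc]
    push_cast
    rfl
  have horth : ∀ r r', r ≠ r' → tr (star (f r) * f r') = 0 :=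
    fun r r' hr => VL_orth h hr (hf r) (hf r')
  have horthc : ∀ a : ℕ → ℂ, ∀ r r', r ≠ r' → tr (star (a r • f r) * (a r' • f r')) = 0 := by
    intro a r r' hr
    rw [star_smul, smul_mul_assoc, mul_smul_comm, map_smul, map_smul, horth r r' hr]
    simp
  have hsq : ∀ a : ℕ → ℝ, n2 (∑ r ∈ f.support, ((a r : ℝ) : ℂ) • f r) ^ 2
      = ∑ r ∈ f.support, a r ^ 2 * n2 (f r) ^ 2 := by
    intro a
    rw [n2_sq_sum (horthc fun r => ((a r : ℝ) : ℂ))]
    refine Finset.sum_congr rfl (fun r _ => ?_)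
    rw [n2_smul, mul_pow, Complex.norm_real, Real.norm_eq_abs, sq_abs]
  have k1 : n2 x ^ 2 = ∑ r ∈ f.support, n2 (f r) ^ 2 := by
    have := hsq (fun _ => 1)
    simp only [Complex.ofReal_one, one_smul, one_pow, one_mul] at this
    rw [← hx'] at this
    exact this
  have k2 : n2 (ce (MM P) (θ t x)) ^ 2 = ∑ r ∈ f.support, q r ^ 2 * n2 (f r) ^ 2 := by
    rw [hE]; exact hsq q
  have k3 : n2 (ce (MM P) (θ t x) - x) ^ 2 = ∑ r ∈ f.support, (q r - 1) ^ 2 * n2 (f r) ^ 2 := by
    rw [← hsq (fun r => q r - 1), hE]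
    congr 2
    conv_lhs => rw [hx']
    rw [← Finset.sum_sub_distrib]
    refine Finset.sum_congr rfl (fun r _ => ?_)
    push_cast
    rw [sub_smul, one_smul]
  have k4 : n2 (θ t x) = n2 x := by
    rw [n2, n2, ← map_star, ← map_mul, hθ.tr_eq]
  have k5 := n2_sq_ce (vnMM P) (θ t x)
  have k6 : n2 (ce (MM P) (θ t x) - x) ^ 2 ≤ n2 (θ t x - ce (MM P) (θ t x)) ^ 2 := by
    have : n2 (θ t x - ce (MM P) (θ t x)) ^ 2 = n2 x ^ 2 - n2 (ce (MM P) (θ t x)) ^ 2 := by
      rw [← k4]; linarith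
    rw [this, k1, k2, k3, ← Finset.sum_sub_distrib]
    refine Finset.sum_le_sum (fun r _ => ?_)
    have := hq0 r
    have := hq1 r
    have h3 : (q r - 1) ^ 2 ≤ 1 - q r ^ 2 := by nlinarith
    nlinarith [mul_le_mul_of_nonneg_right h3 (sq_nonneg (n2 (f r)))]
  have k7 : n2 (ce (MM P) (θ t x) - x) ≤ n2 (θ t x - ce (MM P) (θ t x)) :=
    le_of_sq_le_sq k6 (n2_nonneg _)
  calc n2 (θ t x - x) ≤ n2 (θ t x - ce (MM P) (θ t x)) + n2 (ce (MM P) (θ t x) - x) :=
        n2_sub_le_sub _ _ _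
    _ ≤ _ := by linarith

theorem transversality {P : J → StarSubalgebra ℂ M} {s : J → M} (h : Dil P s)
    {θ : ℝ → (M →⋆ₐ[ℂ] M)} (hθ : IsTheta P s θ) (t : ℝ) {x : M} (hx : x ∈ MM P) :
    n2 (θ t x - x) ≤ 2 * n2 (θ t x - ce (MM P) (θ t x)) := by
  refine le_of_forall_pos_le_add (fun ε hε => ?_)
  obtain ⟨y, hy, hxy⟩ := (mem_vnGen_iff _ x).mp hx (ε / 6) (by linarith)
  have h1 := dense_case h hθ t hy
  have h2 : n2 (θ t x - θ t y) = n2 (x - y) := by
    rw [← map_sub, n2, n2, ← map_star, ← map_mul, hθ.tr_eq]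
  have h3 : n2 (ce (MM P) (θ t x) - ce (MM P) (θ t y)) ≤ n2 (x - y) := by
    rw [← map_sub, ← h2]; exact n2_ce_le (vnMM P) _
  have h4 : n2 (θ t x - x) ≤ n2 (θ t x - θ t y) + (n2 (θ t y - y) + n2 (y - x)) :=
    (n2_sub_le_sub _ (θ t y) _).trans (by gcongr; exact n2_sub_le_sub _ _ _)
  have h5 : n2 (θ t y - ce (MM P) (θ t y)) ≤ n2 (θ t y - θ t x)
      + (n2 (θ t x - ce (MM P) (θ t x)) + n2 (ce (MM P) (θ t x) - ce (MM P) (θ t y))) :=
    (n2_sub_le_sub _ (θ t x) _).trans (by gcongr; exact n2_sub_le_sub _ _ _)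
  have h6 : n2 (y - x) = n2 (x - y) := n2_sub_comm _ _
  have h7 : n2 (θ t y - θ t x) = n2 (x - y) := by rw [n2_sub_comm, h2]
  linarith

end Pool.Agent.KUR
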