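import Pool.Agent.KUR.RigS
import Pool.Agent.KUR.LemC
import Pool.Agent.KUR.GapT
import Pool.Agent.KUR.Th2

/-!
# KUR Rig: an intertwiner at some small time

PROOF.  Suppose not.  For every `m`, `rig_step` with `f = ι`, `g = (θ (1/2^m)).comp ι` applies, so the
hypothesis of `lemC` holds for `R m p := 1/16 ≤ n2 (θ (1/2^m) (ι p) - ι p)`.  We get projections `p m` and
`a : FreeGroup (Fin 16) → Q` with `IsFreeRep a`, commuting.  Put `b = ι ∘ a` (again `IsFreeRep`, in
`MM P = subGen (fam P s) (range inl)`).  Fix `m`, `t = 1/2^m`, `y = θ t (ι (p m))`, `E = ce (MM P)`,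
`ξ = y - E y`, `δ = max_i n2 (b_i - θ t b_i)`, `b_i = b (of i)`.
`b_i y star b_i - y`: as `θ t b_i * y * star (θ t b_i) = θ t (ι (a_i p star a_i)) = y` and `‖y‖ ≤ 1`,
`n2 (b_i y star b_i - y) ≤ 2 n2 (b_i - θ t b_i) ≤ 2 δ`.  `1 - E` is a 2-norm contraction and
`(1 - E)(b_i y star b_i) = b_i ξ star b_i`, so `n2 (b_i ξ star b_i - ξ) ≤ 2 δ`.  Sum over `i`:
`16 n2 ξ ≤ n2 (∑ b_i ξ star b_i) + 32 δ ≤ 8 n2 ξ + 32 δ` (`gap_sub` with `K₀ = range inl`, `a = b`;
`tr (z * ξ) = 0` for `z ∈ MM P`).  So `n2 ξ ≤ 4 δ` and by `transversality`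
`1/16 ≤ n2 (θ t (ι p) - ι p) ≤ 2 n2 ξ ≤ 8 δ`.  But `δ → 0` as `m → ∞` (`hθ.cont`).  Contradiction.
`gen` hypothesis of `gap_sub`: every `x : M` is in `vnGen (⋃ k, fam P s k)` by `h.gen`
(`P j = fam (inl j)`, `s j ∈ fam (inr j)`).
-/

open Filter Topology

namespace Pool.Agent.KUR

universe u
variable {M : Type u} [CStarAlgebra M] [TVN M] {J : Type*}

theorem Dil.gen' {P : J → StarSubalgebra ℂ M} {s : J → M} (h : Dil P s) (x : M) :
    x ∈ vnGen (⋃ k, (fam P s k : Set M)) := by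
  refine vnGen_le ?_ (vnSub_vnGen _) (h.gen x)
  intro y hy
  apply subset_vnGen
  rcases hy with hy | ⟨j, rfl⟩
  · obtain ⟨j, hj⟩ := Set.mem_iUnion.mp hy
    exact Set.mem_iUnion.mpr ⟨Sum.inl j, hj⟩
  · exact Set.mem_iUnion.mpr ⟨Sum.inr j, StarAlgebra.subset_adjoin ℂ {s j} (Set.mem_singleton _)⟩

/-- The complement of the conditional expectation is a contraction. -/
private theorem rig_n2_sub_ce {S : StarSubalgebra ℂ M} (hS : VNSub S) (x : M) :
    n2 (x - ce S x) ≤ n2 x := by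
  have h1 := n2_sq_ce hS x
  have h2 := sq_nonneg (n2 (ce S x))
  exact le_of_sq_le_sq (by linarith) (n2_nonneg x)

/-- Almost invariance of an element fixed by nearby unitaries. -/
private theorem rig_almost {b c y : M} (hb : IsUn b) (hc : IsUn c) (hy : ‖y‖ ≤ 1)
    (hcy : c * y * star c = y) : n2 (b * y * star b - y) ≤ 2 * n2 (b - c) := by
  have e1 : b * y * star b - y = (b - c) * (y * star b) + (c * y) * star (b - c) := by
    calc b * y * star b - y = b * y * star b - c * y * star c := by rw [hcy]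
      _ = _ := by
        rw [star_sub]
        simp only [sub_mul, mul_sub, mul_assoc]
        abel
  have hby : ‖y * star b‖ ≤ 1 := by
    refine (norm_mul_le _ _).trans ?_
    rw [norm_star]
    have := hb.norm_le_one
    calc ‖y‖ * ‖b‖ ≤ 1 * 1 := by gcongr
      _ = 1 := one_mul 1
  have hcy' : ‖c * y‖ ≤ 1 := by
    refine (norm_mul_le _ _).trans ?_
    have := hc.norm_le_one
    calc ‖c‖ * ‖y‖ ≤ 1 * 1 := by gcongr
      _ = 1 := one_mul 1
  rw [e1]
  refine (n2_add_le _ _).trans ?_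
  have h1 := n2_mul_le' (b - c) (y * star b)
  have h2 := n2_mul_le (c * y) (star (b - c))
  rw [n2_star] at h2
  have h3 : n2 (b - c) * ‖y * star b‖ ≤ n2 (b - c) * 1 :=
    mul_le_mul_of_nonneg_left hby (n2_nonneg _)
  have h4 : ‖c * y‖ * n2 (b - c) ≤ 1 * n2 (b - c) :=
    mul_le_mul_of_nonneg_right hcy' (n2_nonneg _)
  linarith

/-- The 2-norm of a finite sum. -/
private theorem rig_n2_sum_le {X : Type*} (S : Finset X) (f : X → M) :
    n2 (∑ i ∈ S, f i) ≤ ∑ i ∈ S, n2 (f i) := by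
  classical
  induction S using Finset.induction_on with
  | empty => simp [n2_zero]
  | insert a S ha ih =>
    rw [Finset.sum_insert ha, Finset.sum_insert ha]
    exact (n2_add_le _ _).trans (by linarith)

/-- The estimate at a fixed time. -/
private theorem rig_time {P : J → StarSubalgebra ℂ M} {s : J → M} (h : Dil P s)
    {θ : ℝ → (M →⋆ₐ[ℂ] M)} (hθ : IsTheta P s θ) (t : ℝ) {b : FreeGroup (Fin 16) → M}
    (hb : IsFreeRep b) (hbM : ∀ g, b g ∈ MM P) {p : M} (hp : IsProj p) (hpM : p ∈ MM P)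
    (hbp : ∀ g, b g * p = p * b g) :
    n2 (θ t p - p) ≤ ∑ i, n2 (θ t (b (FreeGroup.of i)) - b (FreeGroup.of i)) := by
  have hS : VNSub (MM P) := vnSub_vnGen _
  set y : M := θ t p with hy
  set E : M →ₗ[ℂ] M := ce (MM P) with hE
  set ξ : M := y - E y with hξ
  have hyn : ‖y‖ ≤ 1 := by
    apply IsProj.norm_le_one
    exact ⟨by rw [hy, ← map_star, hp.1], by rw [hy, ← map_mul, hp.2]⟩
  have hgap := gap_sub h.free h.gen' (Set.range Sum.inl) hb hb
    (fun g => by rw [← MM_eq_subGen]; exact hbM g) (fun g => by rw [← MM_eq_subGen]; exact hbM g) ξ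
    (fun z hz => by
      rw [← MM_eq_subGen] at hz
      rw [hξ, mul_sub, map_sub, hE, tr_mul_ce hS y hz, sub_self])
  have hi : ∀ i : Fin 16, n2 (b (FreeGroup.of i) * ξ * star (b (FreeGroup.of i)) - ξ)
      ≤ 2 * n2 (θ t (b (FreeGroup.of i)) - b (FreeGroup.of i)) := by
    intro i
    set u : M := b (FreeGroup.of i) with hu
    have huu : IsUn u := hb.2.2.1 _
    have huM : u ∈ MM P := hbM _
    have hc : IsUn (θ t u) := by
      refine ⟨?_, ?_⟩ <;> rw [← map_star, ← map_mul]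
      · rw [huu.1, map_one]
      · rw [huu.2, map_one]
    have h1 : θ t u * y * star (θ t u) = y := by
      rw [hy, ← map_star, ← map_mul, ← map_mul, hbp, mul_assoc, huu.2, mul_one]
    have h2 := rig_almost huu hc hyn h1
    rw [n2_sub_comm u] at h2
    have h3 : u * ξ * star u - ξ = (u * y * star u - y) - E (u * y * star u - y) := by
      have h4 : E (u * y * star u) = u * E y * star u := by
        rw [hE, ce_mul_right hS _ (star_mem huM), ce_mul_left hS _ huM]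
      rw [map_sub, h4, hξ, mul_sub, sub_mul]
      abel
    rw [h3]
    exact (rig_n2_sub_ce hS _).trans h2
  have hsum : (16 : ℝ) * n2 ξ ≤ n2 (∑ i : Fin 16, b (FreeGroup.of i) * ξ * star (b (FreeGroup.of i)))
      + 2 * ∑ i, n2 (θ t (b (FreeGroup.of i)) - b (FreeGroup.of i)) := by
    have e1 : n2 ((16 : ℂ) • ξ) = 16 * n2 ξ := by
      rw [n2_smul]; norm_num
    have e2 : (16 : ℂ) • ξ = (∑ i : Fin 16, b (FreeGroup.of i) * ξ * star (b (FreeGroup.of i)))
        - ∑ i : Fin 16, (b (FreeGroup.of i) * ξ * star (b (FreeGroup.of i)) - ξ) := by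
      rw [Finset.sum_sub_distrib, Finset.sum_const, Finset.card_univ, Fintype.card_fin]
      rw [sub_sub_cancel]
      rw [← Nat.cast_smul_eq_nsmul ℂ]
      norm_num
    rw [← e1, e2]
    refine (n2_sub_le _ _).trans ?_
    have e3 := rig_n2_sum_le Finset.univ
      (fun i : Fin 16 => b (FreeGroup.of i) * ξ * star (b (FreeGroup.of i)) - ξ)
    have e4 := Finset.sum_le_sum (fun (i : Fin 16) (_ : i ∈ Finset.univ) => hi i)
    rw [← Finset.mul_sum] at e4
    linarith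
  have htr := transversality h hθ t hpM
  have h5 : n2 (θ t p - ce (MM P) (θ t p)) = n2 ξ := by rw [hξ, hy, hE]
  rw [h5] at htr
  have h6 : n2 ξ ≤ (1 / 4) * ∑ i, n2 (θ t (b (FreeGroup.of i)) - b (FreeGroup.of i)) := by
    linarith
  have h7 : 0 ≤ ∑ i, n2 (θ t (b (FreeGroup.of i)) - b (FreeGroup.of i)) :=
    Finset.sum_nonneg (fun i _ => n2_nonneg _)
  linarith

theorem rig {P : J → StarSubalgebra ℂ M} {s : J → M} (h : Dil P s)
    {θ : ℝ → (M →⋆ₐ[ℂ] M)} (hθ : IsTheta P s θ) {U : Ultrafilter ℕ} (hU : (U : Filter ℕ) ≤ atTop)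
    {N Q : Type u} [CStarAlgebra N] [TVN N] [CStarAlgebra Q] [TVN Q] (hN : IsII1 N)
    (hQ : IsUltrapower U N Q) (ι : Q →⋆ₐ[ℂ] M) (hι : TrPres ι) (hιM : ∀ x, ι x ∈ MM P) :
    ∃ (n : ℕ) (w : M), w ≠ 0 ∧ ∀ x, ι x * w = w * θ (1 / 2 ^ n) (ι x) := by
  by_contra hcon
  have hno : ∀ (n : ℕ) (w : M), (∀ x, ι x * w = w * ((θ (1 / 2 ^ n)).comp ι) x) → w = 0 := by
    intro n w hw
    by_contra hw0
    exact hcon ⟨n, w, hw0, hw⟩
  have hQ2 : IsII1 Q := hQ.isII1 hN
  obtain ⟨p, hp, a, ha, hap⟩ := lemC hU hN hQ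
    (fun m p => 1 / 16 ≤ n2 (θ (1 / 2 ^ m) (ι p) - ι p))
    (fun m L h1 h2 => rig_step hQ2 hι (TrPres.comp (hθ.tr_eq _) hι) (hno m) L h1 h2)
  have hb : IsFreeRep (fun g => ι (a g)) := by
    refine ⟨by simp only [ha.1, map_one], fun g k => by simp only [ha.2.1 g k, map_mul],
      fun g => ?_, fun g hg => ?_⟩
    · have := ha.2.2.1 g
      refine ⟨?_, ?_⟩
      · show star (ι (a g)) * ι (a g) = 1
        rw [← map_star, ← map_mul, this.1, map_one]
      · show ι (a g) * star (ι (a g)) = 1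
        rw [← map_star, ← map_mul, this.2, map_one]
    · show tr (ι (a g)) = 0
      rw [hι, ha.2.2.2 g hg]
  have key : ∀ m : ℕ, (1 : ℝ) / 16 ≤
      ∑ i : Fin 16, n2 (θ (1 / 2 ^ m) (ι (a (FreeGroup.of i))) - ι (a (FreeGroup.of i))) := by
    intro m
    have hpr : IsProj (ι (p m)) := by
      refine ⟨?_, ?_⟩
      · rw [← map_star, (hp m).1.1]
      · rw [← map_mul, (hp m).1.2]
    refine (hp m).2.trans (rig_time h hθ (1 / 2 ^ m) hb (fun g => hιM _) hpr (hιM _) (fun g => ?_))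
    show ι (a g) * ι (p m) = ι (p m) * ι (a g)
    rw [← map_mul, ← map_mul, hap]
  have ht : Tendsto (fun m : ℕ => (1 : ℝ) / 2 ^ m) atTop (𝓝 0) := by
    have : Tendsto (fun m : ℕ => ((1 : ℝ) / 2) ^ m) atTop (𝓝 0) :=
      tendsto_pow_atTop_nhds_zero_of_lt_one (by norm_num) (by norm_num)
    refine this.congr (fun m => ?_)
    rw [div_pow, one_pow]
  have hlim : Tendsto (fun m : ℕ => ∑ i : Fin 16,
      n2 (θ (1 / 2 ^ m) (ι (a (FreeGroup.of i))) - ι (a (FreeGroup.of i)))) atTop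
      (𝓝 (∑ i : Fin 16, (0 : ℝ))) :=
    tendsto_finsetSum _ (fun i _ => (hθ.cont (ι (a (FreeGroup.of i)))).comp ht)
  rw [Finset.sum_const_zero] at hlim
  have := ge_of_tendsto' hlim key
  norm_num at this

end Pool.Agent.KUR
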