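import Pool.Agent.KUR.Comp
import Pool.Agent.KUR.Spec

/-!
# KUR RigS: non-intertwined homomorphisms differ on projections of every finite commutant

PROOF.  Let `D ⊆ Q` be the commutant of the finite list `L` (a VNSub, `vnSub_centralizer`; the
elements of `L` are self-adjoint).  Suppose the conclusion fails: `n2 (g p - f p) < 1/16` for all
projections `p ∈ D`.
(1) For `h = star a * a ∈ D`, `‖h‖ ≤ 1`, by `layer` (projections in `D`), `f`, `g` being norm
contractive (`TrPres.norm_eq`): `n2 (g h - f h) ≤ 1/16 + 2/n` for all `n`, so `≤ 1/16`.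
(2) Every `v ∈ D` with `‖v‖ ≤ 1` is `h₁ - h₂ + i (h₃ - h₄)` with `h_k` of this form (positive and negative
parts of real and imaginary part), so `n2 (g v - f v) ≤ 1/4` for all unitaries `v ∈ D`.
(3) `Re tr (f v * star (g v)) = 1 - n2 (f v - g v)^2 / 2 ≥ 1 - 1/32 ≥ 1/2`.  `avg_intertwiner` for
`G = {(f v, g v) | v ∈ D unitary}` gives `w ≠ 0` with `f v * w = w * g v` for all unitaries `v` of `D`,
hence for all `x ∈ D` (`eq_of_unitaries` with the linear maps `x ↦ f x * w`, `x ↦ w * g x`).
(4) The atoms `e_ε = ∏ (p_i or 1 - p_i)` of `L` lie in `D`, are projections with sum 1, so for one of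
them `w' := f e * w ≠ 0`; `f e * w = w * g e`, so `w' = f e * w * g e`.  If `x ∈ Q`, `x = e x e`, then `x`
commutes with all `p_i` (`p_i e` is `e` or `0`), so `x ∈ D` and `f x * w' = w' * g x`.
(Alternatively by induction on the list `L`: the statement if `w ≠ 0` intertwines the commutant of
`L` in `e Q e` then for some projection `e' ≤ e` commuting.. `w' ≠ 0` intertwines `e' Q e'`.)
(5) `packing` (for `⊤ : StarSubalgebra ℂ Q`, `hQ`): `F 0 = e`, `F l = F l * e`, `∑ F l star (F l) = 1`,
`star (F k) * F l = 0` (k ≠ l).  `W := ∑ f (F l) * w' * g (star (F l))`.  For `x ∈ Q`: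
`f x * W = ∑_l f (x F l) w' g (star (F l)) = ∑_{k,l} f (F k) f (star (F k) x F l) w' g (star (F l))
= ∑_{k,l} f (F k) w' g (star (F k) x F l star (F l)) = W * g x`.  `f e * W * g e = w' ≠ 0`
(`e * F l = star (F 0) * F l = 0` for `l ≠ 0`), so `W ≠ 0`, contradicting `hno`.
-/

open Filter Topology

namespace Pool.Agent.KUR

universe u
variable {M Q : Type u} [CStarAlgebra M] [TVN M] [CStarAlgebra Q] [TVN Q]

/-- Step (1): positive contractions of the commutant are almost fixed. -/
private theorem rig_pos {f g : Q →⋆ₐ[ℂ] M} (hf : TrPres f) (hg : TrPres g)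
    {D : StarSubalgebra ℂ Q} (hD : VNSub D)
    (hp : ∀ p ∈ D, IsProj p → n2 (g p - f p) ≤ 1 / 16)
    {h : Q} (hh : h ∈ D) (hpos : ∃ a : Q, h = star a * a) (h1 : ‖h‖ ≤ 1) :
    n2 (g h - f h) ≤ 1 / 16 := by
  have key : ∀ n : ℕ, 0 < n → n2 (g h - f h) ≤ 1 / 16 + 2 * (1 / (n : ℝ)) := by
    intro n hn
    obtain ⟨e, he, heD, hne⟩ := layer hpos h1 hn
    have hn0 : (n : ℝ) ≠ 0 := by positivity
    have hnC : ‖(1 / (n : ℂ))‖ = 1 / (n : ℝ) := by
      rw [norm_div, norm_one, Complex.norm_natCast]
    have e1 : g h - f h = (g (h - (1 / (n : ℂ)) • ∑ i, e i) - f (h - (1 / (n : ℂ)) • ∑ i, e i))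
        + (1 / (n : ℂ)) • ∑ i, (g (e i) - f (e i)) := by
      rw [Finset.sum_sub_distrib]
      simp only [map_sub, map_smul, map_sum, smul_sub]
      abel
    have b1 : n2 (g (h - (1 / (n : ℂ)) • ∑ i, e i)) ≤ 1 / (n : ℝ) := by
      rw [hg.n2_eq]; exact (n2_le_norm _).trans hne
    have b2 : n2 (f (h - (1 / (n : ℂ)) • ∑ i, e i)) ≤ 1 / (n : ℝ) := by
      rw [hf.n2_eq]; exact (n2_le_norm _).trans hne
    have b3 : n2 (∑ i, (g (e i) - f (e i))) ≤ (n : ℝ) * (1 / 16) := by
      have hsum : ∀ s : Finset (Fin n), n2 (∑ i ∈ s, (g (e i) - f (e i))) ≤ (s.card : ℝ) * (1 / 16) := by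
        intro s
        classical
        induction s using Finset.induction_on with
        | empty => simp [n2_zero]
        | insert a s ha ih =>
          rw [Finset.sum_insert ha, Finset.card_insert_of_notMem ha]
          have h2 := hp (e a) (heD a D hD hh) (he a)
          have h3 := n2_add_le (g (e a) - f (e a)) (∑ i ∈ s, (g (e i) - f (e i)))
          push_cast
          linarith
      have := hsum Finset.univ
      simpa using this
    have b4 : n2 ((1 / (n : ℂ)) • ∑ i, (g (e i) - f (e i))) ≤ 1 / 16 := by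
      rw [n2_smul, hnC]
      calc 1 / (n : ℝ) * n2 (∑ i, (g (e i) - f (e i))) ≤ 1 / (n : ℝ) * ((n : ℝ) * (1 / 16)) := by
            apply mul_le_mul_of_nonneg_left b3; positivity
        _ = 1 / 16 := by field_simp
    rw [e1]
    refine (n2_add_le _ _).trans ?_
    have := n2_sub_le (g (h - (1 / (n : ℂ)) • ∑ i, e i)) (f (h - (1 / (n : ℂ)) • ∑ i, e i))
    linarith
  have hlim : Tendsto (fun n : ℕ => (1 : ℝ) / 16 + 2 * (1 / ((n : ℝ) + 1))) atTop (𝓝 (1 / 16 + 2 * 0)) :=
    (tendsto_one_div_add_atTop_nhds_zero_nat.const_mul 2).const_add _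
  rw [mul_zero, add_zero] at hlim
  refine ge_of_tendsto' hlim (fun n => ?_)
  have := key (n + 1) (Nat.succ_pos n)
  push_cast at this
  exact this

/-- Step (2a): self-adjoint contractions. -/
private theorem rig_sa {f g : Q →⋆ₐ[ℂ] M} (hf : TrPres f) (hg : TrPres g)
    {D : StarSubalgebra ℂ Q} (hD : VNSub D)
    (hp : ∀ p ∈ D, IsProj p → n2 (g p - f p) ≤ 1 / 16)
    {a : Q} (ha : a ∈ D) (hsa : star a = a) (h1 : ‖a‖ ≤ 1) :
    n2 (g a - f a) ≤ 1 / 8 := by
  let _ : PartialOrder Q := CStarAlgebra.spectralOrder Q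
  have _ : StarOrderedRing Q := CStarAlgebra.spectralOrderedRing Q
  have hone : ‖(1 : Q)‖ ≤ 1 := isUn_one.norm_le_one
  have hpos : 0 ≤ 1 + a := by
    have h2 : -(algebraMap ℝ Q ‖a‖) ≤ a := IsSelfAdjoint.neg_algebraMap_norm_le_self hsa
    have h3 : (algebraMap ℝ Q ‖a‖) ≤ algebraMap ℝ Q 1 := algebraMap_mono Q h1
    rw [map_one] at h3
    have h4 : 0 ≤ algebraMap ℝ Q ‖a‖ + a := by
      have := add_le_add_left h2 (algebraMap ℝ Q ‖a‖)
      simpa [add_comm] using this
    exact h4.trans (add_le_add_left h3 a)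
  obtain ⟨b, hb⟩ := CStarAlgebra.nonneg_iff_eq_star_mul_self.mp hpos
  set c : ℂ := ((Real.sqrt (1 / 2) : ℝ) : ℂ) with hc
  have hcc : (star c) * c = 1 / 2 := by
    rw [hc, Complex.star_def, Complex.conj_ofReal, ← Complex.ofReal_mul,
      Real.mul_self_sqrt (by norm_num)]
    norm_num
  have h5 := rig_pos (h := (1 / 2 : ℂ) • (1 + a)) hf hg hD hp
    (D.smul_mem (D.add_mem D.one_mem ha) _) ⟨c • b, by
      rw [star_smul, smul_mul_smul_comm, hcc, ← hb]⟩ (by
      rw [norm_smul]
      have : ‖(1 / 2 : ℂ)‖ = 1 / 2 := by norm_num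
      rw [this]
      have := norm_add_le (1 : Q) a
      linarith)
  have e1 : g ((1 / 2 : ℂ) • (1 + a)) - f ((1 / 2 : ℂ) • (1 + a)) = (1 / 2 : ℂ) • (g a - f a) := by
    simp only [map_smul, map_add, map_one, smul_add, smul_sub]
    abel
  rw [e1, n2_smul] at h5
  have : ‖(1 / 2 : ℂ)‖ = 1 / 2 := by norm_num
  rw [this] at h5
  linarith

/-- Step (2b): contractions. -/
private theorem rig_contr {f g : Q →⋆ₐ[ℂ] M} (hf : TrPres f) (hg : TrPres g)
    {D : StarSubalgebra ℂ Q} (hD : VNSub D)
    (hp : ∀ p ∈ D, IsProj p → n2 (g p - f p) ≤ 1 / 16)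
    {v : Q} (hv : v ∈ D) (h1 : ‖v‖ ≤ 1) :
    n2 (g v - f v) ≤ 1 / 4 := by
  have hn2 : ‖(1 / 2 : ℂ)‖ = 1 / 2 := by norm_num
  have hI : ‖(-(Complex.I / 2) : ℂ)‖ = 1 / 2 := by
    rw [norm_neg, norm_div, Complex.norm_I]; norm_num
  have hstar : ‖star v‖ ≤ 1 := by rw [norm_star]; exact h1
  have ha := rig_sa (a := (1 / 2 : ℂ) • (v + star v)) hf hg hD hp
    (D.smul_mem (D.add_mem hv (D.star_mem' hv)) _)
    (by
      rw [star_smul, star_add, star_star, add_comm]
      congr 1
      simp)
    (by
      rw [norm_smul, hn2]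
      have := norm_add_le v (star v)
      linarith)
  have hb := rig_sa (a := (-(Complex.I / 2) : ℂ) • (v - star v)) hf hg hD hp
    (D.smul_mem (D.sub_mem hv (D.star_mem' hv)) _)
    (by
      rw [star_smul, star_sub, star_star, ← neg_sub v (star v), smul_neg, ← neg_smul]
      congr 1
      simp
      ring)
    (by
      rw [norm_smul, hI]
      have := norm_sub_le v (star v)
      linarith)
  have e1 : v = (1 / 2 : ℂ) • (v + star v) + Complex.I • ((-(Complex.I / 2) : ℂ) • (v - star v)) := by
    rw [smul_smul]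
    have : Complex.I * (-(Complex.I / 2)) = 1 / 2 := by
      have := Complex.I_mul_I
      linear_combination (-1 / 2 : ℂ) * this
    rw [this, ← smul_add]
    have : v + star v + (v - star v) = (2 : ℂ) • v := by
      rw [two_smul]; abel
    rw [this, smul_smul]; norm_num
  set a := (1 / 2 : ℂ) • (v + star v) with hadef
  set b := (-(Complex.I / 2) : ℂ) • (v - star v) with hbdef
  have e2 : g v - f v = (g a - f a) + Complex.I • (g b - f b) := by
    rw [e1]
    simp only [map_add, map_smul, smul_sub]
    abel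
  rw [e2]
  refine (n2_add_le _ _).trans ?_
  rw [n2_smul, Complex.norm_I, one_mul]
  linarith

/-- Step (3): an intertwiner for the commutant. -/
private theorem rig_inter {f g : Q →⋆ₐ[ℂ] M} (hf : TrPres f) (hg : TrPres g)
    {D : StarSubalgebra ℂ Q} (hD : VNSub D)
    (hp : ∀ p ∈ D, IsProj p → n2 (g p - f p) ≤ 1 / 16) :
    ∃ w : M, w ≠ 0 ∧ ∀ x ∈ D, f x * w = w * g x := by
  obtain ⟨w, hw, hw'⟩ := avg_intertwiner {p : M × M | ∃ v ∈ D, IsUn v ∧ p = (f v, g v)}
    ⟨1, D.one_mem, isUn_one, by simp⟩
    (by
      rintro p ⟨v, hv, hu, rfl⟩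
      refine ⟨⟨?_, ?_⟩, ⟨?_, ?_⟩⟩ <;> simp only [← map_star, ← map_mul]
      · rw [hu.1, map_one]
      · rw [hu.2, map_one]
      · rw [hu.1, map_one]
      · rw [hu.2, map_one])
    (by
      rintro p ⟨v, hv, hu, rfl⟩ q ⟨v', hv', hu', rfl⟩
      exact ⟨v * v', D.mul_mem hv hv', hu.mul hu', by simp⟩)
    (1 / 2) (by norm_num)
    (by
      rintro p ⟨v, hv, hu, rfl⟩
      have h1 := rig_contr hf hg hD hp hv hu.norm_le_one
      have h2 : n2 (g v - f v) ^ 2 = 2 - 2 * (tr (f v * star (g v))).re := by
        rw [n2_sq]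
        have e1 : star (g v - f v) * (g v - f v)
            = star (g v) * g v + star (f v) * f v - star (g v) * f v - star (f v) * g v := by
          rw [star_sub, sub_mul, mul_sub, mul_sub]; abel
        rw [e1]
        have e2 : star (g v) * g v = 1 := by rw [← map_star, ← map_mul, hu.1, map_one]
        have e3 : star (f v) * f v = 1 := by rw [← map_star, ← map_mul, hu.1, map_one]
        have e4 : tr (star (f v) * g v) = (starRingEnd ℂ) (tr (f v * star (g v))) := by
          rw [← tr_star, star_mul, star_star, tr_mul_comm]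
        have e5 : tr (star (g v) * f v) = tr (f v * star (g v)) := tr_mul_comm _ _
        rw [e2, e3, map_sub, map_sub, map_add, e4, e5, tr_one']
        simp only [Complex.sub_re, Complex.add_re, Complex.one_re, Complex.conj_re]
        ring
      have h3 : n2 (g v - f v) ^ 2 ≤ (1 / 4) ^ 2 := pow_le_pow_left₀ (n2_nonneg _) h1 2
      show 1 / 2 ≤ (tr (f v * star (g v))).re
      nlinarith)
  refine ⟨w, hw, ?_⟩
  have := eq_of_unitaries hD
    ((LinearMap.mulRight ℂ w).comp (f : Q →ₗ[ℂ] M))
    ((LinearMap.mulLeft ℂ w).comp (g : Q →ₗ[ℂ] M)) (by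
      intro u hu huu
      exact hw' (f u, g u) ⟨u, hu, huu, rfl⟩)
  exact this

/-- Step (4): passing to a corner commuting with the list. -/
private theorem rig_atom {f g : Q →⋆ₐ[ℂ] M} (L : List Q) :
    ∀ (e : Q) (w : M), (∀ p ∈ L, IsProj p) → (∀ p ∈ L, ∀ q ∈ L, p * q = q * p) → IsProj e →
      (∀ q ∈ L, e * q = q * e) → w ≠ 0 → f e * w = w →
      (∀ x, e * x = x → x * e = x → (∀ q ∈ L, x * q = q * x) → f x * w = w * g x) →
      ∃ (e' : Q) (w' : M), IsProj e' ∧ w' ≠ 0 ∧ f e' * w' = w' ∧
        ∀ x, e' * x = x → x * e' = x → f x * w' = w' * g x := by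
  induction L with
  | nil =>
    intro e w _ _ he _ hw hfe hx
    exact ⟨e, w, he, hw, hfe, fun x h1 h2 => hx x h1 h2 (by simp)⟩
  | cons q L ih =>
    intro e w hL hc he hec hw hfe hx
    have hq : IsProj q := hL q (by simp)
    have heq : e * q = q * e := hec q (by simp)
    -- the two candidates
    have main : ∀ r : Q, IsProj r → e * r = r * e → (∀ p ∈ L, r * p = p * r) →
        (∀ x, (e * r) * x = x → x * (e * r) = x → x * q = q * x) → f (e * r) * w ≠ 0 →
        ∃ (e' : Q) (w' : M), IsProj e' ∧ w' ≠ 0 ∧ f e' * w' = w' ∧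
        ∀ x, e' * x = x → x * e' = x → f x * w' = w' * g x := by
      intro r hr her hrL hrq hne
      have hepr : IsProj (e * r) := by
        refine ⟨by rw [star_mul, he.1, hr.1, her], ?_⟩
        calc e * r * (e * r) = e * (r * e) * r := by simp only [mul_assoc]
          _ = e * (e * r) * r := by rw [her]
          _ = (e * e) * (r * r) := by simp only [mul_assoc]
          _ = e * r := by rw [he.2, hr.2]
      refine ih (e * r) (f (e * r) * w) (fun p hp => hL p (by simp [hp]))
        (fun p hp p' hp' => hc p (by simp [hp]) p' (by simp [hp'])) hepr ?_ hne ?_ ?_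
      · intro p hp
        have h1 : e * p = p * e := hec p (by simp [hp])
        have h2 : r * p = p * r := hrL p hp
        calc e * r * p = e * (r * p) := mul_assoc _ _ _
          _ = (e * p) * r := by rw [h2, mul_assoc]
          _ = p * (e * r) := by rw [h1, mul_assoc]
      · rw [← mul_assoc, ← map_mul, hepr.2]
      · intro x h1 h2 h3
        have hex : e * x = x := by
          calc e * x = e * (e * r * x) := by rw [h1]
            _ = (e * e) * r * x := by simp only [mul_assoc]
            _ = e * r * x := by rw [he.2]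
            _ = x := h1
        have hxe : x * e = x := by
          calc x * e = (x * (e * r)) * e := by rw [h2]
            _ = x * (e * (r * e)) := by simp only [mul_assoc]
            _ = x * (e * (e * r)) := by rw [her]
            _ = x * (e * r) := by rw [← mul_assoc e e r, he.2]
            _ = x := h2
        have h4 := hx x hex hxe (by
          intro p hp
          rcases List.mem_cons.mp hp with rfl | hp
          · exact hrq x h1 h2
          · exact h3 p hp)
        calc f x * (f (e * r) * w) = f (x * (e * r)) * w := by rw [← mul_assoc, ← map_mul]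
          _ = f x * w := by rw [h2]
          _ = f (e * r * x) * w := by rw [h1]
          _ = f (e * r) * (f x * w) := by rw [map_mul, mul_assoc]
          _ = f (e * r) * w * g x := by rw [h4, mul_assoc]
    by_cases h0 : f (e * q) * w = 0
    · refine main (1 - q) hq.one_sub ?_ ?_ ?_ ?_
      · rw [mul_sub, sub_mul, heq]; simp
      · intro p hp
        have := hc q (by simp) p (by simp [hp])
        rw [mul_sub, sub_mul, this]; simp
      · intro x h1 h2
        have hq0 : q * (e * (1 - q)) = 0 := by
          rw [← mul_assoc, ← heq, mul_sub, mul_one, mul_assoc, hq.2, sub_self]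
        have hq0' : (e * (1 - q)) * q = 0 := by
          rw [mul_assoc, sub_mul, one_mul, hq.2, sub_self, mul_zero]
        have h3 : q * x = 0 := by rw [← h1, ← mul_assoc, hq0, zero_mul]
        have h4 : x * q = 0 := by rw [← h2, mul_assoc, hq0', mul_zero]
        rw [h3, h4]
      · intro h1
        apply hw
        have : f e * w = f (e * q) * w + f (e * (1 - q)) * w := by
          rw [← add_mul, ← map_add, ← mul_add]; simp
        rw [← hfe, this, h0, h1, add_zero]
    · refine main q hq heq ?_ ?_ h0
      · intro p hp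
        exact hc q (by simp) p (by simp [hp])
      · intro x h1 h2
        have h3 : q * x = x := by
          rw [← h1]
          calc q * (e * q * x) = (q * e) * q * x := by simp only [mul_assoc]
            _ = e * (q * q) * x := by rw [← heq]; simp only [mul_assoc]
            _ = e * q * x := by rw [hq.2]
        have h4 : x * q = x := by
          rw [← h2]
          calc x * (e * q) * q = x * (e * (q * q)) := by simp only [mul_assoc]
            _ = x * (e * q) := by rw [hq.2]
        rw [h3, h4]

/-- Step (5): from a corner to the whole factor. -/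
private theorem rig_full (hQ : IsII1 Q) {f g : Q →⋆ₐ[ℂ] M} {e : Q} {w : M} (he : IsProj e)
    (hw : w ≠ 0) (hfe : f e * w = w) (hx : ∀ x, e * x = x → x * e = x → f x * w = w * g x) :
    ∃ W : M, W ≠ 0 ∧ ∀ x, f x * W = W * g x := by
  have he0 : e ≠ 0 := by
    rintro rfl
    exact hw (by rw [← hfe, map_zero, zero_mul])
  have hge : w * g e = w := by
    rw [← hx e he.2 he.2, hfe]
  obtain ⟨n, F, hF0, -, hFe, -, hFo, hF1⟩ :=
    packing (S := (⊤ : StarSubalgebra ℂ Q)) vnSub_top hQ.1 StarSubalgebra.mem_top he he0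
  have heF : ∀ l, e * star (F l) = star (F l) := by
    intro l
    have := congrArg star (hFe l)
    rwa [star_mul, he.1] at this
  refine ⟨∑ l, f (F l) * w * g (star (F l)), ?_, ?_⟩
  · intro h0
    apply hw
    have h1 : f e * (∑ l, f (F l) * w * g (star (F l))) * g e = w := by
      rw [Finset.mul_sum, Finset.sum_mul, Finset.sum_eq_single 0]
      · rw [hF0, he.1]
        calc f e * (f e * w * g e) * g e = f (e * e) * w * g (e * e) := by
              rw [map_mul, map_mul]; simp only [mul_assoc]
          _ = w := by rw [he.2, hfe, hge]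
      · intro l _ hl
        have h2 : e * F l = 0 := by
          have := hFo 0 l (Ne.symm hl)
          rwa [hF0, he.1] at this
        calc f e * (f (F l) * w * g (star (F l))) * g e
            = f (e * F l) * w * g (star (F l)) * g e := by
              rw [map_mul]; simp only [mul_assoc]
          _ = 0 := by rw [h2, map_zero, zero_mul, zero_mul, zero_mul]
      · intro h; exact absurd (Finset.mem_univ _) h
    rw [← h1, h0, mul_zero, zero_mul]
  · intro x
    have hkl : ∀ k l, f (star (F k) * x * F l) * w = w * g (star (F k) * x * F l) := by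
      intro k l
      apply hx
      · rw [← mul_assoc, ← mul_assoc, heF]
      · rw [mul_assoc, hFe]
    have hL : f x * (∑ l, f (F l) * w * g (star (F l)))
        = ∑ l, ∑ k, f (F k) * (f (star (F k) * x * F l) * w) * g (star (F l)) := by
      rw [Finset.mul_sum]
      refine Finset.sum_congr rfl (fun l _ => ?_)
      have e1 : x * F l = ∑ k, F k * (star (F k) * x * F l) := by
        calc x * F l = (∑ k, F k * star (F k)) * (x * F l) := by rw [hF1, one_mul]
          _ = _ := by
            rw [Finset.sum_mul]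
            refine Finset.sum_congr rfl (fun k _ => ?_)
            simp only [mul_assoc]
      calc f x * (f (F l) * w * g (star (F l))) = f (x * F l) * w * g (star (F l)) := by
            rw [map_mul]; simp only [mul_assoc]
        _ = (∑ k, f (F k * (star (F k) * x * F l))) * w * g (star (F l)) := by
            rw [← map_sum, ← e1]
        _ = _ := by
            rw [Finset.sum_mul, Finset.sum_mul]
            refine Finset.sum_congr rfl (fun k _ => ?_)
            rw [map_mul]; simp only [mul_assoc]
    have hR : (∑ l, f (F l) * w * g (star (F l))) * g x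
        = ∑ k, ∑ l, f (F k) * (w * g (star (F k) * x * F l)) * g (star (F l)) := by
      rw [Finset.sum_mul]
      refine Finset.sum_congr rfl (fun k _ => ?_)
      have e1 : star (F k) * x = ∑ l, star (F k) * x * F l * star (F l) := by
        calc star (F k) * x = star (F k) * x * ∑ l, F l * star (F l) := by rw [hF1, mul_one]
          _ = _ := by
            rw [Finset.mul_sum]
            refine Finset.sum_congr rfl (fun l _ => ?_)
            simp only [mul_assoc]
      calc f (F k) * w * g (star (F k)) * g x = f (F k) * w * g (star (F k) * x) := by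
            rw [map_mul]; simp only [mul_assoc]
        _ = f (F k) * w * ∑ l, g (star (F k) * x * F l * star (F l)) := by
            rw [← map_sum, ← e1]
        _ = _ := by
            rw [Finset.mul_sum]
            refine Finset.sum_congr rfl (fun l _ => ?_)
            rw [map_mul]; simp only [mul_assoc]
    rw [hL, hR, Finset.sum_comm]
    refine Finset.sum_congr rfl (fun k _ => Finset.sum_congr rfl (fun l _ => ?_))
    rw [hkl]

theorem rig_step (hQ : IsII1 Q) {f g : Q →⋆ₐ[ℂ] M} (hf : TrPres f) (hg : TrPres g)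
    (hno : ∀ w : M, (∀ x, f x * w = w * g x) → w = 0) (L : List Q) (hL : ∀ p ∈ L, IsProj p)
    (hc : ∀ p ∈ L, ∀ q ∈ L, p * q = q * p) :
    ∃ p, IsProj p ∧ (∀ q ∈ L, p * q = q * p) ∧ 1 / 16 ≤ n2 (g p - f p) := by
  by_contra hcon
  push Not at hcon
  have hcomm : ∀ x : Q, x ∈ StarSubalgebra.centralizer ℂ {q | q ∈ L} ↔ ∀ q ∈ L, x * q = q * x := by
    intro x
    rw [StarSubalgebra.mem_centralizer_iff]
    constructor
    · intro h q hq
      exact (h q hq).1.symm
    · intro h q hq
      have h1 := (h q hq).symm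
      exact ⟨h1, by rw [(hL q hq).1]; exact h1⟩
  obtain ⟨w, hw, hwx⟩ := rig_inter hf hg (vnSub_centralizer {q | q ∈ L}) (by
    intro p hp hpp
    exact (hcon p hpp ((hcomm p).mp hp)).le)
  obtain ⟨e, w', he, hw', hfe, hx⟩ := rig_atom (f := f) (g := g) L 1 w hL hc ⟨by simp, by simp⟩ (by simp) hw
    (by rw [map_one, one_mul]) (fun x _ _ h3 => hwx x ((hcomm x).mpr h3))
  obtain ⟨W, hW, hWx⟩ := rig_full hQ he hw' hfe hx
  exact hW (hno W hWx)

end Pool.Agent.KUR
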