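import Pool.Agent.KUR.Th1
import Pool.Agent.KUR.Th2
import Pool.Agent.KUR.Cross

/-!
# KUR TT: the key algebraic relation `T(x)* T(y) ∈ P j`

`E = ce (MM P)`, `E_j = ce (P j)`; for `i, k : J`, `y ∈ MM P` put `V = s i * θ 1 y * s k`.

PROOF of `tt_zero`.  By 2-norm continuity (`θ 1` isometric, `E` contractive) and linearity `y`, `y'`
are values of reduced `P`-words (words of `fam P s` with all indices `inl`); `m`, `z` stay general.
FORMULA: for a reduced `P`-word `l = (j_1,p_1)::l'` one has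
`s_i θ(wv l) s_k = s_i s_{j_1} p_1 (s_{j_1} θ(wv l') s_k)`.  So define words
`F i k [] = if i = k then [] else [s_i, s_k]`,
`F i k ((j,p)::l') = (if i = j then [p] else [s_i, s_j, p]) ++ F j k l'`; its value is
`s_i θ(wv l) s_k` and it is a reduced word of `fam P s`.  Either it has no `inr` letter (`l = []`,
`i = k`, or `l = [(i,p)]`, `i = k`; then `V ∈ MM P`, `V - E V = 0`), or it has the form
`F = pre ++ mid ++ suf`, `pre = []` or one letter of `P i`, `suf = []` or one letter of `P k`, `mid`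
nonempty reduced, starting with `inr i`, ending with `inr k` (induction on `l`); then `E V = 0`
(`tr_mul_word_eq_zero`, `ce_eq_zero_of`).
So let `V = A * wv mid * B`, `V' = B' * wv mid' * A'` with `A ∈ P i`, `B, B' ∈ P j`, `A' ∈ P k`,
`mid` ending with `inr j`, `mid'` starting with `inr j`.  Then
`tr (V m V' z) = tr (wv mid * X * wv mid' * Y)`, `X = B m B'`, `Y = A' z A` in `MM P`, and
`tr X = tr (B' B m) = tr (B' B * E_j m) = 0`.  By continuity and linearity (`mem_vnGen_iff`,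
`mem_span_words`, `K₀ = range inl`) `X` is the value of a nonempty reduced `inl`-word (its empty-word
coefficient is `tr X = 0`: nonempty words have trace 0) and `Y` that of a possibly empty one; the
word `mid ++ X ++ mid' ++ Y` is reduced and nonempty, so the trace is 0.

PROOF of `tt_main`.  Let `R x = W θ(x) s_j - T x`, `T x = E (W θ(x) s_j)`.  For `m ∈ MM P` with
`E_j m = 0` we show `tr (m * star (T x) * T y) = 0`; then `star (T x) * T y ∈ P j`: with
`c = star (T x) * T y` take `m = star (c - E_j c)`: `tr (star (c - E_j c) * (c - E_j c)) =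
tr (m c) - tr (m E_j c) = 0 - 0`.
`star (W θ(x) s_j) * (W θ(y) s_j) = s_j θ(star x * y) s_j =: G`, and
`tr (m * G) = 0`: `E G = E_j (star x * y)` [for `u` a reduced `P`-word, `s_j θ(u) s_j = F j j u` has an
`inr` letter unless `u = []` or `u = [(j,p)]`], so `tr (m G) = tr (m E_j(..)) = tr (E_j m ..) = 0`.
`G = star (T x) T y + star (T x) R y + star (R x) T y + star (R x) R y`; `E (R y) = 0` kills the
middle terms after multiplying by `m ∈ MM P` and tracing
(`tr (m star (T x) R y) = 0`, `tr (m * star (R x) * T y) = tr (T y * m * star (R x)) = 0`).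
Last term: `W` is in the closure of `H0span`, so `R y` is in the 2-norm closure of the span of
`m' * (V - E V)`, `V = s i θ(y') s j`, `m', y' ∈ MM P` (apply `x ↦ (1-E)(x θ(y) s_j)` to
`m' s_i θ(y'')`), similarly `R x`.  `tr (m star (R x) R y)` is 2-norm continuous in `R x`, `R y`; for
`R x = m₁ (V₁ - E V₁)`, `R y = m₂ (V₂ - E V₂)`:
`tr (m star (V₁ - E V₁) star m₁ m₂ (V₂ - E V₂)) = tr ((V₂ - E V₂) m star (V₁ - E V₁) (star m₁ m₂))`,
which is 0 by `tt_zero` (`star V₁ = s j θ(star y') s i`).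

PROOF of `tt_ne_zero`: if all `T_j x = 0` then for all `m, y ∈ MM P`:
`tr (star (m s_j θ(y)) * W) = tr (θ(star y) s_j star m W) = tr (star m * W θ(star y) s_j) =
tr (star m * T_j (star y)) = 0`, so `W` is orthogonal to `H0span`, and it is in its closure: `W = 0`.
-/

open Filter Topology

namespace Pool.Agent.KUR

universe u
variable {M : Type u} [CStarAlgebra M] [TVN M] {J : Type*}

theorem tt_vn (P : J → StarSubalgebra ℂ M) : VNSub (MM P) := vnSub_vnGen _

theorem tt_P_le (P : J → StarSubalgebra ℂ M) (j : J) {x : M} (hx : x ∈ P j) : x ∈ MM P :=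
  subset_vnGen _ (Set.mem_iUnion.mpr ⟨j, hx⟩)

theorem tt_MM_eq (P : J → StarSubalgebra ℂ M) (s : J → M) :
    MM P = subGen (fam P s) (Set.range Sum.inl) := by
  unfold MM subGen
  congr 1
  ext x
  simp [fam]

/-- The words with letters in the `P j`. -/
def TTInlW (l : List ((J ⊕ J) × M)) : Prop := ∀ p ∈ l, p.1 ∈ Set.range Sum.inl

/-- A functional which is bounded for the 2-norm and vanishes on reduced words is zero. -/
theorem tt_ext {P : J → StarSubalgebra ℂ M} (s : J → M) (Φ : M → ℂ)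
    (hadd : ∀ x y, Φ (x + y) = Φ x + Φ y) (hsmul : ∀ (c : ℂ) x, Φ (c • x) = c * Φ x)
    (C : ℝ) (hC : ∀ y, ‖Φ y‖ ≤ C * n2 y)
    (hw : ∀ l : List ((J ⊕ J) × M), RedW (fam P s) l → TTInlW l → Φ (wv l) = 0)
    {y : M} (hy : y ∈ MM P) : Φ y = 0 := by
  have hz : Φ 0 = 0 := by
    have := hsmul 0 0
    simpa using this
  have h1 : ∀ z ∈ StarAlgebra.adjoin ℂ (⋃ j, (P j : Set M)), Φ z = 0 := by
    intro z hz'
    have e : (⋃ j, (P j : Set M)) = ⋃ k ∈ Set.range (Sum.inl : J → J ⊕ J), (fam P s k : Set M) := by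
      ext x; simp [fam]
    rw [e] at hz'
    have h2 := mem_span_words (fam P s) (Set.range Sum.inl) hz'
    clear hz'
    induction h2 using Submodule.span_induction with
    | mem x hx =>
      obtain ⟨l, hl, hl', rfl⟩ := hx
      exact hw l hl hl'
    | zero => exact hz
    | add x y _ _ hx hy => rw [hadd, hx, hy, add_zero]
    | smul c x _ hx => rw [hsmul, hx, mul_zero]
  have h3 : ∀ ε : ℝ, 0 < ε → ‖Φ y‖ ≤ |C| * ε := by
    intro ε hε
    obtain ⟨z, hz1, hz2⟩ := (mem_vnGen_iff _ y).mp hy ε hε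
    have h4 : Φ y = Φ (y - z) := by
      have := hadd (y - z) z
      rw [sub_add_cancel, h1 z hz1, add_zero] at this
      exact this
    rw [h4]
    calc ‖Φ (y - z)‖ ≤ C * n2 (y - z) := hC _
      _ ≤ |C| * n2 (y - z) := by
          gcongr
          · exact n2_nonneg _
          · exact le_abs_self C
      _ ≤ |C| * ε := by
          gcongr
  have h5 : ‖Φ y‖ ≤ 0 := by
    refine le_of_forall_pos_le_add (fun δ hδ => ?_)
    have h6 := h3 (δ / (|C| + 1)) (by positivity)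
    rw [zero_add]
    refine h6.trans ?_
    rw [mul_div_assoc', div_le_iff₀ (by positivity)]
    nlinarith [abs_nonneg C]
  exact norm_le_zero_iff.mp h5

theorem tt_redW_cons {K : Type*} {A : K → StarSubalgebra ℂ M} {p : K × M} {l : List (K × M)} :
    RedW A (p :: l) ↔ (∀ q ∈ l.head?, p.1 ≠ q.1) ∧ p.2 ∈ A p.1 ∧ tr p.2 = 0 ∧ RedW A l := by
  unfold RedW
  rw [List.isChain_cons]
  constructor
  · rintro ⟨⟨h1, h2⟩, h3⟩
    exact ⟨h1, (h3 p (by simp)).1, (h3 p (by simp)).2, h2, fun q hq => h3 q (by simp [hq])⟩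
  · rintro ⟨h1, h2, h3, h4, h5⟩
    refine ⟨⟨h1, h4⟩, fun q hq => ?_⟩
    rcases List.mem_cons.mp hq with rfl | hq
    · exact ⟨h2, h3⟩
    · exact h5 q hq

omit [TVN M] in
theorem tt_wv_cons {K : Type*} (p : K × M) (l : List (K × M)) : wv (p :: l) = p.2 * wv l := by
  simp [wv]

omit [TVN M] in
theorem tt_wv_nil {K : Type*} : wv ([] : List (K × M)) = 1 := by
  simp [wv]

/-- Reduced words starting with `inr i` and ending with `inr k`. -/
def TTMidW (P : J → StarSubalgebra ℂ M) (s : J → M) (i k : J) (l : List ((J ⊕ J) × M)) : Prop :=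
  RedW (fam P s) l ∧ (∃ p ∈ l.head?, p.1 = Sum.inr i) ∧ (∃ p ∈ l.getLast?, p.1 = Sum.inr k)

omit [TVN M] in
theorem tt_s_mem (P : J → StarSubalgebra ℂ M) (s : J → M) (i : J) :
    s i ∈ fam P s (Sum.inr i) := by
  simp only [fam, Sum.elim_inr]
  exact StarAlgebra.subset_adjoin ℂ _ (Set.mem_singleton _)

theorem tt_midW_pair {P : J → StarSubalgebra ℂ M} {s : J → M} (h : Dil P s) {i k : J} (hik : i ≠ k) :
    TTMidW P s i k [(Sum.inr i, s i), (Sum.inr k, s k)] := by
  refine ⟨?_, ?_, ?_⟩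
  · rw [tt_redW_cons, tt_redW_cons]
    refine ⟨?_, tt_s_mem P s i, h.trs i, ?_, tt_s_mem P s k, h.trs k, ?_⟩
    · simp [hik]
    · simp
    · simp [RedW]
  · simp
  · simp

theorem tt_midW_cons3 {P : J → StarSubalgebra ℂ M} {s : J → M} (h : Dil P s) {i j k : J} (hij : i ≠ j)
    {p : M} (hp : p ∈ P j) (hp0 : tr p = 0) {l : List ((J ⊕ J) × M)} (hl : TTMidW P s j k l) :
    TTMidW P s i k ((Sum.inr i, s i) :: (Sum.inr j, s j) :: (Sum.inl j, p) :: l) := by
  obtain ⟨h1, ⟨q, hq, hqj⟩, ⟨r, hr, hrk⟩⟩ := hl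
  refine ⟨?_, ?_, ?_⟩
  · rw [tt_redW_cons, tt_redW_cons, tt_redW_cons]
    refine ⟨?_, tt_s_mem P s i, h.trs i, ?_, tt_s_mem P s j, h.trs j, ?_, ?_, hp0, h1⟩
    · simp [hij]
    · simp
    · intro q' hq'
      rw [Option.mem_def] at hq hq'
      rw [hq] at hq'
      obtain rfl := Option.some.inj hq'
      rw [hqj]; simp
    · simpa [fam] using hp
  · simp
  · refine ⟨r, ?_, hrk⟩
    rw [Option.mem_def] at hr ⊢
    rcases l with _ | ⟨a, l⟩
    · simp at hr
    · simpa using hr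

/-- Structure of `s i * θ 1 (wv l) * s k` when the first index of `l` is not `inl i`. -/
theorem tt_struct {P : J → StarSubalgebra ℂ M} {s : J → M} (h : Dil P s)
    {θ : ℝ → (M →⋆ₐ[ℂ] M)} (hθ : IsTheta P s θ) (k : J) (l : List ((J ⊕ J) × M)) :
    ∀ i : J, RedW (fam P s) l → TTInlW l → (∀ p ∈ l.head?, p.1 ≠ Sum.inl i) →
    (i = k ∧ s i * θ 1 (wv l) * s k = 1) ∨
    ∃ (mid : List ((J ⊕ J) × M)) (B : M), TTMidW P s i k mid ∧ B ∈ P k ∧
      s i * θ 1 (wv l) * s k = wv mid * B := by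
  induction l with
  | nil =>
    intro i _ _ _
    by_cases hik : i = k
    · subst hik
      left
      refine ⟨rfl, ?_⟩
      rw [tt_wv_nil, map_one, mul_one, h.sq]
    · right
      refine ⟨_, 1, tt_midW_pair h hik, one_mem _, ?_⟩
      rw [tt_wv_nil, map_one, tt_wv_cons, tt_wv_cons, tt_wv_nil]
      simp
  | cons q l ih =>
    intro i hl hin hhead
    rw [tt_redW_cons] at hl
    obtain ⟨h1, h2, h3, h4⟩ := hl
    obtain ⟨j, hj⟩ := hin q (by simp)
    have hij : i ≠ j := by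
      intro hij
      subst hij
      exact hhead q (by simp) hj.symm
    rw [← hj] at h2
    have hp : q.2 ∈ P j := by simpa [fam] using h2
    have e : s i * θ 1 (wv (q :: l)) * s k = s i * s j * q.2 * (s j * θ 1 (wv l) * s k) := by
      rw [tt_wv_cons, map_mul, hθ.one_onP h j hp]
      simp only [mul_assoc]
    rw [e]
    have hin' : TTInlW l := fun p hp => hin p (by simp [hp])
    have hhead' : ∀ p ∈ l.head?, p.1 ≠ Sum.inl j := by
      intro p hp' hpj
      exact h1 p hp' (by rw [hpj, hj])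
    rcases ih j h4 hin' hhead' with ⟨hjk, hx⟩ | ⟨mid, B, hmid, hB, hx⟩
    · subst hjk
      right
      refine ⟨_, q.2, tt_midW_pair h hij, hp, ?_⟩
      rw [hx, tt_wv_cons, tt_wv_cons, tt_wv_nil]
      simp [mul_assoc]
    · right
      refine ⟨_, B, tt_midW_cons3 h hij hp h3 hmid, hB, ?_⟩
      rw [hx, tt_wv_cons, tt_wv_cons, tt_wv_cons]
      simp [mul_assoc]

/-- Structure of `s i * θ 1 (wv l) * s k`. -/
theorem tt_struct' {P : J → StarSubalgebra ℂ M} {s : J → M} (h : Dil P s)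
    {θ : ℝ → (M →⋆ₐ[ℂ] M)} (hθ : IsTheta P s θ) (i k : J) {l : List ((J ⊕ J) × M)}
    (hl : RedW (fam P s) l) (hin : TTInlW l) :
    (i = k ∧ s i * θ 1 (wv l) * s k ∈ P i) ∨
    ∃ (A : M) (mid : List ((J ⊕ J) × M)) (B : M), TTMidW P s i k mid ∧ A ∈ P i ∧ B ∈ P k ∧
      s i * θ 1 (wv l) * s k = A * wv mid * B := by
  by_cases hhead : ∀ p ∈ l.head?, p.1 ≠ Sum.inl i
  · rcases tt_struct h hθ k l i hl hin hhead with ⟨hik, hx⟩ | ⟨mid, B, hmid, hB, hx⟩
    · left
      refine ⟨hik, ?_⟩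
      rw [hx]; exact one_mem _
    · right
      refine ⟨1, mid, B, hmid, one_mem _, hB, ?_⟩
      rw [hx, one_mul]
  · push Not at hhead
    obtain ⟨q, hq, hqi⟩ := hhead
    rcases l with _ | ⟨q', l⟩
    · simp at hq
    · obtain rfl : q' = q := by simpa using hq
      rw [tt_redW_cons] at hl
      obtain ⟨h1, h2, h3, h4⟩ := hl
      rw [hqi] at h2
      have hp : q'.2 ∈ P i := by simpa [fam] using h2
      have e : s i * θ 1 (wv (q' :: l)) * s k = q'.2 * (s i * θ 1 (wv l) * s k) := by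
        rw [tt_wv_cons, map_mul, hθ.one_onP h i hp]
        calc s i * (s i * q'.2 * s i * θ 1 (wv l)) * s k
            = (s i * s i) * q'.2 * (s i * θ 1 (wv l) * s k) := by simp only [mul_assoc]
          _ = _ := by rw [h.sq, one_mul]
      rw [e]
      have hin' : TTInlW l := fun p hp => hin p (by simp [hp])
      have hhead' : ∀ p ∈ l.head?, p.1 ≠ Sum.inl i := by
        intro p hp' hpj
        exact h1 p hp' (by rw [hpj, hqi])
      rcases tt_struct h hθ k l i h4 hin' hhead' with ⟨hik, hx⟩ | ⟨mid, B, hmid, hB, hx⟩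
      · left
        refine ⟨hik, ?_⟩
        rw [hx, mul_one]; exact hp
      · right
        refine ⟨q'.2, mid, B, hmid, hp, hB, ?_⟩
        rw [hx, mul_assoc]

theorem tt_ce_midW {P : J → StarSubalgebra ℂ M} {s : J → M} (h : Dil P s) {i k : J}
    {mid : List ((J ⊕ J) × M)} (hmid : TTMidW P s i k mid) {A B : M} (hA : A ∈ P i) (hB : B ∈ P k) :
    ce (MM P) (A * wv mid * B) = 0 := by
  rw [ce_mul_right (tt_vn P) _ (tt_P_le P k hB), ce_mul_left (tt_vn P) _ (tt_P_le P i hA)]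
  have : ce (MM P) (wv mid) = 0 := by
    refine ce_eq_zero_of (tt_vn P) (fun y hy => ?_)
    obtain ⟨h1, ⟨q, hq, hqj⟩, _⟩ := hmid
    exact tr_mul_word_eq_zero h h1 ⟨q, List.mem_of_mem_head? hq, i, hqj⟩ hy
  rw [this]; simp

/-- The factorisation used in `tt_zero`. -/
theorem tt_cross {P : J → StarSubalgebra ℂ M} {s : J → M} (h : Dil P s) {i j k : J}
    {mid mid' : List ((J ⊕ J) × M)} (hmid : TTMidW P s i j mid) (hmid' : TTMidW P s j k mid')
    {X Y : M} (hX : X ∈ MM P) (hY : Y ∈ MM P) (hX0 : tr X = 0) :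
    tr (wv mid * X * wv mid' * Y) = 0 := by
  have e : wv mid = star (wv (revStar mid)) := by rw [wv_revStar, star_star]
  rw [e]
  rw [tt_MM_eq P s] at hX hY
  obtain ⟨h1, ⟨q, hq, hqi⟩, ⟨r, hr, hrj⟩⟩ := hmid
  obtain ⟨h1', ⟨q', hq', hqj'⟩, ⟨r', hr', hrk'⟩⟩ := hmid'
  rw [Option.mem_def] at hq hr hq' hr'
  have hne : revStar mid ≠ [] := by
    intro h0
    have : mid = [] := by simpa [revStar] using h0
    rw [this] at hq; simp at hq
  have hne' : mid' ≠ [] := by
    intro h0; rw [h0] at hq'; simp at hq'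
  have key := cross h.free (Set.range (Sum.inl : J → J ⊕ J)) (Set.range (Sum.inl : J → J ⊕ J)) hX hY h1'
    (redW_revStar h1) ?_ ?_ ?_ ?_ (Or.inl ⟨hne', hne⟩)
  · rw [key, hX0]; simp
  · intro p hp
    rw [hq'] at hp
    obtain rfl := Option.some.inj hp
    rw [hqj']; simp
  · intro p hp
    have : (revStar mid).head? = some (r.1, star r.2) := by
      simp [revStar, List.head?_reverse, List.getLast?_map, hr]
    rw [this] at hp
    obtain rfl := Option.some.inj hp
    simp [hrj]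
  · intro p hp
    rw [hr'] at hp
    obtain rfl := Option.some.inj hp
    rw [hrk']; simp
  · intro p hp
    have : (revStar mid).getLast? = some (q.1, star q.2) := by
      simp [revStar, List.getLast?_reverse, List.head?_map, hq]
    rw [this] at hp
    obtain rfl := Option.some.inj hp
    simp [hqi]

theorem tt_n2_sub_ce_le {S : StarSubalgebra ℂ M} (hS : VNSub S) (x : M) :
    n2 (x - ce S x) ≤ n2 x := by
  have h1 := n2_sq_ce hS x
  refine le_of_sq_le_sq ?_ (n2_nonneg _)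
  nlinarith [sq_nonneg (n2 (ce S x))]

theorem tt_isUn_s {P : J → StarSubalgebra ℂ M} {s : J → M} (h : Dil P s) (i : J) : IsUn (s i) := by
  refine ⟨?_, ?_⟩ <;> rw [h.sa, h.sq]

theorem tt_trPres {P : J → StarSubalgebra ℂ M} {s : J → M}
    {θ : ℝ → (M →⋆ₐ[ℂ] M)} (hθ : IsTheta P s θ) (t : ℝ) : TrPres (θ t) := fun x => hθ.tr_eq t x

theorem tt_n2_V_le {P : J → StarSubalgebra ℂ M} {s : J → M} (h : Dil P s)
    {θ : ℝ → (M →⋆ₐ[ℂ] M)} (hθ : IsTheta P s θ) (i j : J) (y : M) :
    n2 (s i * θ 1 y * s j - ce (MM P) (s i * θ 1 y * s j)) ≤ n2 y := by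
  refine (tt_n2_sub_ce_le (tt_vn P) _).trans ?_
  rw [(tt_isUn_s h j).n2_mul', (tt_isUn_s h i).n2_mul, (tt_trPres hθ 1).n2_eq]

theorem tt_zero {P : J → StarSubalgebra ℂ M} {s : J → M} (h : Dil P s)
    {θ : ℝ → (M →⋆ₐ[ℂ] M)} (hθ : IsTheta P s θ) (i j k : J) {y y' m z : M} (hy : y ∈ MM P)
    (hy' : y' ∈ MM P) (hm : m ∈ MM P) (hz : z ∈ MM P) (hm0 : ce (P j) m = 0) :
    tr ((s i * θ 1 y * s j - ce (MM P) (s i * θ 1 y * s j)) * m *
      (s j * θ 1 y' * s k - ce (MM P) (s j * θ 1 y' * s k)) * z) = 0 := by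
  have main : ∀ l l' : List ((J ⊕ J) × M), RedW (fam P s) l → TTInlW l → RedW (fam P s) l' →
      TTInlW l' → tr ((s i * θ 1 (wv l) * s j - ce (MM P) (s i * θ 1 (wv l) * s j)) * m *
      (s j * θ 1 (wv l') * s k - ce (MM P) (s j * θ 1 (wv l') * s k)) * z) = 0 := by
    intro l l' hl hin hl' hin'
    rcases tt_struct' h hθ i j hl hin with ⟨_, hx⟩ | ⟨A, mid, B, hmid, hA, hB, hx⟩
    · rw [ce_of_mem (tt_vn P) (tt_P_le P i hx), sub_self]; simp
    rcases tt_struct' h hθ j k hl' hin' with ⟨_, hx'⟩ | ⟨A', mid', B', hmid', hA', hB', hx'⟩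
    · rw [ce_of_mem (tt_vn P) (tt_P_le P j hx'), sub_self]; simp
    rw [hx, hx', tt_ce_midW h hmid hA hB, tt_ce_midW h hmid' hA' hB', sub_zero, sub_zero]
    have e : A * wv mid * B * m * (A' * wv mid' * B') * z
        = A * (wv mid * (B * m * A') * wv mid' * (B' * z)) := by simp only [mul_assoc]
    rw [e, tr_mul_comm]
    have e' : wv mid * (B * m * A') * wv mid' * (B' * z) * A
        = wv mid * (B * m * A') * wv mid' * (B' * z * A) := by simp only [mul_assoc]
    rw [e']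
    refine tt_cross h hmid hmid' (mul_mem (mul_mem (tt_P_le P j hB) hm) (tt_P_le P j hA'))
      (mul_mem (mul_mem (tt_P_le P k hB') hz) (tt_P_le P i hA)) ?_
    have h3 : tr (B * m * A') = tr (A' * B * m) := by
      rw [tr_mul_comm, mul_assoc]
    rw [h3, ← tr_mul_ce (h.vn j) m (mul_mem hA' hB), hm0]; simp
  have step : ∀ l' : List ((J ⊕ J) × M), RedW (fam P s) l' → TTInlW l' →
      tr ((s i * θ 1 y * s j - ce (MM P) (s i * θ 1 y * s j)) * m *
      (s j * θ 1 (wv l') * s k - ce (MM P) (s j * θ 1 (wv l') * s k)) * z) = 0 := by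
    intro l' hl' hin'
    refine tt_ext s (fun y => tr ((s i * θ 1 y * s j - ce (MM P) (s i * θ 1 y * s j)) * m *
      (s j * θ 1 (wv l') * s k - ce (MM P) (s j * θ 1 (wv l') * s k)) * z)) ?_ ?_
      (n2 (m * (s j * θ 1 (wv l') * s k - ce (MM P) (s j * θ 1 (wv l') * s k)) * z)) ?_
      (fun l hl hin => main l l' hl hin hl' hin') hy
    · intro x y
      simp only [map_add, mul_add, add_mul]
      rw [add_sub_add_comm, add_mul, add_mul, add_mul, map_add]
    · intro c x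
      simp only [map_smul, mul_smul_comm, smul_mul_assoc]
      rw [← smul_sub, smul_mul_assoc, smul_mul_assoc, smul_mul_assoc, map_smul, smul_eq_mul]
    · intro y
      rw [mul_assoc, mul_assoc, mul_comm (n2 _), ← mul_assoc m]
      refine (norm_tr_mul_le' _ _).trans ?_
      gcongr
      · exact n2_nonneg _
      · exact tt_n2_V_le h hθ i j y
  refine tt_ext s (fun y' => tr ((s i * θ 1 y * s j - ce (MM P) (s i * θ 1 y * s j)) * m *
      (s j * θ 1 y' * s k - ce (MM P) (s j * θ 1 y' * s k)) * z)) ?_ ?_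
      (n2 (z * ((s i * θ 1 y * s j - ce (MM P) (s i * θ 1 y * s j)) * m))) ?_
      (fun l' hl' hin' => step l' hl' hin') hy'
  · intro x y
    simp only [map_add, mul_add, add_mul]
    rw [add_sub_add_comm, mul_add, add_mul, map_add]
  · intro c x
    simp only [map_smul, mul_smul_comm, smul_mul_assoc]
    rw [← smul_sub, mul_smul_comm, smul_mul_assoc, map_smul, smul_eq_mul]
  · intro y'
    rw [tr_mul_comm, ← mul_assoc]
    refine (norm_tr_mul_le' _ _).trans ?_
    gcongr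
    · exact n2_nonneg _
    · exact tt_n2_V_le h hθ j k y'

/-- The operators `T_j`. -/
noncomputable def Tm (P : J → StarSubalgebra ℂ M) (s : J → M) (θ : ℝ → (M →⋆ₐ[ℂ] M)) (W : M)
    (j : J) (x : M) : M := ce (MM P) (W * θ 1 x * s j)

/-- `tr (m * (s j * θ 1 u * s j)) = 0` when `E_j m = 0`. -/
theorem tt_diag {P : J → StarSubalgebra ℂ M} {s : J → M} (h : Dil P s)
    {θ : ℝ → (M →⋆ₐ[ℂ] M)} (hθ : IsTheta P s θ) (j : J) {m u : M} (hm : m ∈ MM P)
    (hm0 : ce (P j) m = 0) (hu : u ∈ MM P) : tr (m * (s j * θ 1 u * s j)) = 0 := by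
  refine tt_ext s (fun u => tr (m * (s j * θ 1 u * s j))) ?_ ?_ (n2 m) ?_ ?_ hu
  · intro x y
    simp only [map_add, mul_add, add_mul]
  · intro c x
    simp only [map_smul, mul_smul_comm, smul_mul_assoc, smul_eq_mul]
  · intro y
    refine (norm_tr_mul_le' _ _).trans ?_
    rw [(tt_isUn_s h j).n2_mul', (tt_isUn_s h j).n2_mul, (tt_trPres hθ 1).n2_eq]
  · intro l hl hin
    rcases tt_struct' h hθ j j hl hin with ⟨_, hx⟩ | ⟨A, mid, B, hmid, hA, hB, hx⟩
    · rw [tr_mul_comm, ← tr_mul_ce (h.vn j) m hx, hm0]; simp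
    · rw [hx, ← tr_mul_ce (tt_vn P) _ hm, tt_ce_midW h hmid hA hB]; simp

/-- The part of `a * θ 1 x * s j` orthogonal to `MM P`. -/
theorem tt_cont {P : J → StarSubalgebra ℂ M} {s : J → M} (h : Dil P s)
    {θ : ℝ → (M →⋆ₐ[ℂ] M)} (j : J) (x a : M) :
    n2 (a * θ 1 x * s j - ce (MM P) (a * θ 1 x * s j)) ≤ ‖θ 1 x‖ * n2 a := by
  refine (tt_n2_sub_ce_le (tt_vn P) _).trans ?_
  rw [(tt_isUn_s h j).n2_mul', mul_comm]
  exact n2_mul_le' _ _

theorem tt_sq {P : J → StarSubalgebra ℂ M} {s : J → M} (h : Dil P s)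
    {θ : ℝ → (M →⋆ₐ[ℂ] M)} (hθ : IsTheta P s θ) {W : M}
    (hH : InCl (H0span P s θ) W) (j : J) {x y m : M} (hx : x ∈ MM P) (hy : y ∈ MM P)
    (hm : m ∈ MM P) (hm0 : ce (P j) m = 0) :
    tr (m * star (W * θ 1 x * s j - ce (MM P) (W * θ 1 x * s j)) *
      (W * θ 1 y * s j - ce (MM P) (W * θ 1 y * s j))) = 0 := by
  have gen : ∀ (j₁ : J) (m₁ y₁ : M), m₁ ∈ MM P → y₁ ∈ MM P → ∀ u : M, u ∈ MM P →
      m₁ * s j₁ * θ 1 y₁ * θ 1 u * s j - ce (MM P) (m₁ * s j₁ * θ 1 y₁ * θ 1 u * s j) =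
      m₁ * (s j₁ * θ 1 (y₁ * u) * s j - ce (MM P) (s j₁ * θ 1 (y₁ * u) * s j)) := by
    intro j₁ m₁ y₁ hm₁ _ u _
    have e : m₁ * s j₁ * θ 1 y₁ * θ 1 u * s j = m₁ * (s j₁ * θ 1 (y₁ * u) * s j) := by
      rw [map_mul]; simp only [mul_assoc]
    rw [e, ce_mul_left (tt_vn P) _ hm₁, mul_sub]
  -- step 1: generators
  have s1 : ∀ W₁ ∈ {z | ∃ j, ∃ m ∈ MM P, ∃ y ∈ MM P, z = m * s j * θ 1 y},
      ∀ W₂ ∈ {z | ∃ j, ∃ m ∈ MM P, ∃ y ∈ MM P, z = m * s j * θ 1 y},
      tr (m * star (W₁ * θ 1 x * s j - ce (MM P) (W₁ * θ 1 x * s j)) *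
      (W₂ * θ 1 y * s j - ce (MM P) (W₂ * θ 1 y * s j))) = 0 := by
    rintro _ ⟨j₁, m₁, hm₁, y₁, hy₁, rfl⟩ _ ⟨j₂, m₂, hm₂, y₂, hy₂, rfl⟩
    rw [gen j₁ m₁ y₁ hm₁ hy₁ x hx, gen j₂ m₂ y₂ hm₂ hy₂ y hy]
    have e1 : star (m₁ * (s j₁ * θ 1 (y₁ * x) * s j - ce (MM P) (s j₁ * θ 1 (y₁ * x) * s j)))
        = (s j * θ 1 (star (y₁ * x)) * s j₁ - ce (MM P) (s j * θ 1 (star (y₁ * x)) * s j₁)) *
          star m₁ := by
      rw [star_mul, star_sub, ← ce_star (tt_vn P)]
      have e2 : star (s j₁ * θ 1 (y₁ * x) * s j) = s j * θ 1 (star (y₁ * x)) * s j₁ := by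
        rw [star_mul, star_mul, h.sa, h.sa, map_star]; simp only [mul_assoc]
      rw [e2]
    rw [e1]
    have e3 : ∀ a b c d : M, tr (m * (a * b) * (c * d)) = tr (d * m * a * (b * c)) := by
      intro a b c d
      have : m * (a * b) * (c * d) = (m * a * (b * c)) * d := by simp only [mul_assoc]
      rw [this, tr_mul_comm]
      simp only [mul_assoc]
    rw [e3]
    exact tt_zero h hθ j₂ j j₁ (mul_mem hy₂ hy) (star_mem (mul_mem hy₁ hx)) hm
      (mul_mem (star_mem hm₁) hm₂) hm0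
  -- step 2: first argument in the span
  have s2 : ∀ W₁ ∈ H0span P s θ,
      ∀ W₂ ∈ {z | ∃ j, ∃ m ∈ MM P, ∃ y ∈ MM P, z = m * s j * θ 1 y},
      tr (m * star (W₁ * θ 1 x * s j - ce (MM P) (W₁ * θ 1 x * s j)) *
      (W₂ * θ 1 y * s j - ce (MM P) (W₂ * θ 1 y * s j))) = 0 := by
    intro W₁ hW₁ W₂ hW₂
    unfold H0span at hW₁
    induction hW₁ using Submodule.span_induction with
    | mem a ha => exact s1 a ha W₂ hW₂
    | zero => simp
    | add a b _ _ ha hb =>
      rw [add_mul, add_mul, map_add, add_sub_add_comm, star_add, mul_add, add_mul, map_add, ha, hb,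
        add_zero]
    | smul c a _ ha =>
      rw [smul_mul_assoc, smul_mul_assoc, map_smul, ← smul_sub, star_smul, mul_smul_comm,
        smul_mul_assoc, map_smul, ha, smul_zero]
  -- step 3: both in the span
  have s3 : ∀ W₁ ∈ H0span P s θ, ∀ W₂ ∈ H0span P s θ,
      tr (m * star (W₁ * θ 1 x * s j - ce (MM P) (W₁ * θ 1 x * s j)) *
      (W₂ * θ 1 y * s j - ce (MM P) (W₂ * θ 1 y * s j))) = 0 := by
    intro W₁ hW₁ W₂ hW₂
    unfold H0span at hW₂
    induction hW₂ using Submodule.span_induction with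
    | mem a ha => exact s2 W₁ hW₁ a ha
    | zero => simp
    | add a b _ _ ha hb =>
      rw [add_mul, add_mul, map_add, add_sub_add_comm, mul_add, map_add, ha, hb, add_zero]
    | smul c a _ ha =>
      rw [smul_mul_assoc, smul_mul_assoc, map_smul, ← smul_sub, mul_smul_comm, map_smul, ha,
        smul_zero]
  obtain ⟨w, hw, hwl⟩ := exists_seq_of_approx (p := fun z => z ∈ H0span P s θ) hH
  have lim : ∀ u : M, Tendsto (fun n => n2 ((w n * θ 1 u * s j - ce (MM P) (w n * θ 1 u * s j)) -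
      (W * θ 1 u * s j - ce (MM P) (W * θ 1 u * s j)))) atTop (𝓝 0) := by
    intro u
    have h1 : Tendsto (fun n => ‖θ 1 u‖ * n2 (w n - W)) atTop (𝓝 0) := by
      simpa using hwl.const_mul ‖θ 1 u‖
    refine squeeze_zero (fun n => n2_nonneg _) (fun n => ?_) h1
    have e : (w n * θ 1 u * s j - ce (MM P) (w n * θ 1 u * s j)) -
      (W * θ 1 u * s j - ce (MM P) (W * θ 1 u * s j)) =
      (w n - W) * θ 1 u * s j - ce (MM P) ((w n - W) * θ 1 u * s j) := by
      rw [sub_mul, sub_mul, map_sub]; abel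
    rw [e]
    exact tt_cont h j u _
  -- step 4: first argument in the span, second is W
  have s4 : ∀ W₁ ∈ H0span P s θ,
      tr (m * star (W₁ * θ 1 x * s j - ce (MM P) (W₁ * θ 1 x * s j)) *
      (W * θ 1 y * s j - ce (MM P) (W * θ 1 y * s j))) = 0 := by
    intro W₁ hW₁
    have h1 := tr_lim (n2_lim_mul_left
      (m * star (W₁ * θ 1 x * s j - ce (MM P) (W₁ * θ 1 x * s j))) (lim y))
    have h2 : ∀ n, tr (m * star (W₁ * θ 1 x * s j - ce (MM P) (W₁ * θ 1 x * s j)) *
      (w n * θ 1 y * s j - ce (MM P) (w n * θ 1 y * s j))) = 0 := fun n => s3 W₁ hW₁ _ (hw n)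
    simp_rw [h2] at h1
    exact (tendsto_nhds_unique h1 tendsto_const_nhds)
  have h1 := tr_lim (n2_lim_mul_right (W * θ 1 y * s j - ce (MM P) (W * θ 1 y * s j))
    (n2_lim_mul_left m (n2_lim_star (lim x))))
  have h2 : ∀ n, tr (m * star (w n * θ 1 x * s j - ce (MM P) (w n * θ 1 x * s j)) *
      (W * θ 1 y * s j - ce (MM P) (W * θ 1 y * s j))) = 0 := fun n => s4 _ (hw n)
  simp_rw [h2] at h1
  exact (tendsto_nhds_unique h1 tendsto_const_nhds)

theorem tt_main {P : J → StarSubalgebra ℂ M} {s : J → M} (h : Dil P s)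
    {θ : ℝ → (M →⋆ₐ[ℂ] M)} (hθ : IsTheta P s θ) {W : M} (hW : IsUn W)
    (hH : InCl (H0span P s θ) W) (j : J) {x y : M} (hx : x ∈ MM P) (hy : y ∈ MM P) :
    star (Tm P s θ W j x) * Tm P s θ W j y ∈ P j := by
  have hTx : Tm P s θ W j x ∈ MM P := ce_mem (tt_vn P) _
  have hTy : Tm P s θ W j y ∈ MM P := ce_mem (tt_vn P) _
  have key : ∀ m ∈ MM P, ce (P j) m = 0 → tr (m * (star (Tm P s θ W j x) * Tm P s θ W j y)) = 0 := by
    intro m hm hm0
    have a1 : tr (m * (s j * θ 1 (star x * y) * s j)) = 0 :=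
      tt_diag h hθ j hm hm0 (mul_mem (star_mem hx) hy)
    have a2 := tt_sq h hθ hH j hx hy hm hm0
    have a3 : tr (m * star (Tm P s θ W j x) *
        (W * θ 1 y * s j - ce (MM P) (W * θ 1 y * s j))) = 0 := by
      rw [mul_sub, map_sub, tr_mul_ce (tt_vn P) _ (mul_mem hm (star_mem hTx)), sub_self]
    have a4 : tr (m * star (W * θ 1 x * s j - ce (MM P) (W * θ 1 x * s j)) *
        Tm P s θ W j y) = 0 := by
      rw [tr_mul_comm, ← mul_assoc, star_sub, mul_sub, map_sub, ← ce_star (tt_vn P),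
        tr_mul_ce (tt_vn P) _ (mul_mem hTy hm), sub_self]
    have e : s j * θ 1 (star x * y) * s j = star (W * θ 1 x * s j) * (W * θ 1 y * s j) := by
      rw [star_mul, star_mul, h.sa, map_mul, map_star]
      calc s j * (star (θ 1 x) * θ 1 y) * s j
          = s j * star (θ 1 x) * 1 * θ 1 y * s j := by simp only [mul_assoc, one_mul]
        _ = _ := by rw [← hW.1]; simp only [mul_assoc]
    rw [e] at a1
    have e2 : m * (star (W * θ 1 x * s j) * (W * θ 1 y * s j)) =
        m * (star (Tm P s θ W j x) * Tm P s θ W j y)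
        + m * star (Tm P s θ W j x) * (W * θ 1 y * s j - ce (MM P) (W * θ 1 y * s j))
        + m * star (W * θ 1 x * s j - ce (MM P) (W * θ 1 x * s j)) * Tm P s θ W j y
        + m * star (W * θ 1 x * s j - ce (MM P) (W * θ 1 x * s j)) *
          (W * θ 1 y * s j - ce (MM P) (W * θ 1 y * s j)) := by
      have e3 : W * θ 1 x * s j = Tm P s θ W j x +
        (W * θ 1 x * s j - ce (MM P) (W * θ 1 x * s j)) := by unfold Tm; abel
      have e4 : W * θ 1 y * s j = Tm P s θ W j y +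
        (W * θ 1 y * s j - ce (MM P) (W * θ 1 y * s j)) := by unfold Tm; abel
      generalize W * θ 1 x * s j - ce (MM P) (W * θ 1 x * s j) = Rx at *
      generalize W * θ 1 y * s j - ce (MM P) (W * θ 1 y * s j) = Ry at *
      rw [e3, e4, star_add]
      simp only [mul_add, add_mul, mul_assoc]
      abel
    rw [e2, map_add, map_add, map_add, a2, a3, a4, add_zero, add_zero, add_zero] at a1
    exact a1
  generalize hc : star (Tm P s θ W j x) * Tm P s θ W j y = c at *
  have hcM : c ∈ MM P := by rw [← hc]; exact mul_mem (star_mem hTx) hTy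
  have hd : ce (P j) (c - ce (P j) c) = 0 := by
    rw [map_sub, ce_of_mem (h.vn j) (ce_mem (h.vn j) c), sub_self]
  have hd' : ce (P j) (star (c - ce (P j) c)) = 0 := by
    rw [ce_star (h.vn j), hd, star_zero]
  have hdM : star (c - ce (P j) c) ∈ MM P :=
    star_mem (sub_mem hcM (tt_P_le P j (ce_mem (h.vn j) c)))
  have b1 := key _ hdM hd'
  have b2 : tr (star (c - ce (P j) c) * ce (P j) c) = 0 := by
    rw [tr_mul_comm, ← tr_mul_ce (h.vn j) _ (ce_mem (h.vn j) c), hd', mul_zero, map_zero]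
  have b3 : tr (star (c - ce (P j) c) * (c - ce (P j) c)) = 0 := by
    rw [mul_sub, map_sub, b1, b2, sub_zero]
  have b4 := sub_eq_zero.mp (TVN.faithful _ b3)
  rw [b4]
  exact ce_mem (h.vn j) c

theorem tt_ne_zero {P : J → StarSubalgebra ℂ M} {s : J → M} (h : Dil P s)
    {θ : ℝ → (M →⋆ₐ[ℂ] M)} (hθ : IsTheta P s θ) {W : M} (hW : W ≠ 0)
    (hH : InCl (H0span P s θ) W) : ∃ j, ∃ x ∈ MM P, Tm P s θ W j x ≠ 0 := by
  by_contra hcon
  push Not at hcon
  apply hW
  have h1 : ∀ a ∈ H0span P s θ, tr (star W * a) = 0 := by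
    intro a ha
    unfold H0span at ha
    induction ha using Submodule.span_induction with
    | mem z hz =>
      obtain ⟨j, m, hm, y, hy, rfl⟩ := hz
      have h2 : tr (star m * (W * θ 1 (star y) * s j)) = 0 := by
        rw [← tr_mul_ce (tt_vn P) _ (star_mem hm)]
        have := hcon j (star y) (star_mem hy)
        unfold Tm at this
        rw [this, mul_zero, map_zero]
      have h3 : star (star W * (m * s j * θ 1 y)) = (θ 1 (star y) * s j) * (star m * W) := by
        rw [star_mul, star_star, star_mul, star_mul, h.sa, map_star]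
        simp only [mul_assoc]
      have h4 : tr (star (star W * (m * s j * θ 1 y))) = 0 := by
        rw [h3, tr_mul_comm]
        rw [← h2]
        simp only [mul_assoc]
      rw [tr_star] at h4
      simpa using h4
    | zero => simp
    | add a b _ _ ha hb => rw [mul_add, map_add, ha, hb, add_zero]
    | smul c a _ ha => rw [mul_smul_comm, map_smul, ha, smul_zero]
  obtain ⟨w, hw, hwl⟩ := exists_seq_of_approx (p := fun z => z ∈ H0span P s θ) hH
  have h2 := tr_lim (n2_lim_mul_left (star W) hwl)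
  have h3 : ∀ n, tr (star W * w n) = 0 := fun n => h1 _ (hw n)
  simp_rw [h3] at h2
  exact TVN.faithful W (tendsto_nhds_unique h2 tendsto_const_nhds)

end Pool.Agent.KUR
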