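import Pool.Agent.KUR.Fac

/-!
# KUR UltF: ultrapowers of II_1 factors are II_1 factors

PROOF.  Let `π` be the map in `IsUltrapower`.  First record: for bounded `x`,
`n2 (π x)^2 = (tr (π (star x * x))).re = lim_U (n2 (x n))^2`, so `n2 (x n) → n2 (π x)` along `U`;
consequently `π x` only depends on `x` up to `lim_U n2 (x n - y n) = 0`; `π (x - y) = π x - π y`.
Infinite dimension: the constants give an injective linear map `N → Q`
(`n2 (π (fun _ => a)) = n2 a`).
Factor: let `z ∈ Q` be central, `z₀ = z - tr z • 1`, `z₀ = π x`, suppose `n2 z₀ = δ > 0`.  Then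
`tr (x n) → 0` and `n2 (x n) → δ` along `U`, so `n2 (x n - tr (x n) • 1) ≥ δ/2` for `U`-almost all n.
By `dixmier_uniform` (`S = ⊤`) for these `n` there is a unitary `u n ∈ N` with
`n2 (x n - u n * x n * star (u n)) ≥ δ/4` (otherwise the left side would be ≤ δ/4); for the other n
put `u n = 1`.  `u` is bounded and `π u` is unitary.  `n2 (z₀ - π u * z₀ * star (π u)) ≥ δ/4 > 0`, but
`z₀` is central.  Contradiction.
-/

open Filter Topology

namespace Pool.Agent.KUR

universe u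
variable {N Q : Type u} [CStarAlgebra N] [TVN N] [CStarAlgebra Q] [TVN Q]

theorem UltF_bd_star {X : Type*} {M : Type*} [CStarAlgebra M] {x : X → M} (hx : Bd x) :
    Bd (star x) := by
  obtain ⟨C, hC⟩ := hx
  exact ⟨C, fun n => by rw [Pi.star_apply, norm_star]; exact hC n⟩

theorem UltF_bd_mul {X : Type*} {M : Type*} [CStarAlgebra M] {x y : X → M} (hx : Bd x)
    (hy : Bd y) : Bd (x * y) := by
  obtain ⟨C, hC⟩ := hx
  obtain ⟨D, hD⟩ := hy
  refine ⟨C * D, fun n => ?_⟩
  rw [Pi.mul_apply]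
  refine (norm_mul_le _ _).trans ?_
  exact mul_le_mul (hC n) (hD n) (norm_nonneg _) ((norm_nonneg _).trans (hC n))

theorem UltF_bd_smul {X : Type*} {M : Type*} [CStarAlgebra M] {x : X → M} (c : ℂ) (hx : Bd x) :
    Bd (c • x) := by
  obtain ⟨C, hC⟩ := hx
  refine ⟨‖c‖ * C, fun n => ?_⟩
  rw [Pi.smul_apply, norm_smul]
  exact mul_le_mul_of_nonneg_left (hC n) (norm_nonneg _)

theorem UltF_bd_add {X : Type*} {M : Type*} [CStarAlgebra M] {x y : X → M} (hx : Bd x)
    (hy : Bd y) : Bd (x + y) := by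
  obtain ⟨C, hC⟩ := hx
  obtain ⟨D, hD⟩ := hy
  refine ⟨C + D, fun n => ?_⟩
  rw [Pi.add_apply]
  exact (norm_add_le _ _).trans (add_le_add (hC n) (hD n))

theorem UltF_bd_const {X : Type*} {M : Type*} [CStarAlgebra M] (a : M) :
    Bd (fun _ : X => a) := ⟨‖a‖, fun _ => le_rfl⟩

/-- The chosen quotient map with its basic properties. -/
theorem IsUltrapower.basic {X : Type*} {U : Ultrafilter X} (h : IsUltrapower U N Q) :
    ∃ π : (X → N) → Q,
      (∀ x y : X → N, Bd x → Bd y → π (x + y) = π x + π y) ∧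
      (∀ x y : X → N, Bd x → Bd y → π (x * y) = π x * π y) ∧
      (∀ (c : ℂ) (x : X → N), Bd x → π (c • x) = c • π x) ∧
      (∀ x : X → N, Bd x → π (star x) = star (π x)) ∧
      π 1 = 1 ∧
      (∀ q : Q, ∃ x : X → N, Bd x ∧ π x = q) ∧
      (∀ x : X → N, Bd x → Tendsto (fun n => tr (x n)) (U : Filter X) (𝓝 (tr (π x)))) ∧
      (∀ x : X → N, Bd x → Tendsto (fun n => n2 (x n)) (U : Filter X) (𝓝 (n2 (π x)))) ∧
      (∀ x y : X → N, Bd x → Bd y → Tendsto (fun n => n2 (x n - y n)) (U : Filter X) (𝓝 0) →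
        π x = π y) ∧
      (∀ x y : X → N, Bd x → Bd y → π x = π y →
        Tendsto (fun n => n2 (x n - y n)) (U : Filter X) (𝓝 0)) := by
  obtain ⟨π, hadd, hmul, hsmul, hstar, hone, hsurj, htr⟩ := h
  have hn2 : ∀ x : X → N, Bd x →
      Tendsto (fun n => n2 (x n)) (U : Filter X) (𝓝 (n2 (π x))) := by
    intro x hx
    have h1 := htr (star x * x) (UltF_bd_mul (UltF_bd_star hx) hx)
    rw [hmul _ _ (UltF_bd_star hx) hx, hstar x hx] at h1
    have h2 : Tendsto (fun n => Real.sqrt (tr ((star x * x) n)).re) (U : Filter X)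
        (𝓝 (Real.sqrt (tr (star (π x) * π x)).re)) :=
      (Real.continuous_sqrt.comp Complex.continuous_re).continuousAt.tendsto.comp h1
    exact h2
  have hsub : ∀ x y : X → N, Bd x → Bd y →
      Bd (x + (-1 : ℂ) • y) ∧ π (x + (-1 : ℂ) • y) = π x - π y ∧
      (fun n => n2 ((x + (-1 : ℂ) • y) n)) = fun n => n2 (x n - y n) := by
    intro x y hx hy
    refine ⟨UltF_bd_add hx (UltF_bd_smul _ hy), ?_, ?_⟩
    · rw [hadd _ _ hx (UltF_bd_smul _ hy), hsmul _ _ hy, neg_one_smul, sub_eq_add_neg]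
    · funext n
      rw [Pi.add_apply, Pi.smul_apply, neg_one_smul, sub_eq_add_neg]
  refine ⟨π, hadd, hmul, hsmul, hstar, hone, hsurj, htr, hn2, ?_, ?_⟩
  · intro x y hx hy hxy
    obtain ⟨h1, h2, h3⟩ := hsub x y hx hy
    have h4 := hn2 _ h1
    rw [h3, h2] at h4
    have h5 := tendsto_nhds_unique h4 hxy
    exact sub_eq_zero.mp (n2_eq_zero.mp h5)
  · intro x y hx hy hxy
    obtain ⟨h1, h2, h3⟩ := hsub x y hx hy
    have h4 := hn2 _ h1
    rw [h3, h2, hxy, sub_self, n2_zero] at h4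
    exact h4

theorem UltF_infinite {X : Type*} {U : Ultrafilter X} (h : IsUltrapower U N Q)
    (hN : ¬ Module.Finite ℂ N) : ¬ Module.Finite ℂ Q := by
  obtain ⟨π, hadd, hmul, hsmul, hstar, hone, hsurj, htr, hn2, h0, h0'⟩ := h.basic
  intro hQ
  apply hN
  let f : N →ₗ[ℂ] Q :=
    { toFun := fun a => π (fun _ => a)
      map_add' := fun a b => hadd (fun _ => a) (fun _ => b) (UltF_bd_const a) (UltF_bd_const b)
      map_smul' := fun c a => hsmul c (fun _ => a) (UltF_bd_const a) }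
  have hf : Function.Injective f := by
    rw [injective_iff_map_eq_zero]
    intro a ha
    have h1 := hn2 (fun _ => a) (UltF_bd_const a)
    have h2 : π (fun _ => a) = 0 := ha
    rw [h2, n2_zero] at h1
    have h3 := tendsto_nhds_unique h1 tendsto_const_nhds
    exact n2_eq_zero.mp h3.symm
  exact Module.Finite.of_injective f hf

theorem UltF_factor {X : Type*} {U : Ultrafilter X} (h : IsUltrapower U N Q)
    (hN : IsFac (⊤ : StarSubalgebra ℂ N)) : IsFac (⊤ : StarSubalgebra ℂ Q) := by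
  classical
  obtain ⟨π, hadd, hmul, hsmul, hstar, hone, hsurj, htr, hn2, h0, h0'⟩ := h.basic
  intro z _ hz
  refine ⟨tr z, ?_⟩
  by_contra hne
  obtain ⟨z₀, hz₀⟩ : ∃ z₀ : Q, z₀ = z - tr z • (1 : Q) := ⟨_, rfl⟩
  have hz₀0 : z₀ ≠ 0 := by
    rw [hz₀]
    exact sub_ne_zero.mpr hne
  have hcomm : ∀ x : Q, z₀ * x = x * z₀ := by
    intro x
    have := hz x StarSubalgebra.mem_top
    rw [hz₀, sub_mul, mul_sub, this, smul_mul_assoc, mul_smul_comm, one_mul, mul_one]
  have htr0 : tr z₀ = 0 := by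
    rw [hz₀, map_sub, map_smul, tr_one', smul_eq_mul, mul_one, sub_self]
  obtain ⟨δ, hδ⟩ : ∃ δ : ℝ, δ = n2 z₀ := ⟨_, rfl⟩
  have hδ0 : 0 < δ := by
    rw [hδ]
    exact lt_of_le_of_ne (n2_nonneg _) fun h => hz₀0 (n2_eq_zero.mp h.symm)
  obtain ⟨x, hx, hxz⟩ := hsurj z₀
  have h1 := htr x hx
  have h2 := hn2 x hx
  rw [hxz, htr0] at h1
  rw [hxz, ← hδ] at h2
  have h3 : ∀ᶠ n in (U : Filter X), ‖tr (x n)‖ < δ / 4 := by
    have := h1.norm
    rw [norm_zero] at this
    exact this.eventually (gt_mem_nhds (by linarith))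
  have h4 : ∀ᶠ n in (U : Filter X), 3 * δ / 4 < n2 (x n) :=
    h2.eventually (lt_mem_nhds (by linarith))
  -- the unitaries
  have h5 : ∀ n, ∃ u : N, IsUn u ∧
      ((∃ u : N, IsUn u ∧ δ / 4 < n2 (x n - u * x n * star u)) →
        δ / 4 < n2 (x n - u * x n * star u)) := by
    intro n
    by_cases hn : ∃ u : N, IsUn u ∧ δ / 4 < n2 (x n - u * x n * star u)
    · obtain ⟨u, hu1, hu2⟩ := hn
      exact ⟨u, hu1, fun _ => hu2⟩
    · exact ⟨1, isUn_one, fun h => absurd h hn⟩
  choose u hu hu' using h5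
  have hbu : Bd u := ⟨1, fun n => (hu n).norm_le_one⟩
  have h6 : ∀ᶠ n in (U : Filter X), δ / 4 ≤ n2 (x n - u n * x n * star (u n)) := by
    filter_upwards [h3, h4] with n hn3 hn4
    refine (hu' n ?_).le
    by_contra hcon
    push Not at hcon
    have h7 := dixmier_uniform vnSub_top hN (x := x n) StarSubalgebra.mem_top (δ / 4)
      (fun v _ hv => hcon v hv)
    have h8 : n2 (x n) ≤ n2 (x n - tr (x n) • (1 : N)) + n2 (tr (x n) • (1 : N)) := by
      have := n2_add_le (x n - tr (x n) • (1 : N)) (tr (x n) • (1 : N))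
      rwa [sub_add_cancel] at this
    rw [n2_smul, n2_one, mul_one] at h8
    linarith
  have hbux : Bd (u * x) := UltF_bd_mul hbu hx
  have hbsu : Bd (star u) := UltF_bd_star hbu
  have hbuxu : Bd (u * x * star u) := UltF_bd_mul hbux hbsu
  have hπu : IsUn (π u) := by
    refine isUn_of_star_mul_self ?_
    rw [← hstar u hbu, ← hmul _ _ hbsu hbu]
    have : star u * u = 1 := by
      funext n
      exact (hu n).1
    rw [this, hone]
  have h9 : π (u * x * star u) = z₀ := by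
    rw [hmul _ _ hbux hbsu, hmul _ _ hbu hx, hstar u hbu, hxz, ← hcomm, mul_assoc, hπu.2, mul_one]
  have h10 := h0' x (u * x * star u) hx hbuxu (by rw [h9, hxz])
  have h11 : δ / 4 ≤ 0 := ge_of_tendsto h10 h6
  linarith

theorem IsUltrapower.isII1 {X : Type*} {U : Ultrafilter X} (h : IsUltrapower U N Q)
    (hN : IsII1 N) : IsII1 Q :=
  ⟨UltF_factor h hN.1, UltF_infinite h hN.2⟩

end Pool.Agent.KUR
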